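import Pool.Agent.MSK.Lex

/-! MSK / Blk: block matrices and the two embeddings of Steinberg groups.

`E1 : St (ι ⊕ ℕ) R → St ((ι ⊕ κ) ⊕ ℕ) R` and `E2 : St (κ ⊕ ℕ) R → St ((ι ⊕ κ) ⊕ ℕ) R`; `bd g h` is the block diagonal matrix.
PROOFS. `phi_emb`, `phi_emb_single_of_notMem`, `phi_emb_apply_of_notMem` for the action. `Lft_E1`: `ev v = ev₁ (v ∘ inl) + ev₂ (v ∘ inr)`; the first
part is in the image of `mapDomain`, the second is fixed. `commute_E`: choose (`exists_Lft`) `t ∈ S (range inl ∪ {inr n})` with `Lft n g t` and `t'` similarly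
for `m`; `phi s = phi t`, `phi (E1 s) = phi (E1 t)` etc. and by `comm_eq_of_phi_eq` (`Cen`) `⁅E1 s, E2 s'⁆ = ⁅E1 t, E2 t'⁆`; `E1 t ∈ S I`, `E2 t' ∈ S I'` with disjoint `I`, `I'`
(`emb_mem_S` in `Dot`), and generators with disjoint indices commute. `commute_Lam_E2`: conjugation by `E2 s'` fixes the vectors of
the first block: `conj_LamF`, or `conj_Lam` with `Lft m (bd 1 h) (E2 s')`. `E1_Lam`: `emb_LamF`. -/

set_option autoImplicit false
set_option linter.unusedVariables false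
set_option linter.unusedSectionVars false
set_option linter.unusedSimpArgs false

namespace MSK

open Matrix

variable {ι κ : Type*} [Fintype ι] [DecidableEq ι] [Fintype κ] [DecidableEq κ]
  {R : Type*} [CommRing R]

theorem e1_inj (ι κ : Type*) :
    Function.Injective (Sum.map (Sum.inl : ι → ι ⊕ κ) (id : ℕ → ℕ)) :=
  Function.Injective.sumMap Sum.inl_injective Function.injective_id

theorem e2_inj (ι κ : Type*) :
    Function.Injective (Sum.map (Sum.inr : κ → ι ⊕ κ) (id : ℕ → ℕ)) :=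
  Function.Injective.sumMap Sum.inr_injective Function.injective_id

/-- first block -/
noncomputable def E1 (κ : Type*) : St (ι ⊕ ℕ) R →* St ((ι ⊕ κ) ⊕ ℕ) R := emb _ (e1_inj ι κ)

/-- second block -/
noncomputable def E2 (ι : Type*) : St (κ ⊕ ℕ) R →* St ((ι ⊕ κ) ⊕ ℕ) R := emb _ (e2_inj ι κ)

/-- block diagonal matrices -/
def bd (g : GL ι R) (h : GL κ R) : GL (ι ⊕ κ) R where
  val := Matrix.fromBlocks g 0 0 h
  inv := Matrix.fromBlocks ((g⁻¹ : GL ι R) : Matrix ι ι R) 0 0 ((h⁻¹ : GL κ R) : Matrix κ κ R)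
  val_inv := by
    rw [Matrix.fromBlocks_multiply]
    simp [← Matrix.fromBlocks_one, ← Units.val_mul]
  inv_val := by
    rw [Matrix.fromBlocks_multiply]
    simp [← Matrix.fromBlocks_one, ← Units.val_mul]

theorem coe_bd (g : GL ι R) (h : GL κ R) :
    ((bd g h : GL (ι ⊕ κ) R) : Matrix (ι ⊕ κ) (ι ⊕ κ) R) = Matrix.fromBlocks g 0 0 h := rfl

theorem coe_bd_inv (g : GL ι R) (h : GL κ R) :
    (((bd g h)⁻¹ : GL (ι ⊕ κ) R) : Matrix (ι ⊕ κ) (ι ⊕ κ) R) =
      Matrix.fromBlocks ((g⁻¹ : GL ι R) : Matrix ι ι R) 0 0 ((h⁻¹ : GL κ R) : Matrix κ κ R) := rfl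

theorem bd_mul (g g' : GL ι R) (h h' : GL κ R) : bd (g * g') (h * h') = bd g h * bd g' h' := by
  apply Units.ext
  rw [Units.val_mul, coe_bd, coe_bd, coe_bd, Matrix.fromBlocks_multiply, Units.val_mul,
    Units.val_mul]
  simp

theorem bd_inv (g : GL ι R) (h : GL κ R) : bd g⁻¹ h⁻¹ = (bd g h)⁻¹ := by
  apply Units.ext
  rw [coe_bd, coe_bd_inv]

theorem bd_one : bd (1 : GL ι R) (1 : GL κ R) = 1 := by
  apply Units.ext
  rw [coe_bd, Units.val_one, Units.val_one, Units.val_one, Matrix.fromBlocks_one]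

theorem bd_map {R' : Type*} [CommRing R'] (f : R →+* R') (g : GL ι R) (h : GL κ R) :
    bd (Matrix.GeneralLinearGroup.map f g) (Matrix.GeneralLinearGroup.map f h) =
      Matrix.GeneralLinearGroup.map f (bd g h) := by
  apply Units.ext
  ext i j
  rw [coe_bd, Matrix.GeneralLinearGroup.map_apply, coe_bd]
  rcases i with i | i <;> rcases j with j | j <;> simp

private theorem det_bd (g : GL ι R) (h : GL κ R) :
    Matrix.GeneralLinearGroup.det (bd g h) =
      Matrix.GeneralLinearGroup.det g * Matrix.GeneralLinearGroup.det h := by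
  apply Units.ext
  rw [Units.val_mul, Matrix.GeneralLinearGroup.val_det_apply,
    Matrix.GeneralLinearGroup.val_det_apply, Matrix.GeneralLinearGroup.val_det_apply, coe_bd,
    Matrix.det_fromBlocks_zero₂₁]

private theorem ev_map1 (v : ι → R) :
    (ev v).mapDomain (Sum.map (Sum.inl : ι → ι ⊕ κ) (id : ℕ → ℕ)) =
      ev (Sum.elim v (fun _ => (0 : R)) : ι ⊕ κ → R) := by
  unfold ev
  rw [Finsupp.mapDomain_finsetSum, Fintype.sum_sum_type]
  simp [Finsupp.mapDomain_single]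

private theorem ev_map2 (v : κ → R) :
    (ev v).mapDomain (Sum.map (Sum.inr : κ → ι ⊕ κ) (id : ℕ → ℕ)) =
      ev (Sum.elim (fun _ => (0 : R)) v : ι ⊕ κ → R) := by
  unfold ev
  rw [Finsupp.mapDomain_finsetSum, Fintype.sum_sum_type]
  simp [Finsupp.mapDomain_single]

private theorem ev_split (v : ι ⊕ κ → R) :
    ev v = ev (Sum.elim (fun i => v (Sum.inl i)) (fun _ => (0 : R))) +
      ev (Sum.elim (fun _ => (0 : R)) (fun k => v (Sum.inr k))) := by
  rw [← ev_add]
  congr 1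
  ext i
  rcases i with i | i <;> simp

private theorem notMem1 (k : κ) :
    (Sum.inl (Sum.inr k) : (ι ⊕ κ) ⊕ ℕ) ∉
      Set.range (Sum.map (Sum.inl : ι → ι ⊕ κ) (id : ℕ → ℕ)) := by
  rintro ⟨i | i, hi⟩ <;> simp at hi

private theorem notMem2 (i : ι) :
    (Sum.inl (Sum.inl i) : (ι ⊕ κ) ⊕ ℕ) ∉
      Set.range (Sum.map (Sum.inr : κ → ι ⊕ κ) (id : ℕ → ℕ)) := by
  rintro ⟨k | k, hk⟩ <;> simp at hk

private theorem E1_ev1 (s : St (ι ⊕ ℕ) R) (v w : ι → R) (h : phi s (ev v) = ev w) :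
    phi (E1 κ s) (ev (Sum.elim v (fun _ => (0 : R)))) = ev (Sum.elim w (fun _ => (0 : R))) := by
  unfold E1
  rw [← ev_map1, phi_emb, h, ev_map1]

private theorem E2_ev2 (s : St (κ ⊕ ℕ) R) (v w : κ → R) (h : phi s (ev v) = ev w) :
    phi (E2 ι s) (ev (Sum.elim (fun _ => (0 : R)) v)) = ev (Sum.elim (fun _ => (0 : R)) w) := by
  unfold E2
  rw [← ev_map2, phi_emb, h, ev_map2]

private theorem E1_ev2 (s : St (ι ⊕ ℕ) R) (v : κ → R) :
    phi (E1 κ s) (ev (Sum.elim (fun _ => (0 : R)) v)) = ev (Sum.elim (fun _ => (0 : R)) v) := by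
  unfold E1
  have h : (ev (Sum.elim (fun _ => (0 : R)) v) : ((ι ⊕ κ) ⊕ ℕ) →₀ R) =
      ∑ k, Finsupp.single (Sum.inl (Sum.inr k)) (v k) := by
    unfold ev
    rw [Fintype.sum_sum_type]
    simp
  rw [h, map_sum]
  exact Finset.sum_congr rfl fun k _ => phi_emb_single_of_notMem _ _ _ _ (notMem1 k) _

private theorem E2_ev1 (s : St (κ ⊕ ℕ) R) (v : ι → R) :
    phi (E2 ι s) (ev (Sum.elim v (fun _ => (0 : R)))) = ev (Sum.elim v (fun _ => (0 : R))) := by
  unfold E2
  have h : (ev (Sum.elim v (fun _ => (0 : R))) : ((ι ⊕ κ) ⊕ ℕ) →₀ R) =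
      ∑ i, Finsupp.single (Sum.inl (Sum.inl i)) (v i) := by
    unfold ev
    rw [Fintype.sum_sum_type]
    simp
  rw [h, map_sum]
  exact Finset.sum_congr rfl fun k _ => phi_emb_single_of_notMem _ _ _ _ (notMem2 k) _

private theorem E1_inr (s : St (ι ⊕ ℕ) R) (m : ℕ) (c : R)
    (h : phi s (Finsupp.single (Sum.inr m) 1) = Finsupp.single (Sum.inr m) c) :
    phi (E1 κ s) (Finsupp.single (Sum.inr m) 1) = Finsupp.single (Sum.inr m) c := by
  have h1 := phi_emb _ (e1_inj ι κ) s (Finsupp.single (Sum.inr m) 1)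
  rw [h, Finsupp.mapDomain_single, Finsupp.mapDomain_single] at h1
  exact h1

private theorem E2_inr (s : St (κ ⊕ ℕ) R) (m : ℕ) (c : R)
    (h : phi s (Finsupp.single (Sum.inr m) 1) = Finsupp.single (Sum.inr m) c) :
    phi (E2 ι s) (Finsupp.single (Sum.inr m) 1) = Finsupp.single (Sum.inr m) c := by
  have h1 := phi_emb _ (e2_inj ι κ) s (Finsupp.single (Sum.inr m) 1)
  rw [h, Finsupp.mapDomain_single, Finsupp.mapDomain_single] at h1
  exact h1

private theorem S_commute {J : Type*} {I I' : Set J} (hd : ∀ i ∈ I, ∀ j ∈ I', i ≠ j)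
    {s t : St J R} (hs : s ∈ (S I : Subgroup (St J R))) (ht : t ∈ (S I' : Subgroup (St J R))) :
    Commute s t := by
  refine S_induction (p := fun s => Commute s t) (Commute.one_left _) ?_ hs
  intro i hi j hj a s _ hc
  refine Commute.mul_left ?_ hc
  refine S_induction (p := fun t => Commute (x i j a) t) (Commute.one_right _) ?_ ht
  intro k hk l hl b t _ hc'
  exact Commute.mul_right (x_comm _ _ _ _ _ _ (hd j hj k hk) (hd i hi l hl)) hc'

private theorem emb_mem_image {J J' : Type*} (e : J → J') (he : Function.Injective e) {I : Set J}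
    {s : St J R} (hs : s ∈ (S I : Subgroup (St J R))) :
    emb e he s ∈ (S (e '' I) : Subgroup (St J' R)) := by
  refine S_induction (p := fun s => emb e he s ∈ (S (e '' I) : Subgroup (St J' R))) ?_ ?_ hs
  · rw [map_one]; exact Subgroup.one_mem _
  · intro i hi j hj a s _ h
    rw [map_mul, emb_x]
    exact Subgroup.mul_mem _ (x_mem_S (Set.mem_image_of_mem e hi) (Set.mem_image_of_mem e hj) a) h

theorem Lft_E1 {n : ℕ} {g : GL ι R} {s : St (ι ⊕ ℕ) R} (h : Lft n g s) :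
    Lft n (bd g (1 : GL κ R)) (E1 κ s) := by
  refine ⟨fun v => ?_, fun m => ?_⟩
  · rw [ev_split v, map_add, E1_ev1 s _ _ (h.1 _), E1_ev2, coe_bd, Matrix.fromBlocks_mulVec,
      ← ev_add]
    congr 1
    ext i
    rcases i with i | i
    · simp [Function.comp_def]
    · simp [Function.comp_def]
  · rw [det_bd, map_one, mul_one]
    exact E1_inr s m _ (h.2 m)

theorem Lft_E2 {n : ℕ} {g : GL κ R} {s : St (κ ⊕ ℕ) R} (h : Lft n g s) :
    Lft n (bd (1 : GL ι R) g) (E2 ι s) := by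
  refine ⟨fun v => ?_, fun m => ?_⟩
  · rw [ev_split v, map_add, E2_ev2 s _ _ (h.1 _), E2_ev1, coe_bd, Matrix.fromBlocks_mulVec,
      ← ev_add]
    congr 1
    ext i
    rcases i with i | i
    · simp [Function.comp_def]
    · simp [Function.comp_def]
  · rw [det_bd, map_one, one_mul]
    exact E2_inr s m _ (h.2 m)

theorem Lft_E12 {n : ℕ} {g : GL ι R} {s : St (ι ⊕ ℕ) R} (h : Lft n g s) {g' : GL κ R}
    {s' : St (κ ⊕ ℕ) R} (h' : Lft n g' s') : Lft n (bd g g') (E1 κ s * E2 ι s') := by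
  have h1 : bd g g' = bd g 1 * bd 1 g' := by rw [← bd_mul, mul_one, one_mul]
  rw [h1]
  exact Lft_mul (Lft_E1 h) (Lft_E2 h')

/-- lifts of the two blocks with different auxiliary coordinates commute -/
theorem commute_E [IsLocalRing R] {n m : ℕ} (hnm : n ≠ m) {g : GL ι R} {s : St (ι ⊕ ℕ) R}
    (h : Lft n g s) {g' : GL κ R} {s' : St (κ ⊕ ℕ) R} (h' : Lft m g' s') :
    Commute (E1 κ s) (E2 ι s') := by
  obtain ⟨t, ht, htL⟩ := exists_Lft n g
  obtain ⟨t', ht', htL'⟩ := exists_Lft m g'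
  have h1 : phi (E1 κ s) = phi (E1 κ t) := Lft_phi_eq (Lft_E1 h) (Lft_E1 htL)
  have h2 : phi (E2 ι s') = phi (E2 ι t') := Lft_phi_eq (Lft_E2 h') (Lft_E2 htL')
  rw [← commutatorElement_eq_one_iff_commute, comm_eq_of_phi_eq h1 h2,
    commutatorElement_eq_one_iff_commute]
  refine S_commute ?_ (emb_mem_image _ (e1_inj ι κ) ht) (emb_mem_image _ (e2_inj ι κ) ht')
  rintro _ ⟨i, hi, rfl⟩ _ ⟨j, hj, rfl⟩ hij
  rcases hi with ⟨i, rfl⟩ | hi
  · rcases hj with ⟨j, rfl⟩ | hj
    · simp at hij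
    · rw [Set.mem_singleton_iff] at hj
      subst hj
      simp at hij
  · rw [Set.mem_singleton_iff] at hi
    subst hi
    rcases hj with ⟨j, rfl⟩ | hj
    · simp at hij
    · rw [Set.mem_singleton_iff] at hj
      subst hj
      simp at hij
      exact hnm hij

section

variable {μ : Type*} [Fintype μ]

private theorem Ort_of_mul (A : Matrix ι μ R) (B : Matrix μ ι R) (h : B * A = 0) :
    Ort (fun m => ev (fun i => A i m)) (fun m => ev (fun i => B m i)) := by
  intro m m'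
  rw [dot_ev]
  have := congrFun (congrFun h m') m
  rw [Matrix.mul_apply] at this
  exact this

theorem E1_Lam (A : Matrix ι μ R) (B : Matrix μ ι R) (h : B * A = 0) :
    E1 κ (Lam A B) = Lam (Matrix.fromRows A (0 : Matrix κ μ R)) (Matrix.fromCols B 0) := by
  unfold Lam E1
  rw [emb_LamF _ _ _ _ (Ort_of_mul A B h)]
  congr 1
  · ext1 m
    rw [ev_map1]
    congr 1
    ext i
    rcases i with i | i <;> simp
  · ext1 m
    rw [ev_map1]
    refine congrArg ev ?_
    ext i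
    rcases i with i | i <;> rfl

theorem E2_Lam (A : Matrix κ μ R) (B : Matrix μ κ R) (h : B * A = 0) :
    E2 ι (Lam A B) = Lam (Matrix.fromRows (0 : Matrix ι μ R) A) (Matrix.fromCols 0 B) := by
  unfold Lam E2
  rw [emb_LamF _ _ _ _ (Ort_of_mul A B h)]
  congr 1
  · ext1 m
    rw [ev_map2]
    congr 1
    ext i
    rcases i with i | i <;> simp
  · ext1 m
    rw [ev_map2]
    refine congrArg ev ?_
    ext i
    rcases i with i | i <;> rfl

theorem commute_Lam_E2 (A : Matrix ι μ R) (B : Matrix μ ι R) (h : B * A = 0) {m : ℕ} {g : GL κ R}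
    {s : St (κ ⊕ ℕ) R} (hs : Lft m g s) : Commute (E1 κ (Lam A B)) (E2 ι s) := by
  rw [E1_Lam A B h]
  have h0 : Matrix.fromCols B (0 : Matrix μ κ R) * Matrix.fromRows A (0 : Matrix κ μ R) = 0 := by
    rw [Matrix.fromCols_mul_fromRows, h]
    simp
  have h1 := conj_Lam (Lft_E2 (ι := ι) hs) _ _ h0
  rw [coe_bd, coe_bd_inv, Matrix.fromBlocks_mul_fromRows, Matrix.fromCols_mul_fromBlocks] at h1
  simp only [inv_one, Units.val_one, Matrix.one_mul, Matrix.zero_mul, Matrix.mul_zero, add_zero,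
    Matrix.mul_one, zero_add] at h1
  exact (mul_inv_eq_iff_eq_mul.mp h1).symm

theorem commute_E1_Lam (A : Matrix κ μ R) (B : Matrix μ κ R) (h : B * A = 0) {m : ℕ} {g : GL ι R}
    {s : St (ι ⊕ ℕ) R} (hs : Lft m g s) : Commute (E1 κ s) (E2 ι (Lam A B)) := by
  rw [E2_Lam A B h]
  have h0 : Matrix.fromCols (0 : Matrix μ ι R) B * Matrix.fromRows (0 : Matrix ι μ R) A = 0 := by
    rw [Matrix.fromCols_mul_fromRows, h]
    simp
  have h1 := conj_Lam (Lft_E1 (κ := κ) hs) _ _ h0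
  rw [coe_bd, coe_bd_inv, Matrix.fromBlocks_mul_fromRows, Matrix.fromCols_mul_fromBlocks] at h1
  simp only [inv_one, Units.val_one, Matrix.one_mul, Matrix.zero_mul, Matrix.mul_zero, add_zero,
    Matrix.mul_one, zero_add] at h1
  exact mul_inv_eq_iff_eq_mul.mp h1

end

/-- the unipotent element of an upper right block -/
noncomputable def Up (M : Matrix ι κ R) : St ((ι ⊕ κ) ⊕ ℕ) R :=
  Lam (Matrix.fromRows M (0 : Matrix κ κ R)) (Matrix.fromCols 0 1)

/-- the unipotent element of a lower left block -/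
noncomputable def Lo (M : Matrix κ ι R) : St ((ι ⊕ κ) ⊕ ℕ) R :=
  Lam (Matrix.fromRows (0 : Matrix ι ι R) M) (Matrix.fromCols 1 0)

private theorem up_zero (M : Matrix ι κ R) :
    Matrix.fromCols (0 : Matrix κ ι R) (1 : Matrix κ κ R) *
      Matrix.fromRows M (0 : Matrix κ κ R) = 0 := by
  rw [Matrix.fromCols_mul_fromRows]
  simp

private theorem lo_zero (M : Matrix κ ι R) :
    Matrix.fromCols (1 : Matrix ι ι R) (0 : Matrix ι κ R) *
      Matrix.fromRows (0 : Matrix ι ι R) M = 0 := by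
  rw [Matrix.fromCols_mul_fromRows]
  simp

private theorem fromRows_add {m₁ m₂ n : Type*} (A A' : Matrix m₁ n R) (B B' : Matrix m₂ n R) :
    Matrix.fromRows (A + A') (B + B') = Matrix.fromRows A B + Matrix.fromRows A' B' := by
  ext i j
  rcases i with i | i <;> simp

theorem Up_add (M M' : Matrix ι κ R) : Up (M + M') = Up M * Up M' := by
  unfold Up
  rw [← Lam_add_left _ _ _ (up_zero M) (up_zero M'), ← fromRows_add, add_zero]

theorem Up_neg (M : Matrix ι κ R) : Up (-M) = (Up M)⁻¹ := by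
  unfold Up
  rw [← Lam_neg_left _ _ (up_zero M), Matrix.fromRows_neg, neg_zero]

theorem Lo_add (M M' : Matrix κ ι R) : Lo (M + M') = Lo M * Lo M' := by
  unfold Lo
  rw [← Lam_add_left _ _ _ (lo_zero M) (lo_zero M'), ← fromRows_add, add_zero]

theorem Lo_neg (M : Matrix κ ι R) : Lo (-M) = (Lo M)⁻¹ := by
  unfold Lo
  rw [← Lam_neg_left _ _ (lo_zero M), Matrix.fromRows_neg, neg_zero]

/-- any factorisation of the block gives the same element -/
theorem Up_mul {μ : Type*} [Fintype μ] (A : Matrix ι μ R) (B : Matrix μ κ R) :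
    Lam (Matrix.fromRows A (0 : Matrix κ μ R)) (Matrix.fromCols 0 B) = Up (A * B) := by
  unfold Up
  have h0 : Matrix.fromCols (0 : Matrix κ ι R) (1 : Matrix κ κ R) *
      Matrix.fromRows A (0 : Matrix κ μ R) = 0 := by
    rw [Matrix.fromCols_mul_fromRows]
    simp
  have h1 := Lam_mul (Matrix.fromRows A (0 : Matrix κ μ R)) B
    (Matrix.fromCols (0 : Matrix κ ι R) (1 : Matrix κ κ R)) h0
  rw [Matrix.fromRows_mul, Matrix.mul_fromCols, Matrix.zero_mul, Matrix.mul_zero,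
    Matrix.mul_one] at h1
  exact h1.symm

theorem Lo_mul {μ : Type*} [Fintype μ] (A : Matrix κ μ R) (B : Matrix μ ι R) :
    Lam (Matrix.fromRows (0 : Matrix ι μ R) A) (Matrix.fromCols B 0) = Lo (A * B) := by
  unfold Lo
  have h0 : Matrix.fromCols (1 : Matrix ι ι R) (0 : Matrix ι κ R) *
      Matrix.fromRows (0 : Matrix ι μ R) A = 0 := by
    rw [Matrix.fromCols_mul_fromRows]
    simp
  have h1 := Lam_mul (Matrix.fromRows (0 : Matrix ι μ R) A) B
    (Matrix.fromCols (1 : Matrix ι ι R) (0 : Matrix ι κ R)) h0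
  rw [Matrix.fromRows_mul, Matrix.mul_fromCols, Matrix.zero_mul, Matrix.mul_zero,
    Matrix.mul_one] at h1
  exact h1.symm

theorem Lft_Up (n : ℕ) (M : Matrix ι κ R) (g : GL (ι ⊕ κ) R)
    (hg : (g : Matrix (ι ⊕ κ) (ι ⊕ κ) R) = Matrix.fromBlocks 1 M 0 1) : Lft n g (Up M) := by
  refine Lft_Lam n _ _ (up_zero M) g ?_
  rw [hg, Matrix.fromRows_mul_fromCols, ← Matrix.fromBlocks_one, Matrix.fromBlocks_add]
  simp

theorem Lft_Lo (n : ℕ) (M : Matrix κ ι R) (g : GL (ι ⊕ κ) R)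
    (hg : (g : Matrix (ι ⊕ κ) (ι ⊕ κ) R) = Matrix.fromBlocks 1 0 M 1) : Lft n g (Lo M) := by
  refine Lft_Lam n _ _ (lo_zero M) g ?_
  rw [hg, Matrix.fromRows_mul_fromCols, ← Matrix.fromBlocks_one, Matrix.fromBlocks_add]
  simp

theorem conj_Up {n : ℕ} {g : GL ι R} {h : GL κ R} {s : St ((ι ⊕ κ) ⊕ ℕ) R} (hs : Lft n (bd g h) s)
    (M : Matrix ι κ R) :
    s * Up M * s⁻¹ = Up ((g : Matrix ι ι R) * M * ((h⁻¹ : GL κ R) : Matrix κ κ R)) := by
  have h1 := conj_Lam hs _ _ (up_zero M)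
  rw [coe_bd, coe_bd_inv, Matrix.fromBlocks_mul_fromRows, Matrix.fromCols_mul_fromBlocks] at h1
  simp only [Matrix.one_mul, Matrix.zero_mul, Matrix.mul_zero, add_zero, zero_add] at h1
  rw [← Up_mul]
  exact h1

theorem conj_Lo {n : ℕ} {g : GL ι R} {h : GL κ R} {s : St ((ι ⊕ κ) ⊕ ℕ) R} (hs : Lft n (bd g h) s)
    (M : Matrix κ ι R) :
    s * Lo M * s⁻¹ = Lo ((h : Matrix κ κ R) * M * ((g⁻¹ : GL ι R) : Matrix ι ι R)) := by
  have h1 := conj_Lam hs _ _ (lo_zero M)
  rw [coe_bd, coe_bd_inv, Matrix.fromBlocks_mul_fromRows, Matrix.fromCols_mul_fromBlocks] at h1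
  simp only [Matrix.one_mul, Matrix.zero_mul, Matrix.mul_zero, add_zero, zero_add] at h1
  rw [← Lo_mul]
  exact h1

theorem map_Up {R' : Type*} [CommRing R'] (f : R →+* R') (M : Matrix ι κ R) :
    map f (Up M) = Up (M.map f) := by
  unfold Up
  rw [map_Lam f _ _ (up_zero M), Matrix.fromRows_map, Matrix.fromCols_map,
    Matrix.map_zero f (map_zero f), Matrix.map_zero f (map_zero f),
    Matrix.map_one f (map_zero f) (map_one f)]

theorem map_Lo {R' : Type*} [CommRing R'] (f : R →+* R') (M : Matrix κ ι R) :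
    map f (Lo M) = Lo (M.map f) := by
  unfold Lo
  rw [map_Lam f _ _ (lo_zero M), Matrix.fromRows_map, Matrix.fromCols_map,
    Matrix.map_zero f (map_zero f), Matrix.map_zero f (map_zero f),
    Matrix.map_one f (map_zero f) (map_one f)]

theorem map_E1 {R' : Type*} [CommRing R'] (f : R →+* R') (s : St (ι ⊕ ℕ) R) :
    map f (E1 κ s) = E1 κ (map f s) := by
  have h : (map f).comp (E1 (ι := ι) κ) = (E1 κ).comp (map f) := by
    refine hom_ext fun i j a => ?_
    simp only [MonoidHom.comp_apply, E1, emb_x, map_x]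
  exact DFunLike.congr_fun h s

theorem map_E2 {R' : Type*} [CommRing R'] (f : R →+* R') (s : St (κ ⊕ ℕ) R) :
    map f (E2 ι s) = E2 ι (map f s) := by
  have h : (map f).comp (E2 (κ := κ) ι) = (E2 ι).comp (map f) := by
    refine hom_ext fun i j a => ?_
    simp only [MonoidHom.comp_apply, E2, emb_x, map_x]
  exact DFunLike.congr_fun h s

end MSK
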