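import Pool.Agent.MSK.Tor

/-! MSK / Cell: the big cell of the last column.

`n ∉ I`. `Qn n I` is generated by the `x i j a` with `i ∈ insert n I`, `j ∈ I` (it fixes `e_n`). `Cell n I` is the set of products
`X n v * h * q`, `v` supported in `I`, `h ∈ Hs (insert n I)`, `q ∈ Qn n I`.
PROOFS. `Hs_normal_Q`: for `h ∈ Hs`, `q ∈ Qn`: `h⁻¹ * q * h ∈ Qn` (on generators, `conj_x_diag` with `Hs_diag`).
`cell_x`: `i ∈ I`, `j ∈ I`: `x i j a * X n v = X n (tv i j a v) * x i j a` (`conj_X`, `x i j a ∈ S {n}ᶜ`), then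
`x i j a * h = h * (h⁻¹ * x i j a * h)`. `cell_col`: `x i n a * X n v = X n (single i a + v)`. `cell_h`: `h * X n v * h⁻¹ = X n (phi h v)`:
by additivity for `v = single k b`, `conj_x_diag`. `cell_last`: the last coordinate of `phi (X n v * h * q) e_n` is the unit `d n` of
`Hs_diag`. `cell_row` (`x n j a` with non zero last coordinate afterwards): `a = 0` trivial. Write `v = v_j e_j + v'`.
`x n j a * X n v' = X n v' * Z * x n j a` with `Z = ∏ x_kj(-v_k a) = X j (-(a • v'))`  [`x n j a * X n v' * (x n j a)⁻¹`: `⁅x_kn(b), x_nj(a)⁆ = x_kj(ba)`,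
and the `x_kn`, `x_kj` (`k ≠ n, j`) all commute], and `x n j a * x j n v_j = x j n (v_j/t) * h' * x n j (a/t)` with `t = 1 + a v_j`
(`rank_two` with `i := n`; `t ≠ 0` because `t * d n` is the last coordinate of the product `x n j a * X n v * h * q` acting on `e_n`). Then
`x n j (a/t) * h ∈ h * Qn`, and one multiplies back by `x j n _`, `Z`, `X n v'` (`cell_x`, `cell_col`). -/

set_option autoImplicit false
set_option linter.unusedVariables false

namespace MSK

open scoped commutatorElement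

variable {J : Type*} {K : Type*} [Field K] [DecidableEq J] [Infinite J]

/-- the stabiliser part -/
noncomputable def Qn (n : J) (I : Set J) : Subgroup (St J K) :=
  Subgroup.closure {s | ∃ i ∈ insert n I, ∃ j ∈ I, ∃ a, s = x i j a}

/-- the big cell -/
def Cell (n : J) (I : Set J) : Set (St J K) :=
  {s | ∃ v : J →₀ K, (∀ k ∈ v.support, k ∈ I) ∧ ∃ h ∈ (Hs (insert n I) : Subgroup (St J K)),
    ∃ q ∈ (Qn n I : Subgroup (St J K)), s = X n v * h * q}

theorem phi_Qn {n : J} {I : Set J} (hn : n ∉ I) {q : St J K}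
    (hq : q ∈ (Qn n I : Subgroup (St J K))) (a : K) :
    phi q (Finsupp.single n a) = Finsupp.single n a := by
  refine Subgroup.closure_induction (p := fun q _ => phi q (Finsupp.single n a) = Finsupp.single n a)
    ?_ ?_ ?_ ?_ hq
  · rintro _ ⟨i, hi, j, hj, b, rfl⟩
    rw [phi_x]
    by_cases hij : i = j
    · subst hij
      rw [tv_self]
      rfl
    · have hnj : n ≠ j := by
        rintro rfl
        exact hn hj
      rw [tv_apply i j hij, Finsupp.single_apply, if_neg hnj, mul_zero, Finsupp.single_zero, add_zero]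
  · rw [map_one]
    rfl
  · intro s t _ _ h1 h2
    rw [map_mul, LinearEquiv.mul_apply, h2, h1]
  · intro s _ h
    rw [map_inv]
    have h2 : (phi s)⁻¹ (phi s (Finsupp.single n a)) = Finsupp.single n a := by
      rw [← LinearEquiv.mul_apply, inv_mul_cancel]
      rfl
    rwa [h] at h2

theorem conj_Qn {n : J} {I : Set J} {h q : St J K}
    (hh : h ∈ (Hs (insert n I) : Subgroup (St J K))) (hq : q ∈ (Qn n I : Subgroup (St J K))) :
    h⁻¹ * q * h ∈ (Qn n I : Subgroup (St J K)) := by
  obtain ⟨d, hd, -⟩ := Hs_diag (Subgroup.inv_mem _ hh)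
  refine Subgroup.closure_induction (p := fun q _ => h⁻¹ * q * h ∈ (Qn n I : Subgroup (St J K)))
    ?_ ?_ ?_ ?_ hq
  · rintro _ ⟨i, hi, j, hj, b, rfl⟩
    have h1 := conj_x_diag h⁻¹ d hd i j b
    rw [inv_inv] at h1
    rw [h1]
    exact Subgroup.subset_closure ⟨i, hi, j, hj, _, rfl⟩
  · rw [mul_one, inv_mul_cancel]
    exact Subgroup.one_mem _
  · intro s t _ _ h1 h2
    have h3 : h⁻¹ * (s * t) * h = (h⁻¹ * s * h) * (h⁻¹ * t * h) := by group
    rw [h3]
    exact Subgroup.mul_mem _ h1 h2
  · intro s _ h1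
    have h3 : h⁻¹ * s⁻¹ * h = (h⁻¹ * s * h)⁻¹ := by group
    rw [h3]
    exact Subgroup.inv_mem _ h1

theorem Qn_subset_Cell {n : J} {I : Set J} {q : St J K}
    (hq : q ∈ (Qn n I : Subgroup (St J K))) : q ∈ (Cell n I : Set (St J K)) := by
  refine ⟨0, fun k hk => ?_, 1, Subgroup.one_mem _, q, hq, ?_⟩
  · simp at hk
  · rw [X_zero, one_mul, one_mul]

private theorem cell_supp {I : Set J} {v : J →₀ K} : (∀ k ∈ v.support, k ∈ I) ↔ ∀ k, k ∉ I → v k = 0 := by
  constructor
  · intro h k hk
    by_contra h0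
    exact hk (h k (Finsupp.mem_support_iff.2 h0))
  · intro h k hk
    by_contra h0
    exact Finsupp.mem_support_iff.1 hk (h k h0)

theorem cell_x {n : J} {I : Set J} (hn : n ∉ I) {s : St J K} (hs : s ∈ (Cell n I : Set (St J K)))
    {i j : J} (hi : i ∈ I) (hj : j ∈ I) (a : K) : x i j a * s ∈ (Cell n I : Set (St J K)) := by
  obtain ⟨v, hv, h, hh, q, hq, rfl⟩ := hs
  have hS : (x i j a : St J K) ∈ (S I : Subgroup (St J K)) := x_mem_S hi hj a
  have hS' : (x i j a : St J K) ∈ (S {n}ᶜ : Subgroup (St J K)) := by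
    refine S_mono ?_ hS
    intro k hk hkn
    rw [Set.mem_singleton_iff] at hkn
    rw [hkn] at hk
    exact hn hk
  have hQ : (x i j a : St J K) ∈ (Qn n I : Subgroup (St J K)) :=
    Subgroup.subset_closure ⟨i, Set.mem_insert_of_mem _ hi, j, hj, a, rfl⟩
  refine ⟨phi (x i j a) v, ?_, h, hh, (h⁻¹ * x i j a * h) * q,
    Subgroup.mul_mem _ (conj_Qn hh hQ) hq, ?_⟩
  · rw [cell_supp] at hv ⊢
    intro k hk
    rw [phi_apply_of_notMem hS hk, hv k hk]
  · rw [← conj_X hS' v]
    group

theorem cell_S {n : J} {I : Set J} (hn : n ∉ I) {s : St J K} (hs : s ∈ (Cell n I : Set (St J K)))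
    {t : St J K} (ht : t ∈ (S I : Subgroup (St J K))) : t * s ∈ (Cell n I : Set (St J K)) := by
  refine S_induction (p := fun t => t * s ∈ (Cell n I : Set (St J K))) ?_ ?_ ht
  · rw [one_mul]
    exact hs
  · intro i hi j hj a t _ h
    rw [mul_assoc]
    exact cell_x hn h hi hj a

theorem cell_col {n : J} {I : Set J} (hn : n ∉ I) {s : St J K}
    (hs : s ∈ (Cell n I : Set (St J K))) {v : J →₀ K} (hv : ∀ k ∈ v.support, k ∈ I) :
    X n v * s ∈ (Cell n I : Set (St J K)) := by
  obtain ⟨v', hv', h, hh, q, hq, rfl⟩ := hs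
  refine ⟨v + v', ?_, h, hh, q, hq, ?_⟩
  · rw [cell_supp] at hv hv' ⊢
    intro k hk
    rw [Finsupp.add_apply, hv k hk, hv' k hk, add_zero]
  · rw [X_add]
    group

/-- conjugation of a column by an element acting diagonally -/
theorem cell_conj_X (n : J) (s : St J K) (d : J → Kˣ)
    (hs : ∀ v : J →₀ K, ∀ k, (phi s v) k = (d k : K) * v k) (v : J →₀ K) :
    s * X n v * s⁻¹ = X n ((((d n)⁻¹ : Kˣ) : K) • phi s v) := by
  induction v using Finsupp.induction_linear with
  | zero => rw [map_zero, smul_zero, X_zero, mul_one, mul_inv_cancel]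
  | add v v' h h' =>
    rw [map_add, smul_add, X_add, X_add, ← h, ← h']
    group
  | single k b =>
    have h1 : phi s (Finsupp.single k b) = Finsupp.single k ((d k : K) * b) := by
      ext l
      rw [hs, Finsupp.single_apply, Finsupp.single_apply]
      by_cases hkl : k = l
      · rw [if_pos hkl, if_pos hkl, hkl]
      · rw [if_neg hkl, if_neg hkl, mul_zero]
    rw [h1, Finsupp.smul_single, X_single, X_single, conj_x_diag s d hs, smul_eq_mul]
    congr 1
    ring

theorem cell_h {n : J} {I : Set J} (hn : n ∉ I) {s : St J K} (hs : s ∈ (Cell n I : Set (St J K)))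
    {h : St J K} (hh : h ∈ (Hs (insert n I) : Subgroup (St J K))) :
    h * s ∈ (Cell n I : Set (St J K)) := by
  obtain ⟨v, hv, h', hh', q, hq, rfl⟩ := hs
  obtain ⟨d, hd, -⟩ := Hs_diag hh
  refine ⟨(((d n)⁻¹ : Kˣ) : K) • phi h v, ?_, h * h', Subgroup.mul_mem _ hh hh', q, hq, ?_⟩
  · rw [cell_supp] at hv ⊢
    intro k hk
    rw [Finsupp.smul_apply, hd, hv k hk, mul_zero, smul_zero]
  · rw [← cell_conj_X n h d hd v]
    group

/-- a canonical transvection with a basis covector is a column -/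
theorem cell_T_erase (j : J) (u : J →₀ K) : T (u.erase j) (Finsupp.single j 1) = X j u := by
  have hdot : ∀ u : J →₀ K, dot (Finsupp.single j 1) (u.erase j) = 0 := by
    intro u
    rw [dot_single_left, Finsupp.erase_same, mul_zero]
  induction u using Finsupp.induction_linear with
  | zero => rw [Finsupp.erase_zero, T_zero_left, X_zero]
  | add u u' h h' => rw [Finsupp.erase_add, T_add_left _ _ _ (hdot u) (hdot u'), h, h', X_add]
  | single k b =>
    rw [X_single]
    by_cases hkj : k = j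
    · subst hkj
      rw [Finsupp.erase_single, T_zero_left, x_self]
    · rw [Finsupp.erase_single_ne (fun h => hkj h.symm), T_single k j hkj, mul_one]

/-- moving a row element past a column -/
theorem cell_row_col {n j : J} (hnj : n ≠ j) (a : K) (v : J →₀ K) (hvn : v n = 0) (hvj : v j = 0) :
    x n j a * X n v = X n v * X j (-(a • v)) * x n j a := by
  have h1 := conj_x (X n (-v)) n j hnj a
  rw [phi_X n (-v) _ (by rw [Finsupp.neg_apply, hvn, neg_zero]),
    psi_X n (-v) _ (by rw [Finsupp.neg_apply, hvn, neg_zero]), dot_single_right, Finsupp.neg_apply,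
    hvj, neg_zero, zero_mul, Finsupp.single_zero, sub_zero, Finsupp.single_eq_same, smul_neg,
    add_comm, T_add_left _ _ _ (by
      rw [dot_single_left, Finsupp.neg_apply, Finsupp.smul_apply, hvj, smul_zero, neg_zero, mul_zero])
      (by rw [dot_single_left, Finsupp.single_apply, if_neg hnj, mul_zero]), T_single n j hnj,
    mul_one] at h1
  have h2 : (-(a • v)).erase j = -(a • v) := by
    refine Finsupp.erase_of_notMem_support ?_
    rw [Finsupp.notMem_support_iff, Finsupp.neg_apply, Finsupp.smul_apply, hvj, smul_zero, neg_zero]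
  rw [← cell_T_erase j (-(a • v)), h2]
  rw [X_neg, inv_inv] at h1
  rw [mul_assoc (X n v), ← h1]
  group

/-- `x n j a * s` stays in the cell if its last coordinate does not vanish -/
theorem cell_row {n : J} {I : Set J} (hn : n ∉ I) {s : St J K}
    (hs : s ∈ (Cell n I : Set (St J K))) {j : J} (hj : j ∈ I) (a : K)
    (hne : (phi (x n j a * s) (Finsupp.single n 1)) n ≠ 0) :
    x n j a * s ∈ (Cell n I : Set (St J K)) := by
  have hnj : n ≠ j := by
    rintro rfl
    exact hn hj
  by_cases ha : a = 0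
  · rw [ha, x_zero, one_mul]
    exact hs
  obtain ⟨v, hv, h, hh, q, hq, rfl⟩ := hs
  rw [cell_supp] at hv
  have hvn : v n = 0 := hv n hn
  obtain ⟨d, hd, -⟩ := Hs_diag hh
  have hphi : (phi (x n j a * (X n v * h * q)) (Finsupp.single n 1)) n = (d n : K) * (1 + a * v j) := by
    rw [map_mul, map_mul, map_mul, LinearEquiv.mul_apply, LinearEquiv.mul_apply, LinearEquiv.mul_apply,
      phi_Qn hn hq, phi_x, tv_apply n j hnj, phi_X n v _ hvn, Finsupp.add_apply, Finsupp.add_apply,
      Finsupp.add_apply, Finsupp.smul_apply, Finsupp.smul_apply, hd, hd, Finsupp.single_eq_same,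
      Finsupp.single_eq_same, Finsupp.single_apply, if_neg hnj, hvn, smul_eq_mul, smul_eq_mul]
    ring
  rw [hphi] at hne
  have ht : 1 + a * v j ≠ 0 := right_ne_zero_of_mul hne
  set v' : J →₀ K := v.erase j with hv'
  have e1 : v = v' + Finsupp.single j (v j) := by
    rw [hv', Finsupp.erase_add_single]
  have hv'j : v' j = 0 := by rw [hv', Finsupp.erase_same]
  have hv'n : v' n = 0 := by rw [hv', Finsupp.erase_ne hnj, hvn]
  have hv'I : ∀ k, k ∉ I → v' k = 0 := by
    intro k hk
    by_cases hkj : k = j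
    · rw [hkj, hv'j]
    · rw [hv', Finsupp.erase_ne hkj, hv k hk]
  have e2 : X n v = X n v' * x j n (v j) := by
    conv_lhs => rw [e1]
    rw [X_add, X_single]
  have e3 := cell_row_col hnj a v' hv'n hv'j
  have e4 := rank_two n j hnj (Units.mk0 a ha) (Units.mk0 _ ht) (v j) rfl
  rw [Units.val_mk0] at e4
  set H' : St J K := ww n j (Units.mk0 a ha) * ww n j (-(Units.mk0 a ha * (Units.mk0 _ ht)⁻¹)) with hH'
  set c : K := v j * (((Units.mk0 _ ht)⁻¹ : Kˣ) : K) with hc
  set a' : K := a * (((Units.mk0 _ ht)⁻¹ : Kˣ) : K) with ha'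
  have hH : H' ∈ (Hs (insert n I) : Subgroup (St J K)) := by
    have h1 : ∀ u : Kˣ, (MSK.hh n j u : St J K) ∈ (Hs (insert n I) : Subgroup (St J K)) := fun u =>
      Subgroup.mem_sup_left (Subgroup.subset_closure
        ⟨n, Set.mem_insert _ _, j, Set.mem_insert_of_mem _ hj, hnj, u, rfl⟩)
    have h2 : H' = MSK.hh n j (Units.mk0 a ha) * (MSK.hh n j (Units.mk0 a ha * (Units.mk0 _ ht)⁻¹))⁻¹ := by
      rw [hH', MSK.hh, MSK.hh, ww_neg n j (Units.mk0 a ha * (Units.mk0 _ ht)⁻¹)]
      group
    rw [h2]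
    exact Subgroup.mul_mem _ (h1 _) (Subgroup.inv_mem _ (h1 _))
  have hQ : (x n j a' : St J K) ∈ (Qn n I : Subgroup (St J K)) :=
    Subgroup.subset_closure ⟨n, Set.mem_insert _ _, j, hj, a', rfl⟩
  have hin : X n (Finsupp.single j c) * (H' * h) * ((h⁻¹ * x n j a' * h) * q) ∈
      (Cell n I : Set (St J K)) := by
    refine ⟨_, ?_, _, Subgroup.mul_mem _ hH hh, _, Subgroup.mul_mem _ (conj_Qn hh hQ) hq, rfl⟩
    rw [cell_supp]
    intro k hk
    rw [Finsupp.single_apply, if_neg]
    rintro rfl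
    exact hk hj
  have hZ : X j (-(a • v')) ∈ (S I : Subgroup (St J K)) := by
    refine X_mem_S hj _ ?_
    rw [cell_supp]
    intro k hk
    rw [Finsupp.neg_apply, Finsupp.smul_apply, hv'I k hk, smul_zero, neg_zero]
  have h9 := cell_col hn (cell_S hn hin hZ) (v := v') (cell_supp.2 hv'I)
  have e5 : x n j a * (X n v * h * q) = X n v' * (X j (-(a • v')) *
      (X n (Finsupp.single j c) * (H' * h) * ((h⁻¹ * x n j a' * h) * q))) := by
    rw [e2, X_single]
    calc x n j a * (X n v' * x j n (v j) * h * q) = (x n j a * X n v') * x j n (v j) * h * q := by group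
      _ = X n v' * X j (-(a • v')) * (x n j a * x j n (v j)) * h * q := by rw [e3]; group
      _ = _ := by rw [e4]; group
  rw [e5]
  exact h9

end MSK
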