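import Pool.Agent.MSK.Col

/-! MSK / Cen: `K2 J R` is central for infinite `J`.

PROOF. `X_inj`: if `X n v = X n v'` then `v k = v' k` for `k ≠ n` (apply `phi` to `single n 1`; use `X_congr` to make the
`n`-th coordinates `0`). Let `s ∈ K2`, `s ∈ S I`, `I` finite (`exists_finset_mem_S`). For `n ∉ I`: `s ∈ S {n}ᶜ` (`S_mono`), so
`s X n v s⁻¹ = X n (phi s v) = X n v`, and `psi s = 1` (`phi_eq_one_iff`), so `s` commutes with `Y n w`. Hence `s` commutes with
`x k n a` and `x n k a` for all `k` (single). For `i ≠ j` choose `n ∉ I ∪ {i, j}` (`Infinite.exists_notMem_finset`):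
`x i j a = ⁅x i n a, x n j 1⁆` commutes with `s`. So `s` commutes with all generators: `s` is central
(`closure_x`, `Subgroup.mem_center_iff`). -/

set_option autoImplicit false
set_option linter.unusedVariables false

namespace MSK

open scoped commutatorElement

variable {J : Type*} {R : Type*} [CommRing R] [DecidableEq J]

theorem mem_S_compl {I : Finset J} {s : St J R} (hs : s ∈ (S (I : Set J) : Subgroup (St J R)))
    {n : J} (hn : n ∉ I) : s ∈ (S {n}ᶜ : Subgroup (St J R)) := by
  refine S_mono ?_ hs
  intro k hk hkn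
  rw [Set.mem_singleton_iff] at hkn
  subst hkn
  exact hn hk

/-- `K2` is central. -/
theorem K2_central [Infinite J] {s : St J R} (hs : s ∈ K2 J R) (t : St J R) : s * t = t * s := by
  obtain ⟨I, hI⟩ := exists_finset_mem_S s
  have hphi : phi s = 1 := mem_K2.mp hs
  have hpsi : psi s = 1 := (phi_eq_one_iff s).mp hphi
  have hX : ∀ n, n ∉ I → ∀ v : J →₀ R, Commute s (X n v) := by
    intro n hn v
    have h := conj_X (mem_S_compl hI hn) v
    rw [hphi, LinearEquiv.coe_one, id_eq] at h
    exact mul_inv_eq_iff_eq_mul.mp h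
  have hY : ∀ n, n ∉ I → ∀ v : J →₀ R, Commute s (Y n v) := by
    intro n hn v
    have h := conj_Y (mem_S_compl hI hn) v
    rw [hpsi, LinearEquiv.coe_one, id_eq] at h
    exact mul_inv_eq_iff_eq_mul.mp h
  have hx : ∀ i j a, Commute s (x i j a : St J R) := by
    intro i j a
    by_cases hij : i = j
    · rw [hij, x_self]; exact Commute.one_right _
    obtain ⟨n, hn⟩ := Infinite.exists_notMem_finset (insert i (insert j I))
    simp only [Finset.mem_insert, not_or] at hn
    have h1 : Commute s (x i n a : St J R) := by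
      rw [← X_single]; exact hX n hn.2.2 _
    have h2 : Commute s (x n j 1 : St J R) := by
      rw [← Y_single]; exact hY n hn.2.2 _
    have h3 := x_comm3 i n j a (1 : R) (Ne.symm hn.1) hn.2.1 hij
    rw [mul_one] at h3
    rw [← h3, commutatorElement_def]
    exact ((h1.mul_right h2).mul_right h1.inv_right).mul_right h2.inv_right
  show Commute s t
  induction t using induction_left with
  | h1 => exact Commute.one_right _
  | hx i j a t ht => exact (hx i j a).mul_right ht

theorem K2_le_center [Infinite J] : K2 J R ≤ Subgroup.center (St J R) := by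
  intro s hs
  rw [Subgroup.mem_center_iff]
  intro t
  exact (K2_central hs t).symm

/-- conjugation depends only on the action -/
theorem conj_eq_of_phi_eq [Infinite J] {s s' : St J R} (h : phi s = phi s') (t : St J R) :
    s * t * s⁻¹ = s' * t * s'⁻¹ := by
  have hk : s'⁻¹ * s ∈ K2 J R := by
    rw [mem_K2, map_mul, map_inv, h, inv_mul_cancel]
  have hc := K2_central hk t
  have hc' : s'⁻¹ * s * t * s⁻¹ * s' = t := by
    rw [hc]; group
  calc s * t * s⁻¹ = s' * (s'⁻¹ * s * t * s⁻¹ * s') * s'⁻¹ := by group
    _ = s' * t * s'⁻¹ := by rw [hc']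

/-- commutators depend only on the action -/
theorem comm_eq_of_phi_eq [Infinite J] {s s' t t' : St J R} (h : phi s = phi s')
    (h' : phi t = phi t') : ⁅s, t⁆ = ⁅s', t'⁆ := by
  have h1 := conj_eq_of_phi_eq h t
  have h2 := conj_eq_of_phi_eq h' s'⁻¹
  calc ⁅s, t⁆ = (s * t * s⁻¹) * t⁻¹ := by rw [commutatorElement_def]
    _ = s' * (t * s'⁻¹ * t⁻¹) := by rw [h1]; group
    _ = ⁅s', t'⁆ := by rw [h2, commutatorElement_def]; group

end MSK
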