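import Pool.Agent.MSK.Dot

/-! MSK / Col: columns `X n v = ∏_k x_kn(v_k)` and rows `Y n w = ∏_k x_nk(w_k)`.

CONSTRUCTION. For fixed `n` the `x k n a` (`k` arbitrary, `x n n a = 1`) commute pairwise, so the closure of
them is commutative (`Subgroup.closureCommGroupOfComm`), and `Finsupp.liftAddHom` gives `X n` (`exists_liftF`).
The same for rows. -/

set_option autoImplicit false
set_option linter.unusedVariables false

namespace MSK

open scoped commutatorElement

variable {J : Type*} {R : Type*} [CommRing R] [DecidableEq J]

/-- a commuting family of additive maps extends to finitely supported functions -/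
theorem exists_liftF {G : Type*} [Group G] (f : J → R → G)
    (h1 : ∀ k a b, f k (a + b) = f k a * f k b)
    (h2 : ∀ k k' a b, f k a * f k' b = f k' b * f k a) :
    ∃ H : Multiplicative (J →₀ R) →* G,
      ∀ k a, H (Multiplicative.ofAdd (Finsupp.single k a)) = f k a := by
  have hcomm : ∀ s ∈ {s : G | ∃ k a, s = f k a}, ∀ t ∈ {s : G | ∃ k a, s = f k a},
      s * t = t * s := by
    rintro s ⟨k, a, rfl⟩ t ⟨k', b, rfl⟩
    exact h2 k k' a b
  let _ : CommGroup (Subgroup.closure {s : G | ∃ k a, s = f k a}) :=
    Subgroup.closureCommGroupOfComm hcomm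
  have hmem : ∀ k a, f k a ∈ Subgroup.closure {s : G | ∃ k a, s = f k a} := fun k a =>
    Subgroup.subset_closure ⟨k, a, rfl⟩
  let F : J → R →+ Additive (Subgroup.closure {s : G | ∃ k a, s = f k a}) := fun k =>
    AddMonoidHom.mk' (fun a => Additive.ofMul ⟨f k a, hmem k a⟩) (by
      intro a b
      rw [← ofMul_mul]
      congr 1
      apply Subtype.ext
      exact h1 k a b)
  let L : (J →₀ R) →+ Additive (Subgroup.closure {s : G | ∃ k a, s = f k a}) :=
    Finsupp.liftAddHom F
  let H : Multiplicative (J →₀ R) →* G := MonoidHom.mk' (fun v =>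
    ((Additive.toMul (L (Multiplicative.toAdd v)) :
      Subgroup.closure {s : G | ∃ k a, s = f k a}) : G)) (by
    intro v w
    rw [toAdd_mul, map_add, toMul_add, Subgroup.coe_mul])
  refine ⟨H, ?_⟩
  intro k a
  have hL : L (Finsupp.single k a) = F k a := Finsupp.liftAddHom_apply_single F k a
  show ((Additive.toMul (L (Finsupp.single k a)) :
    Subgroup.closure {s : G | ∃ k a, s = f k a}) : G) = f k a
  rw [hL]
  rfl

theorem col_comm (n k k' : J) (a b : R) :
    (x k n a : St J R) * x k' n b = x k' n b * x k n a := by
  by_cases h : k = n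
  · subst h; rw [x_self, one_mul, mul_one]
  by_cases h' : k' = n
  · subst h'; rw [x_self, one_mul, mul_one]
  exact x_comm k n k' n a b (Ne.symm h') h

theorem row_comm (n k k' : J) (a b : R) :
    (x n k a : St J R) * x n k' b = x n k' b * x n k a := by
  by_cases h : k = n
  · subst h; rw [x_self, one_mul, mul_one]
  by_cases h' : k' = n
  · subst h'; rw [x_self, one_mul, mul_one]
  exact x_comm n k n k' a b h (Ne.symm h')

/-- `X n v = ∏_{k ≠ n} x_kn(v_k)` -/
noncomputable def X (n : J) (v : J →₀ R) : St J R :=
  (exists_liftF (fun k a => (x k n a : St J R)) (fun k a b => x_add k n a b)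
    (fun k k' a b => col_comm n k k' a b)).choose (Multiplicative.ofAdd v)

/-- `Y n w = ∏_{k ≠ n} x_nk(w_k)` -/
noncomputable def Y (n : J) (w : J →₀ R) : St J R :=
  (exists_liftF (fun k a => (x n k a : St J R)) (fun k a b => x_add n k a b)
    (fun k k' a b => row_comm n k k' a b)).choose (Multiplicative.ofAdd w)

theorem X_add (n : J) (v v' : J →₀ R) : X n (v + v') = X n v * X n v' := by
  unfold X
  rw [ofAdd_add, map_mul]

theorem X_zero (n : J) : X n (0 : J →₀ R) = 1 := by
  unfold X
  rw [ofAdd_zero, map_one]

theorem X_neg (n : J) (v : J →₀ R) : X n (-v) = (X n v)⁻¹ := by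
  unfold X
  rw [ofAdd_neg, map_inv]

theorem X_single (n k : J) (a : R) : X n (Finsupp.single k a) = x k n a :=
  (exists_liftF (fun k a => (x k n a : St J R)) (fun k a b => x_add k n a b)
    (fun k k' a b => col_comm n k k' a b)).choose_spec k a

theorem X_comm' (n : J) (v v' : J →₀ R) : X n v * X n v' = X n v' * X n v := by
  rw [← X_add, add_comm, X_add]

theorem X_erase (n : J) (v : J →₀ R) : X n (v.erase n) = X n v := by
  conv_rhs => rw [← Finsupp.single_add_erase n v, X_add, X_single, x_self, one_mul]

theorem X_congr (n : J) (v v' : J →₀ R) (h : ∀ k, k ≠ n → v k = v' k) : X n v = X n v' := by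
  rw [← X_erase n v, ← X_erase n v']
  congr 1
  ext k
  by_cases hk : k = n
  · subst hk; rw [Finsupp.erase_same, Finsupp.erase_same]
  · rw [Finsupp.erase_ne hk, Finsupp.erase_ne hk, h k hk]

theorem Y_add (n : J) (w w' : J →₀ R) : Y n (w + w') = Y n w * Y n w' := by
  unfold Y
  rw [ofAdd_add, map_mul]

theorem Y_zero (n : J) : Y n (0 : J →₀ R) = 1 := by
  unfold Y
  rw [ofAdd_zero, map_one]

theorem Y_neg (n : J) (w : J →₀ R) : Y n (-w) = (Y n w)⁻¹ := by
  unfold Y
  rw [ofAdd_neg, map_inv]

theorem Y_single (n k : J) (a : R) : Y n (Finsupp.single k a) = x n k a :=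
  (exists_liftF (fun k a => (x n k a : St J R)) (fun k a b => x_add n k a b)
    (fun k k' a b => row_comm n k k' a b)).choose_spec k a

theorem Y_comm' (n : J) (v v' : J →₀ R) : Y n v * Y n v' = Y n v' * Y n v := by
  rw [← Y_add, add_comm, Y_add]

theorem Y_erase (n : J) (v : J →₀ R) : Y n (v.erase n) = Y n v := by
  conv_rhs => rw [← Finsupp.single_add_erase n v, Y_add, Y_single, x_self, one_mul]

theorem Y_congr (n : J) (w w' : J →₀ R) (h : ∀ k, k ≠ n → w k = w' k) : Y n w = Y n w' := by
  rw [← Y_erase n w, ← Y_erase n w']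
  congr 1
  ext k
  by_cases hk : k = n
  · subst hk; rw [Finsupp.erase_same, Finsupp.erase_same]
  · rw [Finsupp.erase_ne hk, Finsupp.erase_ne hk, h k hk]

theorem conj_X_x {n i j : J} (hi : i ≠ n) (hj : j ≠ n) (a : R) (v : J →₀ R) :
    x i j a * X n v * (x i j a)⁻¹ = X n (tv i j a v) := by
  by_cases hij : i = j
  · subst hij
    rw [x_self, tv_self]
    simp
  induction v using Finsupp.induction_linear with
  | zero => rw [map_zero, X_zero]; simp
  | add u u' h h' =>
    rw [map_add, X_add, X_add, ← h, ← h']
    group
  | single k b =>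
    rw [tv_apply i j hij, X_single]
    by_cases hkn : k = n
    · subst hkn
      rw [Finsupp.single_eq_of_ne hj, mul_zero, Finsupp.single_zero, add_zero, X_single, x_self]
      group
    by_cases hkj : k = j
    · subst hkj
      rw [Finsupp.single_eq_same, X_add, X_single, X_single, col_comm n,
        ← x_comm3 i k n a b hij hkn hi, commutatorElement_def]
      group
    · rw [Finsupp.single_eq_of_ne (Ne.symm hkj), mul_zero, Finsupp.single_zero, add_zero,
        X_single, (x_comm i j k n a b (Ne.symm hkj) hi).eq]
      group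

theorem conj_Y_x {n i j : J} (hi : i ≠ n) (hj : j ≠ n) (a : R) (v : J →₀ R) :
    x i j a * Y n v * (x i j a)⁻¹ = Y n (tv j i (-a) v) := by
  by_cases hij : i = j
  · subst hij
    rw [x_self, tv_self]
    simp
  induction v using Finsupp.induction_linear with
  | zero => rw [map_zero, Y_zero]; simp
  | add u u' h h' =>
    rw [map_add, Y_add, Y_add, ← h, ← h']
    group
  | single k b =>
    rw [tv_apply j i (Ne.symm hij), Y_single]
    by_cases hkn : k = n
    · subst hkn
      rw [Finsupp.single_eq_of_ne hi, mul_zero, Finsupp.single_zero, add_zero, Y_single, x_self]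
      group
    by_cases hki : k = i
    · subst hki
      have h3 := x_comm3 n k j b a (Ne.symm hkn) hij (Ne.symm hj)
      have hneg : (x n j (-a * b) : St J R) = (x n j (b * a))⁻¹ := by
        rw [← x_neg]; congr 1; ring
      rw [Finsupp.single_eq_same, Y_add, Y_single, Y_single, row_comm n, hneg, ← h3,
        commutatorElement_def]
      group
    · rw [Finsupp.single_eq_of_ne (Ne.symm hki), mul_zero, Finsupp.single_zero, add_zero,
        Y_single, (x_comm i j n k a b hj (Ne.symm hki)).eq]
      group

/-- the columns are normalised by `S {n}ᶜ` -/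
theorem conj_X {n : J} {s : St J R} (hs : s ∈ (S {n}ᶜ : Subgroup (St J R))) (v : J →₀ R) :
    s * X n v * s⁻¹ = X n (phi s v) := by
  revert v
  refine S_induction (p := fun s => ∀ v : J →₀ R, s * X n v * s⁻¹ = X n (phi s v)) ?_ ?_ hs
  · intro v; rw [map_one]; simp
  · intro i hi j hj a s _ ih v
    rw [map_mul, LinearEquiv.mul_apply, phi_x, ← conj_X_x hi hj, ← ih v]
    group

/-- the rows are normalised by `S {n}ᶜ` -/
theorem conj_Y {n : J} {s : St J R} (hs : s ∈ (S {n}ᶜ : Subgroup (St J R))) (w : J →₀ R) :
    s * Y n w * s⁻¹ = Y n (psi s w) := by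
  revert w
  refine S_induction (p := fun s => ∀ v : J →₀ R, s * Y n v * s⁻¹ = Y n (psi s v)) ?_ ?_ hs
  · intro v; rw [map_one]; simp
  · intro i hi j hj a s _ ih v
    rw [map_mul, LinearEquiv.mul_apply, psi_x, ← conj_Y_x hi hj, ← ih v]
    group

theorem erase_eq_of_zero {n : J} {v : J →₀ R} (hv : v n = 0) : v.erase n = v :=
  Finsupp.erase_of_notMem_support (by simpa using hv)

theorem erase_single_ne' {n k : J} (h : k ≠ n) (b : R) :
    (Finsupp.single k b).erase n = Finsupp.single k b :=
  erase_eq_of_zero (Finsupp.single_eq_of_ne h.symm)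

theorem dot_zero_left' (u : J →₀ R) : dot (0 : J →₀ R) u = 0 := by
  simp [dot]

theorem phi_X_aux (n : J) (v u : J →₀ R) : phi (X n v) u = u + u n • v.erase n := by
  induction v using Finsupp.induction_linear generalizing u with
  | zero => rw [X_zero, map_one]; simp
  | add v v' h h' =>
    rw [X_add, map_mul, LinearEquiv.mul_apply, h', h, Finsupp.erase_add, smul_add]
    simp only [Finsupp.add_apply, Finsupp.smul_apply, Finsupp.erase_same, smul_zero, add_zero]
    abel
  | single k b =>
    rw [X_single, phi_x]
    by_cases hk : k = n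
    · subst hk
      rw [tv_self, Finsupp.erase_single]
      simp
    · rw [tv_apply k n hk, erase_single_ne' hk, Finsupp.smul_single, smul_eq_mul, mul_comm]

theorem phi_Y_aux (n : J) (w u : J →₀ R) :
    phi (Y n w) u = u + Finsupp.single n (dot (w.erase n) u) := by
  induction w using Finsupp.induction_linear generalizing u with
  | zero => rw [Y_zero, map_one, Finsupp.erase_zero, dot_zero_left']; simp
  | add v v' h h' =>
    rw [Y_add, map_mul, LinearEquiv.mul_apply, h', h, Finsupp.erase_add, dot_add_left,
      dot_add_right, dot_single_right, Finsupp.erase_same, zero_mul, add_zero,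
      Finsupp.single_add]
    abel
  | single k b =>
    rw [Y_single, phi_x]
    by_cases hk : k = n
    · subst hk
      rw [tv_self, Finsupp.erase_single, dot_zero_left']
      simp
    · rw [tv_apply n k (Ne.symm hk), erase_single_ne' hk, dot_single_left]

theorem psi_X_aux (n : J) (v u : J →₀ R) :
    psi (X n v) u = u - Finsupp.single n (dot (v.erase n) u) := by
  induction v using Finsupp.induction_linear generalizing u with
  | zero => rw [X_zero, map_one, Finsupp.erase_zero, dot_zero_left']; simp
  | add v v' h h' =>
    rw [X_add, map_mul, LinearEquiv.mul_apply, h', h, Finsupp.erase_add, dot_add_left,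
      sub_eq_add_neg u, ← Finsupp.single_neg,
      dot_add_right, dot_single_right, Finsupp.erase_same, zero_mul, add_zero,
      Finsupp.single_add, Finsupp.single_neg]
    abel
  | single k b =>
    rw [X_single, psi_x]
    by_cases hk : k = n
    · subst hk
      rw [tv_self, Finsupp.erase_single, dot_zero_left']
      simp
    · rw [tv_apply n k (Ne.symm hk), erase_single_ne' hk, dot_single_left, neg_mul,
        Finsupp.single_neg, sub_eq_add_neg]

theorem psi_Y_aux (n : J) (w u : J →₀ R) : psi (Y n w) u = u - u n • w.erase n := by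
  induction w using Finsupp.induction_linear generalizing u with
  | zero => rw [Y_zero, map_one]; simp
  | add v v' h h' =>
    rw [Y_add, map_mul, LinearEquiv.mul_apply, h', h, Finsupp.erase_add, smul_add]
    simp only [Finsupp.sub_apply, Finsupp.smul_apply, Finsupp.erase_same, smul_zero, sub_zero]
    abel
  | single k b =>
    rw [Y_single, psi_x]
    by_cases hk : k = n
    · subst hk
      rw [tv_self, Finsupp.erase_single]
      simp
    · rw [tv_apply k n hk, erase_single_ne' hk, Finsupp.smul_single, smul_eq_mul, neg_mul,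
        Finsupp.single_neg, mul_comm, sub_eq_add_neg]

/-- action of a column (`v n = 0`) -/
theorem phi_X (n : J) (v u : J →₀ R) (hv : v n = 0) : phi (X n v) u = u + u n • v := by
  rw [phi_X_aux, erase_eq_of_zero hv]

/-- action of a row (`w n = 0`) -/
theorem phi_Y (n : J) (w u : J →₀ R) (hw : w n = 0) :
    phi (Y n w) u = u + Finsupp.single n (dot w u) := by
  rw [phi_Y_aux, erase_eq_of_zero hw]

theorem psi_X (n : J) (v u : J →₀ R) (hv : v n = 0) :
    psi (X n v) u = u - Finsupp.single n (dot v u) := by
  rw [psi_X_aux, erase_eq_of_zero hv]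

theorem psi_Y (n : J) (w u : J →₀ R) (hw : w n = 0) : psi (Y n w) u = u - u n • w := by
  rw [psi_Y_aux, erase_eq_of_zero hw]

/-- commuting with a column of another index -/
theorem X_mem_S {I : Set J} {n : J} (hn : n ∈ I) (v : J →₀ R) (hv : ∀ k ∈ v.support, k ∈ I) :
    X n v ∈ (S I : Subgroup (St J R)) := by
  induction v using Finsupp.induction with
  | zero => rw [X_zero]; exact Subgroup.one_mem _
  | single_add a b f ha hb ih =>
    rw [X_add, X_single]
    rw [Finsupp.support_single_add ha hb] at hv
    exact Subgroup.mul_mem _ (x_mem_S (hv a (by simp)) hn b)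
      (ih fun k hk => hv k (by simp only [Finset.mem_cons]; exact Or.inr hk))

theorem Y_mem_S {I : Set J} {n : J} (hn : n ∈ I) (w : J →₀ R) (hw : ∀ k ∈ w.support, k ∈ I) :
    Y n w ∈ (S I : Subgroup (St J R)) := by
  induction w using Finsupp.induction with
  | zero => rw [Y_zero]; exact Subgroup.one_mem _
  | single_add a b f ha hb ih =>
    rw [Y_add, Y_single]
    rw [Finsupp.support_single_add ha hb] at hw
    exact Subgroup.mul_mem _ (x_mem_S hn (hw a (by simp)) b)
      (ih fun k hk => hw k (by simp only [Finset.mem_cons]; exact Or.inr hk))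

theorem map_X {R' : Type*} [CommRing R'] (f : R →+* R') (n : J) (v : J →₀ R) :
    map f (X n v) = X n (v.mapRange f (map_zero f)) := by
  induction v using Finsupp.induction_linear with
  | zero => rw [Finsupp.mapRange_zero, X_zero, X_zero, map_one]
  | add v v' h h' => rw [Finsupp.mapRange_add (map_add f), X_add, X_add, map_mul, h, h']
  | single k b => rw [Finsupp.mapRange_single, X_single, X_single, map_x]

theorem map_Y {R' : Type*} [CommRing R'] (f : R →+* R') (n : J) (w : J →₀ R) :
    map f (Y n w) = Y n (w.mapRange f (map_zero f)) := by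
  induction w using Finsupp.induction_linear with
  | zero => rw [Finsupp.mapRange_zero, Y_zero, Y_zero, map_one]
  | add v v' h h' => rw [Finsupp.mapRange_add (map_add f), Y_add, Y_add, map_mul, h, h']
  | single k b => rw [Finsupp.mapRange_single, Y_single, Y_single, map_x]

theorem emb_X {J' : Type*} [DecidableEq J'] (e : J → J') (he : Function.Injective e) (n : J)
    (v : J →₀ R) : emb e he (X n v) = X (e n) (v.mapDomain e) := by
  induction v using Finsupp.induction_linear with
  | zero => rw [Finsupp.mapDomain_zero, X_zero, X_zero, map_one]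
  | add v v' h h' => rw [Finsupp.mapDomain_add, X_add, X_add, map_mul, h, h']
  | single k b => rw [Finsupp.mapDomain_single, X_single, X_single, emb_x]

theorem emb_Y {J' : Type*} [DecidableEq J'] (e : J → J') (he : Function.Injective e) (n : J)
    (w : J →₀ R) : emb e he (Y n w) = Y (e n) (w.mapDomain e) := by
  induction w using Finsupp.induction_linear with
  | zero => rw [Finsupp.mapDomain_zero, Y_zero, Y_zero, map_one]
  | add v v' h h' => rw [Finsupp.mapDomain_add, Y_add, Y_add, map_mul, h, h']
  | single k b => rw [Finsupp.mapDomain_single, Y_single, Y_single, emb_x]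

end MSK
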