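import Mathlib

/-! MSK / Ctr: Z/2-graded exact complexes and their contractions (matrices).

`P₀ = R^ι`, `P₁ = R^κ`, `D0 : P₀ → P₁`, `D1 : P₁ → P₀`; `IsC D0 D1 s0 s1`: `D` has square zero, `s` is a contraction of square zero.
PROOFS (noncommutative algebra; write `δ` for `D0, D1`, `s` for `s0, s1`, `Δ = s' - s`).
`weak`: `s' = s δ s` : `δ s δ s = δ s` etc. (`δ s δ = δ`), and `s'² = s (δ s s δ) s`, `δ s² = s - s δ s = s² δ`, so `δ s s δ = s² δ δ = 0`.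
`delta0`: `δ Δ + Δ δ = 0`. `DdD0`: `δ Δ δ = - δ δ Δ = 0`. `pi_mul`: `(δ + s)(δ + s) = 1`.
`pi_change`: `(1 - δΔ)(δ + s)(1 + δΔ) = δ + s + sδΔ - δΔs - δΔsδΔ` and `sδΔ = Δ - δsΔ`, `δ(sΔ + Δs) = - δΔ²` (because `(s + Δ)² = 0 = s²`), `δΔsδΔ = δΔ(1 - δs)Δ = δΔ²`.
`A0_eq`: `- δΔ s δ = - δΔ (1 - δ s) = - δΔ + δΔδs = - δΔ`. The others are symmetric. -/

set_option autoImplicit false
set_option linter.unusedVariables false
set_option linter.unusedSectionVars false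

namespace MSK

open Matrix

variable {ι κ : Type*} [Fintype ι] [DecidableEq ι] [Fintype κ] [DecidableEq κ]
  {R : Type*} [CommRing R]

/-- a complex with a contraction of square zero -/
structure IsC (D0 : Matrix κ ι R) (D1 : Matrix ι κ R) (s0 : Matrix κ ι R) (s1 : Matrix ι κ R) :
    Prop where
  d01 : D0 * D1 = 0
  d10 : D1 * D0 = 0
  h0 : D1 * s0 + s1 * D0 = 1
  h1 : D0 * s1 + s0 * D1 = 1
  q10 : s1 * s0 = 0
  q01 : s0 * s1 = 0

/-! the identities in a ring -/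

section ring

variable {M : Type*} [Ring M] {d s s' : M}

theorem ct_weak_h (E1 : d * d = 0) (E2 : d * s + s * d = 1) :
    d * (s * d * s) + (s * d * s) * d = 1 := by
  have h1 : d * s * d = d := by
    linear_combination (norm := noncomm_ring) d * E2 - E1 * s
  have h2 : d * (s * d * s) = d * s * d * s := by noncomm_ring
  have h3 : (s * d * s) * d = s * (d * s * d) := by noncomm_ring
  rw [h2, h3, h1, E2]

theorem ct_weak_q (E1 : d * d = 0) (E2 : d * s + s * d = 1) :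
    (s * d * s) * (s * d * s) = 0 := by
  have h1 : d * s * s = s * s * d := by
    linear_combination (norm := noncomm_ring) E2 * s - s * E2
  have h2 : (s * d * s) * (s * d * s) = s * (d * s * s) * d * s := by noncomm_ring
  have h3 : s * (s * s * d) * d * s = s * s * s * (d * d) * s := by noncomm_ring
  rw [h2, h1, h3, E1, mul_zero, zero_mul]

theorem ct_delta (E2 : d * s + s * d = 1) (E2' : d * s' + s' * d = 1) :
    d * (s' - s) = -((s' - s) * d) := by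
  linear_combination (norm := noncomm_ring) E2' - E2

theorem ct_ddd (E1 : d * d = 0) (E2 : d * s + s * d = 1) (E2' : d * s' + s' * d = 1) :
    d * (s' - s) * d = 0 := by
  linear_combination (norm := noncomm_ring) d * E2' - d * E2 - E1 * (s' - s)

theorem ct_pi (E1 : d * d = 0) (E2 : d * s + s * d = 1) (E3 : s * s = 0) :
    (d + s) * (d + s) = 1 := by
  linear_combination (norm := noncomm_ring) E1 + E2 + E3

theorem ct_change (E1 : d * d = 0) (E2 : d * s + s * d = 1) (E2' : d * s' + s' * d = 1)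
    (E3 : s * s = 0) (E3' : s' * s' = 0) :
    d + s' = (1 - d * (s' - s)) * (d + s) * (1 + d * (s' - s)) := by
  have D := ct_ddd E1 E2 E2'
  linear_combination (norm := noncomm_ring) D - E1 * (s' - s) +
    d * (s' - s) * E1 * (s' - s) - E2 * (s' - s) + d * (s' - s) * E2 * (s' - s) -
    D * s * (s' - s) + d * E3' - d * E3

theorem ct_A (E1 : d * d = 0) (E2 : d * s + s * d = 1) (E2' : d * s' + s' * d = 1) :
    d * (s' - s) * s * d = d * (s' - s) := by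
  have D := ct_ddd E1 E2 E2'
  linear_combination (norm := noncomm_ring) d * (s' - s) * E2 - D * s

end ring

/-- the block matrix of a graded operator -/
def ctB (A0 : Matrix κ ι R) (A1 : Matrix ι κ R) : Matrix (ι ⊕ κ) (ι ⊕ κ) R :=
  Matrix.fromBlocks 0 A1 A0 0

theorem ctB_mul (A0 B0 : Matrix κ ι R) (A1 B1 : Matrix ι κ R) :
    ctB A0 A1 * ctB B0 B1 = Matrix.fromBlocks (A1 * B0) 0 0 (A0 * B1) := by
  simp [ctB, Matrix.fromBlocks_multiply]

/-- a contraction gives a contraction of square zero -/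
theorem IsC.weak {D0 : Matrix κ ι R} {D1 : Matrix ι κ R} {s0 : Matrix κ ι R} {s1 : Matrix ι κ R}
    (d01 : D0 * D1 = 0) (d10 : D1 * D0 = 0) (h0 : D1 * s0 + s1 * D0 = 1)
    (h1 : D0 * s1 + s0 * D1 = 1) : IsC D0 D1 (s0 * D1 * s0) (s1 * D0 * s1) := by
  have e1 : ctB D0 D1 * ctB D0 D1 = 0 := by
    rw [ctB_mul, d01, d10, Matrix.fromBlocks_zero]
  have e2 : ctB D0 D1 * ctB s0 s1 + ctB s0 s1 * ctB D0 D1 = 1 := by
    rw [ctB_mul, ctB_mul, Matrix.fromBlocks_add, h0, h1, add_zero, add_zero,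
      Matrix.fromBlocks_one]
  have w : ctB s0 s1 * ctB D0 D1 * ctB s0 s1 = ctB (s0 * D1 * s0) (s1 * D0 * s1) := by
    rw [ctB_mul]
    simp [ctB, Matrix.fromBlocks_multiply]
  have h2 := ct_weak_h e1 e2
  have h3 := ct_weak_q e1 e2
  rw [w, ctB_mul, ctB_mul, Matrix.fromBlocks_add, ← Matrix.fromBlocks_one] at h2
  rw [w, ctB_mul, ← Matrix.fromBlocks_zero] at h3
  obtain ⟨a1, -, -, a2⟩ := Matrix.fromBlocks_inj.1 h2
  obtain ⟨b1, -, -, b2⟩ := Matrix.fromBlocks_inj.1 h3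
  exact ⟨d01, d10, a1, a2, b1, b2⟩

variable {D0 : Matrix κ ι R} {D1 : Matrix ι κ R} {s0 s0' : Matrix κ ι R} {s1 s1' : Matrix ι κ R}

theorem IsC.symm (h : IsC D0 D1 s0 s1) : IsC D1 D0 s1 s0 :=
  ⟨h.d10, h.d01, h.h1, h.h0, h.q01, h.q10⟩

theorem IsC.ctd (h : IsC D0 D1 s0 s1) : ctB D0 D1 * ctB D0 D1 = 0 := by
  rw [ctB_mul, h.d01, h.d10, Matrix.fromBlocks_zero]

theorem IsC.cth (h : IsC D0 D1 s0 s1) :
    ctB D0 D1 * ctB s0 s1 + ctB s0 s1 * ctB D0 D1 = 1 := by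
  rw [ctB_mul, ctB_mul, Matrix.fromBlocks_add, h.h0, h.h1, add_zero, add_zero,
    Matrix.fromBlocks_one]

theorem IsC.ctq (h : IsC D0 D1 s0 s1) : ctB s0 s1 * ctB s0 s1 = 0 := by
  rw [ctB_mul, h.q01, h.q10, Matrix.fromBlocks_zero]

theorem ctB_sub (A0 B0 : Matrix κ ι R) (A1 B1 : Matrix ι κ R) :
    ctB A0 A1 - ctB B0 B1 = ctB (A0 - B0) (A1 - B1) := by
  rw [sub_eq_add_neg, ctB, ctB, Matrix.fromBlocks_neg, Matrix.fromBlocks_add]
  simp [ctB, sub_eq_add_neg]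

theorem ctB_add (A0 B0 : Matrix κ ι R) (A1 B1 : Matrix ι κ R) :
    ctB A0 A1 + ctB B0 B1 = ctB (A0 + B0) (A1 + B1) := by
  simp [ctB, Matrix.fromBlocks_add]

theorem ctB_inj {A0 B0 : Matrix κ ι R} {A1 B1 : Matrix ι κ R} (h : ctB A0 A1 = ctB B0 B1) :
    A0 = B0 ∧ A1 = B1 := by
  obtain ⟨-, h1, h2, -⟩ := Matrix.fromBlocks_inj.1 h
  exact ⟨h2, h1⟩

theorem ctB_mul3 (A0 B0 C0 : Matrix κ ι R) (A1 B1 C1 : Matrix ι κ R) :
    ctB A0 A1 * ctB B0 B1 * ctB C0 C1 = ctB (A0 * B1 * C0) (A1 * B0 * C1) := by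
  rw [ctB_mul]
  simp [ctB, Matrix.fromBlocks_multiply]

theorem IsC.neg (h : IsC D0 D1 s0 s1) : IsC (-D0) (-D1) (-s0) (-s1) := by
  refine ⟨?_, ?_, ?_, ?_, ?_, ?_⟩
  · rw [Matrix.neg_mul, Matrix.mul_neg, neg_neg, h.d01]
  · rw [Matrix.neg_mul, Matrix.mul_neg, neg_neg, h.d10]
  · rw [Matrix.neg_mul, Matrix.mul_neg, neg_neg, Matrix.neg_mul, Matrix.mul_neg, neg_neg, h.h0]
  · rw [Matrix.neg_mul, Matrix.mul_neg, neg_neg, Matrix.neg_mul, Matrix.mul_neg, neg_neg, h.h1]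
  · rw [Matrix.neg_mul, Matrix.mul_neg, neg_neg, h.q10]
  · rw [Matrix.neg_mul, Matrix.mul_neg, neg_neg, h.q01]

theorem IsC.pi_mul (h : IsC D0 D1 s0 s1) : (D1 + s1) * (D0 + s0) = 1 := by
  have h1 := ct_pi h.ctd h.cth h.ctq
  rw [ctB_add, ctB_mul, ← Matrix.fromBlocks_one] at h1
  exact (Matrix.fromBlocks_inj.1 h1).1

theorem IsC.pi_mul' (h : IsC D0 D1 s0 s1) : (D0 + s0) * (D1 + s1) = 1 := by
  exact h.symm.pi_mul

theorem IsC.delta0 (h : IsC D0 D1 s0 s1) (h' : IsC D0 D1 s0' s1') :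
    D1 * (s0' - s0) = -((s1' - s1) * D0) := by
  have h1 := ct_delta h.cth h'.cth
  rw [ctB_sub, ctB_mul, ctB_mul, Matrix.fromBlocks_neg] at h1
  exact (Matrix.fromBlocks_inj.1 h1).1

theorem IsC.delta1 (h : IsC D0 D1 s0 s1) (h' : IsC D0 D1 s0' s1') :
    D0 * (s1' - s1) = -((s0' - s0) * D1) := by
  exact h.symm.delta0 h'.symm

theorem IsC.DdD0 (h : IsC D0 D1 s0 s1) (h' : IsC D0 D1 s0' s1') :
    D1 * (s0' - s0) * D1 = 0 := by
  have h1 := ct_ddd h.ctd h.cth h'.cth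
  rw [ctB_sub, ctB_mul3, ← Matrix.fromBlocks_zero] at h1
  exact (Matrix.fromBlocks_inj.1 h1).2.1

theorem IsC.DdD1 (h : IsC D0 D1 s0 s1) (h' : IsC D0 D1 s0' s1') :
    D0 * (s1' - s1) * D0 = 0 := by
  exact h.symm.DdD0 h'.symm

/-- change of the contraction -/
theorem IsC.pi_change (h : IsC D0 D1 s0 s1) (h' : IsC D0 D1 s0' s1') :
    D1 + s1' = (1 - D1 * (s0' - s0)) * (D1 + s1) * (1 + D0 * (s1' - s1)) := by
  have h1 := ct_change h.ctd h.cth h'.cth h.ctq h'.ctq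
  rw [ctB_sub, ctB_mul, ctB_add, ctB_add, ← Matrix.fromBlocks_one] at h1
  simp only [ctB, sub_eq_add_neg, Matrix.fromBlocks_neg, Matrix.fromBlocks_add,
    Matrix.fromBlocks_multiply, Matrix.mul_zero, Matrix.zero_mul, neg_zero, add_zero,
    zero_add] at h1
  have h2 := (Matrix.fromBlocks_inj.1 h1).2.1
  rw [sub_eq_add_neg, sub_eq_add_neg, sub_eq_add_neg]
  exact h2

theorem IsC.A0_eq (h : IsC D0 D1 s0 s1) (h' : IsC D0 D1 s0' s1') :
    -(D1 * (s0' - s0) * s1) * D0 = -(D1 * (s0' - s0)) := by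
  have h1 := ct_A h.ctd h.cth h'.cth
  rw [ctB_sub, ctB_mul3, ctB_mul, ctB_mul] at h1
  have h2 := (Matrix.fromBlocks_inj.1 h1).1
  rw [Matrix.neg_mul, h2]

theorem IsC.A1_eq (h : IsC D0 D1 s0 s1) (h' : IsC D0 D1 s0' s1') :
    D0 * (s1' - s1) * s0 * D1 = D0 * (s1' - s1) := by
  have h1 := ct_A h.symm.ctd h.symm.cth h'.symm.cth
  rw [ctB_sub, ctB_mul3, ctB_mul, ctB_mul] at h1
  exact (Matrix.fromBlocks_inj.1 h1).1

theorem IsC.map {R' : Type*} [CommRing R'] (f : R →+* R') (h : IsC D0 D1 s0 s1) :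
    IsC (D0.map f) (D1.map f) (s0.map f) (s1.map f) := by
  refine ⟨?_, ?_, ?_, ?_, ?_, ?_⟩
  · rw [← Matrix.map_mul, h.d01, Matrix.map_zero _ (map_zero f)]
  · rw [← Matrix.map_mul, h.d10, Matrix.map_zero _ (map_zero f)]
  · rw [← Matrix.map_mul, ← Matrix.map_mul, ← Matrix.map_add _ (map_add f), h.h0,
      Matrix.map_one _ (map_zero f) (map_one f)]
  · rw [← Matrix.map_mul, ← Matrix.map_mul, ← Matrix.map_add _ (map_add f), h.h1,
      Matrix.map_one _ (map_zero f) (map_one f)]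
  · rw [← Matrix.map_mul, h.q10, Matrix.map_zero _ (map_zero f)]
  · rw [← Matrix.map_mul, h.q01, Matrix.map_zero _ (map_zero f)]

theorem ct_mul4 {α β γ ζ η ε : Type*} [Fintype ζ] [Fintype β] [Fintype γ] [Fintype η]
    [DecidableEq β] (a : Matrix α ζ R) (X : Matrix ζ β R) (g' : Matrix β γ R) (g : Matrix γ β R)
    (Y : Matrix β η R) (b : Matrix η ε R) (hg : g' * g = 1) :
    a * X * g' * (g * Y * b) = a * (X * Y) * b := by
  have e : a * X * g' * (g * Y * b) = a * (X * ((g' * g) * Y)) * b := by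
    simp only [Matrix.mul_assoc]
  rw [e, hg, Matrix.one_mul]

/-- conjugation -/
theorem IsC.conj {ι' κ' : Type*} [Fintype ι'] [DecidableEq ι'] [Fintype κ'] [DecidableEq κ']
    (h : IsC D0 D1 s0 s1) (g : Matrix ι' ι R) (g' : Matrix ι ι' R) (k : Matrix κ' κ R)
    (k' : Matrix κ κ' R) (hg : g' * g = 1) (hg' : g * g' = 1) (hk : k' * k = 1)
    (hk' : k * k' = 1) :
    IsC (k * D0 * g') (g * D1 * k') (k * s0 * g') (g * s1 * k') := by
  refine ⟨?_, ?_, ?_, ?_, ?_, ?_⟩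
  · rw [ct_mul4 _ _ _ _ _ _ hg, h.d01, Matrix.mul_zero, Matrix.zero_mul]
  · rw [ct_mul4 _ _ _ _ _ _ hk, h.d10, Matrix.mul_zero, Matrix.zero_mul]
  · rw [ct_mul4 _ _ _ _ _ _ hk, ct_mul4 _ _ _ _ _ _ hk, ← Matrix.add_mul, ← Matrix.mul_add,
      h.h0, Matrix.mul_one, hg']
  · rw [ct_mul4 _ _ _ _ _ _ hg, ct_mul4 _ _ _ _ _ _ hg, ← Matrix.add_mul, ← Matrix.mul_add,
      h.h1, Matrix.mul_one, hk']
  · rw [ct_mul4 _ _ _ _ _ _ hk, h.q10, Matrix.mul_zero, Matrix.zero_mul]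
  · rw [ct_mul4 _ _ _ _ _ _ hg, h.q01, Matrix.mul_zero, Matrix.zero_mul]

theorem ct_block_aux {ι' κ' : Type*} [Fintype ι'] [DecidableEq ι'] [Fintype κ'] [DecidableEq κ']
    {F0 : Matrix κ' ι' R} {F1 : Matrix ι' κ' R} {r0 : Matrix κ' ι' R} {r1 : Matrix ι' κ' R}
    (h : IsC D0 D1 s0 s1) (h' : IsC F0 F1 r0 r1) (e0 : Matrix κ ι' R) (e1 : Matrix ι κ' R)
    (h01 : D0 * e1 + e0 * F1 = 0) :
    D1 * -(s0 * e1 * r0) + e1 * r0 + (s1 * e0 + -(s1 * e0 * r1) * F0) = 0 := by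
  have a1 : D1 * (s0 * e1 * r0) = e1 * r0 - s1 * D0 * e1 * r0 := by
    have : D1 * (s0 * e1 * r0) = (D1 * s0) * (e1 * r0) := by simp only [Matrix.mul_assoc]
    rw [this, eq_sub_of_add_eq h.h0, Matrix.sub_mul, Matrix.one_mul]
    simp only [Matrix.mul_assoc]
  have a2 : s1 * e0 * r1 * F0 = s1 * e0 - s1 * e0 * F1 * r0 := by
    have : s1 * e0 * r1 * F0 = s1 * e0 * (r1 * F0) := by simp only [Matrix.mul_assoc]
    rw [this, eq_sub_of_add_eq' h'.h0, Matrix.mul_sub, Matrix.mul_one]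
    simp only [Matrix.mul_assoc]
  have a3 : s1 * D0 * e1 * r0 + s1 * e0 * F1 * r0 = 0 := by
    have : s1 * D0 * e1 * r0 + s1 * e0 * F1 * r0 = s1 * (D0 * e1 + e0 * F1) * r0 := by
      simp only [Matrix.mul_assoc, Matrix.mul_add, Matrix.add_mul]
    rw [this, h01, Matrix.mul_zero, Matrix.zero_mul]
  rw [Matrix.mul_neg, Matrix.neg_mul, a1, a2]
  have a4 : s1 * D0 * e1 * r0 = -(s1 * e0 * F1 * r0) := eq_neg_of_add_eq_zero_left a3
  rw [a4]
  abel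

theorem ct_block_q {ι' κ' : Type*} [Fintype ι'] [DecidableEq ι'] [Fintype κ'] [DecidableEq κ']
    {F0 : Matrix κ' ι' R} {F1 : Matrix ι' κ' R} {r0 : Matrix κ' ι' R} {r1 : Matrix ι' κ' R}
    (h : IsC D0 D1 s0 s1) (h' : IsC F0 F1 r0 r1) (e0 : Matrix κ ι' R) (e1 : Matrix ι κ' R) :
    s1 * -(s0 * e1 * r0) + -(s1 * e0 * r1) * r0 = 0 := by
  have a1 : s1 * (s0 * e1 * r0) = (s1 * s0) * (e1 * r0) := by simp only [Matrix.mul_assoc]
  have a2 : s1 * e0 * r1 * r0 = s1 * e0 * (r1 * r0) := by simp only [Matrix.mul_assoc]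
  rw [Matrix.mul_neg, Matrix.neg_mul, a1, a2, h.q10, h'.q10, Matrix.zero_mul, Matrix.mul_zero,
    neg_zero, add_zero]

/-- block triangular complexes -/
theorem IsC.block {ι' κ' : Type*} [Fintype ι'] [DecidableEq ι'] [Fintype κ'] [DecidableEq κ']
    {F0 : Matrix κ' ι' R} {F1 : Matrix ι' κ' R} {r0 : Matrix κ' ι' R} {r1 : Matrix ι' κ' R}
    (h : IsC D0 D1 s0 s1) (h' : IsC F0 F1 r0 r1) (e0 : Matrix κ ι' R) (e1 : Matrix ι κ' R)
    (h01 : D0 * e1 + e0 * F1 = 0) (h10 : D1 * e0 + e1 * F0 = 0) :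
    IsC (Matrix.fromBlocks D0 e0 0 F0) (Matrix.fromBlocks D1 e1 0 F1)
      (Matrix.fromBlocks s0 (-(s0 * e1 * r0)) 0 r0)
      (Matrix.fromBlocks s1 (-(s1 * e0 * r1)) 0 r1) := by
  refine ⟨?_, ?_, ?_, ?_, ?_, ?_⟩
  · rw [Matrix.fromBlocks_multiply, h.d01, h'.d01, Matrix.mul_zero, Matrix.mul_zero,
      Matrix.zero_mul, Matrix.zero_mul, h01, add_zero, zero_add, add_zero, Matrix.fromBlocks_zero]
  · rw [Matrix.fromBlocks_multiply, h.d10, h'.d10, Matrix.mul_zero, Matrix.mul_zero,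
      Matrix.zero_mul, Matrix.zero_mul, h10, add_zero, zero_add, add_zero, Matrix.fromBlocks_zero]
  · rw [Matrix.fromBlocks_multiply, Matrix.fromBlocks_multiply, Matrix.fromBlocks_add]
    simp only [Matrix.mul_zero, Matrix.zero_mul, add_zero, zero_add]
    rw [h.h0, h'.h0, ct_block_aux h h' e0 e1 h01, Matrix.fromBlocks_one]
  · rw [Matrix.fromBlocks_multiply, Matrix.fromBlocks_multiply, Matrix.fromBlocks_add]
    simp only [Matrix.mul_zero, Matrix.zero_mul, add_zero, zero_add]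
    rw [h.h1, h'.h1, ct_block_aux h.symm h'.symm e1 e0 h10, Matrix.fromBlocks_one]
  · rw [Matrix.fromBlocks_multiply]
    simp only [Matrix.mul_zero, Matrix.zero_mul, add_zero, zero_add]
    rw [h.q10, h'.q10, ct_block_q h h' e0 e1, Matrix.fromBlocks_zero]
  · rw [Matrix.fromBlocks_multiply]
    simp only [Matrix.mul_zero, Matrix.zero_mul, add_zero, zero_add]
    rw [h.q01, h'.q01, ct_block_q h.symm h'.symm e1 e0, Matrix.fromBlocks_zero]

/-- the sum of a complex `D` and the shift of a complex `F` with the same modules -/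
theorem IsC.shift {F0 : Matrix κ ι R} {F1 : Matrix ι κ R} {r0 : Matrix κ ι R} {r1 : Matrix ι κ R}
    (h : IsC D0 D1 s0 s1) (h' : IsC F0 F1 r0 r1) :
    IsC (Matrix.fromBlocks 0 (-F1) D0 0 : Matrix (ι ⊕ κ) (ι ⊕ κ) R)
      (Matrix.fromBlocks 0 D1 (-F0) 0 : Matrix (ι ⊕ κ) (ι ⊕ κ) R)
      (Matrix.fromBlocks 0 (-r1) s0 0 : Matrix (ι ⊕ κ) (ι ⊕ κ) R)
      (Matrix.fromBlocks 0 s1 (-r0) 0 : Matrix (ι ⊕ κ) (ι ⊕ κ) R) := by
  refine ⟨?_, ?_, ?_, ?_, ?_, ?_⟩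
  · rw [Matrix.fromBlocks_multiply]
    simp only [Matrix.mul_zero, Matrix.zero_mul, add_zero, zero_add, Matrix.neg_mul,
      Matrix.mul_neg, neg_neg, neg_zero]
    rw [h.d01, h'.d10, Matrix.fromBlocks_zero]
  · rw [Matrix.fromBlocks_multiply]
    simp only [Matrix.mul_zero, Matrix.zero_mul, add_zero, zero_add, Matrix.neg_mul,
      Matrix.mul_neg, neg_neg, neg_zero]
    rw [h.d10, h'.d01, Matrix.fromBlocks_zero]
  · rw [Matrix.fromBlocks_multiply, Matrix.fromBlocks_multiply, Matrix.fromBlocks_add]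
    simp only [Matrix.mul_zero, Matrix.zero_mul, add_zero, zero_add, Matrix.neg_mul,
      Matrix.mul_neg, neg_neg, neg_zero]
    rw [h.h0, h'.h1, Matrix.fromBlocks_one]
  · rw [Matrix.fromBlocks_multiply, Matrix.fromBlocks_multiply, Matrix.fromBlocks_add]
    simp only [Matrix.mul_zero, Matrix.zero_mul, add_zero, zero_add, Matrix.neg_mul,
      Matrix.mul_neg, neg_neg, neg_zero]
    rw [h.h1, h'.h0, Matrix.fromBlocks_one]
  · rw [Matrix.fromBlocks_multiply]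
    simp only [Matrix.mul_zero, Matrix.zero_mul, add_zero, zero_add, Matrix.neg_mul,
      Matrix.mul_neg, neg_neg, neg_zero]
    rw [h.q10, h'.q01, Matrix.fromBlocks_zero]
  · rw [Matrix.fromBlocks_multiply]
    simp only [Matrix.mul_zero, Matrix.zero_mul, add_zero, zero_add, Matrix.neg_mul,
      Matrix.mul_neg, neg_neg, neg_zero]
    rw [h.q01, h'.q10, Matrix.fromBlocks_zero]

theorem ct_section [IsDomain R] [IsPrincipalIdealRing R] (D0 : Matrix κ ι R) (D1 : Matrix ι κ R)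
    (h0 : ∀ v : ι → R, D0 *ᵥ v = 0 ↔ ∃ u : κ → R, v = D1 *ᵥ u) :
    ∃ t : LinearMap.ker D0.mulVecLin →ₗ[R] (κ → R), ∀ x, D1 *ᵥ (t x) = x.1 := by
  have hz : ∀ u : κ → R, D1.mulVecLin u ∈ LinearMap.ker D0.mulVecLin := fun u => by
    rw [LinearMap.mem_ker, Matrix.mulVecLin_apply, Matrix.mulVecLin_apply]
    exact (h0 _).2 ⟨u, rfl⟩
  have hsurj : Function.Surjective (LinearMap.codRestrict (LinearMap.ker D0.mulVecLin)
      D1.mulVecLin hz) := by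
    rintro ⟨x, hx⟩
    rw [LinearMap.mem_ker, Matrix.mulVecLin_apply] at hx
    obtain ⟨u, hu⟩ := (h0 x).1 hx
    exact ⟨u, Subtype.ext hu.symm⟩
  obtain ⟨t, ht⟩ := Module.projective_lifting_property (LinearMap.codRestrict
    (LinearMap.ker D0.mulVecLin) D1.mulVecLin hz) LinearMap.id hsurj
  refine ⟨t, fun x => ?_⟩
  have := congrArg Subtype.val (LinearMap.congr_fun ht x)
  exact this

/-- over a principal ideal domain every exact complex has a contraction. PROOF: `Z₀ = ker D0 = range D1` is a submodule of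
a free module, so free, so `D1 : P₁ → Z₀` has a section `t₀`; similarly `t₁ : Z₁ → P₀`; `P₀ = Z₀ ⊕ t₁ Z₁`, `s0 = t₀` on `Z₀` and `0` on `t₁ Z₁`:
`s0 v = t₀ (v - t₁ (D0 v))`, `s1 u = t₁ (u - t₀ (D1 u))`. -/
theorem exists_IsC [IsDomain R] [IsPrincipalIdealRing R] (D0 : Matrix κ ι R) (D1 : Matrix ι κ R)
    (h0 : ∀ v : ι → R, D0 *ᵥ v = 0 ↔ ∃ u : κ → R, v = D1 *ᵥ u)
    (h1 : ∀ u : κ → R, D1 *ᵥ u = 0 ↔ ∃ v : ι → R, u = D0 *ᵥ v) :
    ∃ (s0 : Matrix κ ι R) (s1 : Matrix ι κ R), IsC D0 D1 s0 s1 := by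
  obtain ⟨t0, ht0⟩ := ct_section D0 D1 h0
  obtain ⟨t1, ht1⟩ := ct_section D1 D0 h1
  have z0 : ∀ v : ι → R, D1 *ᵥ (D0 *ᵥ v) = 0 := fun v => (h1 _).2 ⟨v, rfl⟩
  have z1 : ∀ u : κ → R, D0 *ᵥ (D1 *ᵥ u) = 0 := fun u => (h0 _).2 ⟨u, rfl⟩
  let c0 : (ι → R) →ₗ[R] LinearMap.ker D1.mulVecLin :=
    LinearMap.codRestrict _ D0.mulVecLin fun v => z0 v
  let c1 : (κ → R) →ₗ[R] LinearMap.ker D0.mulVecLin :=
    LinearMap.codRestrict _ D1.mulVecLin fun u => z1 u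
  have k0 : ∀ v : ι → R, v - t1 (c0 v) ∈ LinearMap.ker D0.mulVecLin := fun v => by
    rw [LinearMap.mem_ker, Matrix.mulVecLin_apply, Matrix.mulVec_sub, ht1]
    exact sub_self _
  have k1 : ∀ u : κ → R, u - t0 (c1 u) ∈ LinearMap.ker D1.mulVecLin := fun u => by
    rw [LinearMap.mem_ker, Matrix.mulVecLin_apply, Matrix.mulVec_sub, ht0]
    exact sub_self _
  let p0 : (ι → R) →ₗ[R] (κ → R) := t0 ∘ₗ
    LinearMap.codRestrict (LinearMap.ker D0.mulVecLin) (LinearMap.id - t1 ∘ₗ c0) fun v => k0 v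
  let p1 : (κ → R) →ₗ[R] (ι → R) := t1 ∘ₗ
    LinearMap.codRestrict (LinearMap.ker D1.mulVecLin) (LinearMap.id - t0 ∘ₗ c1) fun u => k1 u
  have e0 : ∀ v, D1 *ᵥ p0 v = v - t1 (c0 v) := fun v => ht0 _
  have e1 : ∀ u, D0 *ᵥ p1 u = u - t0 (c1 u) := fun u => ht1 _
  have g1 : ∀ v, p1 (D0 *ᵥ v) = t1 (c0 v) := by
    intro v
    show t1 _ = t1 _
    congr 1
    apply Subtype.ext
    show D0 *ᵥ v - t0 (c1 (D0 *ᵥ v)) = D0 *ᵥ v
    have : c1 (D0 *ᵥ v) = 0 := Subtype.ext (z0 v)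
    rw [this, map_zero, sub_zero]
  have g0 : ∀ u, p0 (D1 *ᵥ u) = t0 (c1 u) := by
    intro u
    show t0 _ = t0 _
    congr 1
    apply Subtype.ext
    show D1 *ᵥ u - t1 (c0 (D1 *ᵥ u)) = D1 *ᵥ u
    have : c0 (D1 *ᵥ u) = 0 := Subtype.ext (z1 u)
    rw [this, map_zero, sub_zero]
  refine ⟨_, _, IsC.weak (s0 := LinearMap.toMatrix' p0) (s1 := LinearMap.toMatrix' p1)
    ?_ ?_ ?_ ?_⟩
  · apply Matrix.mulVec_injective
    funext u
    rw [← Matrix.mulVec_mulVec, z1, Matrix.zero_mulVec]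
  · apply Matrix.mulVec_injective
    funext v
    rw [← Matrix.mulVec_mulVec, z0, Matrix.zero_mulVec]
  · apply Matrix.mulVec_injective
    funext v
    rw [Matrix.add_mulVec, ← Matrix.mulVec_mulVec, ← Matrix.mulVec_mulVec,
      LinearMap.toMatrix'_mulVec, LinearMap.toMatrix'_mulVec, Matrix.one_mulVec, e0, g1,
      sub_add_cancel]
  · apply Matrix.mulVec_injective
    funext u
    rw [Matrix.add_mulVec, ← Matrix.mulVec_mulVec, ← Matrix.mulVec_mulVec,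
      LinearMap.toMatrix'_mulVec, LinearMap.toMatrix'_mulVec, Matrix.one_mulVec, e1, g0,
      sub_add_cancel]

end MSK
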