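import Mathlib

/-!
# MSK: Steinberg groups (stable, arbitrary index type)

`St J R` is the Steinberg group with generators `x i j a` (`i, j ∈ J`, `a ∈ R`; `x i i a = 1`).
`phi` is its action on `J →₀ R`, `psi` the contragredient action, `K2 J R` the kernel of `phi`.
-/

set_option autoImplicit false
set_option linter.unusedVariables false

namespace MSK

open scoped commutatorElement

section Defs

variable (J : Type*) (R : Type*) [CommRing R]

/-- relations of the Steinberg group -/
def rels : Set (FreeGroup (J × J × R)) :=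
  {r | ∃ (i : J) (a : R), r = FreeGroup.of (i, i, a)} ∪
  {r | ∃ (i j : J) (a b : R), r = FreeGroup.of (i, j, a) * FreeGroup.of (i, j, b) *
    (FreeGroup.of (i, j, a + b))⁻¹} ∪
  {r | ∃ (i j k l : J) (a b : R), i ≠ j ∧ k ≠ l ∧ j ≠ k ∧ i ≠ l ∧
    r = ⁅FreeGroup.of (i, j, a), FreeGroup.of (k, l, b)⁆} ∪
  {r | ∃ (i j l : J) (a b : R), i ≠ j ∧ j ≠ l ∧ i ≠ l ∧
    r = ⁅FreeGroup.of (i, j, a), FreeGroup.of (j, l, b)⁆ * (FreeGroup.of (i, l, a * b))⁻¹}

/-- the Steinberg group -/
def St : Type _ := PresentedGroup (rels J R)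

noncomputable instance : Group (St J R) := inferInstanceAs (Group (PresentedGroup (rels J R)))

end Defs

variable {J : Type*} {R : Type*} [CommRing R]

/-- the generators -/
def x (i j : J) (a : R) : St J R := PresentedGroup.of (i, j, a)

theorem x_self (i : J) (a : R) : (x i i a : St J R) = 1 := by
  have h : FreeGroup.of (i, i, a) ∈ rels J R := Or.inl (Or.inl (Or.inl ⟨i, a, rfl⟩))
  exact (PresentedGroup.one_of_mem h)

theorem x_add (i j : J) (a b : R) : (x i j (a + b) : St J R) = x i j a * x i j b := by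
  have h : FreeGroup.of (i, j, a) * FreeGroup.of (i, j, b) * (FreeGroup.of (i, j, a + b))⁻¹ ∈
      rels J R := Or.inl (Or.inl (Or.inr ⟨i, j, a, b, rfl⟩))
  have := PresentedGroup.one_of_mem h
  rw [map_mul, map_mul, map_inv, mul_inv_eq_one] at this
  exact this.symm

theorem x_zero (i j : J) : (x i j (0 : R) : St J R) = 1 := by
  have := x_add (J := J) (R := R) i j 0 0
  rw [add_zero] at this
  exact (left_eq_mul.mp this)

theorem x_neg (i j : J) (a : R) : (x i j (-a) : St J R) = (x i j a)⁻¹ := by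
  rw [eq_inv_iff_mul_eq_one, ← x_add, neg_add_cancel, x_zero]

/-- `[x_ij(a), x_kl(b)] = 1` for `j ≠ k`, `i ≠ l` -/
theorem x_comm (i j k l : J) (a b : R) (hjk : j ≠ k) (hil : i ≠ l) :
    Commute (x i j a : St J R) (x k l b) := by
  by_cases hij : i = j
  · rw [hij, x_self]; exact Commute.one_left _
  by_cases hkl : k = l
  · rw [hkl, x_self]; exact Commute.one_right _
  have h : ⁅FreeGroup.of (i, j, a), FreeGroup.of (k, l, b)⁆ ∈ rels J R :=
    Or.inl (Or.inr ⟨i, j, k, l, a, b, hij, hkl, hjk, hil, rfl⟩)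
  have := PresentedGroup.one_of_mem h
  rw [map_commutatorElement] at this
  exact commutatorElement_eq_one_iff_commute.mp this

/-- `[x_ij(a), x_jl(b)] = x_il(ab)` for `i, j, l` distinct -/
theorem x_comm3 (i j l : J) (a b : R) (hij : i ≠ j) (hjl : j ≠ l) (hil : i ≠ l) :
    ⁅(x i j a : St J R), x j l b⁆ = x i l (a * b) := by
  have h : ⁅FreeGroup.of (i, j, a), FreeGroup.of (j, l, b)⁆ * (FreeGroup.of (i, l, a * b))⁻¹ ∈
      rels J R := Or.inr ⟨i, j, l, a, b, hij, hjl, hil, rfl⟩
  have := PresentedGroup.one_of_mem h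
  rw [map_mul, map_commutatorElement, map_inv, mul_inv_eq_one] at this
  exact this

/-- universal property -/
noncomputable def lift {G : Type*} [Group G] (f : J → J → R → G) (h0 : ∀ i a, f i i a = 1)
    (h1 : ∀ i j a b, f i j (a + b) = f i j a * f i j b)
    (h2 : ∀ i j k l a b, i ≠ j → k ≠ l → j ≠ k → i ≠ l → Commute (f i j a) (f k l b))
    (h3 : ∀ i j l a b, i ≠ j → j ≠ l → i ≠ l → ⁅f i j a, f j l b⁆ = f i l (a * b)) :
    St J R →* G :=
  PresentedGroup.toGroup (rels := rels J R) (f := fun t => f t.1 t.2.1 t.2.2) (by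
    rintro r (((⟨i, a, rfl⟩ | ⟨i, j, a, b, rfl⟩) | ⟨i, j, k, l, a, b, h, h', h'', h''', rfl⟩) |
      ⟨i, j, l, a, b, h, h', h'', rfl⟩)
    · simp [h0]
    · simp [h1]
    · rw [map_commutatorElement, commutatorElement_eq_one_iff_commute]
      simpa using h2 i j k l a b h h' h'' h'''
    · rw [map_mul, map_commutatorElement, map_inv, mul_inv_eq_one]
      simpa using h3 i j l a b h h' h'')

@[simp] theorem lift_x {G : Type*} [Group G] (f : J → J → R → G) (h0 h1 h2 h3) (i j : J) (a : R) :
    lift f h0 h1 h2 h3 (x i j a : St J R) = f i j a :=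
  PresentedGroup.toGroup.of _

theorem closure_x : Subgroup.closure {s : St J R | ∃ i j a, s = x i j a} = ⊤ := by
  have h := PresentedGroup.closure_range_of (rels J R)
  rw [eq_top_iff]
  have h2 : Subgroup.closure (Set.range (PresentedGroup.of : J × J × R → PresentedGroup (rels J R)))
      ≤ Subgroup.closure {s : St J R | ∃ i j a, s = x i j a} := by
    apply Subgroup.closure_mono
    rintro _ ⟨⟨i, j, a⟩, rfl⟩
    exact ⟨i, j, a, rfl⟩
  rw [h] at h2
  exact h2

theorem hom_ext {G : Type*} [Group G] {f g : St J R →* G} (h : ∀ i j a, f (x i j a) = g (x i j a)) :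
    f = g := by
  apply MonoidHom.eq_of_eqOn_dense closure_x
  rintro s ⟨i, j, a, rfl⟩
  exact h i j a

/-- induction: a predicate true for `1` and stable under left multiplication by generators. -/
theorem induction_left {p : St J R → Prop} (h1 : p 1) (hx : ∀ i j a s, p s → p (x i j a * s))
    (s : St J R) : p s := by
  have hs : s ∈ Subgroup.closure {s : St J R | ∃ i j a, s = x i j a} := by
    rw [closure_x]; exact Subgroup.mem_top s
  refine Subgroup.closure_induction_left (p := fun s _ => p s) h1 ?_ ?_ hs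
  · rintro _ ⟨i, j, a, rfl⟩ y _ hy
    exact hx i j a y hy
  · rintro _ ⟨i, j, a, rfl⟩ y _ hy
    rw [← x_neg]
    exact hx i j (-a) y hy

/-- the subgroup generated by the `x i j a` with `i, j ∈ I` -/
noncomputable def S (I : Set J) : Subgroup (St J R) :=
  Subgroup.closure {s | ∃ i ∈ I, ∃ j ∈ I, ∃ a, s = x i j a}

theorem x_mem_S {I : Set J} {i j : J} (hi : i ∈ I) (hj : j ∈ I) (a : R) :
    (x i j a : St J R) ∈ (S I : Subgroup (St J R)) :=
  Subgroup.subset_closure ⟨i, hi, j, hj, a, rfl⟩

theorem S_induction {I : Set J} {p : St J R → Prop} (h1 : p 1)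
    (hx : ∀ i ∈ I, ∀ j ∈ I, ∀ a s, s ∈ (S I : Subgroup (St J R)) → p s → p (x i j a * s))
    {s : St J R} (hs : s ∈ (S I : Subgroup (St J R))) : p s := by
  refine Subgroup.closure_induction_left (p := fun s _ => p s) h1 ?_ ?_ hs
  · rintro _ ⟨i, hi, j, hj, a, rfl⟩ y hy hy'
    exact hx i hi j hj a y hy hy'
  · rintro _ ⟨i, hi, j, hj, a, rfl⟩ y hy hy'
    rw [← x_neg]
    exact hx i hi j hj (-a) y hy hy'

theorem S_mono {I I' : Set J} (h : I ⊆ I') : (S I : Subgroup (St J R)) ≤ S I' := by
  apply Subgroup.closure_mono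
  rintro _ ⟨i, hi, j, hj, a, rfl⟩
  exact ⟨i, h hi, j, h hj, a, rfl⟩

/-- every element involves only finitely many indices -/
theorem exists_finset_mem_S [DecidableEq J] (s : St J R) :
    ∃ I : Finset J, s ∈ (S (I : Set J) : Subgroup (St J R)) := by
  induction s using induction_left with
  | h1 => exact ⟨∅, Subgroup.one_mem _⟩
  | hx i j a s hs =>
    obtain ⟨I, hI⟩ := hs
    refine ⟨insert i (insert j I), Subgroup.mul_mem _ (x_mem_S (by simp) (by simp) a)
      (S_mono (by intro k hk; simp at hk ⊢; tauto) hI)⟩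

section Action

variable [DecidableEq J]

/-- the linear map `v ↦ v + v_j a e_i` -/
noncomputable def tvMap (i j : J) (a : R) : (J →₀ R) →ₗ[R] (J →₀ R) :=
  LinearMap.id + (LinearMap.toSpanSingleton R (J →₀ R) (Finsupp.single i a)) ∘ₗ (Finsupp.lapply j)

theorem tvMap_apply (i j : J) (a : R) (v : J →₀ R) :
    tvMap i j a v = v + Finsupp.single i (a * v j) := by
  simp only [tvMap, LinearMap.add_apply, LinearMap.id_coe, id_eq, LinearMap.coe_comp,
    Function.comp_apply, Finsupp.lapply_apply, LinearMap.toSpanSingleton_apply,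
    Finsupp.smul_single, smul_eq_mul, mul_comm]

theorem tvMap_add (i j : J) (h : i ≠ j) (a b : R) (v : J →₀ R) :
    tvMap i j a (tvMap i j b v) = tvMap i j (a + b) v := by
  simp only [tvMap_apply, Finsupp.add_apply, Finsupp.single_apply, if_neg h, add_zero, add_mul,
    Finsupp.single_add]
  abel

/-- the elementary automorphism of `J →₀ R` (`1` if `i = j`) -/
noncomputable def tv (i j : J) (a : R) : (J →₀ R) ≃ₗ[R] (J →₀ R) :=
  if h : i = j then 1 else
    LinearEquiv.ofLinearMap (tvMap i j a) (tvMap i j (-a))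
      (by ext1 k; ext1; simp only [LinearMap.comp_apply, tvMap_add i j h, add_neg_cancel]
          simp [tvMap_apply])
      (by ext1 k; ext1; simp only [LinearMap.comp_apply, tvMap_add i j h, neg_add_cancel]
          simp [tvMap_apply])

theorem tv_self (i : J) (a : R) : tv i i a = 1 := by simp [tv]

theorem tv_apply (i j : J) (h : i ≠ j) (a : R) (v : J →₀ R) :
    tv i j a v = v + Finsupp.single i (a * v j) := by
  rw [tv, dif_neg h]
  exact tvMap_apply i j a v

theorem tv_add (i j : J) (a b : R) : tv i j (a + b) = tv i j a * tv i j b := by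
  by_cases h : i = j
  · simp [tv, h]
  · ext1 v
    rw [LinearEquiv.mul_apply, tv_apply i j h, tv_apply i j h, tv_apply i j h]
    simp only [Finsupp.add_apply, Finsupp.single_apply, if_neg h, add_zero, add_mul,
      Finsupp.single_add]
    abel

theorem tv_comm (i j k l : J) (a b : R) (hij : i ≠ j) (hkl : k ≠ l) (hjk : j ≠ k) (hil : i ≠ l) :
    Commute (tv i j a) (tv k l b) := by
  show tv i j a * tv k l b = tv k l b * tv i j a
  ext1 v
  rw [LinearEquiv.mul_apply, LinearEquiv.mul_apply, tv_apply i j hij, tv_apply k l hkl,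
    tv_apply k l hkl, tv_apply i j hij]
  simp only [Finsupp.add_apply, Finsupp.single_apply, if_neg hjk.symm, if_neg hil, add_zero]
  abel

theorem tv_comm3 (i j l : J) (a b : R) (hij : i ≠ j) (hjl : j ≠ l) (hil : i ≠ l) :
    ⁅tv i j a, tv j l b⁆ = tv i l (a * b) := by
  rw [commutatorElement_def, mul_inv_eq_iff_eq_mul, mul_inv_eq_iff_eq_mul]
  ext1 v
  simp only [LinearEquiv.mul_apply, tv_apply i j hij, tv_apply j l hjl, tv_apply i l hil]
  simp only [Finsupp.add_apply, Finsupp.single_apply, if_neg hij, if_neg hjl, if_neg hil,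
    if_neg hij.symm, if_neg hjl.symm, if_neg hil.symm, add_zero, zero_add, if_true, mul_add,
    Finsupp.single_add, mul_assoc]
  abel

/-- the action on `J →₀ R` -/
noncomputable def phi : St J R →* ((J →₀ R) ≃ₗ[R] (J →₀ R)) :=
  lift (fun i j a => tv i j a) tv_self tv_add tv_comm tv_comm3

@[simp] theorem phi_x (i j : J) (a : R) : phi (x i j a : St J R) = tv i j a := lift_x _ _ _ _ _ _ _ _

/-- the contragredient action: `x_ij(a) ↦ 1 - a E_ji` -/
noncomputable def psi : St J R →* ((J →₀ R) ≃ₗ[R] (J →₀ R)) :=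
  lift (fun i j a => tv j i (-a)) (fun i a => tv_self i _)
    (fun i j a b => by rw [neg_add, tv_add])
    (fun i j k l a b h h' h'' h''' => tv_comm _ _ _ _ _ _ h.symm h'.symm h'''.symm.symm h''.symm.symm)
    (fun i j l a b h h' h'' => by
      have h1 := tv_comm3 l j i (-b) (-a) h'.symm h.symm h''.symm
      have h2 : tv l i (-(a * b)) = (tv l i (a * b))⁻¹ := by
        rw [eq_inv_iff_mul_eq_one, ← tv_add, neg_add_cancel]
        ext1 v
        rw [tv_apply _ _ h''.symm]
        simp
      rw [h2, ← commutatorElement_inv, h1]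
      congr 2
      ring)

@[simp] theorem psi_x (i j : J) (a : R) : psi (x i j a : St J R) = tv j i (-a) :=
  lift_x _ _ _ _ _ _ _ _

variable (J R) in
/-- `K_2(J, R)` -/
noncomputable def K2 : Subgroup (St J R) := (phi (J := J) (R := R)).ker

theorem mem_K2 {s : St J R} : s ∈ K2 J R ↔ phi s = 1 := MonoidHom.mem_ker

end Action

/-- functoriality in the ring -/
noncomputable def map {R' : Type*} [CommRing R'] (f : R →+* R') : St J R →* St J R' :=
  lift (fun i j a => x i j (f a)) (fun i a => x_self i _) (fun i j a b => by rw [map_add, x_add])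
    (fun i j k l a b _ _ h h' => x_comm _ _ _ _ _ _ h h')
    (fun i j l a b h h' h'' => by rw [x_comm3 _ _ _ _ _ h h' h'', map_mul])

@[simp] theorem map_x {R' : Type*} [CommRing R'] (f : R →+* R') (i j : J) (a : R) :
    map f (x i j a : St J R) = x i j (f a) := lift_x _ _ _ _ _ _ _ _

/-- functoriality in the index type -/
noncomputable def emb {J' : Type*} (e : J → J') (he : Function.Injective e) :
    St J R →* St J' R :=
  lift (fun i j a => x (e i) (e j) a) (fun i a => x_self _ _) (fun i j a b => x_add _ _ _ _)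
    (fun i j k l a b _ _ h h' => x_comm _ _ _ _ _ _ (he.ne h) (he.ne h'))
    (fun i j l a b h h' h'' => x_comm3 _ _ _ _ _ (he.ne h) (he.ne h') (he.ne h''))

@[simp] theorem emb_x {J' : Type*} (e : J → J') (he : Function.Injective e) (i j : J) (a : R) :
    emb e he (x i j a : St J R) = x (e i) (e j) a := lift_x _ _ _ _ _ _ _ _

/-- `w_ij(u) = x_ij(u) x_ji(-u⁻¹) x_ij(u)` -/
noncomputable def ww (i j : J) (u : Rˣ) : St J R :=
  x i j (u : R) * x j i (-((u⁻¹ : Rˣ) : R)) * x i j (u : R)

/-- `h_ij(u) = w_ij(u) w_ij(-1)` -/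
noncomputable def hh (i j : J) (u : Rˣ) : St J R := ww i j u * ww i j (-1)

/-- the symbol `c_ij(u, v) = h_ij(u) h_ij(v) h_ij(uv)⁻¹` -/
noncomputable def cc (i j : J) (u v : Rˣ) : St J R := hh i j u * hh i j v * (hh i j (u * v))⁻¹

/-- the pairing `∑ w_j v_j` -/
noncomputable def dot (w v : J →₀ R) : R := w.sum fun j b => b * v j

/-- the subgroup generated by all symbols `c_ij(u, v)`, `i ≠ j` -/
noncomputable def Sym (J R : Type*) [CommRing R] : Subgroup (St J R) :=
  Subgroup.closure {s | ∃ (i j : J) (u v : Rˣ), i ≠ j ∧ s = cc i j u v}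

end MSK
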