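import Pool.Agent.MSK.Te

/-! MSK / Del: the boundary map `del : K2(J, k((t))) → kˣ`.

`del s = dt a` for any `a` with `th s = [a]` (and `1` outside `K2`).
PROOFS. `del_eq`: for `s ∈ K2`, two such `a` differ by an element of `A1` (`QuotientGroup.eq`), both are in `A0` by `Ap_of_th` and
`Ap_K2`; `dt_mul`. `del_mul`: `th` is a homomorphism, `dt_mul`. `del_iO`: for `s : St J k⟦X⟧` one has `th (map (iO k) s) = [phi s]` (`phi s` as a
`k`-linear automorphism; by `induction_left`: `te i j (iO k f) = tv i j f` by `Tf_iO`), so for `s ∈ K2` it is `[1]`. The same holds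
for all elements of `K2 J k((t))` in the image (`del_iO'`, for `map (iO k) s ∈ K2` implies `s ∈ K2`: `phi_map`, `iO_injective`).
`del_comm`: let `th s = [a]`, `th s' = [b]`; `Ap s a`, `Ap s A`, so `A⁻¹ a ∈ A0` (`Ap_A0`); `⁅s, s'⁆ ∈ K2` and `th ⁅s, s'⁆ = [⁅a, b⁆]`; `dt_comm` (the
element `⁅A, B⁆` approximates `⁅s, s'⁆`: `Ap_mul`, `Ap_inv`, so it is in `A0` by `Ap_K2`). -/

set_option autoImplicit false
set_option linter.unusedVariables false

namespace MSK

open scoped commutatorElement

variable {J : Type*} [DecidableEq J] {k : Type*} [Field k]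

open Classical in
/-- the boundary map -/
noncomputable def del (s : St J (LaurentSeries k)) : kˣ :=
  if h : ∃ a : (J →₀ PowerSeries k) ≃ₗ[k] (J →₀ PowerSeries k),
      th s = QuotientGroup.mk a ∧ dt a ≠ 0 then Units.mk0 (dt h.choose) h.choose_spec.2 else 1

theorem del_eq {s : St J (LaurentSeries k)} (hs : s ∈ K2 J (LaurentSeries k))
    {a : (J →₀ PowerSeries k) ≃ₗ[k] (J →₀ PowerSeries k)} (ha : th s = QuotientGroup.mk a) :
    (del s : k) = dt a := by
  have haA : a ∈ A0 k (J →₀ PowerSeries k) := (Ap_K2 hs).1 (Ap_of_th ha)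
  have h : ∃ a : (J →₀ PowerSeries k) ≃ₗ[k] (J →₀ PowerSeries k),
      th s = QuotientGroup.mk a ∧ dt a ≠ 0 := ⟨a, ha, dt_ne_zero haA⟩
  have h1 : (del s : k) = dt h.choose := by
    unfold del
    rw [dif_pos h]
    rfl
  rw [h1]
  have hc := h.choose_spec.1
  have hcA : h.choose ∈ A0 k (J →₀ PowerSeries k) := (Ap_K2 hs).1 (Ap_of_th hc)
  have h2 : a⁻¹ * h.choose ∈ A1 k (J →₀ PowerSeries k) := by
    apply QuotientGroup.eq.1
    rw [← ha, ← hc]
  have h3 : h.choose = a * (a⁻¹ * h.choose) := by group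
  rw [h3, dt_mul haA h2.1, h2.2, mul_one]

theorem del_one : del (1 : St J (LaurentSeries k)) = 1 := by
  apply Units.ext
  rw [del_eq (a := 1) (Subgroup.one_mem _) (by rw [map_one]; rfl), dt_one, Units.val_one]

theorem del_mul {s s' : St J (LaurentSeries k)} (hs : s ∈ K2 J (LaurentSeries k))
    (hs' : s' ∈ K2 J (LaurentSeries k)) : del (s * s') = del s * del s' := by
  obtain ⟨a, ha, ha'⟩ := exists_th s
  obtain ⟨b, hb, hb'⟩ := exists_th s'
  apply Units.ext
  rw [Units.val_mul, del_eq hs ha, del_eq hs' hb,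
    del_eq (a := a * b) (Subgroup.mul_mem _ hs hs') (by rw [map_mul, ha, hb]; rfl),
    dt_mul ((Ap_K2 hs).1 ha') ((Ap_K2 hs').1 hb')]

theorem del_inv {s : St J (LaurentSeries k)} (hs : s ∈ K2 J (LaurentSeries k)) :
    del s⁻¹ = (del s)⁻¹ := by
  rw [eq_inv_iff_mul_eq_one, ← del_mul (Subgroup.inv_mem _ hs) hs, inv_mul_cancel, del_one]

theorem mem_K2_of_map {R R' : Type*} [CommRing R] [CommRing R'] (f : R →+* R')
    (hf : Function.Injective f) {s : St J R} (hs : map f s ∈ K2 J R') : s ∈ K2 J R := by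
  rw [mem_K2] at hs ⊢
  ext1 v
  have h := phi_map f s v
  rw [hs] at h
  exact (Finsupp.mapRange_injective f (map_zero f) hf h).symm

/-- the class of the Toeplitz operator of an element of the Steinberg group of `k⟦X⟧` -/
theorem th_iO (s : St J (PowerSeries k)) :
    th (map (iO k) s) = QuotientGroup.mk (LinearEquiv.restrictScalars k (phi s)) := by
  induction s using induction_left with
  | h1 =>
    rw [map_one, map_one, map_one]
    have h : LinearEquiv.restrictScalars k
        (1 : (J →₀ PowerSeries k) ≃ₗ[PowerSeries k] (J →₀ PowerSeries k)) = 1 := rfl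
    rw [h]
    rfl
  | hx i j a s hs =>
    rw [map_mul, map_mul, map_mul, map_x, th_x, phi_x, hs]
    have h1 : te i j (iO k a) = LinearEquiv.restrictScalars k (tv i j a) := by
      by_cases hij : i = j
      · subst hij
        rw [te_self, tv_self]
        rfl
      · ext1 v
        rw [te_apply i j hij, LinearEquiv.restrictScalars_apply, tv_apply i j hij, Tf_iO]
    rw [h1]
    rfl

/-- the boundary map is trivial on `K2(J, k⟦X⟧)` -/
theorem del_iO {s : St J (PowerSeries k)} (hs : s ∈ K2 J (PowerSeries k)) :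
    del (map (iO k) s) = 1 := by
  apply Units.ext
  have h1 := th_iO s
  have h2 : LinearEquiv.restrictScalars k (phi s) = 1 := by
    rw [mem_K2.1 hs]
    rfl
  rw [h2] at h1
  rw [del_eq (map_mem_K2 (iO k) hs) h1, dt_one, Units.val_one]

theorem del_iO' {s : St J (PowerSeries k)} (hs : map (iO k) s ∈ K2 J (LaurentSeries k)) :
    del (map (iO k) s) = 1 :=
  del_iO (mem_K2_of_map (iO k) iO_injective hs)

/-- commutators of elements with commuting actions are computed with any approximations -/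
theorem del_comm {s s' : St J (LaurentSeries k)} (h : ⁅s, s'⁆ ∈ K2 J (LaurentSeries k))
    {A B : (J →₀ PowerSeries k) ≃ₗ[k] (J →₀ PowerSeries k)} (hA : Ap s A) (hB : Ap s' B) :
    (del ⁅s, s'⁆ : k) = dt ⁅A, B⁆ := by
  obtain ⟨a, ha, ha'⟩ := exists_th s
  obtain ⟨b, hb, hb'⟩ := exists_th s'
  have h1 : th ⁅s, s'⁆ = QuotientGroup.mk ⁅a, b⁆ := by
    rw [map_commutatorElement, ha, hb]
    rfl
  rw [del_eq h h1]
  have h2 : Ap ⁅s, s'⁆ ⁅A, B⁆ := by
    rw [commutatorElement_def, commutatorElement_def]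
    exact Ap_mul (Ap_mul (Ap_mul hA hB) (Ap_inv hA)) (Ap_inv hB)
  exact (dt_comm ((Ap_K2 h).1 h2) (Ap_A0 hA ha') (Ap_A0 hB hb')).2

end MSK
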