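import Pool.Agent.MSK.Del

/-! MSK / Dem: `del` is natural in the index type.

PROOF. For an injective `e : J → J'` and `a : (J →₀ k⟦X⟧) ≃ (J →₀ k⟦X⟧)` let `xt e a` be `a` on the coordinates in the range of `e`, and the
identity on the others: `xt e a v = v + mapDomain e (a (r v) - r v)`, `r v = v.comapDomain e (he.injOn)` (so `r (mapDomain e w) = w`). `xt` is
multiplicative, `xt 1 = 1` (so it is an equivalence with inverse `xt e a⁻¹`). `xt e (te i j f) = te (e i) (e j) f`. `a ∈ A0 → xt e a ∈ A0` and
`dt (xt e a) = dt a` by `dt_of_intertwine` with `j = mapDomain e`. So `th s = [a]` implies `th (emb e he s) = [xt e a]` (`induction_left`). -/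

set_option autoImplicit false
set_option linter.unusedVariables false

namespace MSK

variable {J J' : Type*} [DecidableEq J] [DecidableEq J'] {k : Type*} [Field k]

/-- the restriction to the coordinates in the range of `e` -/
noncomputable def xr (e : J → J') (he : Function.Injective e) :
    (J' →₀ PowerSeries k) →ₗ[k] (J →₀ PowerSeries k) where
  toFun v := v.comapDomain e he.injOn
  map_add' v w := by
    ext1 i
    simp only [Finsupp.comapDomain_apply, Finsupp.add_apply]
  map_smul' a v := by
    ext1 i
    simp only [Finsupp.comapDomain_apply, Finsupp.smul_apply, RingHom.id_apply]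

omit [DecidableEq J] [DecidableEq J'] in
theorem xr_apply (e : J → J') (he : Function.Injective e) (v : J' →₀ PowerSeries k) (i : J) :
    xr e he v i = v (e i) := rfl

/-- the embedding of the coordinates -/
noncomputable def xi (e : J → J') : (J →₀ PowerSeries k) →ₗ[k] (J' →₀ PowerSeries k) :=
  Finsupp.lmapDomain (PowerSeries k) k e

omit [DecidableEq J] [DecidableEq J'] in
theorem xr_xi (e : J → J') (he : Function.Injective e) (v : J →₀ PowerSeries k) :
    xr e he (xi e v) = v := by
  ext1 i
  rw [xr_apply, xi, Finsupp.lmapDomain_apply, Finsupp.mapDomain_apply he]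

omit [DecidableEq J] [DecidableEq J'] in
theorem xi_injective (e : J → J') (he : Function.Injective e) :
    Function.Injective (xi (k := k) e) := by
  intro v w h
  rw [← xr_xi e he v, ← xr_xi e he w, h]

/-- extension of an endomorphism by the identity -/
noncomputable def xtMap (e : J → J') (he : Function.Injective e)
    (a : (J →₀ PowerSeries k) →ₗ[k] (J →₀ PowerSeries k)) :
    (J' →₀ PowerSeries k) →ₗ[k] (J' →₀ PowerSeries k) :=
  LinearMap.id + xi (k := k) e ∘ₗ ((a - LinearMap.id) ∘ₗ xr (k := k) e he)

omit [DecidableEq J] [DecidableEq J'] in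
theorem xtMap_apply (e : J → J') (he : Function.Injective e)
    (a : (J →₀ PowerSeries k) →ₗ[k] (J →₀ PowerSeries k)) (v : J' →₀ PowerSeries k) :
    xtMap e he a v = v + xi e (a (xr e he v) - xr e he v) := rfl

omit [DecidableEq J] [DecidableEq J'] in
theorem xtMap_comp (e : J → J') (he : Function.Injective e)
    (a b : (J →₀ PowerSeries k) →ₗ[k] (J →₀ PowerSeries k)) (v : J' →₀ PowerSeries k) :
    xtMap e he a (xtMap e he b v) = xtMap e he (a ∘ₗ b) v := by
  rw [xtMap_apply, xtMap_apply, xtMap_apply, map_add, xr_xi, LinearMap.comp_apply]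
  rw [show xr e he v + (b (xr e he v) - xr e he v) = b (xr e he v) by abel, map_sub, map_sub,
    map_sub]
  abel

/-- extension of an automorphism by the identity -/
noncomputable def xt (e : J → J') (he : Function.Injective e)
    (a : (J →₀ PowerSeries k) ≃ₗ[k] (J →₀ PowerSeries k)) :
    (J' →₀ PowerSeries k) ≃ₗ[k] (J' →₀ PowerSeries k) :=
  LinearEquiv.ofLinearMap (xtMap e he a) (xtMap e he a.symm)
    (by
      refine LinearMap.ext fun v => ?_
      rw [LinearMap.comp_apply, xtMap_comp, LinearEquiv.comp_coe, LinearEquiv.symm_trans_self,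
        xtMap_apply, LinearMap.id_apply]
      change v + xi e (xr e he v - xr e he v) = v
      rw [sub_self, map_zero, add_zero])
    (by
      refine LinearMap.ext fun v => ?_
      rw [LinearMap.comp_apply, xtMap_comp, LinearEquiv.comp_coe, LinearEquiv.self_trans_symm,
        xtMap_apply, LinearMap.id_apply]
      change v + xi e (xr e he v - xr e he v) = v
      rw [sub_self, map_zero, add_zero])

omit [DecidableEq J] [DecidableEq J'] in
theorem xt_apply (e : J → J') (he : Function.Injective e)
    (a : (J →₀ PowerSeries k) ≃ₗ[k] (J →₀ PowerSeries k)) (v : J' →₀ PowerSeries k) :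
    xt e he a v = v + xi e (a (xr e he v) - xr e he v) := rfl

omit [DecidableEq J] [DecidableEq J'] in
theorem xt_one (e : J → J') (he : Function.Injective e) :
    xt e he (1 : (J →₀ PowerSeries k) ≃ₗ[k] (J →₀ PowerSeries k)) = 1 := by
  ext1 v
  rw [xt_apply]
  change v + xi e (xr e he v - xr e he v) = v
  rw [sub_self, map_zero, add_zero]

omit [DecidableEq J] [DecidableEq J'] in
theorem xt_mul (e : J → J') (he : Function.Injective e)
    (a b : (J →₀ PowerSeries k) ≃ₗ[k] (J →₀ PowerSeries k)) :
    xt e he (a * b) = xt e he a * xt e he b := by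
  ext1 v
  exact (xtMap_comp e he (a : (J →₀ PowerSeries k) →ₗ[k] (J →₀ PowerSeries k)) b v).symm

theorem xt_te (e : J → J') (he : Function.Injective e) (i j : J) (f : LaurentSeries k) :
    xt e he (te i j f) = te (e i) (e j) f := by
  by_cases h : i = j
  · subst h
    rw [te_self, te_self, xt_one]
  · ext1 v
    rw [xt_apply, te_apply i j h, te_apply _ _ (he.ne h), add_sub_cancel_left, xr_apply, xi,
      Finsupp.lmapDomain_apply, Finsupp.mapDomain_single]

theorem exists_xt (e : J → J') (he : Function.Injective e) (s : St J (LaurentSeries k)) :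
    ∃ a : (J →₀ PowerSeries k) ≃ₗ[k] (J →₀ PowerSeries k),
      th s = QuotientGroup.mk a ∧ th (emb e he s) = QuotientGroup.mk (xt e he a) := by
  induction s using induction_left with
  | h1 =>
    refine ⟨1, ?_, ?_⟩
    · rw [map_one]
      rfl
    · rw [map_one, map_one, xt_one]
      rfl
  | hx i j f s hs =>
    obtain ⟨a, ha, ha'⟩ := hs
    refine ⟨te i j f * a, ?_, ?_⟩
    · rw [map_mul, th_x, ha]
      rfl
    · rw [map_mul, map_mul, emb_x, th_x, ha', xt_mul, xt_te]
      rfl

omit [DecidableEq J] [DecidableEq J'] in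
theorem dt_xt (e : J → J') (he : Function.Injective e)
    {a : (J →₀ PowerSeries k) ≃ₗ[k] (J →₀ PowerSeries k)} (ha : a ∈ A0 k (J →₀ PowerSeries k)) :
    dt (xt e he a) = dt a := by
  refine (dt_of_intertwine (xi e) (xi_injective e he) ha (xt e he a) ?_ ?_).2
  · intro v
    rw [xt_apply, xr_xi, map_sub, add_sub_cancel]
  · intro v
    refine ⟨xr e he v, ?_⟩
    rw [xt_apply, add_sub_cancel_left]

theorem del_emb (e : J → J') (he : Function.Injective e) {s : St J (LaurentSeries k)}
    (hs : s ∈ K2 J (LaurentSeries k)) : del (emb e he s) = del s := by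
  obtain ⟨a, ha, ha'⟩ := exists_xt e he s
  have h0 : a ∈ A0 k (J →₀ PowerSeries k) := (Ap_K2 hs).1 (Ap_of_th ha)
  apply Units.ext
  rw [del_eq (emb_mem_K2 e he hs) ha', del_eq hs ha, dt_xt e he h0]

end MSK
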