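import Pool.Agent.MSK.Tr

/-! MSK / Wh: the elements `ww`, `hh`, `cc`.

PROOF. `phi_ww`: on basis vectors, `phi (ww i j u)`: `e_i ↦ -u⁻¹ e_j`, `e_j ↦ u e_i`, other `e_k` fixed (compute with `tv_apply`);
general `v`: the formula below. `psi_ww`: `e_i ↦ -u e_j`, `e_j ↦ u⁻¹ e_i`. `phi_hh`: `e_i ↦ u e_i`, `e_j ↦ u⁻¹ e_j`; `psi_hh`: inverse.
`conj_x`: `x k l a = T (single k a) (single l 1)` (`T_single`), `conj_T`. From it all conjugation formulas, e.g.
`hh i j u * x k l a * (hh i j u)⁻¹ = x k l (d_k a d_l⁻¹)`. `ww_neg`: `ww i j (-u) = (ww i j u)⁻¹` (by definition and `x_neg`).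
`ww_swap`: `ww i j u = ww j i (-u⁻¹)`: conjugating `ww i j u` by itself: `ww i j u = ww i j u * ww i j u * (ww i j u)⁻¹` and conjugate the
three factors: `w x_ij(u) w⁻¹ = x_ji(-u⁻¹)`, `w x_ji(-u⁻¹) w⁻¹ = x_ij(u)`. `cc_mem_K2`: action is diagonal and multiplicative.
`cc_eq_comm`: `hh i k v * ww i j u * (hh i k v)⁻¹ = ww i j (v u)`, so `hh i k v * hh i j u * (hh i k v)⁻¹ = ww i j (v u) * ww i j (-v) =
hh i j (v u) * (hh i j v)⁻¹` (using `ww_neg`), hence `⁅hh i j u, hh i k v⁆ = hh i j u * (hh i j (v u) (hh i j v)⁻¹)⁻¹ = cc i j u v`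
(central elements). `cc_mul_left`: commutator of elements which multiply modulo the centre. `cc_indep`: conjugate the commutator
by an element of `St` permuting the indices (a product of `ww`'s with `u = 1`), `K2` is central, `comm_eq_of_phi_eq`.
`cc_symm`: `⁅hh i j v, hh i k u⁆` conjugated by `ww j k 1` is `⁅hh i k v, hh i j u⁆` up to central elements. -/

set_option autoImplicit false
set_option linter.unusedVariables false

namespace MSK

open scoped commutatorElement

variable {J : Type*} {R : Type*} [CommRing R] [DecidableEq J]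

section Pt

private theorem phi_ww_apply (i j : J) (hij : i ≠ j) (u : Rˣ) (v : J →₀ R) (k : J) :
    (phi (ww i j u) v) k = if k = i then (u : R) * v j else
      if k = j then -(((u⁻¹ : Rˣ) : R) * v i) else v k := by
  have hu : (u : R) * ((u⁻¹ : Rˣ) : R) = 1 := u.mul_inv
  unfold ww
  simp only [map_mul, LinearEquiv.mul_apply, phi_x, tv_apply i j hij, tv_apply j i hij.symm,
    Finsupp.add_apply, Finsupp.single_apply]
  rcases eq_or_ne k i with rfl | hki
  · simp only [if_true, if_neg hij, if_neg hij.symm, add_zero]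
    linear_combination (-(v k) - (u : R) * v j) * hu
  · rcases eq_or_ne k j with rfl | hkj
    · simp only [if_true, if_neg hij, if_neg hij.symm, add_zero]
      linear_combination (-(v k)) * hu
    · simp only [if_neg hki, if_neg hkj, if_neg hki.symm, if_neg hkj.symm, add_zero]

private theorem psi_ww_apply (i j : J) (hij : i ≠ j) (u : Rˣ) (v : J →₀ R) (k : J) :
    (psi (ww i j u) v) k = if k = i then ((u⁻¹ : Rˣ) : R) * v j else
      if k = j then -((u : R) * v i) else v k := by
  have hu : (u : R) * ((u⁻¹ : Rˣ) : R) = 1 := u.mul_inv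
  unfold ww
  simp only [map_mul, LinearEquiv.mul_apply, psi_x, tv_apply i j hij, tv_apply j i hij.symm,
    Finsupp.add_apply, Finsupp.single_apply, neg_neg]
  rcases eq_or_ne k i with rfl | hki
  · simp only [if_true, if_neg hij, if_neg hij.symm, add_zero]
    linear_combination (-(v k)) * hu
  · rcases eq_or_ne k j with rfl | hkj
    · simp only [if_true, if_neg hij, if_neg hij.symm, add_zero]
      linear_combination (-(v k) + (u : R) * v i) * hu
    · simp only [if_neg hki, if_neg hkj, if_neg hki.symm, if_neg hkj.symm, add_zero]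

private theorem phi_hh_apply (i j : J) (hij : i ≠ j) (u : Rˣ) (v : J →₀ R) (k : J) :
    (phi (hh i j u) v) k = if k = i then (u : R) * v i else
      if k = j then ((u⁻¹ : Rˣ) : R) * v j else v k := by
  unfold hh
  rw [map_mul, LinearEquiv.mul_apply, phi_ww_apply i j hij]
  rcases eq_or_ne k i with rfl | hki
  · rw [if_pos rfl, if_pos rfl, phi_ww_apply k j hij, if_neg hij.symm, if_pos rfl]
    simp
  · rcases eq_or_ne k j with rfl | hkj
    · rw [if_neg hki, if_pos rfl, if_neg hki, if_pos rfl, phi_ww_apply i k hij, if_pos rfl]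
      simp
    · rw [if_neg hki, if_neg hkj, if_neg hki, if_neg hkj, phi_ww_apply i j hij, if_neg hki,
        if_neg hkj]

private theorem psi_hh_apply (i j : J) (hij : i ≠ j) (u : Rˣ) (v : J →₀ R) (k : J) :
    (psi (hh i j u) v) k = if k = i then ((u⁻¹ : Rˣ) : R) * v i else
      if k = j then (u : R) * v j else v k := by
  unfold hh
  rw [map_mul, LinearEquiv.mul_apply, psi_ww_apply i j hij]
  rcases eq_or_ne k i with rfl | hki
  · rw [if_pos rfl, if_pos rfl, psi_ww_apply k j hij, if_neg hij.symm, if_pos rfl]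
    simp
  · rcases eq_or_ne k j with rfl | hkj
    · rw [if_neg hki, if_pos rfl, if_neg hki, if_pos rfl, psi_ww_apply i k hij, if_pos rfl]
      simp
    · rw [if_neg hki, if_neg hkj, if_neg hki, if_neg hkj, psi_ww_apply i j hij, if_neg hki,
        if_neg hkj]

private theorem phi_hh_mul (i j : J) (hij : i ≠ j) (u v : Rˣ) :
    phi (hh i j u * hh i j v) = phi (hh i j (u * v)) := by
  ext1 w
  ext k
  rw [map_mul, LinearEquiv.mul_apply, phi_hh_apply i j hij, phi_hh_apply i j hij,
    phi_hh_apply i j hij, phi_hh_apply i j hij, phi_hh_apply i j hij]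
  rcases eq_or_ne k i with rfl | hki
  · simp only [if_true, Units.val_mul]
    ring
  · rcases eq_or_ne k j with rfl | hkj
    · simp only [if_true, if_neg hki, mul_inv, Units.val_mul]
      ring
    · simp only [if_neg hki, if_neg hkj]

end Pt

theorem phi_ww (i j : J) (hij : i ≠ j) (u : Rˣ) (v : J →₀ R) :
    phi (ww i j u) v = v - Finsupp.single i (v i) - Finsupp.single j (v j) +
      Finsupp.single i ((u : R) * v j) - Finsupp.single j (((u⁻¹ : Rˣ) : R) * v i) := by
  ext k
  rw [phi_ww_apply i j hij]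
  simp only [Finsupp.add_apply, Finsupp.sub_apply, Finsupp.single_apply]
  rcases eq_or_ne k i with rfl | hki
  · simp only [if_true, if_neg hij.symm]
    ring
  · rcases eq_or_ne k j with rfl | hkj
    · simp only [if_true, if_neg hki, if_neg hki.symm]
      ring
    · simp only [if_neg hki, if_neg hkj, if_neg hki.symm, if_neg hkj.symm]
      ring

theorem psi_ww (i j : J) (hij : i ≠ j) (u : Rˣ) (v : J →₀ R) :
    psi (ww i j u) v = v - Finsupp.single i (v i) - Finsupp.single j (v j) +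
      Finsupp.single i (((u⁻¹ : Rˣ) : R) * v j) - Finsupp.single j ((u : R) * v i) := by
  ext k
  rw [psi_ww_apply i j hij]
  simp only [Finsupp.add_apply, Finsupp.sub_apply, Finsupp.single_apply]
  rcases eq_or_ne k i with rfl | hki
  · simp only [if_true, if_neg hij.symm]
    ring
  · rcases eq_or_ne k j with rfl | hkj
    · simp only [if_true, if_neg hki, if_neg hki.symm]
      ring
    · simp only [if_neg hki, if_neg hkj, if_neg hki.symm, if_neg hkj.symm]
      ring

theorem phi_hh (i j : J) (hij : i ≠ j) (u : Rˣ) (v : J →₀ R) :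
    phi (hh i j u) v = v - Finsupp.single i (v i) - Finsupp.single j (v j) +
      Finsupp.single i ((u : R) * v i) + Finsupp.single j (((u⁻¹ : Rˣ) : R) * v j) := by
  ext k
  rw [phi_hh_apply i j hij]
  simp only [Finsupp.add_apply, Finsupp.sub_apply, Finsupp.single_apply]
  rcases eq_or_ne k i with rfl | hki
  · simp only [if_true, if_neg hij.symm]
    ring
  · rcases eq_or_ne k j with rfl | hkj
    · simp only [if_true, if_neg hki, if_neg hki.symm]
      ring
    · simp only [if_neg hki, if_neg hkj, if_neg hki.symm, if_neg hkj.symm]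
      ring

theorem psi_hh (i j : J) (hij : i ≠ j) (u : Rˣ) (v : J →₀ R) :
    psi (hh i j u) v = v - Finsupp.single i (v i) - Finsupp.single j (v j) +
      Finsupp.single i (((u⁻¹ : Rˣ) : R) * v i) + Finsupp.single j ((u : R) * v j) := by
  ext k
  rw [psi_hh_apply i j hij]
  simp only [Finsupp.add_apply, Finsupp.sub_apply, Finsupp.single_apply]
  rcases eq_or_ne k i with rfl | hki
  · simp only [if_true, if_neg hij.symm]
    ring
  · rcases eq_or_ne k j with rfl | hkj
    · simp only [if_true, if_neg hki, if_neg hki.symm]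
      ring
    · simp only [if_neg hki, if_neg hkj, if_neg hki.symm, if_neg hkj.symm]
      ring

theorem ww_neg (i j : J) (u : Rˣ) : ww i j (-u) = (ww i j u)⁻¹ := by
  unfold ww
  rw [mul_inv_rev, mul_inv_rev, ← x_neg, ← x_neg, neg_neg, inv_neg, Units.val_neg, Units.val_neg,
    neg_neg, mul_assoc]

theorem cc_mem_K2 (i j : J) (hij : i ≠ j) (u v : Rˣ) : cc i j u v ∈ K2 J R := by
  rw [mem_K2]
  unfold cc
  rw [map_mul, phi_hh_mul i j hij, ← map_mul, mul_inv_cancel, map_one]

omit [DecidableEq J] in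
private theorem map_ww {R' : Type*} [CommRing R'] (f : R →+* R') (i j : J) (u : Rˣ) :
    map f (ww i j u) = ww i j (Units.map f.toMonoidHom u) := by
  unfold ww
  rw [map_mul, map_mul, map_x, map_x, map_neg, ← map_inv]
  rfl

theorem map_hh {R' : Type*} [CommRing R'] (f : R →+* R') (i j : J) (u : Rˣ) :
    map f (hh i j u) = hh i j (Units.map f.toMonoidHom u) := by
  have h1 : Units.map f.toMonoidHom (-1 : Rˣ) = -1 := by
    ext
    simp
  unfold hh
  rw [map_mul, map_ww, map_ww, h1]

theorem map_cc {R' : Type*} [CommRing R'] (f : R →+* R') (i j : J) (u v : Rˣ) :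
    map f (cc i j u v) = cc i j (Units.map f.toMonoidHom u) (Units.map f.toMonoidHom v) := by
  unfold cc
  rw [map_mul, map_mul, map_inv, map_hh, map_hh, map_hh, map_mul]

omit [DecidableEq J] in
private theorem emb_ww {J' : Type*} (e : J → J') (he : Function.Injective e) (i j : J) (u : Rˣ) :
    emb e he (ww i j u) = ww (e i) (e j) u := by
  unfold ww
  rw [map_mul, map_mul, emb_x, emb_x]

theorem emb_hh {J' : Type*} (e : J → J') (he : Function.Injective e) (i j : J) (u : Rˣ) :
    emb e he (hh i j u) = hh (e i) (e j) u := by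
  unfold hh
  rw [map_mul, emb_ww, emb_ww]

theorem emb_cc {J' : Type*} (e : J → J') (he : Function.Injective e) (i j : J) (u v : Rˣ) :
    emb e he (cc i j u v) = cc (e i) (e j) u v := by
  unfold cc
  rw [map_mul, map_mul, map_inv, emb_hh, emb_hh, emb_hh]

variable [Infinite J]

/-- general conjugation formula -/
theorem conj_x (s : St J R) (k l : J) (hkl : k ≠ l) (a : R) :
    s * x k l a * s⁻¹ = T (phi s (Finsupp.single k a)) (psi s (Finsupp.single l 1)) := by
  have hd : dot (Finsupp.single l (1 : R)) (Finsupp.single k a) = 0 := by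
    rw [dot_single_left, Finsupp.single_apply, if_neg hkl, mul_zero]
  rw [← conj_T s _ _ hd, T_single k l hkl, mul_one]

/-- conjugation by an element acting diagonally -/
theorem conj_x_diag (s : St J R) (d : J → Rˣ)
    (hs : ∀ v : J →₀ R, ∀ k, (phi s v) k = (d k : R) * v k) (k l : J) (a : R) :
    s * x k l a * s⁻¹ = x k l ((d k : R) * a * (((d l)⁻¹ : Rˣ) : R)) := by
  rcases eq_or_ne k l with rfl | hkl
  · rw [x_self, x_self, mul_one, mul_inv_cancel]
  have h1 : ∀ (m : J) (b : R), phi s (Finsupp.single m b) = Finsupp.single m ((d m : R) * b) := by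
    intro m b
    ext p
    rw [hs, Finsupp.single_apply, Finsupp.single_apply]
    split_ifs with h
    · rw [h]
    · rw [mul_zero]
  have h2 : psi s (Finsupp.single l (1 : R)) = Finsupp.single l (((d l)⁻¹ : Rˣ) : R) := by
    ext m
    have h3 := dot_psi_phi s (Finsupp.single l (1 : R)) (Finsupp.single m (1 : R))
    rw [h1, dot_single_right, dot_single_right, mul_one, mul_one, Finsupp.single_apply] at h3
    have h4 : (d m : R) * (((d m)⁻¹ : Rˣ) : R) = 1 := (d m).mul_inv
    rw [Finsupp.single_apply]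
    split_ifs at h3 ⊢ with h
    · subst h
      linear_combination (((d l)⁻¹ : Rˣ) : R) * h3 - (psi s (Finsupp.single l (1 : R))) l * h4
    · linear_combination (((d m)⁻¹ : Rˣ) : R) * h3 - (psi s (Finsupp.single l (1 : R))) m * h4
  rw [conj_x s k l hkl, h1, h2, T_single k l hkl]

private theorem single_ww (i j : J) (hij : i ≠ j) (u : Rˣ) (a : R) :
    phi (ww i j u) (Finsupp.single i a) = Finsupp.single j (-(((u⁻¹ : Rˣ) : R) * a)) := by
  ext k
  rw [phi_ww_apply i j hij]
  simp only [Finsupp.single_apply, if_neg hij, if_true]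
  rcases eq_or_ne k i with rfl | hki
  · simp only [if_true, if_neg hij.symm, mul_zero]
  · rcases eq_or_ne k j with rfl | hkj
    · simp only [if_true, if_neg hki]
    · simp only [if_neg hki, if_neg hkj, if_neg hki.symm, if_neg hkj.symm]

private theorem single_ww' (i j : J) (hij : i ≠ j) (u : Rˣ) (a : R) :
    phi (ww i j u) (Finsupp.single j a) = Finsupp.single i ((u : R) * a) := by
  ext k
  rw [phi_ww_apply i j hij]
  simp only [Finsupp.single_apply, if_neg hij.symm, if_true]
  rcases eq_or_ne k i with rfl | hki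
  · simp only [if_true]
  · rcases eq_or_ne k j with rfl | hkj
    · simp only [if_true, if_neg hki, if_neg hki.symm, mul_zero, neg_zero]
    · simp only [if_neg hki, if_neg hkj, if_neg hki.symm, if_neg hkj.symm]

private theorem single_psi_ww (i j : J) (hij : i ≠ j) (u : Rˣ) (a : R) :
    psi (ww i j u) (Finsupp.single i a) = Finsupp.single j (-((u : R) * a)) := by
  ext k
  rw [psi_ww_apply i j hij]
  simp only [Finsupp.single_apply, if_neg hij, if_true]
  rcases eq_or_ne k i with rfl | hki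
  · simp only [if_true, if_neg hij.symm, mul_zero]
  · rcases eq_or_ne k j with rfl | hkj
    · simp only [if_true, if_neg hki]
    · simp only [if_neg hki, if_neg hkj, if_neg hki.symm, if_neg hkj.symm]

private theorem single_psi_ww' (i j : J) (hij : i ≠ j) (u : Rˣ) (a : R) :
    psi (ww i j u) (Finsupp.single j a) = Finsupp.single i (((u⁻¹ : Rˣ) : R) * a) := by
  ext k
  rw [psi_ww_apply i j hij]
  simp only [Finsupp.single_apply, if_neg hij.symm, if_true]
  rcases eq_or_ne k i with rfl | hki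
  · simp only [if_true]
  · rcases eq_or_ne k j with rfl | hkj
    · simp only [if_true, if_neg hki, if_neg hki.symm, mul_zero, neg_zero]
    · simp only [if_neg hki, if_neg hkj, if_neg hki.symm, if_neg hkj.symm]

private theorem ww_conj_ij (i j : J) (hij : i ≠ j) (u : Rˣ) (a : R) :
    ww i j u * x i j a * (ww i j u)⁻¹ =
      x j i (-(((u⁻¹ : Rˣ) : R) * a * ((u⁻¹ : Rˣ) : R))) := by
  rw [conj_x _ i j hij, single_ww i j hij, single_psi_ww' i j hij, T_single j i hij.symm]
  congr 1
  ring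

private theorem ww_conj_ji (i j : J) (hij : i ≠ j) (u : Rˣ) (b : R) :
    ww i j u * x j i b * (ww i j u)⁻¹ = x i j (-((u : R) * b * (u : R))) := by
  rw [conj_x _ j i hij.symm, single_ww' i j hij, single_psi_ww i j hij, T_single i j hij]
  congr 1
  ring

theorem ww_swap (i j : J) (hij : i ≠ j) (u : Rˣ) : ww i j u = ww j i (-u⁻¹) := by
  have hu : (u : R) * ((u⁻¹ : Rˣ) : R) = 1 := u.mul_inv
  have h1 : ww i j u = ww i j u * ww i j u * (ww i j u)⁻¹ := by
    rw [mul_inv_cancel_right]
  have h2 : ww i j u * ww i j u * (ww i j u)⁻¹ =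
      (ww i j u * x i j (u : R) * (ww i j u)⁻¹) *
        (ww i j u * x j i (-((u⁻¹ : Rˣ) : R)) * (ww i j u)⁻¹) *
          (ww i j u * x i j (u : R) * (ww i j u)⁻¹) := by
    nth_rewrite 2 [ww]
    group
  rw [h1, h2, ww_conj_ij i j hij, ww_conj_ji i j hij]
  have e1 : -(((u⁻¹ : Rˣ) : R) * (u : R) * ((u⁻¹ : Rˣ) : R)) = ((-u⁻¹ : Rˣ) : R) := by
    rw [Units.val_neg]
    linear_combination (-((u⁻¹ : Rˣ) : R)) * hu
  have e2 : -((u : R) * -((u⁻¹ : Rˣ) : R) * (u : R)) = -(((-u⁻¹)⁻¹ : Rˣ) : R) := by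
    rw [inv_neg, inv_inv, Units.val_neg]
    linear_combination (u : R) * hu
  rw [e1, e2]
  rfl

private theorem conj_ww_diag (s : St J R) (d : J → Rˣ)
    (hs : ∀ v : J →₀ R, ∀ k, (phi s v) k = (d k : R) * v k) (i j : J) (u : Rˣ) :
    s * ww i j u * s⁻¹ = ww i j (d i * u * (d j)⁻¹) := by
  have h1 : s * ww i j u * s⁻¹ = (s * x i j (u : R) * s⁻¹) *
      (s * x j i (-((u⁻¹ : Rˣ) : R)) * s⁻¹) * (s * x i j (u : R) * s⁻¹) := by
    rw [ww]
    group
  rw [h1, conj_x_diag s d hs, conj_x_diag s d hs]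
  have e1 : (d j : R) * -((u⁻¹ : Rˣ) : R) * (((d i)⁻¹ : Rˣ) : R) =
      -(((d i * u * (d j)⁻¹)⁻¹ : Rˣ) : R) := by
    rw [mul_inv, mul_inv, inv_inv, Units.val_mul, Units.val_mul]
    ring
  have e2 : (d i : R) * (u : R) * (((d j)⁻¹ : Rˣ) : R) = ((d i * u * (d j)⁻¹ : Rˣ) : R) := by
    rw [Units.val_mul, Units.val_mul]
  rw [e1, e2]
  rfl

/-- the diagonal entries of `hh i j u` -/
private def dd (i j : J) (u : Rˣ) (k : J) : Rˣ := if k = i then u else if k = j then u⁻¹ else 1

omit [Infinite J] in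
private theorem phi_hh_diag (i j : J) (hij : i ≠ j) (u : Rˣ) (v : J →₀ R) (k : J) :
    (phi (hh i j u) v) k = (dd i j u k : R) * v k := by
  rw [phi_hh_apply i j hij]
  unfold dd
  rcases eq_or_ne k i with rfl | hki
  · simp only [if_true]
  · rcases eq_or_ne k j with rfl | hkj
    · simp only [if_true, if_neg hki]
    · simp only [if_neg hki, if_neg hkj, Units.val_one, one_mul]

theorem cc_eq_comm (i j k : J) (hij : i ≠ j) (hik : i ≠ k) (hjk : j ≠ k) (u v : Rˣ) :
    cc i j u v = ⁅hh i j u, hh i k v⁆ := by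
  have h1 : ∀ t : Rˣ, hh i k v * ww i j t * (hh i k v)⁻¹ = ww i j (v * t) := by
    intro t
    rw [conj_ww_diag _ _ (phi_hh_diag i k hik v)]
    have e1 : dd i k v i = v := by
      unfold dd
      rw [if_pos rfl]
    have e2 : dd i k v j = 1 := by
      unfold dd
      rw [if_neg hij.symm, if_neg hjk]
    rw [e1, e2, inv_one, mul_one]
  have h2 : hh i k v * hh i j u * (hh i k v)⁻¹ = hh i j (u * v) * (hh i j v)⁻¹ := by
    have e1 : hh i k v * hh i j u * (hh i k v)⁻¹ =
        (hh i k v * ww i j u * (hh i k v)⁻¹) * (hh i k v * ww i j (-1) * (hh i k v)⁻¹) := by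
      conv_lhs => rw [hh.eq_1 i j u]
      group
    rw [e1, h1, h1, hh, hh, mul_neg, mul_one, mul_inv_rev, ww_neg, mul_comm u v]
    group
  rw [commutatorElement_def]
  have h3 : hh i j u * hh i k v * (hh i j u)⁻¹ * (hh i k v)⁻¹ =
      hh i j u * (hh i k v * hh i j u * (hh i k v)⁻¹)⁻¹ := by
    group
  rw [h3, h2, cc]
  group

private theorem exists_third (i j : J) : ∃ k : J, i ≠ k ∧ j ≠ k := by
  obtain ⟨k, hk⟩ := Infinite.exists_notMem_finset ({i, j} : Finset J)
  refine ⟨k, fun h => hk ?_, fun h => hk ?_⟩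
  · rw [h]; simp
  · rw [h]; simp

theorem cc_mul_left (i j : J) (hij : i ≠ j) (u u' v : Rˣ) :
    cc i j (u * u') v = cc i j u v * cc i j u' v := by
  obtain ⟨k, hik, hjk⟩ := exists_third i j
  have h1 := K2_central (cc_mem_K2 i j hij u' v) (hh i j u)
  have h2 := K2_central (cc_mem_K2 i j hij u' v) (cc i j u v)
  rw [cc_eq_comm i j k hij hik hjk u' v] at h1
  have h3 : ⁅hh i j u * hh i j u', hh i k v⁆ =
      hh i j u * ⁅hh i j u', hh i k v⁆ * (hh i j u)⁻¹ * ⁅hh i j u, hh i k v⁆ := by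
    simp only [commutatorElement_def]
    group
  rw [cc_eq_comm i j k hij hik hjk (u * u') v,
    comm_eq_of_phi_eq (phi_hh_mul i j hij u u').symm rfl, h3, ← h1, mul_inv_cancel_right,
    ← cc_eq_comm i j k hij hik hjk u' v, ← cc_eq_comm i j k hij hik hjk u v, h2]

theorem cc_mul_right (i j : J) (hij : i ≠ j) (u v v' : Rˣ) :
    cc i j u (v * v') = cc i j u v * cc i j u v' := by
  obtain ⟨k, hik, hjk⟩ := exists_third i j
  have h1 := K2_central (cc_mem_K2 i j hij u v') (hh i k v)
  rw [cc_eq_comm i j k hij hik hjk u v'] at h1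
  have h3 : ⁅hh i j u, hh i k v * hh i k v'⁆ =
      ⁅hh i j u, hh i k v⁆ * (hh i k v * ⁅hh i j u, hh i k v'⁆ * (hh i k v)⁻¹) := by
    simp only [commutatorElement_def]
    group
  rw [cc_eq_comm i j k hij hik hjk u (v * v'),
    comm_eq_of_phi_eq rfl (phi_hh_mul i k hik v v').symm, h3, ← h1, mul_inv_cancel_right,
    ← cc_eq_comm i j k hij hik hjk u v', ← cc_eq_comm i j k hij hik hjk u v]

omit [Infinite J] in
private theorem phi_ww_swap (p q : J) (hpq : p ≠ q) (v : J →₀ R) (k : J) :
    (phi (ww p q (1 : Rˣ)) v) k = (if k = q then -1 else 1) * v (Equiv.swap p q k) := by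
  rw [phi_ww_apply p q hpq]
  rcases eq_or_ne k p with rfl | hkp
  · rw [if_pos rfl, if_neg hpq, Equiv.swap_apply_left, Units.val_one]
  · rcases eq_or_ne k q with rfl | hkq
    · rw [if_neg hkp, if_pos rfl, if_pos rfl, Equiv.swap_apply_right, inv_one, Units.val_one]
      ring
    · rw [if_neg hkp, if_neg hkq, if_neg hkq, Equiv.swap_apply_of_ne_of_ne hkp hkq, one_mul]

omit [Infinite J] in
private theorem phi_conj_swap (p q : J) (hpq : p ≠ q) (i j : J) (hij : i ≠ j) (u : Rˣ) :
    phi (ww p q (1 : Rˣ) * hh i j u * (ww p q 1)⁻¹) =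
      phi (hh (Equiv.swap p q i) (Equiv.swap p q j) u) := by
  rw [map_mul, map_inv, mul_inv_eq_iff_eq_mul, map_mul]
  ext1 v
  ext k
  rw [LinearEquiv.mul_apply, LinearEquiv.mul_apply, phi_ww_swap p q hpq, phi_hh_diag i j hij,
    phi_hh_diag _ _ ((Equiv.swap p q).injective.ne hij), phi_ww_swap p q hpq]
  have h1 : dd i j u (Equiv.swap p q k) = dd (Equiv.swap p q i) (Equiv.swap p q j) u k := by
    unfold dd
    have e : ∀ m : J, Equiv.swap p q k = m ↔ k = Equiv.swap p q m := by
      intro m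
      constructor
      · intro h
        rw [← h, Equiv.swap_apply_self]
      · intro h
        rw [h, Equiv.swap_apply_self]
    simp only [e]
  rw [h1]
  ring

private theorem conj_comm_central {p q : J} {i j k : J} (hij : i ≠ j) (hik : i ≠ k) (hjk : j ≠ k)
    (u v : Rˣ) : ⁅hh i j u, hh i k v⁆ =
      ⁅ww p q (1 : Rˣ) * hh i j u * (ww p q 1)⁻¹, ww p q 1 * hh i k v * (ww p q 1)⁻¹⁆ := by
  have h1 := K2_central (cc_mem_K2 i j hij u v) (ww p q 1)
  rw [cc_eq_comm i j k hij hik hjk u v] at h1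
  have h2 : ⁅ww p q (1 : Rˣ) * hh i j u * (ww p q 1)⁻¹, ww p q 1 * hh i k v * (ww p q 1)⁻¹⁆ =
      ww p q 1 * ⁅hh i j u, hh i k v⁆ * (ww p q 1)⁻¹ := by
    simp only [commutatorElement_def]
    group
  rw [h2, ← h1, mul_inv_cancel_right]

private theorem cc_swap_aux (p q i j : J) (hij : i ≠ j) (u v : Rˣ) :
    cc i j u v = cc (Equiv.swap p q i) (Equiv.swap p q j) u v := by
  rcases eq_or_ne p q with rfl | hpq
  · rw [Equiv.swap_self]
    rfl
  obtain ⟨k, hik, hjk⟩ := exists_third i j
  have hi := (Equiv.swap p q).injective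
  rw [cc_eq_comm i j k hij hik hjk u v,
    conj_comm_central (p := p) (q := q) hij hik hjk u v,
    comm_eq_of_phi_eq (phi_conj_swap p q hpq i j hij u) (phi_conj_swap p q hpq i k hik v),
    ← cc_eq_comm _ _ _ (hi.ne hij) (hi.ne hik) (hi.ne hjk) u v]

/-- the symbol does not depend on the indices -/
theorem cc_indep (i j k l : J) (hij : i ≠ j) (hkl : k ≠ l) (u v : Rˣ) :
    cc i j u v = cc k l u v := by
  rw [cc_swap_aux i k i j hij u v, Equiv.swap_apply_left]
  have h1 : k ≠ Equiv.swap i k j := by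
    intro h
    apply hij
    have h2 := congrArg (Equiv.swap i k) h
    rw [Equiv.swap_apply_self, Equiv.swap_apply_right] at h2
    exact h2
  rw [cc_swap_aux (Equiv.swap i k j) l k _ h1 u v, Equiv.swap_apply_left,
    Equiv.swap_apply_of_ne_of_ne h1 hkl]

theorem cc_symm (i j : J) (hij : i ≠ j) (u v : Rˣ) : cc i j v u = (cc i j u v)⁻¹ := by
  obtain ⟨k, hik, hjk⟩ := exists_third i j
  rw [cc_eq_comm i j k hij hik hjk v u, cc_eq_comm i j k hij hik hjk u v,
    conj_comm_central (p := j) (q := k) hij hik hjk v u,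
    comm_eq_of_phi_eq (phi_conj_swap j k hjk i j hij v) (phi_conj_swap j k hjk i k hik u),
    Equiv.swap_apply_left, Equiv.swap_apply_right, Equiv.swap_apply_of_ne_of_ne hij hik,
    commutatorElement_inv]

/-- rank two identity, `t = 1 + a b` -/
theorem rank_two (i j : J) (hij : i ≠ j) (a t : Rˣ) (b : R) (ht : (t : R) = 1 + (a : R) * b) :
    x i j (a : R) * x j i b = x j i (b * ((t⁻¹ : Rˣ) : R)) *
      (ww i j a * ww i j (-(a * t⁻¹))) * x i j ((a : R) * ((t⁻¹ : Rˣ) : R)) := by
  have ha : (a : R) * ((a⁻¹ : Rˣ) : R) = 1 := a.mul_inv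
  have htt : (t : R) * ((t⁻¹ : Rˣ) : R) = 1 := t.mul_inv
  have hc : ((a * t⁻¹ : Rˣ) : R) = (a : R) * ((t⁻¹ : Rˣ) : R) := Units.val_mul _ _
  have hci : (((a * t⁻¹)⁻¹ : Rˣ) : R) = ((a⁻¹ : Rˣ) : R) + b := by
    rw [mul_inv, inv_inv, Units.val_mul, ht]
    linear_combination b * ha
  -- the element `ww i j (-c)`
  have h1 : ww i j (-(a * t⁻¹)) = x i j (-((a : R) * ((t⁻¹ : Rˣ) : R))) *
      x j i (((a⁻¹ : Rˣ) : R) + b) * x i j (-((a : R) * ((t⁻¹ : Rˣ) : R))) := by
    rw [ww, inv_neg, Units.val_neg, Units.val_neg, neg_neg, hc, hci]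
  have h2 := ww_conj_ij i j hij a ((a : R) * ((t⁻¹ : Rˣ) : R) - (a : R))
  have h3 : -(((a⁻¹ : Rˣ) : R) * ((a : R) * ((t⁻¹ : Rˣ) : R) - (a : R)) * ((a⁻¹ : Rˣ) : R)) =
      b * ((t⁻¹ : Rˣ) : R) := by
    linear_combination (((a⁻¹ : Rˣ) : R) - ((a⁻¹ : Rˣ) : R) * ((t⁻¹ : Rˣ) : R) +
      b * ((t⁻¹ : Rˣ) : R)) * ha + ((a⁻¹ : Rˣ) : R) * (((t⁻¹ : Rˣ) : R) * ht - htt)
  rw [h3] at h2
  rw [← h2, h1]
  have h4 : x i j ((a : R) * ((t⁻¹ : Rˣ) : R) - (a : R)) =
      (x i j (a : R))⁻¹ * x i j ((a : R) * ((t⁻¹ : Rˣ) : R)) := by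
    rw [← x_neg, ← x_add]
    congr 1
    ring
  have h5 : x j i (((a⁻¹ : Rˣ) : R) + b) = (x j i (-((a⁻¹ : Rˣ) : R)))⁻¹ * x j i b := by
    rw [← x_neg, ← x_add, neg_neg]
  rw [h4, h5, x_neg i j ((a : R) * ((t⁻¹ : Rˣ) : R))]
  have h6 : ww i j a = x i j (a : R) * x j i (-((a⁻¹ : Rˣ) : R)) * x i j (a : R) := rfl
  rw [h6]
  group

end MSK
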