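import Pool.Agent.MSK.Del
import Pool.Agent.MSK.Wh

/-! MSK / Dev: the value of `del` on the symbol of a unit and the variable.

`i, j, l` distinct (`J` infinite), `ε` a unit of `k⟦X⟧`, `t = single 1 1`. `cc i j ε t = ⁅hh i j ε, hh i l t⁆` (`cc_eq_comm`).
Approximations: `A v = v` with the coordinate `i` multiplied by `ε` and the coordinate `j` by `ε⁻¹` (exact: `A = phi` of an element of
`St J k⟦X⟧`: `A = phi (hh i j ε)`, restricted to `k`; the approximation defect is `0`). `B`: on the coordinates `(i, l)`:
`B (f, g) = (t f + g₀, (g - g₀) / t)`, `g₀` the constant coefficient, inverse `(f, g) ↦ ((f - f₀) / t, t g + f₀)`, the identity on the other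
coordinates. The defect `phi (hh i l t) ι - ι B`: `(f, g) ↦ (t f, t⁻¹ g) - (t f + g₀, (g - g₀) / t) = (- g₀, g₀ / t)`: rank one. `del_comm`: the value is
`dt ⁅A, B⁆`, and `A B A⁻¹ B⁻¹ (f, g) = (f + (ε - 1) f₀, g)` on the coordinates `(i, l)` (identity on the others): from
`B⁻¹ (f, g) = ((f - f₀)/t, t g + f₀)`, `A⁻¹`: `(ε⁻¹ (f - f₀)/t, t g + f₀)`, `B`: `(ε⁻¹ (f - f₀) + f₀, g)`, `A`: `(f - f₀ + ε f₀, g)`; on the coordinate `j`
`A` and `A⁻¹` cancel. So `v ↦ v + (v i)₀ • single i (ε - 1)`: `dt_of_rank_one`: `1 + (ε - 1)₀ = ε₀`. -/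

set_option autoImplicit false
set_option linter.unusedVariables false

namespace MSK

variable {J : Type*} [DecidableEq J] [Infinite J] {k : Type*} [Field k]

/-- the variable as a unit of the Laurent series -/
noncomputable def tt (k : Type*) [Field k] : (LaurentSeries k)ˣ :=
  Units.mk0 (HahnSeries.single 1 (1 : k)) (HahnSeries.single_ne_zero one_ne_zero)

/-- units of the power series as units of the Laurent series -/
noncomputable def uO {k : Type*} [Field k] (u : (PowerSeries k)ˣ) : (LaurentSeries k)ˣ :=
  Units.map (iO k).toMonoidHom u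

section aux

open scoped commutatorElement

variable {J : Type*} [DecidableEq J] {k : Type*} [Field k]

/-- division by the variable -/
private noncomputable def sh (k : Type*) [Field k] : PowerSeries k →ₗ[k] PowerSeries k where
  toFun f := PowerSeries.mk fun n => PowerSeries.coeff (n + 1) f
  map_add' f g := by
    ext n
    simp
  map_smul' a f := by
    ext n
    simp

private theorem coeff_sh (f : PowerSeries k) (n : ℕ) :
    PowerSeries.coeff n (sh k f) = PowerSeries.coeff (n + 1) f := by
  simp [sh]

/-- multiplication by the variable -/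
private noncomputable def mX (k : Type*) [Field k] : PowerSeries k →ₗ[k] PowerSeries k where
  toFun f := PowerSeries.X * f
  map_add' f g := mul_add _ _ _
  map_smul' a f := by
    rw [RingHom.id_apply, mul_smul_comm]

private theorem mX_apply (f : PowerSeries k) : mX k f = PowerSeries.X * f := rfl

/-- the constant part -/
private noncomputable def cp (k : Type*) [Field k] : PowerSeries k →ₗ[k] PowerSeries k where
  toFun f := PowerSeries.C (PowerSeries.constantCoeff f)
  map_add' f g := by
    rw [map_add, map_add]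
  map_smul' a f := by
    rw [RingHom.id_apply, PowerSeries.smul_eq_C_mul, PowerSeries.smul_eq_C_mul, map_mul, map_mul,
      PowerSeries.constantCoeff_C]

private theorem cp_apply (f : PowerSeries k) : cp k f = PowerSeries.C (PowerSeries.constantCoeff f) := rfl

private theorem mX_sh (f : PowerSeries k) : mX k (sh k f) + cp k f = f := by
  exact (PowerSeries.eq_X_mul_shift_add_const f).symm

private theorem sh_mX (f g : PowerSeries k) : sh k (mX k f + cp k g) = f := by
  ext n
  rw [coeff_sh, mX_apply, cp_apply, map_add, PowerSeries.coeff_succ_X_mul, PowerSeries.coeff_C,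
    if_neg n.succ_ne_zero, add_zero]

private theorem cp_mX (f g : PowerSeries k) : cp k (mX k f + cp k g) = cp k g := by
  rw [cp_apply, mX_apply, cp_apply, map_add, map_mul, PowerSeries.constantCoeff_X, zero_mul, zero_add,
    PowerSeries.constantCoeff_C]

/-- two by two matrices of linear maps on the coordinates `i`, `l` -/
private noncomputable def mm (i l : J) (α β γ δ : PowerSeries k →ₗ[k] PowerSeries k) :
    (J →₀ PowerSeries k) →ₗ[k] (J →₀ PowerSeries k) :=
  LinearMap.id - Finsupp.lsingle i ∘ₗ Finsupp.lapply i - Finsupp.lsingle l ∘ₗ Finsupp.lapply l +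
    Finsupp.lsingle i ∘ₗ (α ∘ₗ Finsupp.lapply i + β ∘ₗ Finsupp.lapply l) +
    Finsupp.lsingle l ∘ₗ (γ ∘ₗ Finsupp.lapply i + δ ∘ₗ Finsupp.lapply l)

private theorem mm_apply (i l : J) (hil : i ≠ l) (α β γ δ : PowerSeries k →ₗ[k] PowerSeries k)
    (v : J →₀ PowerSeries k) (m : J) :
    mm i l α β γ δ v m = if m = i then α (v i) + β (v l) else
      if m = l then γ (v i) + δ (v l) else v m := by
  simp only [mm, LinearMap.add_apply, LinearMap.sub_apply, LinearMap.id_apply, LinearMap.comp_apply,
    Finsupp.lapply_apply, Finsupp.lsingle_apply, Finsupp.add_apply, Finsupp.sub_apply,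
    Finsupp.single_apply]
  rcases eq_or_ne m i with rfl | hmi
  · simp only [if_true, if_neg hil.symm]
    abel
  · rcases eq_or_ne m l with rfl | hml
    · simp only [if_true, if_neg hmi, if_neg hmi.symm]
      abel
    · simp only [if_neg hmi, if_neg hml, if_neg hmi.symm, if_neg hml.symm]
      abel

/-- the operator `B` -/
private noncomputable def BB (i l : J) (hil : i ≠ l) :
    (J →₀ PowerSeries k) ≃ₗ[k] (J →₀ PowerSeries k) :=
  LinearEquiv.ofLinearMap (mm i l (mX k) (cp k) 0 (sh k)) (mm i l (sh k) 0 (cp k) (mX k))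
    (by
      refine LinearMap.ext fun v => ?_
      ext1 m
      rw [LinearMap.comp_apply, mm_apply i l hil, mm_apply i l hil, if_pos rfl, mm_apply i l hil,
        if_neg hil.symm, if_pos rfl, LinearMap.id_apply]
      rcases eq_or_ne m i with rfl | hmi
      · rw [if_pos rfl, LinearMap.zero_apply, add_zero, add_comm (cp k (v m)), cp_mX, mX_sh]
      · rw [if_neg hmi]
        rcases eq_or_ne m l with rfl | hml
        · rw [if_pos rfl, LinearMap.zero_apply, zero_add, add_comm (cp k (v i)), sh_mX]
        · rw [if_neg hml, mm_apply i l hil, if_neg hmi, if_neg hml])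
    (by
      refine LinearMap.ext fun v => ?_
      ext1 m
      rw [LinearMap.comp_apply, mm_apply i l hil, mm_apply i l hil, if_pos rfl, mm_apply i l hil,
        if_neg hil.symm, if_pos rfl, LinearMap.id_apply]
      rcases eq_or_ne m i with rfl | hmi
      · rw [if_pos rfl, LinearMap.zero_apply, add_zero, sh_mX]
      · rw [if_neg hmi]
        rcases eq_or_ne m l with rfl | hml
        · rw [if_pos rfl, cp_mX, LinearMap.zero_apply, zero_add, add_comm, mX_sh]
        · rw [if_neg hml, mm_apply i l hil, if_neg hmi, if_neg hml])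

private theorem BB_apply (i l : J) (hil : i ≠ l) (v : J →₀ PowerSeries k) (m : J) :
    BB i l hil v m = if m = i then PowerSeries.X * v i + PowerSeries.C (PowerSeries.constantCoeff (v l)) else
      if m = l then sh k (v l) else v m := by
  change mm i l (mX k) (cp k) 0 (sh k) v m = _
  rw [mm_apply i l hil, LinearMap.zero_apply, zero_add]
  rfl

private theorem hh_apply {R : Type*} [CommRing R] (i j : J) (hij : i ≠ j) (u : Rˣ) (v : J →₀ R) (m : J) :
    (phi (hh i j u) v) m = if m = i then (u : R) * v i else
      if m = j then ((u⁻¹ : Rˣ) : R) * v j else v m := by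
  rw [phi_hh i j hij]
  simp only [Finsupp.add_apply, Finsupp.sub_apply, Finsupp.single_apply]
  rcases eq_or_ne m i with rfl | hmi
  · simp only [if_true, if_neg hij.symm]
    ring
  · rcases eq_or_ne m j with rfl | hmj
    · simp only [if_true, if_neg hmi, if_neg hmi.symm]
      ring
    · simp only [if_neg hmi, if_neg hmj, if_neg hmi.symm, if_neg hmj.symm]
      ring

/-- the operator `A` -/
private noncomputable def AA (i j : J) (ε : (PowerSeries k)ˣ) :
    (J →₀ PowerSeries k) ≃ₗ[k] (J →₀ PowerSeries k) :=
  (phi (hh i j ε)).restrictScalars k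

private theorem AA_apply (i j : J) (hij : i ≠ j) (ε : (PowerSeries k)ˣ) (v : J →₀ PowerSeries k) (m : J) :
    AA i j ε v m = if m = i then (ε : PowerSeries k) * v i else
      if m = j then ((ε⁻¹ : (PowerSeries k)ˣ) : PowerSeries k) * v j else v m :=
  hh_apply i j hij ε v m

private theorem Ap_AA (i j : J) (ε : (PowerSeries k)ˣ) : Ap (hh i j (uO ε)) (AA i j ε) := by
  have h1 : map (iO k) (hh i j ε : St J (PowerSeries k)) = hh i j (uO ε) := map_hh _ i j ε
  have h2 : phik (hh i j (uO ε)) ∘ₗ iOf J k - iOf J k ∘ₗ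
      (AA i j ε : (J →₀ PowerSeries k) →ₗ[k] (J →₀ PowerSeries k)) = 0 := by
    refine LinearMap.ext fun v => ?_
    have h3 := phi_map (iO k) (hh i j ε) v
    rw [h1] at h3
    rw [LinearMap.sub_apply, LinearMap.zero_apply]
    exact sub_eq_zero_of_eq h3
  unfold Ap
  rw [h2]
  exact FR.zero

private theorem iO_X : iO k PowerSeries.X = HahnSeries.single 1 (1 : k) :=
  HahnSeries.ofPowerSeries_X

private theorem iO_C (a : k) : iO k (PowerSeries.C a) = HahnSeries.C a :=
  HahnSeries.ofPowerSeries_C a

private theorem tt_inv : (((tt k)⁻¹ : (LaurentSeries k)ˣ) : LaurentSeries k) = HahnSeries.single (-1) (1 : k) := by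
  rw [Units.val_inv_eq_inv_val]
  change (HahnSeries.single 1 (1 : k))⁻¹ = _
  rw [HahnSeries.inv_single, inv_one]

private theorem tinv_mul (g : PowerSeries k) :
    HahnSeries.single (-1) (1 : k) * iO k g = iO k (sh k g) +
      PowerSeries.constantCoeff g • HahnSeries.single (-1) (1 : k) := by
  conv_lhs => rw [← mX_sh g, map_add, mX_apply, cp_apply, map_mul, iO_X, iO_C, mul_add, ← mul_assoc,
    HahnSeries.single_mul_single, neg_add_cancel, one_mul, mul_comm _ (HahnSeries.C _),
    HahnSeries.C_mul_eq_smul]
  rw [HahnSeries.single_zero_one, one_mul]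

private theorem Ap_BB (i l : J) (hil : i ≠ l) : Ap (hh i l (tt k)) (BB i l hil) := by
  unfold Ap
  set u : J →₀ LaurentSeries k := Finsupp.single l (HahnSeries.single (-1) (1 : k)) -
    Finsupp.single i (HahnSeries.single 0 (1 : k)) with hu
  refine FR.of_le (Submodule.span k {u}) fun v => ?_
  rw [Submodule.mem_span_singleton]
  refine ⟨PowerSeries.constantCoeff (v l), ?_⟩
  ext1 m
  rw [LinearMap.sub_apply, LinearMap.comp_apply, LinearMap.comp_apply, phik_apply, Finsupp.sub_apply,
    hh_apply i l hil, iOf_apply, iOf_apply, iOf_apply, iOf_apply]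
  change _ = _ - iO k (BB i l hil v m)
  rw [BB_apply i l hil, Finsupp.smul_apply, hu, Finsupp.sub_apply, Finsupp.single_apply,
    Finsupp.single_apply, tt_inv]
  rcases eq_or_ne m i with rfl | hmi
  · simp only [if_true, if_neg hil.symm]
    change _ = HahnSeries.single 1 (1 : k) * _ - _
    rw [map_add, map_mul, iO_X, iO_C, zero_sub, smul_neg, ← HahnSeries.C_mul_eq_smul,
      HahnSeries.single_zero_one, mul_one]
    abel
  · rcases eq_or_ne m l with rfl | hml
    · simp only [if_true, if_neg hmi, if_neg hmi.symm]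
      rw [tinv_mul, sub_zero, add_sub_cancel_left]
    · simp only [if_neg hmi, if_neg hml, if_neg hmi.symm, if_neg hml.symm]
      rw [sub_self, sub_self, smul_zero]

private theorem comm_apply (i j l : J) (hij : i ≠ j) (hil : i ≠ l) (hjl : j ≠ l) (ε : (PowerSeries k)ˣ)
    (w : J →₀ PowerSeries k) :
    AA i j ε (BB i l hil w) = BB i l hil (AA i j ε w) +
      PowerSeries.constantCoeff (BB i l hil (AA i j ε w) i) • Finsupp.single i ((ε : PowerSeries k) - 1) := by
  ext1 m
  rw [Finsupp.add_apply, Finsupp.smul_apply, Finsupp.single_apply, AA_apply i j hij, BB_apply i l hil,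
    BB_apply i l hil, BB_apply i l hil, BB_apply i l hil, BB_apply i l hil, if_pos rfl, if_pos rfl,
    if_neg hij.symm, if_neg hjl, AA_apply i j hij, if_pos rfl, AA_apply i j hij, if_neg hil.symm,
    if_neg hjl.symm, AA_apply i j hij]
  have hc : PowerSeries.constantCoeff (PowerSeries.X * ((ε : PowerSeries k) * w i) +
      PowerSeries.C (PowerSeries.constantCoeff (w l))) = PowerSeries.constantCoeff (w l) := by
    rw [map_add, map_mul, PowerSeries.constantCoeff_X, zero_mul, zero_add, PowerSeries.constantCoeff_C]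
  rw [hc]
  rcases eq_or_ne m i with rfl | hmi
  · simp only [if_true]
    rw [PowerSeries.smul_eq_C_mul]
    ring
  · rcases eq_or_ne m j with rfl | hmj
    · simp only [if_true, if_neg hmi, if_neg hmi.symm, if_neg hjl, smul_zero, add_zero]
    · rcases eq_or_ne m l with rfl | hml
      · simp only [if_true, if_neg hmi, if_neg hmi.symm, if_neg hmj, smul_zero, add_zero]
      · simp only [if_neg hmi, if_neg hmi.symm, if_neg hmj, if_neg hml, smul_zero, add_zero]

private theorem comm_aux {V : Type*} [AddCommGroup V] [Module k V] (A B : V ≃ₗ[k] V) (w : V) :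
    (⁅A, B⁆ : V ≃ₗ[k] V) (B (A w)) = A (B w) := by
  have h4 : ⁅A, B⁆ * (B * A) = A * B := by
    rw [commutatorElement_def]
    group
  have h6 := LinearEquiv.congr_fun h4 w
  rwa [LinearEquiv.mul_apply, LinearEquiv.mul_apply, LinearEquiv.mul_apply] at h6

end aux

open scoped commutatorElement

theorem del_cc_unit_t (i j : J) (hij : i ≠ j) (ε : (PowerSeries k)ˣ) :
    (del (cc i j (uO ε) (tt k)) : k) = PowerSeries.constantCoeff (ε : PowerSeries k) := by
  obtain ⟨l, hl⟩ := Infinite.exists_notMem_finset ({i, j} : Finset J)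
  have hil : i ≠ l := fun h => hl (by rw [h]; simp)
  have hjl : j ≠ l := fun h => hl (by rw [h]; simp)
  have h1 := cc_eq_comm i j l hij hil hjl (uO ε) (tt k)
  have h2 := cc_mem_K2 i j hij (uO ε) (tt k)
  rw [h1] at h2 ⊢
  rw [del_comm h2 (Ap_AA i j ε) (Ap_BB i l hil)]
  have h3 : ∀ v : J →₀ PowerSeries k, (⁅AA i j ε, BB i l hil⁆ : (J →₀ PowerSeries k) ≃ₗ[k] (J →₀ PowerSeries k)) v =
      v + ((PowerSeries.coeff 0) ∘ₗ Finsupp.lapply i : (J →₀ PowerSeries k) →ₗ[k] k) v •
        Finsupp.single i ((ε : PowerSeries k) - 1) := by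
    intro v
    obtain ⟨w, rfl⟩ : ∃ w, v = BB i l hil (AA i j ε w) :=
      ⟨(AA i j ε).symm ((BB i l hil).symm v), by
        rw [LinearEquiv.apply_symm_apply, LinearEquiv.apply_symm_apply]⟩
    have h5 := comm_aux (AA i j ε) (BB i l hil) w
    rw [h5, comm_apply i j l hij hil hjl ε w, LinearMap.comp_apply, Finsupp.lapply_apply,
      PowerSeries.coeff_zero_eq_constantCoeff_apply]
  rw [dt_of_rank_one _ _ _ h3, LinearMap.comp_apply, Finsupp.lapply_apply, Finsupp.single_eq_same,
    PowerSeries.coeff_zero_eq_constantCoeff_apply, map_sub, map_one]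
  ring

end MSK
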