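import Pool.Agent.MSK.Del
import Pool.Agent.MSK.Cen

/-! MSK / Df: `df a a' = del (a a'⁻¹)` for elements with the same action.

PROOFS. `phi a = phi a'` means `a * a'⁻¹ ∈ K2`, which is central (`K2_central`). `df_mul`: `(a c) (a' c')⁻¹ = a (c c'⁻¹) a'⁻¹ = (c c'⁻¹) (a a'⁻¹)`;
`del_mul`, `del_inv`, `del_one`. `df_conj`: `c (a a'⁻¹) c⁻¹ = a a'⁻¹`. `df_emb`: `del_emb`. -/

set_option autoImplicit false
set_option linter.unusedVariables false

namespace MSK

variable {J : Type*} [DecidableEq J] [Infinite J] {k : Type*} [Field k]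

/-- the difference of two lifts of the same automorphism -/
noncomputable def df (a a' : St J (LaurentSeries k)) : kˣ := del (a * a'⁻¹)

theorem mul_inv_mem_K2 {R : Type*} [CommRing R] {a a' : St J R} (h : phi a = phi a') :
    a * a'⁻¹ ∈ K2 J R := by
  rw [mem_K2, map_mul, map_inv, h, mul_inv_cancel]

theorem df_self (a : St J (LaurentSeries k)) : df a a = 1 := by
  unfold df
  rw [mul_inv_cancel, del_one]

theorem df_trans {a a' a'' : St J (LaurentSeries k)} (h : phi a = phi a') (h' : phi a' = phi a'') :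
    df a a'' = df a a' * df a' a'' := by
  unfold df
  rw [← del_mul (mul_inv_mem_K2 h) (mul_inv_mem_K2 h')]
  congr 1
  group

theorem df_symm {a a' : St J (LaurentSeries k)} (h : phi a = phi a') : df a' a = (df a a')⁻¹ := by
  unfold df
  rw [← del_inv (mul_inv_mem_K2 h)]
  congr 1
  group

theorem df_mul {a a' c c' : St J (LaurentSeries k)} (h : phi a = phi a') (h' : phi c = phi c') :
    df (a * c) (a' * c') = df a a' * df c c' := by
  unfold df
  rw [← del_mul (mul_inv_mem_K2 h) (mul_inv_mem_K2 h')]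
  congr 1
  have h1 := K2_central (mul_inv_mem_K2 h') a'⁻¹
  calc a * c * (a' * c')⁻¹ = a * (c * c'⁻¹ * a'⁻¹) := by group
    _ = a * (a'⁻¹ * (c * c'⁻¹)) := by rw [h1]
    _ = a * a'⁻¹ * (c * c'⁻¹) := by group

theorem df_inv {a a' : St J (LaurentSeries k)} (h : phi a = phi a') :
    df a⁻¹ a'⁻¹ = (df a a')⁻¹ := by
  unfold df
  rw [← del_inv (mul_inv_mem_K2 h)]
  congr 1
  have h1 := K2_central (Subgroup.inv_mem _ (mul_inv_mem_K2 h)) a'
  calc a⁻¹ * a'⁻¹⁻¹ = a'⁻¹ * ((a * a'⁻¹)⁻¹ * a') := by group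
    _ = a'⁻¹ * (a' * (a * a'⁻¹)⁻¹) := by rw [h1]
    _ = (a * a'⁻¹)⁻¹ := by group

theorem df_conj {a a' : St J (LaurentSeries k)} (h : phi a = phi a')
    (c : St J (LaurentSeries k)) : df (c * a * c⁻¹) (c * a' * c⁻¹) = df a a' := by
  unfold df
  congr 1
  have h1 := K2_central (mul_inv_mem_K2 h) c⁻¹
  calc c * a * c⁻¹ * (c * a' * c⁻¹)⁻¹ = c * (a * a'⁻¹ * c⁻¹) := by group
    _ = c * (c⁻¹ * (a * a'⁻¹)) := by rw [h1]
    _ = a * a'⁻¹ := by group

/-- multiplying both by central elements -/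
theorem df_mul_K2 {a a' c : St J (LaurentSeries k)} (h : phi a = phi a')
    (hc : c ∈ K2 J (LaurentSeries k)) : df (a * c) a' = df a a' * del c := by
  unfold df
  rw [← del_mul (mul_inv_mem_K2 h) hc]
  congr 1
  have h1 := K2_central hc a'⁻¹
  calc a * c * a'⁻¹ = a * (c * a'⁻¹) := by group
    _ = a * (a'⁻¹ * c) := by rw [h1]
    _ = a * a'⁻¹ * c := by group

theorem df_mul_K2' {a a' c : St J (LaurentSeries k)} (h : phi a = phi a')
    (hc : c ∈ K2 J (LaurentSeries k)) : df a (a' * c) = df a a' * (del c)⁻¹ := by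
  unfold df
  rw [← del_inv hc, ← del_mul (mul_inv_mem_K2 h) (Subgroup.inv_mem _ hc)]
  congr 1
  have h1 := K2_central (Subgroup.inv_mem _ hc) a'⁻¹
  calc a * (a' * c)⁻¹ = a * (c⁻¹ * a'⁻¹) := by group
    _ = a * (a'⁻¹ * c⁻¹) := by rw [h1]
    _ = a * a'⁻¹ * c⁻¹ := by group

/-- difference of two lifts over the power series -/
theorem df_iO {a a' : St J (PowerSeries k)} (h : phi a = phi a') :
    df (map (iO k) a) (map (iO k) a') = 1 := by
  unfold df
  rw [← map_inv, ← map_mul]
  exact del_iO (mul_inv_mem_K2 h)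

/-- the same, if only the actions over the Laurent series are known to be equal -/
theorem df_iO' {a a' : St J (PowerSeries k)}
    (h : phi (map (iO k) a) = phi (map (iO k) a')) :
    df (map (iO k) a) (map (iO k) a') = 1 := by
  have h1 := mul_inv_mem_K2 h
  rw [← map_inv, ← map_mul] at h1
  unfold df
  rw [← map_inv, ← map_mul]
  exact del_iO' h1

end MSK
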