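import Pool.Agent.MSK.Defs

/-! MSK / Dot: the pairing `dot w v = ∑ w_j v_j` and the two actions.

PROOF. `dot` is bilinear (`Finsupp.sum_add_index'`, ...). `dot_psi_phi`: by `induction_left` it suffices that
`dot (tv j i (-a) w) (tv i j a v) = dot w v` (`i ≠ j`): expand, the terms `w_i a v_j` cancel. `phi_eq_one_iff`:
if `phi s = 1` then `dot (psi s w) v = dot (psi s w) (phi s v) = dot w v` for all `v` (take `v = single j 1`), so
`psi s w = w`; conversely the same. `phi_map`, `phi_emb` by `induction_left` on generators. -/

set_option autoImplicit false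
set_option linter.unusedVariables false

namespace MSK

open scoped commutatorElement

variable {J : Type*} {R : Type*} [CommRing R] [DecidableEq J]

theorem dot_add_left (w w' v : J →₀ R) : dot (w + w') v = dot w v + dot w' v :=
  Finsupp.sum_add_index' (fun j => zero_mul _) (fun j b b' => add_mul _ _ _)

theorem dot_add_right (w v v' : J →₀ R) : dot w (v + v') = dot w v + dot w v' := by
  unfold dot
  rw [← Finsupp.sum_add]
  refine Finsupp.sum_congr fun j _ => ?_
  rw [Finsupp.add_apply, mul_add]

theorem dot_smul_left (a : R) (w v : J →₀ R) : dot (a • w) v = a * dot w v := by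
  unfold dot
  rw [Finsupp.sum_smul_index (fun j => zero_mul _), Finsupp.mul_sum]
  refine Finsupp.sum_congr fun j _ => ?_
  rw [mul_assoc]

theorem dot_smul_right (a : R) (w v : J →₀ R) : dot w (a • v) = a * dot w v := by
  unfold dot
  rw [Finsupp.mul_sum]
  refine Finsupp.sum_congr fun j _ => ?_
  rw [Finsupp.smul_apply, smul_eq_mul]
  ring

theorem dot_single_left (j : J) (b : R) (v : J →₀ R) : dot (Finsupp.single j b) v = b * v j :=
  Finsupp.sum_single_index (zero_mul _)

theorem dot_zero_left (v : J →₀ R) : dot 0 v = 0 := Finsupp.sum_zero_index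

theorem dot_zero_right (w : J →₀ R) : dot w 0 = 0 := by
  unfold dot
  refine Finset.sum_eq_zero fun j _ => ?_
  exact mul_zero _

theorem dot_single_right (w : J →₀ R) (j : J) (b : R) : dot w (Finsupp.single j b) = w j * b := by
  induction w using Finsupp.induction_linear with
  | zero => rw [dot_zero_left, Finsupp.zero_apply, zero_mul]
  | add w w' h h' => rw [dot_add_left, h, h', Finsupp.add_apply, add_mul]
  | single i c =>
    rw [dot_single_left, Finsupp.single_apply, Finsupp.single_apply]
    by_cases h : i = j
    · rw [if_pos h, if_pos h.symm]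
    · rw [if_neg h, if_neg (fun h' => h h'.symm), mul_zero, zero_mul]

theorem dot_comm (w v : J →₀ R) : dot w v = dot v w := by
  induction w using Finsupp.induction_linear with
  | zero => rw [dot_zero_left, dot_zero_right]
  | add w w' h h' => rw [dot_add_left, dot_add_right, h, h']
  | single i c => rw [dot_single_left, dot_single_right, mul_comm]

/-- invariance of the pairing -/
theorem dot_psi_phi (s : St J R) (w v : J →₀ R) : dot (psi s w) (phi s v) = dot w v := by
  induction s using induction_left with
  | h1 => rw [map_one, map_one]; rfl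
  | hx i j a s hs =>
    rw [map_mul, map_mul, phi_x, psi_x, LinearEquiv.mul_apply, LinearEquiv.mul_apply]
    by_cases h : i = j
    · subst h
      rw [tv_self, tv_self]
      exact hs
    · rw [tv_apply i j h, tv_apply j i (fun h' => h h'.symm), dot_add_left, dot_add_right,
        dot_add_right, dot_single_right, dot_single_left, dot_single_left, hs,
        Finsupp.single_apply, if_neg h]
      ring

/-- coordinates by the pairing -/
theorem ext_dot {w w' : J →₀ R} (h : ∀ v, dot w v = dot w' v) : w = w' := by
  ext j
  have := h (Finsupp.single j 1)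
  rwa [dot_single_right, dot_single_right, mul_one, mul_one] at this

theorem phi_eq_one_iff (s : St J R) : phi s = 1 ↔ psi s = 1 := by
  constructor
  · intro h
    ext1 w
    refine ext_dot fun v => ?_
    have h1 := dot_psi_phi s w v
    rw [h] at h1
    exact h1
  · intro h
    ext1 v
    refine ext_dot fun w => ?_
    have h1 := dot_psi_phi s w v
    rw [h] at h1
    rw [dot_comm, dot_comm _ w]
    exact h1

/-- elements of `S I` act only on the coordinates in `I` -/
theorem phi_apply_of_notMem {I : Set J} {s : St J R} (hs : s ∈ (S I : Subgroup (St J R)))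
    {n : J} (hn : n ∉ I) (v : J →₀ R) : (phi s v) n = v n := by
  refine S_induction (p := fun s => (phi s v) n = v n) ?_ ?_ hs
  · rw [map_one]
    rfl
  · intro i hi j hj a s _ h
    rw [map_mul, phi_x, LinearEquiv.mul_apply]
    by_cases hij : i = j
    · subst hij
      rw [tv_self]
      exact h
    · have hin : i ≠ n := by
        rintro rfl
        exact hn hi
      rw [tv_apply i j hij, Finsupp.add_apply, Finsupp.single_apply, if_neg hin, add_zero, h]

theorem phi_single_of_notMem {I : Set J} {s : St J R} (hs : s ∈ (S I : Subgroup (St J R)))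
    {n : J} (hn : n ∉ I) (a : R) : phi s (Finsupp.single n a) = Finsupp.single n a := by
  refine S_induction (p := fun s => phi s (Finsupp.single n a) = Finsupp.single n a) ?_ ?_ hs
  · rw [map_one]
    rfl
  · intro i hi j hj b s _ h
    rw [map_mul, phi_x, LinearEquiv.mul_apply, h]
    by_cases hij : i = j
    · subst hij
      rw [tv_self]
      rfl
    · have hjn : n ≠ j := by
        rintro rfl
        exact hn hj
      rw [tv_apply i j hij, Finsupp.single_apply, if_neg hjn, mul_zero, Finsupp.single_zero,
        add_zero]

theorem psi_apply_of_notMem {I : Set J} {s : St J R} (hs : s ∈ (S I : Subgroup (St J R)))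
    {n : J} (hn : n ∉ I) (v : J →₀ R) : (psi s v) n = v n := by
  have h := dot_psi_phi s v (Finsupp.single n 1)
  rwa [phi_single_of_notMem hs hn, dot_single_right, dot_single_right, mul_one, mul_one] at h

theorem psi_single_of_notMem {I : Set J} {s : St J R} (hs : s ∈ (S I : Subgroup (St J R)))
    {n : J} (hn : n ∉ I) (a : R) : psi s (Finsupp.single n a) = Finsupp.single n a := by
  refine S_induction (p := fun s => psi s (Finsupp.single n a) = Finsupp.single n a) ?_ ?_ hs
  · rw [map_one]
    rfl
  · intro i hi j hj b s _ h
    rw [map_mul, psi_x, LinearEquiv.mul_apply, h]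
    by_cases hij : i = j
    · subst hij
      rw [tv_self]
      rfl
    · have hin : n ≠ i := by
        rintro rfl
        exact hn hi
      rw [tv_apply j i (fun h' => hij h'.symm), Finsupp.single_apply, if_neg hin, mul_zero,
        Finsupp.single_zero, add_zero]

/-- naturality of the action in the ring -/
theorem phi_map {R' : Type*} [CommRing R'] (f : R →+* R') (s : St J R) (v : J →₀ R) :
    phi (map f s) (v.mapRange f (map_zero f)) = (phi s v).mapRange f (map_zero f) := by
  induction s using induction_left with
  | h1 => rw [map_one, map_one, map_one]; rfl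
  | hx i j a s hs =>
    rw [map_mul, map_mul, map_mul, map_x, phi_x, phi_x, LinearEquiv.mul_apply,
      LinearEquiv.mul_apply, hs]
    by_cases hij : i = j
    · subst hij
      rw [tv_self, tv_self]
      rfl
    · rw [tv_apply i j hij, tv_apply i j hij, Finsupp.mapRange_add (map_add f),
        Finsupp.mapRange_single, Finsupp.mapRange_apply, map_mul]

/-- a linear automorphism which fixes the `single n 1` -/
theorem eq_one_of_single {F : (J →₀ R) ≃ₗ[R] (J →₀ R)}
    (h : ∀ n a, F (Finsupp.single n a) = Finsupp.single n a) : F = 1 := by
  apply LinearEquiv.toLinearMap_injective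
  exact Finsupp.lhom_ext fun n a => h n a

theorem map_mem_K2 {R' : Type*} [CommRing R'] (f : R →+* R') {s : St J R} (hs : s ∈ K2 J R) :
    map f s ∈ K2 J R' := by
  rw [mem_K2] at hs ⊢
  refine eq_one_of_single fun n a => ?_
  have h := phi_map f s (Finsupp.single n 1)
  rw [hs, Finsupp.mapRange_single, map_one] at h
  have h2 : Finsupp.single n a = a • (Finsupp.single n (1 : R') : J →₀ R') := by
    rw [Finsupp.smul_single, smul_eq_mul, mul_one]
  have h3 : ((1 : (J →₀ R) ≃ₗ[R] (J →₀ R)) (Finsupp.single n 1)).mapRange f (map_zero f) =
      Finsupp.single n (1 : R') := by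
    change (Finsupp.single n (1 : R)).mapRange f (map_zero f) = _
    rw [Finsupp.mapRange_single, map_one]
  rw [h3] at h
  rw [h2, map_smul, h]

/-- naturality of the action in the index type -/
theorem phi_emb {J' : Type*} [DecidableEq J'] (e : J → J') (he : Function.Injective e)
    (s : St J R) (v : J →₀ R) :
    phi (emb e he s) (v.mapDomain e) = (phi s v).mapDomain e := by
  induction s using induction_left with
  | h1 => rw [map_one, map_one, map_one]; rfl
  | hx i j a s hs =>
    rw [map_mul, map_mul, map_mul, emb_x, phi_x, phi_x, LinearEquiv.mul_apply,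
      LinearEquiv.mul_apply, hs]
    by_cases hij : i = j
    · subst hij
      rw [tv_self, tv_self]
      rfl
    · rw [tv_apply i j hij, tv_apply _ _ (he.ne hij), Finsupp.mapDomain_add,
        Finsupp.mapDomain_single, Finsupp.mapDomain_apply he]

theorem emb_mem_S {J' : Type*} [DecidableEq J'] (e : J → J') (he : Function.Injective e)
    (s : St J R) : emb e he s ∈ (S (Set.range e) : Subgroup (St J' R)) := by
  induction s using induction_left with
  | h1 => rw [map_one]; exact Subgroup.one_mem _
  | hx i j a s hs =>
    rw [map_mul, emb_x]
    exact Subgroup.mul_mem _ (x_mem_S (Set.mem_range_self i) (Set.mem_range_self j) a) hs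

theorem phi_emb_apply_of_notMem {J' : Type*} [DecidableEq J'] (e : J → J')
    (he : Function.Injective e) (s : St J R) (v : J' →₀ R) (n : J') (hn : n ∉ Set.range e) :
    (phi (emb e he s) v) n = v n :=
  phi_apply_of_notMem (emb_mem_S e he s) hn v

theorem phi_emb_single_of_notMem {J' : Type*} [DecidableEq J'] (e : J → J')
    (he : Function.Injective e) (s : St J R) (n : J') (hn : n ∉ Set.range e) (a : R) :
    phi (emb e he s) (Finsupp.single n a) = Finsupp.single n a :=
  phi_single_of_notMem (emb_mem_S e he s) hn a

theorem emb_mem_K2 {J' : Type*} [DecidableEq J'] (e : J → J') (he : Function.Injective e)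
    {s : St J R} (hs : s ∈ K2 J R) : emb e he s ∈ K2 J' R := by
  rw [mem_K2] at hs ⊢
  refine eq_one_of_single fun n a => ?_
  by_cases hn : n ∈ Set.range e
  · obtain ⟨j, rfl⟩ := hn
    have h := phi_emb e he s (Finsupp.single j a)
    rw [hs, Finsupp.mapDomain_single] at h
    rw [h]
    change (Finsupp.single j a).mapDomain e = _
    rw [Finsupp.mapDomain_single]
  · exact phi_emb_single_of_notMem e he s n hn a

end MSK
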