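import Pool.Agent.MSK.Star

/-! MSK / Gen: `K2(J, K)` is generated by symbols, for an infinite field.

PROOF. `s ∈ K2` lies in `S I` for a finite set `I` (`exists_finset_mem_S`); `Finset.induction_on I`: `I = ∅`: `S ∅` is trivial; step
`insert n I`: if `I = ∅` then `S {n}` is trivial (`x n n a = 1`), otherwise `K2_split`. -/

set_option autoImplicit false
set_option linter.unusedVariables false

namespace MSK

variable {J : Type*} {K : Type*} [Field K] [DecidableEq J] [Infinite J]

omit [DecidableEq J] [Infinite J] in
private theorem eq_one_of_subsingleton {I : Set J} (hI : I.Subsingleton) {s : St J K}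
    (hs : s ∈ (S I : Subgroup (St J K))) : s = 1 := by
  refine S_induction (p := fun s => s = 1) rfl ?_ hs
  intro i hi j hj a s _ h
  rw [hI hi hj, x_self, h, mul_one]

private theorem K2_le_aux [Infinite K] (I : Finset J) :
    ∀ s ∈ (S (I : Set J) : Subgroup (St J K)), s ∈ K2 J K → s ∈ Sym J K := by
  induction I using Finset.induction_on with
  | empty =>
    intro s hs _
    rw [Finset.coe_empty] at hs
    rw [eq_one_of_subsingleton Set.subsingleton_empty hs]
    exact Subgroup.one_mem _
  | insert n I hn ih =>
    intro s hs hk
    rw [Finset.coe_insert] at hs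
    rcases I.eq_empty_or_nonempty with rfl | ⟨i₀, hi⟩
    · rw [Finset.coe_empty, insert_empty_eq] at hs
      rw [eq_one_of_subsingleton Set.subsingleton_singleton hs]
      exact Subgroup.one_mem _
    · obtain ⟨t, ht, htk, c, hc, rfl⟩ := K2_split (n := n) (i₀ := i₀) (I := (I : Set J))
        (by simpa using hn) (by simpa using hi) hs hk
      exact Subgroup.mul_mem _ (ih t ht htk) hc

theorem K2_le_Sym [Infinite K] : K2 J K ≤ Sym J K := by
  intro s hs
  obtain ⟨I, hI⟩ := exists_finset_mem_S s
  exact K2_le_aux I s hI hs

end MSK
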