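import Pool.Agent.MSK.Dev
import Pool.Agent.MSK.Gen

/-! MSK / Dtm: `del` on symbols is the tame symbol up to sign.

`c0 u` the constant coefficient of a unit of `k⟦X⟧` as a unit of `k`.
PROOFS. `exists_unit_mul` (Lp): every unit of `k((t))` is `tt ^ n * uO u`. `del_cc` is bimultiplicative (`cc_mul_left`, `cc_mul_right`,
`del_mul`, `cc_mem_K2`), so (integer powers by `map_zpow` of the homomorphisms `u ↦ del (cc i j u v)`, `v ↦ del (cc i j u v)`): the
value is the product of `del (cc (uO u) (uO v)) = 1` (`map_cc`, `del_iO`, `cc_mem_K2`), `del (cc (uO u) tt)^m = (c0 u)^m`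
(`del_cc_unit_t`), `del (cc tt (uO v))^n = (c0 v)^(-n)` (`cc_symm`), and `del (cc tt tt)^(n m)`, where
`del (cc tt tt)` has square one by `cc_symm`, so is `1` or `-1`. `del_sym`: `K2_le_Sym` and induction on the closure. -/

set_option autoImplicit false
set_option linter.unusedVariables false

namespace MSK

variable {J : Type*} [DecidableEq J] [Infinite J] {k : Type*} [Field k]

/-- the constant coefficient of a unit -/
noncomputable def c0 {k : Type*} [Field k] (u : (PowerSeries k)ˣ) : kˣ :=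
  Units.map (PowerSeries.constantCoeff (R := k)).toMonoidHom u

theorem tt_zpow (n : ℤ) :
    ((tt k ^ n : (LaurentSeries k)ˣ) : LaurentSeries k) = HahnSeries.single n (1 : k) := by
  induction n using Int.induction_on with
  | zero =>
    rw [zpow_zero, Units.val_one]
    rfl
  | succ n ih =>
    rw [zpow_add_one, Units.val_mul, ih]
    change HahnSeries.single (n : ℤ) (1 : k) * HahnSeries.single 1 (1 : k) = _
    rw [HahnSeries.single_mul_single, mul_one]
  | pred n ih =>
    rw [zpow_sub_one, Units.val_mul, ih, Units.mul_inv_eq_iff_eq_mul]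
    change _ = HahnSeries.single (-(n : ℤ) - 1) (1 : k) * HahnSeries.single 1 (1 : k)
    rw [HahnSeries.single_mul_single, mul_one, sub_add_cancel]

theorem uO_tt (f : (LaurentSeries k)ˣ) : ∃ (n : ℤ) (u : (PowerSeries k)ˣ), f = tt k ^ n * uO u := by
  obtain ⟨n, u, h⟩ := exists_unit_mul f
  refine ⟨n, u, ?_⟩
  ext1
  rw [h, Units.val_mul, tt_zpow]
  rfl

private theorem coeff_zero_ne (u : (PowerSeries k)ˣ) : (iO k (u : PowerSeries k)).coeff 0 ≠ 0 := by
  have h1 := coeff_iO (u : PowerSeries k) 0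
  rw [Nat.cast_zero] at h1
  rw [h1, PowerSeries.coeff_zero_eq_constantCoeff_apply]
  exact (Units.map (PowerSeries.constantCoeff (R := k)).toMonoidHom u).ne_zero

private theorem no_pos {d : ℤ} {u v : (PowerSeries k)ˣ} (hd : 0 < d)
    (h : HahnSeries.single d (1 : k) * iO k (u : PowerSeries k) = iO k (v : PowerSeries k)) :
    False := by
  apply coeff_zero_ne v
  rw [← h]
  have h1 : (0 : ℤ) = -d + d := by ring
  rw [h1, HahnSeries.coeff_single_mul_add, one_mul]
  exact coeff_iO_neg _ _ (by linarith)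

/-- uniqueness of the decomposition -/
theorem uO_tt_unique {n m : ℤ} {u v : (PowerSeries k)ˣ} (h : tt k ^ n * uO u = tt k ^ m * uO v) :
    n = m ∧ u = v := by
  have h1 : tt k ^ (n - m) * uO u = uO v := by
    rw [sub_eq_add_neg, add_comm, zpow_add, mul_assoc, h, ← mul_assoc, ← zpow_add,
      neg_add_cancel, zpow_zero, one_mul]
  have h2 : tt k ^ (m - n) * uO v = uO u := by
    rw [sub_eq_add_neg, add_comm, zpow_add, mul_assoc, ← h, ← mul_assoc, ← zpow_add,
      neg_add_cancel, zpow_zero, one_mul]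
  have h3 : n = m := by
    have e1 := congrArg (fun w : (LaurentSeries k)ˣ => (w : LaurentSeries k)) h1
    have e2 := congrArg (fun w : (LaurentSeries k)ˣ => (w : LaurentSeries k)) h2
    simp only [Units.val_mul, tt_zpow] at e1 e2
    rcases lt_trichotomy n m with hlt | heq | hgt
    · exact (no_pos (by linarith) e2).elim
    · exact heq
    · exact (no_pos (by linarith) e1).elim
  subst h3
  refine ⟨rfl, ?_⟩
  have h4 : uO u = uO v := mul_left_cancel h
  ext1
  apply iO_injective (k := k)
  exact congrArg (fun w : (LaurentSeries k)ˣ => (w : LaurentSeries k)) h4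

theorem del_cc_unit (i j : J) (hij : i ≠ j) (u v : (PowerSeries k)ˣ) :
    del (cc i j (uO u) (uO v)) = 1 := by
  have h1 : (cc i j (uO u) (uO v) : St J (LaurentSeries k)) = map (iO k) (cc i j u v) := by
    rw [map_cc]
    rfl
  rw [h1]
  exact del_iO (cc_mem_K2 i j hij u v)

private theorem del_mul_left (i j : J) (hij : i ≠ j) (f g h : (LaurentSeries k)ˣ) :
    del (cc i j (f * g) h) = del (cc i j f h) * del (cc i j g h) := by
  rw [cc_mul_left i j hij, del_mul (cc_mem_K2 i j hij _ _) (cc_mem_K2 i j hij _ _)]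

private theorem del_mul_right (i j : J) (hij : i ≠ j) (f g h : (LaurentSeries k)ˣ) :
    del (cc i j f (g * h)) = del (cc i j f g) * del (cc i j f h) := by
  rw [cc_mul_right i j hij, del_mul (cc_mem_K2 i j hij _ _) (cc_mem_K2 i j hij _ _)]

private theorem del_zpow_left (i j : J) (hij : i ≠ j) (f h : (LaurentSeries k)ˣ) (n : ℤ) :
    del (cc i j (f ^ n) h) = del (cc i j f h) ^ n :=
  map_zpow (MonoidHom.mk' (fun f : (LaurentSeries k)ˣ => del (cc i j f h))
    (fun f g => del_mul_left i j hij f g h)) f n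

private theorem del_zpow_right (i j : J) (hij : i ≠ j) (f g : (LaurentSeries k)ˣ) (n : ℤ) :
    del (cc i j f (g ^ n)) = del (cc i j f g) ^ n :=
  map_zpow (MonoidHom.mk' (fun g : (LaurentSeries k)ˣ => del (cc i j f g))
    (fun g h => del_mul_right i j hij f g h)) g n

private theorem del_symm (i j : J) (hij : i ≠ j) (f g : (LaurentSeries k)ˣ) :
    del (cc i j g f) = (del (cc i j f g))⁻¹ := by
  rw [cc_symm i j hij f g, del_inv (cc_mem_K2 i j hij _ _)]

private theorem del_tt (i j : J) (hij : i ≠ j) :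
    del (cc i j (tt k) (tt k)) = 1 ∨ del (cc i j (tt k) (tt k)) = -1 := by
  have h1 := del_symm i j hij (tt k) (tt k)
  have h2 : del (cc i j (tt k) (tt k)) * del (cc i j (tt k) (tt k)) = 1 := by
    nth_rewrite 1 [h1]
    exact inv_mul_cancel _
  have h3 : ((del (cc i j (tt k) (tt k)) : kˣ) : k) * ((del (cc i j (tt k) (tt k)) : kˣ) : k) =
      1 := by
    rw [← Units.val_mul, h2, Units.val_one]
  rcases mul_self_eq_one_iff.1 h3 with h | h
  · left
    ext1
    rw [h, Units.val_one]
  · right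
    ext1
    rw [h, Units.val_neg, Units.val_one]

private theorem sign_zpow {e : kˣ} (h : e = 1 ∨ e = -1) (n : ℤ) : e ^ n = 1 ∨ e ^ n = -1 := by
  have h2 : e * e = 1 := by
    rcases h with h | h <;> rw [h] <;> simp
  rcases Int.even_or_odd' n with ⟨a, ha | ha⟩
  · left
    rw [ha, zpow_mul, zpow_ofNat, pow_two, h2, one_zpow]
  · rw [ha, zpow_add_one, zpow_mul, zpow_ofNat, pow_two, h2, one_zpow, one_mul]
    exact h

/-- `del (c_ij(f, g))` for a unit `f` (no sign) -/
theorem del_cc_left (i j : J) (hij : i ≠ j) (u : (PowerSeries k)ˣ) (m : ℤ)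
    (v : (PowerSeries k)ˣ) : del (cc i j (uO u) (tt k ^ m * uO v)) = c0 u ^ m := by
  have h1 : del (cc i j (uO u) (tt k)) = c0 u := by
    ext1
    exact del_cc_unit_t i j hij u
  rw [del_mul_right i j hij, del_zpow_right i j hij, h1, del_cc_unit i j hij, mul_one]

theorem del_cc_right (i j : J) (hij : i ≠ j) (u : (PowerSeries k)ˣ) (m : ℤ)
    (v : (PowerSeries k)ˣ) : del (cc i j (tt k ^ m * uO v) (uO u)) = (c0 u ^ m)⁻¹ := by
  rw [del_symm i j hij (uO u), del_cc_left i j hij]

/-- the tame symbol up to sign -/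
theorem del_cc (i j : J) (hij : i ≠ j) (n m : ℤ) (u v : (PowerSeries k)ˣ) :
    del (cc i j (tt k ^ n * uO u) (tt k ^ m * uO v)) = c0 u ^ m * (c0 v ^ n)⁻¹ ∨
      del (cc i j (tt k ^ n * uO u) (tt k ^ m * uO v)) = -(c0 u ^ m * (c0 v ^ n)⁻¹) := by
  have h1 : del (cc i j (tt k ^ n) (uO v)) = (c0 v ^ n)⁻¹ := by
    have h2 := del_cc_right i j hij v n 1
    have h3 : (uO 1 : (LaurentSeries k)ˣ) = 1 := by
      unfold uO
      rw [map_one]
    rwa [h3, mul_one] at h2
  have h4 : del (cc i j (tt k ^ n) (tt k ^ m)) = (del (cc i j (tt k) (tt k)) ^ n) ^ m := by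
    rw [del_zpow_right i j hij, del_zpow_left i j hij]
  have h5 : del (cc i j (tt k ^ n * uO u) (tt k ^ m * uO v)) =
      (del (cc i j (tt k) (tt k)) ^ n) ^ m * (c0 u ^ m * (c0 v ^ n)⁻¹) := by
    rw [del_mul_left i j hij, del_cc_left i j hij, del_mul_right i j hij, h4, h1]
    rw [mul_assoc, mul_comm ((c0 v ^ n)⁻¹)]
  rw [h5]
  rcases sign_zpow (sign_zpow (del_tt (k := k) i j hij) n) m with h | h
  · left
    rw [h, one_mul]
  · right
    rw [h, neg_one_mul]

/-- the family of values on `K2(J, K)` for a family of embeddings `K → k_x((t))` lies in every subgroup containing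
the sign vectors and the tame symbols of pairs of elements of `K` -/
theorem del_sym {K : Type*} [Field K] [Infinite K] {Pl : Type*} (κ : Pl → Type*)
    [∀ y, Field (κ y)] (ψ : ∀ y, K →+* LaurentSeries (κ y)) (N : Subgroup (∀ y, (κ y)ˣ))
    (hsign : ∀ z : ∀ y, (κ y)ˣ, (∀ y, z y = 1 ∨ z y = -1) → z ∈ N)
    (htame : ∀ (f g : Kˣ) (n m : Pl → ℤ) (u v : ∀ y, (PowerSeries (κ y))ˣ),
      (∀ y, Units.map (ψ y).toMonoidHom f = tt (κ y) ^ n y * uO (u y)) →
      (∀ y, Units.map (ψ y).toMonoidHom g = tt (κ y) ^ m y * uO (v y)) →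
      (fun y => c0 (u y) ^ m y * (c0 (v y) ^ n y)⁻¹) ∈ N)
    {s : St J K} (hs : s ∈ K2 J K) : (fun y => del (map (ψ y) s)) ∈ N := by
  have key : ∀ s ∈ Sym J K, s ∈ K2 J K ∧ (fun y => del (map (ψ y) s)) ∈ N := by
    intro s hs
    unfold Sym at hs
    induction hs using Subgroup.closure_induction with
    | mem s hs =>
      obtain ⟨i, j, f, g, hij, rfl⟩ := hs
      refine ⟨cc_mem_K2 i j hij f g, ?_⟩
      choose n u hu using fun y => uO_tt (Units.map (ψ y).toMonoidHom f)
      choose m v hv using fun y => uO_tt (Units.map (ψ y).toMonoidHom g)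
      have h1 := htame f g n m u v hu hv
      have h2 : ∀ y, del (map (ψ y) (cc i j f g)) = c0 (u y) ^ m y * (c0 (v y) ^ n y)⁻¹ ∨
          del (map (ψ y) (cc i j f g)) = -(c0 (u y) ^ m y * (c0 (v y) ^ n y)⁻¹) := by
        intro y
        rw [map_cc, hu y, hv y]
        exact del_cc i j hij _ _ _ _
      have h3 : (fun y => del (map (ψ y) (cc i j f g)) *
          (c0 (u y) ^ m y * (c0 (v y) ^ n y)⁻¹)⁻¹) ∈ N := by
        apply hsign
        intro y
        rcases h2 y with h | h
        · left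
          rw [h, mul_inv_cancel]
        · right
          rw [h, neg_mul, mul_inv_cancel]
      have h4 := N.mul_mem h3 h1
      convert h4 using 1
      funext y
      rw [Pi.mul_apply, inv_mul_cancel_right]
    | one =>
      refine ⟨Subgroup.one_mem _, ?_⟩
      have h1 : (fun y => del (map (ψ y) (1 : St J K))) = 1 := by
        funext y
        rw [map_one, del_one, Pi.one_apply]
      rw [h1]
      exact Subgroup.one_mem _
    | mul s t _ _ h1 h2 =>
      refine ⟨Subgroup.mul_mem _ h1.1 h2.1, ?_⟩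
      have h3 : (fun y => del (map (ψ y) (s * t))) =
          (fun y => del (map (ψ y) s)) * (fun y => del (map (ψ y) t)) := by
        funext y
        rw [Pi.mul_apply, map_mul, del_mul (map_mem_K2 _ h1.1) (map_mem_K2 _ h2.1)]
      rw [h3]
      exact Subgroup.mul_mem _ h1.2 h2.2
    | inv s _ h1 =>
      refine ⟨Subgroup.inv_mem _ h1.1, ?_⟩
      have h3 : (fun y => del (map (ψ y) s⁻¹)) = (fun y => del (map (ψ y) s))⁻¹ := by
        funext y
        rw [Pi.inv_apply, map_inv, del_inv (map_mem_K2 _ h1.1)]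
      rw [h3]
      exact Subgroup.inv_mem _ h1.2
  exact (key s (K2_le_Sym hs)).2

end MSK
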