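import Pool.Agent.MSK.Lmu

/-! MSK / Ev: vectors and matrices on the first summand of `ι ⊕ ℕ`, lifts of matrices.

`ev v` is the vector `v` on the coordinates `inl i`. `Lam A B` lifts `1 + A B` (if `B A = 0`). `Lft n g s`: `s` lifts `g ⊕ det(g)⁻¹` with the last
entry at the coordinate `inr n`.
PROOFS. `ev_*`: coordinatewise. `dot_ev`: `dot_single_left` etc. and sums. `phi_ext`: `Finsupp` induction: every `v` is a sum of `single`s,
`single (inl i) a = ev (Pi.single i a)`. `Lam_*`: translate from `LamF_*`: `Ort` of the two families is `B * A = 0`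
(`dot_ev`, `Matrix.mul_apply`). `Lam_unique`: `LamF_unique`, the actions are equal by `phi_LamF` (`A * B = A' * B'`).
`Lft_psi`: from `dot_psi_phi`: `dot (psi s (ev w)) (phi s u) = dot (ev w) u`; check the claimed vector has the same pairing with all `phi s u`,
`phi s` is surjective; `ext` by pairings with all vectors. `Lft_Lam`: `det (1 + A B) = det (1 + B A) = 1`
(`Matrix.det_one_add_mul_comm`). `conj_Lam`: `conj_LamF`, `phi s (ev v) = ev (g v)`, `psi s (ev w) = ev ((g⁻¹)ᵀ w)`. -/

set_option autoImplicit false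
set_option linter.unusedVariables false

namespace MSK

open Matrix

variable {ι : Type*} [Fintype ι] [DecidableEq ι] {R : Type*} [CommRing R]

/-- the vector `v` on the first summand -/
noncomputable def ev (v : ι → R) : (ι ⊕ ℕ) →₀ R := ∑ i, Finsupp.single (Sum.inl i) (v i)

theorem ev_inl (v : ι → R) (i : ι) : ev v (Sum.inl i) = v i := by
  unfold ev
  rw [Finsupp.finsetSum_apply, Finset.sum_eq_single i]
  · rw [Finsupp.single_eq_same]
  · intro j _ hj
    rw [Finsupp.single_apply, if_neg]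
    intro h
    exact hj (Sum.inl_injective h)
  · intro h
    exact absurd (Finset.mem_univ i) h

theorem ev_inr (v : ι → R) (n : ℕ) : ev v (Sum.inr n) = 0 := by
  unfold ev
  rw [Finsupp.finsetSum_apply]
  refine Finset.sum_eq_zero fun j _ => ?_
  rw [Finsupp.single_apply, if_neg]
  intro h
  exact absurd h (by simp)

theorem ev_add (v w : ι → R) : ev (v + w) = ev v + ev w := by
  ext (i | n)
  · rw [Finsupp.add_apply, ev_inl, ev_inl, ev_inl, Pi.add_apply]
  · rw [Finsupp.add_apply, ev_inr, ev_inr, ev_inr, add_zero]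

theorem ev_smul (a : R) (v : ι → R) : ev (a • v) = a • ev v := by
  ext (i | n)
  · rw [Finsupp.smul_apply, ev_inl, ev_inl, Pi.smul_apply]
  · rw [Finsupp.smul_apply, ev_inr, ev_inr, smul_zero]

theorem ev_zero : ev (0 : ι → R) = 0 := by
  ext (i | n)
  · rw [ev_inl]
    rfl
  · rw [ev_inr]
    rfl

theorem ev_single (i : ι) (a : R) : ev (Pi.single i a) = Finsupp.single (Sum.inl i) a := by
  ext (j | n)
  · rw [ev_inl, Finsupp.single_apply, Pi.single_apply]
    by_cases h : j = i
    · rw [if_pos h, if_pos (by rw [h])]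
    · rw [if_neg h, if_neg]
      intro h'
      exact h (Sum.inl_injective h').symm
  · rw [ev_inr, Finsupp.single_apply, if_neg]
    intro h
    exact absurd h (by simp)

theorem ev_sum {κ : Type*} (s : Finset κ) (f : κ → ι → R) :
    ev (∑ m ∈ s, f m) = ∑ m ∈ s, ev (f m) := by
  ext (i | n)
  · rw [ev_inl, Finsupp.finsetSum_apply, Finset.sum_apply]
    exact Finset.sum_congr rfl fun m _ => (ev_inl _ _).symm
  · rw [ev_inr, Finsupp.finsetSum_apply]
    exact (Finset.sum_eq_zero fun m _ => ev_inr _ _).symm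

theorem dot_ev (w v : ι → R) : dot (ev w) (ev v) = w ⬝ᵥ v := by
  have h : ∀ s : Finset ι, dot (∑ i ∈ s, Finsupp.single (Sum.inl i) (w i)) (ev v) =
      ∑ i ∈ s, w i * v i := by
    intro s
    induction s using Finset.induction_on with
    | empty => rw [Finset.sum_empty, Finset.sum_empty, dot_zero_left]
    | insert i s hi ih =>
      rw [Finset.sum_insert hi, Finset.sum_insert hi, dot_add_left, ih, dot_single_left, ev_inl]
  exact h Finset.univ

theorem dot_ev_inr (w : ι → R) (n : ℕ) (a : R) :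
    dot (ev w) (Finsupp.single (Sum.inr n) a) = 0 := by
  rw [dot_single_right, ev_inr, zero_mul]

theorem ev_mapRange {R' : Type*} [CommRing R'] (f : R →+* R') (v : ι → R) :
    (ev v).mapRange f (map_zero f) = ev (fun i => f (v i)) := by
  ext (i | n)
  · rw [Finsupp.mapRange_apply, ev_inl, ev_inl]
  · rw [Finsupp.mapRange_apply, ev_inr, ev_inr, map_zero]

private theorem single_inr_smul (m : ℕ) (a : R) :
    (Finsupp.single (Sum.inr m) a : (ι ⊕ ℕ) →₀ R) = a • Finsupp.single (Sum.inr m) 1 := by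
  rw [Finsupp.smul_single, smul_eq_mul, mul_one]

/-- two elements with the same action on the vectors `ev v` and `single (inr m) 1` have the same action -/
theorem phi_ext {s s' : St (ι ⊕ ℕ) R} (h : ∀ v : ι → R, phi s (ev v) = phi s' (ev v))
    (h' : ∀ m : ℕ, phi s (Finsupp.single (Sum.inr m) 1) = phi s' (Finsupp.single (Sum.inr m) 1)) :
    phi s = phi s' := by
  apply LinearEquiv.toLinearMap_injective
  refine Finsupp.lhom_ext fun j a => ?_
  rcases j with i | m
  · rw [← ev_single]
    exact h _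
  · rw [single_inr_smul, map_smul, map_smul]
    congr 1
    exact h' m

/-- orthogonality of the columns and rows of matrices -/
theorem ort_of {κ κ' : Type*} (A : Matrix ι κ R) (B : Matrix κ' ι R) (h : B * A = 0) :
    Ort (fun m => ev (fun i => A i m)) (fun m => ev (fun i => B m i)) := by
  intro m m'
  rw [dot_ev]
  have h1 := congrFun (congrFun h m') m
  rw [Matrix.mul_apply] at h1
  exact h1

theorem ev_mulVec {κ : Type*} [Fintype κ] (A : Matrix ι κ R) (c : κ → R) :
    ev (A *ᵥ c) = ∑ m, c m • ev (fun i => A i m) := by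
  have h : A *ᵥ c = ∑ m, c m • (fun i => A i m) := by
    funext i
    rw [Finset.sum_apply, Matrix.mulVec, dotProduct]
    refine Finset.sum_congr rfl fun m _ => ?_
    rw [Pi.smul_apply, smul_eq_mul, mul_comm]
  rw [h, ev_sum]
  exact Finset.sum_congr rfl fun m _ => ev_smul _ _

section Lam

variable {κ κ' : Type*} [Fintype κ] [Fintype κ']

/-- the canonical lift of `1 + A B`, `B A = 0` -/
noncomputable def Lam (A : Matrix ι κ R) (B : Matrix κ ι R) : St (ι ⊕ ℕ) R :=
  LamF (fun m => ev (fun i => A i m)) (fun m => ev (fun i => B m i))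

theorem phi_Lam (A : Matrix ι κ R) (B : Matrix κ ι R) (h : B * A = 0) (v : ι → R) :
    phi (Lam A B) (ev v) = ev (v + A *ᵥ (B *ᵥ v)) := by
  unfold Lam
  rw [phi_LamF _ _ (ort_of A B h), ev_add, ev_mulVec]
  congr 1
  refine Finset.sum_congr rfl fun m _ => ?_
  rw [dot_ev]
  rfl

theorem phi_Lam_inr (A : Matrix ι κ R) (B : Matrix κ ι R) (h : B * A = 0) (m : ℕ) (a : R) :
    phi (Lam A B) (Finsupp.single (Sum.inr m) a) = Finsupp.single (Sum.inr m) a := by
  unfold Lam
  rw [phi_LamF _ _ (ort_of A B h), Finset.sum_eq_zero, add_zero]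
  intro k _
  rw [dot_ev_inr, zero_smul]

theorem Lam_zero_left (B : Matrix κ ι R) : Lam (0 : Matrix ι κ R) B = 1 := by
  unfold Lam
  have h : (fun m : κ => ev (fun i => (0 : Matrix ι κ R) i m)) = fun _ => 0 := by
    funext m
    exact ev_zero
  rw [h, LamF_zero_left]

theorem Lam_zero_right (A : Matrix ι κ R) : Lam A (0 : Matrix κ ι R) = 1 := by
  unfold Lam
  have h : (fun m : κ => ev (fun i => (0 : Matrix κ ι R) m i)) = fun _ => 0 := by
    funext m
    exact ev_zero
  rw [h, LamF_zero_right]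

theorem Lam_add_left (A A' : Matrix ι κ R) (B : Matrix κ ι R) (h : B * A = 0) (h' : B * A' = 0) :
    Lam (A + A') B = Lam A B * Lam A' B := by
  unfold Lam
  rw [← LamF_add_left _ _ _ (ort_of A B h) (ort_of A' B h')]
  congr 1
  funext m
  exact ev_add _ _

theorem Lam_add_right (A : Matrix ι κ R) (B B' : Matrix κ ι R) (h : B * A = 0) (h' : B' * A = 0) :
    Lam A (B + B') = Lam A B * Lam A B' := by
  unfold Lam
  rw [← LamF_add_right _ _ _ (ort_of A B h) (ort_of A B' h')]
  congr 1
  funext m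
  exact ev_add _ _

theorem Lam_neg_left (A : Matrix ι κ R) (B : Matrix κ ι R) (h : B * A = 0) :
    Lam (-A) B = (Lam A B)⁻¹ := by
  rw [eq_inv_iff_mul_eq_one, ← Lam_add_left _ _ _ (by rw [Matrix.mul_neg, h, neg_zero]) h,
    neg_add_cancel, Lam_zero_left]

theorem Lam_neg_right (A : Matrix ι κ R) (B : Matrix κ ι R) (h : B * A = 0) :
    Lam A (-B) = (Lam A B)⁻¹ := by
  rw [eq_inv_iff_mul_eq_one, ← Lam_add_right _ _ _ (by rw [Matrix.neg_mul, h, neg_zero]) h,
    neg_add_cancel, Lam_zero_right]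

theorem Lam_mul (A : Matrix ι κ R) (M : Matrix κ κ' R) (B : Matrix κ' ι R) (h : B * A = 0) :
    Lam (A * M) B = Lam A (M * B) := by
  unfold Lam
  have h1 : (fun m' : κ' => ev (fun i => (A * M) i m')) =
      fun m' => ∑ m, M m m' • ev (fun i => A i m) := by
    funext m'
    exact ev_mulVec A (fun m => M m m')
  have h2 : (fun m : κ => ev (fun i => (M * B) m i)) =
      fun m => ∑ m', M m m' • ev (fun i => B m' i) := by
    funext m
    have h3 := ev_mulVec (fun i m' => B m' i : Matrix ι κ' R) (fun m' => M m m')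
    rw [← h3]
    congr 1
    funext i
    rw [Matrix.mul_apply, Matrix.mulVec, dotProduct]
    exact Finset.sum_congr rfl fun _ _ => mul_comm _ _
  rw [h1, h2]
  exact LamF_mul (fun m m' => M m m') _ _ (ort_of A B h)

theorem Lam_comm (A : Matrix ι κ R) (B : Matrix κ ι R) (A' : Matrix ι κ' R) (B' : Matrix κ' ι R)
    (h : B * A = 0) (h' : B' * A' = 0) (h1 : B' * A = 0) (h2 : B * A' = 0) :
    Commute (Lam A B) (Lam A' B') :=
  LamF_comm _ _ _ _ (ort_of A B h) (ort_of A' B' h') (ort_of A B' h1) (ort_of A' B h2)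

/-- splitting the middle index -/
theorem Lam_fromCols (A : Matrix ι κ R) (B : Matrix κ ι R) (A' : Matrix ι κ' R)
    (B' : Matrix κ' ι R) (h : B * A = 0) (h' : B' * A' = 0) (h1 : B' * A = 0) (h2 : B * A' = 0) :
    Lam (Matrix.fromCols A A') (Matrix.fromRows B B') = Lam A B * Lam A' B' := by
  unfold Lam
  rw [← LamF_sum _ _ _ _ (ort_of A B h) (ort_of A' B' h') (ort_of A B' h1) (ort_of A' B h2)]
  congr 1
  · funext m
    rcases m with m | m
    · rfl
    · rfl
  · funext m
    rcases m with m | m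
    · rfl
    · rfl

theorem map_Lam {R' : Type*} [CommRing R'] (f : R →+* R') (A : Matrix ι κ R) (B : Matrix κ ι R)
    (h : B * A = 0) : map f (Lam A B) = Lam (A.map f) (B.map f) := by
  unfold Lam
  rw [map_LamF f _ _ (ort_of A B h)]
  congr 1
  · funext m
    exact ev_mapRange f _
  · funext m
    exact ev_mapRange f _

end Lam

theorem Lam_unique {K : Type*} [Field K] {κ κ' : Type*} [Fintype κ] [Fintype κ']
    (A : Matrix ι κ K) (B : Matrix κ ι K) (A' : Matrix ι κ' K) (B' : Matrix κ' ι K)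
    (h : B * A = 0) (h' : B' * A' = 0) (h1 : B' * A = 0) (h2 : B * A' = 0)
    (he : A * B = A' * B') : Lam A B = Lam A' B' := by
  refine LamF_unique _ _ _ _ (ort_of A B h) (ort_of A' B' h') (ort_of A B' h1) (ort_of A' B h2) ?_
  refine phi_ext (s := Lam A B) (s' := Lam A' B') (fun v => ?_) (fun m => ?_)
  · rw [phi_Lam A B h, phi_Lam A' B' h', Matrix.mulVec_mulVec, Matrix.mulVec_mulVec, he]
  · rw [phi_Lam_inr A B h, phi_Lam_inr A' B' h']

/-- `s` lifts `g ⊕ det(g)⁻¹` (last entry at `inr n`) -/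
def Lft (n : ℕ) (g : GL ι R) (s : St (ι ⊕ ℕ) R) : Prop :=
  (∀ v : ι → R, phi s (ev v) = ev ((g : Matrix ι ι R) *ᵥ v)) ∧
  ∀ m : ℕ, phi s (Finsupp.single (Sum.inr m) 1) =
    Finsupp.single (Sum.inr m) (if m = n then (((Matrix.GeneralLinearGroup.det g)⁻¹ : Rˣ) : R)
      else 1)

theorem Lft_one (n : ℕ) : Lft n (1 : GL ι R) 1 := by
  constructor
  · intro v
    rw [map_one, Units.val_one, Matrix.one_mulVec]
    rfl
  · intro m
    rw [map_one, map_one, inv_one, Units.val_one, ite_self]
    rfl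

theorem Lft_inr {n : ℕ} {g : GL ι R} {s : St (ι ⊕ ℕ) R} (h : Lft n g s) (m : ℕ) (a : R) :
    phi s (Finsupp.single (Sum.inr m) a) = Finsupp.single (Sum.inr m)
      (a * if m = n then (((Matrix.GeneralLinearGroup.det g)⁻¹ : Rˣ) : R) else 1) := by
  rw [single_inr_smul, map_smul, h.2, Finsupp.smul_single, smul_eq_mul]

theorem Lft_mul {n : ℕ} {g g' : GL ι R} {s s' : St (ι ⊕ ℕ) R} (h : Lft n g s)
    (h' : Lft n g' s') : Lft n (g * g') (s * s') := by
  constructor
  · intro v
    rw [map_mul, LinearEquiv.mul_apply, h'.1, h.1, Matrix.mulVec_mulVec, Units.val_mul]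
  · intro m
    rw [map_mul, LinearEquiv.mul_apply, h'.2, Lft_inr h, map_mul, mul_inv, Units.val_mul]
    congr 1
    by_cases hm : m = n
    · rw [if_pos hm, if_pos hm, if_pos hm, mul_comm]
    · rw [if_neg hm, if_neg hm, if_neg hm, mul_one]

private theorem phi_inv_eq {s : St (ι ⊕ ℕ) R} {u v : (ι ⊕ ℕ) →₀ R} (h : phi s v = u) :
    phi s⁻¹ u = v := by
  rw [← h, ← LinearEquiv.mul_apply, ← map_mul, inv_mul_cancel, map_one]
  rfl

theorem Lft_inv {n : ℕ} {g : GL ι R} {s : St (ι ⊕ ℕ) R} (h : Lft n g s) : Lft n g⁻¹ s⁻¹ := by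
  constructor
  · intro v
    apply phi_inv_eq
    rw [h.1, Matrix.mulVec_mulVec, ← Units.val_mul, mul_inv_cancel, Units.val_one,
      Matrix.one_mulVec]
  · intro m
    apply phi_inv_eq
    rw [Lft_inr h, map_inv, inv_inv]
    congr 1
    by_cases hm : m = n
    · rw [if_pos hm, if_pos hm, Units.mul_inv]
    · rw [if_neg hm, if_neg hm, mul_one]

/-- conjugation by lifts with another auxiliary coordinate -/
theorem Lft_conj {n m : ℕ} {g h : GL ι R} {s t : St (ι ⊕ ℕ) R} (hs : Lft n g s)
    (ht : Lft m h t) : Lft n (h * g * h⁻¹) (t * s * t⁻¹) := by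
  have ht' := Lft_inv ht
  constructor
  · intro v
    rw [map_mul, map_mul, LinearEquiv.mul_apply, LinearEquiv.mul_apply, ht'.1, hs.1, ht.1,
      Matrix.mulVec_mulVec, Matrix.mulVec_mulVec, Units.val_mul, Units.val_mul]
  · intro k
    have hdet : Matrix.GeneralLinearGroup.det (h * g * h⁻¹) = Matrix.GeneralLinearGroup.det g := by
      rw [map_mul, map_mul, map_inv, mul_comm (Matrix.GeneralLinearGroup.det h), mul_inv_cancel_right]
    rw [map_mul, map_mul, LinearEquiv.mul_apply, LinearEquiv.mul_apply, ht'.2, Lft_inr hs,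
      Lft_inr ht, hdet, map_inv, inv_inv]
    congr 1
    by_cases hk : k = m
    · rw [if_pos hk, if_pos hk, mul_right_comm, Units.mul_inv, one_mul]
    · rw [if_neg hk, if_neg hk, mul_one, one_mul]

theorem Lft_phi_eq {n : ℕ} {g : GL ι R} {s s' : St (ι ⊕ ℕ) R} (h : Lft n g s)
    (h' : Lft n g s') : phi s = phi s' :=
  phi_ext (fun v => by rw [h.1, h'.1]) (fun m => by rw [h.2, h'.2])

theorem Lft_mul_inv_mem {n : ℕ} {g : GL ι R} {s s' : St (ι ⊕ ℕ) R} (h : Lft n g s)
    (h' : Lft n g s') : s * s'⁻¹ ∈ K2 (ι ⊕ ℕ) R := by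
  rw [mem_K2, map_mul, map_inv, Lft_phi_eq h h', mul_inv_cancel]

theorem Lft_one_iff {n : ℕ} {s : St (ι ⊕ ℕ) R} : Lft n (1 : GL ι R) s ↔ s ∈ K2 (ι ⊕ ℕ) R := by
  rw [mem_K2]
  constructor
  · intro h
    rw [Lft_phi_eq h (Lft_one n), map_one]
  · intro h
    have h1 : phi s = phi (1 : St (ι ⊕ ℕ) R) := by rw [h, map_one]
    have h2 := Lft_one (ι := ι) (R := R) n
    unfold Lft at h2 ⊢
    rw [h1]
    exact h2

theorem Lft_psi {n : ℕ} {g : GL ι R} {s : St (ι ⊕ ℕ) R} (h : Lft n g s) (w : ι → R) :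
    psi s (ev w) = ev (((g⁻¹ : GL ι R) : Matrix ι ι R)ᵀ *ᵥ w) := by
  have key : ∀ u : (ι ⊕ ℕ) →₀ R,
      dot (ev (((g⁻¹ : GL ι R) : Matrix ι ι R)ᵀ *ᵥ w)) (phi s u) = dot (ev w) u := by
    intro u
    induction u using Finsupp.induction_linear with
    | zero => rw [map_zero, dot_zero_right, dot_zero_right]
    | add u u' hu hu' => rw [map_add, dot_add_right, dot_add_right, hu, hu']
    | single j a =>
      rcases j with i | m
      · rw [← ev_single, h.1, dot_ev, dot_ev, Matrix.mulVec_transpose, Matrix.dotProduct_mulVec,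
          Matrix.vecMul_vecMul, ← Units.val_mul, inv_mul_cancel, Units.val_one, Matrix.vecMul_one]
      · rw [Lft_inr h, dot_ev_inr, dot_ev_inr]
  refine ext_dot fun v => ?_
  have h1 := dot_psi_phi s (ev w) (phi s⁻¹ v)
  have h2 : phi s (phi s⁻¹ v) = v := by
    rw [← LinearEquiv.mul_apply, ← map_mul, mul_inv_cancel, map_one]
    rfl
  have h3 := key (phi s⁻¹ v)
  rw [h2] at h1 h3
  rw [h1, h3]

theorem Lft_map {R' : Type*} [CommRing R'] (f : R →+* R') {n : ℕ} {g : GL ι R}
    {s : St (ι ⊕ ℕ) R} (h : Lft n g s) :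
    Lft n (Matrix.GeneralLinearGroup.map f g) (map f s) := by
  constructor
  · intro v
    have h1 : ∀ i : ι, phi (map f s) (Finsupp.single (Sum.inl i) 1) =
        ev (fun k => (Matrix.GeneralLinearGroup.map f g : Matrix ι ι R') k i) := by
      intro i
      have h2 := phi_map f s (Finsupp.single (Sum.inl i) 1)
      rw [Finsupp.mapRange_single, map_one, ← ev_single i (1 : R), h.1, ev_mapRange] at h2
      rw [h2]
      congr 1
      funext k
      rw [Matrix.mulVec_single_one]
      rfl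
    have h3 : ev v = ∑ i, v i • Finsupp.single (Sum.inl i) (1 : R') := by
      unfold ev
      refine Finset.sum_congr rfl fun i _ => ?_
      rw [Finsupp.smul_single, smul_eq_mul, mul_one]
    rw [h3, map_sum, ev_mulVec]
    refine Finset.sum_congr rfl fun i _ => ?_
    rw [map_smul, h1]
  · intro m
    have h2 := phi_map f s (Finsupp.single (Sum.inr m) 1)
    rw [Finsupp.mapRange_single, map_one, h.2, Finsupp.mapRange_single] at h2
    rw [h2]
    congr 1
    by_cases hm : m = n
    · rw [if_pos hm, if_pos hm, Matrix.GeneralLinearGroup.map_det, ← map_inv]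
      rfl
    · rw [if_neg hm, if_neg hm, map_one]

section

variable {κ : Type*} [Fintype κ]

theorem Lft_Lam (n : ℕ) (A : Matrix ι κ R) (B : Matrix κ ι R) (h : B * A = 0) (g : GL ι R)
    (hg : (g : Matrix ι ι R) = 1 + A * B) : Lft n g (Lam A B) := by
  classical
  have hdet : Matrix.GeneralLinearGroup.det g = 1 := by
    apply Units.ext
    rw [Matrix.GeneralLinearGroup.val_det_apply, hg, Matrix.det_one_add_mul_comm, h, add_zero,
      Matrix.det_one, Units.val_one]
  constructor
  · intro v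
    rw [phi_Lam A B h, hg, Matrix.add_mulVec, Matrix.one_mulVec, Matrix.mulVec_mulVec]
  · intro m
    rw [phi_Lam_inr A B h, hdet, inv_one, Units.val_one, ite_self]

theorem conj_Lam {n : ℕ} {g : GL ι R} {s : St (ι ⊕ ℕ) R} (hs : Lft n g s) (A : Matrix ι κ R)
    (B : Matrix κ ι R) (h : B * A = 0) :
    s * Lam A B * s⁻¹ = Lam ((g : Matrix ι ι R) * A) (B * ((g⁻¹ : GL ι R) : Matrix ι ι R)) := by
  unfold Lam
  rw [conj_LamF s _ _ (ort_of A B h)]
  congr 1
  · funext m
    rw [hs.1]
    rfl
  · funext m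
    rw [Lft_psi hs]
    congr 1
    funext i
    rw [Matrix.mul_apply, Matrix.mulVec, dotProduct]
    refine Finset.sum_congr rfl fun j _ => ?_
    rw [Matrix.transpose_apply, mul_comm]

end

end MSK
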