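import Mathlib

/-! MSK / Fr: determinants of automorphisms which differ from the identity by a map of finite rank.

`dt a` is the determinant of the restriction of `a` to the range of `a - 1` (if this range has infinite dimension it is
`1` by convention of Mathlib; only used for `a` in `A0`).
PROOFS. `FR`: ranges: `range (f + g) ≤ range f ⊔ range g`, `range (g ∘ f) = (range f).map g`, `range (f ∘ g) ≤ range f`.
`dt_eq`: for a finite dimensional `W` with `a v - v ∈ W` for all `v`, `W' = range (a - 1) ≤ W`: `LinearMap.det_eq_det_mul_det` (for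
the submodule `W'.comap W.subtype` of `W`) or any other way: on `W / W'` the map induced by `a` is the identity.
`dt_mul`: `W = range (a - 1) ⊔ range (a' - 1)` works for `a`, `a'`, `a * a'`; `dt_eq` three times, `LinearMap.det_comp`.
`dt_conj`: `g` gives an equivalence of `range (a - 1)` with `range (g a g⁻¹ - 1)` (`LinearMap.det_conj`).
`dt_of_sq`: `a` is the identity on `range (a - 1)`. `dt_of_rank_one`: `W = span u`, `dt_eq`, on `W` the map is
multiplication by `1 + l u` (`LinearMap.det_smul` or `det` of a scalar on a space of dimension `1`; the case `u = 0` separately). -/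

set_option autoImplicit false
set_option linter.unusedVariables false

namespace MSK

open scoped commutatorElement

section FR

variable {k : Type*} [Field k] {V V' V'' : Type*} [AddCommGroup V] [Module k V] [AddCommGroup V']
  [Module k V'] [AddCommGroup V''] [Module k V'']

/-- maps of finite rank -/
def FR (f : V →ₗ[k] V') : Prop := FiniteDimensional k (LinearMap.range f)

theorem FR.zero : FR (0 : V →ₗ[k] V') := by
  unfold FR
  rw [LinearMap.range_zero]
  infer_instance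

theorem FR.add {f g : V →ₗ[k] V'} (hf : FR f) (hg : FR g) : FR (f + g) := by
  unfold FR at *
  exact Submodule.finiteDimensional_of_le (LinearMap.range_add_le f g)

theorem FR.sub {f g : V →ₗ[k] V'} (hf : FR f) (hg : FR g) : FR (f - g) := by
  have hg' : FR (-g) := by
    unfold FR at *
    rw [LinearMap.range_neg]
    exact hg
  rw [sub_eq_add_neg]
  exact FR.add hf hg'

theorem FR.neg {f : V →ₗ[k] V'} (hf : FR f) : FR (-f) := by
  unfold FR at *
  rw [LinearMap.range_neg]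
  exact hf

theorem FR.comp_left {f : V →ₗ[k] V'} (hf : FR f) (g : V' →ₗ[k] V'') : FR (g ∘ₗ f) := by
  unfold FR at *
  rw [LinearMap.range_comp]
  infer_instance

theorem FR.comp_right {f : V' →ₗ[k] V''} (hf : FR f) (g : V →ₗ[k] V') : FR (f ∘ₗ g) := by
  unfold FR at *
  exact Submodule.finiteDimensional_of_le (LinearMap.range_comp_le_range g f)

theorem FR.of_comp {f : V →ₗ[k] V'} (g : V' →ₗ[k] V'') (hg : Function.Injective g)
    (h : FR (g ∘ₗ f)) : FR f := by
  unfold FR at *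
  rw [LinearMap.range_comp] at h
  exact (Submodule.equivMapOfInjective g hg (LinearMap.range f)).symm.finiteDimensional

theorem FR.of_le {f : V →ₗ[k] V'} (W : Submodule k V') [FiniteDimensional k W]
    (h : ∀ v, f v ∈ W) : FR f := by
  unfold FR
  refine Submodule.finiteDimensional_of_le (S₂ := W) ?_
  rintro _ ⟨v, rfl⟩
  exact h v

end FR

section Dt

variable {k : Type*} [Field k] {V : Type*} [AddCommGroup V] [Module k V]

/-- automorphisms which are the identity up to finite rank -/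
def A0 (k V : Type*) [Field k] [AddCommGroup V] [Module k V] : Subgroup (V ≃ₗ[k] V) where
  carrier := {a | FR ((a : V →ₗ[k] V) - LinearMap.id)}
  one_mem' := by
    have h : (((1 : V ≃ₗ[k] V) : V →ₗ[k] V) - LinearMap.id) = 0 := by
      ext v
      simp
    change FR _
    rw [h]
    exact FR.zero
  mul_mem' := by
    intro a b ha hb
    have ha' : FR ((a : V →ₗ[k] V) - LinearMap.id) := ha
    have hb' : FR ((b : V →ₗ[k] V) - LinearMap.id) := hb
    have h : (((a * b : V ≃ₗ[k] V) : V →ₗ[k] V) - LinearMap.id) =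
        ((a : V →ₗ[k] V) - LinearMap.id) ∘ₗ (b : V →ₗ[k] V) +
          ((b : V →ₗ[k] V) - LinearMap.id) := by
      ext v
      simp
    change FR _
    rw [h]
    exact (ha'.comp_right _).add hb'
  inv_mem' := by
    intro a ha
    have ha' : FR ((a : V →ₗ[k] V) - LinearMap.id) := ha
    have h : (((a⁻¹ : V ≃ₗ[k] V) : V →ₗ[k] V) - LinearMap.id) =
        -(((a : V →ₗ[k] V) - LinearMap.id) ∘ₗ ((a⁻¹ : V ≃ₗ[k] V) : V →ₗ[k] V)) := by
      ext v
      have : a (a⁻¹ v) = v := a.apply_symm_apply v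
      simp [this]
    change FR _
    rw [h]
    exact (ha'.comp_right _).neg

theorem mem_A0 {a : V ≃ₗ[k] V} : a ∈ A0 k V ↔ FR ((a : V →ₗ[k] V) - LinearMap.id) := Iff.rfl

instance A0_normal : (A0 k V).Normal := by
  refine ⟨fun a ha g => ?_⟩
  have ha' : FR ((a : V →ₗ[k] V) - LinearMap.id) := ha
  have h : (((g * a * g⁻¹ : V ≃ₗ[k] V) : V →ₗ[k] V) - LinearMap.id) =
      (g : V →ₗ[k] V) ∘ₗ (((a : V →ₗ[k] V) - LinearMap.id) ∘ₗ
        ((g⁻¹ : V ≃ₗ[k] V) : V →ₗ[k] V)) := by
    ext v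
    have : g (g⁻¹ v) = v := g.apply_symm_apply v
    simp [this]
  change FR _
  rw [h]
  exact (ha'.comp_right _).comp_left _

theorem restrict_aux (a : V ≃ₗ[k] V) :
    ∀ v ∈ LinearMap.range ((a : V →ₗ[k] V) - LinearMap.id),
      (a : V →ₗ[k] V) v ∈ LinearMap.range ((a : V →ₗ[k] V) - LinearMap.id) := by
  intro v hv
  have h : (a : V →ₗ[k] V) v = v + ((a : V →ₗ[k] V) - LinearMap.id : V →ₗ[k] V) v := by
    rw [LinearMap.sub_apply, LinearMap.id_apply]; abel
  rw [h]
  exact Submodule.add_mem _ hv (LinearMap.mem_range_self _ v)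

/-- the determinant of `a` on `range (a - 1)` -/
noncomputable def dt (a : V ≃ₗ[k] V) : k :=
  LinearMap.det ((a : V →ₗ[k] V).restrict (restrict_aux a))

private theorem det_of_equiv {M N : Type*} [AddCommGroup M] [Module k M] [AddCommGroup N]
    [Module k N] (e : M ≃ₗ[k] N) (f : M →ₗ[k] M) (g : N →ₗ[k] N) (h : ∀ x, e (f x) = g (e x)) :
    LinearMap.det f = LinearMap.det g := by
  have h1 : g = (e : M →ₗ[k] N) ∘ₗ f ∘ₗ (e.symm : N →ₗ[k] M) := by
    ext x
    simp [h]
  rw [h1, LinearMap.det_conj]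

theorem dt_eq (a : V ≃ₗ[k] V) (W : Submodule k V) [FiniteDimensional k W]
    (hW : ∀ v, a v - v ∈ W) (hW' : ∀ v ∈ W, (a : V →ₗ[k] V) v ∈ W) :
    dt a = LinearMap.det ((a : V →ₗ[k] V).restrict hW') := by
  have hle : LinearMap.range ((a : V →ₗ[k] V) - LinearMap.id) ≤ W := by
    rintro _ ⟨v, rfl⟩
    simpa using hW v
  set R := LinearMap.range ((a : V →ₗ[k] V) - LinearMap.id) with hR
  set f := (a : V →ₗ[k] V).restrict hW' with hf
  set U : Submodule k W := R.comap W.subtype with hU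
  have hmem : ∀ w : W, f w - w ∈ U := by
    intro w
    rw [hU, Submodule.mem_comap]
    refine ⟨(w : V), ?_⟩
    simp [hf]
  have hinv : U ≤ U.comap f := by
    intro w hw
    rw [Submodule.mem_comap]
    have := U.add_mem (hmem w) hw
    rwa [sub_add_cancel] at this
  have h1 := LinearMap.det_eq_det_mul_det U f hinv
  have h2 : U.mapQ U f hinv = LinearMap.id := by
    ext w
    simp only [LinearMap.comp_apply, Submodule.mkQ_apply, Submodule.mapQ_apply, LinearMap.id_apply]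
    exact (Submodule.Quotient.eq U).mpr (hmem w)
  rw [h2, LinearMap.det_id, mul_one] at h1
  rw [h1]
  unfold dt
  refine (det_of_equiv (Submodule.comapSubtypeEquivOfLe hle) _ _ ?_).symm
  intro x
  rfl

theorem dt_one : dt (1 : V ≃ₗ[k] V) = 1 := by
  unfold dt
  have h : ((1 : V ≃ₗ[k] V) : V →ₗ[k] V).restrict (restrict_aux 1) = LinearMap.id :=
    LinearMap.ext fun v => Subtype.ext rfl
  rw [h, LinearMap.det_id]

theorem dt_mul {a a' : V ≃ₗ[k] V} (ha : a ∈ A0 k V) (ha' : a' ∈ A0 k V) :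
    dt (a * a') = dt a * dt a' := by
  have ha1 : FiniteDimensional k (LinearMap.range ((a : V →ₗ[k] V) - LinearMap.id)) := ha
  have ha2 : FiniteDimensional k (LinearMap.range ((a' : V →ₗ[k] V) - LinearMap.id)) := ha'
  set W := LinearMap.range ((a : V →ₗ[k] V) - LinearMap.id) ⊔
    LinearMap.range ((a' : V →ₗ[k] V) - LinearMap.id) with hW
  have m1 : ∀ v, a v - v ∈ W := fun v =>
    Submodule.mem_sup_left ⟨v, by simp⟩
  have m2 : ∀ v, a' v - v ∈ W := fun v =>
    Submodule.mem_sup_right ⟨v, by simp⟩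
  have i1 : ∀ v ∈ W, (a : V →ₗ[k] V) v ∈ W := by
    intro v hv
    have := W.add_mem (m1 v) hv
    rwa [sub_add_cancel] at this
  have i2 : ∀ v ∈ W, (a' : V →ₗ[k] V) v ∈ W := by
    intro v hv
    have := W.add_mem (m2 v) hv
    rwa [sub_add_cancel] at this
  have m3 : ∀ v, (a * a') v - v ∈ W := by
    intro v
    have := W.add_mem (m1 (a' v)) (m2 v)
    rw [sub_add_sub_cancel] at this
    exact this
  have i3 : ∀ v ∈ W, ((a * a' : V ≃ₗ[k] V) : V →ₗ[k] V) v ∈ W := fun v hv =>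
    i1 _ (i2 v hv)
  rw [dt_eq (a * a') W m3 i3, dt_eq a W m1 i1, dt_eq a' W m2 i2, ← LinearMap.det_comp]
  rfl

theorem dt_ne_zero {a : V ≃ₗ[k] V} (ha : a ∈ A0 k V) : dt a ≠ 0 := by
  intro h0
  have h1 := dt_mul ha (Subgroup.inv_mem _ ha)
  rw [mul_inv_cancel, dt_one, h0, zero_mul] at h1
  exact one_ne_zero h1

private theorem dt_itw {V' : Type*} [AddCommGroup V'] [Module k V'] (j : V →ₗ[k] V')
    (hj : Function.Injective j) {a : V ≃ₗ[k] V} (ha : a ∈ A0 k V) (a' : V' ≃ₗ[k] V')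
    (h1 : ∀ v, a' (j v) = j (a v)) (h2 : ∀ v', ∃ v, a' v' - v' = j (a v - v)) :
    a' ∈ A0 k V' ∧ dt a' = dt a := by
  have ha1 : FiniteDimensional k (LinearMap.range ((a : V →ₗ[k] V) - LinearMap.id)) := ha
  set W := (LinearMap.range ((a : V →ₗ[k] V) - LinearMap.id)).map j with hW
  have m1 : ∀ v', a' v' - v' ∈ W := by
    intro v'
    obtain ⟨v, hv⟩ := h2 v'
    rw [hv]
    exact Submodule.mem_map_of_mem ⟨v, by simp⟩
  have i1 : ∀ v' ∈ W, (a' : V' →ₗ[k] V') v' ∈ W := by
    intro v hv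
    have := W.add_mem (m1 v) hv
    rwa [sub_add_cancel] at this
  refine ⟨FR.of_le W fun v => ?_, ?_⟩
  · simpa using m1 v
  · rw [dt_eq a' W m1 i1]
    unfold dt
    refine (det_of_equiv (Submodule.equivMapOfInjective j hj _) _ _ ?_).symm
    intro x
    refine Subtype.ext ?_
    rw [Submodule.coe_equivMapOfInjective_apply]
    change j (a x) = a' (Submodule.equivMapOfInjective j hj _ x : V')
    rw [Submodule.coe_equivMapOfInjective_apply, h1]

theorem dt_conj {a : V ≃ₗ[k] V} (ha : a ∈ A0 k V) (g : V ≃ₗ[k] V) : dt (g * a * g⁻¹) = dt a := by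
  refine (dt_itw (g : V →ₗ[k] V) g.injective ha (g * a * g⁻¹) ?_ ?_).2
  · intro v
    have : g⁻¹ (g v) = v := g.symm_apply_apply v
    simp [this]
  · intro v
    refine ⟨g⁻¹ v, ?_⟩
    have : g (g⁻¹ v) = v := g.apply_symm_apply v
    simp [this]

theorem dt_of_sq {a : V ≃ₗ[k] V} (ha : a ∈ A0 k V) (h : ∀ v, a (a v - v) = a v - v) :
    dt a = 1 := by
  unfold dt
  have h1 : (a : V →ₗ[k] V).restrict (restrict_aux a) = LinearMap.id := by
    ext x
    obtain ⟨_, ⟨v, rfl⟩⟩ := x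
    have := h v
    simpa using this
  rw [h1, LinearMap.det_id]

theorem dt_of_rank_one (a : V ≃ₗ[k] V) (l : V →ₗ[k] k) (u : V) (h : ∀ v, a v = v + l v • u) :
    dt a = 1 + l u := by
  by_cases hu : u = 0
  · have h1 : a = 1 := by
      ext v
      rw [h v, hu]
      simp
    rw [h1, dt_one, hu]
    simp
  · set W := Submodule.span k {u} with hW
    have m1 : ∀ v, a v - v ∈ W := by
      intro v
      rw [h v, add_sub_cancel_left]
      exact W.smul_mem _ (Submodule.mem_span_singleton_self u)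
    have i1 : ∀ v ∈ W, (a : V →ₗ[k] V) v ∈ W := by
      intro v hv
      have := W.add_mem (m1 v) hv
      rwa [sub_add_cancel] at this
    rw [dt_eq a W m1 i1]
    have h2 : (a : V →ₗ[k] V).restrict i1 = (1 + l u) • LinearMap.id := by
      ext x
      obtain ⟨v, hv⟩ := x
      obtain ⟨c, rfl⟩ := Submodule.mem_span_singleton.mp hv
      simp only [LinearMap.coe_restrict_apply, LinearEquiv.coe_coe, LinearMap.smul_apply,
        LinearMap.id_apply, Submodule.coe_smul]
      rw [h, map_smul, smul_eq_mul, add_smul, one_smul, smul_smul, mul_comm c]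
    rw [h2, LinearMap.det_smul, LinearMap.det_id, mul_one, finrank_span_singleton hu, pow_one]

/-- compatibility with an embedding: `a'` on `V'` is `a` on the image of `j` and moves no vector outside -/
theorem dt_of_intertwine {V' : Type*} [AddCommGroup V'] [Module k V'] (j : V →ₗ[k] V')
    (hj : Function.Injective j) {a : V ≃ₗ[k] V} (ha : a ∈ A0 k V) (a' : V' ≃ₗ[k] V')
    (h1 : ∀ v, a' (j v) = j (a v)) (h2 : ∀ v', ∃ v, a' v' - v' = j (a v - v)) :
    a' ∈ A0 k V' ∧ dt a' = dt a := by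
  exact dt_itw j hj ha a' h1 h2

/-- automorphisms of `A0` of determinant one -/
noncomputable def A1 (k V : Type*) [Field k] [AddCommGroup V] [Module k V] :
    Subgroup (V ≃ₗ[k] V) where
  carrier := {a | a ∈ A0 k V ∧ dt a = 1}
  one_mem' := ⟨Subgroup.one_mem _, dt_one⟩
  mul_mem' := by
    rintro a a' ⟨h, h'⟩ ⟨g, g'⟩
    exact ⟨Subgroup.mul_mem _ h g, by rw [dt_mul h g, h', g', mul_one]⟩
  inv_mem' := by
    rintro a ⟨h, h'⟩
    refine ⟨Subgroup.inv_mem _ h, ?_⟩
    have := dt_mul h (Subgroup.inv_mem _ h)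
    rw [mul_inv_cancel, dt_one, h', one_mul] at this
    exact this.symm

theorem mem_A1 {a : V ≃ₗ[k] V} : a ∈ A1 k V ↔ a ∈ A0 k V ∧ dt a = 1 := Iff.rfl

instance A1_normal : (A1 k V).Normal := ⟨fun a ha g =>
  ⟨A0_normal.conj_mem a ha.1 g, by rw [dt_conj ha.1, ha.2]⟩⟩

/-- commutators modulo `A0`: replacing `A`, `B` by elements of the same class modulo `A0` does not change the
determinant of the commutator. PROOF: `⁅A n, B⁆ = A (n (B n⁻¹ B⁻¹)) A⁻¹ ⁅A, B⁆` and `dt (n (B n⁻¹ B⁻¹)) = 1`; the same for `B`. -/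
theorem dt_comm {A B A' B' : V ≃ₗ[k] V} (h : ⁅A, B⁆ ∈ A0 k V) (hA : A⁻¹ * A' ∈ A0 k V)
    (hB : B⁻¹ * B' ∈ A0 k V) : ⁅A', B'⁆ ∈ A0 k V ∧ dt ⁅A', B'⁆ = dt ⁅A, B⁆ := by
  have s1 : ∀ X Y n : V ≃ₗ[k] V, ⁅X, Y⁆ ∈ A0 k V → n ∈ A0 k V →
      ⁅X * n, Y⁆ ∈ A0 k V ∧ dt ⁅X * n, Y⁆ = dt ⁅X, Y⁆ := by
    intro X Y n hXY hn
    have e : ⁅X * n, Y⁆ = (X * n * X⁻¹) * ((X * Y) * n⁻¹ * (X * Y)⁻¹) * ⁅X, Y⁆ := by
      simp only [commutatorElement_def]
      group
    have c1 := A0_normal.conj_mem n hn X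
    have c2 := A0_normal.conj_mem n⁻¹ (Subgroup.inv_mem _ hn) (X * Y)
    rw [e]
    refine ⟨Subgroup.mul_mem _ (Subgroup.mul_mem _ c1 c2) hXY, ?_⟩
    rw [dt_mul (Subgroup.mul_mem _ c1 c2) hXY, dt_mul c1 c2, dt_conj hn,
      dt_conj (Subgroup.inv_mem _ hn), ← dt_mul hn (Subgroup.inv_mem _ hn), mul_inv_cancel,
      dt_one, one_mul]
  have s2 : ∀ X Y n : V ≃ₗ[k] V, ⁅X, Y⁆ ∈ A0 k V → n ∈ A0 k V →
      ⁅X, Y * n⁆ ∈ A0 k V ∧ dt ⁅X, Y * n⁆ = dt ⁅X, Y⁆ := by
    intro X Y n hXY hn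
    have e : ⁅X, Y * n⁆ = ⁅X, Y⁆ * (((Y * X) * n * (Y * X)⁻¹) * (Y * n⁻¹ * Y⁻¹)) := by
      simp only [commutatorElement_def]
      group
    have c1 := A0_normal.conj_mem n hn (Y * X)
    have c2 := A0_normal.conj_mem n⁻¹ (Subgroup.inv_mem _ hn) Y
    rw [e]
    refine ⟨Subgroup.mul_mem _ hXY (Subgroup.mul_mem _ c1 c2), ?_⟩
    rw [dt_mul hXY (Subgroup.mul_mem _ c1 c2), dt_mul c1 c2, dt_conj hn,
      dt_conj (Subgroup.inv_mem _ hn), ← dt_mul hn (Subgroup.inv_mem _ hn), mul_inv_cancel,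
      dt_one, mul_one]
  obtain ⟨t1, t2⟩ := s1 A B (A⁻¹ * A') h hA
  rw [mul_inv_cancel_left] at t1 t2
  obtain ⟨t3, t4⟩ := s2 A' B (B⁻¹ * B') t1 hB
  rw [mul_inv_cancel_left] at t3 t4
  exact ⟨t3, t4.trans t2⟩

end Dt

end MSK
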