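import Pool.Agent.MSK.Gth

/-! MSK / Gel: values of automorphisms of sums of standard objects.

`Os n` (`n` in a linear order) standard objects; `Hm f`: the matrix `f` over `K` preserves all lattices. Hypotheses: nonzero endomorphisms of `Os n` are
automorphisms (`hdiv`), there are no nonzero homomorphisms `Os n → Os m` for `n < m` (`hhom`). `osum l` is the sum of the `Os n`, `n ∈ l`.
PROOF of `IsTh_osum`. Induction on the length of `l`, for all automorphisms of `osum l`. Let `n` be the smallest label of `l`; by a permutation (`osum_perm`, `IsTh_iso`) `l = n :: l'`.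
`g = [[a, b], [c, d]]` on `Os n ⊕ osum l'` (`fromBlocks`). If `a = 0`: `c : Os n → osum l'` is not `0` (`g` is invertible), its components to `Os m`, `m > n`, vanish by `hhom`, so
some component with `m = n` is not zero; let `pr : osum l' → Os n` be this projection (`osum_proj`), `E = [[1, pr], [0, 1]]`: the first entry of `E g` is
nonzero. So assume `a ≠ 0`; `a` is an automorphism. `g = [[1, 0], [c a⁻¹, 1]] [[a, 0], [0, d - c a⁻¹ b]] [[1, a⁻¹ b], [0, 1]]`. The unipotent factors have value `1`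
(`IsTh_block` with `g = g₂ = 1`, for the lower one after the swap isomorphism, `IsTh_iso`), up to `SgT` (`IsTh_unique`); the middle one has value `val a * val d'`, induction.
`osum_mem`: every typed object is isomorphic to some `osum l`, `IsTh_iso`. -/

set_option autoImplicit false
set_option linter.unusedVariables false

namespace MSK

open Matrix

universe u v w x

variable {Pl : Type v} {κ : Pl → Type w} [∀ y, Field (κ y)] {K : Type u} [Field K]
  {ψ : ∀ y, K →+* LaurentSeries (κ y)}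

variable (ψ) in
/-- homomorphisms of objects -/
def Hm (O O' : Ob κ) (f : Matrix O'.ι O.ι K) : Prop := ∀ y, LI (O'.b y) (O.b y) (f.map (ψ y))

section hm

variable {O O' O'' P P' : Ob κ}

theorem Hm_mul {g : Matrix O''.ι O'.ι K} {f : Matrix O'.ι O.ι K} (hg : Hm ψ O' O'' g)
    (hf : Hm ψ O O' f) : Hm ψ O O'' (g * f) := by
  intro y
  rw [Matrix.map_mul]
  exact LI_mul (hg y) (hf y)

theorem Hm_add {f g : Matrix O'.ι O.ι K} (hf : Hm ψ O O' f) (hg : Hm ψ O O' g) :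
    Hm ψ O O' (f + g) := by
  intro y
  rw [Matrix.map_add _ (map_add (ψ y))]
  exact LI_add (hf y) (hg y)

theorem Hm_neg {f : Matrix O'.ι O.ι K} (hf : Hm ψ O O' f) : Hm ψ O O' (-f) := by
  intro y
  have h1 : (-f).map (ψ y) = -(f.map (ψ y)) := by
    ext i j
    simp
  rw [h1]
  exact LI_neg (hf y)

theorem Hm_sub {f g : Matrix O'.ι O.ι K} (hf : Hm ψ O O' f) (hg : Hm ψ O O' g) :
    Hm ψ O O' (f - g) := by
  rw [sub_eq_add_neg]
  exact Hm_add hf (Hm_neg hg)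

theorem Hm_one : Hm ψ O O (1 : Matrix O.ι O.ι K) := by
  intro y
  rw [Matrix.map_one _ (map_zero _) (map_one _)]
  exact LI_one

theorem Hm_zero : Hm ψ O O' (0 : Matrix O'.ι O.ι K) := by
  intro y
  rw [Matrix.map_zero _ (map_zero _)]
  exact LI_zero

theorem Hm_fb {A : Matrix P.ι O.ι K} {B : Matrix P.ι O'.ι K} {C : Matrix P'.ι O.ι K}
    {D : Matrix P'.ι O'.ι K} (hA : Hm ψ O P A) (hB : Hm ψ O' P B) (hC : Hm ψ O P' C)
    (hD : Hm ψ O' P' D) : Hm ψ (O.sum O') (P.sum P') (Matrix.fromBlocks A B C D) := by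
  intro y
  have h := LI_fromBlocks (hA y) (hB y) (hC y) (hD y)
  rw [← Matrix.fromBlocks_map] at h
  exact h

theorem LI_toB {ι ι' κ' μ : Type*} [Fintype ι] [DecidableEq ι] [Fintype ι'] [DecidableEq ι']
    [Fintype κ'] [DecidableEq κ'] [Fintype μ] [DecidableEq μ] {k : Type*} [Field k]
    {b : GL ι (LaurentSeries k)} {b' : GL ι' (LaurentSeries k)} {c : GL κ' (LaurentSeries k)}
    {c' : GL μ (LaurentSeries k)} {M1 : Matrix ι κ' (LaurentSeries k)}
    {M2 : Matrix ι μ (LaurentSeries k)} {M3 : Matrix ι' κ' (LaurentSeries k)}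
    {M4 : Matrix ι' μ (LaurentSeries k)}
    (h : LI (bd b b') (bd c c') (Matrix.fromBlocks M1 M2 M3 M4)) :
    LI b c M1 ∧ LI b c' M2 ∧ LI b' c M3 ∧ LI b' c' M4 := by
  obtain ⟨N, hN⟩ := h
  rw [← Matrix.fromBlocks_toBlocks N, Matrix.fromBlocks_map, coe_bd, coe_bd_inv,
    Matrix.fromBlocks_multiply, Matrix.fromBlocks_multiply, Matrix.fromBlocks_inj] at hN
  simp only [Matrix.zero_mul, Matrix.mul_zero, add_zero, zero_add] at hN
  exact ⟨⟨_, hN.1⟩, ⟨_, hN.2.1⟩, ⟨_, hN.2.2.1⟩, ⟨_, hN.2.2.2⟩⟩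

theorem Hm_toB {A : Matrix P.ι O.ι K} {B : Matrix P.ι O'.ι K} {C : Matrix P'.ι O.ι K}
    {D : Matrix P'.ι O'.ι K}
    (h : Hm ψ (O.sum O') (P.sum P') (Matrix.fromBlocks A B C D)) :
    Hm ψ O P A ∧ Hm ψ O' P B ∧ Hm ψ O P' C ∧ Hm ψ O' P' D := by
  have key : ∀ y, _ := fun y => LI_toB (b := P.b y) (b' := P'.b y) (c := O.b y) (c' := O'.b y)
    (M1 := A.map (ψ y)) (M2 := B.map (ψ y)) (M3 := C.map (ψ y)) (M4 := D.map (ψ y)) (by
      rw [← Matrix.fromBlocks_map]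
      exact h y)
  exact ⟨fun y => (key y).1, fun y => (key y).2.1, fun y => (key y).2.2.1,
    fun y => (key y).2.2.2⟩

theorem Hm_rows {A : Matrix P.ι O.ι K} {B : Matrix P'.ι O.ι K}
    (h : Hm ψ O (P.sum P') (Matrix.fromRows A B)) : Hm ψ O P A ∧ Hm ψ O P' B := by
  have key : ∀ y, LI (P.b y) (O.b y) (A.map (ψ y)) ∧ LI (P'.b y) (O.b y) (B.map (ψ y)) := by
    intro y
    have h1 : LI (bd (P.b y) (P'.b y)) (O.b y) ((Matrix.fromRows A B).map (ψ y)) := h y
    obtain ⟨N, hN⟩ := h1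
    rw [← Matrix.fromRows_toRows N, Matrix.fromRows_map, Matrix.fromRows_map, coe_bd,
      Matrix.fromBlocks_mul_fromRows, Matrix.fromRows_mul] at hN
    simp only [Matrix.zero_mul, add_zero, zero_add] at hN
    have e1 := congrArg Matrix.toRows₁ hN
    have e2 := congrArg Matrix.toRows₂ hN
    rw [Matrix.toRows₁_fromRows, Matrix.toRows₁_fromRows] at e1
    rw [Matrix.toRows₂_fromRows, Matrix.toRows₂_fromRows] at e2
    exact ⟨⟨_, e1⟩, ⟨_, e2⟩⟩
  exact ⟨fun y => (key y).1, fun y => (key y).2⟩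

theorem Hm_cols {A : Matrix P.ι O.ι K} {B : Matrix P.ι O'.ι K}
    (hA : Hm ψ O P A) (hB : Hm ψ O' P B) : Hm ψ (O.sum O') P (Matrix.fromCols A B) := by
  intro y
  show LI (P.b y) (bd (O.b y) (O'.b y)) ((Matrix.fromCols A B).map (ψ y))
  obtain ⟨N1, h1⟩ := hA y
  obtain ⟨N2, h2⟩ := hB y
  refine ⟨Matrix.fromCols N1 N2, ?_⟩
  rw [coe_bd_inv, Matrix.fromCols_map, Matrix.fromCols_map, Matrix.mul_fromCols,
    Matrix.fromCols_mul_fromBlocks, h1, h2]
  simp only [Matrix.mul_zero, add_zero, zero_add]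

theorem gel_cast {X Y : Matrix O'.ι O.ι K} {Z : Matrix O.ι O'.ι K} (h : X = Y)
    (hX : IsoM ψ O O' X Z) : ∃ Z', IsoM ψ O O' Y Z' := by
  subst h
  exact ⟨Z, hX⟩

theorem gel_mk {A : Matrix P.ι O.ι K} {B : Matrix P.ι O'.ι K} {C : Matrix P'.ι O.ι K}
    {D : Matrix P'.ι O'.ι K} {A' : Matrix O.ι P.ι K} {B' : Matrix O.ι P'.ι K}
    {C' : Matrix O'.ι P.ι K} {D' : Matrix O'.ι P'.ι K}
    (h1 : Matrix.fromBlocks A B C D * Matrix.fromBlocks A' B' C' D' =
      (1 : Matrix (P.ι ⊕ P'.ι) (P.ι ⊕ P'.ι) K))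
    (h2 : Matrix.fromBlocks A' B' C' D' * Matrix.fromBlocks A B C D =
      (1 : Matrix (O.ι ⊕ O'.ι) (O.ι ⊕ O'.ι) K))
    (h3 : Hm ψ O P A ∧ Hm ψ O' P B ∧ Hm ψ O P' C ∧ Hm ψ O' P' D)
    (h4 : Hm ψ P O A' ∧ Hm ψ P' O B' ∧ Hm ψ P O' C' ∧ Hm ψ P' O' D') :
    IsoM ψ (O.sum O') (P.sum P') (Matrix.fromBlocks A B C D) (Matrix.fromBlocks A' B' C' D') :=
  ⟨h1, h2, Hm_fb h3.1 h3.2.1 h3.2.2.1 h3.2.2.2, Hm_fb h4.1 h4.2.1 h4.2.2.1 h4.2.2.2⟩

theorem gel_diag {A : Matrix P.ι O.ι K} {A' : Matrix O.ι P.ι K} {D : Matrix P'.ι O'.ι K}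
    {D' : Matrix O'.ι P'.ι K} (h : IsoM ψ O P A A') (h' : IsoM ψ O' P' D D') :
    IsoM ψ (O.sum O') (P.sum P') (Matrix.fromBlocks A 0 0 D) (Matrix.fromBlocks A' 0 0 D') := by
  refine gel_mk ?_ ?_ ⟨h.loc, Hm_zero, Hm_zero, h'.loc⟩ ⟨h.loc', Hm_zero, Hm_zero, h'.loc'⟩
  · rw [Matrix.fromBlocks_multiply, h.hh', h'.hh']
    simp [Matrix.fromBlocks_one]
  · rw [Matrix.fromBlocks_multiply, h.h'h, h'.h'h]
    simp [Matrix.fromBlocks_one]

theorem gel_up {X : Matrix O.ι O'.ι K} (h : Hm ψ O' O X) :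
    IsoM ψ (O.sum O') (O.sum O') (Matrix.fromBlocks 1 X 0 1) (Matrix.fromBlocks 1 (-X) 0 1) := by
  refine gel_mk ?_ ?_ ⟨Hm_one, h, Hm_zero, Hm_one⟩ ⟨Hm_one, Hm_neg h, Hm_zero, Hm_one⟩
  · rw [Matrix.fromBlocks_multiply]
    simp [Matrix.fromBlocks_one]
  · rw [Matrix.fromBlocks_multiply]
    simp [Matrix.fromBlocks_one]

theorem gel_lo {X : Matrix O'.ι O.ι K} (h : Hm ψ O O' X) :
    IsoM ψ (O.sum O') (O.sum O') (Matrix.fromBlocks 1 0 X 1) (Matrix.fromBlocks 1 0 (-X) 1) := by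
  refine gel_mk ?_ ?_ ⟨Hm_one, Hm_zero, h, Hm_one⟩ ⟨Hm_one, Hm_zero, Hm_neg h, Hm_one⟩
  · rw [Matrix.fromBlocks_multiply]
    simp [Matrix.fromBlocks_one]
  · rw [Matrix.fromBlocks_multiply]
    simp [Matrix.fromBlocks_one]

theorem gel_sw (O O' : Ob κ) : IsoM ψ (O'.sum O) (O.sum O')
    (Matrix.fromBlocks (0 : Matrix O.ι O'.ι K) 1 1 0)
    (Matrix.fromBlocks (0 : Matrix O'.ι O.ι K) 1 1 0) := by
  refine gel_mk ?_ ?_ ⟨Hm_zero, Hm_one, Hm_one, Hm_zero⟩ ⟨Hm_zero, Hm_one, Hm_one, Hm_zero⟩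
  · rw [Matrix.fromBlocks_multiply]
    simp [Matrix.fromBlocks_one]
  · rw [Matrix.fromBlocks_multiply]
    simp [Matrix.fromBlocks_one]

theorem pm1 {α β R : Type*} [Fintype α] [DecidableEq α] [Fintype β] [DecidableEq β]
    [CommRing R] (e : α ≃ β) :
    ((1 : Matrix β β R).submatrix id e) * ((1 : Matrix β β R).submatrix e id) = 1 := by
  rw [Matrix.submatrix_mul_equiv, Matrix.one_mul, Matrix.submatrix_id_id]

theorem pm2 {α β R : Type*} [Fintype α] [DecidableEq α] [Fintype β] [DecidableEq β]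
    [CommRing R] (e : α ≃ β) :
    ((1 : Matrix β β R).submatrix e id) * ((1 : Matrix β β R).submatrix id e) = 1 :=
  (Matrix.submatrix_mul_equiv (1 : Matrix β β R) 1 e (Equiv.refl β) e).trans
    (by rw [Matrix.one_mul, Matrix.submatrix_one_equiv])

/-- isomorphisms given by bijections of the index sets -/
theorem gel_perm (e : O.ι ≃ O'.ι)
    (h : ∀ y i j, (O'.b y : Matrix O'.ι O'.ι (LaurentSeries (κ y))) (e i) (e j) =
    (O.b y : Matrix O.ι O.ι (LaurentSeries (κ y))) i j) :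
    IsoM ψ O O' ((1 : Matrix O'.ι O'.ι K).submatrix id e)
      ((1 : Matrix O'.ι O'.ι K).submatrix e id) := by
  have e3 : ∀ y, (O'.b y : Matrix O'.ι O'.ι (LaurentSeries (κ y))) *
      ((1 : Matrix O'.ι O'.ι (LaurentSeries (κ y))).submatrix id e) =
      ((1 : Matrix O'.ι O'.ι (LaurentSeries (κ y))).submatrix id e) *
        (O.b y : Matrix O.ι O.ι (LaurentSeries (κ y))) := by
    intro y
    have hb : (O.b y : Matrix O.ι O.ι (LaurentSeries (κ y))) =
        (O'.b y : Matrix O'.ι O'.ι (LaurentSeries (κ y))).submatrix e e :=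
      Matrix.ext fun i j => (h y i j).symm
    rw [hb, Matrix.submatrix_mul_equiv, Matrix.one_mul]
    exact (Matrix.submatrix_mul_equiv (O'.b y : Matrix O'.ι O'.ι (LaurentSeries (κ y))) 1 id
      (Equiv.refl O'.ι) e).trans (by rw [Matrix.mul_one])
  refine ⟨pm1 e, pm2 e, fun y => ⟨(1 : Matrix O'.ι O'.ι _).submatrix id e, ?_⟩,
    fun y => ⟨(1 : Matrix O'.ι O'.ι _).submatrix e id, ?_⟩⟩
  · have m1 : ((1 : Matrix O'.ι O'.ι K).submatrix id e).map (ψ y) =
        (1 : Matrix O'.ι O'.ι (LaurentSeries (κ y))).submatrix id e := by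
      rw [← Matrix.submatrix_map, Matrix.map_one _ (map_zero _) (map_one _)]
    have m2 : ((1 : Matrix O'.ι O'.ι (PowerSeries (κ y))).submatrix id e).map (iO (κ y)) =
        (1 : Matrix O'.ι O'.ι (LaurentSeries (κ y))).submatrix id e := by
      rw [← Matrix.submatrix_map, Matrix.map_one _ (map_zero _) (map_one _)]
    rw [m1, m2, e3, Matrix.mul_assoc, GL_mul_inv, Matrix.mul_one]
  · have m1 : ((1 : Matrix O'.ι O'.ι K).submatrix e id).map (ψ y) =
        (1 : Matrix O'.ι O'.ι (LaurentSeries (κ y))).submatrix e id := by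
      rw [← Matrix.submatrix_map, Matrix.map_one _ (map_zero _) (map_one _)]
    have m2 : ((1 : Matrix O'.ι O'.ι (PowerSeries (κ y))).submatrix e id).map (iO (κ y)) =
        (1 : Matrix O'.ι O'.ι (LaurentSeries (κ y))).submatrix e id := by
      rw [← Matrix.submatrix_map, Matrix.map_one _ (map_zero _) (map_one _)]
    have e4 : (O.b y : Matrix O.ι O.ι (LaurentSeries (κ y))) *
        ((1 : Matrix O'.ι O'.ι (LaurentSeries (κ y))).submatrix e id) =
        ((1 : Matrix O'.ι O'.ι (LaurentSeries (κ y))).submatrix e id) *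
          (O'.b y : Matrix O'.ι O'.ι (LaurentSeries (κ y))) := by
      have h5 := congrArg (fun M => ((1 : Matrix O'.ι O'.ι (LaurentSeries (κ y))).submatrix e id) *
        M * ((1 : Matrix O'.ι O'.ι (LaurentSeries (κ y))).submatrix e id)) (e3 y)
      rw [Matrix.mul_assoc, Matrix.mul_assoc, pm1, Matrix.mul_one, ← Matrix.mul_assoc, pm2,
        Matrix.one_mul] at h5
      exact h5.symm
    rw [m1, m2, e4, Matrix.mul_assoc, GL_mul_inv, Matrix.mul_one]

theorem gel_emp (O : Ob κ) : IsoM ψ O (Ob.emp.sum O)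
    ((1 : Matrix (PEmpty ⊕ O.ι) (PEmpty ⊕ O.ι) K).submatrix id (Equiv.emptySum PEmpty O.ι).symm)
    ((1 : Matrix (PEmpty ⊕ O.ι) (PEmpty ⊕ O.ι) K).submatrix (Equiv.emptySum PEmpty O.ι).symm id) :=
  gel_perm (O := O) (O' := Ob.emp.sum O) (Equiv.emptySum PEmpty O.ι).symm (fun y i j => rfl)

theorem gel_assoc (O O' O'' : Ob κ) : IsoM ψ (O.sum (O'.sum O'')) ((O.sum O').sum O'')
    ((1 : Matrix ((O.ι ⊕ O'.ι) ⊕ O''.ι) ((O.ι ⊕ O'.ι) ⊕ O''.ι) K).submatrix id
      (Equiv.sumAssoc O.ι O'.ι O''.ι).symm)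
    ((1 : Matrix ((O.ι ⊕ O'.ι) ⊕ O''.ι) ((O.ι ⊕ O'.ι) ⊕ O''.ι) K).submatrix
      (Equiv.sumAssoc O.ι O'.ι O''.ι).symm id) :=
  gel_perm (O := O.sum (O'.sum O'')) (O' := (O.sum O').sum O'')
    (Equiv.sumAssoc O.ι O'.ι O''.ι).symm (fun y i j => by
      rcases i with i | i | i <;> rcases j with j | j | j <;> rfl)

/-- exchange of the first two summands -/
def swE (α β γ : Type*) : α ⊕ (β ⊕ γ) ≃ β ⊕ (α ⊕ γ) where
  toFun
    | Sum.inl a => Sum.inr (Sum.inl a)
    | Sum.inr (Sum.inl b) => Sum.inl b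
    | Sum.inr (Sum.inr c) => Sum.inr (Sum.inr c)
  invFun
    | Sum.inl b => Sum.inr (Sum.inl b)
    | Sum.inr (Sum.inl a) => Sum.inl a
    | Sum.inr (Sum.inr c) => Sum.inr (Sum.inr c)
  left_inv := by rintro (a | b | c) <;> rfl
  right_inv := by rintro (a | b | c) <;> rfl

theorem gel_swap3 (O O' O'' : Ob κ) : IsoM ψ (O.sum (O'.sum O'')) (O'.sum (O.sum O''))
    ((1 : Matrix (O'.ι ⊕ (O.ι ⊕ O''.ι)) (O'.ι ⊕ (O.ι ⊕ O''.ι)) K).submatrix id
      (swE O.ι O'.ι O''.ι))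
    ((1 : Matrix (O'.ι ⊕ (O.ι ⊕ O''.ι)) (O'.ι ⊕ (O.ι ⊕ O''.ι)) K).submatrix
      (swE O.ι O'.ι O''.ι) id) :=
  gel_perm (O := O.sum (O'.sum O'')) (O' := O'.sum (O.sum O''))
    (swE O.ι O'.ι O''.ι) (fun y i j => by
      rcases i with i | i | i <;> rcases j with j | j | j <;> rfl)

end hm

section gd

variable {O O' : Ob κ} {N : Subgroup (∀ y, (κ y)ˣ)}

theorem gd_of [Infinite K] (hN : SgT ψ ≤ N) {g : Matrix O.ι O.ι K} {a a' : ∀ y, (κ y)ˣ}
    (h : IsTh ψ O g a) (ha : a ∈ N) (h' : IsTh ψ O g a') : a' ∈ N := by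
  have h1 := N.mul_mem (hN (IsTh_unique h' h)) ha
  rwa [inv_mul_cancel_right] at h1

theorem th_up {X : Matrix O.ι O'.ι K} (h : Hm ψ O' O X) :
    IsTh ψ (O.sum O') (Matrix.fromBlocks 1 X 0 1) 1 := by
  have h1 := IsTh_block (IsTh_one O) (IsTh_one O') X h
  rwa [mul_one] at h1

theorem th_lo {X : Matrix O'.ι O.ι K} (h : Hm ψ O O' X) :
    IsTh ψ (O.sum O') (Matrix.fromBlocks 1 0 X 1) 1 := by
  have h1 := IsTh_iso (gel_sw O O') (th_up (O := O') (O' := O) h)
  have h2 : (Matrix.fromBlocks (0 : Matrix O.ι O'.ι K) (1 : Matrix O.ι O.ι K)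
      (1 : Matrix O'.ι O'.ι K) (0 : Matrix O'.ι O.ι K)) *
      (Matrix.fromBlocks (1 : Matrix O'.ι O'.ι K) X (0 : Matrix O.ι O'.ι K)
        (1 : Matrix O.ι O.ι K)) *
      (Matrix.fromBlocks (0 : Matrix O'.ι O.ι K) (1 : Matrix O'.ι O'.ι K)
        (1 : Matrix O.ι O.ι K) (0 : Matrix O.ι O'.ι K)) =
      Matrix.fromBlocks (1 : Matrix O.ι O.ι K) (0 : Matrix O.ι O'.ι K) X
        (1 : Matrix O'.ι O'.ι K) := by
    rw [Matrix.fromBlocks_multiply, Matrix.fromBlocks_multiply]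
    simp
  rw [← h2]
  exact h1

theorem gd_block [Infinite K] (hN : SgT ψ ≤ N)
    (hO : ∀ (f f' : Matrix O.ι O.ι K) (a : ∀ y, (κ y)ˣ), IsoM ψ O O f f' → IsTh ψ O f a → a ∈ N)
    (hO' : ∀ (f f' : Matrix O'.ι O'.ι K) (a : ∀ y, (κ y)ˣ), IsoM ψ O' O' f f' → IsTh ψ O' f a →
      a ∈ N)
    {A A' : Matrix O.ι O.ι K} {B : Matrix O.ι O'.ι K} {C : Matrix O'.ι O.ι K}
    {D : Matrix O'.ι O'.ι K} {g' : Matrix (O.sum O').ι (O.sum O').ι K}
    (hA : IsoM ψ O O A A')
    (hg : IsoM ψ (O.sum O') (O.sum O') (Matrix.fromBlocks A B C D) g') {a : ∀ y, (κ y)ˣ}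
    (ha : IsTh ψ (O.sum O') (Matrix.fromBlocks A B C D) a) : a ∈ N := by
  obtain ⟨-, hB, hC, hD⟩ := Hm_toB hg.loc
  have hCA : Hm ψ O O' (C * A') := Hm_mul hC hA.loc'
  have hAB : Hm ψ O' O (A' * B) := Hm_mul hA.loc' hB
  have iL := gel_lo hCA
  have iR := gel_up hAB
  have hLMR : Matrix.fromBlocks 1 0 (C * A') 1 * Matrix.fromBlocks A 0 0 (D - C * A' * B) *
      Matrix.fromBlocks 1 (A' * B) 0 1 = Matrix.fromBlocks A B C D := by
    rw [Matrix.fromBlocks_multiply, Matrix.fromBlocks_multiply]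
    simp only [Matrix.one_mul, Matrix.mul_one, Matrix.zero_mul, Matrix.mul_zero, add_zero,
      zero_add, Matrix.mul_assoc, hA.h'h]
    rw [← Matrix.mul_assoc A A' B, hA.hh', Matrix.one_mul, add_sub_cancel]
  have iM0 := IsoM_trans (IsoM_symm iR) (IsoM_trans hg (IsoM_symm iL))
  obtain ⟨M', iM⟩ : ∃ M', IsoM ψ (O.sum O') (O.sum O')
      (Matrix.fromBlocks A 0 0 (D - C * A' * B)) M' := by
    have h1 : (Matrix.fromBlocks 1 0 (-(C * A')) 1 * Matrix.fromBlocks A B C D *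
        Matrix.fromBlocks 1 (-(A' * B)) 0 1 : Matrix (O.ι ⊕ O'.ι) (O.ι ⊕ O'.ι) K) =
        Matrix.fromBlocks A 0 0 (D - C * A' * B) := by
      rw [Matrix.fromBlocks_multiply, Matrix.fromBlocks_multiply]
      simp only [Matrix.one_mul, Matrix.mul_one, Matrix.zero_mul, Matrix.mul_zero, add_zero,
        zero_add, Matrix.mul_assoc, Matrix.neg_mul, Matrix.mul_neg, hA.h'h, neg_add_cancel]
      rw [← Matrix.mul_assoc A A' B, hA.hh', Matrix.one_mul, neg_add_cancel]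
      simp
      exact neg_add_eq_sub _ _
    exact gel_cast h1 iM0
  have iD : ∃ D', IsoM ψ O' O' (D - C * A' * B) D' := by
    have h0 : M' = Matrix.fromBlocks (Matrix.toBlocks₁₁ (l := O.ι) (m := O'.ι) (n := O.ι)
        (o := O'.ι) M') (Matrix.toBlocks₁₂ (l := O.ι) (m := O'.ι) (n := O.ι)
        (o := O'.ι) M') (Matrix.toBlocks₂₁ (l := O.ι) (m := O'.ι) (n := O.ι)
        (o := O'.ι) M') (Matrix.toBlocks₂₂ (l := O.ι) (m := O'.ι) (n := O.ι)
        (o := O'.ι) M') := (Matrix.fromBlocks_toBlocks (l := O.ι) (m := O'.ι) (n := O.ι)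
        (o := O'.ι) M').symm
    have h1 : (Matrix.fromBlocks A 0 0 (D - C * A' * B) *
        Matrix.fromBlocks (Matrix.toBlocks₁₁ (l := O.ι) (m := O'.ι) (n := O.ι)
        (o := O'.ι) M') (Matrix.toBlocks₁₂ (l := O.ι) (m := O'.ι) (n := O.ι)
        (o := O'.ι) M') (Matrix.toBlocks₂₁ (l := O.ι) (m := O'.ι) (n := O.ι)
        (o := O'.ι) M') (Matrix.toBlocks₂₂ (l := O.ι) (m := O'.ι) (n := O.ι)
        (o := O'.ι) M') : Matrix (O.ι ⊕ O'.ι) (O.ι ⊕ O'.ι) K) = 1 := by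
      rw [Matrix.fromBlocks_toBlocks]
      exact iM.hh'
    have h2 : (Matrix.fromBlocks (Matrix.toBlocks₁₁ (l := O.ι) (m := O'.ι) (n := O.ι)
        (o := O'.ι) M') (Matrix.toBlocks₁₂ (l := O.ι) (m := O'.ι) (n := O.ι)
        (o := O'.ι) M') (Matrix.toBlocks₂₁ (l := O.ι) (m := O'.ι) (n := O.ι)
        (o := O'.ι) M') (Matrix.toBlocks₂₂ (l := O.ι) (m := O'.ι) (n := O.ι)
        (o := O'.ι) M') * Matrix.fromBlocks A 0 0 (D - C * A' * B) :
        Matrix (O.ι ⊕ O'.ι) (O.ι ⊕ O'.ι) K) = 1 := by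
      rw [Matrix.fromBlocks_toBlocks]
      exact iM.h'h
    have h3 := iM.loc'
    rw [h0] at h3
    obtain ⟨-, -, -, h4⟩ := Hm_toB (O := O) (O' := O') (P := O) (P' := O') h3
    rw [Matrix.fromBlocks_multiply, ← Matrix.fromBlocks_one, Matrix.fromBlocks_inj] at h1 h2
    refine ⟨_, ?_, ?_, Hm_sub hD (Hm_mul hCA hB), h4⟩
    · have h5 := h1.2.2.2
      rwa [Matrix.zero_mul, zero_add] at h5
    · have h5 := h2.2.2.2
      rwa [Matrix.mul_zero, zero_add] at h5
  obtain ⟨D', iD⟩ := iD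
  obtain ⟨x, hx⟩ := IsTh_exists hA
  obtain ⟨z, hz⟩ := IsTh_exists iD
  have hM : IsTh ψ (O.sum O') (Matrix.fromBlocks A 0 0 (D - C * A' * B)) (x * z) :=
    IsTh_block hx hz 0 Hm_zero
  have hall := IsTh_mul (IsTh_mul (th_lo hCA) hM) (th_up hAB)
  have hall' : IsTh ψ (O.sum O') (Matrix.fromBlocks A B C D) (1 * (x * z) * 1) := by
    rw [← hLMR]
    exact hall
  refine gd_of hN hall' ?_ ha
  rw [one_mul, mul_one]
  exact N.mul_mem (hO _ _ _ hA hx) (hO' _ _ _ iD hz)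

end gd

/-- iterated sums -/
noncomputable def osum {Lab : Type*} (Os : Lab → Ob κ) : List Lab → Ob κ
  | [] => Ob.emp
  | n :: l => (Os n).sum (osum Os l)

theorem osum_perm {Lab : Type*} (Os : Lab → Ob κ) {l l' : List Lab} (h : l.Perm l') :
    ∃ g g', IsoM ψ (osum Os l) (osum Os l') g g' := by
  induction h with
  | nil => exact ⟨1, 1, IsoM_refl _⟩
  | cons x _ ih =>
    obtain ⟨g, g', hg⟩ := ih
    exact ⟨_, _, gel_diag (IsoM_refl (Os x)) hg⟩
  | swap x y l => exact ⟨_, _, gel_swap3 (Os y) (Os x) (osum Os l)⟩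
  | trans _ _ ih1 ih2 =>
    obtain ⟨g, g', hg⟩ := ih1
    obtain ⟨k, k', hk⟩ := ih2
    exact ⟨_, _, IsoM_trans hg hk⟩

theorem osum_append {Lab : Type*} (Os : Lab → Ob κ) (l l' : List Lab) :
    ∃ g g', IsoM ψ (osum Os (l ++ l')) ((osum Os l).sum (osum Os l')) g g' := by
  induction l with
  | nil => exact ⟨_, _, gel_emp (osum Os l')⟩
  | cons n l ih =>
    obtain ⟨g, g', hg⟩ := ih
    exact ⟨_, _, IsoM_trans (gel_diag (IsoM_refl (Os n)) hg)
      (gel_assoc (Os n) (osum Os l) (osum Os l'))⟩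

/-- the subgroup generated by the values of the automorphisms of the standard objects -/
def ThO {Lab : Type*} (ψ : ∀ y, K →+* LaurentSeries (κ y)) (Os : Lab → Ob κ) :
    Subgroup (∀ y, (κ y)ˣ) :=
  Subgroup.closure {a | ∃ (n : Lab) (g : Matrix (Os n).ι (Os n).ι K), IsTh ψ (Os n) g a}

/-- a projection on which the first entry is not zero -/
theorem gel_proj {Lab : Type*} [LinearOrder Lab] (Os : Lab → Ob κ)
    (hhom : ∀ n m (f : Matrix (Os m).ι (Os n).ι K), n < m → Hm ψ (Os n) (Os m) f → f = 0)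
    (n : Lab) (l : List Lab) (hl : ∀ m ∈ l, n ≤ m) (c : Matrix (osum Os l).ι (Os n).ι K)
    (hc : Hm ψ (Os n) (osum Os l) c) (hc0 : c ≠ 0) :
    ∃ pr : Matrix (Os n).ι (osum Os l).ι K, Hm ψ (osum Os l) (Os n) pr ∧ pr * c ≠ 0 := by
  induction l with
  | nil =>
    exfalso
    apply hc0
    ext i j
    exact i.elim
  | cons m l ih =>
    have h0 : c = Matrix.fromRows (Matrix.toRows₁ (m₁ := (Os m).ι) (m₂ := (osum Os l).ι) c)
        (Matrix.toRows₂ (m₁ := (Os m).ι) (m₂ := (osum Os l).ι) c) :=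
      (Matrix.fromRows_toRows (m₁ := (Os m).ι) (m₂ := (osum Os l).ι) c).symm
    obtain ⟨c1, c2, hc12⟩ : ∃ (c1 : Matrix (Os m).ι (Os n).ι K)
        (c2 : Matrix (osum Os l).ι (Os n).ι K), c = Matrix.fromRows c1 c2 := ⟨_, _, h0⟩
    rw [hc12] at hc hc0
    obtain ⟨h1, h2⟩ := Hm_rows (P := Os m) (P' := osum Os l) hc
    by_cases hc1 : c1 = 0
    · have hc2 : c2 ≠ 0 := by
        rintro rfl
        apply hc0
        rw [hc1, Matrix.fromRows_zero]
        rfl
      obtain ⟨pr, hpr, hne⟩ := ih (fun k hk => hl k (List.mem_cons_of_mem _ hk)) c2 h2 hc2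
      refine ⟨Matrix.fromCols 0 pr, Hm_cols Hm_zero hpr, ?_⟩
      have e : (Matrix.fromCols (0 : Matrix (Os n).ι (Os m).ι K) pr) * (Matrix.fromRows c1 c2) =
          pr * c2 := by
        rw [Matrix.fromCols_mul_fromRows, Matrix.zero_mul, zero_add]
      rw [hc12]
      intro h3
      exact hne (e.symm.trans h3)
    · have hnm : n = m := by
        rcases (hl m (List.mem_cons_self)).lt_or_eq with h3 | h3
        · exact absurd (hhom n m c1 h3 h1) hc1
        · exact h3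
      subst hnm
      refine ⟨Matrix.fromCols 1 0, Hm_cols Hm_one Hm_zero, ?_⟩
      have e : (Matrix.fromCols (1 : Matrix (Os n).ι (Os n).ι K)
          (0 : Matrix (Os n).ι (osum Os l).ι K)) * (Matrix.fromRows c1 c2) = c1 := by
        rw [Matrix.fromCols_mul_fromRows, Matrix.zero_mul, Matrix.one_mul, add_zero]
      rw [hc12]
      intro h3
      exact hc1 (e.symm.trans h3)

theorem gel_min {Lab : Type*} [LinearOrder Lab] (l : List Lab) (hl : l ≠ []) :
    ∃ n l', l.Perm (n :: l') ∧ ∀ m ∈ l', n ≤ m := by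
  induction l with
  | nil => exact absurd rfl hl
  | cons x t ih =>
    by_cases ht : t = []
    · subst ht
      exact ⟨x, [], List.Perm.refl _, fun m hm => absurd hm (List.not_mem_nil)⟩
    · obtain ⟨n, t', h1, h2⟩ := ih ht
      rcases le_total x n with h3 | h3
      · refine ⟨x, n :: t', h1.cons x, fun m hm => ?_⟩
        rcases List.mem_cons.1 hm with rfl | hm
        · exact h3
        · exact h3.trans (h2 m hm)
      · refine ⟨n, x :: t', (h1.cons x).trans (List.Perm.swap n x t'), fun m hm => ?_⟩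
        rcases List.mem_cons.1 hm with rfl | hm
        · exact h3
        · exact h2 m hm

theorem gel_main [Infinite K] {Lab : Type*} [LinearOrder Lab] (Os : Lab → Ob κ)
    (hdiv : ∀ n (f : Matrix (Os n).ι (Os n).ι K), Hm ψ (Os n) (Os n) f → f ≠ 0 →
      ∃ f', IsoM ψ (Os n) (Os n) f f')
    (hhom : ∀ n m (f : Matrix (Os m).ι (Os n).ι K), n < m → Hm ψ (Os n) (Os m) f → f = 0)
    (k : ℕ) : ∀ (l : List Lab) (_ : l.length = k) (g : Matrix (osum Os l).ι (osum Os l).ι K)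
      (a : ∀ y, (κ y)ˣ) (_ : IsTh ψ (osum Os l) g a), a ∈ SgT ψ ⊔ ThO ψ Os := by
  have hN : SgT ψ ≤ SgT ψ ⊔ ThO ψ Os := le_sup_left
  induction k with
  | zero =>
    intro l hl g a ha
    have hl0 : l = [] := List.length_eq_zero_iff.1 hl
    subst hl0
    have hg : g = 1 := by
      ext i j
      exact i.elim
    rw [hg] at ha
    exact gd_of hN (IsTh_one _) (Subgroup.one_mem _) ha
  | succ k ih =>
    intro l hl g a ha
    obtain ⟨n, l', hp, hmin⟩ := gel_min l (by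
      rintro rfl
      simp at hl)
    have hl' : l'.length = k := by
      have h1 := hp.length_eq
      rw [hl, List.length_cons] at h1
      omega
    obtain ⟨h, h', hi⟩ := osum_perm (ψ := ψ) Os hp
    have ha1 := IsTh_iso hi ha
    obtain ⟨G', hG⟩ : ∃ G', IsoM ψ (osum Os (n :: l')) (osum Os (n :: l')) (h * g * h') G' := by
      obtain ⟨g', -, hg, -⟩ := ha1
      exact ⟨g', hg⟩
    have hO : ∀ (f f' : Matrix (Os n).ι (Os n).ι K) (a : ∀ y, (κ y)ˣ), IsoM ψ (Os n) (Os n) f f' →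
        IsTh ψ (Os n) f a → a ∈ SgT ψ ⊔ ThO ψ Os := by
      intro f f' a _ hf
      exact (le_sup_right : ThO ψ Os ≤ _) (Subgroup.subset_closure ⟨n, f, hf⟩)
    have hO' : ∀ (f f' : Matrix (osum Os l').ι (osum Os l').ι K) (a : ∀ y, (κ y)ˣ),
        IsoM ψ (osum Os l') (osum Os l') f f' → IsTh ψ (osum Os l') f a →
        a ∈ SgT ψ ⊔ ThO ψ Os := fun f f' a _ hf => ih l' hl' f a hf
    obtain ⟨A, B, C, D, hABCD⟩ : ∃ (A : Matrix (Os n).ι (Os n).ι K)
        (B : Matrix (Os n).ι (osum Os l').ι K) (C : Matrix (osum Os l').ι (Os n).ι K)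
        (D : Matrix (osum Os l').ι (osum Os l').ι K), h * g * h' = Matrix.fromBlocks A B C D :=
      ⟨_, _, _, _, (Matrix.fromBlocks_toBlocks (l := (Os n).ι) (m := (osum Os l').ι)
        (n := (Os n).ι) (o := (osum Os l').ι) (h * g * h')).symm⟩
    rw [hABCD] at ha1 hG
    by_cases h1 : (1 : Matrix (Os n).ι (Os n).ι K) = 0
    · have hA : A = 1 := by
        rw [← Matrix.mul_one A, h1, Matrix.mul_zero]
      refine gd_block hN hO hO' (A := A) (A' := 1) ?_ hG ha1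
      rw [hA]
      exact IsoM_refl _
    · obtain ⟨hAm, hBm, hCm, hDm⟩ := Hm_toB (O := Os n) (O' := osum Os l') (P := Os n)
        (P' := osum Os l') hG.loc
      by_cases hA : A = 0
      · have hC0 : C ≠ 0 := by
          intro hC0
          apply h1
          obtain ⟨P, Q, R, S, hG'⟩ : ∃ (P : Matrix (Os n).ι (Os n).ι K)
              (Q : Matrix (Os n).ι (osum Os l').ι K) (R : Matrix (osum Os l').ι (Os n).ι K)
              (S : Matrix (osum Os l').ι (osum Os l').ι K), G' = Matrix.fromBlocks P Q R S :=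
            ⟨_, _, _, _, (Matrix.fromBlocks_toBlocks (l := (Os n).ι) (m := (osum Os l').ι)
              (n := (Os n).ι) (o := (osum Os l').ι) G').symm⟩
          have h2 : (Matrix.fromBlocks P Q R S * Matrix.fromBlocks A B C D :
              Matrix ((Os n).ι ⊕ (osum Os l').ι) ((Os n).ι ⊕ (osum Os l').ι) K) = 1 := by
            rw [← hG']
            exact hG.h'h
          rw [Matrix.fromBlocks_multiply, ← Matrix.fromBlocks_one, Matrix.fromBlocks_inj] at h2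
          rw [← h2.1, hA, hC0, Matrix.mul_zero, Matrix.mul_zero, add_zero]
        obtain ⟨pr, hpr, hne⟩ := gel_proj Os hhom n l' hmin C hCm hC0
        have iE := gel_up hpr
        have e1 : (Matrix.fromBlocks 1 pr 0 1 * Matrix.fromBlocks A B C D :
            Matrix ((Os n).ι ⊕ (osum Os l').ι) ((Os n).ι ⊕ (osum Os l').ι) K) =
            Matrix.fromBlocks (pr * C) (B + pr * D) C D := by
          rw [Matrix.fromBlocks_multiply, hA]
          simp
        have iEg := IsoM_trans hG iE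
        have tEg := IsTh_mul (th_up hpr) ha1
        have iEg' : ∃ G'', IsoM ψ ((Os n).sum (osum Os l')) ((Os n).sum (osum Os l'))
            (Matrix.fromBlocks (pr * C) (B + pr * D) C D) G'' := by
          exact gel_cast e1 iEg
        have tEg' : IsTh ψ ((Os n).sum (osum Os l'))
            (Matrix.fromBlocks (pr * C) (B + pr * D) C D) (1 * a) := by
          rw [← e1]
          exact tEg
        obtain ⟨G'', iEg'⟩ := iEg'
        obtain ⟨A', hA'⟩ := hdiv n (pr * C) (Hm_mul hpr hCm) hne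
        have h3 := gd_block hN hO hO' hA' iEg' tEg'
        rwa [one_mul] at h3
      · obtain ⟨A', hA'⟩ := hdiv n A hAm hA
        exact gd_block hN hO hO' hA' hG ha1

theorem IsTh_osum [Infinite K] {Lab : Type*} [LinearOrder Lab] (Os : Lab → Ob κ)
    (hdiv : ∀ n (f : Matrix (Os n).ι (Os n).ι K), Hm ψ (Os n) (Os n) f → f ≠ 0 →
      ∃ f', IsoM ψ (Os n) (Os n) f f')
    (hhom : ∀ n m (f : Matrix (Os m).ι (Os n).ι K), n < m → Hm ψ (Os n) (Os m) f → f = 0)
    (l : List Lab) (g : Matrix (osum Os l).ι (osum Os l).ι K) (a : ∀ y, (κ y)ˣ)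
    (h : IsTh ψ (osum Os l) g a) : a ∈ SgT ψ ⊔ ThO ψ Os := by
  exact gel_main Os hdiv hhom l.length l rfl g a h

/-- the group `NT` is generated by signs, tame symbols and the values of the automorphisms of the standard objects -/
theorem NT_le [Infinite K] {X : Type x} [AddCommGroup X] (τ : Typing ψ X) {Lab : Type*}
    [LinearOrder Lab] (Os : Lab → Ob κ)
    (hdiv : ∀ n (f : Matrix (Os n).ι (Os n).ι K), Hm ψ (Os n) (Os n) f → f ≠ 0 →
      ∃ f', IsoM ψ (Os n) (Os n) f f')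
    (hhom : ∀ n m (f : Matrix (Os m).ι (Os n).ι K), n < m → Hm ψ (Os n) (Os m) f → f = 0)
    (hty : ∀ (O : Ob κ) (r : X), τ.Ty O r → ∃ l g g', IsoM ψ O (osum Os l) g g') :
    NT τ ≤ SgT ψ ⊔ ThO ψ Os := by
  unfold NT
  refine sup_le le_sup_left ?_
  unfold ThS
  rw [Subgroup.closure_le]
  rintro a ⟨O, r, g, hr, ha⟩
  obtain ⟨l, h, h', hi⟩ := hty O r hr
  exact IsTh_osum Os hdiv hhom l _ a (IsTh_iso hi ha)

end MSK
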