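import Pool.Agent.MSK.Gp3

/-! MSK / Gfin: the conclusion drawn from a relation between classes of complexes. -/

set_option autoImplicit false
set_option linter.unusedVariables false

namespace MSK

open Matrix

universe u v w x

variable {Pl : Type v} {κ : Pl → Type w} [∀ y, Field (κ y)] {K : Type u} [Field K] [Infinite K]
  {ψ : ∀ y, K →+* LaurentSeries (κ y)} {X : Type x} [AddCommGroup X] {τ : Typing ψ X}

/-- a relation between the classes of pairs of complexes with the same objects gives a relation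
between their values modulo `NT` -/
theorem prod_mem_NT {I : Type*} (s : Finset I) (N : I → ℤ) (O0 O1 : I → Ob κ) (r0 r1 : I → X)
    (ty0 : ∀ i, τ.Ty (O0 i) (r0 i)) (ty1 : ∀ i, τ.Ty (O1 i) (r1 i))
    (c c' : ∀ i, CX ψ (O0 i) (O1 i)) (z : I → ∀ y, (κ y)ˣ)
    (hz : ∀ i ∈ s, IsPsi ((c i).sum (c' i).sh) (z i))
    (h : ∑ i ∈ s, N i • (cls ⟨O0 i, O1 i, r0 i, r1 i, ty0 i, ty1 i, c i⟩ -
      cls ⟨O0 i, O1 i, r0 i, r1 i, ty0 i, ty1 i, c' i⟩) = 0) :
    ∏ i ∈ s, z i ^ N i ∈ NT τ := by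
  have h1 : ∀ i ∈ s, (preG τ).chi (N i • (cls ⟨O0 i, O1 i, r0 i, r1 i, ty0 i, ty1 i, c i⟩ -
      cls ⟨O0 i, O1 i, r0 i, r1 i, ty0 i, ty1 i, c' i⟩)) = 0 := by
    intro i hi
    rw [map_zsmul, (vl_diff (ty0 i) (ty1 i) (c i) (c' i) (hz i hi)).1, smul_zero]
  have h2 := congrArg (preG τ).vl h
  rw [(preG τ).vl_sum s _ h1, (preG τ).vl_zero] at h2
  have h3 : ∀ i ∈ s, (preG τ).vl (N i • (cls ⟨O0 i, O1 i, r0 i, r1 i, ty0 i, ty1 i, c i⟩ -
      cls ⟨O0 i, O1 i, r0 i, r1 i, ty0 i, ty1 i, c' i⟩)) =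
      N i • Additive.ofMul (QuotientGroup.mk (s := NT τ) (z i)) := by
    intro i hi
    rw [(preG τ).vl_zsmul _ (vl_diff (ty0 i) (ty1 i) (c i) (c' i) (hz i hi)).1,
      (vl_diff (ty0 i) (ty1 i) (c i) (c' i) (hz i hi)).2]
  rw [Finset.sum_congr rfl h3] at h2
  have h4 : (∏ i ∈ s, QuotientGroup.mk (s := NT τ) (z i) ^ N i) = 1 := h2
  rw [← QuotientGroup.eq_one_iff]
  rw [← h4]
  have h5 := map_prod (QuotientGroup.mk' (NT τ)) (fun i => z i ^ N i) s
  rw [QuotientGroup.mk'_apply] at h5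
  rw [h5]
  exact Finset.prod_congr rfl fun i _ => by rw [QuotientGroup.mk'_apply, QuotientGroup.mk_zpow]

end MSK
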