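import Mathlib

/-! MSK / Gg: a Grothendieck group from a partially defined additive invariant.

`v` is meaningful only for `χ = 0`. `GG` is the quotient of `𝒞` by `C ~ C'` iff `χ C = χ C'` and `v (C + E) = v (C' + E)` for all `E` with
`χ C + χ E = 0`.
PROOFS. `rel_sum`: `v (sum (sum C E) E') = v (sum C (sum E E'))` (`I_assoc`, `I_v`; `χ = 0`), the same for `C'`. Commutativity, associativity,
unit from `I_comm`, `I_assoc`, `I_emp` (`rel_of_I`: `I C C'` gives `I (sum C E) (sum C' E)`, so `v` is equal). `[C] + [sh C] = 0`: for `χ E = 0`: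
`v (sum (sum C (sh C)) E) = v (sum C (sh C)) + v E = v E` and `v (sum emp E) = v (sum E emp) = v E`. `sh` respects `~`: uniqueness of
inverses in a commutative monoid. `vl` : `v (sum C emp)` if `χ C = 0`, else `0`. `vl_inj`: if `χ C = 0` and `v C = 0` then for `χ E = 0`:
`v (sum C E) = v C + v E = v E = v (sum emp E)`. -/

set_option autoImplicit false
set_option linter.unusedVariables false

namespace MSK

universe u v w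

/-- data of a partially defined additive invariant -/
structure PreG (𝒞 : Type u) (X : Type v) (A : Type w) [AddCommGroup X] [AddCommGroup A] where
  sum : 𝒞 → 𝒞 → 𝒞
  sh : 𝒞 → 𝒞
  emp : 𝒞
  χ : 𝒞 → X
  v : 𝒞 → A
  I : 𝒞 → 𝒞 → Prop
  χ_sum : ∀ C C', χ (sum C C') = χ C + χ C'
  χ_sh : ∀ C, χ (sh C) = - χ C
  χ_emp : χ emp = 0
  I_symm : ∀ {C C'}, I C C' → I C' C
  I_χ : ∀ {C C'}, I C C' → χ C = χ C'
  I_v : ∀ {C C'}, I C C' → χ C = 0 → v C = v C'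
  I_sum : ∀ {C C'} (E), I C C' → I (sum C E) (sum C' E)
  I_comm : ∀ C C', I (sum C C') (sum C' C)
  I_assoc : ∀ C C' E, I (sum (sum C C') E) (sum C (sum C' E))
  I_emp : ∀ C, I (sum C emp) C
  v_sum : ∀ C C', χ C = 0 → χ C' = 0 → v (sum C C') = v C + v C'
  v_sh : ∀ C, v (sum C (sh C)) = 0

namespace PreG

variable {𝒞 : Type u} {X : Type v} {A : Type w} [AddCommGroup X] [AddCommGroup A]
  (Γ : PreG 𝒞 X A)

/-- the equivalence relation -/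
def Rel (C C' : 𝒞) : Prop :=
  Γ.χ C = Γ.χ C' ∧ ∀ E, Γ.χ C + Γ.χ E = 0 → Γ.v (Γ.sum C E) = Γ.v (Γ.sum C' E)

theorem rel_refl (C : 𝒞) : Γ.Rel C C := ⟨rfl, fun _ _ => rfl⟩

theorem rel_symm {C C' : 𝒞} (h : Γ.Rel C C') : Γ.Rel C' C :=
  ⟨h.1.symm, fun E hE => (h.2 E (by rw [h.1]; exact hE)).symm⟩

theorem rel_trans {C C' C'' : 𝒞} (h : Γ.Rel C C') (h' : Γ.Rel C' C'') : Γ.Rel C C'' :=
  ⟨h.1.trans h'.1, fun E hE => (h.2 E hE).trans (h'.2 E (by rw [← h.1]; exact hE))⟩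

theorem rel_of_I {C C' : 𝒞} (h : Γ.I C C') : Γ.Rel C C' :=
  ⟨Γ.I_χ h, fun E hE => Γ.I_v (Γ.I_sum E h) (by rw [Γ.χ_sum]; exact hE)⟩

theorem rel_sum {C C' : 𝒞} (E : 𝒞) (h : Γ.Rel C C') : Γ.Rel (Γ.sum C E) (Γ.sum C' E) := by
  refine ⟨by rw [Γ.χ_sum, Γ.χ_sum, h.1], fun E' hE => ?_⟩
  rw [Γ.χ_sum] at hE
  have h1 : Γ.χ (Γ.sum (Γ.sum C E) E') = 0 := by
    rw [Γ.χ_sum, Γ.χ_sum]
    exact hE
  have h2 : Γ.χ (Γ.sum (Γ.sum C' E) E') = 0 := by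
    rw [Γ.χ_sum, Γ.χ_sum, ← h.1]
    exact hE
  rw [Γ.I_v (Γ.I_assoc C E E') h1, Γ.I_v (Γ.I_assoc C' E E') h2]
  exact h.2 _ (by rw [Γ.χ_sum, ← add_assoc]; exact hE)

theorem rel_sum2 {C C' E E' : 𝒞} (h : Γ.Rel C C') (h' : Γ.Rel E E') :
    Γ.Rel (Γ.sum C E) (Γ.sum C' E') :=
  Γ.rel_trans (Γ.rel_sum E h) (Γ.rel_trans (Γ.rel_of_I (Γ.I_comm C' E))
    (Γ.rel_trans (Γ.rel_sum C' h') (Γ.rel_of_I (Γ.I_comm E' C'))))

/-- the empty object is a left unit for the values -/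
private theorem v_emp (E : 𝒞) (hE : Γ.χ E = 0) : Γ.v (Γ.sum Γ.emp E) = Γ.v E := by
  have h1 : Γ.χ (Γ.sum Γ.emp E) = 0 := by rw [Γ.χ_sum, Γ.χ_emp, zero_add, hE]
  have h2 : Γ.χ (Γ.sum E Γ.emp) = 0 := by rw [Γ.χ_sum, Γ.χ_emp, add_zero, hE]
  rw [Γ.I_v (Γ.I_comm Γ.emp E) h1, Γ.I_v (Γ.I_emp E) h2]

theorem rel_inv (C : 𝒞) : Γ.Rel (Γ.sum C (Γ.sh C)) Γ.emp := by
  have h0 : Γ.χ (Γ.sum C (Γ.sh C)) = 0 := by rw [Γ.χ_sum, Γ.χ_sh, add_neg_cancel]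
  refine ⟨by rw [h0, Γ.χ_emp], fun E hE => ?_⟩
  rw [h0, zero_add] at hE
  rw [Γ.v_sum _ _ h0 hE, Γ.v_sh, zero_add, Γ.v_emp E hE]

theorem rel_sh {C C' : 𝒞} (h : Γ.Rel C C') : Γ.Rel (Γ.sh C) (Γ.sh C') := by
  have h1 : Γ.Rel (Γ.sh C) (Γ.sum (Γ.sh C) Γ.emp) := Γ.rel_of_I (Γ.I_symm (Γ.I_emp _))
  have h2 : Γ.Rel (Γ.sum (Γ.sh C) Γ.emp) (Γ.sum (Γ.sh C) (Γ.sum C' (Γ.sh C'))) :=
    Γ.rel_sum2 (Γ.rel_refl _) (Γ.rel_symm (Γ.rel_inv C'))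
  have h3 : Γ.Rel (Γ.sum (Γ.sh C) (Γ.sum C' (Γ.sh C'))) (Γ.sum (Γ.sum (Γ.sh C) C') (Γ.sh C')) :=
    Γ.rel_of_I (Γ.I_symm (Γ.I_assoc _ _ _))
  have h4 : Γ.Rel (Γ.sum (Γ.sh C) C') Γ.emp :=
    Γ.rel_trans (Γ.rel_sum2 (Γ.rel_refl _) (Γ.rel_symm h))
      (Γ.rel_trans (Γ.rel_of_I (Γ.I_comm _ _)) (Γ.rel_inv C))
  have h5 : Γ.Rel (Γ.sum Γ.emp (Γ.sh C')) (Γ.sh C') :=
    Γ.rel_trans (Γ.rel_of_I (Γ.I_comm _ _)) (Γ.rel_of_I (Γ.I_emp _))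
  exact Γ.rel_trans h1 (Γ.rel_trans h2 (Γ.rel_trans h3 (Γ.rel_trans (Γ.rel_sum _ h4) h5)))

/-- the setoid -/
def std : Setoid 𝒞 := ⟨Γ.Rel, Γ.rel_refl, Γ.rel_symm, Γ.rel_trans⟩

/-- the group -/
def GG : Type u := Quotient Γ.std

/-- the class of an object -/
def cls (C : 𝒞) : Γ.GG := Quotient.mk Γ.std C

theorem cls_eq {C C' : 𝒞} : Γ.cls C = Γ.cls C' ↔ Γ.Rel C C' :=
  ⟨fun h => Quotient.exact (s := Γ.std) h, fun h => Quotient.sound (s := Γ.std) h⟩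

instance : Add Γ.GG := ⟨Quotient.map₂ Γ.sum (fun _ _ h _ _ h' => Γ.rel_sum2 h h')⟩

instance : Zero Γ.GG := ⟨Γ.cls Γ.emp⟩

instance : Neg Γ.GG := ⟨Quotient.map Γ.sh (fun _ _ h => Γ.rel_sh h)⟩

theorem gg_add_assoc (a b c : Γ.GG) : a + b + c = a + (b + c) := by
  rcases a with ⟨a⟩
  rcases b with ⟨b⟩
  rcases c with ⟨c⟩
  exact Γ.cls_eq.mpr (Γ.rel_of_I (Γ.I_assoc a b c))

theorem gg_add_comm (a b : Γ.GG) : a + b = b + a := by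
  rcases a with ⟨a⟩
  rcases b with ⟨b⟩
  exact Γ.cls_eq.mpr (Γ.rel_of_I (Γ.I_comm a b))

theorem gg_add_zero (a : Γ.GG) : a + 0 = a := by
  rcases a with ⟨a⟩
  exact Γ.cls_eq.mpr (Γ.rel_of_I (Γ.I_emp a))

theorem gg_neg_add (a : Γ.GG) : -a + a = 0 := by
  rcases a with ⟨a⟩
  exact Γ.cls_eq.mpr (Γ.rel_trans (Γ.rel_of_I (Γ.I_comm _ _)) (Γ.rel_inv a))

noncomputable instance : AddCommGroup Γ.GG where
  nsmul := nsmulRec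
  zsmul := zsmulRec
  add_assoc := Γ.gg_add_assoc
  zero_add := fun a => by rw [Γ.gg_add_comm, Γ.gg_add_zero]
  add_zero := Γ.gg_add_zero
  add_comm := Γ.gg_add_comm
  neg_add_cancel := Γ.gg_neg_add

theorem cls_sum (C C' : 𝒞) : Γ.cls (Γ.sum C C') = Γ.cls C + Γ.cls C' := rfl

theorem cls_sh (C : 𝒞) : Γ.cls (Γ.sh C) = - Γ.cls C := rfl

theorem cls_emp : Γ.cls Γ.emp = 0 := rfl

theorem cls_of_I {C C' : 𝒞} (h : Γ.I C C') : Γ.cls C = Γ.cls C' := Γ.cls_eq.mpr (Γ.rel_of_I h)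

/-- the Euler characteristic on the group -/
def chi : Γ.GG →+ X where
  toFun := Quotient.lift Γ.χ (fun _ _ h => h.1)
  map_zero' := Γ.χ_emp
  map_add' := by
    rintro ⟨C⟩ ⟨C'⟩
    exact Γ.χ_sum C C'

theorem chi_cls (C : 𝒞) : Γ.chi (Γ.cls C) = Γ.χ C := rfl

open Classical in
/-- the value on the kernel of `chi` (zero outside) -/
noncomputable def vl : Γ.GG → A :=
  Quotient.lift (fun C => if Γ.χ C = 0 then Γ.v (Γ.sum C Γ.emp) else 0) (by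
    intro C C' h
    have h1 : Γ.Rel C C' := h
    show (if Γ.χ C = 0 then Γ.v (Γ.sum C Γ.emp) else 0) =
      (if Γ.χ C' = 0 then Γ.v (Γ.sum C' Γ.emp) else 0)
    rw [← h1.1]
    by_cases h0 : Γ.χ C = 0
    · rw [if_pos h0, if_pos h0]
      exact h1.2 _ (by rw [h0, Γ.χ_emp, add_zero])
    · rw [if_neg h0, if_neg h0])

theorem vl_cls {C : 𝒞} (h : Γ.χ C = 0) : Γ.vl (Γ.cls C) = Γ.v C := by
  have h1 : Γ.vl (Γ.cls C) = Γ.v (Γ.sum C Γ.emp) := if_pos h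
  rw [h1]
  exact Γ.I_v (Γ.I_emp C) (by rw [Γ.χ_sum, Γ.χ_emp, add_zero, h])

theorem vl_add {g g' : Γ.GG} (h : Γ.chi g = 0) (h' : Γ.chi g' = 0) :
    Γ.vl (g + g') = Γ.vl g + Γ.vl g' := by
  rcases g with ⟨C⟩
  rcases g' with ⟨C'⟩
  have h1 : Γ.χ C = 0 := h
  have h2 : Γ.χ C' = 0 := h'
  have h3 : Γ.χ (Γ.sum C C') = 0 := by rw [Γ.χ_sum, h1, h2, add_zero]
  have e1 := Γ.vl_cls h1
  have e2 := Γ.vl_cls h2
  have e3 := Γ.vl_cls h3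
  rw [Γ.v_sum _ _ h1 h2, ← e1, ← e2] at e3
  exact e3

theorem vl_zero : Γ.vl 0 = 0 := by
  have h := Γ.vl_add (g := 0) (g' := 0) (map_zero _) (map_zero _)
  rw [add_zero] at h
  exact left_eq_add.mp h

/-- the value as a homomorphism on the kernel of `chi` -/
private noncomputable def vh : Γ.chi.ker →+ A where
  toFun g := Γ.vl g.1
  map_zero' := Γ.vl_zero
  map_add' g g' := Γ.vl_add g.2 g'.2

theorem vl_neg {g : Γ.GG} (h : Γ.chi g = 0) : Γ.vl (-g) = - Γ.vl g :=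
  map_neg Γ.vh ⟨g, h⟩

theorem vl_sum {ι : Type*} (s : Finset ι) (g : ι → Γ.GG) (h : ∀ i ∈ s, Γ.chi (g i) = 0) :
    Γ.vl (∑ i ∈ s, g i) = ∑ i ∈ s, Γ.vl (g i) := by
  classical
  induction s using Finset.induction_on with
  | empty => rw [Finset.sum_empty, Finset.sum_empty, Γ.vl_zero]
  | insert i s hi ih =>
    have h1 : ∀ j ∈ s, Γ.chi (g j) = 0 := fun j hj => h j (Finset.mem_insert_of_mem hj)
    have h2 : Γ.chi (∑ j ∈ s, g j) = 0 := by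
      rw [map_sum]
      exact Finset.sum_eq_zero h1
    rw [Finset.sum_insert hi, Finset.sum_insert hi, Γ.vl_add (h i (Finset.mem_insert_self i s)) h2,
      ih h1]

theorem vl_zsmul (n : ℤ) {g : Γ.GG} (h : Γ.chi g = 0) : Γ.vl (n • g) = n • Γ.vl g :=
  map_zsmul Γ.vh n ⟨g, h⟩

theorem vl_inj {g : Γ.GG} (h : Γ.chi g = 0) (h' : Γ.vl g = 0) : g = 0 := by
  rcases g with ⟨C⟩
  have h1 : Γ.χ C = 0 := h
  have h2 : Γ.v C = 0 := by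
    rw [← Γ.vl_cls h1]
    exact h'
  refine Γ.cls_eq.mpr ⟨by rw [h1, Γ.χ_emp], fun E hE => ?_⟩
  rw [h1, zero_add] at hE
  rw [Γ.v_sum _ _ h1 hE, h2, zero_add, Γ.v_emp E hE]

/-- the criterion for additivity: `C ⊕ C'[1] ⊕ C''[1]` has value `0` -/
theorem cls_add_of_v {C C' C'' : 𝒞} (h : Γ.χ C = Γ.χ C' + Γ.χ C'')
    (hv : Γ.v (Γ.sum C (Γ.sum (Γ.sh C') (Γ.sh C''))) = 0) :
    Γ.cls C = Γ.cls C' + Γ.cls C'' := by
  have h0 : Γ.χ (Γ.sum C (Γ.sum (Γ.sh C') (Γ.sh C''))) = 0 := by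
    rw [Γ.χ_sum, Γ.χ_sum, Γ.χ_sh, Γ.χ_sh, h]
    abel
  have h1 : Γ.cls (Γ.sum C (Γ.sum (Γ.sh C') (Γ.sh C''))) = 0 :=
    Γ.vl_inj h0 (by rw [Γ.vl_cls h0, hv])
  rw [Γ.cls_sum, Γ.cls_sum, Γ.cls_sh, Γ.cls_sh, ← neg_add, add_neg_eq_zero] at h1
  exact h1

end PreG

end MSK
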