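import Pool.Agent.MSK.Lvc

/-! MSK / Lad: the local value of a constant automorphism which is diagonal in a basis adapted to the lattice.

`h, u : GL ι k⟦X⟧`, `c : ι → kˣ` constants, `m : ι → ℤ`, lattice `b = h diag(t^m) u`, automorphism `g = h diag(c) h⁻¹`; the global lift comes from `k⟦X⟧`.
PROOF of `LA_diag`. `τ = ∏_i hh (inl i) (inr 0) (tt ^ m i)` lifts `diag(t^m)` with auxiliary coordinate `0` (`Lft_hh`, `Lft_mul`; product over a list of
all indices), `C = ∏_i hh (inl i) (inr 1) (c i)` lifts `diag(c)` with auxiliary coordinate `1` (over `k⟦X⟧`, then mapped). Choose lifts `H` of `h`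
(auxiliary `0`) and `U` of `u` (auxiliary `0`) over `k⟦X⟧` (`exists_Lft'`). `β = H τ U` lifts `b`, `l = U⁻¹ C U` lifts `u⁻¹ diag(c) u = b⁻¹ g b` (`Lft_conj`), so
`ℓ = β l β⁻¹ = H τ C τ⁻¹ H⁻¹ = ⁅τ, C⁆ * (H C H⁻¹)` up to the order (`⁅τ, C⁆ ∈ K2` is central), and `H C H⁻¹` and `G` are lifts over `k⟦X⟧` of the same
matrix: `df_iO`. So `a = del ⁅τ, C⁆`. `comm_prod`: if all commutators of the factors are central, the commutator of two products is the product
of the commutators. `⁅hh (inl i) (inr 0) x, hh (inl j) (inr 1) y⁆ = 1` for `i ≠ j` (generators with disjoint indices commute) and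
`= cc (inl i) (inr 0) x y` for `i = j` (`cc_eq_comm`), `del (cc (tt ^ m) (c)) = (c ^ m)⁻¹` (`del_cc_right`). -/

set_option autoImplicit false
set_option linter.unusedVariables false

namespace MSK

open Matrix

open scoped commutatorElement

private theorem lad_central {G : Type*} [Group G] {α : Type*} (l : List α) (f : α → G)
    (h : ∀ a, ∀ x : G, Commute (f a) x) (x : G) : Commute (l.map f).prod x := by
  induction l with
  | nil => exact Commute.one_left x
  | cons a l ih =>
    rw [List.map_cons, List.prod_cons]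
    exact (h a x).mul_left ih

private theorem lad_right {G : Type*} [Group G] {α : Type*} (l : List α) (x : G) (g : α → G)
    (h : ∀ b, ∀ y : G, Commute ⁅x, g b⁆ y) :
    ⁅x, (l.map g).prod⁆ = (l.map fun b => ⁅x, g b⁆).prod := by
  induction l with
  | nil => exact commutatorElement_one_right x
  | cons a l ih =>
    rw [List.map_cons, List.prod_cons, List.map_cons, List.prod_cons, ← ih]
    have h1 : ⁅x, g a * (l.map g).prod⁆ = ⁅x, g a⁆ * (g a * ⁅x, (l.map g).prod⁆ * (g a)⁻¹) := by
      simp only [commutatorElement_def]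
      group
    have h2 : Commute ⁅x, (l.map g).prod⁆ (g a) := by
      rw [ih]
      exact lad_central l _ h (g a)
    rw [h1, ← h2.eq, mul_inv_cancel_right]

private theorem lad_left {G : Type*} [Group G] {α : Type*} (l : List α) (f : α → G) (y : G)
    (h : ∀ a, ∀ z : G, Commute ⁅f a, y⁆ z) :
    ⁅(l.map f).prod, y⁆ = (l.map fun a => ⁅f a, y⁆).prod := by
  induction l with
  | nil => exact commutatorElement_one_left y
  | cons a l ih =>
    rw [List.map_cons, List.prod_cons, List.map_cons, List.prod_cons, ← ih]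
    have h1 : ⁅f a * (l.map f).prod, y⁆ = f a * ⁅(l.map f).prod, y⁆ * (f a)⁻¹ * ⁅f a, y⁆ := by
      simp only [commutatorElement_def]
      group
    have h2 : Commute ⁅(l.map f).prod, y⁆ (f a) := by
      rw [ih]
      exact lad_central l _ h (f a)
    rw [h1, ← h2.eq, mul_inv_cancel_right]
    exact (h a _).symm.eq

/-- commutators of products -/
theorem comm_prod {G : Type*} [Group G] {α : Type*} (l l' : List α) (f g : α → G)
    (h : ∀ a b, ∀ x : G, Commute ⁅f a, g b⁆ x) :
    ⁅(l.map f).prod, (l'.map g).prod⁆ = (l.map fun a => (l'.map fun b => ⁅f a, g b⁆).prod).prod := by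
  have h1 : ∀ a, ⁅f a, (l'.map g).prod⁆ = (l'.map fun b => ⁅f a, g b⁆).prod :=
    fun a => lad_right l' (f a) g (h a)
  rw [lad_left l f _ (fun a x => by
    rw [h1]
    exact lad_central l' _ (h a) x)]
  simp only [h1]

/-- generators with disjoint indices commute -/
theorem hh_comm_of_disjoint {J : Type*} [DecidableEq J] {R : Type*} [CommRing R] (i j l m : J)
    (h1 : i ≠ l) (h2 : i ≠ m) (h3 : j ≠ l) (h4 : j ≠ m) (u v : Rˣ) :
    Commute (hh i j u : St J R) (hh l m v) := by
  have key : ∀ (a b : R) (p q : J), (p = l ∧ q = m) ∨ (p = m ∧ q = l) →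
      Commute (x i j a : St J R) (x p q b) ∧ Commute (x j i a : St J R) (x p q b) := by
    rintro a b p q (⟨rfl, rfl⟩ | ⟨rfl, rfl⟩)
    · exact ⟨x_comm _ _ _ _ _ _ h3 h2, x_comm _ _ _ _ _ _ h1 h4⟩
    · exact ⟨x_comm _ _ _ _ _ _ h4 h1, x_comm _ _ _ _ _ _ h2 h3⟩
  have hw : ∀ (a : Rˣ) (b : Rˣ), Commute (ww i j a : St J R) (ww l m b) := by
    intro a b
    have k1 : ∀ (c : R) (p q : J), (p = l ∧ q = m) ∨ (p = m ∧ q = l) →
        Commute (ww i j a : St J R) (x p q c) := by
      intro c p q hpq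
      exact ((key _ c p q hpq).1.mul_left (key _ c p q hpq).2).mul_left (key _ c p q hpq).1
    exact ((k1 _ l m (Or.inl ⟨rfl, rfl⟩)).mul_right (k1 _ m l (Or.inr ⟨rfl, rfl⟩))).mul_right
      (k1 _ l m (Or.inl ⟨rfl, rfl⟩))
  exact ((hw u v).mul_right (hw u (-1))).mul_left ((hw (-1) v).mul_right (hw (-1) (-1)))

variable {ι : Type*} [Fintype ι] [DecidableEq ι] {k : Type*} [Field k]

/-- diagonal matrices -/
def dg {R : Type*} [CommRing R] (c : ι → Rˣ) : GL ι R where
  val := Matrix.diagonal fun i => ((c i : Rˣ) : R)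
  inv := Matrix.diagonal fun i => (((c i)⁻¹ : Rˣ) : R)
  val_inv := by
    rw [Matrix.diagonal_mul_diagonal]
    simp
  inv_val := by
    rw [Matrix.diagonal_mul_diagonal]
    simp

private theorem dg_mul {R : Type*} [CommRing R] (c c' : ι → Rˣ) : dg (c * c') = dg c * dg c' := by
  apply Units.ext
  show Matrix.diagonal _ = Matrix.diagonal _ * Matrix.diagonal _
  rw [Matrix.diagonal_mul_diagonal]
  rfl

/-- diagonal matrices, as a homomorphism -/
private def dgH {R : Type*} [CommRing R] : (ι → Rˣ) →* GL ι R :=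
  MonoidHom.mk' dg dg_mul

private theorem dg_comm {R : Type*} [CommRing R] (c c' : ι → Rˣ) :
    dg c * dg c' = dg c' * dg c := by
  rw [← dg_mul, ← dg_mul, mul_comm]

/-- the lift of a diagonal matrix -/
theorem Lft_dg {R : Type*} [CommRing R] (n : ℕ) (c : ι → Rˣ) :
    Lft n (dg c) (((Finset.univ : Finset ι).toList.map fun i =>
      (hh (Sum.inl i) (Sum.inr n) (c i) : St (ι ⊕ ℕ) R)).prod) := by
  have h1 : ∀ l : List ι, Lft n ((l.map fun i => dgH (R := R) (fun j => if j = i then c i else 1)).prod)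
      ((l.map fun i => (hh (Sum.inl i) (Sum.inr n) (c i) : St (ι ⊕ ℕ) R)).prod) := by
    intro l
    induction l with
    | nil => exact Lft_one n
    | cons i l ih =>
      rw [List.map_cons, List.prod_cons, List.map_cons, List.prod_cons]
      refine Lft_mul (Lft_hh n i (c i) _ ?_) ih
      show Matrix.diagonal (fun j => (((if j = i then c i else 1 : Rˣ)) : R)) = _
      congr 1
      funext j
      split_ifs <;> simp
  have h2 : (((Finset.univ : Finset ι).toList.map fun i =>
      dgH (R := R) (fun j => if j = i then c i else 1)).prod) = dg c := by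
    have e1 : (((Finset.univ : Finset ι).toList.map fun i =>
        dgH (R := R) (fun j => if j = i then c i else 1)).prod) =
        dgH (R := R) (((Finset.univ : Finset ι).toList.map fun i =>
          (fun j => if j = i then c i else 1 : ι → Rˣ)).prod) := by
      rw [map_list_prod, List.map_map]
      rfl
    rw [e1, Finset.prod_map_toList]
    show dg _ = dg c
    congr 1
    funext j
    rw [Finset.prod_apply, Finset.prod_ite_eq Finset.univ j c, if_pos (Finset.mem_univ j)]
  rw [← h2]
  exact h1 _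

/-- constants -/
noncomputable def uC (c : kˣ) : (PowerSeries k)ˣ := Units.map (PowerSeries.C (R := k)).toMonoidHom c

private theorem lad_sel {G : Type*} [Group G] {α : Type*} [DecidableEq α] (l : List α)
    (hl : l.Nodup) (i : α) (hi : i ∈ l) (z : G) :
    (l.map fun j => if j = i then z else 1).prod = z := by
  induction l with
  | nil => simp at hi
  | cons a l ih =>
    rw [List.map_cons, List.prod_cons]
    rw [List.nodup_cons] at hl
    rcases eq_or_ne a i with rfl | hai
    · have h1 : (l.map fun j => if j = a then z else 1).prod = 1 := by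
        refine List.prod_eq_one fun y hy => ?_
        obtain ⟨j, hj, rfl⟩ := List.mem_map.1 hy
        rw [if_neg]
        rintro rfl
        exact hl.1 hj
      rw [h1, if_pos rfl, mul_one]
    · rw [if_neg hai, one_mul]
      exact ih hl.2 ((List.mem_cons.1 hi).resolve_left hai.symm)

theorem LA_diag (h u : GL ι (PowerSeries k)) (c : ι → kˣ) (m : ι → ℤ)
    {G : St (ι ⊕ ℕ) (PowerSeries k)}
    (hG : Lft 1 (h * dg (fun i => uC (c i)) * h⁻¹ : GL ι (PowerSeries k)) G)
    {b : GL ι (LaurentSeries k)}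
    (hb : b = Matrix.GeneralLinearGroup.map (iO k) h * dg (fun i => tt k ^ m i) *
      Matrix.GeneralLinearGroup.map (iO k) u)
    {g : Matrix ι ι (LaurentSeries k)}
    (hg : g = ((h * dg (fun i => uC (c i)) * h⁻¹ : GL ι (PowerSeries k)) :
      Matrix ι ι (PowerSeries k)).map (iO k)) :
    LA b g (map (iO k) G) (∏ i, (c i ^ m i)⁻¹) := by
  obtain ⟨H, hH⟩ := exists_Lft' 0 h
  obtain ⟨U, hU⟩ := exists_Lft' 0 u
  have hτ := Lft_dg 0 (fun i => tt k ^ m i)
  obtain ⟨τ, hτd⟩ : ∃ τ : St (ι ⊕ ℕ) (LaurentSeries k), τ = ((Finset.univ : Finset ι).toList.map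
    fun i => (hh (Sum.inl i) (Sum.inr 0) (tt k ^ m i) : St (ι ⊕ ℕ) (LaurentSeries k))).prod :=
    ⟨_, rfl⟩
  rw [← hτd] at hτ
  have hC := Lft_dg 1 (fun i => uC (c i))
  obtain ⟨C, hCd⟩ : ∃ C : St (ι ⊕ ℕ) (PowerSeries k), C = ((Finset.univ : Finset ι).toList.map
    fun i => (hh (Sum.inl i) (Sum.inr 1) (uC (c i)) : St (ι ⊕ ℕ) (PowerSeries k))).prod :=
    ⟨_, rfl⟩
  rw [← hCd] at hC
  have hβ : Lft 0 b (map (iO k) H * τ * map (iO k) U) := by
    rw [hb]
    exact Lft_mul (Lft_mul (Lft_map (iO k) hH) hτ) (Lft_map (iO k) hU)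
  have hl : Lft 1 (u⁻¹ * dg (fun i => uC (c i)) * u) (U⁻¹ * C * U) := by
    have h1 := Lft_conj hC (Lft_inv hU)
    rwa [inv_inv, inv_inv] at h1
  have hmapdg : Matrix.GeneralLinearGroup.map (iO k) (dg (fun i => uC (c i))) =
      (dg (fun i => uO (uC (c i))) : GL ι (LaurentSeries k)) := by
    apply Units.ext
    show (Matrix.diagonal _).map (iO k) = Matrix.diagonal _
    rw [Matrix.diagonal_map (map_zero (iO k))]
    rfl
  have hgm : Matrix.GeneralLinearGroup.map (iO k) (h * dg (fun i => uC (c i)) * h⁻¹) =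
      b * Matrix.GeneralLinearGroup.map (iO k) (u⁻¹ * dg (fun i => uC (c i)) * u) * b⁻¹ := by
    rw [hb, map_mul, map_mul, map_mul, map_mul, map_inv, map_inv, hmapdg]
    have e := dg_comm (fun i => tt k ^ m i) (fun i => uO (uC (c i)))
    have e2 : dg (fun i => uO (uC (c i))) = dg (fun i => tt k ^ m i) * dg (fun i => uO (uC (c i))) *
        (dg (fun i => tt k ^ m i) : GL ι (LaurentSeries k))⁻¹ := by
      rw [e, mul_inv_cancel_right]
    conv_lhs => rw [e2]
    group
  -- the commutator
  obtain ⟨K, hK⟩ : ∃ K : St (ι ⊕ ℕ) (LaurentSeries k), K = ((Finset.univ : Finset ι).toList.map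
    fun i => (cc (Sum.inl i) (Sum.inr 0) (tt k ^ m i) (uO (uC (c i))) :
      St (ι ⊕ ℕ) (LaurentSeries k))).prod := ⟨_, rfl⟩
  have hne : ∀ (i : ι) (n : ℕ), (Sum.inl i : ι ⊕ ℕ) ≠ Sum.inr n := fun i n => Sum.inl_ne_inr
  have h01 : (Sum.inr 0 : ι ⊕ ℕ) ≠ Sum.inr 1 := by simp
  have hcc : ∀ i j : ι, ⁅(hh (Sum.inl i) (Sum.inr 0) (tt k ^ m i) : St (ι ⊕ ℕ) (LaurentSeries k)),
      hh (Sum.inl j) (Sum.inr 1) (uO (uC (c j)))⁆ =
        if j = i then cc (Sum.inl i) (Sum.inr 0) (tt k ^ m i) (uO (uC (c i))) else 1 := by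
    intro i j
    split_ifs with hij
    · rw [hij]
      exact (cc_eq_comm _ _ _ (hne i 0) (hne i 1) h01 _ _).symm
    · rw [commutatorElement_eq_one_iff_commute]
      exact hh_comm_of_disjoint _ _ _ _ (fun e => hij (Sum.inl_injective e).symm) (hne i 1)
        (hne j 0).symm h01 _ _
  have hccK : ∀ i : ι, (cc (Sum.inl i) (Sum.inr 0) (tt k ^ m i) (uO (uC (c i))) :
      St (ι ⊕ ℕ) (LaurentSeries k)) ∈ K2 (ι ⊕ ℕ) (LaurentSeries k) :=
    fun i => cc_mem_K2 _ _ (hne i 0) _ _
  have hKK : K ∈ K2 (ι ⊕ ℕ) (LaurentSeries k) := by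
    rw [hK]
    refine Subgroup.list_prod_mem _ fun y hy => ?_
    obtain ⟨i, _, rfl⟩ := List.mem_map.1 hy
    exact hccK i
  have hmapC : map (iO k) C = ((Finset.univ : Finset ι).toList.map
      fun i => (hh (Sum.inl i) (Sum.inr 1) (uO (uC (c i))) :
        St (ι ⊕ ℕ) (LaurentSeries k))).prod := by
    rw [hCd, map_list_prod, List.map_map]
    congr 1
    refine List.map_congr_left fun i _ => ?_
    exact map_hh (iO k) _ _ _
  have hcomm : ⁅τ, map (iO k) C⁆ = K := by
    rw [hτd, hmapC, comm_prod _ _ _ _ (fun i j y => by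
      rw [hcc]
      split_ifs
      · exact K2_central (hccK i) y
      · exact Commute.one_left y), hK]
    congr 1
    refine List.map_congr_left fun i _ => ?_
    simp only [hcc]
    exact lad_sel _ (Finset.nodup_toList _) i (Finset.mem_toList.2 (Finset.mem_univ i)) _
  have hdelK : del K = ∏ i, (c i ^ m i)⁻¹ := by
    have h1 : ∀ l : List ι, del ((l.map fun i => (cc (Sum.inl i) (Sum.inr 0) (tt k ^ m i)
        (uO (uC (c i))) : St (ι ⊕ ℕ) (LaurentSeries k))).prod) =
        (l.map fun i => (c i ^ m i)⁻¹).prod := by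
      intro l
      induction l with
      | nil => exact del_one
      | cons i l ih =>
        rw [List.map_cons, List.prod_cons, List.map_cons, List.prod_cons, del_mul (hccK i), ih]
        · congr 1
          have h2 := del_cc_right (k := k) (Sum.inl i : ι ⊕ ℕ) (Sum.inr 0) (hne i 0) (uC (c i))
            (m i) 1
          have h3 : uO (1 : (PowerSeries k)ˣ) = 1 := map_one _
          have h4 : c0 (uC (c i)) = c i := by
            apply Units.ext
            show PowerSeries.constantCoeff (PowerSeries.C (c i : k)) = _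
            exact PowerSeries.constantCoeff_C _
          rw [h3, mul_one, h4] at h2
          exact h2
        · refine Subgroup.list_prod_mem _ fun y hy => ?_
          obtain ⟨i, _, rfl⟩ := List.mem_map.1 hy
          exact hccK i
    rw [hK, h1, Finset.prod_map_toList]
  refine ⟨map (iO k) H * τ * map (iO k) U * map (iO k) (U⁻¹ * C * U) *
    (map (iO k) H * τ * map (iO k) U)⁻¹ * 1, ⟨_, _, _, 1, hβ, hl, ?_, Subgroup.one_mem _, del_one,
      rfl⟩, ?_⟩
  · rw [hg]
    exact congrArg Units.val hgm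
  · have hL1 : Lft 1 (h * dg (fun i => uC (c i)) * h⁻¹) (H * C * H⁻¹) := Lft_conj hC hH
    have e1 : map (iO k) H * τ * map (iO k) U * map (iO k) (U⁻¹ * C * U) *
        (map (iO k) H * τ * map (iO k) U)⁻¹ * 1 = K * map (iO k) (H * C * H⁻¹) := by
      have e2 : map (iO k) H * τ * map (iO k) U * map (iO k) (U⁻¹ * C * U) *
          (map (iO k) H * τ * map (iO k) U)⁻¹ * 1 =
          map (iO k) H * ⁅τ, map (iO k) C⁆ * map (iO k) C * (map (iO k) H)⁻¹ := by
        simp only [map_mul, map_inv, commutatorElement_def]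
        group
      rw [e2, hcomm, ← K2_central hKK (map (iO k) H), map_mul, map_mul, map_inv]
      group
    have hmem : map (iO k) (H * C * H⁻¹) * (map (iO k) G)⁻¹ ∈ K2 (ι ⊕ ℕ) (LaurentSeries k) :=
      Lft_mul_inv_mem (Lft_map (iO k) hL1) (Lft_map (iO k) hG)
    have hdel : del (map (iO k) (H * C * H⁻¹) * (map (iO k) G)⁻¹) = 1 := by
      rw [← map_inv, ← map_mul]
      exact del_iO (Lft_mul_inv_mem hL1 hG)
    unfold df
    rw [e1, mul_assoc, del_mul hKK hmem, hdel, hdelK, mul_one]

end MSK
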