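import Pool.Agent.MSK.Lvs
import Pool.Agent.MSK.Lad

/-! MSK / Kz: the local value of a pair of Koszul complexes.

`ι = κ = Fin 2`. Koszul complex of `(y, g)`, `P₀ = O_0 ⊕ O_{a+b}`, `P₁ = O_a ⊕ O_b`: `D1 = [[y, g], [0, 0]]`, `D0 = [[0, -g], [0, y]]`.
Contractions: `y` invertible: `s0 = [[y⁻¹, 0], [0, 0]]`, `s1 = [[0, 0], [0, y⁻¹]]`; `g` invertible: `s0 = [[0, 0], [g⁻¹, 0]]`,
`s1 = [[0, 0], [-g⁻¹, 0]]`. With `s` the first and `F, r` the same for `(y, h)`: `(D1 + s1)(F0 + r0) = [[1, y (g - h)], [0, 1]]`, lifted by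
`R = x (inl 0) (inl 1) (y (g - h))`. Lattices: `b0 = diag(1, u v)`, `b1 = diag(u, v)`, so in the lattice `y` is `y u` and `g` is `g v`.

`LS_unit` (`y u` a unit): take `t = s`, `w = r`, `ℓ = R` (a local lift: `x` of `Lam` type, `y (g - h) u v` integral): all `Lam` are `1`, `z = df R R = 1`.
`LS_div` (`g v`, `h v` units): `t` = the second contraction for `g`, `w` the second for `h`. `D1 (s0 - t0) = 0` and `F1 (r0 - w0) = 0`, so `L0 = L0' = 1`.
`ρ_t = (D1 + t1)(F0 + w0) = [[g/h, y (g - h)], [0, h/g]]`. Put `τ = h/g`, `a = y (h - g)`. `F1 + r1 = [[y, h], [0, y⁻¹]]`, `F0 + r0 = [[y⁻¹, -h], [0, y]]`;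
`D0 (s1 - t1) t0 = ` column `(-g, y)` times row; in total `Λ = Lam (..) (..) = T (a, 1) (1/(g y), (g-h)/g)` (vectors on the coordinates `inl 0, inl 1`)
`= x_01(a) x_10(1/(g y)) x_01(-a)`, `Λ' = T (0, 1) (1/(h y), 0) = x_10(1/(h y))` (both by `Lam_unique`/`LamF_unique` from the action, or by `Lam_mul`: the middle
index can be reduced to one element). So `z = df (ℓ x_10(-1/(h y)) x_01(a) x_10(1/(g y)) x_01(-a)) x_01(-a) = df (ℓ x_10(-1/(h y)) x_01(a) x_10(1/(g y))) 1`.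
If `g = h`: `ℓ x_10(..)⁻¹ x_10(..) = ℓ`, `ρ_t = 1`, value `1`. Otherwise `rank_two` (`a ≠ 0`, `b = 1/(g y)`, `t = 1 + a b = h/g = τ`, `b/t = 1/(h y)`):
`x_01(a) x_10(1/(g y)) = x_10(1/(h y)) (ww a * ww (-(a/τ))) x_01(a/τ)`, and `ww a * ww (-(a/τ)) = hh a (hh (a/τ))⁻¹ = (cc τ (a/τ))⁻¹ hh τ` (`ww_neg`, definition of `cc`, centrality).
So the argument is `ℓ (cc τ (a/τ))⁻¹ hh τ x_01(a/τ)`. Local lift `ℓ` of `ρ_t`: `ℓ⁻¹` is a local lift of `[[τ, a], [0, τ⁻¹]]`, take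
`ℓ⁻¹ = (β hh_01(τ₀) β⁻¹) x_01(a/τ)` with `τ₀` the unit `τ` of `k⟦X⟧` and `β = hh (inl 1) (inr 0) (u v)` (lifts `b0`, `Lft_hh`), `x_01(a/τ)` is local. Then the argument is
`x_01(-a/τ) (β hh τ β⁻¹)⁻¹ (cc τ (a/τ))⁻¹ hh τ x_01(a/τ) = ⁅β, hh τ⁆⁻¹ (cc τ (a/τ))⁻¹` (central), `⁅β, hh_01 τ⁆ = ⁅hh (inl 1) (inr 0) (u v), (hh (inl 1) (inl 0) τ)⁻¹⁆ =
(cc (u v) τ)⁻¹` (`hh_mul_hh_swap`, `cc_eq_comm`), so the value is `del (cc (u v) τ) * del (cc τ (a/τ))⁻¹ = τ̄ ^ (-ord (u v)) * τ̄ ^ (-ord (a/τ)) = τ̄ ^ (-ord (u v a))`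
(`del_cc_left`, `del_cc_right`), `u v a = (y u) (v (h - g))`, and `τ̄ ^ ord (v (h - g)) = 1` (if the order is positive then `h v = g v` modulo `t` and `τ̄ = 1`). So
`z = τ̄ ^ (-ord (y u)) = (ḡ/h̄) ^ ord (y u)`. -/

set_option autoImplicit false
set_option linter.unusedVariables false

namespace MSK

open Matrix

/-- Koszul differentials -/
def kD0 {R : Type*} [CommRing R] (y g : R) : Matrix (Fin 2) (Fin 2) R := !![0, -g; 0, y]

/-- Koszul differentials -/
def kD1 {R : Type*} [CommRing R] (y g : R) : Matrix (Fin 2) (Fin 2) R := !![y, g; 0, 0]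

/-- contraction (`y' = y⁻¹`) -/
def kS0 {R : Type*} [CommRing R] (y' : R) : Matrix (Fin 2) (Fin 2) R := !![y', 0; 0, 0]

/-- contraction (`y' = y⁻¹`) -/
def kS1 {R : Type*} [CommRing R] (y' : R) : Matrix (Fin 2) (Fin 2) R := !![0, 0; 0, y']

/-- contraction (`g' = g⁻¹`) -/
def kT0 {R : Type*} [CommRing R] (g' : R) : Matrix (Fin 2) (Fin 2) R := !![0, 0; g', 0]

/-- contraction (`g' = g⁻¹`) -/
def kT1 {R : Type*} [CommRing R] (g' : R) : Matrix (Fin 2) (Fin 2) R := !![0, 0; -g', 0]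

section aux

variable {R : Type*} [CommRing R]

private theorem mk2_eq {a b c d a' b' c' d' : R} (h1 : a = a') (h2 : b = b') (h3 : c = c')
    (h4 : d = d') : !![a, b; c, d] = !![a', b'; c', d'] := by
  rw [h1, h2, h3, h4]

private theorem add2 (a b c d a' b' c' d' : R) :
    !![a, b; c, d] + !![a', b'; c', d'] = !![a + a', b + b'; c + c', d + d'] := by
  ext i j
  fin_cases i <;> fin_cases j <;> rfl

private theorem sub2 (a b c d a' b' c' d' : R) :
    !![a, b; c, d] - !![a', b'; c', d'] = !![a - a', b - b'; c - c', d - d'] := by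
  ext i j
  fin_cases i <;> fin_cases j <;> rfl

private theorem neg2 (a b c d : R) : -!![a, b; c, d] = !![-a, -b; -c, -d] := by
  ext i j
  fin_cases i <;> fin_cases j <;> rfl

private theorem one2 : (1 : Matrix (Fin 2) (Fin 2) R) = !![1, 0; 0, 1] := Matrix.one_fin_two

private theorem zero2 : (0 : Matrix (Fin 2) (Fin 2) R) = !![0, 0; 0, 0] := by
  ext i j
  fin_cases i <;> fin_cases j <;> rfl

private theorem ev_two (v : Fin 2 → R) :
    ev v = Finsupp.single (Sum.inl 0) (v 0) + Finsupp.single (Sum.inl 1) (v 1) := by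
  unfold ev
  rw [Fin.sum_univ_two]

private theorem ev_e0 (a : R) : ev ![a, 0] = Finsupp.single (Sum.inl 0) a := by
  rw [ev_two]
  simp

private theorem ev_e1 (a : R) : ev ![0, a] = Finsupp.single (Sum.inl 1) a := by
  rw [ev_two]
  simp

private theorem ne01 : (Sum.inl 0 : Fin 2 ⊕ ℕ) ≠ Sum.inl 1 := by simp

private theorem ne10 : (Sum.inl 1 : Fin 2 ⊕ ℕ) ≠ Sum.inl 0 := by simp

/-- columns -/
private def cU (v : Fin 2 → R) : Matrix (Fin 2) Unit R := fun i _ => v i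

/-- rows -/
private def rU (w : Fin 2 → R) : Matrix Unit (Fin 2) R := fun _ i => w i

private theorem Lam_U (v w : Fin 2 → R) : Lam (cU v) (rU w) = T (ev v) (ev w) := LamF_unit _ _

private theorem x01_eq (a : R) :
    (x (Sum.inl 0) (Sum.inl 1) a : St (Fin 2 ⊕ ℕ) R) = Lam (cU ![a, 0]) (rU ![0, 1]) := by
  rw [Lam_U, ev_e0, ev_e1, T_single _ _ ne01, mul_one]

private theorem rc_zero (a : R) : rU ![(0 : R), 1] * cU ![a, 0] = 0 := by
  ext i j
  simp [rU, cU, Matrix.mul_apply, Fin.sum_univ_two]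

private theorem one_add_cr (a : R) : 1 + cU ![a, 0] * rU ![(0 : R), 1] = !![1, a; 0, 1] := by
  ext i j
  fin_cases i <;> fin_cases j <;> simp [rU, cU, Matrix.mul_apply]

private theorem LftM_x01 (n : ℕ) (a : R) {M : Matrix (Fin 2) (Fin 2) R} (hM : M = !![1, a; 0, 1]) :
    LftM n M (x (Sum.inl 0) (Sum.inl 1) a : St (Fin 2 ⊕ ℕ) R) := by
  have h1 : !![1, a; 0, 1] * !![1, -a; 0, 1] = 1 := by
    rw [Matrix.mul_fin_two, one2]
    apply mk2_eq <;> ring
  have h2 : !![1, -a; 0, 1] * !![1, a; 0, 1] = 1 := by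
    rw [Matrix.mul_fin_two, one2]
    apply mk2_eq <;> ring
  refine ⟨⟨!![1, a; 0, 1], !![1, -a; 0, 1], h1, h2⟩, hM.symm, ?_⟩
  rw [x01_eq]
  exact Lft_Lam n _ _ (rc_zero a) _ (one_add_cr a).symm

/-- two by two products of transvections -/
private theorem Lam_two (p q r s : R) (h : r * p + s * q = 0) :
    Lam !![p, 0; q, 0] !![r, s; 0, 0] = T (ev ![p, q]) (ev ![r, s]) := by
  have h0 : !![r, s; 0, 0] * !![p, 0; q, 0] = 0 := by
    rw [Matrix.mul_fin_two, zero2]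
    apply mk2_eq
    · exact h
    · ring
    · ring
    · ring
  unfold Lam
  rw [LamF_perm _ _ (ort_of _ _ h0) [0, 1] (by simp) (by intro m; fin_cases m <;> simp)]
  have e1 : (fun i => !![p, 0; q, 0] i 0) = ![p, q] := by
    funext i
    fin_cases i <;> rfl
  have e2 : (fun i => !![r, s; 0, 0] 0 i) = ![r, s] := by
    funext i
    fin_cases i <;> rfl
  have e3 : (fun i => !![p, 0; q, 0] i 1) = (0 : Fin 2 → R) := by
    funext i
    fin_cases i <;> rfl
  rw [List.map_cons, List.map_cons, List.map_nil, List.prod_cons, List.prod_cons, List.prod_nil,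
    e1, e2, e3, ev_zero, T_zero_left, mul_one, mul_one]

end aux

theorem IsC_kS {R : Type*} [CommRing R] (y y' g : R) (h : y * y' = 1) :
    IsC (kD0 y g) (kD1 y g) (kS0 y') (kS1 y') := by
  unfold kD0 kD1 kS0 kS1
  refine ⟨?_, ?_, ?_, ?_, ?_, ?_⟩
  · rw [Matrix.mul_fin_two, zero2]
    apply mk2_eq <;> ring
  · rw [Matrix.mul_fin_two, zero2]
    apply mk2_eq <;> ring
  · rw [Matrix.mul_fin_two, Matrix.mul_fin_two, add2, one2]
    apply mk2_eq
    · linear_combination h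
    · ring
    · ring
    · linear_combination h
  · rw [Matrix.mul_fin_two, Matrix.mul_fin_two, add2, one2]
    apply mk2_eq
    · linear_combination h
    · ring
    · ring
    · linear_combination h
  · rw [Matrix.mul_fin_two, zero2]
    apply mk2_eq <;> ring
  · rw [Matrix.mul_fin_two, zero2]
    apply mk2_eq <;> ring

theorem IsC_kT {R : Type*} [CommRing R] (y g g' : R) (h : g * g' = 1) :
    IsC (kD0 y g) (kD1 y g) (kT0 g') (kT1 g') := by
  unfold kD0 kD1 kT0 kT1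
  refine ⟨?_, ?_, ?_, ?_, ?_, ?_⟩
  · rw [Matrix.mul_fin_two, zero2]
    apply mk2_eq <;> ring
  · rw [Matrix.mul_fin_two, zero2]
    apply mk2_eq <;> ring
  · rw [Matrix.mul_fin_two, Matrix.mul_fin_two, add2, one2]
    apply mk2_eq
    · linear_combination h
    · ring
    · ring
    · linear_combination h
  · rw [Matrix.mul_fin_two, Matrix.mul_fin_two, add2, one2]
    apply mk2_eq
    · linear_combination h
    · ring
    · ring
    · linear_combination h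
  · rw [Matrix.mul_fin_two, zero2]
    apply mk2_eq <;> ring
  · rw [Matrix.mul_fin_two, zero2]
    apply mk2_eq <;> ring

theorem kRho {R : Type*} [CommRing R] (y y' g h : R) (hy : y * y' = 1) :
    LftM 1 ((kD1 y g + kS1 y') * (kD0 y h + kS0 y'))
      (x (Sum.inl 0) (Sum.inl 1) (y * (g - h)) : St (Fin 2 ⊕ ℕ) R) := by
  apply LftM_x01
  unfold kD0 kD1 kS0 kS1
  rw [add2, add2, Matrix.mul_fin_two]
  apply mk2_eq
  · linear_combination hy
  · ring
  · ring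
  · linear_combination hy

section aux2

variable {R : Type*} [CommRing R]

/-- the first correction is trivial -/
private theorem L0_kT (y y' g g' : R) (hy : y * y' = 1) (hg : g * g' = 1) :
    L0 (kD0 y g) (kD1 y g) (kT1 g') (kS0 y' - kT0 g') = 1 := by
  have h1 : kD1 y g * (kS0 y' - kT0 g') = 0 := by
    unfold kD1 kS0 kT0
    rw [sub2, Matrix.mul_fin_two, zero2]
    apply mk2_eq
    · linear_combination hy - hg
    · ring
    · ring
    · ring
  unfold L0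
  rw [h1, Matrix.zero_mul, neg_zero, Lam_zero_left]

private theorem kz_A (y y' g g' h : R) (hy : y * y' = 1) (hg : g * g' = 1) :
    (kD1 y h + kS1 y') * (kD0 y g * (kS1 y' - kT1 g') * kT0 g') =
      !![h * g' - 1, 0; y' * g', 0] := by
  unfold kD0 kD1 kS1 kT1 kT0
  rw [sub2, add2, Matrix.mul_fin_two, Matrix.mul_fin_two, Matrix.mul_fin_two]
  apply mk2_eq
  · linear_combination (h * g' - g * g') * hy - hg
  · ring
  · linear_combination y' * g' * hy
  · ring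

private theorem kz_B (y y' g h : R) (hy : y * y' = 1) :
    kD1 y g * (kD0 y h + kS0 y') = !![1, y * (g - h); 0, 0] := by
  unfold kD0 kD1 kS0
  rw [add2, Matrix.mul_fin_two]
  apply mk2_eq
  · linear_combination hy
  · ring
  · ring
  · ring

private theorem kz_Lam' (y y' h h' : R) (hy : y * y' = 1) (hh' : h * h' = 1) :
    Lam ((kD1 y h + kS1 y') * (kD0 y h * (kS1 y' - kT1 h') * kT0 h')) (kD1 y h * (kD0 y h + kS0 y')) =
      x (Sum.inl 1) (Sum.inl 0) (y' * h') := by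
  rw [kz_A y y' h h' h hy hh', kz_B y y' h h hy, hh', sub_self, sub_self, mul_zero,
    Lam_two _ _ _ _ (by ring), ev_e0, ev_e1, T_single _ _ ne10, mul_one]

private theorem kz_Lam (y y' g g' h : R) (hy : y * y' = 1) (hg : g * g' = 1) :
    Lam ((kD1 y h + kS1 y') * (kD0 y g * (kS1 y' - kT1 g') * kT0 g')) (kD1 y g * (kD0 y h + kS0 y')) =
      x (Sum.inl 0) (Sum.inl 1) (y * (h - g)) * x (Sum.inl 1) (Sum.inl 0) (y' * g') *
        (x (Sum.inl 0) (Sum.inl 1) (y * (h - g)))⁻¹ := by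
  have e : (x (Sum.inl 1) (Sum.inl 0) (y' * g') : St (Fin 2 ⊕ ℕ) R) =
      T (ev ![0, 1]) (ev ![y' * g', 0]) := by
    rw [ev_e0, ev_e1, T_single _ _ ne10, one_mul]
  have h0 : dot (ev ![y' * g', 0]) (ev ![0, 1]) = 0 := by
    rw [dot_ev]
    simp
  rw [e, conj_T _ _ _ h0, kz_A y y' g g' h hy hg, kz_B y y' g h hy,
    Lam_two _ _ _ _ (by linear_combination (g - h) * g' * hy + hg), phi_x, psi_x,
    tv_apply _ _ ne01, tv_apply _ _ ne10, ev_inl, ev_inl]
  have e1 : ev ![(0 : R), 1] + Finsupp.single (Sum.inl 0) (y * (h - g) * ![(0 : R), 1] 1) =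
      ev ![y * (h - g), 1] := by
    rw [← ev_e0, ← ev_add]
    congr 1
    funext i
    fin_cases i <;> simp
  have e2 : ev ![y' * g', 0] + Finsupp.single (Sum.inl 1) (-(y * (h - g)) * ![y' * g', 0] 0) =
      (y' * g') • ev ![(1 : R), y * (g - h)] := by
    rw [← ev_e1, ← ev_add, ← ev_smul]
    congr 1
    funext i
    fin_cases i
    · simp
    · simp
      ring
  rw [e1, e2]
  have e3 : ev ![h * g' - 1, y' * g'] = (y' * g') • ev ![y * (h - g), 1] := by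
    rw [← ev_smul]
    congr 1
    funext i
    fin_cases i
    · simp
      linear_combination (g * g' - h * g') * hy + hg
    · simp
  rw [e3, T_smul]
  rw [dot_ev]
  simp
  ring

end aux2

variable {k : Type*} [Field k]

section aux3

private theorem LI_dg {ι κ : Type*} [Fintype ι] [DecidableEq ι] [Fintype κ] [DecidableEq κ]
    (c : ι → (LaurentSeries k)ˣ) (c' : κ → (LaurentSeries k)ˣ) (M : Matrix ι κ (LaurentSeries k))
    (M₀ : Matrix ι κ (PowerSeries k))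
    (h : ∀ i j, M i j * (c' j : LaurentSeries k) = (c i : LaurentSeries k) * iO k (M₀ i j)) :
    LI (dg c) (dg c') M := by
  refine ⟨M₀, Matrix.ext fun i j => ?_⟩
  change _ = ((Matrix.diagonal fun i => ((c i : (LaurentSeries k)ˣ) : LaurentSeries k)) *
    M₀.map (iO k) * (Matrix.diagonal fun j => (((c' j)⁻¹ : (LaurentSeries k)ˣ) :
      LaurentSeries k))) i j
  rw [Matrix.mul_diagonal, Matrix.diagonal_mul, Matrix.map_apply, ← h i j, mul_assoc,
    Units.mul_inv, mul_one]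

private theorem LL_x01 (c : Fin 2 → (LaurentSeries k)ˣ) (a : LaurentSeries k) (a₀ : PowerSeries k)
    (h : a * (c 1 : LaurentSeries k) = (c 0 : LaurentSeries k) * iO k a₀)
    {M : Matrix (Fin 2) (Fin 2) (LaurentSeries k)} (hM : M = !![1, a; 0, 1]) :
    LL (dg c) M (x (Sum.inl 0) (Sum.inl 1) a) := by
  rw [hM, x01_eq, ← one_add_cr]
  refine LL_Lam (b' := dg fun _ : Unit => c 1) ?_ ?_ (rc_zero a)
  · refine LI_dg c _ _ (cU ![a₀, 0]) ?_
    intro i j
    fin_cases i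
    · exact h
    · simp [cU]
  · refine LI_dg _ c _ (rU ![(0 : PowerSeries k), 1]) ?_
    intro i j
    fin_cases j
    · simp [rU]
    · simp [rU]

private theorem Lft_hh01 {R : Type*} [CommRing R] (n : ℕ) (τ : Rˣ) :
    Lft n (dg ![τ, τ⁻¹]) (hh (Sum.inl 0) (Sum.inl 1) τ : St (Fin 2 ⊕ ℕ) R) := by
  have hdet : Matrix.GeneralLinearGroup.det (dg ![τ, τ⁻¹] : GL (Fin 2) R) = 1 := by
    ext
    rw [Matrix.GeneralLinearGroup.val_det_apply]
    change (Matrix.diagonal fun i => ((![τ, τ⁻¹] i : Rˣ) : R)).det = _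
    rw [Matrix.det_diagonal, Fin.prod_univ_two]
    simp
  refine ⟨?_, ?_⟩
  · intro v
    rw [phi_hh _ _ ne01, ev_inl, ev_inl]
    change _ = ev ((Matrix.diagonal fun i => ((![τ, τ⁻¹] i : Rˣ) : R)) *ᵥ v)
    rw [ev_two v, ev_two, Matrix.mulVec_diagonal, Matrix.mulVec_diagonal]
    simp
  · intro m
    rw [phi_hh _ _ ne01, hdet]
    have h1 : (Finsupp.single (Sum.inr m) 1 : (Fin 2 ⊕ ℕ) →₀ R) (Sum.inl 0) = 0 := by simp
    have h2 : (Finsupp.single (Sum.inr m) 1 : (Fin 2 ⊕ ℕ) →₀ R) (Sum.inl 1) = 0 := by simp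
    rw [h1, h2]
    simp

private theorem LL_hh01 (c : Fin 2 → (LaurentSeries k)ˣ) (β : St (Fin 2 ⊕ ℕ) (LaurentSeries k))
    (hβ : Lft 0 (dg c) β) (τ : (PowerSeries k)ˣ) {M : Matrix (Fin 2) (Fin 2) (LaurentSeries k)}
    (hM : M = Matrix.diagonal fun i => ((![uO τ, (uO τ)⁻¹] i : (LaurentSeries k)ˣ) :
      LaurentSeries k)) :
    LL (dg c) M (β * hh (Sum.inl 0) (Sum.inl 1) (uO τ) * β⁻¹) := by
  refine ⟨β, dg ![τ, τ⁻¹], hh (Sum.inl 0) (Sum.inl 1) τ, 1, hβ, Lft_hh01 1 τ, ?_,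
    Subgroup.one_mem _, del_one, ?_⟩
  · rw [hM]
    refine Matrix.ext fun i j => ?_
    change _ = ((Matrix.diagonal fun i => ((c i : (LaurentSeries k)ˣ) : LaurentSeries k)) *
      (Matrix.diagonal fun i => ((![τ, τ⁻¹] i : (PowerSeries k)ˣ) : PowerSeries k)).map (iO k) *
      (Matrix.diagonal fun j => (((c j)⁻¹ : (LaurentSeries k)ˣ) : LaurentSeries k))) i j
    rw [Matrix.mul_diagonal, Matrix.diagonal_mul, Matrix.map_apply]
    by_cases hij : i = j
    · subst hij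
      rw [Matrix.diagonal_apply_eq, Matrix.diagonal_apply_eq, mul_right_comm, Units.mul_inv,
        one_mul]
      fin_cases i
      · rfl
      · rfl
    · rw [Matrix.diagonal_apply_ne _ hij, Matrix.diagonal_apply_ne _ hij, map_zero, mul_zero,
        zero_mul]
  · rw [map_hh, mul_one]
    rfl

/-- the difference of two products of `ww` -/
private theorem ww_hh {J : Type*} {R : Type*} [CommRing R] [DecidableEq J] (i j : J) (a t : Rˣ) :
    (ww i j a * ww i j (-(a * t⁻¹)) : St J R) = (cc i j t (a * t⁻¹))⁻¹ * hh i j t := by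
  have h1 : t * (a * t⁻¹) = a := by
    rw [mul_comm a, mul_inv_cancel_left]
  rw [ww_neg]
  unfold cc
  rw [h1]
  unfold hh
  group

private theorem c0_pow_one (m : ℤ) (d₀ g₀ h₀ : (PowerSeries k)ˣ)
    (hd : ((tt k ^ m * uO d₀ : (LaurentSeries k)ˣ) : LaurentSeries k) =
      iO k ((h₀ : PowerSeries k) - (g₀ : PowerSeries k))) : (c0 h₀ * (c0 g₀)⁻¹) ^ m = 1 := by
  by_cases hc : PowerSeries.constantCoeff ((h₀ : PowerSeries k) - (g₀ : PowerSeries k)) = 0
  · have h1 : c0 h₀ = c0 g₀ := by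
      ext1
      change PowerSeries.constantCoeff (h₀ : PowerSeries k) =
        PowerSeries.constantCoeff (g₀ : PowerSeries k)
      rw [map_sub, sub_eq_zero] at hc
      exact hc
    rw [h1, mul_inv_cancel, _root_.one_zpow]
  · have hu : IsUnit ((h₀ : PowerSeries k) - (g₀ : PowerSeries k)) := by
      rw [PowerSeries.isUnit_iff_constantCoeff]
      exact isUnit_iff_ne_zero.2 hc
    have h1 : tt k ^ m * uO d₀ = tt k ^ (0 : ℤ) * uO hu.unit := by
      ext1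
      rw [hd, zpow_zero, one_mul]
      rfl
    rw [(uO_tt_unique h1).1, zpow_zero]

end aux3

/-- at a place where `y` is a unit of the lattice -/
theorem LS_unit (y u v : (LaurentSeries k)ˣ) (g h : LaurentSeries k)
    (b0 b1 : GL (Fin 2) (LaurentSeries k)) (hb0 : b0 = dg ![1, u * v]) (hb1 : b1 = dg ![u, v])
    (yu : (PowerSeries k)ˣ) (hy : y * u = uO yu) (g₀ h₀ : PowerSeries k)
    (hg : g * v = iO k g₀) (hh' : h * v = iO k h₀) :
    LS b0 b1 (kD0 (y : LaurentSeries k) g) (kD1 (y : LaurentSeries k) g)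
      (kS0 ((y⁻¹ : (LaurentSeries k)ˣ) : LaurentSeries k))
      (kS1 ((y⁻¹ : (LaurentSeries k)ˣ) : LaurentSeries k))
      (kD0 (y : LaurentSeries k) h) (kD1 (y : LaurentSeries k) h)
      (kS0 ((y⁻¹ : (LaurentSeries k)ˣ) : LaurentSeries k))
      (kS1 ((y⁻¹ : (LaurentSeries k)ˣ) : LaurentSeries k))
      (x (Sum.inl 0) (Sum.inl 1) ((y : LaurentSeries k) * (g - h))) 1 := by
  have hyy : (y : LaurentSeries k) * ((y⁻¹ : (LaurentSeries k)ˣ) : LaurentSeries k) = 1 := y.mul_inv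
  have hy1 : (y : LaurentSeries k) * u = iO k yu :=
    congrArg (fun w : (LaurentSeries k)ˣ => (w : LaurentSeries k)) hy
  have hy2 : ((y⁻¹ : (LaurentSeries k)ˣ) : LaurentSeries k) =
      (u : LaurentSeries k) * iO k ((yu⁻¹ : (PowerSeries k)ˣ) : PowerSeries k) := by
    have h1 : y⁻¹ = u * (uO yu)⁻¹ := by
      rw [← hy, mul_inv, mul_comm y⁻¹, mul_inv_cancel_left]
    exact congrArg (fun w : (LaurentSeries k)ˣ => (w : LaurentSeries k)) h1
  have lo : ∀ (g : LaurentSeries k) (g₀ : PowerSeries k), g * v = iO k g₀ →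
      Lo2 (dg ![1, u * v]) (dg ![u, v]) (kD0 (y : LaurentSeries k) g) (kD1 (y : LaurentSeries k) g)
      (kS0 ((y⁻¹ : (LaurentSeries k)ˣ) : LaurentSeries k))
      (kS1 ((y⁻¹ : (LaurentSeries k)ˣ) : LaurentSeries k)) := by
    intro g g₀ hg
    refine ⟨IsC_kS _ _ _ hyy, ?_, ?_, ?_, ?_⟩
    · refine LI_dg _ _ _ !![0, -g₀; 0, (yu : PowerSeries k)] ?_
      intro i j
      fin_cases i <;> fin_cases j
      · simp [kD0]
      · simp [kD0]
        linear_combination (u : LaurentSeries k) * hg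
      · simp [kD0]
      · simp [kD0]
        linear_combination (v : LaurentSeries k) * hy1
    · refine LI_dg _ _ _ !![(yu : PowerSeries k), g₀; 0, 0] ?_
      intro i j
      fin_cases i <;> fin_cases j
      · simp [kD1]
        linear_combination hy1
      · simp [kD1]
        linear_combination hg
      · simp [kD1]
      · simp [kD1]
    · refine LI_dg _ _ _ !![((yu⁻¹ : (PowerSeries k)ˣ) : PowerSeries k), 0; 0, 0] ?_
      intro i j
      fin_cases i <;> fin_cases j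
      · change ((y⁻¹ : (LaurentSeries k)ˣ) : LaurentSeries k) * ((1 : (LaurentSeries k)ˣ) : LaurentSeries k) =
          (u : LaurentSeries k) * iO k ((yu⁻¹ : (PowerSeries k)ˣ) : PowerSeries k)
        rw [Units.val_one, mul_one]
        exact hy2
      · simp [kS0]
      · simp [kS0]
      · simp [kS0]
    · refine LI_dg _ _ _ !![0, 0; 0, ((yu⁻¹ : (PowerSeries k)ˣ) : PowerSeries k)] ?_
      intro i j
      fin_cases i <;> fin_cases j
      · simp [kS1]
      · simp [kS1]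
      · simp [kS1]
      · change ((y⁻¹ : (LaurentSeries k)ˣ) : LaurentSeries k) * (v : LaurentSeries k) =
          ((u * v : (LaurentSeries k)ˣ) : LaurentSeries k) *
            iO k ((yu⁻¹ : (PowerSeries k)ˣ) : PowerSeries k)
        rw [hy2, Units.val_mul]
        ring
  subst hb0 hb1
  refine ⟨_, _, _, _, x (Sum.inl 0) (Sum.inl 1) ((y : LaurentSeries k) * (g - h)), lo g g₀ hg,
    lo h h₀ hh', ?_, ?_⟩
  · refine LL_x01 _ _ ((yu : PowerSeries k) * (g₀ - h₀)) ?_ ?_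
    · change (y : LaurentSeries k) * (g - h) * ((u * v : (LaurentSeries k)ˣ) : LaurentSeries k) =
        ((1 : (LaurentSeries k)ˣ) : LaurentSeries k) * _
      rw [map_mul, map_sub, Units.val_mul, Units.val_one]
      linear_combination (g - h) * v * hy1 + iO k yu * (hg - hh')
    · unfold kD0 kD1 kS0 kS1
      rw [add2, add2, Matrix.mul_fin_two]
      apply mk2_eq
      · linear_combination hyy
      · ring
      · ring
      · linear_combination hyy
  · have e0 : ∀ (D0 D1 s1 : Matrix (Fin 2) (Fin 2) (LaurentSeries k)),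
        L0 D0 D1 s1 0 = 1 := by
      intro D0 D1 s1
      unfold L0
      rw [Matrix.mul_zero, Matrix.zero_mul, neg_zero, Lam_zero_left]
    simp only [sub_self, e0, Matrix.mul_zero, Matrix.zero_mul, Lam_zero_left, inv_one, mul_one,
      one_mul]
    exact (df_self _).symm

section aux4

open scoped commutatorElement

/-- the local contraction for a unit `g` of the lattice -/
private theorem lo_kT (y u v g : (LaurentSeries k)ˣ) (Y G G' : PowerSeries k)
    (hy1 : (y : LaurentSeries k) * u = iO k Y) (hg1 : (g : LaurentSeries k) * v = iO k G)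
    (hg2 : ((g⁻¹ : (LaurentSeries k)ˣ) : LaurentSeries k) = (v : LaurentSeries k) * iO k G') :
    Lo2 (dg ![1, u * v]) (dg ![u, v]) (kD0 (y : LaurentSeries k) g) (kD1 (y : LaurentSeries k) g)
      (kT0 ((g⁻¹ : (LaurentSeries k)ˣ) : LaurentSeries k))
      (kT1 ((g⁻¹ : (LaurentSeries k)ˣ) : LaurentSeries k)) := by
  have hyy : (g : LaurentSeries k) * ((g⁻¹ : (LaurentSeries k)ˣ) : LaurentSeries k) = 1 := g.mul_inv
  generalize ((g⁻¹ : (LaurentSeries k)ˣ) : LaurentSeries k) = g' at *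
  generalize (g : LaurentSeries k) = g at *
  generalize (y : LaurentSeries k) = y at *
  refine ⟨IsC_kT _ _ _ hyy, ?_, ?_, ?_, ?_⟩
  · refine LI_dg _ _ _ !![0, -G; 0, Y] ?_
    intro i j
    fin_cases i <;> fin_cases j
    · simp [kD0]
    · simp [kD0]
      linear_combination (u : LaurentSeries k) * hg1
    · simp [kD0]
    · simp [kD0]
      linear_combination (v : LaurentSeries k) * hy1
  · refine LI_dg _ _ _ !![Y, G; 0, 0] ?_
    intro i j
    fin_cases i <;> fin_cases j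
    · simp [kD1]
      exact hy1
    · simp [kD1]
      exact hg1
    · simp [kD1]
    · simp [kD1]
  · refine LI_dg _ _ _ !![0, 0; G', 0] ?_
    intro i j
    fin_cases i <;> fin_cases j
    · simp [kT0]
    · simp [kT0]
    · simp [kT0]
      exact hg2
    · simp [kT0]
  · refine LI_dg _ _ _ !![0, 0; -G', 0] ?_
    intro i j
    fin_cases i <;> fin_cases j
    · simp [kT1]
    · simp [kT1]
    · simp [kT1]
      rw [hg2]
      ring
    · simp [kT1]

private theorem Lft_b0 (w : (LaurentSeries k)ˣ) :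
    Lft 0 (dg ![1, w]) (hh (Sum.inl 1) (Sum.inr 0) w : St (Fin 2 ⊕ ℕ) (LaurentSeries k)) := by
  refine Lft_hh 0 1 w _ ?_
  refine Matrix.ext fun i j => ?_
  change (Matrix.diagonal fun i => ((![1, w] i : (LaurentSeries k)ˣ) : LaurentSeries k)) i j = _
  fin_cases i <;> fin_cases j <;> simp [Matrix.diagonal]

/-- group identity of the computation -/
private theorem grp_id {G : Type*} [Group G] (β s K C X Y Z Z' : G) (hK : K = ⁅β, s⁆)
    (hKc : ∀ t, K * t = t * K) (hCc : ∀ t, C * t = t * C) (hZ : Y * Z = Z' * (C⁻¹ * s⁻¹) * X) :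
    (β * s⁻¹ * β⁻¹ * X)⁻¹ * Z'⁻¹ * (Y * Z) = K * C⁻¹ := by
  have h1 : (β * s⁻¹ * β⁻¹)⁻¹ = K * s := by
    rw [hK, commutatorElement_def]
    group
  have h2 : C⁻¹ * s⁻¹ = s⁻¹ * C⁻¹ := by
    have h3 := hCc s
    calc C⁻¹ * s⁻¹ = (s * C)⁻¹ := by group
      _ = (C * s)⁻¹ := by rw [h3]
      _ = s⁻¹ * C⁻¹ := by group
  have h4 : X⁻¹ * (K * C⁻¹) * X = K * C⁻¹ := by
    have h5 : (K * C⁻¹) * X = X * (K * C⁻¹) := by
      have h6 : C⁻¹ * X = X * C⁻¹ := by
        have h7 := hCc X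
        calc C⁻¹ * X = C⁻¹ * (X * C) * C⁻¹ := by group
          _ = C⁻¹ * (C * X) * C⁻¹ := by rw [h7]
          _ = X * C⁻¹ := by group
      rw [mul_assoc, h6, ← mul_assoc, hKc X, mul_assoc]
    rw [mul_assoc, h5, inv_mul_cancel_left]
  rw [hZ, _root_.mul_inv_rev, h1, h2]
  calc X⁻¹ * (K * s) * Z'⁻¹ * (Z' * (s⁻¹ * C⁻¹) * X) = X⁻¹ * (K * C⁻¹) * X := by group
    _ = K * C⁻¹ := h4

private theorem intY (y u : (LaurentSeries k)ˣ) (n : ℤ) (y₀ : (PowerSeries k)ˣ)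
    (hy : y * u = tt k ^ n * uO y₀) (hn : 0 ≤ n) :
    ∃ Y : PowerSeries k, (y : LaurentSeries k) * u = iO k Y := by
  obtain ⟨n, rfl⟩ := Int.eq_ofNat_of_zero_le hn
  refine ⟨PowerSeries.X ^ n * (y₀ : PowerSeries k), ?_⟩
  have h1 := congrArg (fun w : (LaurentSeries k)ˣ => (w : LaurentSeries k)) hy
  have h2 : iO k PowerSeries.X = (tt k : LaurentSeries k) := HahnSeries.ofPowerSeries_X
  rw [map_mul, map_pow, h2]
  exact h1

private theorem unitG (v g : (LaurentSeries k)ˣ) (g₀ : (PowerSeries k)ˣ) (hg : g * v = uO g₀) :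
    (g : LaurentSeries k) * v = iO k (g₀ : PowerSeries k) ∧
    ((g⁻¹ : (LaurentSeries k)ˣ) : LaurentSeries k) =
      (v : LaurentSeries k) * iO k ((g₀⁻¹ : (PowerSeries k)ˣ) : PowerSeries k) := by
  refine ⟨congrArg (fun w : (LaurentSeries k)ˣ => (w : LaurentSeries k)) hg, ?_⟩
  have h1 : g⁻¹ = v * (uO g₀)⁻¹ := by
    rw [← hg, mul_inv, mul_comm g⁻¹, mul_inv_cancel_left]
  exact congrArg (fun w : (LaurentSeries k)ˣ => (w : LaurentSeries k)) h1

private theorem LS_of_LL (b0 b1 : GL (Fin 2) (LaurentSeries k)) (y y' g g' h h' : LaurentSeries k)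
    (hyy : y * y' = 1) (hgg : g * g' = 1) (hhh : h * h' = 1)
    (hlo : Lo2 b0 b1 (kD0 y g) (kD1 y g) (kT0 g') (kT1 g'))
    (hlo' : Lo2 b0 b1 (kD0 y h) (kD1 y h) (kT0 h') (kT1 h'))
    (ℓ : St (Fin 2 ⊕ ℕ) (LaurentSeries k)) (z : kˣ)
    (hℓ : LL b0 !![g * h', y * (g - h); 0, h * g'] ℓ)
    (hz : z = del (ℓ * (x (Sum.inl 1) (Sum.inl 0) (y' * h'))⁻¹ *
      (x (Sum.inl 0) (Sum.inl 1) (y * (h - g)) * x (Sum.inl 1) (Sum.inl 0) (y' * g')))) :
    LS b0 b1 (kD0 y g) (kD1 y g) (kS0 y') (kS1 y') (kD0 y h) (kD1 y h) (kS0 y') (kS1 y')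
      (x (Sum.inl 0) (Sum.inl 1) (y * (g - h))) z := by
  have hR : (x (Sum.inl 0) (Sum.inl 1) (y * (g - h)) : St (Fin 2 ⊕ ℕ) (LaurentSeries k)) =
      (x (Sum.inl 0) (Sum.inl 1) (y * (h - g)))⁻¹ := by
    rw [← x_neg]
    congr 1
    ring
  have hρ : (kD1 y g + kT1 g') * (kD0 y h + kT0 h') = !![g * h', y * (g - h); 0, h * g'] := by
    unfold kD0 kD1 kT0 kT1
    rw [add2, add2, Matrix.mul_fin_two]
    apply mk2_eq <;> ring
  refine ⟨_, _, _, _, ℓ, hlo, hlo', ?_, ?_⟩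
  · rw [hρ]
    exact hℓ
  · rw [L0_kT _ _ _ _ hyy hgg, L0_kT _ _ _ _ hyy hhh, kz_Lam' _ _ _ _ hyy hhh,
      kz_Lam _ _ _ _ _ hyy hgg, hR, hz, inv_one, one_mul, mul_one]
    unfold df
    congr 1
    group

/-- the local lift -/
private theorem LL_tau (y u v g h : (LaurentSeries k)ˣ) (τ₀ : (PowerSeries k)ˣ)
    (hτ : h * g⁻¹ = uO τ₀) (Y D : PowerSeries k) (hY : (y : LaurentSeries k) * u = iO k Y)
    (hD : (v : LaurentSeries k) * ((h : LaurentSeries k) - g) = iO k D) :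
    LL (dg ![1, u * v]) !![(g : LaurentSeries k) * ((h⁻¹ : (LaurentSeries k)ˣ) : LaurentSeries k),
        (y : LaurentSeries k) * (g - h); 0,
        (h : LaurentSeries k) * ((g⁻¹ : (LaurentSeries k)ˣ) : LaurentSeries k)]
      (hh (Sum.inl 1) (Sum.inr 0) (u * v) * hh (Sum.inl 0) (Sum.inl 1) (uO τ₀) *
        (hh (Sum.inl 1) (Sum.inr 0) (u * v))⁻¹ * x (Sum.inl 0) (Sum.inl 1)
          ((y : LaurentSeries k) * (h - g) *
            (((uO τ₀)⁻¹ : (LaurentSeries k)ˣ) : LaurentSeries k)))⁻¹ := by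
  have hτ1 : (h : LaurentSeries k) * ((g⁻¹ : (LaurentSeries k)ˣ) : LaurentSeries k) =
      (uO τ₀ : (LaurentSeries k)ˣ) :=
    congrArg (fun w : (LaurentSeries k)ˣ => (w : LaurentSeries k)) hτ
  have hτ2 : (g : LaurentSeries k) * ((h⁻¹ : (LaurentSeries k)ˣ) : LaurentSeries k) =
      (((uO τ₀)⁻¹ : (LaurentSeries k)ˣ) : LaurentSeries k) := by
    have h1 : g * h⁻¹ = (uO τ₀)⁻¹ := by
      rw [← hτ, mul_inv, inv_inv, mul_comm]
    exact congrArg (fun w : (LaurentSeries k)ˣ => (w : LaurentSeries k)) h1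
  have hττ : ((uO τ₀ : (LaurentSeries k)ˣ) : LaurentSeries k) *
      (((uO τ₀)⁻¹ : (LaurentSeries k)ˣ) : LaurentSeries k) = 1 := Units.mul_inv _
  have hi : (((uO τ₀)⁻¹ : (LaurentSeries k)ˣ) : LaurentSeries k) =
      iO k ((τ₀⁻¹ : (PowerSeries k)ˣ) : PowerSeries k) := rfl
  have h1 := LL_hh01 ![1, u * v] _ (Lft_b0 (u * v)) τ₀
      (M := !![((uO τ₀ : (LaurentSeries k)ˣ) : LaurentSeries k), 0; 0,
        (((uO τ₀)⁻¹ : (LaurentSeries k)ˣ) : LaurentSeries k)]) (by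
        refine Matrix.ext fun i j => ?_
        fin_cases i <;> fin_cases j <;> simp [Matrix.diagonal])
  have h2 := LL_x01 ![1, u * v] ((y : LaurentSeries k) * (h - g) *
        (((uO τ₀)⁻¹ : (LaurentSeries k)ˣ) : LaurentSeries k))
        (Y * D * ((τ₀⁻¹ : (PowerSeries k)ˣ) : PowerSeries k)) (by
          rw [map_mul, map_mul, ← hi, ← hY, ← hD]
          simp
          ring) rfl
  have h3 := LL_mul h1 h2
  rw [Matrix.mul_fin_two] at h3
  refine LL_inv h3 ?_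
  rw [hτ1, hτ2]
  generalize ((uO τ₀ : (LaurentSeries k)ˣ) : LaurentSeries k) = τ at *
  generalize (((uO τ₀)⁻¹ : (LaurentSeries k)ˣ) : LaurentSeries k) = τ' at *
  rw [Matrix.mul_fin_two, one2]
  apply mk2_eq
  · linear_combination hττ
  · linear_combination (y : LaurentSeries k) * (h - g) * τ * hττ
  · ring
  · linear_combination hττ

/-- the element of `K2` -/
private theorem val_tau (y u v g h δ : (LaurentSeries k)ˣ) (hδ : (δ : LaurentSeries k) = h - g)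
    (τ₀ : (PowerSeries k)ˣ) (hτ : h * g⁻¹ = uO τ₀) :
    (hh (Sum.inl 1) (Sum.inr 0) (u * v) * hh (Sum.inl 0) (Sum.inl 1) (uO τ₀) *
        (hh (Sum.inl 1) (Sum.inr 0) (u * v))⁻¹ * x (Sum.inl 0) (Sum.inl 1)
          ((y : LaurentSeries k) * (h - g) *
            (((uO τ₀)⁻¹ : (LaurentSeries k)ˣ) : LaurentSeries k)))⁻¹ *
      (x (Sum.inl 1) (Sum.inl 0) (((y⁻¹ : (LaurentSeries k)ˣ) : LaurentSeries k) *
        ((h⁻¹ : (LaurentSeries k)ˣ) : LaurentSeries k)))⁻¹ *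
      (x (Sum.inl 0) (Sum.inl 1) ((y : LaurentSeries k) * (h - g)) *
        x (Sum.inl 1) (Sum.inl 0) (((y⁻¹ : (LaurentSeries k)ˣ) : LaurentSeries k) *
          ((g⁻¹ : (LaurentSeries k)ˣ) : LaurentSeries k))) =
    (cc (Sum.inl 1) (Sum.inr 0) (u * v) (uO τ₀) : St (Fin 2 ⊕ ℕ) (LaurentSeries k)) *
      (cc (Sum.inl 0) (Sum.inl 1) (uO τ₀) (y * δ * (uO τ₀)⁻¹))⁻¹ := by
  have hyy : (y : LaurentSeries k) * ((y⁻¹ : (LaurentSeries k)ˣ) : LaurentSeries k) = 1 := y.mul_inv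
  have hgg : (g : LaurentSeries k) * ((g⁻¹ : (LaurentSeries k)ˣ) : LaurentSeries k) = 1 := g.mul_inv
  have hτ1 : (h : LaurentSeries k) * ((g⁻¹ : (LaurentSeries k)ˣ) : LaurentSeries k) =
      (uO τ₀ : (LaurentSeries k)ˣ) :=
    congrArg (fun w : (LaurentSeries k)ˣ => (w : LaurentSeries k)) hτ
  have hgτ : ((g⁻¹ : (LaurentSeries k)ˣ) : LaurentSeries k) *
      (((uO τ₀)⁻¹ : (LaurentSeries k)ˣ) : LaurentSeries k) =
      ((h⁻¹ : (LaurentSeries k)ˣ) : LaurentSeries k) := by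
    have h1 : g⁻¹ * (uO τ₀)⁻¹ = h⁻¹ := by
      rw [← hτ, mul_inv, inv_inv, mul_comm h⁻¹, inv_mul_cancel_left]
    exact congrArg (fun w : (LaurentSeries k)ˣ => (w : LaurentSeries k)) h1
  have hs : (hh (Sum.inl 0) (Sum.inl 1) (uO τ₀) : St (Fin 2 ⊕ ℕ) (LaurentSeries k)) =
      (hh (Sum.inl 1) (Sum.inl 0) (uO τ₀))⁻¹ :=
    eq_inv_of_mul_eq_one_left (hh_mul_hh_swap _ _ ne01 _)
  have hK : (cc (Sum.inl 1) (Sum.inr 0) (u * v) (uO τ₀) : St (Fin 2 ⊕ ℕ) (LaurentSeries k)) =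
      ⁅(hh (Sum.inl 1) (Sum.inr 0) (u * v) : St (Fin 2 ⊕ ℕ) (LaurentSeries k)),
        hh (Sum.inl 1) (Sum.inl 0) (uO τ₀)⁆ :=
    cc_eq_comm _ _ _ (by simp) ne10 (by simp) _ _
  have hr := rank_two (Sum.inl 0 : Fin 2 ⊕ ℕ) (Sum.inl 1) ne01 (y * δ) (uO τ₀)
    (((y⁻¹ : (LaurentSeries k)ˣ) : LaurentSeries k) *
      ((g⁻¹ : (LaurentSeries k)ˣ) : LaurentSeries k)) (by
        rw [← hτ1, Units.val_mul, hδ]
        linear_combination -(((h : LaurentSeries k) - g) *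
          ((g⁻¹ : (LaurentSeries k)ˣ) : LaurentSeries k)) * hyy + hgg)
  rw [ww_hh, Units.val_mul, hδ, mul_assoc (((y⁻¹ : (LaurentSeries k)ˣ) : LaurentSeries k)), hgτ,
    hs] at hr
  rw [hs]
  refine grp_id _ _ _ _ _ _ _ _ hK (fun t => K2_central (cc_mem_K2 _ _ (by simp) _ _) t)
    (fun t => K2_central (cc_mem_K2 _ _ ne01 _ _) t) hr

end aux4

/-- at a place where `g` and `h` are units of the lattice -/
theorem LS_div (y u v g h : (LaurentSeries k)ˣ)
    (b0 b1 : GL (Fin 2) (LaurentSeries k)) (hb0 : b0 = dg ![1, u * v]) (hb1 : b1 = dg ![u, v])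
    (n : ℤ) (y₀ : (PowerSeries k)ˣ) (hy : y * u = tt k ^ n * uO y₀) (hn : 0 ≤ n)
    (g₀ h₀ : (PowerSeries k)ˣ) (hg : g * v = uO g₀) (hh' : h * v = uO h₀) :
    LS b0 b1 (kD0 (y : LaurentSeries k) g) (kD1 (y : LaurentSeries k) g)
      (kS0 ((y⁻¹ : (LaurentSeries k)ˣ) : LaurentSeries k))
      (kS1 ((y⁻¹ : (LaurentSeries k)ˣ) : LaurentSeries k))
      (kD0 (y : LaurentSeries k) h) (kD1 (y : LaurentSeries k) h)
      (kS0 ((y⁻¹ : (LaurentSeries k)ˣ) : LaurentSeries k))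
      (kS1 ((y⁻¹ : (LaurentSeries k)ˣ) : LaurentSeries k))
      (x (Sum.inl 0) (Sum.inl 1) ((y : LaurentSeries k) * (g - h)))
      ((c0 g₀ * (c0 h₀)⁻¹) ^ n) := by
  subst hb0 hb1
  have hyy : (y : LaurentSeries k) * ((y⁻¹ : (LaurentSeries k)ˣ) : LaurentSeries k) = 1 := y.mul_inv
  have hgg : (g : LaurentSeries k) * ((g⁻¹ : (LaurentSeries k)ˣ) : LaurentSeries k) = 1 := g.mul_inv
  have hhh : (h : LaurentSeries k) * ((h⁻¹ : (LaurentSeries k)ˣ) : LaurentSeries k) = 1 := h.mul_inv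
  obtain ⟨Y, hY⟩ := intY y u n y₀ hy hn
  obtain ⟨hg1, hg2⟩ := unitG v g g₀ hg
  obtain ⟨hh1, hh2⟩ := unitG v h h₀ hh'
  have hR : (x (Sum.inl 0) (Sum.inl 1) ((y : LaurentSeries k) * (g - h)) :
      St (Fin 2 ⊕ ℕ) (LaurentSeries k)) =
      (x (Sum.inl 0) (Sum.inl 1) ((y : LaurentSeries k) * (h - g)))⁻¹ := by
    rw [← x_neg]
    congr 1
    ring
  by_cases hgh : (h : LaurentSeries k) - g = 0
  · have hgh' : h = g := by
      ext1
      exact sub_eq_zero.1 hgh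
    subst hgh'
    have h0 : g₀ = h₀ := by
      have h1 : tt k ^ (0 : ℤ) * uO g₀ = tt k ^ (0 : ℤ) * uO h₀ := by
        rw [← hg, ← hh']
      exact (uO_tt_unique h1).2
    refine LS_of_LL _ _ _ _ _ _ _ _ hyy hgg hhh (lo_kT y u v h Y _ _ hY hg1 hg2)
      (lo_kT y u v h Y _ _ hY hh1 hh2) 1 _ ?_ ?_
    · rw [sub_self, mul_zero, hhh, ← one2]
      exact LL_one
    · rw [h0, mul_inv_cancel, _root_.one_zpow, sub_self, mul_zero, x_zero, one_mul, one_mul,
        inv_mul_cancel, del_one]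
  · obtain ⟨δ, hδ⟩ : ∃ δ : (LaurentSeries k)ˣ, (δ : LaurentSeries k) = h - g :=
      ⟨Units.mk0 _ hgh, rfl⟩
    obtain ⟨τ₀, hτ₀⟩ : ∃ τ₀ : (PowerSeries k)ˣ, τ₀ = h₀ * g₀⁻¹ := ⟨_, rfl⟩
    have hτ : h * g⁻¹ = uO τ₀ := by
      have h1 : uO τ₀ = uO h₀ * (uO g₀)⁻¹ := by
        rw [hτ₀]
        unfold uO
        rw [map_mul, map_inv]
      rw [h1, ← hg, ← hh', mul_inv, mul_mul_mul_comm, mul_inv_cancel, mul_one]
    have hc : c0 τ₀ = c0 h₀ * (c0 g₀)⁻¹ := by
      rw [hτ₀]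
      unfold c0
      rw [map_mul, map_inv]
    refine LS_of_LL _ _ _ _ _ _ _ _ hyy hgg hhh (lo_kT y u v g Y _ _ hY hg1 hg2)
      (lo_kT y u v h Y _ _ hY hh1 hh2) _ _ (LL_tau y u v g h τ₀ hτ Y (h₀ - g₀) hY (by
        rw [map_sub]
        linear_combination hh1 - hg1)) ?_
    rw [val_tau y u v g h δ hδ τ₀ hτ, del_mul (cc_mem_K2 _ _ (by simp) _ _)
      (Subgroup.inv_mem _ (cc_mem_K2 _ _ ne01 _ _)), del_inv (cc_mem_K2 _ _ ne01 _ _)]
    obtain ⟨p, w1, hp⟩ := uO_tt (u * v)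
    obtain ⟨q, w2, hq⟩ := uO_tt (y * δ * (uO τ₀)⁻¹)
    obtain ⟨m, d₀, hm⟩ := uO_tt (v * δ)
    rw [hp, hq, del_cc_right _ _ (by simp), del_cc_left _ _ ne01]
    have h1 : tt k ^ (p + q) * uO (w1 * w2) = tt k ^ (n + m) * uO (y₀ * d₀ * τ₀⁻¹) := by
      have e1 : (uO (w1 * w2) : (LaurentSeries k)ˣ) = uO w1 * uO w2 := by
        unfold uO
        rw [map_mul]
      have e2 : (uO (y₀ * d₀ * τ₀⁻¹) : (LaurentSeries k)ˣ) = uO y₀ * uO d₀ * (uO τ₀)⁻¹ := by
        unfold uO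
        rw [map_mul, map_mul, map_inv]
      rw [e1, e2, _root_.zpow_add, _root_.zpow_add, mul_mul_mul_comm, ← hp, ← hq]
      calc u * v * (y * δ * (uO τ₀)⁻¹) = u * v * (y * δ) * (uO τ₀)⁻¹ := (mul_assoc _ _ _).symm
        _ = (u * y) * (v * δ) * (uO τ₀)⁻¹ := by rw [mul_mul_mul_comm u v y δ]
        _ = (tt k ^ n * uO y₀) * (tt k ^ m * uO d₀) * (uO τ₀)⁻¹ := by rw [mul_comm u y, hy, hm]
        _ = (tt k ^ n * tt k ^ m) * (uO y₀ * uO d₀) * (uO τ₀)⁻¹ := by
            rw [mul_mul_mul_comm (tt k ^ n)]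
        _ = _ := mul_assoc _ _ _
    have h2 := (uO_tt_unique h1).1
    have h3 : c0 τ₀ ^ m = 1 := by
      rw [hc]
      refine c0_pow_one m d₀ g₀ h₀ ?_
      rw [← hm, Units.val_mul, hδ, map_sub]
      linear_combination hh1 - hg1
    rw [← mul_inv, ← _root_.zpow_add, h2, _root_.zpow_add, h3, mul_one, hc, ← _root_.inv_zpow, mul_inv,
      inv_inv, mul_comm]

end MSK
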