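import Pool.Agent.MSK.Gp2
import Pool.Agent.MSK.Kz

/-! MSK / Gkz: the value of a pair of Koszul complexes (global).

PROOF. `IsPsi_shift` with the contractions `kS0 Y⁻¹`, `kS1 Y⁻¹` (`IsC_kS`) of both complexes, `r = x (inl 0) (inl 1) (Y (G - H))` (`kRho`), and at every place `LS_unit` or `LS_div`
(`map_x`, and the images of `kD0`, ... under `ψ y` are the same matrices with the images of the entries). -/

set_option autoImplicit false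
set_option linter.unusedVariables false

namespace MSK

open Matrix

universe u v w

variable {Pl : Type v} {κ : Pl → Type w} [∀ y, Field (κ y)] {K : Type u} [Field K]
  {ψ : ∀ y, K →+* LaurentSeries (κ y)}

/-- the even object -/
noncomputable def kO0 (a b : ∀ y, (LaurentSeries (κ y))ˣ) : Ob κ :=
  ⟨Fin 2, fun y => dg ![1, a y * b y]⟩

/-- the odd object -/
noncomputable def kO1 (a b : ∀ y, (LaurentSeries (κ y))ˣ) : Ob κ :=
  ⟨Fin 2, fun y => dg ![a y, b y]⟩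

section auxG

variable {R R' : Type*} [CommRing R] [CommRing R']

private theorem kD0_map (f : R →+* R') (y g : R) : (kD0 y g).map f = kD0 (f y) (f g) := by
  ext i j
  fin_cases i <;> fin_cases j <;> simp [kD0]

private theorem kD1_map (f : R →+* R') (y g : R) : (kD1 y g).map f = kD1 (f y) (f g) := by
  ext i j
  fin_cases i <;> fin_cases j <;> simp [kD1]

private theorem kS0_map (f : R →+* R') (y : R) : (kS0 y).map f = kS0 (f y) := by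
  ext i j
  fin_cases i <;> fin_cases j <;> simp [kS0]

private theorem kS1_map (f : R →+* R') (y : R) : (kS1 y).map f = kS1 (f y) := by
  ext i j
  fin_cases i <;> fin_cases j <;> simp [kS1]

end auxG

theorem IsPsi_koszul (a b : ∀ y, (LaurentSeries (κ y))ˣ) (Y G H : Kˣ)
    (c c' : CX ψ (kO0 a b) (kO1 a b)) (hc0 : c.D0 = kD0 (Y : K) (G : K))
    (hc1 : c.D1 = kD1 (Y : K) (G : K)) (hc0' : c'.D0 = kD0 (Y : K) (H : K))
    (hc1' : c'.D1 = kD1 (Y : K) (H : K)) (z : ∀ y, (κ y)ˣ)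
    (hz : ∀ y, (z y = 1 ∧ (∃ yu : (PowerSeries (κ y))ˣ,
        Units.map (ψ y).toMonoidHom Y * a y = uO yu) ∧
        (∃ g₀, ψ y G * (b y : LaurentSeries (κ y)) = iO (κ y) g₀) ∧
        (∃ h₀, ψ y H * (b y : LaurentSeries (κ y)) = iO (κ y) h₀)) ∨
      (∃ (n : ℤ) (y₀ g₀ h₀ : (PowerSeries (κ y))ˣ), 0 ≤ n ∧
        Units.map (ψ y).toMonoidHom Y * a y = tt (κ y) ^ n * uO y₀ ∧
        Units.map (ψ y).toMonoidHom G * b y = uO g₀ ∧
        Units.map (ψ y).toMonoidHom H * b y = uO h₀ ∧ z y = (c0 g₀ * (c0 h₀)⁻¹) ^ n)) :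
    IsPsi (c.sum c'.sh) z := by
  have hYY : (Y : K) * ((Y⁻¹ : Kˣ) : K) = 1 := Y.mul_inv
  have hs : IsC c.D0 c.D1 (kS0 ((Y⁻¹ : Kˣ) : K)) (kS1 ((Y⁻¹ : Kˣ) : K)) := by
    rw [hc0, hc1]
    exact IsC_kS _ _ _ hYY
  have hr : IsC c'.D0 c'.D1 (kS0 ((Y⁻¹ : Kˣ) : K)) (kS1 ((Y⁻¹ : Kˣ) : K)) := by
    rw [hc0', hc1']
    exact IsC_kS _ _ _ hYY
  have hρ : LftM (R := K) (ι := (kO0 a b).ι) 1
      ((c.D1 + (show Matrix (kO0 a b).ι (kO1 a b).ι K from kS1 ((Y⁻¹ : Kˣ) : K))) *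
      (c'.D0 + (show Matrix (kO1 a b).ι (kO0 a b).ι K from kS0 ((Y⁻¹ : Kˣ) : K))))
      (x (Sum.inl (0 : Fin 2)) (Sum.inl 1) ((Y : K) * ((G : K) - H)) : St (Fin 2 ⊕ ℕ) K) := by
    rw [hc1, hc0']
    exact kRho _ _ _ _ hYY
  refine IsPsi_shift c c' hs hr hρ (fun y => ?_)
  rw [hc0, hc1, hc0', hc1']
  have e1 : (kD0 (Y : K) (G : K)).map (ψ y) = kD0 (ψ y Y) (ψ y G) := kD0_map _ _ _
  have e2 : (kD1 (Y : K) (G : K)).map (ψ y) = kD1 (ψ y Y) (ψ y G) := kD1_map _ _ _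
  have e3 : (kD0 (Y : K) (H : K)).map (ψ y) = kD0 (ψ y Y) (ψ y H) := kD0_map _ _ _
  have e4 : (kD1 (Y : K) (H : K)).map (ψ y) = kD1 (ψ y Y) (ψ y H) := kD1_map _ _ _
  have e5 : (kS0 ((Y⁻¹ : Kˣ) : K)).map (ψ y) = kS0 (ψ y ((Y⁻¹ : Kˣ) : K)) := kS0_map _ _
  have e6 : (kS1 ((Y⁻¹ : Kˣ) : K)).map (ψ y) = kS1 (ψ y ((Y⁻¹ : Kˣ) : K)) := kS1_map _ _
  have e7 : map (ψ y) (x (Sum.inl 0) (Sum.inl 1) ((Y : K) * ((G : K) - H)) : St (Fin 2 ⊕ ℕ) K)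
      = x (Sum.inl 0) (Sum.inl 1) (ψ y Y * (ψ y G - ψ y H)) := by
    rw [map_x, map_mul, map_sub]
  rcases hz y with ⟨h1, ⟨yu, hyu⟩, ⟨g₀, hg⟩, ⟨h₀, hh⟩⟩ | ⟨n, y₀, g₀, h₀, hn, hy, hg, hh, h1⟩
  · have key := LS_unit (Units.map (ψ y).toMonoidHom Y) (a y) (b y) (ψ y G) (ψ y H)
      (dg ![1, a y * b y]) (dg ![a y, b y]) rfl rfl yu hyu g₀ h₀ hg hh
    rw [h1]
    exact (e1.symm ▸ e2.symm ▸ e3.symm ▸ e4.symm ▸ e5.symm ▸ e6.symm ▸ e7.symm ▸ key)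
  · have key := LS_div (Units.map (ψ y).toMonoidHom Y) (a y) (b y)
      (Units.map (ψ y).toMonoidHom G) (Units.map (ψ y).toMonoidHom H)
      (dg ![1, a y * b y]) (dg ![a y, b y]) rfl rfl n y₀ hy hn g₀ h₀ hg hh
    rw [h1]
    exact (e1.symm ▸ e2.symm ▸ e3.symm ▸ e4.symm ▸ e5.symm ▸ e6.symm ▸ e7.symm ▸ key)

end MSK
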