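import Pool.Agent.MSK.Lv
import Pool.Agent.MSK.Gg
import Pool.Agent.MSK.Dtm

/-! MSK / Gl: global definitions.

`K` a field, `Pl` a type of places, `ψ y : K →+* LaurentSeries (κ y)`. An object `Ob` is a finite index type with a lattice
`b y` (in `LaurentSeries (κ y)^ι`) for every place; `IsoM O O' h h'`: the matrices `h`, `h'` over `K` are inverse isomorphisms which preserve
all lattices. `Typing`: a class of objects with types `r` in an abelian group `X`, objects of the same type are isomorphic. `CX O0 O1`: a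
`ℤ/2`-graded complex `D0 : O0 → O1`, `D1 : O1 → O0` over `K` which is contractible over `K` and over every lattice. `CC`: with types.
`IsPsi`: the value of a complex with `O0` isomorphic to `O1`. `NT`: subgroup of the product of the `(κ y)ˣ` generated by signs, tame symbols of
pairs of elements of `K`, values of automorphisms. -/

set_option autoImplicit false
set_option linter.unusedVariables false

namespace MSK

open Matrix

universe u v w x

section Defs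

variable {Pl : Type v} (κ : Pl → Type w) [∀ y, Field (κ y)]

/-- objects: lattices at all places -/
structure Ob where
  ι : Type
  [fi : Fintype ι]
  [de : DecidableEq ι]
  b : ∀ y, GL ι (LaurentSeries (κ y))

attribute [instance] Ob.fi Ob.de

variable {κ}

/-- direct sum -/
noncomputable def Ob.sum (O O' : Ob κ) : Ob κ := ⟨O.ι ⊕ O'.ι, fun y => bd (O.b y) (O'.b y)⟩

/-- the zero object -/
noncomputable def Ob.emp : Ob κ := ⟨PEmpty, fun _ => 1⟩

variable {K : Type u} [Field K] (ψ : ∀ y, K →+* LaurentSeries (κ y))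

/-- isomorphisms of objects -/
structure IsoM (O O' : Ob κ) (h : Matrix O'.ι O.ι K) (h' : Matrix O.ι O'.ι K) : Prop where
  hh' : h * h' = 1
  h'h : h' * h = 1
  loc : ∀ y, LI (O'.b y) (O.b y) (h.map (ψ y))
  loc' : ∀ y, LI (O.b y) (O'.b y) (h'.map (ψ y))

/-- a class of objects with types -/
structure Typing (X : Type x) [AddCommGroup X] where
  Ty : Ob κ → X → Prop
  sum : ∀ {O O' : Ob κ} {r r' : X}, Ty O r → Ty O' r' → Ty (O.sum O') (r + r')
  iso : ∀ {O O' : Ob κ} {r : X}, Ty O r → Ty O' r → ∃ h h', IsoM ψ O O' h h'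
  emp : Ty Ob.emp 0

/-- complexes exact over `K` and over all lattices -/
structure CX (O0 O1 : Ob κ) where
  D0 : Matrix O1.ι O0.ι K
  D1 : Matrix O0.ι O1.ι K
  con : ∃ (s0 : Matrix O1.ι O0.ι K) (s1 : Matrix O0.ι O1.ι K), IsC D0 D1 s0 s1
  loc : ∀ y, ∃ (t0 : Matrix O1.ι O0.ι (LaurentSeries (κ y)))
    (t1 : Matrix O0.ι O1.ι (LaurentSeries (κ y))),
    Lo2 (O0.b y) (O1.b y) (D0.map (ψ y)) (D1.map (ψ y)) t0 t1

variable {ψ}

theorem gl_map_neg {m n R R' : Type*} [Ring R] [Ring R'] (f : R →+* R') (M : Matrix m n R) :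
    (-M).map f = -(M.map f) := by
  ext i j
  simp

theorem gl_map_zero {m n R R' : Type*} [Ring R] [Ring R'] (f : R →+* R') :
    (0 : Matrix m n R).map f = 0 := by
  ext i j
  simp

theorem gl_map_rel {ι κ ι' κ' : Type*} [Fintype ι] [Fintype κ'] {R R' : Type*} [Ring R] [Ring R']
    (f : R →+* R') {A : Matrix κ ι R} {B : Matrix ι ι' R} {C : Matrix κ κ' R} {D : Matrix κ' ι' R}
    (h : A * B + C * D = 0) : A.map f * B.map f + C.map f * D.map f = 0 := by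
  rw [← Matrix.map_mul, ← Matrix.map_mul, ← Matrix.map_add _ (map_add f), h, gl_map_zero]

/-- shift (with the sign) -/
noncomputable def CX.sh {O0 O1 : Ob κ} (c : CX ψ O0 O1) : CX ψ O1 O0 where
  D0 := -c.D1
  D1 := -c.D0
  con := by
    obtain ⟨s0, s1, h⟩ := c.con
    exact ⟨-s1, -s0, h.symm.neg⟩
  loc := by
    intro y
    obtain ⟨t0, t1, h, l0, l1, m0, m1⟩ := c.loc y
    refine ⟨-t1, -t0, ?_⟩
    rw [gl_map_neg, gl_map_neg]
    exact ⟨h.symm.neg, LI_neg l1, LI_neg l0, LI_neg m1, LI_neg m0⟩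

/-- block triangular sum -/
noncomputable def CX.blk {O0 O1 O0' O1' : Ob κ} (c : CX ψ O0 O1) (c' : CX ψ O0' O1')
    (e0 : Matrix O1.ι O0'.ι K) (e1 : Matrix O0.ι O1'.ι K)
    (h01 : c.D0 * e1 + e0 * c'.D1 = 0) (h10 : c.D1 * e0 + e1 * c'.D0 = 0)
    (he0 : ∀ y, LI (O1.b y) (O0'.b y) (e0.map (ψ y)))
    (he1 : ∀ y, LI (O0.b y) (O1'.b y) (e1.map (ψ y))) :
    CX ψ (O0.sum O0') (O1.sum O1') where
  D0 := Matrix.fromBlocks c.D0 e0 0 c'.D0
  D1 := Matrix.fromBlocks c.D1 e1 0 c'.D1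
  con := by
    obtain ⟨s0, s1, h⟩ := c.con
    obtain ⟨r0, r1, h'⟩ := c'.con
    exact ⟨_, _, h.block h' e0 e1 h01 h10⟩
  loc := by
    intro y
    obtain ⟨t0, t1, h, l0, l1, m0, m1⟩ := c.loc y
    obtain ⟨r0, r1, h', l0', l1', m0', m1'⟩ := c'.loc y
    have a0 : (Matrix.fromBlocks c.D0 e0 0 c'.D0).map (ψ y) =
        Matrix.fromBlocks (c.D0.map (ψ y)) (e0.map (ψ y)) 0 (c'.D0.map (ψ y)) := by
      rw [Matrix.fromBlocks_map, gl_map_zero]
    have a1 : (Matrix.fromBlocks c.D1 e1 0 c'.D1).map (ψ y) =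
        Matrix.fromBlocks (c.D1.map (ψ y)) (e1.map (ψ y)) 0 (c'.D1.map (ψ y)) := by
      rw [Matrix.fromBlocks_map, gl_map_zero]
    have b0 := h.block h' (e0.map (ψ y)) (e1.map (ψ y)) (gl_map_rel (ψ y) h01)
      (gl_map_rel (ψ y) h10)
    have key : Lo2 (bd (O0.b y) (O0'.b y)) (bd (O1.b y) (O1'.b y))
        (Matrix.fromBlocks (c.D0.map (ψ y)) (e0.map (ψ y)) 0 (c'.D0.map (ψ y)))
        (Matrix.fromBlocks (c.D1.map (ψ y)) (e1.map (ψ y)) 0 (c'.D1.map (ψ y)))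
        (Matrix.fromBlocks t0 (-(t0 * e1.map (ψ y) * r0)) 0 r0)
        (Matrix.fromBlocks t1 (-(t1 * e0.map (ψ y) * r1)) 0 r1) :=
      ⟨b0, LI_fromBlocks l0 (he0 y) LI_zero l0', LI_fromBlocks l1 (he1 y) LI_zero l1',
        LI_fromBlocks m0 (LI_neg (LI_mul (LI_mul m0 (he1 y)) m0')) LI_zero m0',
        LI_fromBlocks m1 (LI_neg (LI_mul (LI_mul m1 (he0 y)) m1')) LI_zero m1'⟩
    rw [← a0, ← a1] at key
    exact ⟨_, _, key⟩

/-- direct sum -/
noncomputable def CX.sum {O0 O1 O0' O1' : Ob κ} (c : CX ψ O0 O1) (c' : CX ψ O0' O1') :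
    CX ψ (O0.sum O0') (O1.sum O1') where
  D0 := Matrix.fromBlocks c.D0 0 0 c'.D0
  D1 := Matrix.fromBlocks c.D1 0 0 c'.D1
  con := (c.blk c' 0 0 (by rw [Matrix.mul_zero, Matrix.zero_mul, add_zero])
    (by rw [Matrix.mul_zero, Matrix.zero_mul, add_zero])
    (fun y => by rw [gl_map_zero]; exact LI_zero) (fun y => by rw [gl_map_zero]; exact LI_zero)).con
  loc := (c.blk c' 0 0 (by rw [Matrix.mul_zero, Matrix.zero_mul, add_zero])
    (by rw [Matrix.mul_zero, Matrix.zero_mul, add_zero])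
    (fun y => by rw [gl_map_zero]; exact LI_zero) (fun y => by rw [gl_map_zero]; exact LI_zero)).loc

/-- the zero complex -/
noncomputable def CX.emp : CX ψ (Ob.emp (κ := κ)) (Ob.emp (κ := κ)) where
  D0 := 0
  D1 := 0
  con := ⟨0, 0, ⟨by ext i; exact PEmpty.elim i, by ext i; exact PEmpty.elim i,
    by ext i; exact PEmpty.elim i, by ext i; exact PEmpty.elim i,
    by ext i; exact PEmpty.elim i, by ext i; exact PEmpty.elim i⟩⟩
  loc := fun y => ⟨0, 0, ⟨by ext i; exact PEmpty.elim i, by ext i; exact PEmpty.elim i,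
    by ext i; exact PEmpty.elim i, by ext i; exact PEmpty.elim i,
    by ext i; exact PEmpty.elim i, by ext i; exact PEmpty.elim i⟩,
    by rw [gl_map_zero]; exact LI_zero, by rw [gl_map_zero]; exact LI_zero, LI_zero, LI_zero⟩

/-- the value of a local automorphism -/
def LA {ι : Type*} [Fintype ι] [DecidableEq ι] {k : Type*} [Field k] (b : GL ι (LaurentSeries k))
    (g : Matrix ι ι (LaurentSeries k)) (G : St (ι ⊕ ℕ) (LaurentSeries k)) (a : kˣ) : Prop :=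
  ∃ ℓ, LL b g ℓ ∧ a = df ℓ G

variable (ψ) in
/-- `a` is the value of the automorphism `g` of the object `O` -/
def IsTh (O : Ob κ) (g : Matrix O.ι O.ι K) (a : ∀ y, (κ y)ˣ) : Prop :=
  ∃ (g' : Matrix O.ι O.ι K) (G : St (O.ι ⊕ ℕ) K), IsoM ψ O O g g' ∧ LftM 1 g G ∧
    ∀ y, LA (O.b y) (g.map (ψ y)) (map (ψ y) G) (a y)

variable (ψ) in
/-- signs and tame symbols -/
def SgT : Subgroup (∀ y, (κ y)ˣ) :=
  Subgroup.closure ({z | ∀ y, z y = 1 ∨ z y = -1} ∪
    {z | ∃ (f g : Kˣ) (n m : Pl → ℤ) (u v : ∀ y, (PowerSeries (κ y))ˣ),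
      (∀ y, Units.map (ψ y).toMonoidHom f = tt (κ y) ^ n y * uO (u y)) ∧
      (∀ y, Units.map (ψ y).toMonoidHom g = tt (κ y) ^ m y * uO (v y)) ∧
      z = fun y => c0 (u y) ^ m y * (c0 (v y) ^ n y)⁻¹})

variable {X : Type x} [AddCommGroup X]

/-- values of automorphisms -/
def ThS (τ : Typing ψ X) : Subgroup (∀ y, (κ y)ˣ) :=
  Subgroup.closure {a | ∃ (O : Ob κ) (r : X) (g : Matrix O.ι O.ι K), τ.Ty O r ∧ IsTh ψ O g a}

/-- signs, tame symbols, values of automorphisms -/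
def NT (τ : Typing ψ X) : Subgroup (∀ y, (κ y)ˣ) := SgT ψ ⊔ ThS τ

/-- the value of a complex with isomorphic terms -/
def IsPsi {O0 O1 : Ob κ} (c : CX ψ O0 O1) (z : ∀ y, (κ y)ˣ) : Prop :=
  ∃ (h : Matrix O0.ι O1.ι K) (h' : Matrix O1.ι O0.ι K) (s0 : Matrix O1.ι O0.ι K)
    (s1 : Matrix O0.ι O1.ι K) (P : St (O0.ι ⊕ ℕ) K), IsoM ψ O1 O0 h h' ∧
    IsC c.D0 c.D1 s0 s1 ∧ LftM 1 ((c.D1 + s1) * h') P ∧
    ∀ y, LV (O0.b y) ((h * c.D0).map (ψ y)) ((c.D1 * h').map (ψ y)) ((h * s0).map (ψ y))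
      ((s1 * h').map (ψ y)) (map (ψ y) P) (z y)

/-- complexes with types -/
structure CC (τ : Typing ψ X) where
  O0 : Ob κ
  O1 : Ob κ
  r0 : X
  r1 : X
  ty0 : τ.Ty O0 r0
  ty1 : τ.Ty O1 r1
  c : CX ψ O0 O1

variable {τ : Typing ψ X}

/-- direct sum -/
noncomputable def CC.sum (C C' : CC τ) : CC τ :=
  ⟨C.O0.sum C'.O0, C.O1.sum C'.O1, C.r0 + C'.r0, C.r1 + C'.r1, τ.sum C.ty0 C'.ty0,
    τ.sum C.ty1 C'.ty1, C.c.sum C'.c⟩

/-- shift -/
noncomputable def CC.sh (C : CC τ) : CC τ := ⟨C.O1, C.O0, C.r1, C.r0, C.ty1, C.ty0, C.c.sh⟩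

/-- the zero complex -/
noncomputable def CC.emp : CC τ := ⟨Ob.emp, Ob.emp, 0, 0, τ.emp, τ.emp, CX.emp⟩

/-- Euler characteristic -/
def CC.chi (C : CC τ) : X := C.r0 - C.r1

/-- isomorphic complexes -/
def CC.Iso (C C' : CC τ) : Prop :=
  C.r0 = C'.r0 ∧ C.r1 = C'.r1 ∧ ∃ (h0 : Matrix C'.O0.ι C.O0.ι K) (h0' : Matrix C.O0.ι C'.O0.ι K)
    (h1 : Matrix C'.O1.ι C.O1.ι K) (h1' : Matrix C.O1.ι C'.O1.ι K),
    IsoM ψ C.O0 C'.O0 h0 h0' ∧ IsoM ψ C.O1 C'.O1 h1 h1' ∧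
    C'.c.D0 * h0 = h1 * C.c.D0 ∧ C'.c.D1 * h1 = h0 * C.c.D1

open Classical in
/-- the value in the quotient by `NT` (if the terms are isomorphic) -/
noncomputable def CC.val (C : CC τ) : Additive ((∀ y, (κ y)ˣ) ⧸ NT τ) :=
  if h : ∃ z, IsPsi C.c z then Additive.ofMul (QuotientGroup.mk h.choose) else 0

end Defs

end MSK
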