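import Pool.Agent.MSK.Gth

/-! MSK / Gp1: the value `IsPsi` exists and is unique modulo `NT`; invariance under isomorphisms.

PROOFS. `IsPsi_exists`: contraction `s` over `K` (`c.con`), a lift `P` of `(D1 + s1) h'` over `K` (`exists_Lft'`; the inverse is `h (D0 + s0)`), `LV_exists` at every place
with the local contraction `h t0`, `t1 h'` (`IsC.conj`, `LI_mul`).
`IsPsi_unique`: (a) the same `h`: two pairs `(s, P)`, `(s', P')`: `LV_change` gives the value `z` for `s'` and the lift `P₁ = L0(s' - s) P L1(s' - s)` (over `K`; `map_L0`, `map_L1`), and `P'` differs from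
`P₁` by an element `q` of `K2 K`: `LV_mul_K2`, `LV_unique`, `SgT_del`. (b) `h` and `h₂`: `g = h₂ h'` is an automorphism of `O0`; the complex for `h₂` is obtained from that for
`h` by `g0 = 1`, `g1 = g` in `LV_conj`, so the values differ by a value of `g` (`IsTh_exists`), in `ThS`.
`IsPsi_iso`: new identification `h₂ = h0 h h1'`; the square complex on `O0'` is the conjugate of that on `O0` by `h0`: choose `e : O0.ι ≃ O0'.ι`, then
`LV_reindex`, `LV_basis`, `LV_lattice` as in `Gth.IsTh_iso`. -/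

set_option autoImplicit false
set_option linter.unusedVariables false

namespace MSK

open Matrix

universe u v w x

variable {Pl : Type v} {κ : Pl → Type w} [∀ y, Field (κ y)] {K : Type u} [Field K]
  {ψ : ∀ y, K →+* LaurentSeries (κ y)} {X : Type x} [AddCommGroup X]

section aux

private theorem Lo2_sq {O0 O1 : Ob κ} (c : CX ψ O0 O1) {h : Matrix O0.ι O1.ι K}
    {h' : Matrix O1.ι O0.ι K} (i : IsoM ψ O1 O0 h h') (y : Pl) :
    ∃ t0 t1, Lo2 (O0.b y) (O0.b y) ((h * c.D0).map (ψ y)) ((c.D1 * h').map (ψ y)) t0 t1 := by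
  obtain ⟨t0, t1, ht, lD0, lD1, lt0, lt1⟩ := c.loc y
  have e1 : h'.map (ψ y) * h.map (ψ y) = 1 := by
    rw [← Matrix.map_mul, i.h'h, Matrix.map_one _ (map_zero _) (map_one _)]
  have e2 : h.map (ψ y) * h'.map (ψ y) = 1 := by
    rw [← Matrix.map_mul, i.hh', Matrix.map_one _ (map_zero _) (map_one _)]
  have h1 := ht.conj (1 : Matrix O0.ι O0.ι (LaurentSeries (κ y))) 1 (h.map (ψ y)) (h'.map (ψ y))
    (Matrix.one_mul 1) (Matrix.one_mul 1) e1 e2
  simp only [Matrix.mul_one, Matrix.one_mul] at h1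
  refine ⟨h.map (ψ y) * t0, t1 * h'.map (ψ y), ?_, ?_, ?_, ?_, ?_⟩
  · rw [Matrix.map_mul, Matrix.map_mul]
    exact h1
  · rw [Matrix.map_mul]
    exact LI_mul (i.loc y) lD0
  · rw [Matrix.map_mul]
    exact LI_mul lD1 (i.loc' y)
  · exact LI_mul (i.loc y) lt0
  · exact LI_mul lt1 (i.loc' y)

private theorem IsC_sq {O0 O1 : Ob κ} {D0 s0 : Matrix O1.ι O0.ι K} {D1 s1 : Matrix O0.ι O1.ι K}
    (hs : IsC D0 D1 s0 s1) {h : Matrix O0.ι O1.ι K}
    {h' : Matrix O1.ι O0.ι K} (i : IsoM ψ O1 O0 h h') :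
    IsC (h * D0) (D1 * h') (h * s0) (s1 * h') := by
  have h1 := hs.conj (1 : Matrix O0.ι O0.ι K) 1 h h'
    (Matrix.one_mul 1) (Matrix.one_mul 1) i.h'h i.hh'
  simp only [Matrix.mul_one, Matrix.one_mul] at h1
  exact h1

private theorem exists_LftM {ι : Type*} [Fintype ι] [DecidableEq ι] (n : ℕ) {A B : Matrix ι ι K}
    (h : A * B = 1) : ∃ P : St (ι ⊕ ℕ) K, LftM n A P := by
  obtain ⟨P, hP⟩ := exists_Lft' n (⟨A, B, h, mul_eq_one_comm.1 h⟩ : GL ι K)
  exact ⟨P, _, rfl, hP⟩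

private theorem LftM_inv {ι : Type*} [Fintype ι] [DecidableEq ι] {R : Type*} [CommRing R] {n : ℕ}
    {A B : Matrix ι ι R} {P : St (ι ⊕ ℕ) R} (hP : LftM n A P) (h : A * B = 1) :
    LftM n B P⁻¹ := by
  obtain ⟨g, hg, hP⟩ := hP
  refine ⟨g⁻¹, ?_, Lft_inv hP⟩
  calc ((g⁻¹ : GL ι R) : Matrix ι ι R) = ((g⁻¹ : GL ι R) : Matrix ι ι R) * (A * B) := by
        rw [h, Matrix.mul_one]
    _ = B := by rw [← hg, GL_cancel_left]

private theorem LftM_mapM {ι : Type*} [Fintype ι] [DecidableEq ι] {R R' : Type*} [CommRing R]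
    [CommRing R'] (f : R →+* R') {n : ℕ} {A : Matrix ι ι R} {P : St (ι ⊕ ℕ) R} (hP : LftM n A P) :
    LftM n (A.map f) (map f P) := by
  obtain ⟨g, hg, hP⟩ := hP
  exact ⟨Matrix.GeneralLinearGroup.map f g, by rw [coe_mapG, hg], Lft_map f hP⟩

private theorem LftM_one {ι : Type*} [Fintype ι] [DecidableEq ι] {R : Type*} [CommRing R] (n : ℕ) :
    LftM n (1 : Matrix ι ι R) 1 := ⟨1, Units.val_one, Lft_one n⟩

private theorem sum_eq {ι κ' : Type*} [Fintype κ'] {R : Type*} [CommRing R] {D1 s1 : Matrix ι κ' R}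
    {μ : Type*} (h' : Matrix κ' μ R) : D1 * h' + s1 * h' = (D1 + s1) * h' := by
  rw [Matrix.add_mul]

private theorem map_sum_eq {ι : Type*} {R R' : Type*} [CommRing R] [CommRing R'] (f : R →+* R')
    {A B C : Matrix ι ι R} (h : A + B = C) : A.map f + B.map f = C.map f := by
  rw [← h, Matrix.map_add _ (map_add f)]

/-- the same identification -/
private theorem IsPsi_aux [Infinite K] {ι : Type*} [Fintype ι] [DecidableEq ι]
    (b : ∀ y, GL ι (LaurentSeries (κ y))) {D0 D1 s0 s1 r0 r1 : Matrix ι ι K}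
    (hs : IsC D0 D1 s0 s1) (hr : IsC D0 D1 r0 r1) {P Q : St (ι ⊕ ℕ) K}
    (hP : LftM 1 (D1 + s1) P) (hQ : LftM 1 (D1 + r1) Q) {z z' : ∀ y, (κ y)ˣ}
    (hz : ∀ y, LV (b y) (D0.map (ψ y)) (D1.map (ψ y)) (s0.map (ψ y)) (s1.map (ψ y))
      (map (ψ y) P) (z y))
    (hz' : ∀ y, LV (b y) (D0.map (ψ y)) (D1.map (ψ y)) (r0.map (ψ y)) (r1.map (ψ y))
      (map (ψ y) Q) (z' y)) : z * z'⁻¹ ∈ SgT ψ := by
  set P₁ : St (ι ⊕ ℕ) K := L0 D0 D1 s1 (r0 - s0) * P * L1 D0 D1 s0 (r1 - s1) with hP₁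
  have hP₁' : LftM 1 (D1 + r1) P₁ := by
    rw [hs.pi_change hr]
    exact LftM_mul (LftM_mul (LftM_L0 hs hr 1) hP) (LftM_L1 hs hr 1)
  have hq : P₁⁻¹ * Q ∈ K2 (ι ⊕ ℕ) K := by
    rw [mem_K2, map_mul, map_inv, LftM_phi_eq hP₁' hQ, inv_mul_cancel]
  have key : ∀ y, z y * (z' y)⁻¹ = del (map (ψ y) (P₁⁻¹ * Q)) := by
    intro y
    have hs' := hs.map (ψ y)
    have hr' := hr.map (ψ y)
    have hPy : LftM 1 (D1.map (ψ y) + s1.map (ψ y)) (map (ψ y) P) := by
      rw [← Matrix.map_add _ (map_add (ψ y))]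
      exact LftM_mapM (ψ y) hP
    have hQy : LftM 1 (D1.map (ψ y) + r1.map (ψ y)) (map (ψ y) Q) := by
      rw [← Matrix.map_add _ (map_add (ψ y))]
      exact LftM_mapM (ψ y) hQ
    have hP₁y : LftM 1 (D1.map (ψ y) + r1.map (ψ y)) (map (ψ y) P₁) := by
      rw [← Matrix.map_add _ (map_add (ψ y))]
      exact LftM_mapM (ψ y) hP₁'
    have h1 := LV_change hs' hr' hPy (hz y)
    have h2 : L0 (D0.map (ψ y)) (D1.map (ψ y)) (s1.map (ψ y)) (r0.map (ψ y) - s0.map (ψ y)) *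
        map (ψ y) P * L1 (D0.map (ψ y)) (D1.map (ψ y)) (s0.map (ψ y))
          (r1.map (ψ y) - s1.map (ψ y)) = map (ψ y) P₁ := by
      rw [hP₁, map_mul, map_mul, map_L0 (ψ y) hs.d01, map_L1 (ψ y) hs.d10,
        Matrix.map_sub _ (map_sub (ψ y)), Matrix.map_sub _ (map_sub (ψ y))]
    rw [h2] at h1
    have h3 := LV_mul_K2 hr' hP₁y h1 (map_mem_K2 (ψ y) hq)
    have h4 : map (ψ y) P₁ * map (ψ y) (P₁⁻¹ * Q) = map (ψ y) Q := by
      rw [← map_mul, mul_inv_cancel_left]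
    rw [h4] at h3
    have h5 := LV_unique hr' hQy h3 (hz' y)
    rw [← h5, _root_.mul_inv_rev, inv_inv, mul_comm (del _), mul_inv_cancel_left]
  have h6 : z * z'⁻¹ = fun y => del (map (ψ y) (P₁⁻¹ * Q)) := funext key
  rw [h6]
  exact SgT_del hq

private theorem map_emb' {J J' : Type*} {R R' : Type*} [CommRing R] [CommRing R'] (f : R →+* R')
    (e : J → J') (he : Function.Injective e) (s : St J R) :
    map f (emb e he s) = emb e he (map f s) := by
  have h : (map f).comp (emb e he) = (emb e he).comp (map f) := by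
    refine hom_ext fun i j a => ?_
    simp only [MonoidHom.comp_apply, emb_x, map_x]
  exact DFunLike.congr_fun h s

private theorem conj_rx {ι ι' : Type*} [Fintype ι] [DecidableEq ι] [Fintype ι'] [DecidableEq ι']
    {R : Type*} [CommRing R] {M : Matrix ι' ι R} {M' : Matrix ι ι' R} (e : ι ≃ ι')
    (X : Matrix ι ι R) :
    M.submatrix id e.symm * X.reindex e e * M'.submatrix e.symm id = M * X * M' := by
  rw [Matrix.reindex_apply, Matrix.submatrix_mul_equiv, Matrix.submatrix_mul_equiv,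
    Matrix.submatrix_id_id]

/-- the local value and isomorphisms of lattices -/
private theorem LV_iso_loc {ι ι' : Type*} [Fintype ι] [DecidableEq ι] [Fintype ι'] [DecidableEq ι']
    {k : Type*} [Field k] {b : GL ι (LaurentSeries k)} {b' : GL ι' (LaurentSeries k)}
    {M : Matrix ι' ι (LaurentSeries k)} {M' : Matrix ι ι' (LaurentSeries k)} (h1 : M * M' = 1)
    (h2 : M' * M = 1) (hM : LI b' b M) (hM' : LI b b' M') (e : ι ≃ ι')
    {g : GL ι' (LaurentSeries k)} (hg : (g : Matrix ι' ι' (LaurentSeries k)) =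
      M.submatrix id e.symm) (hg' : ((g⁻¹ : GL ι' (LaurentSeries k)) :
      Matrix ι' ι' (LaurentSeries k)) = M'.submatrix e.symm id)
    {D0 D1 s0 s1 : Matrix ι ι (LaurentSeries k)} {P : St (ι ⊕ ℕ) (LaurentSeries k)} {z : kˣ}
    (h : IsC D0 D1 s0 s1) (hP : LftM 1 (D1 + s1) P) (hz : LV b D0 D1 s0 s1 P z)
    {H : St (ι' ⊕ ℕ) (LaurentSeries k)} (hH : Lft 0 g H)
    (he : Function.Injective (Sum.map e (id : ℕ → ℕ))) :
    LV b' (M * D0 * M') (M * D1 * M') (M * s0 * M') (M * s1 * M')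
      (H * emb (Sum.map e (id : ℕ → ℕ)) he P * H⁻¹) z := by
  obtain ⟨N, hN⟩ := hM
  obtain ⟨N', hN'⟩ := hM'
  have hNN : N * N' = 1 := by
    apply map_iO_inj
    rw [Matrix.map_mul, Matrix.map_one _ (map_zero _) (map_one _)]
    rw [hN, hN'] at h1
    have h3 := congrArg (fun X => ((b'⁻¹ : GL ι' (LaurentSeries k)) :
      Matrix ι' ι' (LaurentSeries k)) * (X * (b' : Matrix ι' ι' (LaurentSeries k)))) h1
    simp only [Matrix.mul_assoc, Matrix.one_mul] at h3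
    rw [GL_inv_mul, Matrix.mul_one, GL_cancel_left, GL_cancel_left] at h3
    exact h3
  have hNN' : N' * N = 1 := by
    apply map_iO_inj
    rw [Matrix.map_mul, Matrix.map_one _ (map_zero _) (map_one _)]
    rw [hN, hN'] at h2
    have h3 := congrArg (fun X => ((b⁻¹ : GL ι (LaurentSeries k)) :
      Matrix ι ι (LaurentSeries k)) * (X * (b : Matrix ι ι (LaurentSeries k)))) h2
    simp only [Matrix.mul_assoc, Matrix.one_mul] at h3
    rw [GL_inv_mul, Matrix.mul_one, GL_cancel_left, GL_cancel_left] at h3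
    exact h3
  let u : GL ι' (PowerSeries k) :=
    ⟨N'.submatrix e.symm id, N.submatrix id e.symm, by
      have := Matrix.submatrix_mul_equiv N' N e.symm (Equiv.refl ι') e.symm
      rw [Equiv.coe_refl] at this
      rw [this, hNN', Matrix.submatrix_one_equiv], by
      rw [Matrix.submatrix_mul_equiv, hNN, Matrix.submatrix_id_id]⟩
  have hb : g * rx e b * Matrix.GeneralLinearGroup.map (iO k) u = b' := by
    have h3 : g * rx e b = b' * (Matrix.GeneralLinearGroup.map (iO k) u)⁻¹ := by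
      apply Units.ext
      rw [Units.val_mul, Units.val_mul, coe_rx, hg, hN, Matrix.reindex_apply,
        Matrix.submatrix_mul_equiv, Matrix.mul_assoc _ _ (b : Matrix ι ι (LaurentSeries k)),
        GL_inv_mul, Matrix.mul_one]
      rfl
    rw [h3, inv_mul_cancel_right]
  have e1 : ∀ X : Matrix ι ι (LaurentSeries k),
      (g : Matrix ι' ι' (LaurentSeries k)) * X.reindex e e *
        ((g⁻¹ : GL ι' (LaurentSeries k)) : Matrix ι' ι' (LaurentSeries k)) = M * X * M' := by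
    intro X
    rw [hg, hg', conj_rx]
  have a1 := LV_reindex h hP hz e he (rx e b) (coe_rx e b)
  have hC : IsC (D0.reindex e e) (D1.reindex e e) (s0.reindex e e) (s1.reindex e e) := by
    obtain ⟨c1, c2, c3, c4, c5, c6⟩ := h
    simp only [Matrix.reindex_apply]
    refine ⟨?_, ?_, ?_, ?_, ?_, ?_⟩
    · rw [Matrix.submatrix_mul_equiv, c1]
      rfl
    · rw [Matrix.submatrix_mul_equiv, c2]
      rfl
    · rw [Matrix.submatrix_mul_equiv, Matrix.submatrix_mul_equiv]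
      change (D1 * s0 + s1 * D0).submatrix e.symm e.symm = 1
      rw [c3, Matrix.submatrix_one_equiv]
    · rw [Matrix.submatrix_mul_equiv, Matrix.submatrix_mul_equiv]
      change (D0 * s1 + s0 * D1).submatrix e.symm e.symm = 1
      rw [c4, Matrix.submatrix_one_equiv]
    · rw [Matrix.submatrix_mul_equiv, c5]
      rfl
    · rw [Matrix.submatrix_mul_equiv, c6]
      rfl
  have hPe : LftM 1 (D1.reindex e e + s1.reindex e e)
      (emb (Sum.map e (id : ℕ → ℕ)) he P) := by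
    obtain ⟨γ, hγ, hl⟩ := hP
    refine ⟨rx e γ, ?_, Lft_rx hl e he⟩
    rw [coe_rx, hγ]
    rfl
  have a2 := LV_basis hC hPe a1 hH
  have a3 := LV_lattice a2 u
  rw [hb, e1, e1, e1, e1] at a3
  exact a3

end aux

theorem IsPsi_exists {O0 O1 : Ob κ} (c : CX ψ O0 O1) {h : Matrix O0.ι O1.ι K}
    {h' : Matrix O1.ι O0.ι K} (i : IsoM ψ O1 O0 h h') : ∃ z, IsPsi c z := by
  obtain ⟨s0, s1, hs⟩ := c.con
  have hC := IsC_sq hs i
  have h1 : (c.D1 + s1) * h' * (h * (c.D0 + s0)) = 1 := by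
    have h2 := hC.pi_mul
    rw [sum_eq] at h2
    rw [Matrix.mul_add]
    exact h2
  obtain ⟨P, hP⟩ := exists_LftM 1 h1
  have h3 : ∀ y, ∃ z, LV (O0.b y) ((h * c.D0).map (ψ y)) ((c.D1 * h').map (ψ y))
      ((h * s0).map (ψ y)) ((s1 * h').map (ψ y)) (map (ψ y) P) z := by
    intro y
    obtain ⟨t0, t1, ht⟩ := Lo2_sq c i y
    exact LV_exists (hC.map (ψ y)) ht
  choose z hz using h3
  exact ⟨z, h, h', s0, s1, P, i, hs, hP, hz⟩

theorem IsPsi_unique [Infinite K] (τ : Typing ψ X) {O0 O1 : Ob κ} {r : X} (hr : τ.Ty O0 r)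
    (c : CX ψ O0 O1) {z z' : ∀ y, (κ y)ˣ} (hz : IsPsi c z) (hz' : IsPsi c z') :
    z * z'⁻¹ ∈ NT τ := by
  obtain ⟨h, h', s0, s1, P, i, hs, hP, hz⟩ := hz
  obtain ⟨k, k', r0, r1, Q, j, hr', hQ, hz'⟩ := hz'
  have ig : IsoM ψ O0 O0 (h * k') (k * h') := IsoM_trans (IsoM_symm j) i
  obtain ⟨a, ha⟩ := IsTh_exists ig
  have haT : a ∈ NT τ :=
    (le_sup_right : ThS τ ≤ SgT ψ ⊔ ThS τ) (Subgroup.subset_closure ⟨O0, r, _, hr, ha⟩)
  obtain ⟨g', G, ig', hG, hGa⟩ := ha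
  have hkC := IsC_sq hr' j
  have hQi : LftM 1 (c.D1 * h' + r1 * h') (Q * G⁻¹) := by
    have h1 := LftM_mul hQ (LftM_inv hG ig.hh')
    have h2 : (c.D1 + r1) * k' * (k * h') = c.D1 * h' + r1 * h' := by
      rw [sum_eq, Matrix.mul_assoc, ← Matrix.mul_assoc k', j.h'h, Matrix.one_mul]
    rwa [h2] at h1
  have hval : ∀ y, LV (O0.b y) ((h * c.D0).map (ψ y)) ((c.D1 * h').map (ψ y))
      ((h * r0).map (ψ y)) ((r1 * h').map (ψ y)) (map (ψ y) (Q * G⁻¹)) ((z' * a⁻¹) y) := by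
    intro y
    have hg : (h * k').map (ψ y) * (k * h').map (ψ y) = 1 := by
      rw [← Matrix.map_mul, ig.hh', Matrix.map_one _ (map_zero _) (map_one _)]
    have hQy : LftM 1 ((c.D1 * k').map (ψ y) + (r1 * k').map (ψ y)) (map (ψ y) Q) := by
      rw [← Matrix.map_add _ (map_add (ψ y)), sum_eq]
      exact LftM_mapM (ψ y) hQ
    have h1 := LV_conj (hkC.map (ψ y)) hQy (hz' y) (Matrix.one_mul 1) hg LI_one LI_one
      (ig.loc y) (ig.loc' y) (LftM_one 1) (LftM_mapM (ψ y) hG) LA_one (hGa y)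
    have e0 : ∀ X : Matrix O1.ι O0.ι K, (h * k').map (ψ y) * (k * X).map (ψ y) *
        (1 : Matrix O0.ι O0.ι (LaurentSeries (κ y))) = (h * X).map (ψ y) := by
      intro X
      rw [Matrix.mul_one, ← Matrix.map_mul, Matrix.mul_assoc, ← Matrix.mul_assoc k', j.h'h,
        Matrix.one_mul]
    have e1 : ∀ X : Matrix O0.ι O1.ι K, (1 : Matrix O0.ι O0.ι (LaurentSeries (κ y))) *
        (X * k').map (ψ y) * (k * h').map (ψ y) = (X * h').map (ψ y) := by
      intro X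
      rw [Matrix.one_mul, ← Matrix.map_mul, Matrix.mul_assoc, ← Matrix.mul_assoc k', j.h'h,
        Matrix.one_mul]
    rw [e0, e0, e1, e1, one_mul, mul_one, ← map_inv, ← map_mul] at h1
    exact h1
  have h3 : z * (z' * a⁻¹)⁻¹ ∈ SgT ψ := by
    refine IsPsi_aux O0.b (IsC_sq hs i) (IsC_sq hr' i) (P := P) (Q := Q * G⁻¹) ?_ hQi hz hval
    rw [sum_eq]
    exact hP
  have h4 : z * z'⁻¹ = z * (z' * a⁻¹)⁻¹ * a⁻¹ := by
    rw [_root_.mul_inv_rev, inv_inv]
    rw [mul_comm a, mul_assoc, mul_assoc, mul_inv_cancel, mul_one]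
  rw [h4]
  exact Subgroup.mul_mem _ ((le_sup_left : SgT ψ ≤ SgT ψ ⊔ ThS τ) h3) (Subgroup.inv_mem _ haT)

theorem IsPsi_iso {O0 O1 O0' O1' : Ob κ} (c : CX ψ O0 O1) (c' : CX ψ O0' O1')
    {h0 : Matrix O0'.ι O0.ι K} {h0' : Matrix O0.ι O0'.ι K} {h1 : Matrix O1'.ι O1.ι K}
    {h1' : Matrix O1.ι O1'.ι K} (i0 : IsoM ψ O0 O0' h0 h0') (i1 : IsoM ψ O1 O1' h1 h1')
    (e0 : c'.D0 * h0 = h1 * c.D0) (e1 : c'.D1 * h1 = h0 * c.D1) {z : ∀ y, (κ y)ˣ}
    (hz : IsPsi c z) : IsPsi c' z := by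
  obtain ⟨h, h', s0, s1, P, i, hs, hP, hz⟩ := hz
  have hD0 : c'.D0 = h1 * c.D0 * h0' := by
    rw [← e0, Matrix.mul_assoc, i0.hh', Matrix.mul_one]
  have hD1 : c'.D1 = h0 * c.D1 * h1' := by
    rw [← e1, Matrix.mul_assoc, i1.hh', Matrix.mul_one]
  have hcard : Fintype.card O0.ι = Fintype.card O0'.ι :=
    Matrix.square_of_invertible h0' h0 i0.h'h i0.hh'
  let e : O0.ι ≃ O0'.ι := Fintype.equivOfCardEq hcard
  have he : Function.Injective (Sum.map e (id : ℕ → ℕ)) :=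
    Function.Injective.sumMap e.injective Function.injective_id
  let g : GL O0'.ι K :=
    ⟨h0.submatrix id e.symm, h0'.submatrix e.symm id, by
      rw [Matrix.submatrix_mul_equiv, i0.hh', Matrix.submatrix_id_id], by
      have := Matrix.submatrix_mul_equiv h0' h0 e.symm (Equiv.refl O0'.ι) e.symm
      rw [Equiv.coe_refl] at this
      rw [this, i0.h'h, Matrix.submatrix_one_equiv]⟩
  obtain ⟨H, hH⟩ := exists_Lft' 0 g
  have k1 : ∀ X : Matrix O1.ι O0.ι K, h0 * h * h1' * (h1 * X * h0') = h0 * (h * X) * h0' := by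
    intro X
    rw [ct_mul4 _ _ _ _ _ _ i1.h'h]
  have k2 : ∀ X : Matrix O0.ι O1.ι K, h0 * X * h1' * (h1 * h' * h0') = h0 * (X * h') * h0' := by
    intro X
    rw [ct_mul4 _ _ _ _ _ _ i1.h'h]
  have hC := IsC_sq hs i
  refine ⟨h0 * h * h1', h1 * h' * h0', h1 * s0 * h0', h0 * s1 * h1',
    H * emb (Sum.map e (id : ℕ → ℕ)) he P * H⁻¹, ?_, ?_, ?_, ?_⟩
  · have h5 := IsoM_trans (IsoM_trans (IsoM_symm i1) i) i0
    rwa [← Matrix.mul_assoc] at h5
  · rw [hD0, hD1]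
    exact hs.conj h0 h0' h1 h1' i0.h'h i0.hh' i1.h'h i1.hh'
  · rw [hD1, ← Matrix.add_mul, ← Matrix.mul_add, k2]
    obtain ⟨γ, hγ, hl⟩ := hP
    refine ⟨g * rx e γ * g⁻¹, ?_, Lft_conj (Lft_rx hl e he) hH⟩
    rw [Units.val_mul, Units.val_mul, coe_rx, hγ]
    exact conj_rx e _
  · intro y
    rw [hD0, hD1, k1, k1, k2, k2, map_mul, map_mul, map_inv, map_emb']
    have hPy : LftM 1 ((c.D1 * h').map (ψ y) + (s1 * h').map (ψ y)) (map (ψ y) P) := by
      rw [← Matrix.map_add _ (map_add (ψ y)), sum_eq]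
      exact LftM_mapM (ψ y) hP
    have hM1 : h0.map (ψ y) * h0'.map (ψ y) = 1 := by
      rw [← Matrix.map_mul, i0.hh', Matrix.map_one _ (map_zero _) (map_one _)]
    have hM2 : h0'.map (ψ y) * h0.map (ψ y) = 1 := by
      rw [← Matrix.map_mul, i0.h'h, Matrix.map_one _ (map_zero _) (map_one _)]
    have h6 := LV_iso_loc hM1 hM2 (i0.loc y) (i0.loc' y) e
      (g := Matrix.GeneralLinearGroup.map (ψ y) g) rfl rfl (hC.map (ψ y)) hPy (hz y)
      (Lft_map (ψ y) hH) he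
    simp only [Matrix.map_mul] at h6 ⊢
    exact h6

end MSK
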