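import Pool.Agent.MSK.Lvc

/-! MSK / Lvb: additivity of the local value on block triangular complexes.

`D` on `ι` (lattice `b`), `F` on `κ` (lattice `b'`), off diagonal blocks `e0, e1`. Contraction of the block complex (`IsC.block`):
`[[s0, -s0 e1 r0], [0, r0]]`, `[[s1, -s1 e0 r1], [0, r1]]`. Put `q = e1 - s1 e0 r1` (off diagonal block of `D1 + s1` of the total), `M = (D0 + s0) q`:
`[[D1 + s1, q], [0, F1 + r1]] = diag * [[1, M], [0, 1]]`; lift `E1 P * E2 P' * Up M`.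
PROOF of `LV_block`. By `LV_eq` we may use for `D` and `F` any local contractions `t`, `w` and local lifts `ℓ`, `ℓ'`, and the total local
contraction is the block one, with `q_t`, `M_t`, `ℓ^tot = E1 ℓ * E2 ℓ' * Up M_t` (local lift: `LL_E1`, `LL_E2`, `LL_Up`, `LL_mul`).
(1) `L0^tot = E1 (L0) * E2 (L0') * Up N0` for some matrix `N0`: `L0^tot = Lam (-(D1^t Δ0^t t1^t)) D0^t`; all blocks are upper triangular; split the middle
index (`Lam_fromCols`): the columns of the first block give `Lam (fromRows A 0) (fromCols D0 e0)`, `A = -(D1 Δ0 t1)`, `= Lam (fromRows A 0) (fromCols D0 0) * Lam (fromRows A 0) (fromCols 0 e0)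
= E1 (Lam A D0) * Up (A e0)` (`Lam_add_right`, `E1_Lam`, `Up_mul`); the second block gives `Lam (fromRows B A') (fromCols 0 F0) = Up (B F0) * E2 (Lam A' F0)` (`Lam_add_left`,
`E2_Lam`). Same for `L1^tot`. `Up` is normalised by `E1`, `E2` (`conj_Up`, `Lft_E1`, `Lft_E2`), so it can be moved.
(2) `L0 * ...`: `E2 (L0')` commutes with `E1 ℓ` (`commute_E1_Lam`), `E1 (L1)` commutes with `E2 ℓ'` (`commute_Lam_E2`). So the product `L0^tot ℓ^tot L1^tot` is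
`E1 (L0 ℓ L1) * E2 (L0' ℓ' L1') * Up N` for some `N`, and the total lift is `E1 P * E2 P' * Up M`; both have the same action, so `N = M` (compare the actions:
`phi (E1 a) = phi (E1 P)`, `phi (E2 a') = phi (E2 P')`, so `phi (Up N) = phi (Up M)`, apply to `ev`). `df_mul`, `df_E1`, `df_E2`. -/

set_option autoImplicit false
set_option linter.unusedVariables false

namespace MSK

open Matrix

variable {ι κ : Type*} [Fintype ι] [DecidableEq ι] [Fintype κ] [DecidableEq κ]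
  {k : Type*} [Field k]

theorem Up_inj {R : Type*} [CommRing R] {M M' : Matrix ι κ R} (h : phi (Up M) = phi (Up M')) :
    M = M' := by
  ext i j
  have hz : ∀ M : Matrix ι κ R, Matrix.fromCols (0 : Matrix κ ι R) (1 : Matrix κ κ R) *
      Matrix.fromRows M (0 : Matrix κ κ R) = 0 := by
    intro M
    rw [Matrix.fromCols_mul_fromRows]
    simp
  have key : ∀ M : Matrix ι κ R, (phi (Up M) (ev (Pi.single (Sum.inr j) 1))) (Sum.inl (Sum.inl i)) =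
      M i j := by
    intro M
    unfold Up
    rw [phi_Lam _ _ (hz M), ev_inl, Pi.add_apply]
    have h1 : Matrix.fromCols (0 : Matrix κ ι R) (1 : Matrix κ κ R) *ᵥ
        (Pi.single (Sum.inr j) 1 : ι ⊕ κ → R) = Pi.single j 1 := by
      funext m
      rw [Matrix.mulVec_single_one]
      simp only [Matrix.col_apply, Matrix.fromCols_apply_inr, Matrix.one_apply, Pi.single_apply]
    rw [h1, Matrix.mulVec_single_one, Matrix.col_apply, Matrix.fromRows_apply_inl,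
      Pi.single_apply, if_neg (by simp), zero_add]
  rw [← key M, ← key M', h]


section aux

variable {R : Type*} [CommRing R]

private theorem vb_sub (A A' : Matrix ι ι R) (B B' : Matrix ι κ R) (C C' : Matrix κ κ R) :
    Matrix.fromBlocks A B 0 C - Matrix.fromBlocks A' B' 0 C' =
      Matrix.fromBlocks (A - A') (B - B') 0 (C - C') := by
  ext i j
  rcases i with i | i <;> rcases j with j | j <;> simp

private theorem vb_LftM_Lam {μ ν : Type*} [Fintype μ] [DecidableEq μ] [Fintype ν] [DecidableEq ν]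
    (n : ℕ) (A : Matrix μ ν R) (B : Matrix ν μ R) (h : B * A = 0) :
    LftM n (1 + A * B) (Lam A B) := by
  have h0 : A * B * (A * B) = 0 := by
    rw [Matrix.mul_assoc A B, ← Matrix.mul_assoc B A, h, Matrix.zero_mul, Matrix.mul_zero]
  have h1 : (1 + A * B) * (1 - A * B) = 1 := by
    rw [Matrix.add_mul, Matrix.mul_sub, Matrix.mul_sub, h0, Matrix.one_mul, Matrix.one_mul,
      Matrix.mul_one]
    abel
  have h2 : (1 - A * B) * (1 + A * B) = 1 := by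
    rw [Matrix.mul_add, Matrix.sub_mul, Matrix.sub_mul, h0, Matrix.one_mul, Matrix.one_mul,
      Matrix.mul_one]
    abel
  exact ⟨⟨1 + A * B, 1 - A * B, h1, h2⟩, rfl, Lft_Lam n A B h _ rfl⟩

/-- an upper unipotent element can be moved to the right of the first block -/
private theorem vb_move1 {n : ℕ} {g : Matrix ι ι R} {s : St (ι ⊕ ℕ) R} (h : LftM n g s)
    (N : Matrix ι κ R) : ∃ N' : Matrix ι κ R, Up N * E1 κ s = E1 κ s * Up N' := by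
  obtain ⟨g', -, hg⟩ := h
  have h1 := Lft_inv (Lft_E1 (κ := κ) hg)
  rw [← bd_inv] at h1
  have h2 := conj_Up h1 N
  refine ⟨((g'⁻¹ : GL ι R) : Matrix ι ι R) * N *
    ((((1 : GL κ R)⁻¹)⁻¹ : GL κ R) : Matrix κ κ R), ?_⟩
  rw [← h2]
  group

private theorem vb_move2 {n : ℕ} {g : Matrix κ κ R} {s : St (κ ⊕ ℕ) R} (h : LftM n g s)
    (N : Matrix ι κ R) : ∃ N' : Matrix ι κ R, Up N * E2 ι s = E2 ι s * Up N' := by
  obtain ⟨g', -, hg⟩ := h
  have h1 := Lft_inv (Lft_E2 (ι := ι) hg)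
  rw [← bd_inv] at h1
  have h2 := conj_Up h1 N
  refine ⟨(((1 : GL ι R)⁻¹ : GL ι R) : Matrix ι ι R) * N *
    (((g'⁻¹)⁻¹ : GL κ R) : Matrix κ κ R), ?_⟩
  rw [← h2]
  group

/-- unipotent elements of block triangular matrices -/
private theorem vb_Lam (A D : Matrix ι ι R) (B e : Matrix ι κ R) (A' F : Matrix κ κ R)
    (h1 : D * A = 0) (h2 : F * A' = 0) (h3 : D * B + e * A' = 0) :
    ∃ N : Matrix ι κ R, Lam (Matrix.fromBlocks A B 0 A') (Matrix.fromBlocks D e 0 F) =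
      E1 κ (Lam A D) * E2 ι (Lam A' F) * Up N := by
  have e1 : Matrix.fromBlocks A B 0 A' =
      Matrix.fromCols (Matrix.fromRows A (0 : Matrix κ ι R)) (Matrix.fromRows B A') := by
    ext i j
    rcases i with i | i <;> rcases j with j | j <;> rfl
  have e2 : Matrix.fromBlocks D e 0 F =
      Matrix.fromRows (Matrix.fromCols D e) (Matrix.fromCols (0 : Matrix κ ι R) F) := by
    ext i j
    rcases i with i | i <;> rcases j with j | j <;> rfl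
  have e3 : Matrix.fromCols D e = Matrix.fromCols D 0 + Matrix.fromCols (0 : Matrix ι ι R) e := by
    ext i j
    rcases j with j | j <;> simp
  have e4 : Matrix.fromRows B A' = Matrix.fromRows B 0 + Matrix.fromRows (0 : Matrix ι κ R) A' := by
    ext i j
    rcases i with i | i <;> simp
  rw [e1, e2, Lam_fromCols _ _ _ _ (by
      rw [Matrix.fromCols_mul_fromRows, h1, Matrix.mul_zero, add_zero])
    (by rw [Matrix.fromCols_mul_fromRows, h2, Matrix.zero_mul, zero_add])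
    (by rw [Matrix.fromCols_mul_fromRows, Matrix.zero_mul, Matrix.mul_zero, add_zero])
    (by rw [Matrix.fromCols_mul_fromRows, h3]),
    e3, e4, Lam_add_right _ _ _ (by
      rw [Matrix.fromCols_mul_fromRows, h1, Matrix.mul_zero, add_zero])
    (by rw [Matrix.fromCols_mul_fromRows, Matrix.zero_mul, Matrix.mul_zero, add_zero]),
    Lam_add_left _ _ _ (by
      rw [Matrix.fromCols_mul_fromRows, Matrix.zero_mul, Matrix.mul_zero, add_zero])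
    (by rw [Matrix.fromCols_mul_fromRows, h2, Matrix.zero_mul, zero_add]),
    ← E1_Lam A D h1, ← E2_Lam A' F h2, Up_mul, Up_mul]
  obtain ⟨N', hN'⟩ := vb_move2 (vb_LftM_Lam 1 A' F h2) (A * e + B * F)
  refine ⟨N', ?_⟩
  rw [mul_assoc, ← mul_assoc (Up (A * e)), ← Up_add, hN', mul_assoc]

end aux

section

variable {K : Type*} [Field K] {D0 D1 s0 s1 t0 t1 : Matrix ι ι K} {F0 F1 r0 r1 w0 w1 : Matrix κ κ K}

/-- the unipotent lifts of a block triangular complex -/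
theorem L0_block (hs : IsC D0 D1 s0 s1) (ht : IsC D0 D1 t0 t1) (hr : IsC F0 F1 r0 r1)
    (hw : IsC F0 F1 w0 w1) (e0 e1 : Matrix ι κ K) (h01 : D0 * e1 + e0 * F1 = 0)
    (h10 : D1 * e0 + e1 * F0 = 0) :
    ∃ N : Matrix ι κ K,
      L0 (Matrix.fromBlocks D0 e0 0 F0) (Matrix.fromBlocks D1 e1 0 F1)
        (Matrix.fromBlocks t1 (-(t1 * e0 * w1)) 0 w1)
        (Matrix.fromBlocks s0 (-(s0 * e1 * r0)) 0 r0 - Matrix.fromBlocks t0 (-(t0 * e1 * w0)) 0 w0) =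
      E1 κ (L0 D0 D1 t1 (s0 - t0)) * E2 ι (L0 F0 F1 w1 (r0 - w0)) * Up N := by
  obtain ⟨Y, hY⟩ : ∃ Y : Matrix ι κ K, -(Matrix.fromBlocks D1 e1 0 F1 *
      (Matrix.fromBlocks s0 (-(s0 * e1 * r0)) 0 r0 - Matrix.fromBlocks t0 (-(t0 * e1 * w0)) 0 w0) *
      Matrix.fromBlocks t1 (-(t1 * e0 * w1)) 0 w1) =
      Matrix.fromBlocks (-(D1 * (s0 - t0) * t1)) Y 0 (-(F1 * (r0 - w0) * w1)) := by
    refine ⟨-(D1 * (s0 - t0) * -(t1 * e0 * w1) +
      (D1 * (-(s0 * e1 * r0) - -(t0 * e1 * w0)) + e1 * (r0 - w0)) * w1), ?_⟩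
    rw [vb_sub, Matrix.fromBlocks_multiply, Matrix.fromBlocks_multiply,
      Matrix.fromBlocks_neg]
    simp only [sub_zero, Matrix.mul_zero, Matrix.zero_mul, add_zero, zero_add, neg_zero]
  have hT : Matrix.fromBlocks D0 e0 0 F0 * Matrix.fromBlocks D1 e1 0 F1 = 0 :=
    (hs.block hr e0 e1 h01 h10).d01
  have hT2 : Matrix.fromBlocks D0 e0 0 F0 *
      Matrix.fromBlocks (-(D1 * (s0 - t0) * t1)) Y 0 (-(F1 * (r0 - w0) * w1)) = 0 := by
    rw [← hY, Matrix.mul_neg, Matrix.mul_assoc, ← Matrix.mul_assoc (Matrix.fromBlocks D0 e0 0 F0),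
      hT, Matrix.zero_mul, neg_zero]
  rw [Matrix.fromBlocks_multiply, ← Matrix.fromBlocks_zero] at hT2
  simp only [Matrix.mul_zero, Matrix.zero_mul, add_zero, zero_add] at hT2
  obtain ⟨a1, a2, -, a3⟩ := Matrix.fromBlocks_inj.1 hT2
  unfold L0
  rw [hY]
  exact vb_Lam _ _ _ _ _ _ a1 a3 a2

theorem L1_block (hs : IsC D0 D1 s0 s1) (ht : IsC D0 D1 t0 t1) (hr : IsC F0 F1 r0 r1)
    (hw : IsC F0 F1 w0 w1) (e0 e1 : Matrix ι κ K) (h01 : D0 * e1 + e0 * F1 = 0)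
    (h10 : D1 * e0 + e1 * F0 = 0) :
    ∃ N : Matrix ι κ K,
      L1 (Matrix.fromBlocks D0 e0 0 F0) (Matrix.fromBlocks D1 e1 0 F1)
        (Matrix.fromBlocks t0 (-(t0 * e1 * w0)) 0 w0)
        (Matrix.fromBlocks s1 (-(s1 * e0 * r1)) 0 r1 - Matrix.fromBlocks t1 (-(t1 * e0 * w1)) 0 w1) =
      E1 κ (L1 D0 D1 t0 (s1 - t1)) * E2 ι (L1 F0 F1 w0 (r1 - w1)) * Up N := by
  obtain ⟨Y, hY⟩ : ∃ Y : Matrix ι κ K, Matrix.fromBlocks D0 e0 0 F0 *
      (Matrix.fromBlocks s1 (-(s1 * e0 * r1)) 0 r1 - Matrix.fromBlocks t1 (-(t1 * e0 * w1)) 0 w1) *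
      Matrix.fromBlocks t0 (-(t0 * e1 * w0)) 0 w0 =
      Matrix.fromBlocks (D0 * (s1 - t1) * t0) Y 0 (F0 * (r1 - w1) * w0) := by
    refine ⟨D0 * (s1 - t1) * -(t0 * e1 * w0) +
      (D0 * (-(s1 * e0 * r1) - -(t1 * e0 * w1)) + e0 * (r1 - w1)) * w0, ?_⟩
    rw [vb_sub, Matrix.fromBlocks_multiply, Matrix.fromBlocks_multiply]
    simp only [sub_zero, Matrix.mul_zero, Matrix.zero_mul, add_zero, zero_add]
  have hT : Matrix.fromBlocks D1 e1 0 F1 * Matrix.fromBlocks D0 e0 0 F0 = 0 :=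
    (hs.block hr e0 e1 h01 h10).d10
  have hT2 : Matrix.fromBlocks D1 e1 0 F1 *
      Matrix.fromBlocks (D0 * (s1 - t1) * t0) Y 0 (F0 * (r1 - w1) * w0) = 0 := by
    rw [← hY, Matrix.mul_assoc, ← Matrix.mul_assoc (Matrix.fromBlocks D1 e1 0 F1),
      hT, Matrix.zero_mul]
  rw [Matrix.fromBlocks_multiply, ← Matrix.fromBlocks_zero] at hT2
  simp only [Matrix.mul_zero, Matrix.zero_mul, add_zero, zero_add] at hT2
  obtain ⟨a1, a2, -, a3⟩ := Matrix.fromBlocks_inj.1 hT2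
  unfold L1
  rw [hY]
  exact vb_Lam _ _ _ _ _ _ a1 a3 a2

end

/-- the identity `T1 + S1 = diag * unipotent` -/
private theorem vb_fac {R : Type*} [CommRing R] {D0 D1 s0 s1 : Matrix ι ι R}
    {F0 F1 r0 r1 : Matrix κ κ R} (hs : IsC D0 D1 s0 s1) (e0 e1 : Matrix ι κ R) :
    Matrix.fromBlocks D1 e1 0 F1 + Matrix.fromBlocks s1 (-(s1 * e0 * r1)) 0 r1 =
      Matrix.fromBlocks (D1 + s1) 0 0 1 * Matrix.fromBlocks 1 0 0 (F1 + r1) *
        Matrix.fromBlocks 1 ((D0 + s0) * (e1 - s1 * e0 * r1)) 0 1 := by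
  rw [Matrix.fromBlocks_add, Matrix.fromBlocks_multiply, Matrix.fromBlocks_multiply]
  simp only [Matrix.mul_zero, Matrix.zero_mul, add_zero, zero_add, Matrix.mul_one, Matrix.one_mul]
  rw [← Matrix.mul_assoc, hs.pi_mul, Matrix.one_mul, sub_eq_add_neg]

private theorem vb_LftM_E1 {R : Type*} [CommRing R] {n : ℕ} {g : Matrix ι ι R}
    {s : St (ι ⊕ ℕ) R} (h : LftM n g s) :
    LftM n (Matrix.fromBlocks g 0 0 (1 : Matrix κ κ R)) (E1 κ s) := by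
  obtain ⟨g', rfl, hg⟩ := h
  exact ⟨bd g' 1, rfl, Lft_E1 hg⟩

private theorem vb_LftM_E2 {R : Type*} [CommRing R] {n : ℕ} {g : Matrix κ κ R}
    {s : St (κ ⊕ ℕ) R} (h : LftM n g s) :
    LftM n (Matrix.fromBlocks (1 : Matrix ι ι R) 0 0 g) (E2 ι s) := by
  obtain ⟨g', rfl, hg⟩ := h
  exact ⟨bd 1 g', rfl, Lft_E2 hg⟩

private theorem vb_LftM_Up {R : Type*} [CommRing R] (n : ℕ) (M : Matrix ι κ R) :
    LftM n (Matrix.fromBlocks 1 M 0 1) (Up M) := by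
  have h1 : Matrix.fromBlocks (1 : Matrix ι ι R) M 0 (1 : Matrix κ κ R) *
      Matrix.fromBlocks 1 (-M) 0 1 = 1 := by
    rw [Matrix.fromBlocks_multiply]
    simp
  have h2 : Matrix.fromBlocks (1 : Matrix ι ι R) (-M) 0 (1 : Matrix κ κ R) *
      Matrix.fromBlocks 1 M 0 1 = 1 := by
    rw [Matrix.fromBlocks_multiply]
    simp
  exact ⟨⟨_, _, h1, h2⟩, rfl, Lft_Up n M _ rfl⟩

/-- the lift of `LV_block` is a lift -/
theorem LftM_block {R : Type*} [CommRing R] {D0 D1 s0 s1 : Matrix ι ι R}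
    {F0 F1 r0 r1 : Matrix κ κ R} {P : St (ι ⊕ ℕ) R} {P' : St (κ ⊕ ℕ) R} (hs : IsC D0 D1 s0 s1)
    (hr : IsC F0 F1 r0 r1) (hP : LftM 1 (D1 + s1) P) (hP' : LftM 1 (F1 + r1) P')
    (e0 e1 : Matrix ι κ R) (h01 : D0 * e1 + e0 * F1 = 0) (h10 : D1 * e0 + e1 * F0 = 0) :
    LftM 1 (Matrix.fromBlocks D1 e1 0 F1 + Matrix.fromBlocks s1 (-(s1 * e0 * r1)) 0 r1)
      (E1 κ P * E2 ι P' * Up ((D0 + s0) * (e1 - s1 * e0 * r1))) := by
  rw [vb_fac (F0 := F0) (r0 := r0) hs e0 e1]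
  exact LftM_mul (LftM_mul (vb_LftM_E1 hP) (vb_LftM_E2 hP')) (vb_LftM_Up 1 _)

/-- additivity -/
theorem LV_block {b : GL ι (LaurentSeries k)} {b' : GL κ (LaurentSeries k)}
    {D0 D1 s0 s1 : Matrix ι ι (LaurentSeries k)} {F0 F1 r0 r1 : Matrix κ κ (LaurentSeries k)}
    {P : St (ι ⊕ ℕ) (LaurentSeries k)} {P' : St (κ ⊕ ℕ) (LaurentSeries k)} {z z' : kˣ}
    (hs : IsC D0 D1 s0 s1) (hr : IsC F0 F1 r0 r1) (hP : LftM 1 (D1 + s1) P)
    (hP' : LftM 1 (F1 + r1) P') (hz : LV b D0 D1 s0 s1 P z) (hz' : LV b' F0 F1 r0 r1 P' z')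
    (e0 e1 : Matrix ι κ (LaurentSeries k)) (h01 : D0 * e1 + e0 * F1 = 0)
    (h10 : D1 * e0 + e1 * F0 = 0) (he0 : LI b b' e0) (he1 : LI b b' e1) :
    LV (bd b b') (Matrix.fromBlocks D0 e0 0 F0) (Matrix.fromBlocks D1 e1 0 F1)
      (Matrix.fromBlocks s0 (-(s0 * e1 * r0)) 0 r0) (Matrix.fromBlocks s1 (-(s1 * e0 * r1)) 0 r1)
      (E1 κ P * E2 ι P' * Up ((D0 + s0) * (e1 - s1 * e0 * r1))) (z * z') := by
  obtain ⟨t0, t1, ℓ, ht, hℓ, rfl⟩ := hz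
  obtain ⟨w0, w1, ℓ', hw, hℓ', rfl⟩ := hz'
  obtain ⟨c, lD0, lD1, lt0, lt1⟩ := ht
  obtain ⟨c', lF0, lF1, lw0, lw1⟩ := hw
  have hM : LI b b' ((D0 + t0) * (e1 - t1 * e0 * w1)) := by
    rw [sub_eq_add_neg]
    exact LI_mul (LI_add lD0 lt0) (LI_add he1 (LI_neg (LI_mul (LI_mul lt1 he0) lw1)))
  have hLL : LL (bd b b')
      (Matrix.fromBlocks D1 e1 0 F1 + Matrix.fromBlocks t1 (-(t1 * e0 * w1)) 0 w1)
      (E1 κ ℓ * E2 ι ℓ' * Up ((D0 + t0) * (e1 - t1 * e0 * w1))) := by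
    rw [vb_fac (F0 := F0) (r0 := w0) c e0 e1]
    exact LL_mul (LL_mul (LL_E1 b' hℓ) (LL_E2 b hℓ')) (LL_Up hM)
  have hLo : Lo2 (bd b b') (bd b b') (Matrix.fromBlocks D0 e0 0 F0) (Matrix.fromBlocks D1 e1 0 F1)
      (Matrix.fromBlocks t0 (-(t0 * e1 * w0)) 0 w0)
      (Matrix.fromBlocks t1 (-(t1 * e0 * w1)) 0 w1) :=
    ⟨c.block c' e0 e1 h01 h10, LI_fromBlocks lD0 he0 LI_zero lF0,
      LI_fromBlocks lD1 he1 LI_zero lF1,
      LI_fromBlocks lt0 (LI_neg (LI_mul (LI_mul lt0 he1) lw0)) LI_zero lw0,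
      LI_fromBlocks lt1 (LI_neg (LI_mul (LI_mul lt1 he0) lw1)) LI_zero lw1⟩
  have hc := hs.block hr e0 e1 h01 h10
  refine ⟨_, _, _, hLo, hLL, ?_⟩
  have htot := LftM_total hc hLo hLL
  have hblk := LftM_block hs hr hP hP' e0 e1 h01 h10
  have a1 := LftM_total hs ⟨c, lD0, lD1, lt0, lt1⟩ hℓ
  have a2 := LftM_total hr ⟨c', lF0, lF1, lw0, lw1⟩ hℓ'
  obtain ⟨N0, hN0⟩ := L0_block hs c hr c' e0 e1 h01 h10
  obtain ⟨N1, hN1⟩ := L1_block hs c hr c' e0 e1 h01 h10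
  rw [hN0, hN1] at htot ⊢
  set M := (D0 + s0) * (e1 - s1 * e0 * r1) with hMdef
  set Mt := (D0 + t0) * (e1 - t1 * e0 * w1) with hMt
  -- move the unipotent elements to the right
  have hl := LL_Lft hℓ
  have hl' := LL_Lft hℓ'
  have b1 := LftM_L1 c hs 1
  have b2 := LftM_L1 c' hr 1
  have b3 := LftM_L0 c' hr 1
  have b4 := LftM_L0 c hs 1
  set X0 := L0 D0 D1 t1 (s0 - t0) with hX0
  set X1 := L1 D0 D1 t0 (s1 - t1) with hX1
  set X0' := L0 F0 F1 w1 (r0 - w0) with hX0'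
  set X1' := L1 F0 F1 w0 (r1 - w1) with hX1'
  obtain ⟨g, -, hgℓ⟩ := hl
  obtain ⟨g', -, hgℓ'⟩ := hl'
  have c1 : Commute (E1 κ ℓ) (E2 ι X0') := commute_E1_Lam _ _ (by
    rw [Matrix.mul_neg, Matrix.mul_assoc, ← Matrix.mul_assoc F0, c'.d01, Matrix.zero_mul,
      neg_zero]) hgℓ
  have c2 : Commute (E1 κ X1) (E2 ι ℓ') := commute_Lam_E2 _ _ (by
    rw [Matrix.mul_assoc, ← Matrix.mul_assoc D1, c.d10, Matrix.zero_mul]) hgℓ'
  obtain ⟨g1, -, hgX1⟩ := b1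
  have c3 : Commute (E1 κ X1) (E2 ι X0') := commute_E1_Lam _ _ (by
    rw [Matrix.mul_neg, Matrix.mul_assoc, ← Matrix.mul_assoc F0, c'.d01, Matrix.zero_mul,
      neg_zero]) hgX1
  obtain ⟨n1, q1⟩ := vb_move1 (κ := κ) ⟨g, rfl, hgℓ⟩ N0
  obtain ⟨n2, q2⟩ := vb_move2 (ι := ι) ⟨g', rfl, hgℓ'⟩ n1
  obtain ⟨n3, q3⟩ := vb_move1 (κ := κ) ⟨g1, rfl, hgX1⟩ (n2 + Mt)
  obtain ⟨n4, q4⟩ := vb_move2 (ι := ι) b2 n3
  have hprod : E1 κ X0 * E2 ι X0' * Up N0 * (E1 κ ℓ * E2 ι ℓ' * Up Mt) *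
      (E1 κ X1 * E2 ι X1' * Up N1) =
      E1 κ (X0 * ℓ * X1) * E2 ι (X0' * ℓ' * X1') * Up (n4 + N1) := by
    calc E1 κ X0 * E2 ι X0' * Up N0 * (E1 κ ℓ * E2 ι ℓ' * Up Mt) * (E1 κ X1 * E2 ι X1' * Up N1)
        = E1 κ X0 * E2 ι X0' * (Up N0 * E1 κ ℓ) * E2 ι ℓ' * Up Mt *
            (E1 κ X1 * E2 ι X1' * Up N1) := by group
      _ = E1 κ X0 * E2 ι X0' * E1 κ ℓ * (Up n1 * E2 ι ℓ') * Up Mt *
            (E1 κ X1 * E2 ι X1' * Up N1) := by rw [q1]; group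
      _ = E1 κ X0 * E2 ι X0' * E1 κ ℓ * E2 ι ℓ' * (Up n2 * Up Mt * E1 κ X1) *
            (E2 ι X1' * Up N1) := by rw [q2]; group
      _ = E1 κ X0 * E2 ι X0' * E1 κ ℓ * E2 ι ℓ' * E1 κ X1 * (Up n3 * E2 ι X1') * Up N1 := by
          rw [← Up_add, q3]; group
      _ = E1 κ X0 * (E2 ι X0' * E1 κ ℓ) * (E2 ι ℓ' * E1 κ X1) * E2 ι X1' * (Up n4 * Up N1) := by
          rw [q4]; group
      _ = E1 κ X0 * (E1 κ ℓ * E2 ι X0') * (E1 κ X1 * E2 ι ℓ') * E2 ι X1' * Up (n4 + N1) := by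
          rw [← Up_add, c1.eq, c2.eq]
      _ = E1 κ X0 * E1 κ ℓ * (E2 ι X0' * E1 κ X1) * E2 ι ℓ' * E2 ι X1' * Up (n4 + N1) := by
          group
      _ = E1 κ X0 * E1 κ ℓ * (E1 κ X1 * E2 ι X0') * E2 ι ℓ' * E2 ι X1' * Up (n4 + N1) := by
          rw [c3.eq]
      _ = E1 κ (X0 * ℓ * X1) * E2 ι (X0' * ℓ' * X1') * Up (n4 + N1) := by
          simp only [map_mul]
          group
  rw [hprod] at htot ⊢
  have p0 := LftM_phi_eq htot hblk
  obtain ⟨p1, d1⟩ := df_E1 (κ := κ) (LftM_phi_eq a1 hP)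
  obtain ⟨p2, d2⟩ := df_E2 (ι := ι) (LftM_phi_eq a2 hP')
  have p3 : phi (Up (n4 + N1)) = phi (Up M) := by
    rw [map_mul phi _ (Up (n4 + N1)), map_mul phi (E1 κ (X0 * ℓ * X1)), map_mul phi _ (Up M),
      map_mul phi (E1 κ P), p1, p2] at p0
    exact mul_left_cancel p0
  have p4 := Up_inj p3
  have p5 : phi (E1 κ (X0 * ℓ * X1) * E2 ι (X0' * ℓ' * X1')) = phi (E1 κ P * E2 ι P') := by
    rw [map_mul phi (E1 κ (X0 * ℓ * X1)), map_mul phi (E1 κ P), p1, p2]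
  rw [p4, df_mul p5 rfl, df_self, mul_one, df_mul p1 p2, d1, d2]

end MSK
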