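import Pool.Agent.MSK.Lvc

/-! MSK / Lvs: the local value of the sum of a complex `D` and the shift of a complex `F` with the same modules.

`P₀ = ι` (lattice `b0`), `P₁ = κ` (lattice `b1`); the total complex is on `ι ⊕ κ`, see `IsC.shift`:
`D0^t = [[0, -F1], [D0, 0]]`, `D1^t = [[0, D1], [-F0, 0]]`, `s0^t = [[0, -r1], [s0, 0]]`, `s1^t = [[0, s1], [-r0, 0]]`, so
`D1^t + s1^t = [[0, π], [-π'⁻¹, 0]]` with `π = D1 + s1`, `π' = F1 + r1`, `π'⁻¹ = F0 + r0`. `Wm X Y = Up X * Lo (-Y) * Up X` lifts `[[0, X], [-Y, 0]]`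
if `X Y = 1`, `Y X = 1`. Global lift: `E1 r * Wm π' π'⁻¹`, where `r` lifts `ρ = π π'⁻¹`.

PROOF of `LV_shift`. Local contractions `t` of `D`, `w` of `F`; total local contraction `IsC.shift`; local lift `E1 ℓ * Wm π'_w π'_w⁻¹`, `ℓ` local lift of
`ρ_t = (D1 + t1) (F0 + w0)` (`LL_E1`, `LL_Up`, `LL_Lo`).
(1) `L0^t = E1 (L0) * (E2 (L1'))⁻¹`, `L1^t = E2 (L1) * (E1 (L0'))⁻¹` where `L0, L1` belong to `D`, `t`, and `L0', L1'` to `F`, `w`: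
`D1^t Δ0^t t1^t = [[0, D1 Δ0 t1], [-F0 Δ1' w0, 0]]`, split the middle index (`Lam_fromCols`), `Lam_neg_right`, `E1_Lam`, `E2_Lam`.
(2) `S = E1 (L0') * (E2 (L1'))⁻¹` lifts `bd U0' U1'⁻¹` and `π' = U0' π'_w U1'` (`pi_change`), so `S * Wm π'_w π'_w⁻¹ * S⁻¹ = Wm π' π'⁻¹` (`conj_Up`, `conj_Lo`).
(3) `Wm π' π'⁻¹ * E2 (Lam A B) * (Wm π' π'⁻¹)⁻¹ = E1 (Lam (π' A) (B π'⁻¹))` (`conj_LamF`, the action of `Wm` on vectors).
(4) The product `L0^t * E1 ℓ * Wm_w * L1^t`: `(E2 L1')⁻¹` commutes with `E1 ℓ` (`commute_E1_Lam`), `E1 (L0')` with `E2 (..)`; with (2), (3) it equals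
`E1 (L0 * ℓ * L0'⁻¹ * Λ'⁻¹ * Λ) * Wm π' π'⁻¹`, `Λ = Lam (π' D0 Δ1 t0) (D1 π'⁻¹)`, `Λ' = Lam (π' F0 Δ1' w0) (F1 π'⁻¹)`.
(5) `df` with `E1 r * Wm π' π'⁻¹`: `df_mul`, `df_self`, `df_E1`. -/

set_option autoImplicit false
set_option linter.unusedVariables false

namespace MSK

open Matrix

variable {ι κ : Type*} [Fintype ι] [DecidableEq ι] [Fintype κ] [DecidableEq κ]
  {k : Type*} [Field k]

/-- lift of `[[0, X], [-Y, 0]]` -/
noncomputable def Wm {R : Type*} [CommRing R] (X : Matrix ι κ R) (Y : Matrix κ ι R) :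
    St ((ι ⊕ κ) ⊕ ℕ) R := Up X * Lo (-Y) * Up X

private def gU {R : Type*} [CommRing R] (M : Matrix ι κ R) : GL (ι ⊕ κ) R where
  val := Matrix.fromBlocks 1 M 0 1
  inv := Matrix.fromBlocks 1 (-M) 0 1
  val_inv := by
    rw [Matrix.fromBlocks_multiply]
    simp [← Matrix.fromBlocks_one]
  inv_val := by
    rw [Matrix.fromBlocks_multiply]
    simp [← Matrix.fromBlocks_one]

private def gLo {R : Type*} [CommRing R] (M : Matrix κ ι R) : GL (ι ⊕ κ) R where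
  val := Matrix.fromBlocks 1 0 M 1
  inv := Matrix.fromBlocks 1 0 (-M) 1
  val_inv := by
    rw [Matrix.fromBlocks_multiply]
    simp [← Matrix.fromBlocks_one]
  inv_val := by
    rw [Matrix.fromBlocks_multiply]
    simp [← Matrix.fromBlocks_one]

private def gW {R : Type*} [CommRing R] (X : Matrix ι κ R) (Y : Matrix κ ι R)
    (h : X * Y = 1) (h' : Y * X = 1) : GL (ι ⊕ κ) R where
  val := Matrix.fromBlocks 0 X (-Y) 0
  inv := Matrix.fromBlocks 0 (-X) Y 0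
  val_inv := by
    rw [Matrix.fromBlocks_multiply]
    simp [← Matrix.fromBlocks_one, h, h']
  inv_val := by
    rw [Matrix.fromBlocks_multiply]
    simp [← Matrix.fromBlocks_one, h, h']

private theorem gW_coe {R : Type*} [CommRing R] (X : Matrix ι κ R) (Y : Matrix κ ι R)
    (h : X * Y = 1) (h' : Y * X = 1) :
    ((gW X Y h h' : GL (ι ⊕ κ) R) : Matrix (ι ⊕ κ) (ι ⊕ κ) R) = Matrix.fromBlocks 0 X (-Y) 0 := rfl

private theorem gW_inv_coe {R : Type*} [CommRing R] (X : Matrix ι κ R) (Y : Matrix κ ι R)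
    (h : X * Y = 1) (h' : Y * X = 1) :
    (((gW X Y h h')⁻¹ : GL (ι ⊕ κ) R) : Matrix (ι ⊕ κ) (ι ⊕ κ) R) =
      Matrix.fromBlocks 0 (-X) Y 0 := rfl

private theorem Wm_mat {R : Type*} [CommRing R] {X : Matrix ι κ R} {Y : Matrix κ ι R}
    (h : X * Y = 1) (h' : Y * X = 1) :
    (Matrix.fromBlocks 1 X 0 1 * Matrix.fromBlocks 1 0 (-Y) 1 * Matrix.fromBlocks 1 X 0 1 :
      Matrix (ι ⊕ κ) (ι ⊕ κ) R) = Matrix.fromBlocks 0 X (-Y) 0 := by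
  rw [Matrix.fromBlocks_multiply, Matrix.fromBlocks_multiply]
  simp [h, h']

private theorem Lft_gW {R : Type*} [CommRing R] (n : ℕ) {X : Matrix ι κ R} {Y : Matrix κ ι R}
    (h : X * Y = 1) (h' : Y * X = 1) : Lft n (gW X Y h h') (Wm X Y) := by
  have h1 : Lft n (gU X * gLo (-Y) * gU X) (Wm X Y) :=
    Lft_mul (Lft_mul (Lft_Up n X (gU X) rfl) (Lft_Lo n (-Y) (gLo (-Y)) rfl)) (Lft_Up n X (gU X) rfl)
  have h2 : gU X * gLo (-Y) * gU X = gW X Y h h' := by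
    refine Units.ext ?_
    exact Wm_mat h h'
  rwa [h2] at h1

theorem LftM_Wm {R : Type*} [CommRing R] (n : ℕ) {X : Matrix ι κ R} {Y : Matrix κ ι R}
    (h : X * Y = 1) (h' : Y * X = 1) : LftM n (Matrix.fromBlocks 0 X (-Y) 0) (Wm X Y) := by
  exact ⟨gW X Y h h', rfl, Lft_gW n h h'⟩

theorem map_Wm {R R' : Type*} [CommRing R] [CommRing R'] (f : R →+* R') (X : Matrix ι κ R)
    (Y : Matrix κ ι R) : map f (Wm X Y) = Wm (X.map f) (Y.map f) := by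
  unfold Wm
  have e : (-Y).map f = -(Y.map f) := by
    ext i j
    simp
  rw [map_mul, map_mul, map_Up, map_Lo, e]

theorem conj_Wm {R : Type*} [CommRing R] {n : ℕ} {g : GL ι R} {h : GL κ R}
    {s : St ((ι ⊕ κ) ⊕ ℕ) R} (hs : Lft n (bd g h) s) (X : Matrix ι κ R) (Y : Matrix κ ι R) :
    s * Wm X Y * s⁻¹ =
      Wm ((g : Matrix ι ι R) * X * ((h⁻¹ : GL κ R) : Matrix κ κ R))
        ((h : Matrix κ κ R) * Y * ((g⁻¹ : GL ι R) : Matrix ι ι R)) := by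
  unfold Wm
  have e1 : s * (Up X * Lo (-Y) * Up X) * s⁻¹ =
      (s * Up X * s⁻¹) * (s * Lo (-Y) * s⁻¹) * (s * Up X * s⁻¹) := by group
  have e2 : (h : Matrix κ κ R) * (-Y) * ((g⁻¹ : GL ι R) : Matrix ι ι R) =
      -((h : Matrix κ κ R) * Y * ((g⁻¹ : GL ι R) : Matrix ι ι R)) := by
    rw [Matrix.mul_neg, Matrix.neg_mul]
  rw [e1, conj_Up hs, conj_Lo hs, e2]

theorem Wm_conj_E2 {R : Type*} [CommRing R] {μ : Type*} [Fintype μ] {X : Matrix ι κ R}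
    {Y : Matrix κ ι R} (h : X * Y = 1) (h' : Y * X = 1) (A : Matrix κ μ R) (B : Matrix μ κ R)
    (hBA : B * A = 0) :
    Wm X Y * E2 ι (Lam A B) * (Wm X Y)⁻¹ = E1 κ (Lam (X * A) (B * Y)) := by
  have h1 := conj_Lam (Lft_gW 1 h h') (Matrix.fromRows (0 : Matrix ι μ R) A)
    (Matrix.fromCols (0 : Matrix μ ι R) B) (by
      rw [Matrix.fromCols_mul_fromRows, hBA, Matrix.zero_mul, add_zero])
  have e1 : ((gW X Y h h' : GL (ι ⊕ κ) R) : Matrix (ι ⊕ κ) (ι ⊕ κ) R) *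
      Matrix.fromRows (0 : Matrix ι μ R) A = Matrix.fromRows (X * A) 0 := by
    rw [gW_coe, Matrix.fromBlocks_mul_fromRows]
    simp
  have e2 : Matrix.fromCols (0 : Matrix μ ι R) B *
      (((gW X Y h h')⁻¹ : GL (ι ⊕ κ) R) : Matrix (ι ⊕ κ) (ι ⊕ κ) R) =
      Matrix.fromCols (B * Y) 0 := by
    rw [gW_inv_coe, Matrix.fromCols_mul_fromBlocks]
    simp
  rw [e1, e2] at h1
  have h3 : (B * Y) * (X * A) = 0 := by
    rw [Matrix.mul_assoc, ← Matrix.mul_assoc Y, h', Matrix.one_mul, hBA]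
  rw [E2_Lam A B hBA, h1, E1_Lam (X * A) (B * Y) h3]

/-- the local value of a pair of complexes with the same modules -/
def LS (b0 : GL ι (LaurentSeries k)) (b1 : GL κ (LaurentSeries k))
    (D0 : Matrix κ ι (LaurentSeries k)) (D1 : Matrix ι κ (LaurentSeries k))
    (s0 : Matrix κ ι (LaurentSeries k)) (s1 : Matrix ι κ (LaurentSeries k))
    (F0 : Matrix κ ι (LaurentSeries k)) (F1 : Matrix ι κ (LaurentSeries k))
    (r0 : Matrix κ ι (LaurentSeries k)) (r1 : Matrix ι κ (LaurentSeries k))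
    (r : St (ι ⊕ ℕ) (LaurentSeries k)) (z : kˣ) : Prop :=
  ∃ (t0 : Matrix κ ι (LaurentSeries k)) (t1 : Matrix ι κ (LaurentSeries k))
    (w0 : Matrix κ ι (LaurentSeries k)) (w1 : Matrix ι κ (LaurentSeries k))
    (ℓ : St (ι ⊕ ℕ) (LaurentSeries k)),
    Lo2 b0 b1 D0 D1 t0 t1 ∧ Lo2 b0 b1 F0 F1 w0 w1 ∧ LL b0 ((D1 + t1) * (F0 + w0)) ℓ ∧
    z = df (L0 D0 D1 t1 (s0 - t0) * ℓ * (L0 F0 F1 w1 (r0 - w0))⁻¹ *
      (Lam ((F1 + r1) * (F0 * (r1 - w1) * w0)) (F1 * (F0 + r0)))⁻¹ *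
      Lam ((F1 + r1) * (D0 * (s1 - t1) * t0)) (D1 * (F0 + r0))) r

private theorem emb_K2_inj {R : Type*} [CommRing R] {J J' : Type*} [DecidableEq J]
    [DecidableEq J'] (e : J → J') (he : Function.Injective e) {s : St J R}
    (h : emb e he s ∈ K2 J' R) : s ∈ K2 J R := by
  rw [mem_K2] at h ⊢
  ext1 v
  have h1 := phi_emb e he s v
  rw [h] at h1
  have h2 : v.mapDomain e = (phi s v).mapDomain e := h1
  exact (Finsupp.mapDomain_injective he h2).symm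

private theorem shift_mat {R : Type*} [CommRing R] {D1 : Matrix ι κ R} {s1 : Matrix ι κ R}
    {F0 : Matrix κ ι R} {F1 : Matrix ι κ R} {r0 : Matrix κ ι R} {r1 : Matrix ι κ R}
    (hr : IsC F0 F1 r0 r1) :
    (Matrix.fromBlocks ((D1 + s1) * (F0 + r0)) 0 0 (1 : Matrix κ κ R) *
      Matrix.fromBlocks 0 (F1 + r1) (-(F0 + r0)) 0 : Matrix (ι ⊕ κ) (ι ⊕ κ) R) =
      Matrix.fromBlocks 0 D1 (-F0) 0 + Matrix.fromBlocks 0 s1 (-r0) 0 := by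
  rw [Matrix.fromBlocks_multiply, Matrix.fromBlocks_add]
  have e1 : (D1 + s1) * (F0 + r0) * (F1 + r1) = D1 + s1 := by
    rw [Matrix.mul_assoc, hr.pi_mul', Matrix.mul_one]
  simp only [Matrix.zero_mul, Matrix.mul_zero, Matrix.one_mul, zero_add, add_zero, e1, neg_add]

private theorem LftM_shift' {R : Type*} [CommRing R] {D1 : Matrix ι κ R} {s1 : Matrix ι κ R}
    {F0 : Matrix κ ι R} {F1 : Matrix ι κ R} {r0 : Matrix κ ι R} {r1 : Matrix ι κ R}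
    {r : St (ι ⊕ ℕ) R} (hr : IsC F0 F1 r0 r1) (hρ : LftM 1 ((D1 + s1) * (F0 + r0)) r) :
    LftM 1 (Matrix.fromBlocks 0 D1 (-F0) 0 + Matrix.fromBlocks 0 s1 (-r0) 0)
      (E1 κ r * Wm (F1 + r1) (F0 + r0)) := by
  obtain ⟨g, hg, hgr⟩ := hρ
  have h1 := LftM_mul (⟨bd g (1 : GL κ R), rfl, Lft_E1 hgr⟩ :
    LftM 1 ((bd g (1 : GL κ R) : GL (ι ⊕ κ) R) : Matrix (ι ⊕ κ) (ι ⊕ κ) R) (E1 κ r))
    (LftM_Wm 1 hr.pi_mul hr.pi_mul')
  rw [coe_bd, hg] at h1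
  have h2 := shift_mat (D1 := D1) (s1 := s1) hr
  rw [← h2]
  exact h1

private theorem LL_Wm {b0 : GL ι (LaurentSeries k)} {b1 : GL κ (LaurentSeries k)}
    {X : Matrix ι κ (LaurentSeries k)} {Y : Matrix κ ι (LaurentSeries k)}
    (h : X * Y = 1) (h' : Y * X = 1) (hX : LI b0 b1 X) (hY : LI b1 b0 Y) :
    LL (bd b0 b1) (Matrix.fromBlocks 0 X (-Y) 0) (Wm X Y) := by
  have h1 := LL_mul (LL_mul (LL_Up hX) (LL_Lo (LI_neg hY))) (LL_Up hX)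
  rw [Wm_mat h h'] at h1
  exact h1

private theorem shift_L0 {R : Type*} [CommRing R] {D0 : Matrix κ ι R} {D1 : Matrix ι κ R}
    {s0 t0 : Matrix κ ι R} {t1 : Matrix ι κ R} {F0 : Matrix κ ι R} {F1 : Matrix ι κ R}
    {r1 w1 : Matrix ι κ R} {w0 : Matrix κ ι R} (hD : D0 * D1 = 0) (hF : F1 * F0 = 0) :
    L0 (Matrix.fromBlocks 0 (-F1) D0 0 : Matrix (ι ⊕ κ) (ι ⊕ κ) R)
      (Matrix.fromBlocks 0 D1 (-F0) 0) (Matrix.fromBlocks 0 t1 (-w0) 0)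
      (Matrix.fromBlocks 0 (-r1) s0 0 - Matrix.fromBlocks 0 (-w1) t0 0) =
      (E2 ι (L1 F0 F1 w0 (r1 - w1)))⁻¹ * E1 κ (L0 D0 D1 t1 (s0 - t0)) := by
  have hA : F1 * (F0 * (r1 - w1) * w0) = 0 := by
    rw [← Matrix.mul_assoc, ← Matrix.mul_assoc, hF, Matrix.zero_mul, Matrix.zero_mul]
  have hB : D0 * -(D1 * (s0 - t0) * t1) = 0 := by
    rw [Matrix.mul_neg, ← Matrix.mul_assoc, ← Matrix.mul_assoc, hD, Matrix.zero_mul,
      Matrix.zero_mul, neg_zero]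
  have e1 : (Matrix.fromBlocks 0 (-r1) s0 0 - Matrix.fromBlocks 0 (-w1) t0 0 :
      Matrix (ι ⊕ κ) (ι ⊕ κ) R) = Matrix.fromBlocks 0 (-(r1 - w1)) (s0 - t0) 0 := by
    rw [sub_eq_add_neg, Matrix.fromBlocks_neg, Matrix.fromBlocks_add]
    congr 1
    · simp
    · rw [neg_neg]; abel
    · rw [sub_eq_add_neg]
    · simp
  have e2 : -(Matrix.fromBlocks 0 D1 (-F0) 0 * Matrix.fromBlocks 0 (-(r1 - w1)) (s0 - t0) 0 *
      Matrix.fromBlocks 0 t1 (-w0) 0 : Matrix (ι ⊕ κ) (ι ⊕ κ) R) =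
      Matrix.fromCols (Matrix.fromRows (0 : Matrix ι ι R) (F0 * (r1 - w1) * w0))
        (Matrix.fromRows (-(D1 * (s0 - t0) * t1)) (0 : Matrix κ κ R)) := by
    rw [Matrix.fromCols_fromRows_eq_fromBlocks, Matrix.fromBlocks_multiply,
      Matrix.fromBlocks_multiply, Matrix.fromBlocks_neg]
    congr 1 <;> simp [-neg_sub]
  have e3 : (Matrix.fromBlocks 0 (-F1) D0 0 : Matrix (ι ⊕ κ) (ι ⊕ κ) R) =
      Matrix.fromRows (Matrix.fromCols (0 : Matrix ι ι R) (-F1))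
        (Matrix.fromCols D0 (0 : Matrix κ κ R)) := by
    rw [Matrix.fromRows_fromCols_eq_fromBlocks]
  have e4 : E2 ι (L1 F0 F1 w0 (r1 - w1)) =
      (Lam (Matrix.fromRows (0 : Matrix ι ι R) (F0 * (r1 - w1) * w0))
        (Matrix.fromCols (0 : Matrix ι ι R) (-F1)))⁻¹ := by
    unfold L1
    rw [E2_Lam _ _ hA]
    have e5 : (Matrix.fromCols (0 : Matrix ι ι R) (-F1)) =
        -(Matrix.fromCols (0 : Matrix ι ι R) F1) := by
      rw [Matrix.fromCols_neg, neg_zero]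
    rw [e5, Lam_neg_right, inv_inv]
    rw [Matrix.fromCols_mul_fromRows, hA, Matrix.zero_mul, add_zero]
  have e6 : E1 κ (L0 D0 D1 t1 (s0 - t0)) =
      Lam (Matrix.fromRows (-(D1 * (s0 - t0) * t1)) (0 : Matrix κ κ R))
        (Matrix.fromCols D0 (0 : Matrix κ κ R)) := by
    unfold L0
    rw [E1_Lam _ _ hB]
  rw [e4, e6, inv_inv, e1]
  conv_lhs => unfold L0
  rw [e2, e3]
  refine Lam_fromCols _ _ _ _ ?_ ?_ ?_ ?_
  · rw [Matrix.fromCols_mul_fromRows, Matrix.neg_mul, hA, Matrix.zero_mul, neg_zero, add_zero]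
  · rw [Matrix.fromCols_mul_fromRows, hB, Matrix.zero_mul, add_zero]
  · rw [Matrix.fromCols_mul_fromRows, Matrix.mul_zero, Matrix.zero_mul, add_zero]
  · rw [Matrix.fromCols_mul_fromRows, Matrix.mul_zero, Matrix.zero_mul, add_zero]

private theorem shift_L1 {R : Type*} [CommRing R] {D0 : Matrix κ ι R} {D1 : Matrix ι κ R}
    {s1 t1 : Matrix ι κ R} {t0 : Matrix κ ι R} {F0 : Matrix κ ι R} {F1 : Matrix ι κ R}
    {r0 w0 : Matrix κ ι R} {w1 : Matrix ι κ R} (hD : D1 * D0 = 0) (hF : F0 * F1 = 0) :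
    L1 (Matrix.fromBlocks 0 (-F1) D0 0 : Matrix (ι ⊕ κ) (ι ⊕ κ) R)
      (Matrix.fromBlocks 0 D1 (-F0) 0) (Matrix.fromBlocks 0 (-w1) t0 0)
      (Matrix.fromBlocks 0 s1 (-r0) 0 - Matrix.fromBlocks 0 t1 (-w0) 0) =
      E2 ι (L1 D0 D1 t0 (s1 - t1)) * (E1 κ (L0 F0 F1 w1 (r0 - w0)))⁻¹ := by
  have hA : D1 * (D0 * (s1 - t1) * t0) = 0 := by
    rw [← Matrix.mul_assoc, ← Matrix.mul_assoc, hD, Matrix.zero_mul, Matrix.zero_mul]
  have hB : F0 * -(F1 * (r0 - w0) * w1) = 0 := by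
    rw [Matrix.mul_neg, ← Matrix.mul_assoc, ← Matrix.mul_assoc, hF, Matrix.zero_mul,
      Matrix.zero_mul, neg_zero]
  have e1 : (Matrix.fromBlocks 0 s1 (-r0) 0 - Matrix.fromBlocks 0 t1 (-w0) 0 :
      Matrix (ι ⊕ κ) (ι ⊕ κ) R) = Matrix.fromBlocks 0 (s1 - t1) (-(r0 - w0)) 0 := by
    rw [sub_eq_add_neg, Matrix.fromBlocks_neg, Matrix.fromBlocks_add]
    congr 1
    · simp
    · rw [sub_eq_add_neg]
    · rw [neg_neg]; abel
    · simp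
  have e2 : (Matrix.fromBlocks 0 (-F1) D0 0 * Matrix.fromBlocks 0 (s1 - t1) (-(r0 - w0)) 0 *
      Matrix.fromBlocks 0 (-w1) t0 0 : Matrix (ι ⊕ κ) (ι ⊕ κ) R) =
      Matrix.fromCols (Matrix.fromRows (0 : Matrix ι ι R) (D0 * (s1 - t1) * t0))
        (Matrix.fromRows (-(F1 * (r0 - w0) * w1)) (0 : Matrix κ κ R)) := by
    rw [Matrix.fromCols_fromRows_eq_fromBlocks, Matrix.fromBlocks_multiply,
      Matrix.fromBlocks_multiply]
    congr 1 <;> simp [-neg_sub]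
  have e3 : (Matrix.fromBlocks 0 D1 (-F0) 0 : Matrix (ι ⊕ κ) (ι ⊕ κ) R) =
      Matrix.fromRows (Matrix.fromCols (0 : Matrix ι ι R) D1)
        (Matrix.fromCols (-F0) (0 : Matrix κ κ R)) := by
    rw [Matrix.fromRows_fromCols_eq_fromBlocks]
  have e4 : E2 ι (L1 D0 D1 t0 (s1 - t1)) =
      Lam (Matrix.fromRows (0 : Matrix ι ι R) (D0 * (s1 - t1) * t0))
        (Matrix.fromCols (0 : Matrix ι ι R) D1) := by
    unfold L1
    rw [E2_Lam _ _ hA]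
  have e6 : (E1 κ (L0 F0 F1 w1 (r0 - w0)))⁻¹ =
      Lam (Matrix.fromRows (-(F1 * (r0 - w0) * w1)) (0 : Matrix κ κ R))
        (Matrix.fromCols (-F0) (0 : Matrix κ κ R)) := by
    unfold L0
    rw [E1_Lam _ _ hB]
    have e5 : (Matrix.fromCols (-F0) (0 : Matrix κ κ R)) =
        -(Matrix.fromCols F0 (0 : Matrix κ κ R)) := by
      rw [Matrix.fromCols_neg, neg_zero]
    rw [e5, Lam_neg_right]
    rw [Matrix.fromCols_mul_fromRows, hB, Matrix.zero_mul, add_zero]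
  rw [e4, e6, e1]
  conv_lhs => unfold L1
  rw [e2, e3]
  refine Lam_fromCols _ _ _ _ ?_ ?_ ?_ ?_
  · rw [Matrix.fromCols_mul_fromRows, hA, Matrix.zero_mul, zero_add]
  · rw [Matrix.fromCols_mul_fromRows, Matrix.neg_mul, hB, Matrix.zero_mul, neg_zero, add_zero]
  · rw [Matrix.fromCols_mul_fromRows, Matrix.mul_zero, Matrix.zero_mul, add_zero]
  · rw [Matrix.fromCols_mul_fromRows, Matrix.mul_zero, Matrix.zero_mul, add_zero]

private theorem grp1 {G : Type*} [Group G] {a b ℓ c l' W W' : G}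
    (h1 : Commute a (b * ℓ)) (h2 : Commute c l')
    (h3 : (l' * a⁻¹) * W * (l' * a⁻¹)⁻¹ = W') (h4 : Commute a l') :
    a⁻¹ * b * (ℓ * W) * (c * l'⁻¹) = b * ℓ * l'⁻¹ * (W' * a * W'⁻¹)⁻¹ * (W' * c * W'⁻¹) * W' := by
  have e1 : a⁻¹ * b * ℓ = b * ℓ * a⁻¹ := by
    rw [mul_assoc]
    exact h1.inv_left.eq
  have e2 : c * l'⁻¹ = l'⁻¹ * c := h2.inv_right.eq
  have e3 : W = a * l'⁻¹ * W' * l' * a⁻¹ := by
    rw [← h3]
    group
  have e4 : a * l'⁻¹ = l'⁻¹ * a := h4.inv_right.eq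
  have e5 : l' * a⁻¹ = a⁻¹ * l' := (h4.inv_left.eq).symm
  calc a⁻¹ * b * (ℓ * W) * (c * l'⁻¹) = (a⁻¹ * b * ℓ) * W * (c * l'⁻¹) := by group
    _ = (b * ℓ * a⁻¹) * (a * l'⁻¹ * W' * l' * a⁻¹) * (l'⁻¹ * c) := by rw [e1, ← e3, e2]
    _ = b * ℓ * l'⁻¹ * W' * (l' * a⁻¹) * l'⁻¹ * c := by group
    _ = b * ℓ * l'⁻¹ * W' * (a⁻¹ * l') * l'⁻¹ * c := by rw [e5]
    _ = _ := by group

theorem LV_shift {b0 : GL ι (LaurentSeries k)} {b1 : GL κ (LaurentSeries k)}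
    {D0 : Matrix κ ι (LaurentSeries k)} {D1 : Matrix ι κ (LaurentSeries k)}
    {s0 : Matrix κ ι (LaurentSeries k)} {s1 : Matrix ι κ (LaurentSeries k)}
    {F0 : Matrix κ ι (LaurentSeries k)} {F1 : Matrix ι κ (LaurentSeries k)}
    {r0 : Matrix κ ι (LaurentSeries k)} {r1 : Matrix ι κ (LaurentSeries k)}
    {r : St (ι ⊕ ℕ) (LaurentSeries k)} {z : kˣ} (hs : IsC D0 D1 s0 s1) (hr : IsC F0 F1 r0 r1)
    (hρ : LftM 1 ((D1 + s1) * (F0 + r0)) r) (hz : LS b0 b1 D0 D1 s0 s1 F0 F1 r0 r1 r z) :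
    LV (bd b0 b1) (Matrix.fromBlocks 0 (-F1) D0 0) (Matrix.fromBlocks 0 D1 (-F0) 0)
      (Matrix.fromBlocks 0 (-r1) s0 0) (Matrix.fromBlocks 0 s1 (-r0) 0)
      (E1 κ r * Wm (F1 + r1) (F0 + r0)) z := by
  obtain ⟨t0, t1, w0, w1, ℓ, ht, hw, hℓ, hzz⟩ := hz
  have htC := ht.1
  have hwC := hw.1
  -- the local contraction
  have hLo : Lo2 (bd b0 b1) (bd b0 b1) (Matrix.fromBlocks 0 (-F1) D0 0)
      (Matrix.fromBlocks 0 D1 (-F0) 0) (Matrix.fromBlocks 0 (-w1) t0 0)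
      (Matrix.fromBlocks 0 t1 (-w0) 0) :=
    ⟨IsC.shift htC hwC,
      LI_fromBlocks LI_zero (LI_neg hw.2.2.1) ht.2.1 LI_zero,
      LI_fromBlocks LI_zero ht.2.2.1 (LI_neg hw.2.1) LI_zero,
      LI_fromBlocks LI_zero (LI_neg hw.2.2.2.2) ht.2.2.2.1 LI_zero,
      LI_fromBlocks LI_zero ht.2.2.2.2 (LI_neg hw.2.2.2.1) LI_zero⟩
  have hLL : LL (bd b0 b1) (Matrix.fromBlocks 0 D1 (-F0) 0 + Matrix.fromBlocks 0 t1 (-w0) 0)
      (E1 κ ℓ * Wm (F1 + w1) (F0 + w0)) := by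
    have h1 := LL_mul (LL_E1 b1 hℓ) (LL_Wm hwC.pi_mul hwC.pi_mul'
      (LI_add hw.2.2.1 hw.2.2.2.2) (LI_add hw.2.1 hw.2.2.2.1))
    have h2 := shift_mat (D1 := D1) (s1 := t1) hwC
    rw [h2] at h1
    exact h1
  refine ⟨Matrix.fromBlocks 0 (-w1) t0 0, Matrix.fromBlocks 0 t1 (-w0) 0,
    E1 κ ℓ * Wm (F1 + w1) (F0 + w0), hLo, hLL, ?_⟩
  have hsC := IsC.shift hs hr
  have htot := LftM_total hsC hLo hLL
  have hP := LftM_shift' (D1 := D1) (s1 := s1) hr hρ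
  -- the group identity
  have hT : L0 (Matrix.fromBlocks 0 (-F1) D0 0) (Matrix.fromBlocks 0 D1 (-F0) 0)
      (Matrix.fromBlocks 0 t1 (-w0) 0)
      (Matrix.fromBlocks 0 (-r1) s0 0 - Matrix.fromBlocks 0 (-w1) t0 0) *
      (E1 κ ℓ * Wm (F1 + w1) (F0 + w0)) *
      L1 (Matrix.fromBlocks 0 (-F1) D0 0) (Matrix.fromBlocks 0 D1 (-F0) 0)
      (Matrix.fromBlocks 0 (-w1) t0 0)
      (Matrix.fromBlocks 0 s1 (-r0) 0 - Matrix.fromBlocks 0 t1 (-w0) 0) =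
      E1 κ (L0 D0 D1 t1 (s0 - t0) * ℓ * (L0 F0 F1 w1 (r0 - w0))⁻¹ *
      (Lam ((F1 + r1) * (F0 * (r1 - w1) * w0)) (F1 * (F0 + r0)))⁻¹ *
      Lam ((F1 + r1) * (D0 * (s1 - t1) * t0)) (D1 * (F0 + r0))) *
      Wm (F1 + r1) (F0 + r0) := by
    rw [shift_L0 hs.d01 hr.d10, shift_L1 hs.d10 hr.d01]
    have hA : F1 * (F0 * (r1 - w1) * w0) = 0 := by
      rw [← Matrix.mul_assoc, ← Matrix.mul_assoc, hr.d10, Matrix.zero_mul, Matrix.zero_mul]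
    have hA' : D1 * (D0 * (s1 - t1) * t0) = 0 := by
      rw [← Matrix.mul_assoc, ← Matrix.mul_assoc, hs.d10, Matrix.zero_mul, Matrix.zero_mul]
    obtain ⟨u0, hu0, hLu0⟩ := LftM_L0 htC hs 1
    obtain ⟨u0', hu0', hLu0'⟩ := LftM_L0 hwC hr 1
    obtain ⟨u1', hu1', hLu1'⟩ := LftM_L1 hwC hr 1
    obtain ⟨ul, hul, hLul⟩ := LL_Lft hℓ
    have c1 : Commute (E2 ι (L1 F0 F1 w0 (r1 - w1)))
        (E1 κ (L0 D0 D1 t1 (s0 - t0)) * E1 κ ℓ) := by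
      rw [← map_mul]
      exact (commute_E1_Lam (F0 * (r1 - w1) * w0) F1 hA (Lft_mul hLu0 hLul)).symm
    have c2 : Commute (E2 ι (L1 D0 D1 t0 (s1 - t1))) (E1 κ (L0 F0 F1 w1 (r0 - w0))) :=
      (commute_E1_Lam (D0 * (s1 - t1) * t0) D1 hA' hLu0').symm
    have c4 : Commute (E2 ι (L1 F0 F1 w0 (r1 - w1))) (E1 κ (L0 F0 F1 w1 (r0 - w0))) :=
      (commute_E1_Lam (F0 * (r1 - w1) * w0) F1 hA hLu0').symm
    have hS : Lft 1 (bd u0' u1'⁻¹)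
        (E1 κ (L0 F0 F1 w1 (r0 - w0)) * (E2 ι (L1 F0 F1 w0 (r1 - w1)))⁻¹) := by
      rw [← map_inv]
      exact Lft_E12 hLu0' (Lft_inv hLu1')
    have hX : (u0' : Matrix ι ι (LaurentSeries k)) * (F1 + w1) *
        (((u1'⁻¹)⁻¹ : GL κ (LaurentSeries k)) : Matrix κ κ (LaurentSeries k)) = F1 + r1 := by
      rw [inv_inv, hu0', hu1']
      exact (IsC.pi_change hwC hr).symm
    have hY : ((u1'⁻¹ : GL κ (LaurentSeries k)) : Matrix κ κ (LaurentSeries k)) * (F0 + w0) *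
        ((u0'⁻¹ : GL ι (LaurentSeries k)) : Matrix ι ι (LaurentSeries k)) = F0 + r0 := by
      have h1 : (((u1'⁻¹ : GL κ (LaurentSeries k)) : Matrix κ κ (LaurentSeries k)) * (F0 + w0) *
        ((u0'⁻¹ : GL ι (LaurentSeries k)) : Matrix ι ι (LaurentSeries k))) * (F1 + r1) = 1 := by
        rw [← hX, inv_inv]
        have e1 : ((u1'⁻¹ : GL κ (LaurentSeries k)) : Matrix κ κ (LaurentSeries k)) * (F0 + w0) *
            ((u0'⁻¹ : GL ι (LaurentSeries k)) : Matrix ι ι (LaurentSeries k)) *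
            ((u0' : Matrix ι ι (LaurentSeries k)) * (F1 + w1) *
              (u1' : Matrix κ κ (LaurentSeries k))) =
            ((u1'⁻¹ : GL κ (LaurentSeries k)) : Matrix κ κ (LaurentSeries k)) *
              ((F0 + w0) * ((((u0'⁻¹ : GL ι (LaurentSeries k)) : Matrix ι ι (LaurentSeries k)) *
                (u0' : Matrix ι ι (LaurentSeries k))) * (F1 + w1))) *
                (u1' : Matrix κ κ (LaurentSeries k)) := by
          simp only [Matrix.mul_assoc]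
        rw [e1, GL_inv_mul, Matrix.one_mul, hwC.pi_mul', Matrix.mul_one, GL_inv_mul]
      have h2 := hr.pi_mul
      calc _ = (((u1'⁻¹ : GL κ (LaurentSeries k)) : Matrix κ κ (LaurentSeries k)) * (F0 + w0) *
          ((u0'⁻¹ : GL ι (LaurentSeries k)) : Matrix ι ι (LaurentSeries k))) *
            ((F1 + r1) * (F0 + r0)) := by rw [h2, Matrix.mul_one]
        _ = F0 + r0 := by rw [← Matrix.mul_assoc, h1, Matrix.one_mul]
    have h3 := conj_Wm hS (F1 + w1) (F0 + w0)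
    rw [hX, hY] at h3
    rw [grp1 c1 c2 h3 c4]
    unfold L1
    rw [Wm_conj_E2 hr.pi_mul hr.pi_mul' _ _ hA, Wm_conj_E2 hr.pi_mul hr.pi_mul' _ _ hA']
    simp only [map_mul, map_inv]
  rw [hT] at htot ⊢
  set A' := L0 D0 D1 t1 (s0 - t0) * ℓ * (L0 F0 F1 w1 (r0 - w0))⁻¹ *
      (Lam ((F1 + r1) * (F0 * (r1 - w1) * w0)) (F1 * (F0 + r0)))⁻¹ *
      Lam ((F1 + r1) * (D0 * (s1 - t1) * t0)) (D1 * (F0 + r0)) with hA'def
  rw [hzz]
  have hphi := LftM_phi_eq htot hP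
  have e1 : E1 κ A' * Wm (F1 + r1) (F0 + r0) * (E1 κ r * Wm (F1 + r1) (F0 + r0))⁻¹ =
      E1 κ (A' * r⁻¹) := by
    rw [map_mul (E1 κ) A' r⁻¹, map_inv (E1 κ) r]
    group
  have hK : E1 κ (A' * r⁻¹) ∈ K2 ((ι ⊕ κ) ⊕ ℕ) (LaurentSeries k) := by
    rw [← e1]
    exact mul_inv_mem_K2 hphi
  have hK' : A' * r⁻¹ ∈ K2 (ι ⊕ ℕ) (LaurentSeries k) := emb_K2_inj _ _ hK
  unfold df
  rw [e1]
  exact (del_emb _ _ hK').symm

theorem LftM_shift {R : Type*} [CommRing R] {D0 : Matrix κ ι R} {D1 : Matrix ι κ R}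
    {s0 : Matrix κ ι R} {s1 : Matrix ι κ R} {F0 : Matrix κ ι R} {F1 : Matrix ι κ R}
    {r0 : Matrix κ ι R} {r1 : Matrix ι κ R} {r : St (ι ⊕ ℕ) R} (hs : IsC D0 D1 s0 s1)
    (hr : IsC F0 F1 r0 r1) (hρ : LftM 1 ((D1 + s1) * (F0 + r0)) r) :
    LftM 1 (Matrix.fromBlocks 0 D1 (-F0) 0 + Matrix.fromBlocks 0 s1 (-r0) 0)
      (E1 κ r * Wm (F1 + r1) (F0 + r0)) := by
  exact LftM_shift' hr hρ

/-- for `F = D` the value is `1` -/
theorem LS_self {b0 : GL ι (LaurentSeries k)} {b1 : GL κ (LaurentSeries k)}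
    {D0 : Matrix κ ι (LaurentSeries k)} {D1 : Matrix ι κ (LaurentSeries k)}
    {s0 : Matrix κ ι (LaurentSeries k)} {s1 : Matrix ι κ (LaurentSeries k)}
    {t0 : Matrix κ ι (LaurentSeries k)} {t1 : Matrix ι κ (LaurentSeries k)}
    (hs : IsC D0 D1 s0 s1) (ht : Lo2 b0 b1 D0 D1 t0 t1) :
    LS b0 b1 D0 D1 s0 s1 D0 D1 s0 s1 1 1 := by
  refine ⟨t0, t1, t0, t1, 1, ht, ht, ?_, ?_⟩
  · rw [ht.1.pi_mul]
    exact LL_one
  · have e : L0 D0 D1 t1 (s0 - t0) * 1 * (L0 D0 D1 t1 (s0 - t0))⁻¹ *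
      (Lam ((D1 + s1) * (D0 * (s1 - t1) * t0)) (D1 * (D0 + s0)))⁻¹ *
      Lam ((D1 + s1) * (D0 * (s1 - t1) * t0)) (D1 * (D0 + s0)) = 1 := by group
    rw [e, df_self]

end MSK
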