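import Pool.Agent.MSK.Gp1
import Pool.Agent.MSK.Lvb
import Pool.Agent.MSK.Lvs

/-! MSK / Gp2: `IsPsi` of block triangular complexes and of a complex plus a shift; complexes with compatible contractions.

PROOFS. `IsPsi_blk`: identification `bd`-type `h = fromBlocks h 0 0 h₂`; the square complex is block triangular with off diagonal blocks `h e0`, `e1 h₂'`; contraction `IsC.block`, lift
`E1 P * E2 P₂ * Up M` (`LftM_block` over `K`, its image at `y` by `map_E1`, `map_E2`, `map_Up`), `LV_block` at every place (the matrices of the total complex times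
`h` are equal to the block matrices of the products: `Matrix.fromBlocks_multiply`). `IsPsi_sum`: `blk` with `e0 = e1 = 0` (equal `D0`, `D1`; or the same proof).
`IsPsi_shift`: identification `h : O1 ⊕ O0 → O0 ⊕ O1` the swap, `h = fromBlocks 0 1 1 0`; `h D0^sum = [[0, -F1], [D0, 0]]`, `D1^sum h' = [[0, D1], [-F0, 0]]`; contraction of
the sum: `s`, `-r`; `LV_shift`, `LftM_shift`. `IsPsi_self`: `LS_self` (local contractions from `c.loc`), `r = 1`.
`IsPsi_direct`: the contraction is compatible with all lattices, so `t = s` at every place: `LV_direct` with `ℓ` a local lift of `(D1 + s1) h'`; the value is that of the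
automorphism `(D1 + s1) h'` of `O0` (`IsTh`). -/

set_option autoImplicit false
set_option linter.unusedVariables false

namespace MSK

open Matrix

universe u v w x

variable {Pl : Type v} {κ : Pl → Type w} [∀ y, Field (κ y)] {K : Type u} [Field K]
  {ψ : ∀ y, K →+* LaurentSeries (κ y)} {X : Type x} [AddCommGroup X]

section aux

private theorem gp2_IsC_sq {O0 O1 : Ob κ} {D0 s0 : Matrix O1.ι O0.ι K}
    {D1 s1 : Matrix O0.ι O1.ι K} (hs : IsC D0 D1 s0 s1) {h : Matrix O0.ι O1.ι K}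
    {h' : Matrix O1.ι O0.ι K} (i : IsoM ψ O1 O0 h h') :
    IsC (h * D0) (D1 * h') (h * s0) (s1 * h') := by
  have h1 := hs.conj (1 : Matrix O0.ι O0.ι K) 1 h h'
    (Matrix.one_mul 1) (Matrix.one_mul 1) i.h'h i.hh'
  simp only [Matrix.mul_one, Matrix.one_mul] at h1
  exact h1

private theorem gp2_LftM_map {ι : Type*} [Fintype ι] [DecidableEq ι] {R R' : Type*} [CommRing R]
    [CommRing R'] (f : R →+* R') {n : ℕ} {A : Matrix ι ι R} {P : St (ι ⊕ ℕ) R} (hP : LftM n A P) :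
    LftM n (A.map f) (map f P) := by
  obtain ⟨g, hg, hP⟩ := hP
  exact ⟨Matrix.GeneralLinearGroup.map f g, by rw [coe_mapG, hg], Lft_map f hP⟩

private theorem gp2_LftM_one {ι : Type*} [Fintype ι] [DecidableEq ι] {R : Type*} [CommRing R]
    (n : ℕ) : LftM n (1 : Matrix ι ι R) 1 := ⟨1, Units.val_one, Lft_one n⟩

private theorem gp2_map3 {α β γ δ : Type*} [Fintype β] [Fintype γ] {R R' : Type*} [CommRing R]
    [CommRing R'] (f : R →+* R') (A : Matrix α β R) (B : Matrix β γ R) (C : Matrix γ δ R) :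
    (-(A * B * C)).map f = -(A.map f * B.map f * C.map f) := by
  rw [gl_map_neg, Matrix.map_mul, Matrix.map_mul]

/-- block triangular square complexes at one place -/
private theorem gp2_LV_blk {ι ι' : Type*} [Fintype ι] [DecidableEq ι] [Fintype ι'] [DecidableEq ι']
    {k : Type*} [Field k] (f : K →+* LaurentSeries k) {b : GL ι (LaurentSeries k)}
    {b' : GL ι' (LaurentSeries k)} {D0 D1 s0 s1 : Matrix ι ι K} {F0 F1 r0 r1 : Matrix ι' ι' K}
    {P : St (ι ⊕ ℕ) K} {Q : St (ι' ⊕ ℕ) K} {z z' : kˣ} (hs : IsC D0 D1 s0 s1)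
    (hr : IsC F0 F1 r0 r1) (hP : LftM 1 (D1 + s1) P) (hQ : LftM 1 (F1 + r1) Q)
    (hz : LV b (D0.map f) (D1.map f) (s0.map f) (s1.map f) (map f P) z)
    (hz' : LV b' (F0.map f) (F1.map f) (r0.map f) (r1.map f) (map f Q) z')
    (e0 e1 : Matrix ι ι' K) (h01 : D0 * e1 + e0 * F1 = 0) (h10 : D1 * e0 + e1 * F0 = 0)
    (he0 : LI b b' (e0.map f)) (he1 : LI b b' (e1.map f)) :
    LV (bd b b') ((Matrix.fromBlocks D0 e0 0 F0).map f) ((Matrix.fromBlocks D1 e1 0 F1).map f)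
      ((Matrix.fromBlocks s0 (-(s0 * e1 * r0)) 0 r0).map f)
      ((Matrix.fromBlocks s1 (-(s1 * e0 * r1)) 0 r1).map f)
      (map f (E1 ι' P * E2 ι Q * Up ((D0 + s0) * (e1 - s1 * e0 * r1)))) (z * z') := by
  have hPy := gp2_LftM_map f hP
  have hQy := gp2_LftM_map f hQ
  rw [Matrix.map_add _ (map_add f)] at hPy hQy
  have h1 := LV_block (hs.map f) (hr.map f) hPy hQy hz hz' (e0.map f) (e1.map f)
    (gl_map_rel f h01) (gl_map_rel f h10) he0 he1
  rw [Matrix.fromBlocks_map, Matrix.fromBlocks_map, Matrix.fromBlocks_map, Matrix.fromBlocks_map,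
    gl_map_zero, gp2_map3, gp2_map3, map_mul, map_mul, map_E1, map_E2, map_Up, Matrix.map_mul,
    Matrix.map_add _ (map_add f), Matrix.map_sub _ (map_sub f), Matrix.map_mul, Matrix.map_mul]
  exact h1

private theorem gp2_swap {α β : Type*} [Fintype α] [DecidableEq α] [Fintype β] [DecidableEq β]
    {R : Type*} [CommRing R] :
    (Matrix.fromBlocks 0 1 1 0 : Matrix (α ⊕ β) (β ⊕ α) R) *
      (Matrix.fromBlocks 0 1 1 0 : Matrix (β ⊕ α) (α ⊕ β) R) = 1 := by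
  rw [Matrix.fromBlocks_multiply]
  simp

end aux

theorem IsPsi_blk {O0 O1 O0' O1' : Ob κ} (c : CX ψ O0 O1) (c' : CX ψ O0' O1')
    (e0 : Matrix O1.ι O0'.ι K) (e1 : Matrix O0.ι O1'.ι K)
    (h01 : c.D0 * e1 + e0 * c'.D1 = 0) (h10 : c.D1 * e0 + e1 * c'.D0 = 0)
    (he0 : ∀ y, LI (O1.b y) (O0'.b y) (e0.map (ψ y)))
    (he1 : ∀ y, LI (O0.b y) (O1'.b y) (e1.map (ψ y))) {z z' : ∀ y, (κ y)ˣ}
    (hz : IsPsi c z) (hz' : IsPsi c' z') :
    IsPsi (c.blk c' e0 e1 h01 h10 he0 he1) (z * z') := by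
  obtain ⟨h, h', s0, s1, P, i, hs, hP, hz⟩ := hz
  obtain ⟨k, k', r0, r1, Q, j, hr, hQ, hz'⟩ := hz'
  have cs := gp2_IsC_sq hs i
  have cr := gp2_IsC_sq hr j
  rw [Matrix.add_mul] at hP hQ
  have x01 : h * c.D0 * (e1 * k') + h * e0 * (c'.D1 * k') = 0 := by
    have : h * c.D0 * (e1 * k') + h * e0 * (c'.D1 * k') =
        h * (c.D0 * e1 + e0 * c'.D1) * k' := by
      simp only [Matrix.mul_add, Matrix.add_mul, Matrix.mul_assoc]
    rw [this, h01, Matrix.mul_zero, Matrix.zero_mul]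
  have x10 : c.D1 * h' * (h * e0) + e1 * k' * (k * c'.D0) = 0 := by
    have a1 : c.D1 * h' * (h * e0) = c.D1 * e0 := by
      rw [Matrix.mul_assoc, ← Matrix.mul_assoc h', i.h'h, Matrix.one_mul]
    have a2 : e1 * k' * (k * c'.D0) = e1 * c'.D0 := by
      rw [Matrix.mul_assoc, ← Matrix.mul_assoc k', j.h'h, Matrix.one_mul]
    rw [a1, a2, h10]
  have q0 : h * s0 * (e1 * k') * (k * r0) = h * (s0 * e1 * r0) := by
    have : h * s0 * (e1 * k') * (k * r0) = h * (s0 * (e1 * ((k' * k) * r0))) := by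
      simp only [Matrix.mul_assoc]
    rw [this, j.h'h, Matrix.one_mul]
    simp only [Matrix.mul_assoc]
  have q1 : s1 * h' * (h * e0) * (r1 * k') = s1 * e0 * r1 * k' := by
    have : s1 * h' * (h * e0) * (r1 * k') = s1 * ((h' * h) * (e0 * (r1 * k'))) := by
      simp only [Matrix.mul_assoc]
    rw [this, i.h'h, Matrix.one_mul]
    simp only [Matrix.mul_assoc]
  have eD0 : Matrix.fromBlocks h 0 0 k * Matrix.fromBlocks c.D0 e0 0 c'.D0 =
      Matrix.fromBlocks (h * c.D0) (h * e0) 0 (k * c'.D0) := by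
    rw [Matrix.fromBlocks_multiply]
    simp only [Matrix.mul_zero, Matrix.zero_mul, add_zero, zero_add]
  have eD1 : Matrix.fromBlocks c.D1 e1 0 c'.D1 * Matrix.fromBlocks h' 0 0 k' =
      Matrix.fromBlocks (c.D1 * h') (e1 * k') 0 (c'.D1 * k') := by
    rw [Matrix.fromBlocks_multiply]
    simp only [Matrix.mul_zero, Matrix.zero_mul, add_zero, zero_add]
  have eS0 : Matrix.fromBlocks h 0 0 k * Matrix.fromBlocks s0 (-(s0 * e1 * r0)) 0 r0 =
      Matrix.fromBlocks (h * s0) (-(h * s0 * (e1 * k') * (k * r0))) 0 (k * r0) := by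
    rw [Matrix.fromBlocks_multiply, q0]
    simp only [Matrix.mul_zero, Matrix.zero_mul, add_zero, zero_add, Matrix.mul_neg, neg_zero]
  have eS1 : Matrix.fromBlocks s1 (-(s1 * e0 * r1)) 0 r1 * Matrix.fromBlocks h' 0 0 k' =
      Matrix.fromBlocks (s1 * h') (-(s1 * h' * (h * e0) * (r1 * k'))) 0 (r1 * k') := by
    rw [Matrix.fromBlocks_multiply, q1]
    simp only [Matrix.mul_zero, Matrix.zero_mul, add_zero, zero_add, Matrix.neg_mul]
  have kk : Matrix.fromBlocks h 0 0 k * Matrix.fromBlocks h' 0 0 k' = 1 := by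
    rw [Matrix.fromBlocks_multiply]
    simp only [Matrix.mul_zero, Matrix.zero_mul, add_zero, zero_add]
    rw [i.hh', j.hh', Matrix.fromBlocks_one]
  have kk' : Matrix.fromBlocks h' 0 0 k' * Matrix.fromBlocks h 0 0 k = 1 := by
    rw [Matrix.fromBlocks_multiply]
    simp only [Matrix.mul_zero, Matrix.zero_mul, add_zero, zero_add]
    rw [i.h'h, j.h'h, Matrix.fromBlocks_one]
  have kl : ∀ y, LI (bd (O0.b y) (O0'.b y)) (bd (O1.b y) (O1'.b y))
      ((Matrix.fromBlocks h 0 0 k).map (ψ y)) := by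
    intro y
    rw [Matrix.fromBlocks_map, gl_map_zero, gl_map_zero]
    exact LI_fromBlocks (i.loc y) LI_zero LI_zero (j.loc y)
  have kl' : ∀ y, LI (bd (O1.b y) (O1'.b y)) (bd (O0.b y) (O0'.b y))
      ((Matrix.fromBlocks h' 0 0 k').map (ψ y)) := by
    intro y
    rw [Matrix.fromBlocks_map, gl_map_zero, gl_map_zero]
    exact LI_fromBlocks (i.loc' y) LI_zero LI_zero (j.loc' y)
  refine ⟨Matrix.fromBlocks h 0 0 k, Matrix.fromBlocks h' 0 0 k',
    Matrix.fromBlocks s0 (-(s0 * e1 * r0)) 0 r0, Matrix.fromBlocks s1 (-(s1 * e0 * r1)) 0 r1,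
    E1 O0'.ι P * E2 O0.ι Q *
      Up ((h * c.D0 + h * s0) * (e1 * k' - s1 * h' * (h * e0) * (r1 * k'))), ⟨kk, kk', kl, kl'⟩,
    ?_, ?_, ?_⟩
  · exact hs.block hr e0 e1 h01 h10
  · have h1 := LftM_block cs cr hP hQ (h * e0) (e1 * k') x01 x10
    have h2 : (Matrix.fromBlocks c.D1 e1 0 c'.D1 + Matrix.fromBlocks s1 (-(s1 * e0 * r1)) 0 r1) *
        Matrix.fromBlocks h' 0 0 k' =
        Matrix.fromBlocks (c.D1 * h') (e1 * k') 0 (c'.D1 * k') +
          Matrix.fromBlocks (s1 * h') (-(s1 * h' * (h * e0) * (r1 * k'))) 0 (r1 * k') := by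
      rw [Matrix.add_mul, eD1, eS1]
    rw [← h2] at h1
    exact h1
  · intro y
    have le0 : LI (O0.b y) (O0'.b y) ((h * e0).map (ψ y)) := by
      rw [Matrix.map_mul]
      exact LI_mul (i.loc y) (he0 y)
    have le1 : LI (O0.b y) (O0'.b y) ((e1 * k').map (ψ y)) := by
      rw [Matrix.map_mul]
      exact LI_mul (he1 y) (j.loc' y)
    have h1 := gp2_LV_blk (ψ y) cs cr hP hQ (hz y) (hz' y) (h * e0) (e1 * k') x01 x10 le0 le1
    rw [← eD0, ← eD1, ← eS0, ← eS1] at h1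
    exact h1

theorem IsPsi_sum {O0 O1 O0' O1' : Ob κ} (c : CX ψ O0 O1) (c' : CX ψ O0' O1')
    {z z' : ∀ y, (κ y)ˣ} (hz : IsPsi c z) (hz' : IsPsi c' z') : IsPsi (c.sum c') (z * z') := by
  exact IsPsi_blk c c' 0 0 (by rw [Matrix.mul_zero, Matrix.zero_mul, add_zero])
    (by rw [Matrix.mul_zero, Matrix.zero_mul, add_zero])
    (fun y => by rw [gl_map_zero]; exact LI_zero) (fun y => by rw [gl_map_zero]; exact LI_zero)
    hz hz'

theorem IsPsi_shift {O0 O1 : Ob κ} (c c' : CX ψ O0 O1) {s0 r0 : Matrix O1.ι O0.ι K}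
    {s1 r1 : Matrix O0.ι O1.ι K} (hs : IsC c.D0 c.D1 s0 s1) (hr : IsC c'.D0 c'.D1 r0 r1)
    {r : St (O0.ι ⊕ ℕ) K} (hρ : LftM 1 ((c.D1 + s1) * (c'.D0 + r0)) r) {z : ∀ y, (κ y)ˣ}
    (hz : ∀ y, LS (O0.b y) (O1.b y) (c.D0.map (ψ y)) (c.D1.map (ψ y)) (s0.map (ψ y))
      (s1.map (ψ y)) (c'.D0.map (ψ y)) (c'.D1.map (ψ y)) (r0.map (ψ y)) (r1.map (ψ y))
      (map (ψ y) r) (z y)) : IsPsi (c.sum c'.sh) z := by
  have eD0 : (Matrix.fromBlocks 0 1 1 0 : Matrix (O0.ι ⊕ O1.ι) (O1.ι ⊕ O0.ι) K) *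
      Matrix.fromBlocks c.D0 0 0 (-c'.D1) = Matrix.fromBlocks 0 (-c'.D1) c.D0 0 := by
    rw [Matrix.fromBlocks_multiply]
    simp only [Matrix.mul_zero, Matrix.zero_mul, add_zero, zero_add, Matrix.one_mul]
  have eS0 : (Matrix.fromBlocks 0 1 1 0 : Matrix (O0.ι ⊕ O1.ι) (O1.ι ⊕ O0.ι) K) *
      Matrix.fromBlocks s0 0 0 (-r1) = Matrix.fromBlocks 0 (-r1) s0 0 := by
    rw [Matrix.fromBlocks_multiply]
    simp only [Matrix.mul_zero, Matrix.zero_mul, add_zero, zero_add, Matrix.one_mul]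
  have eD1 : Matrix.fromBlocks c.D1 0 0 (-c'.D0) *
      (Matrix.fromBlocks 0 1 1 0 : Matrix (O1.ι ⊕ O0.ι) (O0.ι ⊕ O1.ι) K) =
      Matrix.fromBlocks 0 c.D1 (-c'.D0) 0 := by
    rw [Matrix.fromBlocks_multiply]
    simp only [Matrix.mul_zero, Matrix.zero_mul, add_zero, zero_add, Matrix.mul_one]
  have eS1 : Matrix.fromBlocks s1 0 0 (-r0) *
      (Matrix.fromBlocks 0 1 1 0 : Matrix (O1.ι ⊕ O0.ι) (O0.ι ⊕ O1.ι) K) =
      Matrix.fromBlocks 0 s1 (-r0) 0 := by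
    rw [Matrix.fromBlocks_multiply]
    simp only [Matrix.mul_zero, Matrix.zero_mul, add_zero, zero_add, Matrix.mul_one]
  have kl : ∀ y, LI (bd (O0.b y) (O1.b y)) (bd (O1.b y) (O0.b y))
      ((Matrix.fromBlocks 0 1 1 0 : Matrix (O0.ι ⊕ O1.ι) (O1.ι ⊕ O0.ι) K).map (ψ y)) := by
    intro y
    rw [Matrix.fromBlocks_map, gl_map_zero, gl_map_zero, Matrix.map_one _ (map_zero _)
      (map_one _), Matrix.map_one _ (map_zero _) (map_one _)]
    exact LI_fromBlocks LI_zero LI_one LI_one LI_zero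
  have kl' : ∀ y, LI (bd (O1.b y) (O0.b y)) (bd (O0.b y) (O1.b y))
      ((Matrix.fromBlocks 0 1 1 0 : Matrix (O1.ι ⊕ O0.ι) (O0.ι ⊕ O1.ι) K).map (ψ y)) := by
    intro y
    rw [Matrix.fromBlocks_map, gl_map_zero, gl_map_zero, Matrix.map_one _ (map_zero _)
      (map_one _), Matrix.map_one _ (map_zero _) (map_one _)]
    exact LI_fromBlocks LI_zero LI_one LI_one LI_zero
  refine ⟨(Matrix.fromBlocks 0 1 1 0 : Matrix (O0.ι ⊕ O1.ι) (O1.ι ⊕ O0.ι) K),
    (Matrix.fromBlocks 0 1 1 0 : Matrix (O1.ι ⊕ O0.ι) (O0.ι ⊕ O1.ι) K),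
    Matrix.fromBlocks s0 0 0 (-r1), Matrix.fromBlocks s1 0 0 (-r0),
    E1 O1.ι r * Wm (c'.D1 + r1) (c'.D0 + r0), ⟨gp2_swap, gp2_swap, kl, kl'⟩, ?_, ?_, ?_⟩
  · have h1 := hs.block hr.symm.neg 0 0 (by rw [Matrix.mul_zero, Matrix.zero_mul, add_zero])
      (by rw [Matrix.mul_zero, Matrix.zero_mul, add_zero])
    simp only [Matrix.mul_zero, Matrix.zero_mul, neg_zero] at h1
    exact h1
  · have h1 := LftM_shift hs hr hρ
    rw [← eD1, ← eS1, ← Matrix.add_mul] at h1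
    exact h1
  · intro y
    have hρy := gp2_LftM_map (ψ y) hρ
    rw [Matrix.map_mul, Matrix.map_add _ (map_add (ψ y)), Matrix.map_add _ (map_add (ψ y))] at hρy
    have h1 := LV_shift (hs.map (ψ y)) (hr.map (ψ y)) hρy (hz y)
    have m0 : ((Matrix.fromBlocks 0 1 1 0 : Matrix (O0.ι ⊕ O1.ι) (O1.ι ⊕ O0.ι) K) *
        Matrix.fromBlocks c.D0 0 0 (-c'.D1)).map (ψ y) =
        Matrix.fromBlocks 0 (-(c'.D1.map (ψ y))) (c.D0.map (ψ y)) 0 := by
      rw [eD0, Matrix.fromBlocks_map, gl_map_zero, gl_map_zero, gl_map_neg]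
    have m1 : (Matrix.fromBlocks c.D1 0 0 (-c'.D0) *
        (Matrix.fromBlocks 0 1 1 0 : Matrix (O1.ι ⊕ O0.ι) (O0.ι ⊕ O1.ι) K)).map (ψ y) =
        Matrix.fromBlocks 0 (c.D1.map (ψ y)) (-(c'.D0.map (ψ y))) 0 := by
      rw [eD1, Matrix.fromBlocks_map, gl_map_zero, gl_map_zero, gl_map_neg]
    have m2 : ((Matrix.fromBlocks 0 1 1 0 : Matrix (O0.ι ⊕ O1.ι) (O1.ι ⊕ O0.ι) K) *
        Matrix.fromBlocks s0 0 0 (-r1)).map (ψ y) =
        Matrix.fromBlocks 0 (-(r1.map (ψ y))) (s0.map (ψ y)) 0 := by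
      rw [eS0, Matrix.fromBlocks_map, gl_map_zero, gl_map_zero, gl_map_neg]
    have m3 : (Matrix.fromBlocks s1 0 0 (-r0) *
        (Matrix.fromBlocks 0 1 1 0 : Matrix (O1.ι ⊕ O0.ι) (O0.ι ⊕ O1.ι) K)).map (ψ y) =
        Matrix.fromBlocks 0 (s1.map (ψ y)) (-(r0.map (ψ y))) 0 := by
      rw [eS1, Matrix.fromBlocks_map, gl_map_zero, gl_map_zero, gl_map_neg]
    rw [← m0, ← m1, ← m2, ← m3, ← Matrix.map_add _ (map_add (ψ y)),
      ← Matrix.map_add _ (map_add (ψ y)), ← map_Wm, ← map_E1, ← map_mul] at h1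
    exact h1

theorem IsPsi_self {O0 O1 : Ob κ} (c : CX ψ O0 O1) : IsPsi (c.sum c.sh) 1 := by
  obtain ⟨s0, s1, hs⟩ := c.con
  refine IsPsi_shift c c hs hs (r := 1) ?_ ?_
  · rw [hs.pi_mul]
    exact gp2_LftM_one 1
  · intro y
    obtain ⟨t0, t1, ht⟩ := c.loc y
    rw [map_one]
    exact LS_self (hs.map (ψ y)) ht

theorem IsPsi_direct {O0 O1 : Ob κ} (c : CX ψ O0 O1) {s0 : Matrix O1.ι O0.ι K}
    {s1 : Matrix O0.ι O1.ι K} (hs : IsC c.D0 c.D1 s0 s1)
    (h0 : ∀ y, LI (O1.b y) (O0.b y) (s0.map (ψ y)))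
    (h1 : ∀ y, LI (O0.b y) (O1.b y) (s1.map (ψ y))) {h : Matrix O0.ι O1.ι K}
    {h' : Matrix O1.ι O0.ι K} (i : IsoM ψ O1 O0 h h') :
    ∃ a, IsTh ψ O0 ((c.D1 + s1) * h') a ∧ IsPsi c a := by
  have hC := gp2_IsC_sq hs i
  have lD : ∀ y, LI (O1.b y) (O0.b y) (c.D0.map (ψ y)) ∧
      LI (O0.b y) (O1.b y) (c.D1.map (ψ y)) := by
    intro y
    obtain ⟨t0, t1, -, l0, l1, -, -⟩ := c.loc y
    exact ⟨l0, l1⟩
  have hpi : (c.D1 + s1) * h' * (h * (c.D0 + s0)) = 1 := by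
    have h2 := hC.pi_mul
    rw [← Matrix.add_mul, ← Matrix.mul_add] at h2
    exact h2
  have hpi' : h * (c.D0 + s0) * ((c.D1 + s1) * h') = 1 := by
    have h2 := hC.pi_mul'
    rw [← Matrix.add_mul, ← Matrix.mul_add] at h2
    exact h2
  have ig : IsoM ψ O0 O0 ((c.D1 + s1) * h') (h * (c.D0 + s0)) := by
    refine ⟨hpi, hpi', ?_, ?_⟩
    · intro y
      rw [Matrix.map_mul, Matrix.map_add _ (map_add (ψ y))]
      exact LI_mul (LI_add (lD y).2 (h1 y)) (i.loc' y)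
    · intro y
      rw [Matrix.map_mul, Matrix.map_add _ (map_add (ψ y))]
      exact LI_mul (i.loc y) (LI_add (lD y).1 (h0 y))
  obtain ⟨a, ha⟩ := IsTh_exists ig
  refine ⟨a, ha, ?_⟩
  obtain ⟨g', G, -, hG, hGa⟩ := ha
  refine ⟨h, h', s0, s1, G, i, hs, hG, ?_⟩
  intro y
  obtain ⟨ℓ, hℓ, hy⟩ := hGa y
  rw [hy]
  refine LV_direct ⟨hC.map (ψ y), ?_, ?_, ?_, ?_⟩ ?_
  · rw [Matrix.map_mul]
    exact LI_mul (i.loc y) (lD y).1
  · rw [Matrix.map_mul]
    exact LI_mul (lD y).2 (i.loc' y)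
  · rw [Matrix.map_mul]
    exact LI_mul (i.loc y) (h0 y)
  · rw [Matrix.map_mul]
    exact LI_mul (h1 y) (i.loc' y)
  · rw [← Matrix.map_add _ (map_add (ψ y)), ← Matrix.add_mul]
    exact hℓ

end MSK
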