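import Pool.Agent.MSK.Gp2

/-! MSK / Gp3: the group of classes of complexes.

PROOFS. `val_eq`: `IsPsi_unique`. `Iso_*`: permutation matrices (`Matrix.fromBlocks 0 1 1 0` for `comm`; `Matrix.reindex` of `1` along `Equiv.sumAssoc` for `assoc`; `fromCols 1 0`,
`fromRows 1 0` for `emp`); they are the images of the same matrices over `k⟦X⟧`, and conjugate `bd (bd b b') b''` to `bd b (bd b' b'')` etc.
`val_iso`: `chi = 0` gives an isomorphism `O1 → O0` (`τ.iso`), so `IsPsi` has a value (`IsPsi_exists`), `IsPsi_iso`, `val_eq`. `val_sum`: `IsPsi_sum`. `val_self`: `IsPsi_self`.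
`cls_block`: by `cls_of_I` we may assume `C` has the objects and matrices of the block complex; `PreG.cls_add_of_v`: the complex `C ⊕ C'[1] ⊕ C''[1]` is isomorphic
(by a permutation of the summands: `O0: (O0' ⊕ O0'') ⊕ (O1' ⊕ O1'') → (O0' ⊕ O1') ⊕ (O0'' ⊕ O1'')`, `O1` similarly) to the block triangular complex with diagonal blocks
`C' ⊕ C'[1]`, `C'' ⊕ C''[1]` and off diagonal blocks `fromBlocks e0 0 0 0`, `fromBlocks e1 0 0 0`, so its value is `0 + 0` by `IsPsi_blk`, `IsPsi_self`.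
`cls_direct`: `IsPsi_direct` gives a value in `ThS ≤ NT`, so `val = 0`; `PreG.vl_inj`. `vl_diff`: `vl (cls C - cls C') = val (C ⊕ C'[1])`. -/

set_option autoImplicit false
set_option linter.unusedVariables false

namespace MSK

open Matrix

universe u v w x

set_option linter.unusedSectionVars false

section gp3_perm

variable {α β μ : Type*} [Fintype α] [DecidableEq α] [Fintype β] [DecidableEq β]

/-- the permutation matrix of a bijection -/
private def pm3 (R : Type*) [CommRing R] (e : α ≃ β) : Matrix β α R :=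
  fun i j => if e.symm i = j then 1 else 0

private theorem pm3_mul {R : Type*} [CommRing R] (e : α ≃ β) (M : Matrix α μ R) :
    pm3 R e * M = fun i j => M (e.symm i) j := by
  ext i j
  rw [Matrix.mul_apply, Finset.sum_eq_single (e.symm i)]
  · simp [pm3]
  · intro k _ hk
    simp [pm3, Ne.symm hk]
  · intro h
    exact absurd (Finset.mem_univ _) h

private theorem mul_pm3 {R : Type*} [CommRing R] (e : α ≃ β) (M : Matrix μ β R) :
    M * pm3 R e = fun i j => M i (e j) := by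
  ext i j
  rw [Matrix.mul_apply, Finset.sum_eq_single (e j)]
  · simp [pm3]
  · intro k _ hk
    have h : e.symm k ≠ j := fun h => hk (by rw [← h, Equiv.apply_symm_apply])
    simp [pm3, h]
  · intro h
    exact absurd (Finset.mem_univ _) h

private theorem pm3_symm {R : Type*} [CommRing R] (e : α ≃ β) : pm3 R e * pm3 R e.symm = 1 := by
  rw [pm3_mul]
  ext i j
  simp [pm3, Matrix.one_apply]

private theorem pm3_symm' {R : Type*} [CommRing R] (e : α ≃ β) : pm3 R e.symm * pm3 R e = 1 := by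
  rw [pm3_mul]
  ext i j
  simp [pm3, Matrix.one_apply]

private theorem pm3_map {R R' : Type*} [CommRing R] [CommRing R'] (f : R →+* R') (e : α ≃ β) :
    (pm3 R e).map f = pm3 R' e := by
  ext i j
  rw [Matrix.map_apply]
  unfold pm3
  split_ifs
  · exact map_one f
  · exact map_zero f

private theorem LI_pm3 {k : Type*} [Field k] (e : α ≃ β) {b : GL α (LaurentSeries k)}
    {b' : GL β (LaurentSeries k)}
    (hb : ∀ i j, (b' : Matrix β β (LaurentSeries k)) (e i) (e j) =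
      (b : Matrix α α (LaurentSeries k)) i j) : LI b' b (pm3 (LaurentSeries k) e) := by
  refine ⟨pm3 _ e, ?_⟩
  rw [pm3_map]
  have h : (b' : Matrix β β (LaurentSeries k)) * pm3 (LaurentSeries k) e =
      pm3 (LaurentSeries k) e * (b : Matrix α α (LaurentSeries k)) := by
    rw [pm3_mul, mul_pm3]
    refine funext fun i => funext fun j => ?_
    have h1 := hb (e.symm i) j
    rw [Equiv.apply_symm_apply] at h1
    exact h1
  rw [h, Matrix.mul_assoc, GL_mul_inv, Matrix.mul_one]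

end gp3_perm

section gp3_fb

variable {α β γ α' β' γ' : Type*} [Fintype α] [DecidableEq α] [Fintype β] [DecidableEq β]
  [Fintype γ] [DecidableEq γ] [Fintype α'] [DecidableEq α'] [Fintype β'] [DecidableEq β']
  [Fintype γ'] [DecidableEq γ'] {R : Type*} [CommRing R]

private theorem fb_one3 {h : Matrix α β R} {h' : Matrix β α R} {g : Matrix α' β' R}
    {g' : Matrix β' α' R} (hh : h * h' = 1) (gg : g * g' = 1) :
    Matrix.fromBlocks h 0 0 g * Matrix.fromBlocks h' 0 0 g' = 1 := by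
  rw [Matrix.fromBlocks_multiply, hh, gg]
  simp only [Matrix.mul_zero, Matrix.zero_mul, add_zero, zero_add]
  exact Matrix.fromBlocks_one

private theorem fb_inter3 {A : Matrix β γ R} {B : Matrix γ α R} {C : Matrix β γ' R}
    {D : Matrix γ' α R} (X : Matrix α' β' R) (h : A * B = C * D) :
    (Matrix.fromBlocks A 0 0 X : Matrix (β ⊕ α') (γ ⊕ β') R) *
        (Matrix.fromBlocks B 0 0 1 : Matrix (γ ⊕ β') (α ⊕ β') R) =
      (Matrix.fromBlocks C 0 0 1 : Matrix (β ⊕ α') (γ' ⊕ α') R) *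
        (Matrix.fromBlocks D 0 0 X : Matrix (γ' ⊕ α') (α ⊕ β') R) := by
  rw [Matrix.fromBlocks_multiply, Matrix.fromBlocks_multiply, h]
  simp only [Matrix.mul_zero, Matrix.zero_mul, add_zero, zero_add, Matrix.mul_one, Matrix.one_mul]

private theorem fb_zero3 {α₂ β₂ γ₂ δ₂ : Type*} [Fintype α₂] [Fintype β₂] [Fintype γ₂] [Fintype δ₂]
    {D0 : Matrix α β R} {e1 : Matrix β γ R} {e0 : Matrix α γ' R} {F1 : Matrix γ' γ R}
    (X : Matrix α₂ β₂ R) (Y : Matrix γ₂ δ₂ R) (h : D0 * e1 + e0 * F1 = 0) :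
    (Matrix.fromBlocks D0 0 0 X : Matrix (α ⊕ α₂) (β ⊕ β₂) R) *
        (Matrix.fromBlocks e1 0 0 0 : Matrix (β ⊕ β₂) (γ ⊕ δ₂) R) +
      (Matrix.fromBlocks e0 0 0 0 : Matrix (α ⊕ α₂) (γ' ⊕ γ₂) R) *
        (Matrix.fromBlocks F1 0 0 Y : Matrix (γ' ⊕ γ₂) (γ ⊕ δ₂) R) = 0 := by
  rw [Matrix.fromBlocks_multiply, Matrix.fromBlocks_multiply, Matrix.fromBlocks_add]
  simp only [Matrix.mul_zero, Matrix.zero_mul, add_zero, h]
  exact Matrix.fromBlocks_zero

private theorem LI_map3 {k : Type*} [Field k] (f : R →+* LaurentSeries k)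
    {b : GL α (LaurentSeries k)} {b' : GL β (LaurentSeries k)} {c : GL α' (LaurentSeries k)}
    {c' : GL β' (LaurentSeries k)} {h : Matrix α α' R} {g : Matrix β β' R}
    (hh : LI b c (h.map f)) (hg : LI b' c' (g.map f)) :
    LI (bd b b') (bd c c') ((Matrix.fromBlocks h 0 0 g).map f) := by
  have e : (Matrix.fromBlocks h 0 0 g).map f = Matrix.fromBlocks (h.map f) 0 0 (g.map f) := by
    rw [Matrix.fromBlocks_map, Matrix.map_zero _ (map_zero f), Matrix.map_zero _ (map_zero f)]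
  rw [e]
  exact LI_fromBlocks hh LI_zero LI_zero hg

private theorem LI_mapz3 {k : Type*} [Field k] (f : R →+* LaurentSeries k)
    {b : GL α (LaurentSeries k)} {b' : GL β (LaurentSeries k)} {c : GL α' (LaurentSeries k)}
    {c' : GL β' (LaurentSeries k)} {h : Matrix α α' R}
    (hh : LI b c (h.map f)) :
    LI (bd b b') (bd c c') ((Matrix.fromBlocks h 0 0 (0 : Matrix β β' R)).map f) := by
  refine LI_map3 f hh ?_
  rw [Matrix.map_zero _ (map_zero f)]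
  exact LI_zero

end gp3_fb

variable {Pl : Type v} {κ : Pl → Type w} [∀ y, Field (κ y)] {K : Type u} [Field K]
  {ψ : ∀ y, K →+* LaurentSeries (κ y)} {X : Type x} [AddCommGroup X] {τ : Typing ψ X}

private theorem IsoM_pm3 {O O' : Ob κ} (e : O.ι ≃ O'.ι)
    (hb : ∀ y i j, (O'.b y : Matrix O'.ι O'.ι (LaurentSeries (κ y))) (e i) (e j) =
      (O.b y : Matrix O.ι O.ι (LaurentSeries (κ y))) i j) :
    IsoM ψ O O' (pm3 K e) (pm3 K e.symm) := by
  refine ⟨pm3_symm e, pm3_symm' e, fun y => ?_, fun y => ?_⟩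
  · rw [pm3_map]
    exact LI_pm3 e (hb y)
  · rw [pm3_map]
    refine LI_pm3 e.symm fun i j => ?_
    have h := hb y (e.symm i) (e.symm j)
    rw [Equiv.apply_symm_apply, Equiv.apply_symm_apply] at h
    exact h.symm

private theorem Iso_pm3 {C C' : CC τ} (hr0 : C.r0 = C'.r0) (hr1 : C.r1 = C'.r1)
    (e0 : C.O0.ι ≃ C'.O0.ι) (e1 : C.O1.ι ≃ C'.O1.ι)
    (hb0 : ∀ y i j, (C'.O0.b y : Matrix C'.O0.ι C'.O0.ι (LaurentSeries (κ y))) (e0 i) (e0 j) =
      (C.O0.b y : Matrix C.O0.ι C.O0.ι (LaurentSeries (κ y))) i j)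
    (hb1 : ∀ y i j, (C'.O1.b y : Matrix C'.O1.ι C'.O1.ι (LaurentSeries (κ y))) (e1 i) (e1 j) =
      (C.O1.b y : Matrix C.O1.ι C.O1.ι (LaurentSeries (κ y))) i j)
    (hD0 : ∀ i j, C'.c.D0 (e1 i) (e0 j) = C.c.D0 i j)
    (hD1 : ∀ i j, C'.c.D1 (e0 i) (e1 j) = C.c.D1 i j) : C.Iso C' := by
  refine ⟨hr0, hr1, pm3 K e0, pm3 K e0.symm, pm3 K e1, pm3 K e1.symm, IsoM_pm3 e0 hb0,
    IsoM_pm3 e1 hb1, ?_, ?_⟩
  · rw [pm3_mul, mul_pm3]
    ext i j
    have h1 := hD0 (e1.symm i) j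
    rw [Equiv.apply_symm_apply] at h1
    exact h1
  · rw [pm3_mul, mul_pm3]
    ext i j
    have h1 := hD1 (e0.symm i) j
    rw [Equiv.apply_symm_apply] at h1
    exact h1

private theorem IsoM_sum3 {O O' P P' : Ob κ} {h : Matrix O'.ι O.ι K} {h' : Matrix O.ι O'.ι K}
    {g : Matrix P'.ι P.ι K} {g' : Matrix P.ι P'.ι K} (i : IsoM ψ O O' h h')
    (j : IsoM ψ P P' g g') :
    IsoM ψ (O.sum P) (O'.sum P') (Matrix.fromBlocks h 0 0 g) (Matrix.fromBlocks h' 0 0 g') := by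
  exact ⟨fb_one3 i.hh' j.hh', fb_one3 i.h'h j.h'h, fun y => LI_map3 (ψ y) (i.loc y) (j.loc y),
    fun y => LI_map3 (ψ y) (i.loc' y) (j.loc' y)⟩

theorem Iso_symm {C C' : CC τ} (h : C.Iso C') : C'.Iso C := by
  obtain ⟨hr0, hr1, h0, h0', h1, h1', i0, i1, e0, e1⟩ := h
  refine ⟨hr0.symm, hr1.symm, h0', h0, h1', h1, IsoM_symm i0, IsoM_symm i1, ?_, ?_⟩
  · calc C.c.D0 * h0' = (h1' * h1) * C.c.D0 * h0' := by rw [i1.h'h, Matrix.one_mul]
      _ = h1' * (h1 * C.c.D0) * h0' := by simp only [Matrix.mul_assoc]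
      _ = h1' * (C'.c.D0 * h0) * h0' := by rw [e0]
      _ = h1' * C'.c.D0 * (h0 * h0') := by simp only [Matrix.mul_assoc]
      _ = h1' * C'.c.D0 := by rw [i0.hh', Matrix.mul_one]
  · calc C.c.D1 * h1' = (h0' * h0) * C.c.D1 * h1' := by rw [i0.h'h, Matrix.one_mul]
      _ = h0' * (h0 * C.c.D1) * h1' := by simp only [Matrix.mul_assoc]
      _ = h0' * (C'.c.D1 * h1) * h1' := by rw [e1]
      _ = h0' * C'.c.D1 * (h1 * h1') := by simp only [Matrix.mul_assoc]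
      _ = h0' * C'.c.D1 := by rw [i1.hh', Matrix.mul_one]

theorem Iso_sum {C C' : CC τ} (E : CC τ) (h : C.Iso C') : (C.sum E).Iso (C'.sum E) := by
  obtain ⟨hr0, hr1, h0, h0', h1, h1', i0, i1, e0, e1⟩ := h
  exact ⟨congrArg (fun r => r + E.r0) hr0, congrArg (fun r => r + E.r1) hr1,
    Matrix.fromBlocks h0 0 0 1, Matrix.fromBlocks h0' 0 0 1,
    Matrix.fromBlocks h1 0 0 1, Matrix.fromBlocks h1' 0 0 1, IsoM_sum3 i0 (IsoM_refl E.O0),
    IsoM_sum3 i1 (IsoM_refl E.O1), fb_inter3 E.c.D0 e0, fb_inter3 E.c.D1 e1⟩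

theorem Iso_comm (C C' : CC τ) : (C.sum C').Iso (C'.sum C) := by
  refine Iso_pm3 (add_comm _ _) (add_comm _ _) (Equiv.sumComm _ _) (Equiv.sumComm _ _) ?_ ?_ ?_ ?_
  · rintro y (i | i) (j | j) <;> rfl
  · rintro y (i | i) (j | j) <;> rfl
  · rintro (i | i) (j | j) <;> rfl
  · rintro (i | i) (j | j) <;> rfl

theorem Iso_assoc (C C' E : CC τ) : ((C.sum C').sum E).Iso (C.sum (C'.sum E)) := by
  refine Iso_pm3 (add_assoc _ _ _) (add_assoc _ _ _) (Equiv.sumAssoc _ _ _) (Equiv.sumAssoc _ _ _)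
    ?_ ?_ ?_ ?_
  · rintro y ((i | i) | i) ((j | j) | j) <;> rfl
  · rintro y ((i | i) | i) ((j | j) | j) <;> rfl
  · rintro ((i | i) | i) ((j | j) | j) <;> rfl
  · rintro ((i | i) | i) ((j | j) | j) <;> rfl

theorem Iso_emp (C : CC τ) : (C.sum CC.emp).Iso C := by
  refine Iso_pm3 (add_zero _) (add_zero _) (Equiv.sumEmpty _ PEmpty) (Equiv.sumEmpty _ PEmpty) ?_ ?_ ?_ ?_
  · rintro y (i | i) (j | j)
    · rfl
    · exact j.elim
    · exact i.elim
    · exact i.elim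
  · rintro y (i | i) (j | j)
    · rfl
    · exact j.elim
    · exact i.elim
    · exact i.elim
  · rintro (i | i) (j | j)
    · rfl
    · exact j.elim
    · exact i.elim
    · exact i.elim
  · rintro (i | i) (j | j)
    · rfl
    · exact j.elim
    · exact i.elim
    · exact i.elim

variable [Infinite K]

theorem val_eq (C : CC τ) {z : ∀ y, (κ y)ˣ} (hz : IsPsi C.c z) :
    C.val = Additive.ofMul (QuotientGroup.mk z) := by
  have h : ∃ z, IsPsi C.c z := ⟨z, hz⟩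
  have h1 : C.val = Additive.ofMul (QuotientGroup.mk h.choose) := dif_pos h
  rw [h1]
  congr 1
  rw [QuotientGroup.eq, mul_comm]
  exact IsPsi_unique τ C.ty0 C.c hz h.choose_spec

omit [Infinite K] in
private theorem psi_ex3 (C : CC τ) (h : C.chi = 0) : ∃ z, IsPsi C.c z := by
  have h1 : C.r0 = C.r1 := sub_eq_zero.1 h
  have h2 : τ.Ty C.O0 C.r1 := by
    rw [← h1]
    exact C.ty0
  obtain ⟨g, g', i⟩ := τ.iso C.ty1 h2
  exact IsPsi_exists C.c i

theorem val_iso {C C' : CC τ} (h : C.Iso C') (hχ : C.chi = 0) : C.val = C'.val := by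
  obtain ⟨z, hz⟩ := psi_ex3 C hχ
  obtain ⟨hr0, hr1, h0, h0', h1, h1', i0, i1, e0, e1⟩ := h
  rw [val_eq C hz, val_eq C' (IsPsi_iso C.c C'.c i0 i1 e0 e1 hz)]

theorem val_sum (C C' : CC τ) (h : C.chi = 0) (h' : C'.chi = 0) :
    (C.sum C').val = C.val + C'.val := by
  obtain ⟨z, hz⟩ := psi_ex3 C h
  obtain ⟨z', hz'⟩ := psi_ex3 C' h'
  rw [val_eq C hz, val_eq C' hz', val_eq (C.sum C') (IsPsi_sum C.c C'.c hz hz')]
  rfl

theorem val_self (C : CC τ) : (C.sum C.sh).val = 0 :=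
  val_eq (C.sum C.sh) (IsPsi_self C.c)

variable (τ) in
/-- the data of the Grothendieck group -/
noncomputable def preG : PreG (CC τ) X (Additive ((∀ y, (κ y)ˣ) ⧸ NT τ)) where
  sum := CC.sum
  sh := CC.sh
  emp := CC.emp
  χ := CC.chi
  v := CC.val
  I := CC.Iso
  χ_sum C C' := by
    simp only [CC.chi, CC.sum]
    abel
  χ_sh C := by
    simp only [CC.chi, CC.sh]
    abel
  χ_emp := by
    simp only [CC.chi, CC.emp]
    abel
  I_symm := Iso_symm
  I_χ := fun h => by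
    simp only [CC.chi, h.1, h.2.1]
  I_v := fun h hχ => val_iso h hχ
  I_sum := fun E h => Iso_sum E h
  I_comm := Iso_comm
  I_assoc := Iso_assoc
  I_emp := Iso_emp
  v_sum := val_sum
  v_sh := val_self

variable (τ) in
/-- the group -/
abbrev GC : Type _ := (preG τ).GG

/-- the class of a complex -/
noncomputable def cls (C : CC τ) : GC τ := (preG τ).cls C

theorem cls_iso {C C' : CC τ} (h : C.Iso C') : cls C = cls C' := (preG τ).cls_of_I h

theorem cls_sum (C C' : CC τ) : cls (C.sum C') = cls C + cls C' := rfl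

theorem cls_sh (C : CC τ) : cls C.sh = - cls C := rfl

/-- additivity on block triangular complexes -/
theorem cls_block (C C' C'' : CC τ) (hr0 : C.r0 = C'.r0 + C''.r0) (hr1 : C.r1 = C'.r1 + C''.r1)
    (e0 : Matrix C'.O1.ι C''.O0.ι K) (e1 : Matrix C'.O0.ι C''.O1.ι K)
    (h01 : C'.c.D0 * e1 + e0 * C''.c.D1 = 0) (h10 : C'.c.D1 * e0 + e1 * C''.c.D0 = 0)
    (he0 : ∀ y, LI (C'.O1.b y) (C''.O0.b y) (e0.map (ψ y)))
    (he1 : ∀ y, LI (C'.O0.b y) (C''.O1.b y) (e1.map (ψ y)))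
    {h0 : Matrix (C'.O0.sum C''.O0).ι C.O0.ι K} {h0' : Matrix C.O0.ι (C'.O0.sum C''.O0).ι K}
    {h1 : Matrix (C'.O1.sum C''.O1).ι C.O1.ι K} {h1' : Matrix C.O1.ι (C'.O1.sum C''.O1).ι K}
    (i0 : IsoM ψ C.O0 (C'.O0.sum C''.O0) h0 h0') (i1 : IsoM ψ C.O1 (C'.O1.sum C''.O1) h1 h1')
    (hD0 : (C'.c.blk C''.c e0 e1 h01 h10 he0 he1).D0 * h0 = h1 * C.c.D0)
    (hD1 : (C'.c.blk C''.c e0 e1 h01 h10 he0 he1).D1 * h1 = h0 * C.c.D1) :
    cls C = cls C' + cls C'' := by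
  let B : CC τ := ⟨C'.O0.sum C''.O0, C'.O1.sum C''.O1, C'.r0 + C''.r0, C'.r1 + C''.r1,
    τ.sum C'.ty0 C''.ty0, τ.sum C'.ty1 C''.ty1, C'.c.blk C''.c e0 e1 h01 h10 he0 he1⟩
  have hB : C.Iso B := ⟨hr0, hr1, h0, h0', h1, h1', i0, i1, hD0, hD1⟩
  rw [cls_iso hB]
  let D : CC τ := C'.sum C'.sh
  let E : CC τ := C''.sum C''.sh
  let m0 : Matrix D.O1.ι E.O0.ι K :=
    (Matrix.fromBlocks e0 0 0 0 : Matrix (C'.O1.ι ⊕ C'.O0.ι) (C''.O0.ι ⊕ C''.O1.ι) K)
  let m1 : Matrix D.O0.ι E.O1.ι K :=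
    (Matrix.fromBlocks e1 0 0 0 : Matrix (C'.O0.ι ⊕ C'.O1.ι) (C''.O1.ι ⊕ C''.O0.ι) K)
  have k01 : D.c.D0 * m1 + m0 * E.c.D1 = 0 := fb_zero3 _ _ h01
  have k10 : D.c.D1 * m0 + m1 * E.c.D0 = 0 := fb_zero3 _ _ h10
  have l0 : ∀ y, LI (D.O1.b y) (E.O0.b y) (m0.map (ψ y)) := fun y => LI_mapz3 (ψ y) (he0 y)
  have l1 : ∀ y, LI (D.O0.b y) (E.O1.b y) (m1.map (ψ y)) := fun y => LI_mapz3 (ψ y) (he1 y)
  let F : CC τ := ⟨D.O0.sum E.O0, D.O1.sum E.O1, D.r0 + E.r0, D.r1 + E.r1,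
    τ.sum D.ty0 E.ty0, τ.sum D.ty1 E.ty1, D.c.blk E.c m0 m1 k01 k10 l0 l1⟩
  have hF : F.val = 0 := by
    rw [val_eq F (IsPsi_blk D.c E.c _ _ k01 k10 l0 l1 (IsPsi_self C'.c) (IsPsi_self C''.c)),
      mul_one]
    rfl
  have hI : (B.sum (C'.sh.sum C''.sh)).Iso F := by
    refine Iso_pm3 (add_add_add_comm _ _ _ _) (add_add_add_comm _ _ _ _)
      (Equiv.sumSumSumComm _ _ _ _) (Equiv.sumSumSumComm _ _ _ _) ?_ ?_ ?_ ?_
    · rintro y ((i | i) | (i | i)) ((j | j) | (j | j)) <;> rfl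
    · rintro y ((i | i) | (i | i)) ((j | j) | (j | j)) <;> rfl
    · rintro ((i | i) | (i | i)) ((j | j) | (j | j)) <;> rfl
    · rintro ((i | i) | (i | i)) ((j | j) | (j | j)) <;> rfl
  have hχ : (B.sum (C'.sh.sum C''.sh)).chi = 0 := by
    show (C'.r0 + C''.r0) + (C'.r1 + C''.r1) - ((C'.r1 + C''.r1) + (C'.r0 + C''.r0)) = 0
    abel
  refine (preG τ).cls_add_of_v (C := B) (C' := C') (C'' := C'') ?_ ?_
  · show (C'.r0 + C''.r0) - (C'.r1 + C''.r1) = (C'.r0 - C'.r1) + (C''.r0 - C''.r1)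
    abel
  · show (B.sum (C'.sh.sum C''.sh)).val = 0
    rw [val_iso hI hχ, hF]

/-- complexes with a contraction compatible with all lattices -/
theorem cls_direct (C : CC τ) (hr : C.r0 = C.r1) {s0 : Matrix C.O1.ι C.O0.ι K}
    {s1 : Matrix C.O0.ι C.O1.ι K} (hs : IsC C.c.D0 C.c.D1 s0 s1)
    (h0 : ∀ y, LI (C.O1.b y) (C.O0.b y) (s0.map (ψ y)))
    (h1 : ∀ y, LI (C.O0.b y) (C.O1.b y) (s1.map (ψ y))) : cls C = 0 := by
  have h2 : τ.Ty C.O0 C.r1 := by
    rw [← hr]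
    exact C.ty0
  obtain ⟨g, g', i⟩ := τ.iso C.ty1 h2
  obtain ⟨a, ha, hp⟩ := IsPsi_direct C.c hs h0 h1 i
  have hχ : C.chi = 0 := sub_eq_zero.2 hr
  have hv : C.val = 0 := by
    rw [val_eq C hp]
    have h3 : a ∈ NT τ :=
      (le_sup_right : ThS τ ≤ NT τ) (Subgroup.subset_closure ⟨C.O0, C.r0, _, C.ty0, ha⟩)
    have h4 : (QuotientGroup.mk a : (∀ y, (κ y)ˣ) ⧸ NT τ) = 1 := (QuotientGroup.eq_one_iff a).2 h3
    rw [h4]
    rfl
  refine (preG τ).vl_inj (g := (preG τ).cls C) hχ ?_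
  rw [(preG τ).vl_cls (C := C) hχ]
  exact hv

/-- the value of the difference of two complexes with the same objects -/
theorem vl_diff {O0 O1 : Ob κ} {r0 r1 : X} (ty0 : τ.Ty O0 r0) (ty1 : τ.Ty O1 r1)
    (c c' : CX ψ O0 O1) {z : ∀ y, (κ y)ˣ} (hz : IsPsi (c.sum c'.sh) z) :
    (preG τ).chi (cls ⟨O0, O1, r0, r1, ty0, ty1, c⟩ - cls ⟨O0, O1, r0, r1, ty0, ty1, c'⟩) = 0 ∧
    (preG τ).vl (cls ⟨O0, O1, r0, r1, ty0, ty1, c⟩ - cls ⟨O0, O1, r0, r1, ty0, ty1, c'⟩) =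
      Additive.ofMul (QuotientGroup.mk z) := by
  let A : CC τ := ⟨O0, O1, r0, r1, ty0, ty1, c⟩
  let B : CC τ := ⟨O0, O1, r0, r1, ty0, ty1, c'⟩
  have h1 : cls A - cls B = cls (A.sum B.sh) := by
    rw [cls_sum, cls_sh, sub_eq_add_neg]
  have hχ : (A.sum B.sh).chi = 0 := by
    show (r0 + r1) - (r1 + r0) = 0
    abel
  show (preG τ).chi (cls A - cls B) = 0 ∧ (preG τ).vl (cls A - cls B) = _
  rw [h1]
  refine ⟨hχ, ?_⟩
  refine ((preG τ).vl_cls (C := A.sum B.sh) hχ).trans ?_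
  exact val_eq (A.sum B.sh) hz

end MSK
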