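import Pool.Agent.MSK.Gel

/-! MSK / Gst: the typing given by standard objects.

`Ty O r`: `O` is isomorphic to `osum l` for a list `l` of labels, `r = ∑_{n ∈ l} single n 1`.
PROOFS. `sum`: `osum_append` and direct sums of isomorphisms. `iso`: two lists with the same `r` are permutations of each other (`lr_perm`: the coefficient of
`n` is `List.count n`), `osum_perm`. -/

set_option autoImplicit false
set_option linter.unusedVariables false

namespace MSK

open Matrix

universe u v w x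

variable {Pl : Type v} {κ : Pl → Type w} [∀ y, Field (κ y)] {K : Type u} [Field K]
  {ψ : ∀ y, K →+* LaurentSeries (κ y)}

/-- the type of a list of labels -/
noncomputable def lr {Lab : Type*} (l : List Lab) : Lab →₀ ℤ :=
  (l.map fun n => Finsupp.single n (1 : ℤ)).sum

theorem lr_append {Lab : Type*} (l l' : List Lab) : lr (l ++ l') = lr l + lr l' := by
  unfold lr
  rw [List.map_append, List.sum_append]

private theorem lr_count42 {Lab : Type*} [DecidableEq Lab] (l : List Lab) (n : Lab) :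
    lr l n = (l.count n : ℤ) := by
  induction l with
  | nil => simp [lr]
  | cons a l ih =>
    have h1 : lr (a :: l) = Finsupp.single a 1 + lr l := by
      unfold lr
      rw [List.map_cons, List.sum_cons]
    rw [h1, Finsupp.add_apply, ih, Finsupp.single_apply, List.count_cons]
    by_cases h : a = n
    · subst h
      simp [add_comm]
    · simp [h]

theorem lr_perm {Lab : Type*} [DecidableEq Lab] {l l' : List Lab} (h : lr l = lr l') :
    l.Perm l' := by
  rw [List.perm_iff_count]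
  intro n
  have h1 := congrArg (fun f => f n) h
  simp only [lr_count42] at h1
  exact_mod_cast h1

/-- sum of isomorphisms -/
theorem IsoM_sum {O1 O2 O1' O2' : Ob κ} {h : Matrix O1'.ι O1.ι K} {h' : Matrix O1.ι O1'.ι K}
    {g : Matrix O2'.ι O2.ι K} {g' : Matrix O2.ι O2'.ι K} (i : IsoM ψ O1 O1' h h')
    (j : IsoM ψ O2 O2' g g') :
    IsoM ψ (O1.sum O2) (O1'.sum O2') (Matrix.fromBlocks h 0 0 g) (Matrix.fromBlocks h' 0 0 g') := by
  refine ⟨?_, ?_, fun y => ?_, fun y => ?_⟩
  · have h1 : (Matrix.fromBlocks h 0 0 g * Matrix.fromBlocks h' 0 0 g' :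
        Matrix (O1'.ι ⊕ O2'.ι) (O1'.ι ⊕ O2'.ι) K) = 1 := by
      rw [Matrix.fromBlocks_multiply, i.hh', j.hh']
      simp
    exact h1
  · have h1 : (Matrix.fromBlocks h' 0 0 g' * Matrix.fromBlocks h 0 0 g :
        Matrix (O1.ι ⊕ O2.ι) (O1.ι ⊕ O2.ι) K) = 1 := by
      rw [Matrix.fromBlocks_multiply, i.h'h, j.h'h]
      simp
    exact h1
  · have h1 : LI (bd (O1'.b y) (O2'.b y)) (bd (O1.b y) (O2.b y))
        ((Matrix.fromBlocks h 0 0 g : Matrix (O1'.ι ⊕ O2'.ι) (O1.ι ⊕ O2.ι) K).map (ψ y)) := by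
      rw [Matrix.fromBlocks_map, Matrix.map_zero _ (map_zero _), Matrix.map_zero _ (map_zero _)]
      exact LI_fromBlocks (i.loc y) LI_zero LI_zero (j.loc y)
    exact h1
  · have h1 : LI (bd (O1.b y) (O2.b y)) (bd (O1'.b y) (O2'.b y))
        ((Matrix.fromBlocks h' 0 0 g' : Matrix (O1.ι ⊕ O2.ι) (O1'.ι ⊕ O2'.ι) K).map (ψ y)) := by
      rw [Matrix.fromBlocks_map, Matrix.map_zero _ (map_zero _), Matrix.map_zero _ (map_zero _)]
      exact LI_fromBlocks (i.loc' y) LI_zero LI_zero (j.loc' y)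
    exact h1

variable (ψ) in
/-- the typing -/
noncomputable def stdTy {Lab : Type x} [DecidableEq Lab] (Os : Lab → Ob κ) :
    Typing ψ (Lab →₀ ℤ) where
  Ty O r := ∃ l : List Lab, r = lr l ∧ ∃ g g', IsoM ψ O (osum Os l) g g'
  sum := by
    rintro O O' r r' ⟨l, hr, g, g', i⟩ ⟨l', hr', h, h', j⟩
    obtain ⟨p, p', q⟩ := osum_append (ψ := ψ) Os l l'
    exact ⟨l ++ l', by rw [hr, hr', lr_append], _, _, IsoM_trans (IsoM_sum i j) (IsoM_symm q)⟩
  iso := by
    rintro O O' r ⟨l, hr, g, g', i⟩ ⟨l', hr', h, h', j⟩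
    obtain ⟨p, p', q⟩ := osum_perm (ψ := ψ) Os (lr_perm (hr.symm.trans hr'))
    exact ⟨_, _, IsoM_trans (IsoM_trans i q) (IsoM_symm j)⟩
  emp := ⟨[], by simp [lr], _, _, IsoM_refl (Ob.emp : Ob κ)⟩

theorem stdTy_iff {Lab : Type x} [DecidableEq Lab] (Os : Lab → Ob κ) (O : Ob κ) (r : Lab →₀ ℤ) :
    (stdTy ψ Os).Ty O r ↔ ∃ l : List Lab, r = lr l ∧ ∃ g g', IsoM ψ O (osum Os l) g g' :=
  Iff.rfl

end MSK
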