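import Pool.Agent.MSK.Lad

/-! MSK / Gth: the values of automorphisms of objects (global).

PROOFS. `SgT_del`: `del_sym` with `N = SgT ψ`. `IsTh_exists`: a lift `G` of `g` over `K` (`exists_Lft'`), `LA_exists` at every place. `IsTh_unique`: two lifts `G, G'` over `K`
differ by `c ∈ K2 K`: `LA_mul_K2` with `map (ψ y) c`, `LA_unique`, `SgT_del`. `IsTh_mul`, `IsTh_inv`, `IsTh_block`: the place by place lemmas (`Lft_map`, `map_E1`, `map_Up`, ...);
for `IsTh_block` the off diagonal block is `N = g (g' N)`, lift `E1 G * E2 G₂ * Up (g' N)`.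
`IsTh_iso`: `O.ι` and `O'.ι` have the same cardinality (`h` invertible); choose `e : O.ι ≃ O'.ι`; `h = h₂ * (permutation matrix of e)` with `h₂ : GL O'.ι K`; first reindex
(`LL_reindex`, `df_emb`, lift `emb (Sum.map e id) G`), then `LA_basis` (with `h₂⁻¹`; `H` a lift of `h₂` over `K` with auxiliary coordinate `0`), then `LL_change` (the lattice of `O'` is
`h (lattice of O)` up to `GL (k⟦X⟧)`). `IsTh_const`: lift `G_F` of `γ` over `F`, `G = map i G_F`; at `y`: `map (ψ y) G = map (iO) (map (C ∘ φ y) G_F)`; `LA_diag`. -/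

set_option autoImplicit false
set_option linter.unusedVariables false

namespace MSK

open Matrix

universe u v w x

variable {Pl : Type v} {κ : Pl → Type w} [∀ y, Field (κ y)] {K : Type u} [Field K]
  {ψ : ∀ y, K →+* LaurentSeries (κ y)}

section Aux

variable {α β : Type*} [Fintype α] [DecidableEq α] [Fintype β] [DecidableEq β]

private theorem LftM_map {R R' : Type*} [CommRing R] [CommRing R'] (f : R →+* R') {n : ℕ}
    {g : Matrix α α R} {s : St (α ⊕ ℕ) R} (h : LftM n g s) : LftM n (g.map f) (map f s) := by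
  obtain ⟨g', rfl, h⟩ := h
  exact ⟨Matrix.GeneralLinearGroup.map f g', coe_mapG f g', Lft_map f h⟩

omit [Fintype α] in
private theorem map_one' {R R' : Type*} [CommRing R] [CommRing R'] (f : R →+* R') :
    (1 : Matrix α α R).map f = 1 := Matrix.map_one _ (map_zero _) (map_one _)

private theorem map_map' {J : Type*} {R R' R'' : Type*} [CommRing R] [CommRing R'] [CommRing R'']
    (f : R' →+* R'') (g : R →+* R') (s : St J R) : map f (map g s) = map (f.comp g) s := by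
  have h : (map f).comp (map g) = (map (f.comp g) : St J R →* St J R'') := by
    refine hom_ext fun i j a => ?_
    simp only [MonoidHom.comp_apply, map_x, RingHom.comp_apply]
  exact DFunLike.congr_fun h s

private theorem map_emb' {J J' : Type*} {R R' : Type*} [CommRing R] [CommRing R']
    (f : R →+* R') (e : J → J') (he : Function.Injective e) (s : St J R) :
    map f (emb e he s) = emb e he (map f s) := by
  have h : (map f).comp (emb e he) = ((emb e he).comp (map f) : St J R →* St J' R') := by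
    refine hom_ext fun i j a => ?_
    simp only [MonoidHom.comp_apply, emb_x, map_x]
  exact DFunLike.congr_fun h s

private theorem coe_inv_eq {R : Type*} [CommRing R] {gg : GL α R} {g' : Matrix α α R}
    (h : (gg : Matrix α α R) * g' = 1) : ((gg⁻¹ : GL α R) : Matrix α α R) = g' := by
  rw [← Matrix.mul_one ((gg⁻¹ : GL α R) : Matrix α α R), ← h, GL_cancel_left]

variable {k : Type*} [Field k]

private theorem LA_reindex {b : GL α (LaurentSeries k)} {g : Matrix α α (LaurentSeries k)}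
    {G : St (α ⊕ ℕ) (LaurentSeries k)} {a : kˣ} (hG : LftM 1 g G) (h : LA b g G a) (e : α ≃ β)
    (he : Function.Injective (Sum.map e (id : ℕ → ℕ))) :
    LA (rx e b) (g.reindex e e) (emb (Sum.map e (id : ℕ → ℕ)) he G) a := by
  obtain ⟨ℓ, hℓ, rfl⟩ := h
  exact ⟨_, LL_reindex hℓ e he (rx e b) (coe_rx e b),
    (df_emb _ he (LftM_phi_eq (LL_Lft hℓ) hG)).symm⟩

private theorem LftM_rx {R : Type*} [CommRing R] {n : ℕ} {g : Matrix α α R} {s : St (α ⊕ ℕ) R}
    (h : LftM n g s) (e : α ≃ β) (he : Function.Injective (Sum.map e (id : ℕ → ℕ))) :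
    LftM n (g.reindex e e) (emb (Sum.map e (id : ℕ → ℕ)) he s) := by
  obtain ⟨g', rfl, h⟩ := h
  exact ⟨rx e g', coe_rx e g', Lft_rx h e he⟩

private theorem LA_change {b : GL α (LaurentSeries k)} {g : Matrix α α (LaurentSeries k)}
    {G : St (α ⊕ ℕ) (LaurentSeries k)} {a : kˣ} (h : LA b g G a) (u : GL α (PowerSeries k)) :
    LA (b * Matrix.GeneralLinearGroup.map (iO k) u) g G a := by
  obtain ⟨ℓ, hℓ, rfl⟩ := h
  exact ⟨ℓ, LL_change u hℓ, rfl⟩

private theorem LA_basis' {b h : GL α (LaurentSeries k)} {g : Matrix α α (LaurentSeries k)}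
    {G H : St (α ⊕ ℕ) (LaurentSeries k)} {a : kˣ} (hH : Lft 0 h H) (hG : LftM 1 g G)
    (hL : LA b g G a) :
    LA (h * b) ((h : Matrix α α (LaurentSeries k)) * g *
      ((h⁻¹ : GL α (LaurentSeries k)) : Matrix α α (LaurentSeries k))) (H * G * H⁻¹) a := by
  have h1 := LA_basis (Lft_inv hH) hG hL
  rw [inv_inv, inv_inv] at h1
  exact h1

private theorem lattice_eq {b : GL α (LaurentSeries k)} {b' : GL β (LaurentSeries k)}
    {h : Matrix β α (LaurentSeries k)} {h' : Matrix α β (LaurentSeries k)} (e : α ≃ β)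
    (h1 : h * h' = 1) (h2 : h' * h = 1) (l : LI b' b h) (l' : LI b b' h')
    (H : GL β (LaurentSeries k)) (hH : (H : Matrix β β (LaurentSeries k)) = h.submatrix id e.symm) :
    ∃ u : GL β (PowerSeries k), b' = H * rx e b * Matrix.GeneralLinearGroup.map (iO k) u := by
  obtain ⟨M, hM⟩ := l
  obtain ⟨M', hM'⟩ := l'
  have e1 : M' * M = 1 := by
    apply map_iO_inj
    rw [map_one', Matrix.map_mul]
    have h3 : ((b⁻¹ : GL α (LaurentSeries k)) : Matrix α α (LaurentSeries k)) * (h' * h) *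
        (b : Matrix α α (LaurentSeries k)) = M'.map (iO k) * M.map (iO k) := by
      rw [hM, hM']
      simp only [Matrix.mul_assoc]
      rw [GL_cancel_left, GL_inv_mul, Matrix.mul_one, GL_cancel_left]
    rw [← h3, h2, Matrix.mul_one, GL_inv_mul]
  have e2 : M * M' = 1 := by
    apply map_iO_inj
    rw [map_one', Matrix.map_mul]
    have h3 : ((b'⁻¹ : GL β (LaurentSeries k)) : Matrix β β (LaurentSeries k)) * (h * h') *
        (b' : Matrix β β (LaurentSeries k)) = M.map (iO k) * M'.map (iO k) := by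
      rw [hM, hM']
      simp only [Matrix.mul_assoc]
      rw [GL_cancel_left, GL_inv_mul, Matrix.mul_one, GL_cancel_left]
    rw [← h3, h1, Matrix.mul_one, GL_inv_mul]
  refine ⟨⟨M'.submatrix e.symm id, M.submatrix id e.symm, ?_, ?_⟩, ?_⟩
  · rw [← Matrix.submatrix_mul _ _ _ _ _ Function.bijective_id, e1, Matrix.submatrix_one_equiv]
  · rw [Matrix.submatrix_mul_equiv, e2, Matrix.submatrix_id_id]
  · apply Units.ext
    rw [Units.val_mul, Units.val_mul, hH, coe_rx, coe_mapG, Matrix.reindex_apply]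
    change (b' : Matrix β β (LaurentSeries k)) = h.submatrix id e.symm *
      (b : Matrix α α (LaurentSeries k)).submatrix e.symm e.symm *
        (M'.map (iO k)).submatrix e.symm id
    rw [Matrix.submatrix_mul_equiv, Matrix.submatrix_mul_equiv, Matrix.submatrix_id_id, hM]
    simp only [Matrix.mul_assoc]
    rw [GL_cancel_left, ← Matrix.map_mul, e2, map_one', Matrix.mul_one]

private theorem exists_equiv {h : Matrix β α K} {h' : Matrix α β K} (h1 : h * h' = 1)
    (h2 : h' * h = 1) : Nonempty (α ≃ β) := by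
  have e := Matrix.toLin'OfInv h2 h1
  have h3 := e.finrank_eq
  rw [Module.finrank_fintype_fun_eq_card, Module.finrank_fintype_fun_eq_card] at h3
  exact ⟨Fintype.equivOfCardEq h3⟩

private theorem block_inv {R : Type*} [CommRing R] {g g1 : Matrix α α R} {g₂ g2 : Matrix β β R}
    (N : Matrix α β R) (h1 : g * g1 = 1) (h1' : g1 * g = 1) (h2 : g₂ * g2 = 1)
    (h2' : g2 * g₂ = 1) :
    Matrix.fromBlocks g N 0 g₂ * Matrix.fromBlocks g1 (-(g1 * N * g2)) 0 g2 = 1 ∧
      Matrix.fromBlocks g1 (-(g1 * N * g2)) 0 g2 * Matrix.fromBlocks g N 0 g₂ = 1 := by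
  have e1 : g * -(g1 * N * g2) + N * g2 = 0 := by
    rw [Matrix.mul_neg, ← Matrix.mul_assoc, ← Matrix.mul_assoc, h1, Matrix.one_mul,
      neg_add_cancel]
  have e2 : g1 * N + -(g1 * N * g2) * g₂ = 0 := by
    rw [Matrix.neg_mul, Matrix.mul_assoc (g1 * N), h2', Matrix.mul_one, add_neg_cancel]
  constructor
  · rw [Matrix.fromBlocks_multiply, e1, h1, h2, Matrix.mul_zero, Matrix.mul_zero,
      Matrix.zero_mul, Matrix.zero_mul, add_zero, add_zero, zero_add, Matrix.fromBlocks_one]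
  · rw [Matrix.fromBlocks_multiply, e2, h1', h2', Matrix.mul_zero, Matrix.mul_zero,
      Matrix.zero_mul, Matrix.zero_mul, add_zero, add_zero, zero_add, Matrix.fromBlocks_one]

private theorem LftM_block {R : Type*} [CommRing R] {n : ℕ} {g : Matrix α α R}
    {g₂ : Matrix β β R} {G : St (α ⊕ ℕ) R} {G₂ : St (β ⊕ ℕ) R} (hG : LftM n g G)
    (hG₂ : LftM n g₂ G₂) (M : Matrix α β R) :
    LftM n (Matrix.fromBlocks g (g * M) 0 g₂) (E1 β G * E2 α G₂ * Up M) := by
  obtain ⟨gg, rfl, hLg⟩ := hG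
  obtain ⟨gg₂, rfl, hLg₂⟩ := hG₂
  have hu1 : Matrix.fromBlocks (1 : Matrix α α R) M 0 (1 : Matrix β β R) *
      Matrix.fromBlocks 1 (-M) 0 1 = 1 := by
    rw [Matrix.fromBlocks_multiply]
    simp
  have hu2 : Matrix.fromBlocks (1 : Matrix α α R) (-M) 0 (1 : Matrix β β R) *
      Matrix.fromBlocks 1 M 0 1 = 1 := by
    rw [Matrix.fromBlocks_multiply]
    simp
  refine ⟨bd gg gg₂ * ⟨_, _, hu1, hu2⟩, ?_, Lft_mul (Lft_E12 hLg hLg₂) (Lft_Up n _ _ rfl)⟩
  rw [Units.val_mul, coe_bd]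
  change _ * Matrix.fromBlocks 1 M 0 1 = _
  rw [Matrix.fromBlocks_multiply]
  simp

private theorem LI_block {b : GL α (LaurentSeries k)} {b' : GL β (LaurentSeries k)}
    (f : K →+* LaurentSeries k) {A : Matrix α α K} {B : Matrix α β K} {C : Matrix β β K}
    (hA : LI b b (A.map f)) (hB : LI b b' (B.map f)) (hC : LI b' b' (C.map f)) :
    LI (bd b b') (bd b b') ((Matrix.fromBlocks A B 0 C).map f) := by
  rw [Matrix.fromBlocks_map]
  refine LI_fromBlocks hA hB ?_ hC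
  rw [Matrix.map_zero _ (map_zero _)]
  exact LI_zero

private theorem LA_block' {b : GL α (LaurentSeries k)} {b' : GL β (LaurentSeries k)}
    (f : K →+* LaurentSeries k) {g : Matrix α α K} {g₂ : Matrix β β K} {G : St (α ⊕ ℕ) K}
    {G₂ : St (β ⊕ ℕ) K} {a a₂ : kˣ} (hG : LftM 1 g G) (hG₂ : LftM 1 g₂ G₂)
    (h : LA b (g.map f) (map f G) a) (h₂ : LA b' (g₂.map f) (map f G₂) a₂) (M : Matrix α β K)
    (hM : LI b b' (M.map f)) :
    LA (bd b b') ((Matrix.fromBlocks g (g * M) 0 g₂).map f)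
      (map f (E1 β G * E2 α G₂ * Up M)) (a * a₂) := by
  have h1 := LA_block (LftM_map f hG) (LftM_map f hG₂) h h₂ (M.map f) hM
  have h2 : map f (E1 β G * E2 α G₂ * Up M) =
      E1 β (map f G) * E2 α (map f G₂) * Up (M.map f) := by
    rw [map_mul, map_mul, map_E1, map_E2, map_Up]
  rw [h2, Matrix.fromBlocks_map, Matrix.map_zero _ (map_zero _), Matrix.map_mul]
  exact h1

private theorem dg_comm {R : Type*} [CommRing R] (c d : α → Rˣ) : dg c * dg d = dg d * dg c := by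
  apply Units.ext
  rw [Units.val_mul, Units.val_mul]
  change Matrix.diagonal _ * Matrix.diagonal _ = Matrix.diagonal _ * Matrix.diagonal _
  rw [Matrix.diagonal_mul_diagonal, Matrix.diagonal_mul_diagonal]
  congr 1
  funext i
  exact mul_comm _ _

private theorem map_dg {R R' : Type*} [CommRing R] [CommRing R'] (f : R →+* R') (c : α → Rˣ) :
    Matrix.GeneralLinearGroup.map f (dg c) = dg (fun i => Units.map f.toMonoidHom (c i)) := by
  apply Units.ext
  rw [coe_mapG]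
  change (Matrix.diagonal _).map f = Matrix.diagonal _
  rw [Matrix.diagonal_map (map_zero f)]
  rfl

private theorem LI_GL (b : GL α (LaurentSeries k)) (X : GL α (PowerSeries k)) :
    LI b b ((b * Matrix.GeneralLinearGroup.map (iO k) X * b⁻¹ : GL α (LaurentSeries k)) :
      Matrix α α (LaurentSeries k)) := ⟨X, rfl⟩

end Aux

theorem SgT_del [Infinite K] {J : Type*} [DecidableEq J] [Infinite J] {s : St J K}
    (hs : s ∈ K2 J K) : (fun y => del (map (ψ y) s)) ∈ SgT ψ := by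
  refine del_sym κ ψ (SgT ψ) ?_ ?_ hs
  · intro z hz
    exact Subgroup.subset_closure (Or.inl hz)
  · intro f g n m u v hu hv
    exact Subgroup.subset_closure (Or.inr ⟨f, g, n, m, u, v, hu, hv, rfl⟩)

theorem IsoM_refl (O : Ob κ) : IsoM ψ O O 1 1 := by
  refine ⟨Matrix.mul_one _, Matrix.mul_one _, fun y => ?_, fun y => ?_⟩
  · rw [map_one']
    exact LI_one
  · rw [map_one']
    exact LI_one

theorem IsoM_symm {O O' : Ob κ} {h : Matrix O'.ι O.ι K} {h' : Matrix O.ι O'.ι K}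
    (i : IsoM ψ O O' h h') : IsoM ψ O' O h' h :=
  ⟨i.h'h, i.hh', i.loc', i.loc⟩

theorem IsoM_trans {O O' O'' : Ob κ} {h : Matrix O'.ι O.ι K} {h' : Matrix O.ι O'.ι K}
    {g : Matrix O''.ι O'.ι K} {g' : Matrix O'.ι O''.ι K} (i : IsoM ψ O O' h h')
    (j : IsoM ψ O' O'' g g') : IsoM ψ O O'' (g * h) (h' * g') := by
  refine ⟨?_, ?_, fun y => ?_, fun y => ?_⟩
  · rw [Matrix.mul_assoc, ← Matrix.mul_assoc h, i.hh', Matrix.one_mul, j.hh']
  · rw [Matrix.mul_assoc, ← Matrix.mul_assoc g', j.h'h, Matrix.one_mul, i.h'h]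
  · rw [Matrix.map_mul]
    exact LI_mul (j.loc y) (i.loc y)
  · rw [Matrix.map_mul]
    exact LI_mul (i.loc' y) (j.loc' y)

theorem IsTh_exists {O : Ob κ} {g g' : Matrix O.ι O.ι K} (i : IsoM ψ O O g g') :
    ∃ a, IsTh ψ O g a := by
  obtain ⟨G, hG⟩ := exists_Lft' 1 (⟨g, g', i.hh', i.h'h⟩ : GL O.ι K)
  have h1 : ∀ y, ∃ a, LA (O.b y) (g.map (ψ y)) (map (ψ y) G) a := fun y =>
    LA_exists (i.loc y) (i.loc' y) (by rw [← Matrix.map_mul, i.hh', map_one'])
  choose a ha using h1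
  exact ⟨a, g', G, i, ⟨_, rfl, hG⟩, ha⟩

theorem IsTh_unique [Infinite K] {O : Ob κ} {g : Matrix O.ι O.ι K} {a a' : ∀ y, (κ y)ˣ}
    (h : IsTh ψ O g a) (h' : IsTh ψ O g a') : a * a'⁻¹ ∈ SgT ψ := by
  obtain ⟨g1, G, i, hG, hL⟩ := h
  obtain ⟨g2, G', i', hG', hL'⟩ := h'
  have hc : G'⁻¹ * G ∈ K2 (O.ι ⊕ ℕ) K := by
    rw [mem_K2, map_mul, map_inv, LftM_phi_eq hG hG', inv_mul_cancel]
  have h1 : a * a'⁻¹ = (fun y => del (map (ψ y) (G'⁻¹ * G)))⁻¹ := by
    funext y
    have h2 := LA_mul_K2 (LftM_map (ψ y) hG') (hL' y) (map_mem_K2 (ψ y) hc)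
    rw [← map_mul, mul_inv_cancel_left] at h2
    have h3 := LA_unique (LftM_map (ψ y) hG) (hL y) h2
    rw [Pi.mul_apply, Pi.inv_apply, Pi.inv_apply, h3, mul_comm (a' y), mul_inv_cancel_right]
  rw [h1]
  exact Subgroup.inv_mem _ (SgT_del hc)

theorem IsTh_one (O : Ob κ) : IsTh ψ O 1 1 := by
  refine ⟨1, 1, IsoM_refl O, ⟨1, rfl, Lft_one 1⟩, fun y => ?_⟩
  rw [map_one', map_one]
  exact LA_one

theorem IsTh_mul {O : Ob κ} {g g' : Matrix O.ι O.ι K} {a a' : ∀ y, (κ y)ˣ}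
    (h : IsTh ψ O g a) (h' : IsTh ψ O g' a') : IsTh ψ O (g * g') (a * a') := by
  obtain ⟨g1, G, i, hG, hL⟩ := h
  obtain ⟨g2, G', i', hG', hL'⟩ := h'
  refine ⟨g2 * g1, G * G', IsoM_trans i' i, LftM_mul hG hG', fun y => ?_⟩
  rw [Matrix.map_mul, map_mul]
  exact LA_mul (LftM_map (ψ y) hG) (LftM_map (ψ y) hG') (hL y) (hL' y)

theorem IsTh_inv {O : Ob κ} {g g' : Matrix O.ι O.ι K} {a : ∀ y, (κ y)ˣ} (h : IsTh ψ O g a)
    (i : IsoM ψ O O g g') : IsTh ψ O g' a⁻¹ := by
  obtain ⟨g1, G, i1, hG, hL⟩ := h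
  refine ⟨g, G⁻¹, IsoM_symm i, ?_, fun y => ?_⟩
  · obtain ⟨gg, hgg, hLft⟩ := hG
    refine ⟨gg⁻¹, coe_inv_eq ?_, Lft_inv hLft⟩
    rw [hgg, i.hh']
  · rw [map_inv]
    exact LA_inv (LftM_map (ψ y) hG) (hL y) (by rw [← Matrix.map_mul, i.hh', map_one'])

/-- invariance under isomorphisms of objects -/
theorem IsTh_iso {O O' : Ob κ} {h : Matrix O'.ι O.ι K} {h' : Matrix O.ι O'.ι K}
    (i : IsoM ψ O O' h h') {g : Matrix O.ι O.ι K} {a : ∀ y, (κ y)ˣ} (ha : IsTh ψ O g a) :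
    IsTh ψ O' (h * g * h') a := by
  obtain ⟨g1, G, i1, hG, hL⟩ := ha
  obtain ⟨e⟩ := exists_equiv i.hh' i.h'h
  have he : Function.Injective (Sum.map e (id : ℕ → ℕ)) :=
    Function.Injective.sumMap e.injective Function.injective_id
  have v1 : h.submatrix id e.symm * h'.submatrix e.symm id = 1 := by
    rw [Matrix.submatrix_mul_equiv, i.hh', Matrix.submatrix_id_id]
  have v2 : h'.submatrix e.symm id * h.submatrix id e.symm = 1 := by
    rw [← Matrix.submatrix_mul _ _ _ _ _ Function.bijective_id, i.h'h,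
      Matrix.submatrix_one_equiv]
  let h₂ : GL O'.ι K := ⟨h.submatrix id e.symm, h'.submatrix e.symm id, v1, v2⟩
  obtain ⟨H, hH⟩ := exists_Lft' 0 h₂
  have hg : h * g * h' = (h₂ : Matrix O'.ι O'.ι K) * g.reindex e e *
      ((h₂⁻¹ : GL O'.ι K) : Matrix O'.ι O'.ι K) := by
    change _ = h.submatrix id e.symm * g.submatrix e.symm e.symm * h'.submatrix e.symm id
    rw [Matrix.submatrix_mul_equiv, Matrix.submatrix_mul_equiv, Matrix.submatrix_id_id]
  have hi := IsoM_trans (IsoM_trans (IsoM_symm i) i1) i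
  rw [← Matrix.mul_assoc] at hi
  refine ⟨_, H * emb (Sum.map e (id : ℕ → ℕ)) he G * H⁻¹, hi, ?_, fun y => ?_⟩
  · obtain ⟨gr, hgr, hLr⟩ := LftM_rx hG e he
    refine ⟨h₂ * gr * h₂⁻¹, ?_, Lft_conj hLr hH⟩
    rw [Units.val_mul, Units.val_mul, hgr, hg]
  · have hGy := LftM_map (ψ y) hG
    have l1 := LA_reindex hGy (hL y) e he
    have l2 := LA_basis' (Lft_map (ψ y) hH) (LftM_rx hGy e he) l1
    obtain ⟨u, hu⟩ := lattice_eq (h := h.map (ψ y)) (h' := h'.map (ψ y)) e
      (by rw [← Matrix.map_mul, i.hh', map_one']) (by rw [← Matrix.map_mul, i.h'h, map_one'])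
      (i.loc y) (i.loc' y) (Matrix.GeneralLinearGroup.map (ψ y) h₂) rfl
    have l3 := LA_change l2 u
    rw [← hu] at l3
    have hm : (h * g * h').map (ψ y) =
        ((Matrix.GeneralLinearGroup.map (ψ y) h₂ : GL O'.ι (LaurentSeries (κ y))) :
          Matrix O'.ι O'.ι (LaurentSeries (κ y))) * (g.map (ψ y)).reindex e e *
        (((Matrix.GeneralLinearGroup.map (ψ y) h₂)⁻¹ : GL O'.ι (LaurentSeries (κ y))) :
          Matrix O'.ι O'.ι (LaurentSeries (κ y))) := by
      rw [hg, Matrix.map_mul, Matrix.map_mul]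
      rfl
    rw [hm, map_mul, map_mul, map_inv, map_emb']
    exact l3

/-- block triangular automorphisms -/
theorem IsTh_block {O O' : Ob κ} {g : Matrix O.ι O.ι K} {g₂ : Matrix O'.ι O'.ι K}
    {a a₂ : ∀ y, (κ y)ˣ} (h : IsTh ψ O g a) (h₂ : IsTh ψ O' g₂ a₂) (N : Matrix O.ι O'.ι K)
    (hN : ∀ y, LI (O.b y) (O'.b y) (N.map (ψ y))) :
    IsTh ψ (O.sum O') (Matrix.fromBlocks g N 0 g₂) (a * a₂) := by
  obtain ⟨g1, G, i, hG, hL⟩ := h
  obtain ⟨g2, G₂, i₂, hG₂, hL₂⟩ := h₂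
  have hgM : g * (g1 * N) = N := by
    rw [← Matrix.mul_assoc, i.hh', Matrix.one_mul]
  have hMl : ∀ y, LI (O.b y) (O'.b y) ((g1 * N).map (ψ y)) := fun y => by
    rw [Matrix.map_mul]
    exact LI_mul (i.loc' y) (hN y)
  have hinv := block_inv N i.hh' i.h'h i₂.hh' i₂.h'h
  have hneg : ∀ y, LI (O.b y) (O'.b y) ((-(g1 * N * g2)).map (ψ y)) := fun y => by
    have h1 : (-(g1 * N * g2)).map (ψ y) = -((g1 * N).map (ψ y) * g2.map (ψ y)) := by
      rw [← Matrix.map_mul]
      refine Matrix.ext fun a b => ?_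
      rw [Matrix.map_apply, Matrix.neg_apply, Matrix.neg_apply, map_neg, Matrix.map_apply]
    rw [h1]
    exact LI_neg (LI_mul (hMl y) (i₂.loc' y))
  have hL3 := fun y => LA_block' (ψ y) hG hG₂ (hL y) (hL₂ y) (g1 * N) (hMl y)
  have hG3 := LftM_block hG hG₂ (g1 * N)
  rw [hgM] at hL3 hG3
  exact ⟨Matrix.fromBlocks g1 (-(g1 * N * g2)) 0 g2, E1 O'.ι G * E2 O.ι G₂ * Up (g1 * N),
    ⟨hinv.1, hinv.2, fun y => LI_block (ψ y) (i.loc y) (hN y) (i₂.loc y),
      fun y => LI_block (ψ y) (i.loc' y) (hneg y) (i₂.loc' y)⟩, hG3, hL3⟩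

/-- constant automorphisms, diagonal in a basis adapted to the lattices -/
theorem IsTh_const {F : Type*} [Field F] (i : F →+* K) (φ : ∀ y, F →+* κ y)
    (hφ : ∀ y, (ψ y).comp i = (iO (κ y)).comp ((PowerSeries.C (R := κ y)).comp (φ y)))
    (O : Ob κ) (γ : GL O.ι F) (h u : ∀ y, GL O.ι (PowerSeries (κ y)))
    (c : ∀ y, O.ι → (κ y)ˣ) (m : Pl → O.ι → ℤ)
    (hγ : ∀ y, Matrix.GeneralLinearGroup.map ((PowerSeries.C (R := κ y)).comp (φ y)) γ =
      h y * dg (fun j => uC (c y j)) * (h y)⁻¹)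
    (hb : ∀ y, O.b y = Matrix.GeneralLinearGroup.map (iO (κ y)) (h y) *
      dg (fun j => tt (κ y) ^ m y j) * Matrix.GeneralLinearGroup.map (iO (κ y)) (u y)) :
    IsTh ψ O ((γ : Matrix O.ι O.ι F).map i) (fun y => ∏ j, (c y j ^ m y j)⁻¹) := by
  obtain ⟨GF, hGF⟩ := exists_Lft' 1 γ
  have key : ∀ y, Matrix.GeneralLinearGroup.map (iO (κ y)) (Matrix.GeneralLinearGroup.map
      ((PowerSeries.C (R := κ y)).comp (φ y)) γ) = O.b y * Matrix.GeneralLinearGroup.map (iO (κ y))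
        ((u y)⁻¹ * dg (fun j => uC (c y j)) * u y) * (O.b y)⁻¹ := by
    intro y
    rw [hγ y, hb y]
    simp only [map_mul, map_inv, _root_.mul_inv_rev, map_dg]
    have h1 := dg_comm (fun j => tt (κ y) ^ m y j)
      (fun j => Units.map (iO (κ y)).toMonoidHom (uC (c y j)))
    generalize dg (fun j => tt (κ y) ^ m y j) = T at h1 ⊢
    generalize dg (fun j => Units.map (iO (κ y)).toMonoidHom (uC (c y j))) = C at h1 ⊢
    generalize Matrix.GeneralLinearGroup.map (iO (κ y)) (u y) = U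
    generalize Matrix.GeneralLinearGroup.map (iO (κ y)) (h y) = H
    calc H * C * H⁻¹ = H * (C * T) * T⁻¹ * H⁻¹ := by group
      _ = H * (T * C) * T⁻¹ * H⁻¹ := by rw [h1]
      _ = H * T * U * (U⁻¹ * C * U) * (U⁻¹ * (T⁻¹ * H⁻¹)) := by group
  have hmm : ∀ (y : Pl) (M : Matrix O.ι O.ι F), (M.map i).map (ψ y) =
      (M.map ((PowerSeries.C (R := κ y)).comp (φ y))).map (iO (κ y)) := by
    intro y M
    refine Matrix.ext fun a b => ?_
    exact DFunLike.congr_fun (hφ y) (M a b)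
  refine ⟨((γ⁻¹ : GL O.ι F) : Matrix O.ι O.ι F).map i, map i GF, ⟨?_, ?_, fun y => ?_, fun y => ?_⟩,
    LftM_map i ⟨γ, rfl, hGF⟩, fun y => ?_⟩
  · rw [← Matrix.map_mul, GL_mul_inv, map_one']
  · rw [← Matrix.map_mul, GL_inv_mul, map_one']
  · have h1 := LI_GL (O.b y) ((u y)⁻¹ * dg (fun j => uC (c y j)) * u y)
    rw [← key y] at h1
    rw [hmm]
    exact h1
  · have h1 := LI_GL (O.b y) ((u y)⁻¹ * dg (fun j => uC (c y j)) * u y)⁻¹
    have h2 : O.b y * Matrix.GeneralLinearGroup.map (iO (κ y))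
        ((u y)⁻¹ * dg (fun j => uC (c y j)) * u y)⁻¹ * (O.b y)⁻¹ =
        (Matrix.GeneralLinearGroup.map (iO (κ y)) (Matrix.GeneralLinearGroup.map
          ((PowerSeries.C (R := κ y)).comp (φ y)) γ))⁻¹ := by
      rw [key y, map_inv]
      generalize Matrix.GeneralLinearGroup.map (iO (κ y))
        ((u y)⁻¹ * dg (fun j => uC (c y j)) * u y) = X
      group
    rw [h2] at h1
    rw [hmm]
    exact h1
  · have h1 : Lft 1 (h y * dg (fun j => uC (c y j)) * (h y)⁻¹)
        (map ((PowerSeries.C (R := κ y)).comp (φ y)) GF) := by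
      rw [← hγ y]
      exact Lft_map _ hGF
    have h2 := LA_diag (h y) (u y) (c y) (m y) h1 (hb y)
      (g := ((γ : Matrix O.ι O.ι F).map i).map (ψ y)) (by rw [← hγ y, hmm]; rfl)
    rw [map_map', ← hφ y, ← map_map'] at h2
    exact h2

end MSK
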