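import Pool.Agent.MSK.Tr

/-! MSK / Lam: products of commuting transvections.

`LamF A B = ∏_m T (A m) (B m)` for finite families of columns `A m` and rows `B m`; `Ort A B`: all pairings `dot (B m') (A m)` vanish,
so that the factors commute (`T_comm`) and the order of the product does not matter.
PROOFS. By induction on lists (`List.prod`), for a general list `l` in place of `Finset.univ.toList`; e.g. `phi` of the product over `l`
is `u ↦ u + ∑_{m ∈ l} dot (B m) u • A m`. `LamF_perm`: `List.Perm` of commuting factors (`Finset.noncommProd` or `List.Perm.prod_eq'`).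
`LamF_add_left`, `LamF_add_right`: `T_add_left`, `T_add_right` and commutation. `LamF_mul` (balanced): both sides are, by additivity and
`T_smul`, the product over all pairs `(m, m')` of `T (M m m' • A m) (B m')` (all factors commute). `conj_LamF`: `conj_T`. `LamF_comm`: `T_comm`.
`LamF_sum`: the list of `κ ⊕ κ'` is a permutation of the concatenation. -/

set_option autoImplicit false
set_option linter.unusedVariables false

namespace MSK

variable {J : Type*} {R : Type*} [CommRing R] [DecidableEq J] [Infinite J]
  {κ κ' : Type*} [Fintype κ] [Fintype κ']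

/-- product of transvections -/
noncomputable def LamF (A B : κ → J →₀ R) : St J R :=
  ((Finset.univ : Finset κ).toList.map fun m => T (A m) (B m)).prod

/-- all pairings vanish -/
def Ort (A : κ → J →₀ R) (B : κ' → J →₀ R) : Prop := ∀ m m', dot (B m') (A m) = 0

section Lists

variable {ι ι' : Type*}

theorem list_prod_mul {G : Type*} [Group G] (f g : ι → G) (hc : ∀ m m', Commute (g m) (f m'))
    (l : List ι) : (l.map fun m => f m * g m).prod = (l.map f).prod * (l.map g).prod := by
  induction l with
  | nil => simp
  | cons a l ih =>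
    have h1 : Commute (g a) (l.map f).prod := by
      refine Commute.list_prod_right _ _ fun b hb => ?_
      obtain ⟨m, _, rfl⟩ := List.mem_map.1 hb
      exact hc a m
    rw [List.map_cons, List.map_cons, List.map_cons, List.prod_cons, List.prod_cons,
      List.prod_cons, ih, mul_assoc, mul_assoc, ← mul_assoc (g a), h1.eq]
    simp only [mul_assoc]

theorem list_prod_swap {G : Type*} [Group G] (F : ι → ι' → G)
    (hc : ∀ m m' n n', Commute (F m m') (F n n')) (l : List ι) (l' : List ι') :
    (l'.map fun m' => (l.map fun m => F m m').prod).prod =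
      (l.map fun m => (l'.map fun m' => F m m').prod).prod := by
  induction l' with
  | nil => simp
  | cons a l' ih =>
    rw [List.map_cons, List.prod_cons, ih]
    simp only [List.map_cons, List.prod_cons]
    rw [list_prod_mul]
    intro m m'
    refine Commute.list_prod_left _ _ fun b hb => ?_
    obtain ⟨n, _, rfl⟩ := List.mem_map.1 hb
    exact hc _ _ _ _

theorem dot_list_sum (w : J →₀ R) (a : ι → J →₀ R) (h : ∀ m, dot w (a m) = 0) (l : List ι) :
    dot w (l.map a).sum = 0 := by
  induction l with
  | nil => rw [List.map_nil, List.sum_nil, dot_zero_right]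
  | cons x l ih => rw [List.map_cons, List.sum_cons, dot_add_right, h, ih, add_zero]

theorem dot_list_sum_left (v : J →₀ R) (a : ι → J →₀ R) (h : ∀ m, dot (a m) v = 0)
    (l : List ι) : dot (l.map a).sum v = 0 := by
  rw [dot_comm]
  exact dot_list_sum v a (fun m => by rw [dot_comm, h]) l

theorem T_list_left (w : J →₀ R) (a : ι → J →₀ R) (h : ∀ m, dot w (a m) = 0) (l : List ι) :
    T (l.map a).sum w = (l.map fun m => T (a m) w).prod := by
  induction l with
  | nil => rw [List.map_nil, List.sum_nil, List.map_nil, List.prod_nil, T_zero_left]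
  | cons x l ih =>
    rw [List.map_cons, List.sum_cons, List.map_cons, List.prod_cons,
      T_add_left _ _ _ (h x) (dot_list_sum w a h l), ih]

theorem T_list_right (v : J →₀ R) (a : ι → J →₀ R) (h : ∀ m, dot (a m) v = 0) (l : List ι) :
    T v (l.map a).sum = (l.map fun m => T v (a m)).prod := by
  induction l with
  | nil => rw [List.map_nil, List.sum_nil, List.map_nil, List.prod_nil, T_zero_right]
  | cons x l ih =>
    rw [List.map_cons, List.sum_cons, List.map_cons, List.prod_cons,
      T_add_right _ _ _ (h x) (dot_list_sum_left v a h l), ih]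

theorem phi_list (A B : ι → J →₀ R) (h : ∀ m m', dot (B m') (A m) = 0) (u : J →₀ R)
    (l : List ι) : phi (l.map fun m => T (A m) (B m)).prod u =
      u + (l.map fun m => dot (B m) u • A m).sum := by
  induction l with
  | nil =>
    rw [List.map_nil, List.prod_nil, map_one, List.map_nil, List.sum_nil, add_zero]
    rfl
  | cons x l ih =>
    rw [List.map_cons, List.prod_cons, map_mul, LinearEquiv.mul_apply, ih, phi_T _ _ _ (h x x),
      dot_add_right, dot_list_sum (B x) _ (fun m => by rw [dot_smul_right, h, mul_zero]) l,
      add_zero, List.map_cons, List.sum_cons]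
    abel

theorem psi_list (A B : ι → J →₀ R) (h : ∀ m m', dot (B m') (A m) = 0) (u : J →₀ R)
    (l : List ι) : psi (l.map fun m => T (A m) (B m)).prod u =
      u - (l.map fun m => dot (A m) u • B m).sum := by
  induction l with
  | nil =>
    rw [List.map_nil, List.prod_nil, map_one, List.map_nil, List.sum_nil, sub_zero]
    rfl
  | cons x l ih =>
    rw [List.map_cons, List.prod_cons, map_mul, LinearEquiv.mul_apply, ih, psi_T _ _ _ (h x x),
      sub_eq_add_neg u, dot_add_right, ← neg_one_smul R (List.sum _), dot_smul_right,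
      dot_list_sum (A x) _ (fun m => by rw [dot_smul_right, dot_comm (A x) (B m), h, mul_zero]) l,
      mul_zero, add_zero, List.map_cons, List.sum_cons, neg_one_smul]
    abel

end Lists

theorem Ort_comm (A B : κ → J →₀ R) (h : Ort A B) (m m' : κ) :
    Commute (T (A m) (B m)) (T (A m') (B m')) :=
  T_comm _ _ _ _ (h m m) (h m' m') (h m' m) (h m m')

theorem LamF_perm (A B : κ → J →₀ R) (h : Ort A B) (l : List κ) (hl : l.Nodup)
    (hl' : ∀ m, m ∈ l) : LamF A B = (l.map fun m => T (A m) (B m)).prod := by
  have h1 : ((Finset.univ : Finset κ).toList).Perm l :=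
    (List.perm_ext_iff_of_nodup (Finset.nodup_toList _) hl).2 fun a =>
      ⟨fun _ => hl' a, fun _ => Finset.mem_toList.2 (Finset.mem_univ a)⟩
  unfold LamF
  refine (h1.map _).prod_eq' ?_
  rw [List.pairwise_map]
  exact List.pairwise_of_forall fun m m' => Ort_comm A B h m m'

theorem phi_LamF (A B : κ → J →₀ R) (h : Ort A B) (u : J →₀ R) :
    phi (LamF A B) u = u + ∑ m, dot (B m) u • A m := by
  unfold LamF
  rw [phi_list A B h, Finset.sum_map_toList]

theorem psi_LamF (A B : κ → J →₀ R) (h : Ort A B) (u : J →₀ R) :
    psi (LamF A B) u = u - ∑ m, dot (A m) u • B m := by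
  unfold LamF
  rw [psi_list A B h, Finset.sum_map_toList]

theorem conj_LamF (s : St J R) (A B : κ → J →₀ R) (h : Ort A B) :
    s * LamF A B * s⁻¹ = LamF (fun m => phi s (A m)) (fun m => psi s (B m)) := by
  unfold LamF
  rw [← MulAut.conj_apply, map_list_prod, List.map_map]
  congr 1
  refine List.map_congr_left fun m _ => ?_
  rw [Function.comp_apply, MulAut.conj_apply, conj_T s _ _ (h m m)]

theorem LamF_zero_left (B : κ → J →₀ R) : LamF (fun _ => 0) B = 1 := by
  unfold LamF
  simp only [T_zero_left]
  simp

theorem LamF_zero_right (A : κ → J →₀ R) : LamF A (fun _ => 0) = 1 := by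
  unfold LamF
  simp only [T_zero_right]
  simp

theorem LamF_add_left (A A' B : κ → J →₀ R) (h : Ort A B) (h' : Ort A' B) :
    LamF (fun m => A m + A' m) B = LamF A B * LamF A' B := by
  unfold LamF
  rw [← list_prod_mul]
  · congr 1
    exact List.map_congr_left fun m _ => T_add_left _ _ _ (h m m) (h' m m)
  · intro m m'
    exact T_comm _ _ _ _ (h' m m) (h m' m') (h m' m) (h' m m')

theorem LamF_add_right (A B B' : κ → J →₀ R) (h : Ort A B) (h' : Ort A B') :
    LamF A (fun m => B m + B' m) = LamF A B * LamF A B' := by
  unfold LamF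
  rw [← list_prod_mul]
  · congr 1
    exact List.map_congr_left fun m _ => T_add_right _ _ _ (h m m) (h' m m)
  · intro m m'
    exact T_comm _ _ _ _ (h' m m) (h m' m') (h' m' m) (h m m')

theorem LamF_neg_left (A B : κ → J →₀ R) (h : Ort A B) :
    LamF (fun m => -A m) B = (LamF A B)⁻¹ := by
  have h' : Ort (fun m => -A m) B := fun m m' => by
    show dot (B m') (-A m) = 0
    rw [← neg_one_smul R (A m), dot_smul_right, h m m', mul_zero]
  have h1 := LamF_add_left A (fun m => -A m) B h h'
  simp only [add_neg_cancel] at h1
  rw [LamF_zero_left] at h1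
  exact (inv_eq_of_mul_eq_one_right h1.symm).symm

theorem LamF_neg_right (A B : κ → J →₀ R) (h : Ort A B) :
    LamF A (fun m => -B m) = (LamF A B)⁻¹ := by
  have h' : Ort A (fun m => -B m) := fun m m' => by
    show dot (-B m') (A m) = 0
    rw [← neg_one_smul R (B m'), dot_smul_left, h m m', mul_zero]
  have h1 := LamF_add_right A B (fun m => -B m) h h'
  simp only [add_neg_cancel] at h1
  rw [LamF_zero_right] at h1
  exact (inv_eq_of_mul_eq_one_right h1.symm).symm

theorem LamF_comm (A B : κ → J →₀ R) (A' B' : κ' → J →₀ R) (h : Ort A B) (h' : Ort A' B')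
    (h1 : Ort A B') (h2 : Ort A' B) : Commute (LamF A B) (LamF A' B') := by
  unfold LamF
  refine Commute.list_prod_left _ _ fun a ha => Commute.list_prod_right _ _ fun b hb => ?_
  obtain ⟨m, _, rfl⟩ := List.mem_map.1 ha
  obtain ⟨m', _, rfl⟩ := List.mem_map.1 hb
  exact T_comm _ _ _ _ (h m m) (h' m' m') (h2 m' m) (h1 m m')

theorem LamF_sum (A B : κ → J →₀ R) (A' B' : κ' → J →₀ R) (h : Ort A B) (h' : Ort A' B')
    (h1 : Ort A B') (h2 : Ort A' B) :
    LamF (Sum.elim A A') (Sum.elim B B') = LamF A B * LamF A' B' := by
  have h3 : Ort (Sum.elim A A') (Sum.elim B B') := by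
    rintro (m | m) (m' | m')
    · exact h m m'
    · exact h1 m m'
    · exact h2 m m'
    · exact h' m m'
  rw [LamF_perm _ _ h3 ((Finset.univ : Finset κ).toList.map Sum.inl ++
    (Finset.univ : Finset κ').toList.map Sum.inr)]
  · rw [List.map_append, List.prod_append, List.map_map, List.map_map]
    rfl
  · rw [List.nodup_append]
    refine ⟨(Finset.nodup_toList _).map Sum.inl_injective,
      (Finset.nodup_toList _).map Sum.inr_injective, ?_⟩
    rintro a ha b hb rfl
    obtain ⟨m, _, rfl⟩ := List.mem_map.1 ha
    obtain ⟨m', _, hm'⟩ := List.mem_map.1 hb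
    cases hm'
  · rintro (m | m)
    · exact List.mem_append_left _ (List.mem_map_of_mem (Finset.mem_toList.2 (Finset.mem_univ m)))
    · exact List.mem_append_right _ (List.mem_map_of_mem (Finset.mem_toList.2 (Finset.mem_univ m)))

theorem LamF_equiv (e : κ' ≃ κ) (A B : κ → J →₀ R) (h : Ort A B) :
    LamF (fun m => A (e m)) (fun m => B (e m)) = LamF A B := by
  rw [LamF_perm A B h ((Finset.univ : Finset κ').toList.map e)
    ((Finset.nodup_toList _).map e.injective) (fun m => ?_), List.map_map]
  · rfl
  · exact List.mem_map.2 ⟨e.symm m, Finset.mem_toList.2 (Finset.mem_univ _), e.apply_symm_apply m⟩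

theorem LamF_unit [Unique κ] (A B : κ → J →₀ R) : LamF A B = T (A default) (B default) := by
  unfold LamF
  rw [Finset.univ_unique, Finset.toList_singleton, List.map_singleton, List.prod_singleton]

/-- balanced -/
theorem LamF_mul (M : κ → κ' → R) (A : κ → J →₀ R) (B : κ' → J →₀ R) (h : Ort A B) :
    LamF (fun m' => ∑ m, M m m' • A m) B = LamF A (fun m => ∑ m', M m m' • B m') := by
  unfold LamF
  have e1 : ∀ m' : κ', T (∑ m, M m m' • A m) (B m') =
      ((Finset.univ : Finset κ).toList.map fun m => T (M m m' • A m) (B m')).prod := fun m' => by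
    rw [← Finset.sum_map_toList]
    exact T_list_left _ _ (fun m => by rw [dot_smul_right, h m m', mul_zero]) _
  have e2 : ∀ m : κ, T (A m) (∑ m', M m m' • B m') =
      ((Finset.univ : Finset κ').toList.map fun m' => T (M m m' • A m) (B m')).prod := fun m => by
    rw [← Finset.sum_map_toList, T_list_right _ _ (fun m' => by
      rw [dot_smul_left, h m m', mul_zero]) _]
    congr 1
    exact List.map_congr_left fun m' _ => (T_smul _ _ _ (h m m')).symm
  simp only [e1, e2]
  refine list_prod_swap (fun m m' => T (M m m' • A m) (B m')) (fun m m' n n' => ?_) _ _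
  exact T_comm _ _ _ _ (by rw [dot_smul_right, h, mul_zero]) (by rw [dot_smul_right, h, mul_zero])
    (by rw [dot_smul_right, h, mul_zero]) (by rw [dot_smul_right, h, mul_zero])

theorem map_LamF {R' : Type*} [CommRing R'] (f : R →+* R') (A B : κ → J →₀ R) (h : Ort A B) :
    map f (LamF A B) =
      LamF (fun m => (A m).mapRange f (map_zero f)) (fun m => (B m).mapRange f (map_zero f)) := by
  unfold LamF
  rw [map_list_prod, List.map_map]
  congr 1
  exact List.map_congr_left fun m _ => map_T f _ _ (h m m)

theorem emb_LamF {J' : Type*} [DecidableEq J'] [Infinite J'] (e : J → J')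
    (he : Function.Injective e) (A B : κ → J →₀ R) (h : Ort A B) :
    emb e he (LamF A B) = LamF (fun m => (A m).mapDomain e) (fun m => (B m).mapDomain e) := by
  unfold LamF
  rw [map_list_prod, List.map_map]
  congr 1
  exact List.map_congr_left fun m _ => emb_T e he _ _ (h m m)

end MSK
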