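import Pool.Agent.MSK.Ev
import Pool.Agent.MSK.Wh

/-! MSK / Lex: over a local ring every invertible matrix has a lift in the Steinberg group.

PROOF. Let `G n` be the set of `g : GL ι R` with a lift `s ∈ S (range inl ∪ {inr n})`, `Lft n g s`. It is a subgroup (`Lft_mul`, `Lft_inv`).
Transvections `1 + a E_ij` (`i ≠ j`) are in `G n`: `s = x (inl i) (inl j) a` (`phi_x`, `tv_apply`; determinant one), diagonal matrices with
one entry `u` at `i`: `s = hh (inl i) (inr n) u` (`phi_hh`). Gaussian elimination: by induction on the number of elements of `ι` not in `I`: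
if `g i j = δ_ij` whenever `i ∈ I` or `j ∈ I` then `g ∈ G n`. Step: `m ∉ I`; some entry `g k m` of the column `m` is a unit (otherwise all entries
are in the maximal ideal, contradiction to `g⁻¹ g = 1`), `k ∉ I`. If `g m m` is not a unit, add row `k` to row `m`: then it is a unit (sum of a
unit and a non unit). Subtract multiples of the row `m` from the other rows `k` (column `m` becomes `0` off the diagonal), then multiples
of the column `m` from the other columns; then multiply by a diagonal matrix; `g` is of the required form for `I ∪ {m}`. All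
operations with indices outside `I` keep the form for `I`. -/

set_option autoImplicit false
set_option linter.unusedVariables false

namespace MSK

open Matrix

variable {ι : Type*} [Fintype ι] [DecidableEq ι] {R : Type*} [CommRing R]

section LexAux

/-- the matrices with a lift which uses only one auxiliary coordinate -/
private def PP (n : ℕ) : Subgroup (GL ι R) where
  carrier := {g | ∃ s ∈ (S (Set.range Sum.inl ∪ {Sum.inr n}) : Subgroup (St (ι ⊕ ℕ) R)), Lft n g s}
  mul_mem' := by
    rintro a b ⟨s, hs, h⟩ ⟨t, ht, h'⟩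
    exact ⟨s * t, Subgroup.mul_mem _ hs ht, Lft_mul h h'⟩
  one_mem' := ⟨1, Subgroup.one_mem _, Lft_one n⟩
  inv_mem' := by
    rintro a ⟨s, hs, h⟩
    exact ⟨s⁻¹, Subgroup.inv_mem _ hs, Lft_inv h⟩

omit [Fintype ι] [DecidableEq ι] in
private theorem mem_inl (n : ℕ) (i : ι) :
    (Sum.inl i : ι ⊕ ℕ) ∈ (Set.range Sum.inl ∪ {Sum.inr n} : Set (ι ⊕ ℕ)) :=
  Or.inl ⟨i, rfl⟩

omit [Fintype ι] [DecidableEq ι] in
private theorem mem_inr (n : ℕ) :
    (Sum.inr n : ι ⊕ ℕ) ∈ (Set.range Sum.inl ∪ {Sum.inr n} : Set (ι ⊕ ℕ)) :=
  Or.inr rfl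

private theorem transvection_mulVec (i j : ι) (a : R) (v : ι → R) :
    transvection i j a *ᵥ v = v + Pi.single i (a * v j) := by
  rw [transvection, Matrix.add_mulVec, Matrix.one_mulVec]
  congr 1
  ext k
  rw [Matrix.mulVec, dotProduct]
  rw [Finset.sum_eq_single j]
  · rw [Matrix.single_apply, Pi.single_apply]
    by_cases h : i = k
    · subst h
      simp
    · have h' : k ≠ i := fun e => h e.symm
      simp [h, h']
  · intro b _ hb
    rw [Matrix.single_apply, if_neg (fun h => hb h.2.symm), zero_mul]
  · intro h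
    exact absurd (Finset.mem_univ j) h

private theorem PP_tv (n : ℕ) (i j : ι) (hij : i ≠ j) (a : R) :
    ∃ g ∈ (PP n : Subgroup (GL ι R)), (g : Matrix ι ι R) = transvection i j a := by
  refine ⟨⟨transvection i j a, transvection i j (-a), ?_, ?_⟩, ?_, rfl⟩
  · rw [transvection_mul_transvection_same i j hij, add_neg_cancel, transvection_zero]
  · rw [transvection_mul_transvection_same i j hij, neg_add_cancel, transvection_zero]
  · refine ⟨x (Sum.inl i) (Sum.inl j) a, x_mem_S (mem_inl n i) (mem_inl n j) a, ?_, ?_⟩
    · intro v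
      have hne : (Sum.inl i : ι ⊕ ℕ) ≠ Sum.inl j := fun h => hij (Sum.inl_injective h)
      rw [phi_x, tv_apply _ _ hne, ev_inl]
      change _ = ev (transvection i j a *ᵥ v)
      rw [transvection_mulVec, ev_add, ev_single]
    · intro m
      have hne : (Sum.inl i : ι ⊕ ℕ) ≠ Sum.inl j := fun h => hij (Sum.inl_injective h)
      have hdet : Matrix.GeneralLinearGroup.det (⟨transvection i j a, transvection i j (-a), by
          rw [transvection_mul_transvection_same i j hij, add_neg_cancel, transvection_zero], by
          rw [transvection_mul_transvection_same i j hij, neg_add_cancel, transvection_zero]⟩ :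
            GL ι R) = 1 := by
        ext
        rw [Matrix.GeneralLinearGroup.val_det_apply]
        change (transvection i j a).det = 1
        exact det_transvection_of_ne i j hij a
      rw [phi_x, tv_apply _ _ hne, hdet, inv_one, Units.val_one, ite_self]
      rw [Finsupp.single_apply, if_neg (by simp), mul_zero, Finsupp.single_zero, add_zero]

/-- diagonal matrices: an explicit lift -/
private theorem Lft_hh_aux (n : ℕ) (i : ι) (u : Rˣ) (g : GL ι R)
    (hg : (g : Matrix ι ι R) = Matrix.diagonal (fun j => if j = i then (u : R) else 1)) :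
    Lft n g (hh (Sum.inl i) (Sum.inr n) u) := by
  have hne : (Sum.inl i : ι ⊕ ℕ) ≠ Sum.inr n := by simp
  have hdet : Matrix.GeneralLinearGroup.det g = u := by
    ext
    rw [Matrix.GeneralLinearGroup.val_det_apply, hg, Matrix.det_diagonal]
    simp
  refine ⟨?_, ?_⟩
  · intro v
    rw [phi_hh _ _ hne, hg, ev_inl, ev_inr]
    have h1 : (Matrix.diagonal (fun j => if j = i then (u : R) else 1)) *ᵥ v =
        v + Pi.single i (-v i) + Pi.single i ((u : R) * v i) := by
      ext k
      rw [Matrix.mulVec_diagonal]
      by_cases hk : k = i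
      · subst hk
        simp
      · simp [hk]
    rw [h1, ev_add, ev_add, ev_single, ev_single, Finsupp.single_neg]
    simp only [mul_zero, Finsupp.single_zero, sub_zero, add_zero]
    abel
  · intro m
    rw [phi_hh _ _ hne, hdet]
    by_cases hm : m = n
    · subst hm
      simp
    · have h1 : (Sum.inr m : ι ⊕ ℕ) ≠ Sum.inr n := fun h => hm (Sum.inr_injective h)
      simp [hm]

private theorem hh_mem (n : ℕ) (i : ι) (u : Rˣ) :
    (hh (Sum.inl i) (Sum.inr n) u : St (ι ⊕ ℕ) R) ∈
      (S (Set.range Sum.inl ∪ {Sum.inr n}) : Subgroup (St (ι ⊕ ℕ) R)) := by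
  have hi := mem_inl (ι := ι) n i
  have hn := mem_inr (ι := ι) n
  unfold hh ww
  exact Subgroup.mul_mem _
    (Subgroup.mul_mem _ (Subgroup.mul_mem _ (x_mem_S hi hn _) (x_mem_S hn hi _)) (x_mem_S hi hn _))
    (Subgroup.mul_mem _ (Subgroup.mul_mem _ (x_mem_S hi hn _) (x_mem_S hn hi _)) (x_mem_S hi hn _))

private theorem PP_diag (n : ℕ) (i : ι) (u : Rˣ) :
    ∃ g ∈ (PP n : Subgroup (GL ι R)), (g : Matrix ι ι R) =
      Matrix.diagonal (fun j => if j = i then (u : R) else 1) := by
  have h1 : (Matrix.diagonal (fun j => if j = i then (u : R) else 1) : Matrix ι ι R) *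
      Matrix.diagonal (fun j => if j = i then ((u⁻¹ : Rˣ) : R) else 1) = 1 := by
    rw [Matrix.diagonal_mul_diagonal, ← Matrix.diagonal_one]
    congr 1
    ext j
    split_ifs <;> simp
  have h2 : (Matrix.diagonal (fun j => if j = i then ((u⁻¹ : Rˣ) : R) else 1) : Matrix ι ι R) *
      Matrix.diagonal (fun j => if j = i then (u : R) else 1) = 1 := by
    rw [Matrix.diagonal_mul_diagonal, ← Matrix.diagonal_one]
    congr 1
    ext j
    split_ifs <;> simp
  exact ⟨⟨_, _, h1, h2⟩, ⟨_, hh_mem n i u, Lft_hh_aux n i u _ rfl⟩, rfl⟩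

/-- column operations matrix: `1 + ∑ c k E_km` -/
private theorem PP_col (n : ℕ) (m : ι) (c : ι → R) (s : Finset ι) (hs : m ∉ s) :
    ∃ g ∈ (PP n : Subgroup (GL ι R)), (g : Matrix ι ι R) = 1 + ∑ k ∈ s, Matrix.single k m (c k) := by
  classical
  induction s using Finset.induction_on with
  | empty => exact ⟨1, Subgroup.one_mem _, by simp⟩
  | insert a s ha ih =>
    have hm : m ∉ s := fun h => hs (Finset.mem_insert_of_mem h)
    have ham : a ≠ m := fun h => hs (by rw [← h]; exact Finset.mem_insert_self _ _)
    obtain ⟨g, hg, hg'⟩ := ih hm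
    obtain ⟨t, ht, ht'⟩ := PP_tv (R := R) n a m ham (c a)
    refine ⟨t * g, Subgroup.mul_mem _ ht hg, ?_⟩
    rw [Units.val_mul, ht', hg', Finset.sum_insert ha, transvection, mul_add, mul_one, add_mul,
      one_mul, Finset.mul_sum]
    have h0 : ∑ k ∈ s, Matrix.single a m (c a) * Matrix.single k m (c k) = 0 := by
      apply Finset.sum_eq_zero
      intro k hk
      have : m ≠ k := fun h => hm (h ▸ hk)
      rw [Matrix.single_mul_single_of_ne _ _ _ _ this]
    rw [h0, add_zero]
    abel

/-- row operations matrix -/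
private theorem PP_row (n : ℕ) (m : ι) (c : ι → R) (s : Finset ι) (hs : m ∉ s) :
    ∃ g ∈ (PP n : Subgroup (GL ι R)), (g : Matrix ι ι R) = 1 + ∑ k ∈ s, Matrix.single m k (c k) := by
  classical
  induction s using Finset.induction_on with
  | empty => exact ⟨1, Subgroup.one_mem _, by simp⟩
  | insert a s ha ih =>
    have hm : m ∉ s := fun h => hs (Finset.mem_insert_of_mem h)
    have ham : m ≠ a := fun h => hs (by rw [h]; exact Finset.mem_insert_self _ _)
    obtain ⟨g, hg, hg'⟩ := ih hm
    obtain ⟨t, ht, ht'⟩ := PP_tv (R := R) n m a ham (c a)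
    refine ⟨g * t, Subgroup.mul_mem _ hg ht, ?_⟩
    rw [Units.val_mul, ht', hg', Finset.sum_insert ha, transvection, mul_add, mul_one, add_mul,
      one_mul, Finset.sum_mul]
    have h0 : ∑ k ∈ s, Matrix.single m k (c k) * Matrix.single m a (c a) = 0 := by
      apply Finset.sum_eq_zero
      intro k hk
      have : k ≠ m := fun h => hm (h ▸ hk)
      rw [Matrix.single_mul_single_of_ne _ _ _ _ this]
    rw [h0, add_zero]
    abel

private theorem sum_single_col_apply (m : ι) (c : ι → R) (i j : ι) :
    (∑ k ∈ Finset.univ.erase m, Matrix.single k m (c k) : Matrix ι ι R) i j =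
      if j = m ∧ i ≠ m then c i else 0 := by
  rw [Matrix.sum_apply]
  simp only [Matrix.single_apply]
  by_cases hj : j = m
  · subst hj
    by_cases hi : i = j
    · subst hi
      rw [Finset.sum_eq_zero]
      · simp
      · intro k hk
        rw [if_neg]
        intro h
        exact (Finset.ne_of_mem_erase hk) h.1
    · rw [Finset.sum_eq_single i]
      · simp [hi]
      · intro b _ hb
        rw [if_neg (fun h => hb h.1)]
      · intro h
        exact absurd (Finset.mem_erase.mpr ⟨hi, Finset.mem_univ i⟩) h
  · rw [Finset.sum_eq_zero]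
    · simp [hj]
    · intro k hk
      rw [if_neg (fun h => hj h.2.symm)]

private theorem sum_single_row_apply (m : ι) (c : ι → R) (i j : ι) :
    (∑ k ∈ Finset.univ.erase m, Matrix.single m k (c k) : Matrix ι ι R) i j =
      if i = m ∧ j ≠ m then c j else 0 := by
  rw [Matrix.sum_apply]
  simp only [Matrix.single_apply]
  by_cases hi : i = m
  · subst hi
    by_cases hj : j = i
    · subst hj
      rw [Finset.sum_eq_zero]
      · simp
      · intro k hk
        rw [if_neg]
        intro h
        exact (Finset.ne_of_mem_erase hk) h.2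
    · rw [Finset.sum_eq_single j]
      · simp [hj]
      · intro b _ hb
        rw [if_neg (fun h => hb h.2)]
      · intro h
        exact absurd (Finset.mem_erase.mpr ⟨hj, Finset.mem_univ j⟩) h
  · rw [Finset.sum_eq_zero]
    · simp [hi]
    · intro k hk
      rw [if_neg (fun h => hi h.1.symm)]

private theorem left_mul_apply (m : ι) (c : ι → R) (M : Matrix ι ι R) (i j : ι) :
    ((1 + ∑ k ∈ Finset.univ.erase m, Matrix.single k m (c k)) * M) i j =
      M i j + (if i ≠ m then c i * M m j else 0) := by
  rw [add_mul, one_mul, Matrix.add_apply, Matrix.mul_apply]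
  congr 1
  simp only [sum_single_col_apply]
  rw [Finset.sum_eq_single m]
  · by_cases hi : i = m
    · simp [hi]
    · simp [hi]
  · intro b _ hb
    rw [if_neg (fun h => hb h.1), zero_mul]
  · intro h
    exact absurd (Finset.mem_univ m) h

private theorem right_mul_apply (m : ι) (c : ι → R) (M : Matrix ι ι R) (i j : ι) :
    (M * (1 + ∑ k ∈ Finset.univ.erase m, Matrix.single m k (c k))) i j =
      M i j + (if j ≠ m then M i m * c j else 0) := by
  rw [mul_add, mul_one, Matrix.add_apply, Matrix.mul_apply]
  congr 1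
  simp only [sum_single_row_apply]
  rw [Finset.sum_eq_single m]
  · by_cases hj : j = m
    · simp [hj]
    · simp [hj]
  · intro b _ hb
    rw [if_neg (fun h => hb h.1), mul_zero]
  · intro h
    exact absurd (Finset.mem_univ m) h

/-- the form of the matrices in the elimination -/
private def Frm (I : Finset ι) (M : Matrix ι ι R) : Prop :=
  ∀ i j, (i ∈ I ∨ j ∈ I) → M i j = if i = j then 1 else 0

private theorem step_unit [IsLocalRing R] (n : ℕ) (I : Finset ι)
    (ih : ∀ m ∉ I, ∀ g : GL ι R, Frm (insert m I) (g : Matrix ι ι R) → g ∈ (PP n : Subgroup (GL ι R)))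
    (m : ι) (hm : m ∉ I) (g : GL ι R) (hg : Frm I (g : Matrix ι ι R))
    (u : Rˣ) (hu : (g : Matrix ι ι R) m m = u) : g ∈ (PP n : Subgroup (GL ι R)) := by
  have huu : (u : R) * ((u⁻¹ : Rˣ) : R) = 1 := u.mul_inv
  have hu' : ((u⁻¹ : Rˣ) : R) * (u : R) = 1 := u.inv_mul
  obtain ⟨L, hL, hL'⟩ := PP_col (R := R) n m
    (fun i => -((g : Matrix ι ι R) i m * ((u⁻¹ : Rˣ) : R))) (Finset.univ.erase m) (by simp)
  obtain ⟨W, hW, hW'⟩ := PP_row (R := R) n m
    (fun j => -(((u⁻¹ : Rˣ) : R) * (g : Matrix ι ι R) m j)) (Finset.univ.erase m) (by simp)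
  obtain ⟨D, hD, hD'⟩ := PP_diag (R := R) n m u⁻¹
  have key : D * (L * g * W) ∈ (PP n : Subgroup (GL ι R)) := by
    apply ih m hm
    have h1 : ∀ i j, ((L * g : GL ι R) : Matrix ι ι R) i j = (g : Matrix ι ι R) i j +
        (if i ≠ m then -((g : Matrix ι ι R) i m * ((u⁻¹ : Rˣ) : R)) * (g : Matrix ι ι R) m j
          else 0) := by
      intro i j
      rw [Units.val_mul, hL', left_mul_apply]
    have h1m : ∀ i, i ≠ m → ((L * g : GL ι R) : Matrix ι ι R) i m = 0 := by
      intro i hi
      rw [h1, if_pos hi, hu]
      linear_combination (-(g : Matrix ι ι R) i m) * hu'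
    have h1mm : ∀ j, ((L * g : GL ι R) : Matrix ι ι R) m j = (g : Matrix ι ι R) m j := by
      intro j
      rw [h1, if_neg (by simp), add_zero]
    have h2 : ∀ i j, ((L * g * W : GL ι R) : Matrix ι ι R) i j =
        ((L * g : GL ι R) : Matrix ι ι R) i j + (if j ≠ m then
          ((L * g : GL ι R) : Matrix ι ι R) i m * -(((u⁻¹ : Rˣ) : R) * (g : Matrix ι ι R) m j)
            else 0) := by
      intro i j
      rw [Units.val_mul (L * g) W, hW', right_mul_apply]
    have h3 : ∀ i j, ((D * (L * g * W) : GL ι R) : Matrix ι ι R) i j =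
        (if i = m then ((u⁻¹ : Rˣ) : R) else 1) * ((L * g * W : GL ι R) : Matrix ι ι R) i j := by
      intro i j
      rw [Units.val_mul D, hD', Matrix.diagonal_mul]
    have h2mm : ((L * g * W : GL ι R) : Matrix ι ι R) m m = u := by
      rw [h2, if_neg (by simp), add_zero, h1mm, hu]
    have h2m : ∀ j, j ≠ m → ((L * g * W : GL ι R) : Matrix ι ι R) m j = 0 := by
      intro j hj
      rw [h2, if_pos hj, h1mm, h1mm, hu]
      linear_combination (-(g : Matrix ι ι R) m j) * huu
    have h2i : ∀ i, i ≠ m → ∀ j, ((L * g * W : GL ι R) : Matrix ι ι R) i j =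
        ((L * g : GL ι R) : Matrix ι ι R) i j := by
      intro i hi j
      rw [h2, h1m i hi]
      simp
    intro i j hij
    rw [h3]
    by_cases hi : i = m
    · subst hi
      rw [if_pos rfl]
      by_cases hj : j = i
      · subst hj
        rw [h2mm, hu', if_pos rfl]
      · rw [h2m j hj, mul_zero, if_neg (fun e => hj e.symm)]
    · rw [if_neg hi, one_mul, h2i i hi]
      by_cases hj : j = m
      · subst hj
        rw [h1m i hi, if_neg hi]
      · have hij' : i ∈ I ∨ j ∈ I := by
          rcases hij with h | h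
          · exact Or.inl ((Finset.mem_insert.mp h).resolve_left hi)
          · exact Or.inr ((Finset.mem_insert.mp h).resolve_left hj)
        rw [h1, if_pos hi, hg i j hij']
        rcases hij' with h | h
        · have h7 : (g : Matrix ι ι R) i m = 0 := by
            rw [hg i m (Or.inl h), if_neg hi]
          rw [h7, zero_mul, neg_zero, zero_mul, add_zero]
        · have h7 : (g : Matrix ι ι R) m j = 0 := by
            rw [hg m j (Or.inr h), if_neg (fun e => hj e.symm)]
          rw [h7, mul_zero, add_zero]
  have h4 := (Subgroup.mul_mem_cancel_left _ hD).mp key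
  have h5 := (Subgroup.mul_mem_cancel_right _ hW).mp h4
  exact (Subgroup.mul_mem_cancel_left _ hL).mp h5

private theorem exists_unit_entry [IsLocalRing R] (g : GL ι R) (m : ι) :
    ∃ k, IsUnit ((g : Matrix ι ι R) k m) := by
  by_contra hcon
  push Not at hcon
  have h1 : ((g⁻¹ * g : GL ι R) : Matrix ι ι R) m m = 1 := by
    rw [inv_mul_cancel]
    simp
  rw [Units.val_mul, Matrix.mul_apply] at h1
  have h2 : ∑ k, ((g⁻¹ : GL ι R) : Matrix ι ι R) m k * (g : Matrix ι ι R) k m ∈
      IsLocalRing.maximalIdeal R := by
    apply Ideal.sum_mem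
    intro k _
    apply Ideal.mul_mem_left
    rw [IsLocalRing.mem_maximalIdeal]
    exact hcon k
  rw [h1] at h2
  rw [IsLocalRing.mem_maximalIdeal] at h2
  exact h2 isUnit_one

private theorem elim_all [IsLocalRing R] (n : ℕ) (d : ℕ) : ∀ I : Finset ι,
    (Finset.univ \ I).card = d → ∀ g : GL ι R, Frm I (g : Matrix ι ι R) →
      g ∈ (PP n : Subgroup (GL ι R)) := by
  induction d with
  | zero =>
    intro I hI g hg
    have h1 : ∀ i, i ∈ I := by
      intro i
      by_contra h
      have : i ∈ Finset.univ \ I := Finset.mem_sdiff.mpr ⟨Finset.mem_univ i, h⟩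
      rw [Finset.card_eq_zero.mp hI] at this
      exact absurd this (Finset.notMem_empty i)
    have h2 : g = 1 := by
      ext i j
      rw [hg i j (Or.inl (h1 i)), Units.val_one, Matrix.one_apply]
    rw [h2]
    exact Subgroup.one_mem _
  | succ d ih =>
    intro I hI g hg
    have ih' : ∀ m ∉ I, ∀ g : GL ι R, Frm (insert m I) (g : Matrix ι ι R) →
        g ∈ (PP n : Subgroup (GL ι R)) := by
      intro m hm g hg
      refine ih (insert m I) ?_ g hg
      have h1 : Finset.univ \ insert m I = (Finset.univ \ I).erase m := by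
        ext k
        simp only [Finset.mem_sdiff, Finset.mem_univ, true_and, Finset.mem_insert,
          Finset.mem_erase, not_or]
      rw [h1, Finset.card_erase_of_mem (Finset.mem_sdiff.mpr ⟨Finset.mem_univ m, hm⟩), hI]
      rfl
    obtain ⟨m, hm⟩ : ∃ m, m ∈ Finset.univ \ I := by
      apply Finset.Nonempty.exists_mem
      rw [← Finset.card_pos, hI]
      omega
    have hmI : m ∉ I := (Finset.mem_sdiff.mp hm).2
    by_cases hmm : IsUnit ((g : Matrix ι ι R) m m)
    · obtain ⟨u, hu⟩ := hmm
      exact step_unit n I ih' m hmI g hg u hu.symm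
    · obtain ⟨k, hk⟩ := exists_unit_entry g m
      have hkm : k ≠ m := by
        intro h
        rw [h] at hk
        exact hmm hk
      have hkI : k ∉ I := by
        intro h
        rw [hg k m (Or.inl h), if_neg hkm] at hk
        exact not_isUnit_zero hk
      obtain ⟨t, ht, ht'⟩ := PP_tv (R := R) n m k hkm.symm 1
      have h1 : ∀ i j, ((t * g : GL ι R) : Matrix ι ι R) i j = (g : Matrix ι ι R) i j +
          (if i = m then (g : Matrix ι ι R) k j else 0) := by
        intro i j
        rw [Units.val_mul, ht', transvection, add_mul, one_mul, Matrix.add_apply, Matrix.mul_apply]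
        congr 1
        simp only [Matrix.single_apply]
        rw [Finset.sum_eq_single k]
        · by_cases hi : i = m
          · simp [hi]
          · have : m ≠ i := fun e => hi e.symm
            simp [hi, this]
        · intro b _ hb
          rw [if_neg (fun h => hb h.2.symm), zero_mul]
        · intro h
          exact absurd (Finset.mem_univ k) h
      have h2 : t * g ∈ (PP n : Subgroup (GL ι R)) := by
        have h3 : IsUnit (((t * g : GL ι R) : Matrix ι ι R) m m) := by
          rw [h1, if_pos rfl]
          by_contra hcon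
          have h4 : (g : Matrix ι ι R) m m + (g : Matrix ι ι R) k m ∈ IsLocalRing.maximalIdeal R := by
            rw [IsLocalRing.mem_maximalIdeal]
            exact hcon
          have h5 : (g : Matrix ι ι R) m m ∈ IsLocalRing.maximalIdeal R := by
            rw [IsLocalRing.mem_maximalIdeal]
            exact hmm
          have h6 := (Ideal.add_mem_iff_right _ h5).mp h4
          rw [IsLocalRing.mem_maximalIdeal] at h6
          exact h6 hk
        obtain ⟨u, hu⟩ := h3
        refine step_unit n I ih' m hmI (t * g) ?_ u hu.symm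
        intro i j hij
        rw [h1]
        by_cases hi : i = m
        · subst hi
          rw [if_pos rfl]
          have hj : j ∈ I := hij.resolve_left hmI
          rw [hg i j (Or.inr hj), hg k j (Or.inr hj)]
          have : k ≠ j := fun e => hkI (e ▸ hj)
          rw [if_neg this, add_zero]
        · rw [if_neg hi, add_zero, hg i j hij]
      exact (Subgroup.mul_mem_cancel_left _ ht).mp h2

end LexAux

theorem exists_Lft [IsLocalRing R] (n : ℕ) (g : GL ι R) :
    ∃ s ∈ (S (Set.range Sum.inl ∪ {Sum.inr n}) : Subgroup (St (ι ⊕ ℕ) R)), Lft n g s := by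
  have h := elim_all (R := R) n (Finset.univ \ (∅ : Finset ι)).card ∅ rfl g
    (by intro i j h; simp at h)
  exact h

theorem exists_Lft' [IsLocalRing R] (n : ℕ) (g : GL ι R) : ∃ s : St (ι ⊕ ℕ) R, Lft n g s := by
  obtain ⟨s, _, hs⟩ := exists_Lft n g
  exact ⟨s, hs⟩

/-- diagonal matrices: an explicit lift -/
theorem Lft_hh (n : ℕ) (i : ι) (u : Rˣ) (g : GL ι R)
    (hg : (g : Matrix ι ι R) = Matrix.diagonal (fun j => if j = i then (u : R) else 1)) :
    Lft n g (hh (Sum.inl i) (Sum.inr n) u) :=
  Lft_hh_aux n i u g hg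

end MSK
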