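import Pool.Agent.MSK.Df
import Pool.Agent.MSK.Dem
import Pool.Agent.MSK.Blk

/-! MSK / Lls: local lifts with respect to a lattice.

`k` a field, `𝕂 = LaurentSeries k`, `b : GL ι 𝕂` (the lattice `b k⟦X⟧^ι`). `LL b g ℓ`: `ℓ = β (map l) β⁻¹ c` where `β` lifts `b` with auxiliary coordinate
`inr 0`, `l` over `k⟦X⟧` lifts `b⁻¹ g b` with auxiliary coordinate `inr 1`, `c ∈ K2`, `del c = 1`.
PROOFS. `LL_Lft`: `Lft_conj`, `Lft_map`. `LL_df`: two `β` have the same action, so conjugation by them is the same (`conj_eq_of_phi_eq`);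
the two `l` have the same action by `iO_injective` (the matrix `b⁻¹ g b` determines `γ`), `df_iO`. `LL_of_df`: put `c = ℓ' ℓ⁻¹ c'`.
`LL_mul`: use the same `β` for both (`conj_eq_of_phi_eq`). `LL_exists`: `exists_Lft'` for `b` (field) and `γ` (`k⟦X⟧` is local).
`LL_Lam`: `Lam A B = β (Lam A₀ B₀) β⁻¹` by `conj_Lam`, `map_Lam`. `LL_E1`: `β' = E1 β₀ * E2 β₁` lifts `bd b b'` (`Lft_E12`) and
`β' E1(l) β'⁻¹ = E1(β₀ l β₀⁻¹)` because `E2 β₁` commutes with `E1 l` (`commute_E`, auxiliary coordinates `0 ≠ 1`); `del_emb`. `LL_E2`: similarly: `E1 β₀` commutes with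
`E2 (β₁ l β₁⁻¹)` (an element lifting `bd 1 g'` with auxiliary coordinate `1`). `LL_Up`: `LL_Lam` with `A = fromRows M 0`, `B = fromCols 0 1`: `M = b M₀ b'⁻¹`,
`Up M = Lam (fromRows (b M₀) 0) (fromCols 0 b'⁻¹)` by `Up_mul`. -/

set_option autoImplicit false
set_option linter.unusedVariables false

namespace MSK

open Matrix

variable {ι κ : Type*} [Fintype ι] [DecidableEq ι] [Fintype κ] [DecidableEq κ]
  {k : Type*} [Field k]

/-- `s` lifts the invertible matrix `g` -/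
def LftM {R : Type*} [CommRing R] (n : ℕ) (g : Matrix ι ι R) (s : St (ι ⊕ ℕ) R) : Prop :=
  ∃ g' : GL ι R, (g' : Matrix ι ι R) = g ∧ Lft n g' s

theorem LftM_phi_eq {R : Type*} [CommRing R] {n : ℕ} {g : Matrix ι ι R} {s s' : St (ι ⊕ ℕ) R}
    (h : LftM n g s) (h' : LftM n g s') : phi s = phi s' := by
  obtain ⟨g1, hg1, h1⟩ := h
  obtain ⟨g2, hg2, h2⟩ := h'
  have hg : g1 = g2 := Units.ext (hg1.trans hg2.symm)
  subst hg
  exact Lft_phi_eq h1 h2

theorem LftM_mul {R : Type*} [CommRing R] {n : ℕ} {g g' : Matrix ι ι R} {s s' : St (ι ⊕ ℕ) R}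
    (h : LftM n g s) (h' : LftM n g' s') : LftM n (g * g') (s * s') := by
  obtain ⟨g1, hg1, h1⟩ := h
  obtain ⟨g2, hg2, h2⟩ := h'
  refine ⟨g1 * g2, ?_, Lft_mul h1 h2⟩
  rw [Units.val_mul, hg1, hg2]

theorem phi_emb_congr {R : Type*} [CommRing R] {J J' : Type*} [DecidableEq J] [DecidableEq J']
    (e : J → J') (he : Function.Injective e) {a a' : St J R}
    (h : phi a = phi a') : phi (emb e he a) = phi (emb e he a') := by
  have h0 : a * a'⁻¹ ∈ K2 J R := by rw [mem_K2, map_mul, map_inv, h, mul_inv_cancel]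
  have h1 := emb_mem_K2 e he h0
  rw [mem_K2, map_mul, map_mul, map_inv, map_inv, mul_inv_eq_one] at h1
  exact h1

theorem df_emb {J J' : Type*} [DecidableEq J] [DecidableEq J'] [Infinite J] [Infinite J']
    (e : J → J') (he : Function.Injective e) {a a' : St J (LaurentSeries k)}
    (h : phi a = phi a') : df (emb e he a) (emb e he a') = df a a' := by
  unfold df
  rw [← map_inv, ← map_mul]
  exact del_emb e he (mul_inv_mem_K2 h)

theorem df_E1 {a a' : St (ι ⊕ ℕ) (LaurentSeries k)} (h : phi a = phi a') :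
    phi (E1 κ a) = phi (E1 κ a') ∧ df (E1 κ a) (E1 κ a') = df a a' := by
  exact ⟨phi_emb_congr _ _ h, df_emb _ _ h⟩

theorem df_E2 {a a' : St (κ ⊕ ℕ) (LaurentSeries k)} (h : phi a = phi a') :
    phi (E2 ι a) = phi (E2 ι a') ∧ df (E2 ι a) (E2 ι a') = df a a' := by
  exact ⟨phi_emb_congr _ _ h, df_emb _ _ h⟩

/-- `ℓ` is a local lift of `g` with respect to the lattice of `b` -/
def LL (b : GL ι (LaurentSeries k)) (g : Matrix ι ι (LaurentSeries k))
    (ℓ : St (ι ⊕ ℕ) (LaurentSeries k)) : Prop :=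
  ∃ (β : St (ι ⊕ ℕ) (LaurentSeries k)) (γ : GL ι (PowerSeries k)) (l : St (ι ⊕ ℕ) (PowerSeries k))
    (c : St (ι ⊕ ℕ) (LaurentSeries k)), Lft 0 b β ∧ Lft 1 γ l ∧
    g = (b : Matrix ι ι (LaurentSeries k)) * ((γ : Matrix ι ι (PowerSeries k)).map (iO k)) *
      ((b⁻¹ : GL ι (LaurentSeries k)) : Matrix ι ι (LaurentSeries k)) ∧
    c ∈ K2 (ι ⊕ ℕ) (LaurentSeries k) ∧ del c = 1 ∧ ℓ = β * map (iO k) l * β⁻¹ * c

/-- a matrix over the Laurent series which maps the lattice of `b'` to the lattice of `b` -/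
def LI (b : GL ι (LaurentSeries k)) (b' : GL κ (LaurentSeries k))
    (M : Matrix ι κ (LaurentSeries k)) : Prop :=
  ∃ M₀ : Matrix ι κ (PowerSeries k), M = (b : Matrix ι ι (LaurentSeries k)) * M₀.map (iO k) *
    ((b'⁻¹ : GL κ (LaurentSeries k)) : Matrix κ κ (LaurentSeries k))

theorem LI_add {b : GL ι (LaurentSeries k)} {b' : GL κ (LaurentSeries k)}
    {M M' : Matrix ι κ (LaurentSeries k)} (h : LI b b' M) (h' : LI b b' M') : LI b b' (M + M') := by
  obtain ⟨N, rfl⟩ := h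
  obtain ⟨N', rfl⟩ := h'
  refine ⟨N + N', ?_⟩
  rw [Matrix.map_add _ (map_add (iO k)), Matrix.mul_add, Matrix.add_mul]

theorem LI_neg {b : GL ι (LaurentSeries k)} {b' : GL κ (LaurentSeries k)}
    {M : Matrix ι κ (LaurentSeries k)} (h : LI b b' M) : LI b b' (-M) := by
  obtain ⟨N, rfl⟩ := h
  refine ⟨-N, ?_⟩
  have h1 : (-N).map (iO k) = -(N.map (iO k)) := by
    ext i j
    simp
  rw [h1, Matrix.mul_neg, Matrix.neg_mul]

theorem GL_inv_mul {R : Type*} [CommRing R] (b : GL ι R) :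
    ((b⁻¹ : GL ι R) : Matrix ι ι R) * (b : Matrix ι ι R) = 1 := by
  rw [← Units.val_mul, inv_mul_cancel, Units.val_one]

theorem GL_mul_inv {R : Type*} [CommRing R] (b : GL ι R) :
    (b : Matrix ι ι R) * ((b⁻¹ : GL ι R) : Matrix ι ι R) = 1 := by
  rw [← Units.val_mul, mul_inv_cancel, Units.val_one]

theorem GL_cancel_left {R : Type*} [CommRing R] {μ : Type*} (b : GL ι R) (M : Matrix ι μ R) :
    ((b⁻¹ : GL ι R) : Matrix ι ι R) * ((b : Matrix ι ι R) * M) = M := by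
  rw [← Matrix.mul_assoc, GL_inv_mul, Matrix.one_mul]

theorem GL_cancel_left' {R : Type*} [CommRing R] {μ : Type*} (b : GL ι R) (M : Matrix ι μ R) :
    (b : Matrix ι ι R) * (((b⁻¹ : GL ι R) : Matrix ι ι R) * M) = M := by
  rw [← Matrix.mul_assoc, GL_mul_inv, Matrix.one_mul]

theorem map_iO_inj {μ ν : Type*} {M N : Matrix μ ν (PowerSeries k)}
    (h : M.map (iO k) = N.map (iO k)) : M = N := by
  ext1 i j
  exact iO_injective (k := k) (congrFun (congrFun h i) j)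

theorem LI_mul {μ : Type*} [Fintype μ] [DecidableEq μ] {b : GL ι (LaurentSeries k)}
    {b' : GL κ (LaurentSeries k)} {b'' : GL μ (LaurentSeries k)} {M : Matrix ι κ (LaurentSeries k)}
    {M' : Matrix κ μ (LaurentSeries k)} (h : LI b b' M) (h' : LI b' b'' M') :
    LI b b'' (M * M') := by
  obtain ⟨N, rfl⟩ := h
  obtain ⟨N', rfl⟩ := h'
  refine ⟨N * N', ?_⟩
  rw [Matrix.map_mul]
  simp only [Matrix.mul_assoc]
  rw [GL_cancel_left]

theorem LI_one {b : GL ι (LaurentSeries k)} : LI b b (1 : Matrix ι ι (LaurentSeries k)) := by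
  refine ⟨1, ?_⟩
  rw [Matrix.map_one _ (map_zero _) (map_one _), Matrix.mul_one, GL_mul_inv]

theorem LI_zero {b : GL ι (LaurentSeries k)} {b' : GL κ (LaurentSeries k)} :
    LI b b' (0 : Matrix ι κ (LaurentSeries k)) := by
  refine ⟨0, ?_⟩
  rw [Matrix.map_zero _ (map_zero _), Matrix.mul_zero, Matrix.zero_mul]

theorem LI_fromBlocks {ι' κ' : Type*} [Fintype ι'] [DecidableEq ι'] [Fintype κ'] [DecidableEq κ']
    {b : GL ι (LaurentSeries k)} {b' : GL κ (LaurentSeries k)} {c : GL ι' (LaurentSeries k)}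
    {c' : GL κ' (LaurentSeries k)} {M1 : Matrix ι ι' (LaurentSeries k)}
    {M2 : Matrix ι κ' (LaurentSeries k)} {M3 : Matrix κ ι' (LaurentSeries k)}
    {M4 : Matrix κ κ' (LaurentSeries k)} (h1 : LI b c M1) (h2 : LI b c' M2) (h3 : LI b' c M3)
    (h4 : LI b' c' M4) :
    LI (bd b b') (bd c c') (Matrix.fromBlocks M1 M2 M3 M4) := by
  obtain ⟨N1, rfl⟩ := h1
  obtain ⟨N2, rfl⟩ := h2
  obtain ⟨N3, rfl⟩ := h3
  obtain ⟨N4, rfl⟩ := h4
  refine ⟨Matrix.fromBlocks N1 N2 N3 N4, ?_⟩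
  rw [coe_bd, coe_bd_inv, Matrix.fromBlocks_map, Matrix.fromBlocks_multiply,
    Matrix.fromBlocks_multiply]
  simp only [Matrix.zero_mul, Matrix.mul_zero, add_zero, zero_add]

theorem coe_mapG {R R' : Type*} [CommRing R] [CommRing R'] (f : R →+* R') (g : GL ι R) :
    ((Matrix.GeneralLinearGroup.map f g : GL ι R') : Matrix ι ι R') =
      (g : Matrix ι ι R).map f := rfl

theorem Lft_central {R : Type*} [CommRing R] {n : ℕ} {g : GL ι R} {s c : St (ι ⊕ ℕ) R}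
    (h : Lft n g s) (hc : c ∈ K2 (ι ⊕ ℕ) R) : Lft n g (s * c) := by
  have h1 := Lft_mul h (Lft_one_iff.2 hc)
  rwa [mul_one] at h1

/-- the main part of a local lift -/
theorem LL_core {b : GL ι (LaurentSeries k)} {γ : GL ι (PowerSeries k)}
    {β : St (ι ⊕ ℕ) (LaurentSeries k)} {l : St (ι ⊕ ℕ) (PowerSeries k)} (hβ : Lft 0 b β)
    (hl : Lft 1 γ l) :
    Lft 1 (b * Matrix.GeneralLinearGroup.map (iO k) γ * b⁻¹) (β * map (iO k) l * β⁻¹) :=
  Lft_conj (Lft_map (iO k) hl) hβ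

theorem LL_Lft {b : GL ι (LaurentSeries k)} {g : Matrix ι ι (LaurentSeries k)}
    {ℓ : St (ι ⊕ ℕ) (LaurentSeries k)} (h : LL b g ℓ) : LftM 1 g ℓ := by
  obtain ⟨β, γ, l, c, hβ, hl, hg, hc, hd, rfl⟩ := h
  refine ⟨b * Matrix.GeneralLinearGroup.map (iO k) γ * b⁻¹, ?_, Lft_central (LL_core hβ hl) hc⟩
  rw [Units.val_mul, Units.val_mul, coe_mapG, hg]

theorem LL_gamma {b : GL ι (LaurentSeries k)} {γ γ' : GL ι (PowerSeries k)}
    (h : (b : Matrix ι ι (LaurentSeries k)) * ((γ : Matrix ι ι (PowerSeries k)).map (iO k)) *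
      ((b⁻¹ : GL ι (LaurentSeries k)) : Matrix ι ι (LaurentSeries k)) =
      (b : Matrix ι ι (LaurentSeries k)) * ((γ' : Matrix ι ι (PowerSeries k)).map (iO k)) *
      ((b⁻¹ : GL ι (LaurentSeries k)) : Matrix ι ι (LaurentSeries k))) : γ = γ' := by
  apply Units.ext
  apply map_iO_inj
  have h1 := congrArg (fun N => ((b⁻¹ : GL ι (LaurentSeries k)) : Matrix ι ι (LaurentSeries k)) *
    (N * (b : Matrix ι ι (LaurentSeries k)))) h
  simp only [Matrix.mul_assoc] at h1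
  rw [GL_inv_mul, Matrix.mul_one, Matrix.mul_one, GL_cancel_left, GL_cancel_left] at h1
  exact h1

theorem df_central {J : Type*} [DecidableEq J] [Infinite J] {a a' c c' : St J (LaurentSeries k)}
    (h : phi a = phi a') (hc : c ∈ K2 J (LaurentSeries k)) (hc' : c' ∈ K2 J (LaurentSeries k))
    (hd : del c = 1) (hd' : del c' = 1) : df (a * c) (a' * c') = df a a' := by
  have h0 : phi c = phi c' := by rw [mem_K2.1 hc, mem_K2.1 hc']
  rw [df_mul h h0]
  have h1 : df c c' = 1 := by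
    unfold df
    rw [del_mul hc (Subgroup.inv_mem _ hc'), del_inv hc', hd, hd']
    simp
  rw [h1, mul_one]

/-- two local lifts agree for `df` -/
theorem LL_df {b : GL ι (LaurentSeries k)} {g : Matrix ι ι (LaurentSeries k)}
    {ℓ ℓ' : St (ι ⊕ ℕ) (LaurentSeries k)} (h : LL b g ℓ) (h' : LL b g ℓ') :
    phi ℓ = phi ℓ' ∧ df ℓ ℓ' = 1 := by
  obtain ⟨β, γ, l, c, hβ, hl, hg, hc, hd, rfl⟩ := h
  obtain ⟨β', γ', l', c', hβ', hl', hg', hc', hd', rfl⟩ := h'
  have hγ : γ = γ' := LL_gamma (hg.symm.trans hg')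
  subst hγ
  have h1 : phi l = phi l' := Lft_phi_eq hl hl'
  have h2 : phi β = phi β' := Lft_phi_eq hβ hβ'
  have h3 : β' * map (iO k) l' * β'⁻¹ = β * map (iO k) l' * β⁻¹ :=
    (conj_eq_of_phi_eq h2 _).symm
  have h4 : phi (map (iO k) l) = phi (map (iO k) l') := by
    have := map_mem_K2 (iO k) (mul_inv_mem_K2 h1)
    rw [mem_K2, map_mul, map_mul, map_inv, map_inv, mul_inv_eq_one] at this
    exact this
  have h5 : phi (β * map (iO k) l * β⁻¹) = phi (β' * map (iO k) l' * β'⁻¹) := by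
    rw [h3, map_mul, map_mul, map_mul, map_mul, h4]
  refine ⟨?_, ?_⟩
  · rw [map_mul, map_mul (phi : St (ι ⊕ ℕ) (LaurentSeries k) →* _) _ c', h5, mem_K2.1 hc,
      mem_K2.1 hc']
  · rw [df_central h5 hc hc' hd hd', h3, df_conj h4, df_iO h1]

theorem LL_of_df {b : GL ι (LaurentSeries k)} {g : Matrix ι ι (LaurentSeries k)}
    {ℓ ℓ' : St (ι ⊕ ℕ) (LaurentSeries k)} (h : LL b g ℓ) (h' : phi ℓ = phi ℓ')
    (h'' : df ℓ ℓ' = 1) : LL b g ℓ' := by
  obtain ⟨β, γ, l, c, hβ, hl, hg, hc, hd, rfl⟩ := h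
  set ℓ := β * map (iO k) l * β⁻¹ * c with hℓ
  have hz : ℓ⁻¹ * ℓ' ∈ K2 (ι ⊕ ℕ) (LaurentSeries k) := by
    rw [mem_K2, map_mul, map_inv, h', inv_mul_cancel]
  have hz' : ℓ⁻¹ * ℓ' = ℓ' * ℓ⁻¹ := by
    have h1 := K2_central hz ℓ⁻¹
    calc ℓ⁻¹ * ℓ' = ℓ * (ℓ⁻¹ * (ℓ⁻¹ * ℓ')) := by group
      _ = ℓ * (ℓ⁻¹ * ℓ' * ℓ⁻¹) := by rw [h1]
      _ = ℓ' * ℓ⁻¹ := by group
  refine ⟨β, γ, l, c * (ℓ⁻¹ * ℓ'), hβ, hl, hg, Subgroup.mul_mem _ hc hz, ?_, ?_⟩
  · rw [del_mul hc hz, hd, one_mul, hz']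
    have h1 := df_symm h'
    rw [h'', inv_one] at h1
    exact h1
  · rw [← mul_assoc, ← hℓ]
    group

/-- existence of local lifts -/
theorem LL_exists {b : GL ι (LaurentSeries k)} {g g' : Matrix ι ι (LaurentSeries k)}
    (h : LI b b g) (h' : LI b b g') (hg : g * g' = 1) : ∃ ℓ, LL b g ℓ := by
  obtain ⟨N, hN⟩ := h
  obtain ⟨N', hN'⟩ := h'
  have h1 : N * N' = 1 := by
    apply map_iO_inj
    rw [Matrix.map_mul, Matrix.map_one _ (map_zero _) (map_one _)]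
    rw [hN, hN'] at hg
    have h2 := congrArg (fun N => ((b⁻¹ : GL ι (LaurentSeries k)) : Matrix ι ι (LaurentSeries k)) *
      (N * (b : Matrix ι ι (LaurentSeries k)))) hg
    simp only [Matrix.mul_assoc, Matrix.one_mul] at h2
    rw [GL_inv_mul, Matrix.mul_one, GL_cancel_left, GL_cancel_left] at h2
    exact h2
  obtain ⟨β, hβ⟩ := exists_Lft' 0 b
  obtain ⟨l, hl⟩ := exists_Lft' 1 (⟨N, N', h1, mul_eq_one_comm.1 h1⟩ : GL ι (PowerSeries k))
  exact ⟨β * map (iO k) l * β⁻¹ * 1, β, _, l, 1, hβ, hl, hN, Subgroup.one_mem _, del_one, rfl⟩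

theorem LL_mul {b : GL ι (LaurentSeries k)} {g g' : Matrix ι ι (LaurentSeries k)}
    {ℓ ℓ' : St (ι ⊕ ℕ) (LaurentSeries k)} (h : LL b g ℓ) (h' : LL b g' ℓ') :
    LL b (g * g') (ℓ * ℓ') := by
  obtain ⟨β, γ, l, c, hβ, hl, hg, hc, hd, rfl⟩ := h
  obtain ⟨β', γ', l', c', hβ', hl', hg', hc', hd', rfl⟩ := h'
  refine ⟨β, γ * γ', l * l', c * c', hβ, Lft_mul hl hl', ?_, Subgroup.mul_mem _ hc hc', ?_, ?_⟩
  · rw [hg, hg', Units.val_mul, Matrix.map_mul]
    simp only [Matrix.mul_assoc]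
    rw [GL_cancel_left]
  · rw [del_mul hc hc', hd, hd', one_mul]
  · have h2 : phi β = phi β' := Lft_phi_eq hβ hβ'
    rw [← conj_eq_of_phi_eq h2, map_mul]
    have h3 := K2_central hc (β * map (iO k) l' * β⁻¹)
    calc β * map (iO k) l * β⁻¹ * c * (β * map (iO k) l' * β⁻¹ * c')
        = β * map (iO k) l * β⁻¹ * (c * (β * map (iO k) l' * β⁻¹)) * c' := by group
      _ = β * map (iO k) l * β⁻¹ * (β * map (iO k) l' * β⁻¹ * c) * c' := by rw [h3]
      _ = β * (map (iO k) l * map (iO k) l') * β⁻¹ * (c * c') := by group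

theorem LL_inv {b : GL ι (LaurentSeries k)} {g g' : Matrix ι ι (LaurentSeries k)}
    {ℓ : St (ι ⊕ ℕ) (LaurentSeries k)} (h : LL b g ℓ) (hg : g * g' = 1) : LL b g' ℓ⁻¹ := by
  obtain ⟨β, γ, l, c, hβ, hl, hg1, hc, hd, rfl⟩ := h
  refine ⟨β, γ⁻¹, l⁻¹, c⁻¹, hβ, Lft_inv hl, ?_, Subgroup.inv_mem _ hc, ?_, ?_⟩
  · have h0 : (b : Matrix ι ι (LaurentSeries k)) *
        (((γ⁻¹ : GL ι (PowerSeries k)) : Matrix ι ι (PowerSeries k)).map (iO k)) *
        ((b⁻¹ : GL ι (LaurentSeries k)) : Matrix ι ι (LaurentSeries k)) * g = 1 := by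
      rw [hg1]
      simp only [Matrix.mul_assoc]
      rw [GL_cancel_left, ← Matrix.mul_assoc (((γ⁻¹ : GL ι (PowerSeries k)) :
        Matrix ι ι (PowerSeries k)).map (iO k)), ← Matrix.map_mul, GL_inv_mul,
        Matrix.map_one _ (map_zero _) (map_one _), Matrix.one_mul, GL_mul_inv]
    calc g' = 1 * g' := (Matrix.one_mul _).symm
      _ = _ := by rw [← h0, Matrix.mul_assoc _ g g', hg, Matrix.mul_one]
  · rw [del_inv hc, hd, inv_one]
  · have h3 := K2_central (Subgroup.inv_mem _ hc) (β * (map (iO k) l)⁻¹ * β⁻¹)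
    rw [map_inv, ← h3]
    group

theorem LL_one {b : GL ι (LaurentSeries k)} : LL b 1 1 := by
  obtain ⟨β, hβ⟩ := exists_Lft' 0 b
  refine ⟨β, 1, 1, 1, hβ, Lft_one 1, ?_, Subgroup.one_mem _, del_one, ?_⟩
  · rw [Units.val_one, Matrix.map_one _ (map_zero _) (map_one _), Matrix.mul_one, GL_mul_inv]
  · rw [map_one]
    group

/-- unipotent elements -/
theorem LL_Lam {b : GL ι (LaurentSeries k)} {b' : GL κ (LaurentSeries k)}
    {A : Matrix ι κ (LaurentSeries k)} {B : Matrix κ ι (LaurentSeries k)} (hA : LI b b' A)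
    (hB : LI b' b B) (h : B * A = 0) : LL b (1 + A * B) (Lam A B) := by
  obtain ⟨A₀, hA₀⟩ := hA
  obtain ⟨B₀, hB₀⟩ := hB
  have h0 : B₀ * A₀ = 0 := by
    apply map_iO_inj
    rw [Matrix.map_mul, Matrix.map_zero _ (map_zero _)]
    rw [hA₀, hB₀] at h
    have h2 := congrArg (fun N => ((b'⁻¹ : GL κ (LaurentSeries k)) :
      Matrix κ κ (LaurentSeries k)) * (N * (b' : Matrix κ κ (LaurentSeries k)))) h
    simp only [Matrix.mul_assoc, Matrix.zero_mul, Matrix.mul_zero] at h2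
    rw [GL_inv_mul, Matrix.mul_one, GL_cancel_left, GL_cancel_left] at h2
    exact h2
  have h1 : (1 + A₀ * B₀) * (1 - A₀ * B₀) = 1 := by
    have h2 : A₀ * B₀ * (A₀ * B₀) = 0 := by
      rw [Matrix.mul_assoc, ← Matrix.mul_assoc B₀, h0, Matrix.zero_mul, Matrix.mul_zero]
    rw [Matrix.add_mul, Matrix.one_mul, Matrix.mul_sub, Matrix.mul_one, h2]
    abel
  obtain ⟨β, hβ⟩ := exists_Lft' 0 b
  refine ⟨β, ⟨1 + A₀ * B₀, 1 - A₀ * B₀, h1, mul_eq_one_comm.1 h1⟩, Lam A₀ B₀, 1, hβ,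
    Lft_Lam 1 A₀ B₀ h0 _ rfl, ?_, Subgroup.one_mem _, del_one, ?_⟩
  · change _ = _ * (1 + A₀ * B₀).map (iO k) * _
    rw [Matrix.map_add _ (map_add (iO k)), Matrix.map_one _ (map_zero _) (map_one _),
      Matrix.map_mul, Matrix.mul_add, Matrix.add_mul, Matrix.mul_one, GL_mul_inv, hA₀, hB₀]
    simp only [Matrix.mul_assoc]
    rw [GL_cancel_left]
  · have h3 : B₀.map (iO k) * A₀.map (iO k) = 0 := by
      rw [← Matrix.map_mul, h0, Matrix.map_zero _ (map_zero _)]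
    rw [mul_one, map_Lam (iO k) A₀ B₀ h0, conj_Lam hβ _ _ h3, hA₀, hB₀, Lam_mul]
    · congr 1
      simp only [Matrix.mul_assoc]
      rw [GL_cancel_left]
    · simp only [Matrix.mul_assoc]
      rw [GL_cancel_left, h3, Matrix.mul_zero]

/-- change of the basis of the lattice -/
theorem LL_change {b : GL ι (LaurentSeries k)} (u : GL ι (PowerSeries k))
    {g : Matrix ι ι (LaurentSeries k)} {ℓ : St (ι ⊕ ℕ) (LaurentSeries k)} (h : LL b g ℓ) :
    LL (b * Matrix.GeneralLinearGroup.map (iO k) u) g ℓ := by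
  obtain ⟨β, γ, l, c, hβ, hl, hg, hc, hd, rfl⟩ := h
  obtain ⟨υ, hυ⟩ := exists_Lft' 0 u
  refine ⟨β * map (iO k) υ, u⁻¹ * γ * u⁻¹⁻¹, υ⁻¹ * l * υ⁻¹⁻¹, c, Lft_mul hβ (Lft_map (iO k) hυ),
    Lft_conj hl (Lft_inv hυ), ?_, hc, hd, ?_⟩
  · rw [hg, _root_.mul_inv_rev, ← map_inv, Units.val_mul, Units.val_mul, Units.val_mul, Units.val_mul,
      coe_mapG, coe_mapG, inv_inv, Matrix.map_mul, Matrix.map_mul]
    have h1 : (u : Matrix ι ι (PowerSeries k)).map (iO k) *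
        ((u⁻¹ : GL ι (PowerSeries k)) : Matrix ι ι (PowerSeries k)).map (iO k) = 1 := by
      rw [← Matrix.map_mul, GL_mul_inv, Matrix.map_one _ (map_zero _) (map_one _)]
    have h2 : ∀ N : Matrix ι ι (LaurentSeries k), (u : Matrix ι ι (PowerSeries k)).map (iO k) *
        (((u⁻¹ : GL ι (PowerSeries k)) : Matrix ι ι (PowerSeries k)).map (iO k) * N) = N := by
      intro N
      rw [← Matrix.mul_assoc, h1, Matrix.one_mul]
    simp only [Matrix.mul_assoc]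
    rw [h2, h2]
  · simp only [map_mul, map_inv]
    group

/-- change of the basis of the vector space, `H` lifts `h` with auxiliary coordinate `inr 0` -/
theorem LL_basis {b h : GL ι (LaurentSeries k)} {g : Matrix ι ι (LaurentSeries k)}
    {ℓ H : St (ι ⊕ ℕ) (LaurentSeries k)} (hℓ : LL b g ℓ) (hH : Lft 0 h H) :
    LL (h⁻¹ * b) (((h⁻¹ : GL ι (LaurentSeries k)) : Matrix ι ι (LaurentSeries k)) * g *
      (h : Matrix ι ι (LaurentSeries k))) (H⁻¹ * ℓ * H) := by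
  obtain ⟨β, γ, l, c, hβ, hl, hg, hc, hd, rfl⟩ := hℓ
  refine ⟨H⁻¹ * β, γ, l, c, Lft_mul (Lft_inv hH) hβ, hl, ?_, hc, hd, ?_⟩
  · rw [hg, _root_.mul_inv_rev, inv_inv, Units.val_mul, Units.val_mul]
    simp only [Matrix.mul_assoc]
  · have h3 := K2_central hc H
    calc H⁻¹ * (β * map (iO k) l * β⁻¹ * c) * H
        = H⁻¹ * (β * map (iO k) l * β⁻¹) * (c * H) := by group
      _ = H⁻¹ * (β * map (iO k) l * β⁻¹) * (H * c) := by rw [h3]
      _ = H⁻¹ * β * map (iO k) l * (H⁻¹ * β)⁻¹ * c := by group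

theorem LL_E1 {b : GL ι (LaurentSeries k)} (b' : GL κ (LaurentSeries k))
    {g : Matrix ι ι (LaurentSeries k)} {ℓ : St (ι ⊕ ℕ) (LaurentSeries k)} (h : LL b g ℓ) :
    LL (bd b b') (Matrix.fromBlocks g 0 0 1) (E1 κ ℓ) := by
  obtain ⟨β, γ, l, c, hβ, hl, hg, hc, hd, rfl⟩ := h
  obtain ⟨β₁, hβ₁⟩ := exists_Lft' 0 b'
  refine ⟨E1 κ β * E2 ι β₁, bd γ 1, E1 κ l, E1 κ c, Lft_E12 hβ hβ₁, Lft_E1 hl, ?_,
    emb_mem_K2 _ _ hc, (del_emb _ _ hc).trans hd, ?_⟩
  · rw [coe_bd, coe_bd_inv, coe_bd, Matrix.fromBlocks_map, Matrix.fromBlocks_multiply,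
      Matrix.fromBlocks_multiply, Units.val_one, Matrix.map_one _ (map_zero _) (map_one _),
      Matrix.map_zero _ (map_zero _), Matrix.map_zero _ (map_zero _)]
    simp only [Matrix.zero_mul, Matrix.mul_zero, add_zero, zero_add, Matrix.mul_one]
    rw [← hg, GL_mul_inv]
  · have h1 : Commute (E1 κ (map (iO k) l)) (E2 ι β₁) :=
      commute_E (Nat.one_ne_zero) (Lft_map (iO k) hl) hβ₁
    have h2 : E2 ι β₁ * E1 κ (map (iO k) l) = E1 κ (map (iO k) l) * E2 ι β₁ := h1.symm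
    rw [map_E1]
    simp only [map_mul, map_inv]
    calc E1 κ β * E1 κ (map (iO k) l) * (E1 κ β)⁻¹ * E1 κ c
        = E1 κ β * (E1 κ (map (iO k) l) * E2 ι β₁) * (E2 ι β₁)⁻¹ * (E1 κ β)⁻¹ * E1 κ c := by
          group
      _ = E1 κ β * (E2 ι β₁ * E1 κ (map (iO k) l)) * (E2 ι β₁)⁻¹ * (E1 κ β)⁻¹ * E1 κ c := by
          rw [h2]
      _ = E1 κ β * E2 ι β₁ * E1 κ (map (iO k) l) * (E1 κ β * E2 ι β₁)⁻¹ * E1 κ c := by
          group

theorem LL_E2 (b : GL ι (LaurentSeries k)) {b' : GL κ (LaurentSeries k)}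
    {g : Matrix κ κ (LaurentSeries k)} {ℓ : St (κ ⊕ ℕ) (LaurentSeries k)} (h : LL b' g ℓ) :
    LL (bd b b') (Matrix.fromBlocks 1 0 0 g) (E2 ι ℓ) := by
  obtain ⟨β, γ, l, c, hβ, hl, hg, hc, hd, rfl⟩ := h
  obtain ⟨β₀, hβ₀⟩ := exists_Lft' 0 b
  refine ⟨E1 κ β₀ * E2 ι β, bd 1 γ, E2 ι l, E2 ι c, Lft_E12 hβ₀ hβ, Lft_E2 hl, ?_,
    emb_mem_K2 _ _ hc, (del_emb _ _ hc).trans hd, ?_⟩
  · rw [coe_bd, coe_bd_inv, coe_bd, Matrix.fromBlocks_map, Matrix.fromBlocks_multiply,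
      Matrix.fromBlocks_multiply, Units.val_one, Matrix.map_one _ (map_zero _) (map_one _),
      Matrix.map_zero _ (map_zero _), Matrix.map_zero _ (map_zero _)]
    simp only [Matrix.zero_mul, Matrix.mul_zero, add_zero, zero_add, Matrix.mul_one]
    rw [← hg, GL_mul_inv]
  · have h1 : Commute (E1 κ β₀) (E2 ι (β * map (iO k) l * β⁻¹)) :=
      commute_E (Nat.zero_ne_one) hβ₀ (LL_core hβ hl)
    have h2 : E1 κ β₀ * E2 ι (β * map (iO k) l * β⁻¹) =
        E2 ι (β * map (iO k) l * β⁻¹) * E1 κ β₀ := h1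
    rw [map_E2]
    calc E2 ι (β * map (iO k) l * β⁻¹ * c)
        = E2 ι (β * map (iO k) l * β⁻¹) * E1 κ β₀ * (E1 κ β₀)⁻¹ * E2 ι c := by
          rw [map_mul]
          group
      _ = E1 κ β₀ * E2 ι (β * map (iO k) l * β⁻¹) * (E1 κ β₀)⁻¹ * E2 ι c := by
          rw [h2]
      _ = E1 κ β₀ * E2 ι β * E2 ι (map (iO k) l) * (E1 κ β₀ * E2 ι β)⁻¹ * E2 ι c := by
          simp only [map_mul, map_inv]
          group

theorem LL_Up {b : GL ι (LaurentSeries k)} {b' : GL κ (LaurentSeries k)}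
    {M : Matrix ι κ (LaurentSeries k)} (h : LI b b' M) :
    LL (bd b b') (Matrix.fromBlocks 1 M 0 1) (Up M) := by
  obtain ⟨M₀, hM₀⟩ := h
  have hA : LI (bd b b') b' (Matrix.fromRows M (0 : Matrix κ κ (LaurentSeries k))) := by
    refine ⟨Matrix.fromRows M₀ 0, ?_⟩
    rw [coe_bd, Matrix.fromRows_map, Matrix.map_zero _ (map_zero _),
      Matrix.fromBlocks_mul_fromRows, Matrix.fromRows_mul, hM₀]
    simp only [Matrix.zero_mul, Matrix.mul_zero, add_zero, zero_add]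
  have hB : LI b' (bd b b') (Matrix.fromCols (0 : Matrix κ ι (LaurentSeries k)) 1) := by
    refine ⟨Matrix.fromCols 0 1, ?_⟩
    rw [coe_bd_inv, Matrix.fromCols_map, Matrix.map_zero _ (map_zero _),
      Matrix.map_one _ (map_zero _) (map_one _), Matrix.mul_fromCols,
      Matrix.fromCols_mul_fromBlocks]
    simp only [Matrix.zero_mul, Matrix.mul_zero, add_zero, zero_add, Matrix.mul_one]
    rw [GL_mul_inv]
  have h1 := LL_Lam hA hB (by
    rw [Matrix.fromCols_mul_fromRows]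
    simp)
  have h2 : 1 + Matrix.fromRows M (0 : Matrix κ κ (LaurentSeries k)) *
      Matrix.fromCols (0 : Matrix κ ι (LaurentSeries k)) 1 = Matrix.fromBlocks 1 M 0 1 := by
    rw [Matrix.fromRows_mul_fromCols, ← Matrix.fromBlocks_one, Matrix.fromBlocks_add]
    simp
  rw [h2] at h1
  exact h1

theorem LL_Lo {b : GL ι (LaurentSeries k)} {b' : GL κ (LaurentSeries k)}
    {M : Matrix κ ι (LaurentSeries k)} (h : LI b' b M) :
    LL (bd b b') (Matrix.fromBlocks 1 0 M 1) (Lo M) := by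
  obtain ⟨M₀, hM₀⟩ := h
  have hA : LI (bd b b') b (Matrix.fromRows (0 : Matrix ι ι (LaurentSeries k)) M) := by
    refine ⟨Matrix.fromRows 0 M₀, ?_⟩
    rw [coe_bd, Matrix.fromRows_map, Matrix.map_zero _ (map_zero _),
      Matrix.fromBlocks_mul_fromRows, Matrix.fromRows_mul, hM₀]
    simp only [Matrix.zero_mul, Matrix.mul_zero, add_zero, zero_add]
  have hB : LI b (bd b b') (Matrix.fromCols (1 : Matrix ι ι (LaurentSeries k)) 0) := by
    refine ⟨Matrix.fromCols 1 0, ?_⟩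
    rw [coe_bd_inv, Matrix.fromCols_map, Matrix.map_zero _ (map_zero _),
      Matrix.map_one _ (map_zero _) (map_one _), Matrix.mul_fromCols,
      Matrix.fromCols_mul_fromBlocks]
    simp only [Matrix.zero_mul, Matrix.mul_zero, add_zero, zero_add, Matrix.mul_one]
    rw [GL_mul_inv]
  have h1 := LL_Lam hA hB (by
    rw [Matrix.fromCols_mul_fromRows]
    simp)
  have h2 : 1 + Matrix.fromRows (0 : Matrix ι ι (LaurentSeries k)) M *
      Matrix.fromCols (1 : Matrix ι ι (LaurentSeries k)) (0 : Matrix ι κ (LaurentSeries k)) =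
        Matrix.fromBlocks 1 0 M 1 := by
    rw [Matrix.fromRows_mul_fromCols, ← Matrix.fromBlocks_one, Matrix.fromBlocks_add]
    simp
  rw [h2] at h1
  exact h1

/-- reindexing of invertible matrices -/
def rx {R : Type*} [CommRing R] (e : ι ≃ κ) (g : GL ι R) : GL κ R where
  val := (g : Matrix ι ι R).reindex e e
  inv := ((g⁻¹ : GL ι R) : Matrix ι ι R).reindex e e
  val_inv := by
    rw [Matrix.reindex_apply, Matrix.reindex_apply, Matrix.submatrix_mul_equiv, GL_mul_inv,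
      Matrix.submatrix_one_equiv]
  inv_val := by
    rw [Matrix.reindex_apply, Matrix.reindex_apply, Matrix.submatrix_mul_equiv, GL_inv_mul,
      Matrix.submatrix_one_equiv]

theorem coe_rx {R : Type*} [CommRing R] (e : ι ≃ κ) (g : GL ι R) :
    ((rx e g : GL κ R) : Matrix κ κ R) = (g : Matrix ι ι R).reindex e e := rfl

theorem coe_rx_inv {R : Type*} [CommRing R] (e : ι ≃ κ) (g : GL ι R) :
    (((rx e g)⁻¹ : GL κ R) : Matrix κ κ R) = ((g⁻¹ : GL ι R) : Matrix ι ι R).reindex e e := rfl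

theorem mapDomain_ev {R : Type*} [CommRing R] (e : ι ≃ κ) (v : ι → R) :
    (ev v).mapDomain (Sum.map e (id : ℕ → ℕ)) = ev (v ∘ e.symm) := by
  unfold ev
  rw [Finsupp.mapDomain_finsetSum]
  refine Fintype.sum_equiv e _ _ fun i => ?_
  rw [Finsupp.mapDomain_single, Function.comp_apply, Equiv.symm_apply_apply]
  rfl

theorem Lft_rx {R : Type*} [CommRing R] {n : ℕ} {g : GL ι R} {s : St (ι ⊕ ℕ) R} (h : Lft n g s)
    (e : ι ≃ κ) (he : Function.Injective (Sum.map e (id : ℕ → ℕ))) :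
    Lft n (rx e g) (emb (Sum.map e (id : ℕ → ℕ)) he s) := by
  constructor
  · intro v
    have h1 : (ev v : (κ ⊕ ℕ) →₀ R) = (ev (v ∘ e)).mapDomain (Sum.map e (id : ℕ → ℕ)) := by
      rw [mapDomain_ev]
      congr 1
      funext i
      simp
    rw [h1, phi_emb, h.1, mapDomain_ev]
    congr 1
    rw [coe_rx, Matrix.reindex_apply, Matrix.submatrix_mulVec_equiv]
    rfl
  · intro m
    have h1 : (Finsupp.single (Sum.inr m) 1 : (κ ⊕ ℕ) →₀ R) =
        (Finsupp.single (Sum.inr m) 1 : (ι ⊕ ℕ) →₀ R).mapDomain (Sum.map e (id : ℕ → ℕ)) := by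
      rw [Finsupp.mapDomain_single]
      rfl
    have hdet : Matrix.GeneralLinearGroup.det (rx e g) = Matrix.GeneralLinearGroup.det g := by
      apply Units.ext
      rw [Matrix.GeneralLinearGroup.val_det_apply, Matrix.GeneralLinearGroup.val_det_apply,
        coe_rx, Matrix.det_reindex_self]
    rw [h1, phi_emb, h.2, Finsupp.mapDomain_single, hdet]
    rfl

/-- reindexing -/
theorem LL_reindex {b : GL ι (LaurentSeries k)} {g : Matrix ι ι (LaurentSeries k)}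
    {ℓ : St (ι ⊕ ℕ) (LaurentSeries k)} (h : LL b g ℓ) (e : ι ≃ κ)
    (he : Function.Injective (Sum.map e (id : ℕ → ℕ))) (b' : GL κ (LaurentSeries k))
    (hb : (b' : Matrix κ κ (LaurentSeries k)) = (b : Matrix ι ι (LaurentSeries k)).reindex e e) :
    LL b' (g.reindex e e) (emb (Sum.map e (id : ℕ → ℕ)) he ℓ) := by
  have hb' : b' = rx e b := Units.ext hb
  subst hb'
  obtain ⟨β, γ, l, c, hβ, hl, hg, hc, hd, rfl⟩ := h
  refine ⟨emb (Sum.map e (id : ℕ → ℕ)) he β, rx e γ, emb (Sum.map e (id : ℕ → ℕ)) he l,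
    emb (Sum.map e (id : ℕ → ℕ)) he c, Lft_rx hβ e he, Lft_rx hl e he, ?_,
    emb_mem_K2 _ _ hc, (del_emb _ _ hc).trans hd, ?_⟩
  · rw [coe_rx, coe_rx_inv, coe_rx, hg, Matrix.reindex_apply, Matrix.reindex_apply,
      Matrix.reindex_apply, Matrix.reindex_apply]
    have h1 : ((γ : Matrix ι ι (PowerSeries k)).submatrix e.symm e.symm).map (iO k) =
        ((γ : Matrix ι ι (PowerSeries k)).map (iO k)).submatrix e.symm e.symm := rfl
    rw [h1, Matrix.submatrix_mul_equiv, Matrix.submatrix_mul_equiv]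
  · have h1 : map (iO k) (emb (Sum.map e (id : ℕ → ℕ)) he l) =
        emb (Sum.map e (id : ℕ → ℕ)) he (map (iO k) l) := by
      have h : (map (iO k)).comp (emb (Sum.map e (id : ℕ → ℕ)) he) =
          (emb (Sum.map e (id : ℕ → ℕ)) he).comp (map (iO k)) := by
        refine hom_ext fun i j a => ?_
        simp only [MonoidHom.comp_apply, emb_x, map_x]
      exact DFunLike.congr_fun h l
    rw [h1]
    simp only [map_mul, map_inv]

end MSK
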