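import Pool.Agent.MSK.Lam

/-! MSK / Lmu: over a field a product of orthogonal transvections is determined by its action.

PROOF. `LamF_eq_one`: let `z` be a basis (finite, `Module.finBasis` or `exists_linearIndependent`) of the span of the `A m`; `A m = ∑_a c a m • z a`
with `z a` in the span, so `Ort z B`. By `LamF_mul`: `LamF A B = LamF z B'`, `B' a = ∑_m c a m • B m`. `phi = 1` gives `∑_a dot (B' a) u • z a = 0` for
all `u`, so `dot (B' a) u = 0` by linear independence, `u = single j 1`: `B' a = 0`, and `LamF z 0 = 1` (`LamF_zero_right`).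
`LamF_unique`: apply it to `Sum.elim A (-A')`, `Sum.elim B B'` (`LamF_sum`, `LamF_neg_left`). -/

set_option autoImplicit false
set_option linter.unusedVariables false

namespace MSK

variable {J : Type*} {K : Type*} [Field K] [DecidableEq J] [Infinite J]
  {κ κ' : Type*} [Fintype κ] [Fintype κ']

omit [DecidableEq J] [Infinite J] in
private theorem exists_basis_aux {V : Type*} [AddCommGroup V] [Module K V] (A : κ → V) :
    ∃ (d : ℕ) (z : Fin d → V) (c : Fin d → κ → K), LinearIndependent K z ∧
      (∀ a, z a ∈ Submodule.span K (Set.range A)) ∧ ∀ m, ∑ a, c a m • z a = A m := by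
  have hfd : FiniteDimensional K (Submodule.span K (Set.range A)) :=
    FiniteDimensional.span_of_finite K (Set.finite_range A)
  have b := Module.finBasis K (Submodule.span K (Set.range A))
  have hA : ∀ m, A m ∈ Submodule.span K (Set.range A) := fun m => Submodule.subset_span ⟨m, rfl⟩
  refine ⟨_, fun a => (b a : V), fun a m => b.repr ⟨A m, hA m⟩ a, ?_, fun a => (b a).2, fun m => ?_⟩
  · exact b.linearIndependent.map' (Submodule.subtype _) (Submodule.ker_subtype _)
  · have h2 := congrArg (Submodule.subtype _) (b.sum_repr ⟨A m, hA m⟩)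
    rw [map_sum] at h2
    refine Eq.trans (Finset.sum_congr rfl fun a _ => ?_) h2
    rw [map_smul]
    rfl

omit [Infinite J] [DecidableEq J] in
private theorem dot_sum_left {α : Type*} (s : Finset α) (B : α → J →₀ K) (v : J →₀ K) :
    dot (∑ a ∈ s, B a) v = ∑ a ∈ s, dot (B a) v := by
  classical
  induction s using Finset.induction_on with
  | empty => rw [Finset.sum_empty, Finset.sum_empty, dot_zero_left]
  | insert a s ha ih => rw [Finset.sum_insert ha, Finset.sum_insert ha, dot_add_left, ih]

omit [Infinite J] in
private theorem dot_neg_right (w v : J →₀ K) : dot w (-v) = - dot w v := by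
  rw [← neg_one_smul K v, dot_smul_right, neg_one_mul]

omit [Infinite J] [Fintype κ] in
private theorem dot_span (A B : κ → J →₀ K) (h : Ort A B) {z : J →₀ K}
    (hz : z ∈ Submodule.span K (Set.range A)) (m : κ) : dot (B m) z = 0 := by
  induction hz using Submodule.span_induction with
  | mem x hx =>
    obtain ⟨m', rfl⟩ := hx
    exact h m' m
  | zero => exact dot_zero_right _
  | add x y _ _ hx hy => rw [dot_add_right, hx, hy, add_zero]
  | smul a x _ hx => rw [dot_smul_right, hx, mul_zero]

theorem LamF_eq_one (A B : κ → J →₀ K) (h : Ort A B) (h1 : phi (LamF A B) = 1) :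
    LamF A B = 1 := by
  classical
  obtain ⟨d, z, c, hli, hz, hAc⟩ := exists_basis_aux (K := K) A
  have hzB : Ort z B := fun a m => dot_span A B h (hz a) m
  have hzB' : Ort z (fun a => ∑ m, c a m • B m) := by
    intro a a'
    rw [dot_sum_left]
    exact Finset.sum_eq_zero fun m _ => by rw [dot_smul_left, hzB a m, mul_zero]
  have h3 : LamF A B = LamF z (fun a => ∑ m, c a m • B m) := by
    rw [← LamF_mul c z B hzB]
    congr 1
    funext m
    exact (hAc m).symm
  rw [h3] at h1 ⊢
  have h5 : ∀ a, (∑ m, c a m • B m) = 0 := by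
    intro a
    ext j
    have h6 := phi_LamF z _ hzB' (Finsupp.single j 1)
    rw [h1, LinearEquiv.coe_one, id_eq, left_eq_add] at h6
    have h7 := Fintype.linearIndependent_iff.1 hli _ h6 a
    rwa [dot_single_right, mul_one] at h7
  have h8 : (fun a => ∑ m, c a m • B m) = fun _ => (0 : J →₀ K) := funext h5
  rw [h8, LamF_zero_right]

theorem LamF_unique (A B : κ → J →₀ K) (A' B' : κ' → J →₀ K) (h : Ort A B) (h' : Ort A' B')
    (h1 : Ort A B') (h2 : Ort A' B) (he : phi (LamF A B) = phi (LamF A' B')) :
    LamF A B = LamF A' B' := by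
  have hn' : Ort (fun m => -A' m) B' := fun m m' => by rw [dot_neg_right, h' m m', neg_zero]
  have hn2 : Ort (fun m => -A' m) B := fun m m' => by rw [dot_neg_right, h2 m m', neg_zero]
  have h3 : LamF (Sum.elim A fun m => -A' m) (Sum.elim B B') = LamF A B * (LamF A' B')⁻¹ := by
    rw [LamF_sum A B _ B' h hn' h1 hn2, LamF_neg_left A' B' h']
  have h4 : Ort (Sum.elim A fun m => -A' m) (Sum.elim B B') := by
    rintro (m | m) (m' | m')
    · exact h m m'
    · exact h1 m m'
    · exact hn2 m m'
    · exact hn' m m'
  have h5 := LamF_eq_one _ _ h4 (by rw [h3, map_mul, map_inv, he, mul_inv_cancel])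
  rw [h3] at h5
  exact mul_inv_eq_one.1 h5

end MSK
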