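import Pool.Agent.MSK.Fr

/-! MSK / Lp: the projection of Laurent series to power series and the Toeplitz operators `Tf f g = P₊(f g)`.

PROOFS. All by coefficients. `Tf_mul_iO`: `Tf f (g h) = Tf (f iO g) h`. `FR_defect`: the map `h ↦ f * iO h - iO (Tf f h)` has image in the
Laurent series with coefficients supported in `[-N, -1]`, `N` minus the order of `f`: a space of dimension `≤ N` (contained in the
span of finitely many `single n 1`). `FR_Tf_mul`: `Tf f (Tf g h) - Tf (f g) h = P₊(f (iO (Tf g h) - g iO h))`: composition of the previous map with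
`P₊ (f ·)`. -/

set_option autoImplicit false
set_option linter.unusedVariables false

namespace MSK

variable {k : Type*} [Field k]

/-- the inclusion of power series in Laurent series -/
noncomputable def iO (k : Type*) [Field k] : PowerSeries k →+* LaurentSeries k :=
  HahnSeries.ofPowerSeries ℤ k

theorem iO_injective : Function.Injective (iO k) :=
  HahnSeries.ofPowerSeries_injective

theorem coeff_iO (g : PowerSeries k) (n : ℕ) : (iO k g).coeff (n : ℤ) = PowerSeries.coeff n g := by
  unfold iO
  exact HahnSeries.ofPowerSeries_apply_coeff g n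

theorem coeff_iO_neg (g : PowerSeries k) (n : ℤ) (hn : n < 0) : (iO k g).coeff n = 0 := by
  unfold iO
  rw [HahnSeries.ofPowerSeries_apply, HahnSeries.embDomain_of_notMem_range]
  simp only [Nat.castOrderEmbedding_apply, Set.mem_range]
  rintro ⟨m, hm⟩
  lia

theorem ls_ext {f g : LaurentSeries k} (h0 : ∀ n : ℕ, f.coeff (n : ℤ) = g.coeff (n : ℤ))
    (h1 : ∀ n : ℤ, n < 0 → f.coeff n = g.coeff n) : f = g := by
  ext n
  rcases lt_or_ge n 0 with hn | hn
  · exact h1 n hn
  · obtain ⟨m, rfl⟩ := Int.eq_ofNat_of_zero_le hn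
    exact h0 m

theorem iO_C_smul (a : k) (g : PowerSeries k) : iO k (a • g) = a • iO k g := by
  refine ls_ext (fun n => ?_) (fun n hn => ?_)
  · rw [coeff_iO, HahnSeries.coeff_smul, coeff_iO]
    simp
  · rw [coeff_iO_neg _ _ hn, HahnSeries.coeff_smul, coeff_iO_neg _ _ hn, smul_zero]

theorem mul_smul_ls (a : k) (f g : LaurentSeries k) : f * (a • g) = a • (f * g) := by
  have h : ∀ u : LaurentSeries k, a • u = HahnSeries.C a * u := fun u =>
    (HahnSeries.C_mul_eq_smul).symm
  rw [h, h, mul_left_comm]

/-- projection to the part of non negative degree -/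
noncomputable def Pp (k : Type*) [Field k] : LaurentSeries k →ₗ[k] PowerSeries k where
  toFun f := PowerSeries.mk fun n => f.coeff (n : ℤ)
  map_add' f g := by
    ext n
    simp
  map_smul' a f := by
    ext n
    simp

@[simp] theorem coeff_Pp (f : LaurentSeries k) (n : ℕ) :
    PowerSeries.coeff n (Pp k f) = f.coeff (n : ℤ) := by
  simp [Pp]

theorem Pp_iO (g : PowerSeries k) : Pp k (iO k g) = g := by
  ext n
  rw [coeff_Pp, coeff_iO]

/-- the Toeplitz operator -/
noncomputable def Tf (f : LaurentSeries k) : PowerSeries k →ₗ[k] PowerSeries k where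
  toFun g := Pp k (f * iO k g)
  map_add' g g' := by
    rw [map_add, mul_add, map_add]
  map_smul' a g := by
    rw [iO_C_smul, mul_smul_ls, map_smul]
    rfl

theorem Tf_apply (f : LaurentSeries k) (g : PowerSeries k) : Tf f g = Pp k (f * iO k g) := rfl

theorem Tf_add (f f' : LaurentSeries k) : Tf (f + f') = Tf f + Tf f' := by
  refine LinearMap.ext fun g => ?_
  rw [LinearMap.add_apply, Tf_apply, Tf_apply, Tf_apply, add_mul, map_add]

theorem Tf_zero : Tf (0 : LaurentSeries k) = 0 := by
  refine LinearMap.ext fun g => ?_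
  rw [LinearMap.zero_apply, Tf_apply, zero_mul, map_zero]

theorem Tf_neg (f : LaurentSeries k) : Tf (-f) = - Tf f := by
  refine LinearMap.ext fun g => ?_
  rw [LinearMap.neg_apply, Tf_apply, Tf_apply, neg_mul, map_neg]

/-- Toeplitz operators of power series are multiplications -/
theorem Tf_iO (f g : PowerSeries k) : Tf (iO k f) g = f * g := by
  rw [Tf_apply, ← map_mul, Pp_iO]

/-- the defect map as a linear map -/
noncomputable def defect (f : LaurentSeries k) : PowerSeries k →ₗ[k] LaurentSeries k where
  toFun g := f * iO k g - iO k (Tf f g)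
  map_add' g g' := by
    rw [map_add, mul_add, map_add, map_add]; abel
  map_smul' a g := by
    rw [iO_C_smul, mul_smul_ls, map_smul, iO_C_smul, smul_sub]
    rfl

theorem defect_apply (f : LaurentSeries k) (g : PowerSeries k) :
    defect f g = f * iO k g - iO k (Tf f g) := rfl

theorem coeff_mul_iO_lt (f : LaurentSeries k) (g : PowerSeries k) (n : ℤ) (hn : n < f.order) :
    (f * iO k g).coeff n = 0 := by
  have h1 : f * iO k g = HahnSeries.single f.order (1 : k) * iO k (f.powerSeriesPart * g) := by
    rw [map_mul, ← mul_assoc]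
    congr 1
    exact (LaurentSeries.single_order_mul_powerSeriesPart f).symm
  rw [h1, HahnSeries.coeff_single_mul, one_mul]
  exact coeff_iO_neg _ _ (by lia)

theorem coeff_defect_nonneg (f : LaurentSeries k) (g : PowerSeries k) (n : ℕ) :
    (defect f g).coeff (n : ℤ) = 0 := by
  rw [defect_apply, HahnSeries.coeff_sub, coeff_iO, Tf_apply, coeff_Pp, sub_self]

theorem coeff_defect_lt (f : LaurentSeries k) (g : PowerSeries k) (n : ℤ) (hn : n < f.order)
    (hn' : n < 0) : (defect f g).coeff n = 0 := by
  rw [defect_apply, HahnSeries.coeff_sub, coeff_iO_neg _ _ hn', coeff_mul_iO_lt _ _ _ hn, sub_self]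

theorem eq_sum_single (h : LaurentSeries k) (m : ℤ) (h0 : ∀ n : ℕ, h.coeff (n : ℤ) = 0)
    (h1 : ∀ n : ℤ, n < m → n < 0 → h.coeff n = 0) :
    h = ∑ i ∈ Finset.Ico m 0, h.coeff i • (HahnSeries.single i (1 : k) : LaurentSeries k) := by
  ext n
  rw [HahnSeries.coeff_sum]
  simp only [HahnSeries.coeff_smul, HahnSeries.coeff_single, smul_eq_mul, mul_ite, mul_one,
    mul_zero]
  rw [Finset.sum_ite_eq]
  split_ifs with hi
  · rfl
  · rcases lt_or_ge n 0 with hn | hn
    · apply h1 n _ hn
      by_contra hc
      exact hi (Finset.mem_Ico.mpr ⟨not_lt.mp hc, hn⟩)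
    · obtain ⟨j, rfl⟩ := Int.eq_ofNat_of_zero_le hn
      exact h0 j

theorem FR_defect (f : LaurentSeries k) : FR (defect f) := by
  classical
  let W : Submodule k (LaurentSeries k) :=
    Submodule.span k ((Finset.Ico f.order 0).image
      fun i => (HahnSeries.single i (1 : k) : LaurentSeries k) : Finset (LaurentSeries k))
  haveI : FiniteDimensional k W := FiniteDimensional.span_finset k _
  refine FR.of_le W fun v => ?_
  rw [eq_sum_single (defect f v) f.order (coeff_defect_nonneg f v)
    (fun n h1 h2 => coeff_defect_lt f v n h1 h2)]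
  refine Submodule.sum_mem _ fun i hi => Submodule.smul_mem _ _ (Submodule.subset_span ?_)
  exact Finset.mem_coe.mpr (Finset.mem_image_of_mem _ hi)

/-- multiplication by a Laurent series, followed by the projection -/
noncomputable def PM (f : LaurentSeries k) : LaurentSeries k →ₗ[k] PowerSeries k where
  toFun h := Pp k (f * h)
  map_add' g g' := by
    rw [mul_add, map_add]
  map_smul' a g := by
    rw [mul_smul_ls, map_smul]
    rfl

theorem PM_apply (f h : LaurentSeries k) : PM f h = Pp k (f * h) := rfl

theorem FR_Tf_mul (f g : LaurentSeries k) : FR (Tf f ∘ₗ Tf g - Tf (f * g)) := by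
  have h : Tf f ∘ₗ Tf g - Tf (f * g) = -(PM f ∘ₗ defect g) := by
    refine LinearMap.ext fun v => ?_
    rw [LinearMap.sub_apply, LinearMap.comp_apply, LinearMap.neg_apply, LinearMap.comp_apply,
      PM_apply, defect_apply, Tf_apply f, Tf_apply (f * g), mul_sub, map_sub, mul_assoc]
    abel
  rw [h]
  exact ((FR_defect g).comp_left (PM f)).neg

/-- every non zero Laurent series is a power of the variable times a unit of `k⟦X⟧` -/
theorem exists_unit_mul (f : (LaurentSeries k)ˣ) :
    ∃ (n : ℤ) (u : (PowerSeries k)ˣ),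
      (f : LaurentSeries k) = HahnSeries.single n (1 : k) * iO k (u : PowerSeries k) := by
  have hf : (f : LaurentSeries k) ≠ 0 := f.ne_zero
  have hu : IsUnit (f : LaurentSeries k).powerSeriesPart := by
    rw [PowerSeries.isUnit_iff_constantCoeff, isUnit_iff_ne_zero,
      ← PowerSeries.coeff_zero_eq_constantCoeff_apply, LaurentSeries.powerSeriesPart_coeff]
    simpa using hf
  refine ⟨(f : LaurentSeries k).order, hu.unit, ?_⟩
  rw [IsUnit.unit_spec]
  exact (LaurentSeries.single_order_mul_powerSeriesPart (f : LaurentSeries k)).symm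

end MSK
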