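import Pool.Agent.MSK.Lls
import Pool.Agent.MSK.Ctr

/-! MSK / Lv: the local value of a complex.

`𝕂 = LaurentSeries k`. `L0` lifts `1 - D1 Δ0` (on `P₀`), `L1` lifts `1 + D0 Δ1` (on `P₁`), see `IsC.A0_eq`, `IsC.A1_eq`, `IsC.pi_change`.
`Lo2 b b' D0 D1 t0 t1`: `t` is a local contraction (everything comes from `k⟦X⟧` in the bases `b`, `b'` of the lattices).
`LV b D0 D1 s0 s1 P z`: local value of the (square) complex `D` with lattice `b` on both sides, contraction `s` over the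
field, lift `P` of `D1 + s1`: `z = df (L0 ℓ L1) P`, where `t` is a local contraction and `ℓ` a local lift of `D1 + t1`.

PROOFS. `L0_trans` (field): by `Lam_unique`: the left side is `Lam (A) D0` with `A D0 = - D1 (s0' - r0)`; the right side is by `Lam_add_left` (if one replaces,
by `Lam_unique`, the first factor by `Lam (-(D1 (s0' - s0) r1)) D0`: the same action by `A0_eq`-type computation
`- D1 (s0' - s0) r1 D0 = - D1 (s0' - s0) (1 - D1 r0) = - D1 (s0' - s0)`, as `D1 (s0' - s0) D1 = 0`). Same for `L1_trans`.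
`LftM_total`: `L0 * ℓ * L1` lifts `D1 + s1` (`pi_change`), so `df` is defined.
`LV_unique`: let `t, ℓ` and `t', ℓ'` be two choices. `L0(t' - t) ℓ L1(t' - t)` is a local lift of `D1 + t1'` (`LL_Lam`, `LL_mul`, `pi_change`), so `df` of it and
`ℓ'` is `1` (`LL_df`). By `L0_trans`, `L1_trans` (`r = t, s = t', s' = s`): `L0(s - t) ℓ L1(s - t) = L0(s - t') (L0(t' - t) ℓ L1(t' - t)) L1(s - t')`; `df_mul`, `df_trans`.
`LV_change`: `L0(s' - t) = L0(s' - s) L0(s - t)`, `L1(s' - t) = L1(s - t) L1(s' - s)`; `df_mul`, `df_self`. `LV_mul_K2`: `df_mul_K2'`. `LV_df`: `df_trans`.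
`LV_direct`: `t = s`: `L0 = Lam 0 _ = 1`. -/

set_option autoImplicit false
set_option linter.unusedVariables false

namespace MSK

open Matrix

section L

variable {ι κ : Type*} [Fintype ι] [DecidableEq ι] [Fintype κ] [DecidableEq κ]
  {R : Type*} [CommRing R]

/-- lift of `1 - D1 Δ0` -/
noncomputable def L0 (D0 : Matrix κ ι R) (D1 : Matrix ι κ R) (s1 : Matrix ι κ R)
    (Δ0 : Matrix κ ι R) : St (ι ⊕ ℕ) R := Lam (-(D1 * Δ0 * s1)) D0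

/-- lift of `1 + D0 Δ1` -/
noncomputable def L1 (D0 : Matrix κ ι R) (D1 : Matrix ι κ R) (s0 : Matrix κ ι R)
    (Δ1 : Matrix ι κ R) : St (κ ⊕ ℕ) R := Lam (D0 * Δ1 * s0) D1

omit [DecidableEq κ] in
private theorem LftM_Lam (n : ℕ) (A : Matrix ι κ R) (B : Matrix κ ι R) (h : B * A = 0) :
    LftM n (1 + A * B) (Lam A B) := by
  have h0 : A * B * (A * B) = 0 := by
    rw [Matrix.mul_assoc A B, ← Matrix.mul_assoc B A, h, Matrix.zero_mul, Matrix.mul_zero]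
  have h1 : (1 + A * B) * (1 - A * B) = 1 := by
    rw [Matrix.add_mul, Matrix.mul_sub, Matrix.mul_sub, h0, Matrix.one_mul, Matrix.one_mul,
      Matrix.mul_one]
    abel
  have h2 : (1 - A * B) * (1 + A * B) = 1 := by
    rw [Matrix.mul_add, Matrix.sub_mul, Matrix.sub_mul, h0, Matrix.one_mul, Matrix.one_mul,
      Matrix.mul_one]
    abel
  exact ⟨⟨1 + A * B, 1 - A * B, h1, h2⟩, rfl, Lft_Lam n A B h _ rfl⟩

omit [DecidableEq ι] [DecidableEq κ] in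
private theorem D0_A0 {D0 : Matrix κ ι R} {D1 : Matrix ι κ R} (h : D0 * D1 = 0)
    (Δ0 : Matrix κ ι R) (s1 : Matrix ι κ R) : D0 * -(D1 * Δ0 * s1) = 0 := by
  rw [Matrix.mul_neg, Matrix.mul_assoc, ← Matrix.mul_assoc D0, h, Matrix.zero_mul, neg_zero]

omit [DecidableEq ι] [DecidableEq κ] in
private theorem D1_A1 {D0 : Matrix κ ι R} {D1 : Matrix ι κ R} (h : D1 * D0 = 0)
    (Δ1 : Matrix ι κ R) (s0 : Matrix κ ι R) : D1 * (D0 * Δ1 * s0) = 0 := by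
  rw [Matrix.mul_assoc, ← Matrix.mul_assoc D1, h, Matrix.zero_mul]

theorem LftM_L0 {D0 : Matrix κ ι R} {D1 : Matrix ι κ R} {s0 s0' : Matrix κ ι R}
    {s1 s1' : Matrix ι κ R} (h : IsC D0 D1 s0 s1) (h' : IsC D0 D1 s0' s1') (n : ℕ) :
    LftM n (1 - D1 * (s0' - s0)) (L0 D0 D1 s1 (s0' - s0)) := by
  have h1 := LftM_Lam n (-(D1 * (s0' - s0) * s1)) D0 (D0_A0 h.d01 _ _)
  rw [h.A0_eq h', ← sub_eq_add_neg] at h1
  exact h1

theorem LftM_L1 {D0 : Matrix κ ι R} {D1 : Matrix ι κ R} {s0 s0' : Matrix κ ι R}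
    {s1 s1' : Matrix ι κ R} (h : IsC D0 D1 s0 s1) (h' : IsC D0 D1 s0' s1') (n : ℕ) :
    LftM n (1 + D0 * (s1' - s1)) (L1 D0 D1 s0 (s1' - s1)) := by
  have h1 := LftM_Lam n (D0 * (s1' - s1) * s0) D1 (D1_A1 h.d10 _ _)
  rw [h.A1_eq h'] at h1
  exact h1

theorem map_L0 {R' : Type*} [CommRing R'] (f : R →+* R') {D0 : Matrix κ ι R}
    {D1 : Matrix ι κ R} (h : D0 * D1 = 0) (s1 : Matrix ι κ R) (Δ0 : Matrix κ ι R) :
    map f (L0 D0 D1 s1 Δ0) = L0 (D0.map f) (D1.map f) (s1.map f) (Δ0.map f) := by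
  unfold L0
  rw [map_Lam f _ _ (D0_A0 h _ _)]
  congr 1
  rw [← Matrix.map_mul, ← Matrix.map_mul]
  ext i j
  rw [Matrix.map_apply, Matrix.neg_apply, Matrix.neg_apply, map_neg, Matrix.map_apply]

theorem map_L1 {R' : Type*} [CommRing R'] (f : R →+* R') {D0 : Matrix κ ι R}
    {D1 : Matrix ι κ R} (h : D1 * D0 = 0) (s0 : Matrix κ ι R) (Δ1 : Matrix ι κ R) :
    map f (L1 D0 D1 s0 Δ1) = L1 (D0.map f) (D1.map f) (s0.map f) (Δ1.map f) := by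
  unfold L1
  rw [map_Lam f _ _ (D1_A1 h _ _), Matrix.map_mul, Matrix.map_mul]

end L

section Trans

variable {ι κ : Type*} [Fintype ι] [DecidableEq ι] [Fintype κ] [DecidableEq κ]
  {K : Type*} [Field K] {D0 : Matrix κ ι K} {D1 : Matrix ι κ K} {r0 s0 s0' : Matrix κ ι K}
  {r1 s1 s1' : Matrix ι κ K}

theorem L0_trans (hr : IsC D0 D1 r0 r1) (h : IsC D0 D1 s0 s1) (h' : IsC D0 D1 s0' s1') :
    L0 D0 D1 r1 (s0' - r0) = L0 D0 D1 s1 (s0' - s0) * L0 D0 D1 r1 (s0 - r0) := by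
  have h1 : L0 D0 D1 s1 (s0' - s0) = L0 D0 D1 r1 (s0' - s0) := by
    unfold L0
    refine Lam_unique _ _ _ _ (D0_A0 h.d01 _ _) (D0_A0 h.d01 _ _) (D0_A0 h.d01 _ _)
      (D0_A0 h.d01 _ _) ?_
    rw [h.A0_eq h']
    have e1 : r1 * D0 = 1 - D1 * r0 := eq_sub_of_add_eq' hr.h0
    have e2 : D1 * (s0' - s0) * (1 - D1 * r0) = D1 * (s0' - s0) := by
      rw [Matrix.mul_sub (D1 * (s0' - s0)), Matrix.mul_one, ← Matrix.mul_assoc, h.DdD0 h',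
        Matrix.zero_mul, sub_zero]
    rw [Matrix.neg_mul, Matrix.mul_assoc (D1 * (s0' - s0)), e1, e2]
  rw [h1]
  unfold L0
  rw [← Lam_add_left _ _ _ (D0_A0 h.d01 _ _) (D0_A0 h.d01 _ _)]
  congr 1
  rw [← neg_add, ← Matrix.add_mul, ← Matrix.mul_add, sub_add_sub_cancel]

theorem L1_trans (hr : IsC D0 D1 r0 r1) (h : IsC D0 D1 s0 s1) (h' : IsC D0 D1 s0' s1') :
    L1 D0 D1 r0 (s1' - r1) = L1 D0 D1 r0 (s1 - r1) * L1 D0 D1 s0 (s1' - s1) := by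
  have h1 : L1 D0 D1 s0 (s1' - s1) = L1 D0 D1 r0 (s1' - s1) := by
    unfold L1
    refine Lam_unique _ _ _ _ (D1_A1 h.d10 _ _) (D1_A1 h.d10 _ _) (D1_A1 h.d10 _ _)
      (D1_A1 h.d10 _ _) ?_
    rw [h.A1_eq h']
    have e1 : r0 * D1 = 1 - D0 * r1 := eq_sub_of_add_eq' hr.h1
    have e2 : D0 * (s1' - s1) * (1 - D0 * r1) = D0 * (s1' - s1) := by
      rw [Matrix.mul_sub (D0 * (s1' - s1)), Matrix.mul_one, ← Matrix.mul_assoc, h.DdD1 h',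
        Matrix.zero_mul, sub_zero]
    rw [Matrix.mul_assoc (D0 * (s1' - s1)), e1, e2]
  rw [h1]
  unfold L1
  rw [← Lam_add_left _ _ _ (D1_A1 h.d10 _ _) (D1_A1 h.d10 _ _)]
  congr 1
  rw [← Matrix.add_mul, ← Matrix.mul_add, sub_add_sub_cancel']

end Trans

variable {ι κ : Type*} [Fintype ι] [DecidableEq ι] [Fintype κ] [DecidableEq κ]
  {k : Type*} [Field k]

/-- local contraction -/
def Lo2 (b : GL ι (LaurentSeries k)) (b' : GL κ (LaurentSeries k))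
    (D0 : Matrix κ ι (LaurentSeries k)) (D1 : Matrix ι κ (LaurentSeries k))
    (t0 : Matrix κ ι (LaurentSeries k)) (t1 : Matrix ι κ (LaurentSeries k)) : Prop :=
  IsC D0 D1 t0 t1 ∧ LI b' b D0 ∧ LI b b' D1 ∧ LI b' b t0 ∧ LI b b' t1

/-- local value -/
def LV (b : GL ι (LaurentSeries k)) (D0 D1 s0 s1 : Matrix ι ι (LaurentSeries k))
    (P : St (ι ⊕ ℕ) (LaurentSeries k)) (z : kˣ) : Prop :=
  ∃ (t0 t1 : Matrix ι ι (LaurentSeries k)) (ℓ : St (ι ⊕ ℕ) (LaurentSeries k)),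
    Lo2 b b D0 D1 t0 t1 ∧ LL b (D1 + t1) ℓ ∧
    z = df (L0 D0 D1 t1 (s0 - t0) * ℓ * L1 D0 D1 t0 (s1 - t1)) P

variable {b : GL ι (LaurentSeries k)} {D0 D1 s0 s1 s0' s1' t0 t1 : Matrix ι ι (LaurentSeries k)}
  {P P' ℓ : St (ι ⊕ ℕ) (LaurentSeries k)} {z z' : kˣ}

theorem LftM_total (h : IsC D0 D1 s0 s1) (ht : Lo2 b b D0 D1 t0 t1) (hℓ : LL b (D1 + t1) ℓ) :
    LftM 1 (D1 + s1) (L0 D0 D1 t1 (s0 - t0) * ℓ * L1 D0 D1 t0 (s1 - t1)) := by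
  rw [ht.1.pi_change h]
  exact LftM_mul (LftM_mul (LftM_L0 ht.1 h 1) (LL_Lft hℓ)) (LftM_L1 ht.1 h 1)

private theorem LI_sub' {A B : Matrix ι ι (LaurentSeries k)} (h : LI b b A) (h' : LI b b B) :
    LI b b (A - B) := by
  rw [sub_eq_add_neg]
  exact LI_add h (LI_neg h')

private theorem df_sandwich {X Y M N : St (ι ⊕ ℕ) (LaurentSeries k)} (h : phi M = phi N) :
    phi (X * M * Y) = phi (X * N * Y) ∧ df (X * M * Y) (X * N * Y) = df M N := by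
  have h1 : phi (X * M) = phi (X * N) := by
    rw [map_mul, map_mul, h]
  refine ⟨by rw [map_mul phi (X * M), map_mul phi (X * N), h1], ?_⟩
  rw [df_mul h1 rfl, df_mul rfl h, df_self, df_self, one_mul, mul_one]

private theorem LV_indep {t0' t1' : Matrix ι ι (LaurentSeries k)}
    {ℓ' : St (ι ⊕ ℕ) (LaurentSeries k)} (h : IsC D0 D1 s0 s1) (ht : Lo2 b b D0 D1 t0 t1)
    (hℓ : LL b (D1 + t1) ℓ) (ht' : Lo2 b b D0 D1 t0' t1') (hℓ' : LL b (D1 + t1') ℓ') :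
    phi (L0 D0 D1 t1 (s0 - t0) * ℓ * L1 D0 D1 t0 (s1 - t1)) =
        phi (L0 D0 D1 t1' (s0 - t0') * ℓ' * L1 D0 D1 t0' (s1 - t1')) ∧
      df (L0 D0 D1 t1 (s0 - t0) * ℓ * L1 D0 D1 t0 (s1 - t1))
        (L0 D0 D1 t1' (s0 - t0') * ℓ' * L1 D0 D1 t0' (s1 - t1')) = 1 := by
  obtain ⟨c, lD0, lD1, lt0, lt1⟩ := ht
  obtain ⟨c', -, -, lt0', lt1'⟩ := ht'
  have hM : LL b (D1 + t1') (L0 D0 D1 t1 (t0' - t0) * ℓ * L1 D0 D1 t0 (t1' - t1)) := by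
    rw [c.pi_change c']
    have e0 : (1 : Matrix ι ι (LaurentSeries k)) - D1 * (t0' - t0) =
        1 + -(D1 * (t0' - t0) * t1) * D0 := by
      rw [c.A0_eq c', ← sub_eq_add_neg]
    have e1 : (1 : Matrix ι ι (LaurentSeries k)) + D0 * (t1' - t1) =
        1 + D0 * (t1' - t1) * t0 * D1 := by
      rw [c.A1_eq c']
    rw [e0, e1]
    refine LL_mul (LL_mul ?_ hℓ) ?_
    · exact LL_Lam (LI_neg (LI_mul (LI_mul lD1 (LI_sub' lt0' lt0)) lt1)) lD0 (D0_A0 c.d01 _ _)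
    · exact LL_Lam (LI_mul (LI_mul lD0 (LI_sub' lt1' lt1)) lt0) lD1 (D1_A1 c.d10 _ _)
  obtain ⟨p1, p2⟩ := LL_df hM hℓ'
  have q1 : L0 D0 D1 t1 (s0 - t0) * ℓ * L1 D0 D1 t0 (s1 - t1) =
      L0 D0 D1 t1' (s0 - t0') * (L0 D0 D1 t1 (t0' - t0) * ℓ * L1 D0 D1 t0 (t1' - t1)) *
        L1 D0 D1 t0' (s1 - t1') := by
    rw [L0_trans c c' h, L1_trans c c' h]
    simp only [mul_assoc]
  obtain ⟨r1, r2⟩ := df_sandwich (X := L0 D0 D1 t1' (s0 - t0')) (Y := L1 D0 D1 t0' (s1 - t1')) p1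
  rw [q1]
  exact ⟨r1, r2.trans p2⟩

/-- the value can be computed with any local contraction and local lift -/
theorem LV_eq (h : IsC D0 D1 s0 s1) (hP : LftM 1 (D1 + s1) P) (hz : LV b D0 D1 s0 s1 P z)
    (ht : Lo2 b b D0 D1 t0 t1) (hℓ : LL b (D1 + t1) ℓ) :
    z = df (L0 D0 D1 t1 (s0 - t0) * ℓ * L1 D0 D1 t0 (s1 - t1)) P := by
  obtain ⟨u0, u1, m, hu, hm, rfl⟩ := hz
  obtain ⟨p1, p2⟩ := LV_indep h hu hm ht hℓ
  rw [df_trans p1 (LftM_phi_eq (LftM_total h ht hℓ) hP), p2, one_mul]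

theorem LV_unique (h : IsC D0 D1 s0 s1) (hP : LftM 1 (D1 + s1) P) (hz : LV b D0 D1 s0 s1 P z)
    (hz' : LV b D0 D1 s0 s1 P z') : z = z' := by
  obtain ⟨u0, u1, m, hu, hm, rfl⟩ := hz'
  exact LV_eq h hP hz hu hm

theorem LV_exists (h : IsC D0 D1 s0 s1) (ht : Lo2 b b D0 D1 t0 t1) :
    ∃ z, LV b D0 D1 s0 s1 P z := by
  obtain ⟨c, lD0, lD1, lt0, lt1⟩ := ht
  obtain ⟨ℓ, hℓ⟩ := LL_exists (LI_add lD1 lt1) (LI_add lD0 lt0) c.pi_mul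
  exact ⟨_, t0, t1, ℓ, ⟨c, lD0, lD1, lt0, lt1⟩, hℓ, rfl⟩

theorem LV_change (h : IsC D0 D1 s0 s1) (h' : IsC D0 D1 s0' s1') (hP : LftM 1 (D1 + s1) P)
    (hz : LV b D0 D1 s0 s1 P z) :
    LV b D0 D1 s0' s1' (L0 D0 D1 s1 (s0' - s0) * P * L1 D0 D1 s0 (s1' - s1)) z := by
  obtain ⟨t0, t1, ℓ, ht, hℓ, rfl⟩ := hz
  refine ⟨t0, t1, ℓ, ht, hℓ, ?_⟩
  have q1 : L0 D0 D1 t1 (s0' - t0) * ℓ * L1 D0 D1 t0 (s1' - t1) =
      L0 D0 D1 s1 (s0' - s0) * (L0 D0 D1 t1 (s0 - t0) * ℓ * L1 D0 D1 t0 (s1 - t1)) *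
        L1 D0 D1 s0 (s1' - s1) := by
    rw [L0_trans ht.1 h h', L1_trans ht.1 h h']
    simp only [mul_assoc]
  rw [q1]
  exact (df_sandwich (LftM_phi_eq (LftM_total h ht hℓ) hP)).2.symm

theorem LV_mul_K2 (h : IsC D0 D1 s0 s1) (hP : LftM 1 (D1 + s1) P) (hz : LV b D0 D1 s0 s1 P z)
    {c : St (ι ⊕ ℕ) (LaurentSeries k)} (hc : c ∈ K2 (ι ⊕ ℕ) (LaurentSeries k)) :
    LV b D0 D1 s0 s1 (P * c) (z * (del c)⁻¹) := by
  obtain ⟨t0, t1, ℓ, ht, hℓ, rfl⟩ := hz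
  refine ⟨t0, t1, ℓ, ht, hℓ, ?_⟩
  rw [df_mul_K2' (LftM_phi_eq (LftM_total h ht hℓ) hP) hc]

theorem LV_df (h : IsC D0 D1 s0 s1) (hP : LftM 1 (D1 + s1) P) (hP' : LftM 1 (D1 + s1) P')
    (hz : LV b D0 D1 s0 s1 P z) : LV b D0 D1 s0 s1 P' (z * df P P') := by
  obtain ⟨t0, t1, ℓ, ht, hℓ, rfl⟩ := hz
  refine ⟨t0, t1, ℓ, ht, hℓ, ?_⟩
  rw [df_trans (LftM_phi_eq (LftM_total h ht hℓ) hP) (LftM_phi_eq hP hP')]

theorem LV_direct (h : Lo2 b b D0 D1 s0 s1) (hℓ : LL b (D1 + s1) ℓ) :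
    LV b D0 D1 s0 s1 P (df ℓ P) := by
  refine ⟨s0, s1, ℓ, h, hℓ, ?_⟩
  have e0 : L0 D0 D1 s1 (s0 - s0) = 1 := by
    unfold L0
    rw [sub_self, Matrix.mul_zero, Matrix.zero_mul, neg_zero, Lam_zero_left]
  have e1 : L1 D0 D1 s0 (s1 - s1) = 1 := by
    unfold L1
    rw [sub_self, Matrix.mul_zero, Matrix.zero_mul, Lam_zero_left]
  rw [e0, e1, one_mul, mul_one]

end MSK
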