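import Pool.Agent.MSK.Gl

/-! MSK / Lvc: the value `LA` of a local automorphism; behaviour of `LV` under isomorphisms.

PROOFS. `LA_unique`: `LL_df`, `df_trans`. `LA_mul`: `LL_mul`, `df_mul`. `LA_inv`: `LL_inv`, `df_inv`. `LA_mul_K2`: `df_mul_K2'`.
`LV_conj`: let `t, ℓ` be as in `LV`, `ℓ0, ℓ1` local lifts of `g0, g1` as in `LA`. New data: `t0' = g1 t0 g0⁻¹`, `t1' = g0 t1 g1⁻¹`, `ℓ' = ℓ0 ℓ ℓ1⁻¹`, a local lift of
`g0 (D1 + t1) g1⁻¹` (`LL_mul`, `LL_inv`). By `conj_Lam` (`LL_Lft`) `ℓ0 (L0 D0 D1 t1 Δ0) ℓ0⁻¹ = Lam (-(g0 D1 Δ0 t1)) (D0 g0⁻¹)`, and by `Lam_mul` (insert `g1⁻¹ g1` in the middle)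
it is `L0` of the new complex: `Lam (-(g0 D1 g1⁻¹)(g1 Δ0 g0⁻¹)(g0 t1 g1⁻¹)) (g1 D0 g0⁻¹)`. Same for `L1` with `ℓ1`. So the new product is `ℓ0 (L0 ℓ L1) ℓ1⁻¹`; `df_mul`, `df_inv`.
`LV_basis`: the same `t` conjugated by `h`, local lift `H⁻¹ ℓ H` (`LL_basis`), `L0' = H⁻¹ L0 H` (`conj_Lam` with `Lft_inv`), `df_conj`.
`LV_lattice`: `LL_change`; `LI` for `b u` is the same as for `b`. `LV_reindex`: `LL_reindex`, `emb_LamF`, `df_emb`; `Lam` of reindexed matrices is `emb` of `Lam` in the outer index,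
and `LamF_equiv` for the middle index. `LA_block`: `LL_E1`, `LL_E2`, `LL_Up`, `df_E1`, `df_E2`, `df_mul`. -/

set_option autoImplicit false
set_option linter.unusedVariables false
set_option linter.unusedSectionVars false

namespace MSK

open Matrix

variable {ι κ : Type*} [Fintype ι] [DecidableEq ι] [Fintype κ] [DecidableEq κ]
  {k : Type*} [Field k]

section LA

variable {b : GL ι (LaurentSeries k)} {g g' : Matrix ι ι (LaurentSeries k)}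
  {G G' : St (ι ⊕ ℕ) (LaurentSeries k)} {a a' : kˣ}

theorem LA_unique (hG : LftM 1 g G) (h : LA b g G a) (h' : LA b g G a') : a = a' := by
  obtain ⟨ℓ, hℓ, rfl⟩ := h
  obtain ⟨ℓ', hℓ', rfl⟩ := h'
  obtain ⟨p1, p2⟩ := LL_df hℓ hℓ'
  rw [df_trans p1 (LftM_phi_eq (LL_Lft hℓ') hG), p2, one_mul]

theorem LA_exists (h : LI b b g) (h' : LI b b g') (hg : g * g' = 1) : ∃ a, LA b g G a := by
  obtain ⟨ℓ, hℓ⟩ := LL_exists h h' hg
  exact ⟨_, ℓ, hℓ, rfl⟩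

theorem LA_one : LA b 1 1 (1 : kˣ) := by
  exact ⟨1, LL_one, (df_self 1).symm⟩

theorem LA_mul (hG : LftM 1 g G) (hG' : LftM 1 g' G') (h : LA b g G a) (h' : LA b g' G' a') :
    LA b (g * g') (G * G') (a * a') := by
  obtain ⟨ℓ, hℓ, rfl⟩ := h
  obtain ⟨ℓ', hℓ', rfl⟩ := h'
  exact ⟨ℓ * ℓ', LL_mul hℓ hℓ', (df_mul (LftM_phi_eq (LL_Lft hℓ) hG)
    (LftM_phi_eq (LL_Lft hℓ') hG')).symm⟩

theorem LA_inv (hG : LftM 1 g G) (h : LA b g G a) (hg : g * g' = 1) : LA b g' G⁻¹ a⁻¹ := by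
  obtain ⟨ℓ, hℓ, rfl⟩ := h
  exact ⟨ℓ⁻¹, LL_inv hℓ hg, (df_inv (LftM_phi_eq (LL_Lft hℓ) hG)).symm⟩

theorem LA_mul_K2 (hG : LftM 1 g G) (h : LA b g G a) {c : St (ι ⊕ ℕ) (LaurentSeries k)}
    (hc : c ∈ K2 (ι ⊕ ℕ) (LaurentSeries k)) : LA b g (G * c) (a * (del c)⁻¹) := by
  obtain ⟨ℓ, hℓ, rfl⟩ := h
  exact ⟨ℓ, hℓ, (df_mul_K2' (LftM_phi_eq (LL_Lft hℓ) hG) hc).symm⟩

theorem LA_basis {h : GL ι (LaurentSeries k)} {H : St (ι ⊕ ℕ) (LaurentSeries k)}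
    (hH : Lft 0 h H) (hG : LftM 1 g G) (hL : LA b g G a) :
    LA (h⁻¹ * b) (((h⁻¹ : GL ι (LaurentSeries k)) : Matrix ι ι (LaurentSeries k)) * g *
      (h : Matrix ι ι (LaurentSeries k))) (H⁻¹ * G * H) a := by
  obtain ⟨ℓ, hℓ, rfl⟩ := hL
  refine ⟨H⁻¹ * ℓ * H, LL_basis hℓ hH, ?_⟩
  have h1 := df_conj (LftM_phi_eq (LL_Lft hℓ) hG) H⁻¹
  rw [inv_inv] at h1
  exact h1.symm

/-- block triangular automorphisms -/
theorem LA_block {b' : GL κ (LaurentSeries k)} {g₂ : Matrix κ κ (LaurentSeries k)}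
    {G₂ : St (κ ⊕ ℕ) (LaurentSeries k)} {a₂ : kˣ} (hG : LftM 1 g G) (hG₂ : LftM 1 g₂ G₂)
    (h : LA b g G a) (h₂ : LA b' g₂ G₂ a₂) (M : Matrix ι κ (LaurentSeries k)) (hM : LI b b' M) :
    LA (bd b b') (Matrix.fromBlocks g (g * M) 0 g₂) (E1 κ G * E2 ι G₂ * Up M)
      (a * a₂) := by
  obtain ⟨ℓ, hℓ, rfl⟩ := h
  obtain ⟨ℓ₂, hℓ₂, rfl⟩ := h₂
  refine ⟨E1 κ ℓ * E2 ι ℓ₂ * Up M, ?_, ?_⟩
  · have h1 := LL_mul (LL_mul (LL_E1 b' hℓ) (LL_E2 b hℓ₂)) (LL_Up hM)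
    rw [Matrix.fromBlocks_multiply, Matrix.fromBlocks_multiply] at h1
    simp only [Matrix.zero_mul, Matrix.mul_zero, add_zero, zero_add, Matrix.mul_one,
      Matrix.one_mul] at h1
    exact h1
  · obtain ⟨p1, p2⟩ := df_E1 (κ := κ) (LftM_phi_eq (LL_Lft hℓ) hG)
    obtain ⟨q1, q2⟩ := df_E2 (ι := ι) (LftM_phi_eq (LL_Lft hℓ₂) hG₂)
    have r1 : phi (E1 κ ℓ * E2 ι ℓ₂) = phi (E1 κ G * E2 ι G₂) := by
      rw [map_mul, map_mul, p1, q1]
    rw [df_mul r1 rfl, df_mul p1 q1, df_self, mul_one, p2, q2]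

end LA

private theorem conj_gen {R : Type*} [CommRing R] {n : ℕ} {g g' h h' A B : Matrix ι ι R}
    {s : St (ι ⊕ ℕ) R} (hs : LftM n g s) (hg : g * g' = 1) (hh : h * h' = 1) (hAB : B * A = 0) :
    s * Lam A B * s⁻¹ = Lam (g * A * h') (h * B * g') := by
  obtain ⟨γ, hγ, hL⟩ := hs
  have hγ' : ((γ⁻¹ : GL ι R) : Matrix ι ι R) = g' := by
    have h1 := GL_inv_mul γ
    rw [hγ] at h1
    calc ((γ⁻¹ : GL ι R) : Matrix ι ι R) = ((γ⁻¹ : GL ι R) : Matrix ι ι R) * (g * g') := by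
          rw [hg, Matrix.mul_one]
      _ = g' := by rw [← Matrix.mul_assoc, h1, Matrix.one_mul]
  have hg' : g' * g = 1 := mul_eq_one_comm.1 hg
  have hh' : h' * h = 1 := mul_eq_one_comm.1 hh
  rw [conj_Lam hL A B hAB, hγ, hγ']
  have e1 : g * A = g * A * h' * h := by
    rw [Matrix.mul_assoc (g * A), hh', Matrix.mul_one]
  have e2 : B * g' * (g * A * h') = 0 := by
    rw [Matrix.mul_assoc g A, Matrix.mul_assoc B g', ← Matrix.mul_assoc g' g, hg',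
      Matrix.one_mul, ← Matrix.mul_assoc B A, hAB, Matrix.zero_mul]
  calc Lam (g * A) (B * g') = Lam (g * A * h' * h) (B * g') := by rw [← e1]
    _ = Lam (g * A * h') (h * (B * g')) := Lam_mul _ _ _ e2
    _ = Lam (g * A * h') (h * B * g') := by rw [← Matrix.mul_assoc h]

private theorem cancel3 {R : Type*} [CommRing R] {g g' h h' X Y Z : Matrix ι ι R}
    (hg : g' * g = 1) (hh : h' * h = 1) :
    g * X * h' * (h * Y * g') * (g * Z * h') = g * (X * Y * Z) * h' := by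
  have e1 : ∀ N : Matrix ι ι R, g' * (g * N) = N := fun N => by
    rw [← Matrix.mul_assoc, hg, Matrix.one_mul]
  have e2 : ∀ N : Matrix ι ι R, h' * (h * N) = N := fun N => by
    rw [← Matrix.mul_assoc, hh, Matrix.one_mul]
  simp only [Matrix.mul_assoc, e1, e2]

private theorem conj_L0' {R : Type*} [CommRing R] {n : ℕ}
    {g0 g0' g1 g1' D0 D1 s1 Δ0 : Matrix ι ι R} {s : St (ι ⊕ ℕ) R} (hs : LftM n g0 s)
    (hg0 : g0 * g0' = 1) (hg1 : g1 * g1' = 1) (h : D0 * D1 = 0) :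
    s * L0 D0 D1 s1 Δ0 * s⁻¹ =
      L0 (g1 * D0 * g0') (g0 * D1 * g1') (g0 * s1 * g1') (g1 * Δ0 * g0') := by
  unfold L0
  rw [conj_gen hs hg0 hg1 (by
    rw [Matrix.mul_neg, Matrix.mul_assoc, ← Matrix.mul_assoc D0, h, Matrix.zero_mul, neg_zero]),
    cancel3 (mul_eq_one_comm.1 hg0) (mul_eq_one_comm.1 hg1), Matrix.mul_neg, Matrix.neg_mul]

private theorem conj_L1' {R : Type*} [CommRing R] {n : ℕ}
    {g0 g0' g1 g1' D0 D1 s0 Δ1 : Matrix ι ι R} {s : St (ι ⊕ ℕ) R} (hs : LftM n g1 s)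
    (hg0 : g0 * g0' = 1) (hg1 : g1 * g1' = 1) (h : D1 * D0 = 0) :
    s * L1 D0 D1 s0 Δ1 * s⁻¹ =
      L1 (g1 * D0 * g0') (g0 * D1 * g1') (g1 * s0 * g0') (g0 * Δ1 * g1') := by
  unfold L1
  rw [conj_gen hs hg1 hg0 (by
    rw [Matrix.mul_assoc, ← Matrix.mul_assoc D1, h, Matrix.zero_mul]),
    cancel3 (mul_eq_one_comm.1 hg1) (mul_eq_one_comm.1 hg0)]

private theorem LI_basis {b g : GL ι (LaurentSeries k)} {M : Matrix ι ι (LaurentSeries k)}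
    (h : LI b b M) : LI (g * b) (g * b) ((g : Matrix ι ι (LaurentSeries k)) * M *
      ((g⁻¹ : GL ι (LaurentSeries k)) : Matrix ι ι (LaurentSeries k))) := by
  obtain ⟨N, rfl⟩ := h
  refine ⟨N, ?_⟩
  rw [_root_.mul_inv_rev, Units.val_mul, Units.val_mul]
  simp only [Matrix.mul_assoc]

private theorem LI_lattice {b : GL ι (LaurentSeries k)} {M : Matrix ι ι (LaurentSeries k)}
    (h : LI b b M) (u : GL ι (PowerSeries k)) :
    LI (b * Matrix.GeneralLinearGroup.map (iO k) u) (b * Matrix.GeneralLinearGroup.map (iO k) u)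
      M := by
  obtain ⟨N, rfl⟩ := h
  refine ⟨((u⁻¹ : GL ι (PowerSeries k)) : Matrix ι ι (PowerSeries k)) * N *
    (u : Matrix ι ι (PowerSeries k)), ?_⟩
  have h1 : (u : Matrix ι ι (PowerSeries k)).map (iO k) *
      ((u⁻¹ : GL ι (PowerSeries k)) : Matrix ι ι (PowerSeries k)).map (iO k) = 1 := by
    rw [← Matrix.map_mul, GL_mul_inv, Matrix.map_one _ (map_zero _) (map_one _)]
  have h2 : ∀ N : Matrix ι ι (LaurentSeries k), (u : Matrix ι ι (PowerSeries k)).map (iO k) *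
      (((u⁻¹ : GL ι (PowerSeries k)) : Matrix ι ι (PowerSeries k)).map (iO k) * N) = N := by
    intro N
    rw [← Matrix.mul_assoc, h1, Matrix.one_mul]
  rw [_root_.mul_inv_rev, ← map_inv, Units.val_mul, Units.val_mul, coe_mapG, coe_mapG,
    Matrix.map_mul, Matrix.map_mul]
  simp only [Matrix.mul_assoc]
  rw [h2, h2]

private theorem LI_reindex {b : GL ι (LaurentSeries k)} {M : Matrix ι ι (LaurentSeries k)}
    (h : LI b b M) (e : ι ≃ κ) : LI (rx e b) (rx e b) (M.reindex e e) := by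
  obtain ⟨N, rfl⟩ := h
  refine ⟨N.reindex e e, ?_⟩
  rw [coe_rx, coe_rx_inv, Matrix.reindex_apply, Matrix.reindex_apply, Matrix.reindex_apply,
    Matrix.reindex_apply]
  have h1 : (N.submatrix e.symm e.symm).map (iO k) =
      (N.map (iO k)).submatrix e.symm e.symm := rfl
  rw [h1, Matrix.submatrix_mul_equiv, Matrix.submatrix_mul_equiv]

private theorem emb_Lam' {R : Type*} [CommRing R] (e : ι ≃ κ)
    (he : Function.Injective (Sum.map e (id : ℕ → ℕ))) (A B : Matrix ι ι R) (h : B * A = 0) :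
    emb (Sum.map e (id : ℕ → ℕ)) he (Lam A B) = Lam (A.reindex e e) (B.reindex e e) := by
  have h1 : (B.submatrix id e.symm : Matrix ι κ R) * (A.submatrix e.symm id : Matrix κ ι R) = 0 := by
    rw [Matrix.submatrix_mul_equiv, h]
    rfl
  have h2 := LamF_equiv e.symm _ _ (ort_of _ _ h1)
  unfold Lam
  rw [emb_LamF _ _ _ _ (ort_of A B h)]
  have e1 : (fun m => (ev (fun i => A i m)).mapDomain (Sum.map e (id : ℕ → ℕ))) =
      fun m => ev (fun i => (A.submatrix e.symm id : Matrix κ ι R) i m) := by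
    funext m
    rw [mapDomain_ev]
    rfl
  have e2 : (fun m => (ev (fun i => B m i)).mapDomain (Sum.map e (id : ℕ → ℕ))) =
      fun m => ev (fun i => (B.submatrix id e.symm : Matrix ι κ R) m i) := by
    funext m
    rw [mapDomain_ev]
    rfl
  rw [e1, e2, ← h2]
  rfl

private theorem rx_mul {R : Type*} [CommRing R] (e : ι ≃ κ) (A B : Matrix ι ι R) :
    A.reindex e e * B.reindex e e = (A * B).reindex e e := by
  rw [Matrix.reindex_apply, Matrix.reindex_apply, Matrix.reindex_apply,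
    Matrix.submatrix_mul_equiv]

private theorem rx_add {R : Type*} [CommRing R] (e : ι ≃ κ) (A B : Matrix ι ι R) :
    A.reindex e e + B.reindex e e = (A + B).reindex e e := rfl

private theorem rx_sub {R : Type*} [CommRing R] (e : ι ≃ κ) (A B : Matrix ι ι R) :
    A.reindex e e - B.reindex e e = (A - B).reindex e e := rfl

private theorem rx_neg {R : Type*} [CommRing R] (e : ι ≃ κ) (A : Matrix ι ι R) :
    -(A.reindex e e) = (-A).reindex e e := rfl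

private theorem rx_zero {R : Type*} [CommRing R] (e : ι ≃ κ) :
    (0 : Matrix ι ι R).reindex e e = 0 := rfl

private theorem rx_one {R : Type*} [CommRing R] (e : ι ≃ κ) :
    (1 : Matrix ι ι R).reindex e e = 1 := by
  rw [Matrix.reindex_apply, Matrix.submatrix_one_equiv]

private theorem IsC_reindex {R : Type*} [CommRing R] {D0 D1 s0 s1 : Matrix ι ι R}
    (h : IsC D0 D1 s0 s1) (e : ι ≃ κ) :
    IsC (D0.reindex e e) (D1.reindex e e) (s0.reindex e e) (s1.reindex e e) := by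
  refine ⟨?_, ?_, ?_, ?_, ?_, ?_⟩
  · rw [rx_mul, h.d01, rx_zero]
  · rw [rx_mul, h.d10, rx_zero]
  · rw [rx_mul, rx_mul, rx_add, h.h0, rx_one]
  · rw [rx_mul, rx_mul, rx_add, h.h1, rx_one]
  · rw [rx_mul, h.q10, rx_zero]
  · rw [rx_mul, h.q01, rx_zero]

private theorem emb_L0 {R : Type*} [CommRing R] (e : ι ≃ κ)
    (he : Function.Injective (Sum.map e (id : ℕ → ℕ))) {D0 D1 : Matrix ι ι R} (h : D0 * D1 = 0)
    (s1 Δ0 : Matrix ι ι R) : emb (Sum.map e (id : ℕ → ℕ)) he (L0 D0 D1 s1 Δ0) =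
      L0 (D0.reindex e e) (D1.reindex e e) (s1.reindex e e) (Δ0.reindex e e) := by
  unfold L0
  rw [emb_Lam' e he _ _ (by
    rw [Matrix.mul_neg, Matrix.mul_assoc, ← Matrix.mul_assoc D0, h, Matrix.zero_mul, neg_zero]),
    rx_mul, rx_mul, rx_neg]

private theorem emb_L1 {R : Type*} [CommRing R] (e : ι ≃ κ)
    (he : Function.Injective (Sum.map e (id : ℕ → ℕ))) {D0 D1 : Matrix ι ι R} (h : D1 * D0 = 0)
    (s0 Δ1 : Matrix ι ι R) : emb (Sum.map e (id : ℕ → ℕ)) he (L1 D0 D1 s0 Δ1) =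
      L1 (D0.reindex e e) (D1.reindex e e) (s0.reindex e e) (Δ1.reindex e e) := by
  unfold L1
  rw [emb_Lam' e he _ _ (by
    rw [Matrix.mul_assoc, ← Matrix.mul_assoc D1, h, Matrix.zero_mul]),
    rx_mul, rx_mul]

variable {b : GL ι (LaurentSeries k)} {D0 D1 s0 s1 : Matrix ι ι (LaurentSeries k)}
  {P : St (ι ⊕ ℕ) (LaurentSeries k)} {z : kˣ}

/-- change of the identifications by automorphisms of the lattice -/
theorem LV_conj (h : IsC D0 D1 s0 s1) (hP : LftM 1 (D1 + s1) P) (hz : LV b D0 D1 s0 s1 P z)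
    {g0 g0' g1 g1' : Matrix ι ι (LaurentSeries k)} (hg0 : g0 * g0' = 1) (hg1 : g1 * g1' = 1)
    (hi0 : LI b b g0) (hi0' : LI b b g0') (hi1 : LI b b g1) (hi1' : LI b b g1')
    {G0 G1 : St (ι ⊕ ℕ) (LaurentSeries k)} (hG0 : LftM 1 g0 G0) (hG1 : LftM 1 g1 G1) {a0 a1 : kˣ}
    (ha0 : LA b g0 G0 a0) (ha1 : LA b g1 G1 a1) :
    LV b (g1 * D0 * g0') (g0 * D1 * g1') (g1 * s0 * g0') (g0 * s1 * g1') (G0 * P * G1⁻¹)
      (z * a0 * a1⁻¹) := by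
  obtain ⟨t0, t1, ℓ, ht, hℓ, rfl⟩ := hz
  obtain ⟨ℓ0, hℓ0, rfl⟩ := ha0
  obtain ⟨ℓ1, hℓ1, rfl⟩ := ha1
  have hT := LftM_phi_eq (LftM_total h ht hℓ) hP
  obtain ⟨c, lD0, lD1, lt0, lt1⟩ := ht
  have hg0' : g0' * g0 = 1 := mul_eq_one_comm.1 hg0
  have hg1' : g1' * g1 = 1 := mul_eq_one_comm.1 hg1
  refine ⟨g1 * t0 * g0', g0 * t1 * g1', ℓ0 * ℓ * ℓ1⁻¹,
    ⟨c.conj g0 g0' g1 g1' hg0' hg0 hg1' hg1, LI_mul (LI_mul hi1 lD0) hi0',
      LI_mul (LI_mul hi0 lD1) hi1', LI_mul (LI_mul hi1 lt0) hi0',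
      LI_mul (LI_mul hi0 lt1) hi1'⟩, ?_, ?_⟩
  · rw [← Matrix.add_mul, ← Matrix.mul_add]
    exact LL_mul (LL_mul hℓ0 hℓ) (LL_inv hℓ1 hg1)
  · rw [← Matrix.sub_mul, ← Matrix.mul_sub, ← Matrix.sub_mul, ← Matrix.mul_sub,
      ← conj_L0' (LL_Lft hℓ0) hg0 hg1 c.d01, ← conj_L1' (LL_Lft hℓ1) hg0 hg1 c.d10]
    have e1 : ℓ0 * L0 D0 D1 t1 (s0 - t0) * ℓ0⁻¹ * (ℓ0 * ℓ * ℓ1⁻¹) *
        (ℓ1 * L1 D0 D1 t0 (s1 - t1) * ℓ1⁻¹) =
        ℓ0 * (L0 D0 D1 t1 (s0 - t0) * ℓ * L1 D0 D1 t0 (s1 - t1)) * ℓ1⁻¹ := by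
      group
    have p0 := LftM_phi_eq (LL_Lft hℓ0) hG0
    have p1 := LftM_phi_eq (LL_Lft hℓ1) hG1
    have r1 : phi (ℓ0 * (L0 D0 D1 t1 (s0 - t0) * ℓ * L1 D0 D1 t0 (s1 - t1))) = phi (G0 * P) := by
      rw [map_mul phi ℓ0, map_mul phi G0, hT, p0]
    have r2 : phi ℓ1⁻¹ = phi G1⁻¹ := by rw [map_inv, map_inv, p1]
    rw [e1, df_mul r1 r2, df_mul p0 hT, df_inv p1, mul_comm (df ℓ0 G0)]

/-- change of the basis of the vector space -/
theorem LV_basis (h : IsC D0 D1 s0 s1) (hP : LftM 1 (D1 + s1) P) (hz : LV b D0 D1 s0 s1 P z)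
    {g : GL ι (LaurentSeries k)} {H : St (ι ⊕ ℕ) (LaurentSeries k)} (hH : Lft 0 g H) :
    LV (g * b) ((g : Matrix ι ι (LaurentSeries k)) * D0 *
        ((g⁻¹ : GL ι (LaurentSeries k)) : Matrix ι ι (LaurentSeries k)))
      ((g : Matrix ι ι (LaurentSeries k)) * D1 *
        ((g⁻¹ : GL ι (LaurentSeries k)) : Matrix ι ι (LaurentSeries k)))
      ((g : Matrix ι ι (LaurentSeries k)) * s0 *
        ((g⁻¹ : GL ι (LaurentSeries k)) : Matrix ι ι (LaurentSeries k)))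
      ((g : Matrix ι ι (LaurentSeries k)) * s1 *
        ((g⁻¹ : GL ι (LaurentSeries k)) : Matrix ι ι (LaurentSeries k)))
      (H * P * H⁻¹) z := by
  obtain ⟨t0, t1, ℓ, ht, hℓ, rfl⟩ := hz
  have hT := LftM_phi_eq (LftM_total h ht hℓ) hP
  obtain ⟨c, lD0, lD1, lt0, lt1⟩ := ht
  have hM : LftM 0 (g : Matrix ι ι (LaurentSeries k)) H := ⟨g, rfl, hH⟩
  refine ⟨_, _, H * ℓ * H⁻¹, ⟨c.conj _ _ _ _ (GL_inv_mul g) (GL_mul_inv g) (GL_inv_mul g)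
    (GL_mul_inv g), LI_basis lD0, LI_basis lD1, LI_basis lt0, LI_basis lt1⟩, ?_, ?_⟩
  · rw [← Matrix.add_mul, ← Matrix.mul_add]
    have h1 := LL_basis hℓ (Lft_inv hH)
    rw [inv_inv, inv_inv] at h1
    exact h1
  · rw [← Matrix.sub_mul, ← Matrix.mul_sub, ← Matrix.sub_mul, ← Matrix.mul_sub,
      ← conj_L0' hM (GL_mul_inv g) (GL_mul_inv g) c.d01,
      ← conj_L1' hM (GL_mul_inv g) (GL_mul_inv g) c.d10]
    have e1 : H * L0 D0 D1 t1 (s0 - t0) * H⁻¹ * (H * ℓ * H⁻¹) *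
        (H * L1 D0 D1 t0 (s1 - t1) * H⁻¹) =
        H * (L0 D0 D1 t1 (s0 - t0) * ℓ * L1 D0 D1 t0 (s1 - t1)) * H⁻¹ := by
      group
    rw [e1, df_conj hT]

/-- change of the basis of the lattice -/
theorem LV_lattice (hz : LV b D0 D1 s0 s1 P z) (u : GL ι (PowerSeries k)) :
    LV (b * Matrix.GeneralLinearGroup.map (iO k) u) D0 D1 s0 s1 P z := by
  obtain ⟨t0, t1, ℓ, ⟨c, lD0, lD1, lt0, lt1⟩, hℓ, rfl⟩ := hz
  exact ⟨t0, t1, ℓ, ⟨c, LI_lattice lD0 u, LI_lattice lD1 u, LI_lattice lt0 u, LI_lattice lt1 u⟩,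
    LL_change u hℓ, rfl⟩

theorem LV_reindex (h : IsC D0 D1 s0 s1) (hP : LftM 1 (D1 + s1) P)
    (hz : LV b D0 D1 s0 s1 P z) (e : ι ≃ κ)
    (he : Function.Injective (Sum.map e (id : ℕ → ℕ))) (b' : GL κ (LaurentSeries k))
    (hb : (b' : Matrix κ κ (LaurentSeries k)) = (b : Matrix ι ι (LaurentSeries k)).reindex e e) :
    LV b' (D0.reindex e e) (D1.reindex e e) (s0.reindex e e) (s1.reindex e e)
      (emb (Sum.map e (id : ℕ → ℕ)) he P) z := by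
  have hb' : b' = rx e b := Units.ext hb
  subst hb'
  obtain ⟨t0, t1, ℓ, ht, hℓ, rfl⟩ := hz
  have hT := LftM_phi_eq (LftM_total h ht hℓ) hP
  obtain ⟨c, lD0, lD1, lt0, lt1⟩ := ht
  refine ⟨t0.reindex e e, t1.reindex e e, emb (Sum.map e (id : ℕ → ℕ)) he ℓ,
    ⟨IsC_reindex c e, LI_reindex lD0 e, LI_reindex lD1 e, LI_reindex lt0 e, LI_reindex lt1 e⟩,
    ?_, ?_⟩
  · rw [rx_add]
    exact LL_reindex hℓ e he _ rfl
  · rw [rx_sub, rx_sub, ← emb_L0 e he c.d01, ← emb_L1 e he c.d10, ← map_mul, ← map_mul,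
      df_emb _ _ hT]

end MSK
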