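import Pool.Agent.MSK.Cell

/-! MSK / Star: every element of `S (insert n I)` whose last column has non zero last entry is in the big cell.

PROOF of `star` (induction on `s` by `S_induction`, for all `w`). `s = 1`: `Y n w ∈ Qn`. Let `s = x i j a * s'`, `i, j ∈ insert n I`,
`i ≠ j` (else trivial).
(1) `i, j ∈ I`: `Y n w * x i j a = x i j a * Y n (psi (x i j a)⁻¹ w)` (`conj_Y`), the new row is supported in `I`, `x i j a` does not change the
    `n`-th coordinate: induction hypothesis and `cell_x`.
(2) `i = n`: `Y n w * x n j a = Y n (w + single j a)`.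
(3) `j = n`, `i ∈ I`: let `cc₀ = w i`, `w = single i c₀ + w'`, `Y n w = Y n w' * x n i c₀`.
  (3a) `c₀ = 0`: `Y n w' * x i n a = x i n a * Z * Y n w'`, `Z = Y i (-(a • w')) ∈ S I` (`⁅x_in(a), x_nl(b)⁆ = x_il(ab)`, `l ≠ i, n`; here
       `w' i = 0`). Last coordinates: `x i n a`, `Z` do not change the `n`-th coordinate. IH for `w'`, then `cell_S`, `cell_col`.
  (3b) `c₀ ≠ 0`, `t = 1 + c₀ a ≠ 0`: `x n i c₀ * x i n a = x i n (a/t) * h' * x n i (c₀/t)` (`rank_two`), `Y n w' * x i n (a/t) =
       x i n (a/t) * Z * Y n w'` as in (3a), `Y n w' * h' = h' * Y n w''` (`h' ∈ Hs` acts diagonally); so `Y n w * s = (x i n (a/t)) Z h' (Y n (w'' + single i (c₀/t)) * s')`;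
       the factors in front multiply the `n`-th coordinate by a unit; IH, `cell_h`, `cell_S`, `cell_col`.
  (3c) `1 + c₀ a = 0`, so `a = -1/c₀`: `x n i c₀ * x i n (-1/c₀) = ww n i c₀ * x n i (-c₀)`. `(ww n i c₀)⁻¹ * Y n w' * ww n i c₀ = Z` with `Z = Y i z ∈ S I`
       (`conj` of `x_nl(b)`, `l ≠ i, n`, is `x_il(-c₀⁻¹ b)`). Let `y = Z * x n i (-c₀) * s'`, so `Y n w * s = ww n i c₀ * y`, and its last coordinate is `c₀ y_i ≠ 0`
       (`y_i := (phi y e_n) i`). Choose `e ≠ 0`, `y_n + e y_i ≠ 0` (`K` has at least `3` elements). `x n i e * Z = Z * Y n (..)`, so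
       `β := x n i e * y = Z * (Y n w''' * s')`, last coordinate `y_n + e y_i ≠ 0`: by IH (`Z` does not change it) `Y n w''' * s' ∈ Cell`, so `β ∈ Cell`.
       `ww n i c₀ * y = x n i c₀ * x i n (-1/c₀) * x n i (c₀ - e) * β`, and `x i n (-1/c₀) * x n i (c₀ - e) = x n i ((c₀-e)/t') * h'' * x i n (-1/(c₀ t'))`,
       `t' = 1 - (c₀ - e)/c₀ = e/c₀ ≠ 0` (`rank_two` with `(i, j) := (i, n)`). So it is `x n i (c₀ + (c₀-e)/t') * (h'' * (x i n _ * β))` with
       `h'' * (x i n _ * β) ∈ Cell`: `cell_row`.
PROOF of `K2_split`: `s ∈ K2 ∩ S (insert n I)`: `star` with `w = 0` gives `s = X n v * h * q`; apply `phi s = 1` to `e_n`: `phi_Qn`, `Hs_diag`, `phi_X`: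
`d n • (e_n + v) = e_n`, so `v = 0`, `phi h e_n = e_n`, so `h ∈ Hs I` (`Hs_of_fix`) `≤ S I ⊔ Sym`. `Q_split`: `q = q' * Y n w`, `q' ∈ S I`. So
`s = t * Y n w * c`, `t ∈ S I`, `c ∈ Sym`; the `n`-th coordinate of `phi s u = u` is `u n + dot w u`, so `w = 0`. -/

set_option autoImplicit false
set_option linter.unusedVariables false

namespace MSK

open scoped commutatorElement

variable {J : Type*} {K : Type*} [Field K] [DecidableEq J] [Infinite J]


/-! helpers -/

theorem st_single_of {n i : J} (hin : i ≠ n) (a : K) : (Finsupp.single i a : J →₀ K) n = 0 := by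
  rw [Finsupp.single_apply, if_neg hin]

theorem st_Y_mem_Qn {n : J} {I : Set J} (w : J →₀ K) :
    (∀ k ∈ w.support, k ∈ I) → Y n w ∈ (Qn n I : Subgroup (St J K)) := by
  induction w using Finsupp.induction with
  | zero => intro _; rw [Y_zero]; exact one_mem _
  | single_add a b f ha hb ih =>
    intro h
    rw [Y_add, Y_single]
    refine mul_mem (Subgroup.subset_closure ⟨n, Set.mem_insert _ _, a, h a ?_, b, rfl⟩)
      (ih fun k hk => h k ?_)
    · rw [Finsupp.mem_support_iff, Finsupp.add_apply, Finsupp.single_eq_same,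
        Finsupp.notMem_support_iff.1 ha, add_zero]
      exact hb
    · have hka : a ≠ k := by
        rintro rfl
        exact ha hk
      rw [Finsupp.mem_support_iff, Finsupp.add_apply, Finsupp.single_apply, if_neg hka, zero_add]
      exact Finsupp.mem_support_iff.1 hk

/-- a row commutes past an element of another column -/
theorem st_row_col {n i : J} (hin : i ≠ n) (w : J →₀ K) (hwi : w i = 0) (hwn : w n = 0) (a : K) :
    (Y n w : St J K) * x i n a = x i n a * Y i (-(a • w)) * Y n w := by
  have hmem : (Y n w : St J K) ∈ (S {i}ᶜ : Subgroup (St J K)) := by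
    refine Y_mem_S (I := {i}ᶜ) (fun h => hin (Set.mem_singleton_iff.1 h).symm) w fun k hk h => ?_
    rw [Set.mem_singleton_iff.1 h, Finsupp.mem_support_iff] at hk
    exact hk hwi
  have h := conj_Y hmem (Finsupp.single n a)
  rw [psi_Y n w _ hwn, Finsupp.single_eq_same, sub_eq_add_neg, Y_add, Y_single,
    mul_inv_eq_iff_eq_mul] at h
  exact h

theorem st_row_row {n i : J} (hin : i ≠ n) (w z : J →₀ K) (hwi : w i = 0) (hzi : z i = 0)
    (hzn : z n = 0) : Commute (Y i z : St J K) (Y n w) := by
  have hmem : (Y i z : St J K) ∈ (S {n}ᶜ : Subgroup (St J K)) := by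
    refine Y_mem_S (I := {n}ᶜ) (fun h => hin (Set.mem_singleton_iff.1 h)) z fun k hk h => ?_
    rw [Set.mem_singleton_iff.1 h, Finsupp.mem_support_iff] at hk
    exact hk hzn
  have h := conj_Y hmem w
  rw [psi_Y i z _ hzi, hwi, zero_smul, sub_zero, mul_inv_eq_iff_eq_mul] at h
  exact h

theorem st_conj_ww {n i : J} (hin : i ≠ n) (w : J →₀ K) (hwi : w i = 0) (hwn : w n = 0) (c : Kˣ) :
    (Y n w : St J K) * ww n i c = ww n i c * Y i (((c⁻¹ : Kˣ) : K) • w) := by
  set z : J →₀ K := ((c⁻¹ : Kˣ) : K) • w with hz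
  have hzi : z i = 0 := by rw [hz, Finsupp.smul_apply, hwi, smul_zero]
  have hzn : z n = 0 := by rw [hz, Finsupp.smul_apply, hwn, smul_zero]
  have h1 : Commute (Y n w : St J K) (x n i (c : K)) := by
    rw [← Y_single]
    show Y n w * Y n _ = Y n _ * Y n w
    rw [← Y_add, ← Y_add, add_comm]
  have h2 : (Y n w : St J K) * x i n (-((c⁻¹ : Kˣ) : K)) = x i n (-((c⁻¹ : Kˣ) : K)) * Y i z * Y n w := by
    rw [st_row_col hin w hwi hwn, neg_smul, neg_neg]
  have h3 : (Y i z : St J K) * x n i (c : K) = x n i (c : K) * Y n (-w) * Y i z := by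
    rw [st_row_col hin.symm z hzn hzi, hz, smul_smul, Units.mul_inv, one_smul]
  have h4 : Commute (Y i z : St J K) (Y n w) := st_row_row hin w z hwi hzi hzn
  unfold ww
  calc Y n w * (x n i (c : K) * x i n (-((c⁻¹ : Kˣ) : K)) * x n i (c : K))
      = (Y n w * x n i (c : K)) * x i n (-((c⁻¹ : Kˣ) : K)) * x n i (c : K) := by group
    _ = x n i (c : K) * (Y n w * x i n (-((c⁻¹ : Kˣ) : K))) * x n i (c : K) := by
        rw [h1.eq]; group
    _ = x n i (c : K) * x i n (-((c⁻¹ : Kˣ) : K)) * (Y i z * (Y n w * x n i (c : K))) := by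
        rw [h2]; group
    _ = x n i (c : K) * x i n (-((c⁻¹ : Kˣ) : K)) * ((Y i z * x n i (c : K)) * Y n w) := by
        rw [h1.eq]; group
    _ = x n i (c : K) * x i n (-((c⁻¹ : Kˣ) : K)) * (x n i (c : K) * (Y n (-w) * (Y i z * Y n w))) := by
        rw [h3]; group
    _ = x n i (c : K) * x i n (-((c⁻¹ : Kˣ) : K)) * x n i (c : K) * Y i z := by
        rw [h4.eq, Y_neg]; group

/-- the diagonal action on rows -/
noncomputable def stDg (d : J → Kˣ) (n : J) (w : J →₀ K) : J →₀ K :=
  Finsupp.onFinset w.support (fun k => (d n : K) * w k * (((d k)⁻¹ : Kˣ) : K)) (fun k h => by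
    rw [Finsupp.mem_support_iff]
    intro h0
    apply h
    rw [h0, mul_zero, zero_mul])

theorem stDg_apply (d : J → Kˣ) (n : J) (w : J →₀ K) (k : J) :
    stDg d n w k = (d n : K) * w k * (((d k)⁻¹ : Kˣ) : K) := rfl

theorem st_conj_diag {s : St J K} {d : J → Kˣ}
    (hs : ∀ v : J →₀ K, ∀ k, (phi s v) k = (d k : K) * v k) (n : J) (w : J →₀ K) :
    s * Y n w * s⁻¹ = Y n (stDg d n w) := by
  induction w using Finsupp.induction_linear with
  | zero =>
    have : stDg d n (0 : J →₀ K) = 0 := by
      ext k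
      rw [stDg_apply, Finsupp.zero_apply, mul_zero, zero_mul]
    rw [this, Y_zero, mul_one, mul_inv_cancel]
  | add w w' h h' =>
    have : stDg d n (w + w') = stDg d n w + stDg d n w' := by
      ext k
      rw [Finsupp.add_apply, stDg_apply, stDg_apply, stDg_apply, Finsupp.add_apply, mul_add,
        add_mul]
    rw [this, Y_add, Y_add, ← h, ← h']
    group
  | single l b =>
    have : stDg d n (Finsupp.single l b) =
        Finsupp.single l ((d n : K) * b * (((d l)⁻¹ : Kˣ) : K)) := by
      ext k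
      rw [stDg_apply, Finsupp.single_apply, Finsupp.single_apply]
      by_cases h : l = k
      · rw [if_pos h, if_pos h, h]
      · rw [if_neg h, if_neg h, mul_zero, zero_mul]
    rw [this, Y_single, Y_single]
    exact conj_x_diag s d hs n l b

theorem st_h_mem {I : Set J} {i j : J} (hi : i ∈ I) (hj : j ∈ I) (hij : i ≠ j) (a b : Kˣ) :
    (ww i j a * ww i j (-b) : St J K) ∈ (Hs I : Subgroup (St J K)) := by
  have h : (ww i j a * ww i j (-b) : St J K) = hh i j a * (hh i j b)⁻¹ := by
    unfold hh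
    rw [ww_neg i j b]
    group
  rw [h]
  exact mul_mem (Subgroup.mem_sup_left (Subgroup.subset_closure ⟨i, hi, j, hj, hij, a, rfl⟩))
    (inv_mem (Subgroup.mem_sup_left (Subgroup.subset_closure ⟨i, hi, j, hj, hij, b, rfl⟩)))

theorem st_last_S {n : J} {I : Set J} (hn : n ∉ I) {t : St J K}
    (ht : t ∈ (S I : Subgroup (St J K))) (s : St J K) (v : J →₀ K) :
    (phi (t * s) v) n = (phi s v) n := by
  rw [map_mul, LinearEquiv.mul_apply]
  exact phi_apply_of_notMem ht hn _

theorem st_last_x {n i : J} (hin : i ≠ n) (a : K) (s : St J K) (v : J →₀ K) :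
    (phi (x i n a * s) v) n = (phi s v) n := by
  rw [map_mul, LinearEquiv.mul_apply, phi_x, tv_apply i n hin, Finsupp.add_apply,
    Finsupp.single_apply, if_neg hin, add_zero]

theorem st_case3 {n : J} {I : Set J} (hn : n ∉ I) [Infinite K] {s : St J K}
    (ih : ∀ w : J →₀ K, (∀ k ∈ w.support, k ∈ I) →
      (phi (Y n w * s) (Finsupp.single n 1)) n ≠ 0 → Y n w * s ∈ (Cell n I : Set (St J K)))
    {i : J} (hi : i ∈ I) (a : K) (w : J →₀ K) (hw : ∀ k ∈ w.support, k ∈ I)
    (hne : (phi (Y n w * (x i n a * s)) (Finsupp.single n 1)) n ≠ 0) :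
    Y n w * (x i n a * s) ∈ (Cell n I : Set (St J K)) := by
  have hin : i ≠ n := by
    rintro rfl
    exact hn hi
  have hwn : w n = 0 := by
    by_contra h
    exact hn (hw n (Finsupp.mem_support_iff.2 h))
  -- the decomposition of w
  obtain ⟨w', c, hw'i, hw'n, hw', hww⟩ : ∃ (w' : J →₀ K) (c : K), w' i = 0 ∧ w' n = 0 ∧
      (∀ k ∈ w'.support, k ∈ I) ∧ w = w' + Finsupp.single i c := by
    refine ⟨w - Finsupp.single i (w i), w i, ?_, ?_, ?_, by rw [sub_add_cancel]⟩
    · rw [Finsupp.sub_apply, Finsupp.single_eq_same, sub_self]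
    · rw [Finsupp.sub_apply, hwn, Finsupp.single_apply, if_neg hin, sub_zero]
    · intro k hk
      by_contra hkI
      rw [Finsupp.mem_support_iff] at hk
      apply hk
      have h1 : w k = 0 := by
        by_contra h
        exact hkI (hw k (Finsupp.mem_support_iff.2 h))
      have h2 : i ≠ k := by
        rintro rfl
        exact hkI hi
      rw [Finsupp.sub_apply, h1, Finsupp.single_apply, if_neg h2, sub_zero]
  have hYw : (Y n w : St J K) = Y n w' * x n i c := by rw [hww, Y_add, Y_single]
  have hZ : ∀ b : K, (Y i (b • w') : St J K) ∈ (S I : Subgroup (St J K)) := fun b =>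
    Y_mem_S hi _ fun k hk => by
      refine hw' k (Finsupp.mem_support_iff.2 fun h => ?_)
      rw [Finsupp.mem_support_iff, Finsupp.smul_apply, h, smul_zero] at hk
      exact hk rfl
  have hcol : ∀ (b : K) (t : St J K), t ∈ (Cell n I : Set (St J K)) →
      x i n b * t ∈ (Cell n I : Set (St J K)) := by
    intro b t ht
    rw [← X_single]
    refine cell_col hn ht fun k hk => ?_
    have h1 := Finsupp.support_single_subset hk
    rw [Finset.mem_singleton] at h1
    rw [h1]
    exact hi
  by_cases hc : c = 0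
  · -- (3a)
    have e1 : Y n w * (x i n a * s) = x i n a * (Y i (-(a • w')) * (Y n w' * s)) := by
      rw [hYw, hc, x_zero, mul_one, ← mul_assoc, st_row_col hin w' hw'i hw'n]
      group
    rw [e1] at hne ⊢
    rw [← neg_smul] at hne ⊢
    rw [st_last_x hin, st_last_S hn (hZ _)] at hne
    exact hcol _ _ (cell_S hn (ih w' hw' hne) (hZ _))
  by_cases ht : 1 + c * a = 0
  · -- (3c)
    have hac : a = -c⁻¹ := by
      field_simp
      linear_combination ht
    set c0 : Kˣ := Units.mk0 c hc with hc0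
    have hc0v : (c0 : K) = c := rfl
    have hc0i : ((c0⁻¹ : Kˣ) : K) = c⁻¹ := by rw [Units.val_inv_eq_inv_val, hc0v]
    set Z : St J K := Y i (c⁻¹ • w') with hZd
    set y : St J K := Z * (x n i (-c) * s) with hy
    have e1 : Y n w * (x i n a * s) = ww n i c0 * y := by
      have h1 : (x n i c * x i n a : St J K) = ww n i c0 * x n i (-c) := by
        unfold ww
        rw [hc0v, hc0i, mul_assoc, mul_assoc, ← x_add, add_neg_cancel, x_zero, mul_one, hac]
      have h2 := st_conj_ww hin w' hw'i hw'n c0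
      rw [hc0i] at h2
      calc Y n w * (x i n a * s) = Y n w' * (x n i c * x i n a) * s := by rw [hYw]; group
        _ = (Y n w' * ww n i c0) * x n i (-c) * s := by rw [h1]; group
        _ = ww n i c0 * y := by rw [h2, hy, hZd]; group
    rw [e1] at hne ⊢
    set v := phi y (Finsupp.single n 1) with hv
    have hyi : v i ≠ 0 := by
      intro h0
      apply hne
      rw [map_mul, LinearEquiv.mul_apply, ← hv, phi_ww n i hin.symm, h0]
      simp only [Finsupp.sub_apply, Finsupp.add_apply, Finsupp.single_eq_same, mul_zero,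
        Finsupp.single_zero, Finsupp.zero_apply, Finsupp.single_apply, if_neg hin]
      ring
    classical
    obtain ⟨e, he⟩ := Infinite.exists_notMem_finset ({0, -(v n) / (v i)} : Finset K)
    rw [Finset.mem_insert, Finset.mem_singleton, not_or] at he
    obtain ⟨he0, he1⟩ := he
    have he2 : v n + e * v i ≠ 0 := by
      intro h
      apply he1
      field_simp
      linear_combination h
    have hwz : c⁻¹ • w' i = 0 := by rw [hw'i, smul_zero]
    have e2 : x n i e * y = Z * (Y n (Finsupp.single i e + e • (c⁻¹ • w') +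
        Finsupp.single i (-c)) * s) := by
      have h1 := st_row_col hin.symm (c⁻¹ • w') (by rw [Finsupp.smul_apply, hw'n, smul_zero])
        (by rw [Finsupp.smul_apply, hw'i, smul_zero]) e
      rw [← hZd] at h1
      rw [hy, Y_add, Y_add, Y_single, Y_single]
      have h2 : x n i e * Z = Z * x n i e * Y n (e • (c⁻¹ • w')) := by
        have h3 : Commute (Z : St J K) (Y n (-(e • (c⁻¹ • w')))) :=
          st_row_row hin _ _ (by rw [Finsupp.neg_apply, Finsupp.smul_apply, Finsupp.smul_apply,
            hw'i, smul_zero, smul_zero, neg_zero]) (by rw [Finsupp.smul_apply, hw'i, smul_zero])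
            (by rw [Finsupp.smul_apply, hw'n, smul_zero])
        have h4 : (Y n (-(e • (c⁻¹ • w'))) : St J K) = (Y n (e • (c⁻¹ • w')))⁻¹ := Y_neg _ _
        rw [h1, mul_assoc (x n i e), ← h3.eq, h4]
        group
      calc x n i e * (Z * (x n i (-c) * s)) = (x n i e * Z) * x n i (-c) * s := by group
        _ = _ := by rw [h2]; group
    have hZm : Z ∈ (S I : Subgroup (St J K)) := hZ _
    have e3 : (phi (x n i e * y) (Finsupp.single n 1)) n = v n + e * v i := by
      rw [map_mul, LinearEquiv.mul_apply, ← hv, phi_x, tv_apply n i hin.symm, Finsupp.add_apply,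
        Finsupp.single_eq_same]
    have hβ : x n i e * y ∈ (Cell n I : Set (St J K)) := by
      rw [e2] at e3 ⊢
      rw [st_last_S hn hZm] at e3
      refine cell_S hn (ih _ (fun k hk => ?_) (by rw [e3]; exact he2)) hZm
      by_contra hkI
      have h2 : i ≠ k := by
        rintro rfl
        exact hkI hi
      have h3 : w' k = 0 := by
        by_contra h
        exact hkI (hw' k (Finsupp.mem_support_iff.2 h))
      rw [Finsupp.mem_support_iff, Finsupp.add_apply, Finsupp.add_apply, Finsupp.smul_apply,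
        Finsupp.smul_apply, h3, Finsupp.single_apply, Finsupp.single_apply, if_neg h2, if_neg h2,
        smul_zero, smul_zero, add_zero, add_zero] at hk
      exact hk rfl
    -- the unit t'
    have ht' : e * c⁻¹ ≠ 0 := mul_ne_zero he0 (inv_ne_zero hc)
    have hr := rank_two (J := J) i n hin (-c0⁻¹) (Units.mk0 (e * c⁻¹) ht') (c - e) (by
      rw [Units.val_mk0, Units.val_neg, hc0i]
      field_simp
      ring)
    have e4 : ww n i c0 * y = x n i (c + (c - e) * (((Units.mk0 (e * c⁻¹) ht')⁻¹ : Kˣ) : K)) *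
        ((ww i n (-c0⁻¹) * ww i n (-((-c0⁻¹) * (Units.mk0 (e * c⁻¹) ht')⁻¹))) *
          (x i n (((-c0⁻¹ : Kˣ) : K) * (((Units.mk0 (e * c⁻¹) ht')⁻¹ : Kˣ) : K)) *
            (x n i e * y))) := by
      have h1 : (ww n i c0 : St J K) = x n i c * (x i n ((-c0⁻¹ : Kˣ) : K) * x n i (c - e)) *
          x n i e := by
        unfold ww
        rw [mul_assoc (x n i c), mul_assoc (x i n ((-c0⁻¹ : Kˣ) : K)), ← x_add, sub_add_cancel,
          Units.val_neg, hc0v]
        group
      rw [h1, hr, x_add]
      group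
    rw [e4] at hne ⊢
    exact cell_row hn (cell_h hn (hcol _ _ hβ) (st_h_mem (Set.mem_insert_of_mem _ hi)
      (Set.mem_insert _ _) hin _ _)) hi _ hne
  · -- (3b)
    set c0 : Kˣ := Units.mk0 c hc with hc0
    set t : Kˣ := Units.mk0 (1 + c * a) ht with htd
    have hr := rank_two (J := J) n i hin.symm c0 t a rfl
    have hc0v : (c0 : K) = c := rfl
    rw [hc0v] at hr
    have hmem := st_h_mem (J := J) (I := insert n I) (Set.mem_insert n I)
      (Set.mem_insert_of_mem _ hi) hin.symm c0 (c0 * t⁻¹)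
    set h' : St J K := ww n i c0 * ww n i (-(c0 * t⁻¹)) with hh'
    obtain ⟨d, hd, -⟩ := Hs_diag (inv_mem hmem)
    obtain ⟨d', hd', -⟩ := Hs_diag hmem
    have h5 := st_conj_diag hd n w'
    rw [inv_inv] at h5
    have e1 : Y n w * (x i n a * s) = x i n (a * ((t⁻¹ : Kˣ) : K)) *
        (Y i (-((a * ((t⁻¹ : Kˣ) : K)) • w')) * (h' * (Y n (stDg d n w' +
          Finsupp.single i (c * ((t⁻¹ : Kˣ) : K))) * s))) := by
      rw [Y_add, Y_single, ← h5]
      calc Y n w * (x i n a * s) = Y n w' * (x n i c * x i n a) * s := by rw [hYw]; group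
        _ = (Y n w' * x i n (a * ((t⁻¹ : Kˣ) : K))) * h' * x n i (c * ((t⁻¹ : Kˣ) : K)) * s := by
          rw [hr]; group
        _ = _ := by
          rw [st_row_col hin w' hw'i hw'n]
          group
    rw [e1] at hne ⊢
    rw [← neg_smul] at hne ⊢
    rw [st_last_x hin, st_last_S hn (hZ _), map_mul, LinearEquiv.mul_apply, hd'] at hne
    refine hcol _ _ (cell_S hn (cell_h hn (ih _ (fun k hk => ?_) (right_ne_zero_of_mul hne))
      hmem) (hZ _))
    by_contra hkI
    have h2 : i ≠ k := by
      rintro rfl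
      exact hkI hi
    have h3 : w' k = 0 := by
      by_contra h
      exact hkI (hw' k (Finsupp.mem_support_iff.2 h))
    rw [Finsupp.mem_support_iff, Finsupp.add_apply, stDg_apply, h3, Finsupp.single_apply,
      if_neg h2, mul_zero, zero_mul, add_zero] at hk
    exact hk rfl

theorem star [Infinite K] {n : J} {I : Set J} (hn : n ∉ I) {s : St J K}
    (hs : s ∈ (S (insert n I) : Subgroup (St J K))) (w : J →₀ K) (hw : ∀ k ∈ w.support, k ∈ I)
    (hne : (phi (Y n w * s) (Finsupp.single n 1)) n ≠ 0) :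
    Y n w * s ∈ (Cell n I : Set (St J K)) := by
  revert w
  refine S_induction (I := insert n I) (p := fun s => ∀ w : J →₀ K, (∀ k ∈ w.support, k ∈ I) →
      (phi (Y n w * s) (Finsupp.single n 1)) n ≠ 0 → Y n w * s ∈ (Cell n I : Set (St J K))) ?_ ?_ hs
  · intro w hw _
    rw [mul_one]
    exact Qn_subset_Cell (st_Y_mem_Qn w hw)
  · intro i hi j hj a s _ ih w hw hne
    by_cases hij : i = j
    · subst hij
      rw [x_self, one_mul] at hne ⊢
      exact ih w hw hne
    rcases Set.mem_insert_iff.1 hj with hjn | hjI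
    · -- last column
      rcases Set.mem_insert_iff.1 hi with hin | hiI
      · exact absurd (hin.trans hjn.symm) hij
      · rw [hjn] at hne ⊢
        exact st_case3 hn ih hiI a w hw hne
    · rcases Set.mem_insert_iff.1 hi with hin | hiI
      · -- last row
        rw [hin] at hne ⊢
        have e1 : Y n w * (x n j a * s) = Y n (w + Finsupp.single j a) * s := by
          rw [Y_add, Y_single, mul_assoc]
        rw [e1] at hne ⊢
        refine ih _ (fun k hk => ?_) hne
        rcases Finset.mem_union.1 (Finsupp.support_add hk) with h | h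
        · exact hw k h
        · have h1 := Finsupp.support_single_subset h
          rw [Finset.mem_singleton] at h1
          rw [h1]
          exact hjI
      · -- inner generators
        have hin : i ≠ n := by
          rintro rfl
          exact hn hiI
        have hjn : j ≠ n := by
          rintro rfl
          exact hn hjI
        have hmem : (x i j (-a) : St J K) ∈ (S {n}ᶜ : Subgroup (St J K)) :=
          x_mem_S (I := {n}ᶜ) (fun h => hin (Set.mem_singleton_iff.1 h))
            (fun h => hjn (Set.mem_singleton_iff.1 h)) _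
        have h := conj_Y hmem w
        rw [psi_x, neg_neg, x_neg, inv_inv] at h
        have e1 : Y n w * (x i j a * s) = x i j a * (Y n (tv j i a w) * s) := by
          rw [← h]
          group
        rw [e1] at hne ⊢
        rw [st_last_S hn (x_mem_S hiI hjI a)] at hne
        refine cell_x hn (ih _ (fun k hk => ?_) hne) hiI hjI a
        rw [tv_apply j i (fun h => hij h.symm)] at hk
        rcases Finset.mem_union.1 (Finsupp.support_add hk) with h | h
        · exact hw k h
        · have h1 := Finsupp.support_single_subset h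
          rw [Finset.mem_singleton] at h1
          rw [h1]
          exact hjI

theorem st_Q_step {n : J} {I : Set J} (hn : n ∉ I) {i j : J} (hi : i ∈ insert n I) (hj : j ∈ I)
    (a : K) {y : St J K} (hy : ∃ q' ∈ (S I : Subgroup (St J K)),
      ∃ w : J →₀ K, (∀ k ∈ w.support, k ∈ I) ∧ y = q' * Y n w) :
    ∃ q' ∈ (S I : Subgroup (St J K)),
      ∃ w : J →₀ K, (∀ k ∈ w.support, k ∈ I) ∧ x i j a * y = q' * Y n w := by
  obtain ⟨q', hq', w, hw, rfl⟩ := hy
  rcases Set.mem_insert_iff.1 hi with hin | hiI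
  · rw [hin]
    have hsub : I ⊆ ({n}ᶜ : Set J) := by
      intro k hk h
      rw [Set.mem_singleton_iff.1 h] at hk
      exact hn hk
    have hmem : q'⁻¹ ∈ (S {n}ᶜ : Subgroup (St J K)) := S_mono hsub (inv_mem hq')
    have h := conj_Y hmem (Finsupp.single j a)
    rw [Y_single, inv_inv] at h
    refine ⟨q', hq', psi q'⁻¹ (Finsupp.single j a) + w, fun k hk => ?_, ?_⟩
    · by_contra hkI
      have h2 : j ≠ k := by
        rintro rfl
        exact hkI hj
      have h3 : w k = 0 := by
        by_contra h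
        exact hkI (hw k (Finsupp.mem_support_iff.2 h))
      rw [Finsupp.mem_support_iff, Finsupp.add_apply, h3, add_zero,
        psi_apply_of_notMem (inv_mem hq') hkI, Finsupp.single_apply, if_neg h2] at hk
      exact hk rfl
    · rw [Y_add, ← h]
      group
  · exact ⟨x i j a * q', mul_mem (x_mem_S hiI hj a) hq', w, hw, by rw [mul_assoc]⟩

theorem Q_split {n : J} {I : Set J} (hn : n ∉ I) {q : St J K}
    (hq : q ∈ (Qn n I : Subgroup (St J K))) :
    ∃ q' ∈ (S I : Subgroup (St J K)), ∃ w : J →₀ K, (∀ k ∈ w.support, k ∈ I) ∧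
      q = q' * Y n w := by
  refine Subgroup.closure_induction_left (p := fun q _ => ∃ q' ∈ (S I : Subgroup (St J K)),
    ∃ w : J →₀ K, (∀ k ∈ w.support, k ∈ I) ∧ q = q' * Y n w) ?_ ?_ ?_ hq
  · exact ⟨1, one_mem _, 0, fun k hk => by simp at hk, by rw [Y_zero, mul_one]⟩
  · rintro _ ⟨i, hi, j, hj, a, rfl⟩ y _ hy
    exact st_Q_step hn hi hj a hy
  · rintro _ ⟨i, hi, j, hj, a, rfl⟩ y _ hy
    rw [← x_neg]
    exact st_Q_step hn hi hj (-a) hy

theorem K2_split [Infinite K] {n i₀ : J} {I : Set J} (hn : n ∉ I) (hi : i₀ ∈ I) {s : St J K}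
    (hs : s ∈ (S (insert n I) : Subgroup (St J K))) (hk : s ∈ K2 J K) :
    ∃ t ∈ (S I : Subgroup (St J K)), t ∈ K2 J K ∧ ∃ c ∈ Sym J K, s = t * c := by
  have hphi : phi s = 1 := mem_K2.1 hk
  have hcell : s ∈ (Cell n I : Set (St J K)) := by
    have h := star hn hs 0 (fun k hk => by simp at hk)
    rw [Y_zero, one_mul, hphi] at h
    refine h ?_
    show (Finsupp.single n (1 : K)) n ≠ 0
    rw [Finsupp.single_eq_same]
    exact one_ne_zero
  obtain ⟨v, hv, h, hh, q, hq, e⟩ := hcell
  have hvn : v n = 0 := by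
    by_contra h
    exact hn (hv n (Finsupp.mem_support_iff.2 h))
  obtain ⟨d, hd, -⟩ := Hs_diag hh
  have hhe : phi h (Finsupp.single n 1) = Finsupp.single n (d n : K) := by
    ext k
    rw [hd, Finsupp.single_apply, Finsupp.single_apply]
    by_cases hnk : n = k
    · rw [if_pos hnk, if_pos hnk, mul_one, hnk]
    · rw [if_neg hnk, if_neg hnk, mul_zero]
  have h1 : Finsupp.single n (1 : K) = Finsupp.single n (d n : K) + (d n : K) • v := by
    have h2 : phi s (Finsupp.single n 1) = Finsupp.single n (1 : K) := by rw [hphi]; rfl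
    rw [e, map_mul, map_mul, LinearEquiv.mul_apply, LinearEquiv.mul_apply, phi_Qn hn hq, hhe,
      phi_X n v _ hvn, Finsupp.single_eq_same] at h2
    exact h2.symm
  have hdn : (d n : K) = 1 := by
    have h2 := DFunLike.congr_fun h1 n
    rw [Finsupp.add_apply, Finsupp.single_eq_same, Finsupp.single_eq_same, Finsupp.smul_apply,
      hvn, smul_zero, add_zero] at h2
    exact h2.symm
  have hv0 : v = 0 := by
    rw [hdn, one_smul] at h1
    exact (left_eq_add.1 h1)
  have hhI : h ∈ (Hs I : Subgroup (St J K)) := Hs_of_fix hn hi hh (by rw [hhe, hdn])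
  obtain ⟨q', hq', w, hw, eq⟩ := Q_split hn hq
  have : (Sym J K).Normal := ⟨fun c hc g => by
    rw [← Sym_central hc g, mul_inv_cancel_right]
    exact hc⟩
  obtain ⟨t₁, ht₁, c, hc, ec⟩ := Subgroup.mem_sup_of_normal_right.1 (Hs_le hhI)
  have hs2 : s = t₁ * q' * Y n w * c := by
    rw [e, hv0, X_zero, one_mul, eq, ← ec]
    rw [mul_assoc t₁ c, Sym_central hc]
    group
  have hcphi : phi c = 1 := mem_K2.1 (Sym_le_K2 hc)
  have hwn : w n = 0 := by
    by_contra h
    exact hn (hw n (Finsupp.mem_support_iff.2 h))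
  have hw0 : w = 0 := by
    refine ext_dot fun u => ?_
    rw [dot_zero_left]
    have h2 : (phi s u) n = u n := by rw [hphi]; rfl
    rw [hs2, map_mul, hcphi, mul_one, st_last_S hn (mul_mem ht₁ hq'), phi_Y n w u hwn,
      Finsupp.add_apply, Finsupp.single_eq_same] at h2
    exact left_eq_add.1 h2.symm
  refine ⟨t₁ * q', mul_mem ht₁ hq', ?_, c, hc, by rw [hs2, hw0, Y_zero, mul_one]⟩
  have h3 : t₁ * q' = s * c⁻¹ := by
    rw [hs2, hw0, Y_zero, mul_one, mul_inv_cancel_right]
  rw [h3]
  exact mul_mem hk (inv_mem (Sym_le_K2 hc))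

end MSK
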