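import Pool.Agent.MSK.Lp
import Pool.Agent.MSK.Dot

/-! MSK / Te: the Steinberg group of Laurent series acts on `J →₀ k⟦X⟧` by Toeplitz operators modulo `A1`.

`VO J k = (J →₀ k⟦X⟧)`. `te i j f : v ↦ v + single i (Tf f (v j))` (`i ≠ j`).
PROOFS. `te_add`, `te_comm`: exact identities, `Tf_add`, as in `Defs.tv_add`, `Defs.tv_comm`. `te_comm3`: `⁅te i j f, te j l g⁆` is
`v ↦ v + single i (Tf f (Tf g (v l)))` (compute as in `Defs.tv_comm3`), so `⁅te i j f, te j l g⁆ * (te i l (f g))⁻¹ - 1` is
`v ↦ single i ((Tf f ∘ Tf g - Tf (f g)) (v l))`, of finite rank by `FR_Tf_mul` and of square zero: `dt_of_sq`.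
`Ap s a`: `a` approximates `phi s`, i.e. `phi s ∘ ι - ι ∘ a` has finite rank, `ι = iOf`. `Ap_te`: the difference is
`v ↦ single i (defect f (v j))`. `Ap_mul`: `phi s phi s' ι - ι a a' = phi s (phi s' ι - ι a') + (phi s ι - ι a) a'`. `Ap_inv`: multiply
`phi s ι - ι a` by `- phi s⁻¹` on the left and `a⁻¹` on the right. `Ap_A0`: `ι (a - a')` has finite rank, `ι` is injective, `a⁻¹ a' - 1 = a⁻¹ (a' - a)`.
`exists_th`: by `induction_left` (`th s` is the class of a product of `te`'s). `Ap_of_th`: `th s = [a]`: by `exists_th` there is `a'` with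
`th s = [a']`, `Ap s a'`, and `a'⁻¹ a ∈ A1 ≤ A0`. -/

set_option autoImplicit false
set_option linter.unusedVariables false

namespace MSK

open scoped commutatorElement

variable {J : Type*} [DecidableEq J] {k : Type*} [Field k]

/-- `v ↦ v + single i (Tf f (v j))` -/
noncomputable def teMap (i j : J) (f : LaurentSeries k) :
    (J →₀ PowerSeries k) →ₗ[k] (J →₀ PowerSeries k) where
  toFun v := v + Finsupp.single i (Tf f (v j))
  map_add' v w := by
    rw [Finsupp.add_apply, map_add, Finsupp.single_add]; abel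
  map_smul' a v := by
    rw [Finsupp.smul_apply, map_smul, ← Finsupp.smul_single, ← smul_add]; rfl

theorem teMap_apply (i j : J) (f : LaurentSeries k) (v : J →₀ PowerSeries k) :
    teMap i j f v = v + Finsupp.single i (Tf f (v j)) := rfl

theorem teMap_add (i j : J) (h : i ≠ j) (f g : LaurentSeries k) (v : J →₀ PowerSeries k) :
    teMap i j f (teMap i j g v) = teMap i j (f + g) v := by
  simp only [teMap_apply, Finsupp.add_apply, Finsupp.single_apply, if_neg h, add_zero, Tf_add,
    LinearMap.add_apply, Finsupp.single_add]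
  abel

/-- the elementary Toeplitz operator -/
noncomputable def te (i j : J) (f : LaurentSeries k) :
    (J →₀ PowerSeries k) ≃ₗ[k] (J →₀ PowerSeries k) :=
  if h : i = j then 1 else
    LinearEquiv.ofLinearMap (teMap i j f) (teMap i j (-f))
      (by
        refine LinearMap.ext fun v => ?_
        rw [LinearMap.comp_apply, teMap_add i j h, add_neg_cancel]
        simp [teMap_apply, Tf_zero])
      (by
        refine LinearMap.ext fun v => ?_
        rw [LinearMap.comp_apply, teMap_add i j h, neg_add_cancel]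
        simp [teMap_apply, Tf_zero])

theorem te_self (i : J) (f : LaurentSeries k) : te i i f = 1 := by simp [te]

theorem te_apply (i j : J) (h : i ≠ j) (f : LaurentSeries k) (v : J →₀ PowerSeries k) :
    te i j f v = v + Finsupp.single i (Tf f (v j)) := by
  rw [te, dif_neg h]
  rfl

theorem te_add (i j : J) (f g : LaurentSeries k) : te i j (f + g) = te i j f * te i j g := by
  by_cases h : i = j
  · subst h
    rw [te_self, te_self, te_self, one_mul]
  · ext1 v
    rw [LinearEquiv.mul_apply, te_apply i j h, te_apply i j h, te_apply i j h]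
    simp only [Finsupp.add_apply, Finsupp.single_apply, if_neg h, add_zero, Tf_add,
      LinearMap.add_apply, Finsupp.single_add]
    abel

theorem te_neg (i j : J) (f : LaurentSeries k) : te i j (-f) = (te i j f)⁻¹ := by
  have h0 : te i j (0 : LaurentSeries k) = 1 := by
    have h := te_add i j (0 : LaurentSeries k) 0
    rw [add_zero] at h
    exact left_eq_mul.mp h
  rw [eq_inv_iff_mul_eq_one, ← te_add, neg_add_cancel, h0]

theorem te_comm (i j l m : J) (f g : LaurentSeries k) (hij : i ≠ j) (hlm : l ≠ m) (hjl : j ≠ l)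
    (him : i ≠ m) : Commute (te i j f) (te l m g) := by
  show te i j f * te l m g = te l m g * te i j f
  ext1 v
  rw [LinearEquiv.mul_apply, LinearEquiv.mul_apply, te_apply i j hij, te_apply l m hlm,
    te_apply l m hlm, te_apply i j hij]
  simp only [Finsupp.add_apply, Finsupp.single_apply, if_neg hjl.symm, if_neg him, add_zero]
  abel

theorem te_comm3 (i j l : J) (f g : LaurentSeries k) (hij : i ≠ j) (hjl : j ≠ l) (hil : i ≠ l) :
    (⁅te i j f, te j l g⁆)⁻¹ * te i l (f * g) ∈ A1 k (J →₀ PowerSeries k) := by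
  have hD : ∀ v : J →₀ PowerSeries k, ((⁅te i j f, te j l g⁆)⁻¹ * te i l (f * g)) v =
      v + Finsupp.single i (Tf (f * g) (v l) - Tf f (Tf g (v l))) := by
    intro v
    have hC : ∀ w : J →₀ PowerSeries k, (⁅te i j f, te j l g⁆)⁻¹ w =
        w - Finsupp.single i (Tf f (Tf g (w l))) := by
      intro w
      rw [commutatorElement_inv, commutatorElement_def, ← te_neg, ← te_neg]
      simp only [LinearEquiv.mul_apply, te_apply i j hij, te_apply j l hjl]
      simp only [Finsupp.add_apply, Finsupp.neg_apply, Finsupp.single_apply, if_neg hij,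
        if_neg hjl, if_neg hil, add_zero, if_true, Tf_neg, neg_zero,
        LinearMap.neg_apply, map_add, map_neg, Finsupp.single_add, Finsupp.single_neg]
      abel
    rw [LinearEquiv.mul_apply, te_apply i l hil, hC]
    simp only [Finsupp.add_apply, Finsupp.single_apply, if_neg hil, add_zero, Finsupp.single_sub]
    abel
  have hA0 : (⁅te i j f, te j l g⁆)⁻¹ * te i l (f * g) ∈ A0 k (J →₀ PowerSeries k) := by
    rw [mem_A0]
    have h1 : (((⁅te i j f, te j l g⁆)⁻¹ * te i l (f * g) :
        (J →₀ PowerSeries k) ≃ₗ[k] (J →₀ PowerSeries k)) :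
        (J →₀ PowerSeries k) →ₗ[k] (J →₀ PowerSeries k)) - LinearMap.id =
        Finsupp.lsingle i ∘ₗ (-(Tf f ∘ₗ Tf g - Tf (f * g))) ∘ₗ Finsupp.lapply l := by
      refine LinearMap.ext fun v => ?_
      rw [LinearMap.sub_apply, LinearEquiv.coe_coe, hD, LinearMap.id_apply, add_sub_cancel_left]
      simp only [LinearMap.comp_apply, LinearMap.neg_apply, LinearMap.sub_apply, neg_sub,
        Finsupp.lapply_apply, Finsupp.lsingle_apply]
    rw [h1]
    exact ((FR_Tf_mul f g).neg.comp_right _).comp_left _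
  refine ⟨hA0, dt_of_sq hA0 fun v => ?_⟩
  rw [hD v, add_sub_cancel_left, hD]
  have h2 : (Finsupp.single i (Tf (f * g) (v l) - Tf f (Tf g (v l))) : J →₀ PowerSeries k) l =
      0 := by
    rw [Finsupp.single_apply, if_neg hil]
  rw [h2, map_zero, map_zero, map_zero, sub_zero, Finsupp.single_zero, add_zero]

/-- the Toeplitz representation -/
noncomputable def th : St J (LaurentSeries k) →*
    ((J →₀ PowerSeries k) ≃ₗ[k] (J →₀ PowerSeries k)) ⧸ A1 k (J →₀ PowerSeries k) :=
  lift (fun i j f => QuotientGroup.mk (te i j f))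
    (fun i f => by rw [te_self]; rfl)
    (fun i j f g => by rw [te_add]; rfl)
    (fun i j l m f g h h' h'' h''' => by
      have := te_comm i j l m f g h h' h'' h'''
      exact this.map (QuotientGroup.mk' (A1 k (J →₀ PowerSeries k))))
    (fun i j l f g h h' h'' => by
      have := te_comm3 i j l f g h h' h''
      have h2 := (QuotientGroup.eq (s := A1 k (J →₀ PowerSeries k))).mpr this
      rw [← h2]
      exact (map_commutatorElement (QuotientGroup.mk' (A1 k (J →₀ PowerSeries k))) _ _).symm)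

theorem th_x (i j : J) (f : LaurentSeries k) :
    th (x i j f : St J (LaurentSeries k)) = QuotientGroup.mk (te i j f) := lift_x _ _ _ _ _ _ _ _

/-- coefficientwise inclusion -/
noncomputable def iOf (J : Type*) (k : Type*) [Field k] :
    (J →₀ PowerSeries k) →ₗ[k] (J →₀ LaurentSeries k) where
  toFun v := v.mapRange (iO k) (map_zero _)
  map_add' v w := by
    ext1 i
    simp
  map_smul' a v := by
    ext1 i
    simp [iO_C_smul]

theorem iOf_apply (v : J →₀ PowerSeries k) (i : J) : iOf J k v i = iO k (v i) := by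
  simp [iOf]

theorem iOf_injective : Function.Injective (iOf J k) := by
  intro v w h
  ext1 i
  apply iO_injective (k := k)
  rw [← iOf_apply, ← iOf_apply, h]

omit [DecidableEq J] in
theorem iOf_single (i : J) (f : PowerSeries k) :
    iOf J k (Finsupp.single i f) = Finsupp.single i (iO k f) :=
  Finsupp.mapRange_single (hf := map_zero (iO k))

/-- `phi s` as a `k`-linear map -/
noncomputable def phik (s : St J (LaurentSeries k)) :
    (J →₀ LaurentSeries k) →ₗ[k] (J →₀ LaurentSeries k) where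
  toFun v := phi s v
  map_add' v w := map_add _ _ _
  map_smul' a v := by
    have h : a • v = (HahnSeries.C a : LaurentSeries k) • v := by
      ext1 i
      simp only [Finsupp.smul_apply, smul_eq_mul]
      exact (HahnSeries.C_mul_eq_smul).symm
    have h' : a • (phi s v) = (HahnSeries.C a : LaurentSeries k) • (phi s v) := by
      ext1 i
      simp only [Finsupp.smul_apply, smul_eq_mul]
      exact (HahnSeries.C_mul_eq_smul).symm
    rw [h, map_smul, RingHom.id_apply, h']

theorem phik_apply (s : St J (LaurentSeries k)) (v : J →₀ LaurentSeries k) :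
    phik s v = phi s v := rfl

/-- `a` approximates the action of `s` -/
def Ap (s : St J (LaurentSeries k)) (a : (J →₀ PowerSeries k) ≃ₗ[k] (J →₀ PowerSeries k)) : Prop :=
  FR (phik s ∘ₗ iOf J k - iOf J k ∘ₗ (a : (J →₀ PowerSeries k) →ₗ[k] (J →₀ PowerSeries k)))

theorem Ap_one : Ap (1 : St J (LaurentSeries k)) 1 := by
  have h : phik (1 : St J (LaurentSeries k)) ∘ₗ iOf J k - iOf J k ∘ₗ
      ((1 : (J →₀ PowerSeries k) ≃ₗ[k] (J →₀ PowerSeries k)) :
        (J →₀ PowerSeries k) →ₗ[k] (J →₀ PowerSeries k)) = 0 := by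
    refine LinearMap.ext fun v => ?_
    rw [LinearMap.sub_apply, LinearMap.comp_apply, LinearMap.comp_apply, phik_apply, map_one]
    exact sub_self _
  unfold Ap
  rw [h]
  exact FR.zero

theorem Ap_te (i j : J) (f : LaurentSeries k) : Ap (x i j f) (te i j f) := by
  by_cases hij : i = j
  · subst hij
    rw [x_self, te_self]
    exact Ap_one
  · have h : phik (x i j f : St J (LaurentSeries k)) ∘ₗ iOf J k - iOf J k ∘ₗ
        ((te i j f : (J →₀ PowerSeries k) ≃ₗ[k] (J →₀ PowerSeries k)) :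
          (J →₀ PowerSeries k) →ₗ[k] (J →₀ PowerSeries k)) =
        Finsupp.lsingle i ∘ₗ defect f ∘ₗ Finsupp.lapply j := by
      refine LinearMap.ext fun v => ?_
      rw [LinearMap.sub_apply, LinearMap.comp_apply, LinearMap.comp_apply, phik_apply, phi_x,
        tv_apply i j hij, LinearEquiv.coe_coe, te_apply i j hij, map_add, iOf_single, iOf_apply]
      simp only [LinearMap.comp_apply, Finsupp.lapply_apply, Finsupp.lsingle_apply, defect_apply,
        Finsupp.single_sub]
      abel
    unfold Ap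
    rw [h]
    exact ((FR_defect f).comp_right _).comp_left _

theorem Ap_mul {s s' : St J (LaurentSeries k)}
    {a a' : (J →₀ PowerSeries k) ≃ₗ[k] (J →₀ PowerSeries k)} (h : Ap s a) (h' : Ap s' a') :
    Ap (s * s') (a * a') := by
  have h1 : phik (s * s') ∘ₗ iOf J k - iOf J k ∘ₗ
      ((a * a' : (J →₀ PowerSeries k) ≃ₗ[k] (J →₀ PowerSeries k)) :
        (J →₀ PowerSeries k) →ₗ[k] (J →₀ PowerSeries k)) =
      phik s ∘ₗ (phik s' ∘ₗ iOf J k - iOf J k ∘ₗ (a' : (J →₀ PowerSeries k) →ₗ[k] _)) +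
      (phik s ∘ₗ iOf J k - iOf J k ∘ₗ (a : (J →₀ PowerSeries k) →ₗ[k] _)) ∘ₗ
        (a' : (J →₀ PowerSeries k) →ₗ[k] _) := by
    refine LinearMap.ext fun v => ?_
    simp only [LinearMap.sub_apply, LinearMap.add_apply, LinearMap.comp_apply, phik_apply,
      map_mul, LinearEquiv.mul_apply, LinearEquiv.coe_coe, map_sub]
    abel
  unfold Ap
  rw [h1]
  exact (h'.comp_left _).add (h.comp_right _)

theorem Ap_inv {s : St J (LaurentSeries k)}
    {a : (J →₀ PowerSeries k) ≃ₗ[k] (J →₀ PowerSeries k)} (h : Ap s a) : Ap s⁻¹ a⁻¹ := by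
  have h1 : phik s⁻¹ ∘ₗ iOf J k - iOf J k ∘ₗ
      ((a⁻¹ : (J →₀ PowerSeries k) ≃ₗ[k] (J →₀ PowerSeries k)) :
        (J →₀ PowerSeries k) →ₗ[k] (J →₀ PowerSeries k)) =
      -(phik s⁻¹ ∘ₗ (phik s ∘ₗ iOf J k - iOf J k ∘ₗ (a : (J →₀ PowerSeries k) →ₗ[k] _)) ∘ₗ
        ((a⁻¹ : (J →₀ PowerSeries k) ≃ₗ[k] (J →₀ PowerSeries k)) :
        (J →₀ PowerSeries k) →ₗ[k] (J →₀ PowerSeries k))) := by
    refine LinearMap.ext fun v => ?_
    have e1 : a (a⁻¹ v) = v := by
      rw [← LinearEquiv.mul_apply, mul_inv_cancel]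
      rfl
    have e2 : ∀ w, phi s⁻¹ (phi s w) = w := by
      intro w
      rw [← LinearEquiv.mul_apply, ← map_mul, inv_mul_cancel, map_one]
      rfl
    simp only [LinearMap.sub_apply, LinearMap.neg_apply, LinearMap.comp_apply, phik_apply,
      LinearEquiv.coe_coe, map_sub, e1, e2]
    abel
  unfold Ap
  rw [h1]
  exact ((h.comp_right _).comp_left _).neg

/-- two approximations differ by an element of `A0` -/
theorem Ap_A0 {s : St J (LaurentSeries k)}
    {a a' : (J →₀ PowerSeries k) ≃ₗ[k] (J →₀ PowerSeries k)} (h : Ap s a) (h' : Ap s a') :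
    a⁻¹ * a' ∈ A0 k (J →₀ PowerSeries k) := by
  have h1 : FR (iOf J k ∘ₗ ((a' : (J →₀ PowerSeries k) →ₗ[k] (J →₀ PowerSeries k)) -
      (a : (J →₀ PowerSeries k) →ₗ[k] (J →₀ PowerSeries k)))) := by
    have h2 : iOf J k ∘ₗ ((a' : (J →₀ PowerSeries k) →ₗ[k] (J →₀ PowerSeries k)) -
        (a : (J →₀ PowerSeries k) →ₗ[k] (J →₀ PowerSeries k))) =
        (phik s ∘ₗ iOf J k - iOf J k ∘ₗ (a : (J →₀ PowerSeries k) →ₗ[k] _)) -
        (phik s ∘ₗ iOf J k - iOf J k ∘ₗ (a' : (J →₀ PowerSeries k) →ₗ[k] _)) := by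
      refine LinearMap.ext fun v => ?_
      simp only [LinearMap.sub_apply, LinearMap.comp_apply, map_sub]
      abel
    rw [h2]
    exact h.sub h'
  have h3 := FR.of_comp _ iOf_injective h1
  rw [mem_A0]
  have h4 : ((a⁻¹ * a' : (J →₀ PowerSeries k) ≃ₗ[k] (J →₀ PowerSeries k)) :
      (J →₀ PowerSeries k) →ₗ[k] (J →₀ PowerSeries k)) - LinearMap.id =
      ((a⁻¹ : (J →₀ PowerSeries k) ≃ₗ[k] (J →₀ PowerSeries k)) :
        (J →₀ PowerSeries k) →ₗ[k] (J →₀ PowerSeries k)) ∘ₗ
      ((a' : (J →₀ PowerSeries k) →ₗ[k] (J →₀ PowerSeries k)) -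
      (a : (J →₀ PowerSeries k) →ₗ[k] (J →₀ PowerSeries k))) := by
    refine LinearMap.ext fun v => ?_
    have e1 : a⁻¹ (a v) = v := by
      rw [← LinearEquiv.mul_apply, inv_mul_cancel]
      rfl
    simp only [LinearMap.sub_apply, LinearMap.comp_apply, LinearEquiv.coe_coe, map_sub,
      LinearEquiv.mul_apply, LinearMap.id_apply, e1]
  rw [h4]
  exact h3.comp_left _

theorem Ap_mul_A0 {s : St J (LaurentSeries k)}
    {a n : (J →₀ PowerSeries k) ≃ₗ[k] (J →₀ PowerSeries k)} (h : Ap s a)
    (hn : n ∈ A0 k (J →₀ PowerSeries k)) : Ap s (a * n) := by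
  have h1 : phik s ∘ₗ iOf J k - iOf J k ∘ₗ
      ((a * n : (J →₀ PowerSeries k) ≃ₗ[k] (J →₀ PowerSeries k)) :
        (J →₀ PowerSeries k) →ₗ[k] (J →₀ PowerSeries k)) =
      (phik s ∘ₗ iOf J k - iOf J k ∘ₗ (a : (J →₀ PowerSeries k) →ₗ[k] _)) ∘ₗ
        (n : (J →₀ PowerSeries k) →ₗ[k] _) -
      (phik s ∘ₗ iOf J k) ∘ₗ ((n : (J →₀ PowerSeries k) →ₗ[k] _) - LinearMap.id) := by
    refine LinearMap.ext fun v => ?_
    simp only [LinearMap.sub_apply, LinearMap.comp_apply, LinearEquiv.mul_apply,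
      LinearEquiv.coe_coe, map_sub, LinearMap.id_apply]
    abel
  unfold Ap
  rw [h1]
  exact (h.comp_right _).sub ((mem_A0.1 hn).comp_left _)

/-- it only depends on the action -/
theorem Ap_congr {s s' : St J (LaurentSeries k)}
    {a : (J →₀ PowerSeries k) ≃ₗ[k] (J →₀ PowerSeries k)} (hs : phi s = phi s') (h : Ap s a) :
    Ap s' a := by
  have h1 : phik s' = phik s := by
    refine LinearMap.ext fun v => ?_
    rw [phik_apply, phik_apply, hs]
  unfold Ap
  rw [h1]
  exact h

theorem Ap_K2 {s : St J (LaurentSeries k)}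
    {a : (J →₀ PowerSeries k) ≃ₗ[k] (J →₀ PowerSeries k)} (hs : s ∈ K2 J (LaurentSeries k)) :
    Ap s a ↔ a ∈ A0 k (J →₀ PowerSeries k) := by
  have h1 : phi s = phi (1 : St J (LaurentSeries k)) := by
    rw [mem_K2.1 hs, map_one]
  constructor
  · intro h
    have h2 := Ap_A0 Ap_one (Ap_congr h1 h)
    rwa [inv_one, one_mul] at h2
  · intro h
    have h2 := Ap_mul_A0 Ap_one h
    rw [one_mul] at h2
    exact Ap_congr h1.symm h2

theorem exists_th (s : St J (LaurentSeries k)) :
    ∃ a, th s = QuotientGroup.mk a ∧ Ap s a := by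
  induction s using induction_left with
  | h1 => exact ⟨1, by rw [map_one]; rfl, Ap_one⟩
  | hx i j f s hs =>
    obtain ⟨a, h1, h2⟩ := hs
    refine ⟨te i j f * a, ?_, Ap_mul (Ap_te i j f) h2⟩
    rw [map_mul, th_x, h1]
    rfl

theorem Ap_of_th {s : St J (LaurentSeries k)}
    {a : (J →₀ PowerSeries k) ≃ₗ[k] (J →₀ PowerSeries k)} (h : th s = QuotientGroup.mk a) :
    Ap s a := by
  obtain ⟨a', h1, h2⟩ := exists_th s
  rw [h1] at h
  have h3 := (QuotientGroup.eq (s := A1 k (J →₀ PowerSeries k))).1 h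
  have h4 := Ap_mul_A0 h2 h3.1
  rwa [mul_inv_cancel_left] at h4

end MSK
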