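import Pool.Agent.MSK.Wh

/-! MSK / Tor: the torus elements modulo symbols.

PROOFS. All elements `hh i j u` act diagonally, so `conj_x_diag` gives `hh i j u * ww k l v * (hh i j u)⁻¹ = ww k l (t v)` with
`t = d_k d_l⁻¹` (`d` the diagonal of `hh i j u`).
`hh_comm_mem`: hence `hh i j u * hh k l v * (hh i j u)⁻¹ = ww k l (t v) * ww k l (-t) = hh k l (t v) * (hh k l t)⁻¹` (`ww_neg`), so the
commutator is `hh k l (t v) (hh k l t)⁻¹ (hh k l v)⁻¹`, which is an inverse of `cc k l _ _` up to order (central): in `Sym`.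
`hh_mul_hh_swap`: `hh i j u * hh j i u = ww u * ww (-1) * ww (-u⁻¹) * ww 1` (`ww = ww i j`, `ww_swap`), and
`ww (-1) * ww v * (ww (-1))⁻¹ = ww v⁻¹` (conjugate the three factors of `ww v` by `conj_x`, then `ww_swap`), so the product is
`ww u * ww (-u) = 1`.
`hh_trans`: with `s = ww k j 1`: `s * hh i j u * s⁻¹ = hh i k u` and `(hh i j u)⁻¹ * s * hh i j u = ww k j u⁻¹`, so
`hh i k u = hh i j u * (ww k j u⁻¹ * ww k j (-1)) = hh i j u * hh k j u⁻¹ = hh i j u * (hh j k u⁻¹)⁻¹`, and `hh j k u * hh j k u⁻¹ = cc j k u u⁻¹`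
(`hh 1 = 1`).
`Sym_le_K2`, `Sym_central`: `cc_mem_K2`, `K2_central`. -/

set_option autoImplicit false
set_option linter.unusedVariables false

namespace MSK

open scoped commutatorElement

variable {J : Type*} {R : Type*} [CommRing R] [DecidableEq J] [Infinite J]

theorem Sym_le_K2 : Sym J R ≤ K2 J R := by
  refine (Subgroup.closure_le _).2 ?_
  rintro _ ⟨i, j, u, v, hij, rfl⟩
  exact cc_mem_K2 i j hij u v

theorem Sym_central {s : St J R} (hs : s ∈ Sym J R) (t : St J R) : s * t = t * s := by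
  exact K2_central (Sym_le_K2 hs) t

theorem hh_one (i j : J) : (hh i j 1 : St J R) = 1 := by
  unfold hh
  rw [ww_neg, mul_inv_cancel]

theorem cc_mem_Sym {i j : J} (hij : i ≠ j) (u v : Rˣ) : (cc i j u v : St J R) ∈ Sym J R :=
  Subgroup.subset_closure ⟨i, j, u, v, hij, rfl⟩

/-- `s` acts diagonally by `d` -/
private def Dg (s : St J R) (d : J → Rˣ) : Prop :=
  ∀ v : J →₀ R, ∀ k, (phi s v) k = (d k : R) * v k

omit [Infinite J] in
private theorem Dg_inv {s : St J R} {d : J → Rˣ} (h : Dg s d) : Dg s⁻¹ (fun k => (d k)⁻¹) := by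
  intro v k
  have h1 := h (phi s⁻¹ v) k
  have h2 : phi s (phi s⁻¹ v) = v := by
    rw [← LinearEquiv.mul_apply, ← map_mul, mul_inv_cancel, map_one]
    rfl
  rw [h2] at h1
  rw [h1, ← mul_assoc, ← Units.val_mul, inv_mul_cancel, Units.val_one, one_mul]

omit [Infinite J] in
private theorem Dg_mul {s t : St J R} {d e : J → Rˣ} (h : Dg s d) (h' : Dg t e) :
    Dg (s * t) (fun k => d k * e k) := by
  intro v k
  rw [map_mul, LinearEquiv.mul_apply, h, h', Units.val_mul, mul_assoc]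

omit [Infinite J] in
private theorem Dg_one : Dg (1 : St J R) (fun _ => 1) := by
  intro v k
  rw [map_one, Units.val_one, one_mul]
  rfl

omit [Infinite J] in
private theorem Dg_K2 {s : St J R} (h : s ∈ K2 J R) : Dg s (fun _ => 1) := by
  intro v k
  rw [mem_K2.1 h, Units.val_one, one_mul]
  rfl

/-- the diagonal of `hh i j u` -/
private def dh (i j : J) (u : Rˣ) (k : J) : Rˣ := if k = i then u else if k = j then u⁻¹ else 1

omit [Infinite J] in
private theorem Dg_hh (i j : J) (hij : i ≠ j) (u : Rˣ) : Dg (hh i j u : St J R) (dh i j u) := by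
  intro v k
  rw [phi_hh i j hij u v]
  unfold dh
  simp only [Finsupp.add_apply, Finsupp.sub_apply, Finsupp.single_apply]
  by_cases h1 : k = i
  · subst h1
    rw [if_pos rfl, if_neg (Ne.symm hij), if_pos rfl, if_neg (Ne.symm hij), if_pos rfl]
    ring
  · by_cases h2 : k = j
    · subst h2
      rw [if_neg (Ne.symm h1), if_pos rfl, if_neg (Ne.symm h1), if_pos rfl, if_neg h1, if_pos rfl]
      ring
    · rw [if_neg (Ne.symm h1), if_neg (Ne.symm h2), if_neg (Ne.symm h1), if_neg (Ne.symm h2),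
        if_neg h1, if_neg h2, Units.val_one]
      ring

private theorem conj_ww {s : St J R} {d : J → Rˣ} (h : Dg s d) (k l : J) (v : Rˣ) :
    s * ww k l v * s⁻¹ = ww k l (d k * (d l)⁻¹ * v) := by
  have h1 := conj_x_diag s d h k l (v : R)
  have h2 := conj_x_diag s d h l k (-((v⁻¹ : Rˣ) : R))
  have h3 : s * ww k l v * s⁻¹ = (s * x k l (v : R) * s⁻¹) *
      (s * x l k (-((v⁻¹ : Rˣ) : R)) * s⁻¹) * (s * x k l (v : R) * s⁻¹) := by
    unfold ww
    group
  have e1 : (d k : R) * (v : R) * (((d l)⁻¹ : Rˣ) : R) = ((d k * (d l)⁻¹ * v : Rˣ) : R) := by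
    rw [Units.val_mul, Units.val_mul]
    ring
  have e2 : (d l : R) * (-((v⁻¹ : Rˣ) : R)) * (((d k)⁻¹ : Rˣ) : R) =
      -(((d k * (d l)⁻¹ * v)⁻¹ : Rˣ) : R) := by
    rw [mul_inv_rev, mul_inv_rev, inv_inv, Units.val_mul, Units.val_mul]
    ring
  rw [h3, h1, h2, e1, e2]
  rfl

private theorem comm_diag {s : St J R} {d : J → Rˣ} (h : Dg s d) (k l : J) (v : Rˣ) :
    ⁅s, (hh k l v : St J R)⁆ = (cc k l v (d k * (d l)⁻¹))⁻¹ := by
  set t := d k * (d l)⁻¹ with ht
  have h1 := conj_ww h k l v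
  have h2 := conj_ww h k l (-1)
  rw [← ht] at h1 h2
  have h3 : s * hh k l v * s⁻¹ = ww k l (t * v) * ww k l (-t) := by
    have h4 : s * hh k l v * s⁻¹ = (s * ww k l v * s⁻¹) * (s * ww k l (-1) * s⁻¹) := by
      unfold hh
      group
    rw [h4, h1, h2, mul_neg, mul_one]
  rw [commutatorElement_def, h3, ww_neg k l t]
  unfold cc hh
  rw [mul_comm v t]
  group

theorem hh_comm_mem (i j k l : J) (hij : i ≠ j) (hkl : k ≠ l) (u v : Rˣ) :
    ⁅(hh i j u : St J R), hh k l v⁆ ∈ Sym J R := by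
  rw [comm_diag (Dg_hh i j hij u) k l v]
  exact Subgroup.inv_mem _ (cc_mem_Sym hkl _ _)

private theorem ww_conj_neg_one (i j : J) (hij : i ≠ j) (v : Rˣ) :
    ww i j (-1) * ww i j v * (ww i j (-1))⁻¹ = (ww i j v⁻¹ : St J R) := by
  have hji : j ≠ i := Ne.symm hij
  have hinv : (((-1 : Rˣ))⁻¹ : Rˣ) = -1 := by rw [inv_neg, inv_one]
  have h1 : ∀ a : R, ww i j (-1) * x i j a * (ww i j (-1))⁻¹ = (x j i (-a) : St J R) := by
    intro a
    rw [conj_x _ _ _ hij, phi_ww i j hij, psi_ww i j hij, hinv]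
    have e1 : (Finsupp.single i a : J →₀ R) - Finsupp.single i ((Finsupp.single i a : J →₀ R) i) -
        Finsupp.single j ((Finsupp.single i a : J →₀ R) j) +
        Finsupp.single i (((-1 : Rˣ) : R) * (Finsupp.single i a : J →₀ R) j) -
        Finsupp.single j (((-1 : Rˣ) : R) * (Finsupp.single i a : J →₀ R) i) =
        Finsupp.single j a := by
      rw [Finsupp.single_eq_same, Finsupp.single_eq_of_ne hji]
      simp
    have e2 : (Finsupp.single j 1 : J →₀ R) - Finsupp.single i ((Finsupp.single j 1 : J →₀ R) i) -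
        Finsupp.single j ((Finsupp.single j 1 : J →₀ R) j) +
        Finsupp.single i (((-1 : Rˣ) : R) * (Finsupp.single j 1 : J →₀ R) j) -
        Finsupp.single j (((-1 : Rˣ) : R) * (Finsupp.single j 1 : J →₀ R) i) =
        Finsupp.single i (-1) := by
      rw [Finsupp.single_eq_same, Finsupp.single_eq_of_ne hij]
      simp
    rw [e1, e2, T_single j i hji]
    congr 1
    ring
  have h2 : ∀ a : R, ww i j (-1) * x j i a * (ww i j (-1))⁻¹ = (x i j (-a) : St J R) := by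
    intro a
    rw [conj_x _ _ _ hji, phi_ww i j hij, psi_ww i j hij, hinv]
    have e1 : (Finsupp.single j a : J →₀ R) - Finsupp.single i ((Finsupp.single j a : J →₀ R) i) -
        Finsupp.single j ((Finsupp.single j a : J →₀ R) j) +
        Finsupp.single i (((-1 : Rˣ) : R) * (Finsupp.single j a : J →₀ R) j) -
        Finsupp.single j (((-1 : Rˣ) : R) * (Finsupp.single j a : J →₀ R) i) =
        Finsupp.single i (-a) := by
      rw [Finsupp.single_eq_same, Finsupp.single_eq_of_ne hij]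
      simp
    have e2 : (Finsupp.single i 1 : J →₀ R) - Finsupp.single i ((Finsupp.single i 1 : J →₀ R) i) -
        Finsupp.single j ((Finsupp.single i 1 : J →₀ R) j) +
        Finsupp.single i (((-1 : Rˣ) : R) * (Finsupp.single i 1 : J →₀ R) j) -
        Finsupp.single j (((-1 : Rˣ) : R) * (Finsupp.single i 1 : J →₀ R) i) =
        Finsupp.single j 1 := by
      rw [Finsupp.single_eq_same, Finsupp.single_eq_of_ne hji]
      simp
    rw [e1, e2, T_single i j hij, mul_one]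
  have h3 : ww i j (-1) * ww i j v * (ww i j (-1))⁻¹ =
      (ww i j (-1) * x i j (v : R) * (ww i j (-1))⁻¹) *
      (ww i j (-1) * x j i (-((v⁻¹ : Rˣ) : R)) * (ww i j (-1))⁻¹) *
      (ww i j (-1) * x i j (v : R) * (ww i j (-1))⁻¹ : St J R) := by
    have : ∀ w : St J R, w * ww i j v * w⁻¹ = (w * x i j (v : R) * w⁻¹) *
        (w * x j i (-((v⁻¹ : Rˣ) : R)) * w⁻¹) * (w * x i j (v : R) * w⁻¹) := by
      intro w
      unfold ww
      group
    exact this _
  rw [h3, h1, h2]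
  have h4 : x j i (-(v : R)) * x i j (-(-((v⁻¹ : Rˣ) : R))) * x j i (-(v : R)) =
      (ww j i (-v) : St J R) := by
    unfold ww
    rw [inv_neg, Units.val_neg, Units.val_neg]
  rw [h4, ww_swap j i hji, inv_neg, neg_neg]

theorem hh_mul_hh_swap (i j : J) (hij : i ≠ j) (u : Rˣ) : (hh i j u : St J R) * hh j i u = 1 := by
  have hji : j ≠ i := Ne.symm hij
  have h1 : (hh j i u : St J R) = ww i j (-u⁻¹) * (ww i j (-1))⁻¹ := by
    unfold hh
    rw [ww_swap j i hji u, ww_swap j i hji (-1), inv_neg, inv_one, neg_neg, ← ww_neg, neg_neg]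
  have h2 := ww_conj_neg_one i j hij (-u⁻¹)
  rw [h1]
  unfold hh
  calc ww i j u * ww i j (-1) * (ww i j (-u⁻¹) * (ww i j (-1))⁻¹) =
      ww i j u * (ww i j (-1) * ww i j (-u⁻¹) * (ww i j (-1))⁻¹) := by group
    _ = 1 := by rw [h2, inv_neg, inv_inv, ww_neg, mul_inv_cancel]

private theorem ww_conj_swap (i j k : J) (hij : i ≠ j) (hik : i ≠ k) (hjk : j ≠ k) (u : Rˣ) :
    ww k j 1 * ww i j u * (ww k j 1)⁻¹ = (ww i k u : St J R) := by
  have hji : j ≠ i := Ne.symm hij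
  have hki : k ≠ i := Ne.symm hik
  have hkj : k ≠ j := Ne.symm hjk
  have h1 : ∀ a : R, ww k j 1 * x i j a * (ww k j 1)⁻¹ = (x i k a : St J R) := by
    intro a
    rw [conj_x _ _ _ hij, phi_ww k j hkj, psi_ww k j hkj, inv_one]
    have e1 : (Finsupp.single i a : J →₀ R) - Finsupp.single k ((Finsupp.single i a : J →₀ R) k) -
        Finsupp.single j ((Finsupp.single i a : J →₀ R) j) +
        Finsupp.single k (((1 : Rˣ) : R) * (Finsupp.single i a : J →₀ R) j) -
        Finsupp.single j (((1 : Rˣ) : R) * (Finsupp.single i a : J →₀ R) k) =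
        Finsupp.single i a := by
      rw [Finsupp.single_eq_of_ne hki, Finsupp.single_eq_of_ne hji]
      simp
    have e2 : (Finsupp.single j 1 : J →₀ R) - Finsupp.single k ((Finsupp.single j 1 : J →₀ R) k) -
        Finsupp.single j ((Finsupp.single j 1 : J →₀ R) j) +
        Finsupp.single k (((1 : Rˣ) : R) * (Finsupp.single j 1 : J →₀ R) j) -
        Finsupp.single j (((1 : Rˣ) : R) * (Finsupp.single j 1 : J →₀ R) k) =
        Finsupp.single k 1 := by
      rw [Finsupp.single_eq_same, Finsupp.single_eq_of_ne hkj]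
      simp
    rw [e1, e2, T_single i k hik, mul_one]
  have h2 : ∀ a : R, ww k j 1 * x j i a * (ww k j 1)⁻¹ = (x k i a : St J R) := by
    intro a
    rw [conj_x _ _ _ hji, phi_ww k j hkj, psi_ww k j hkj, inv_one]
    have e1 : (Finsupp.single j a : J →₀ R) - Finsupp.single k ((Finsupp.single j a : J →₀ R) k) -
        Finsupp.single j ((Finsupp.single j a : J →₀ R) j) +
        Finsupp.single k (((1 : Rˣ) : R) * (Finsupp.single j a : J →₀ R) j) -
        Finsupp.single j (((1 : Rˣ) : R) * (Finsupp.single j a : J →₀ R) k) =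
        Finsupp.single k a := by
      rw [Finsupp.single_eq_same, Finsupp.single_eq_of_ne hkj]
      simp
    have e2 : (Finsupp.single i 1 : J →₀ R) - Finsupp.single k ((Finsupp.single i 1 : J →₀ R) k) -
        Finsupp.single j ((Finsupp.single i 1 : J →₀ R) j) +
        Finsupp.single k (((1 : Rˣ) : R) * (Finsupp.single i 1 : J →₀ R) j) -
        Finsupp.single j (((1 : Rˣ) : R) * (Finsupp.single i 1 : J →₀ R) k) =
        Finsupp.single i 1 := by
      rw [Finsupp.single_eq_of_ne hki, Finsupp.single_eq_of_ne hji]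
      simp
    rw [e1, e2, T_single k i hki, mul_one]
  have h3 : ∀ w : St J R, w * ww i j u * w⁻¹ = (w * x i j (u : R) * w⁻¹) *
      (w * x j i (-((u⁻¹ : Rˣ) : R)) * w⁻¹) * (w * x i j (u : R) * w⁻¹) := by
    intro w
    unfold ww
    group
  rw [h3, h1, h2]
  rfl

theorem hh_trans (i j k : J) (hij : i ≠ j) (hik : i ≠ k) (hjk : j ≠ k) (u : Rˣ) :
    ∃ c ∈ Sym J R, (hh i k u : St J R) = hh i j u * hh j k u * c := by
  have hkj : k ≠ j := Ne.symm hjk
  have h1 : ww k j 1 * hh i j u * (ww k j 1)⁻¹ = (hh i k u : St J R) := by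
    have h2 : ∀ w : St J R, w * hh i j u * w⁻¹ = (w * ww i j u * w⁻¹) * (w * ww i j (-1) * w⁻¹) := by
      intro w
      unfold hh
      group
    rw [h2, ww_conj_swap i j k hij hik hjk, ww_conj_swap i j k hij hik hjk]
    rfl
  have h3 := conj_ww (Dg_inv (Dg_hh (R := R) i j hij u)) k j 1
  have h4 : (dh i j u k)⁻¹ * ((dh i j u j)⁻¹)⁻¹ * 1 = u⁻¹ := by
    unfold dh
    rw [if_neg (Ne.symm hik), if_neg hkj, if_neg (Ne.symm hij), if_pos rfl]
    simp
  rw [h4, inv_inv] at h3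
  have h5 : (hh i k u : St J R) = hh i j u * hh k j u⁻¹ := by
    rw [← h1]
    calc ww k j 1 * hh i j u * (ww k j 1)⁻¹ =
        hh i j u * ((hh i j u)⁻¹ * ww k j 1 * hh i j u) * (ww k j 1)⁻¹ := by group
      _ = hh i j u * hh k j u⁻¹ := by
        rw [h3]
        unfold hh
        rw [ww_neg k j 1]
        group
  have h6 := hh_mul_hh_swap (R := R) k j hkj u⁻¹
  have h7 : (cc j k u u⁻¹ : St J R) = hh j k u * hh j k u⁻¹ := by
    unfold cc
    rw [mul_inv_cancel, hh_one, inv_one, mul_one]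
  refine ⟨(cc j k u u⁻¹)⁻¹, Subgroup.inv_mem _ (cc_mem_Sym hjk u u⁻¹), ?_⟩
  have h8 : (hh k j u⁻¹ : St J R) = (hh j k u⁻¹)⁻¹ := eq_inv_of_mul_eq_one_left h6
  have h9 := Sym_central (cc_mem_Sym (R := R) hjk u u⁻¹) (hh j k u)
  rw [h5, h8]
  have h10 : (hh j k u⁻¹ : St J R) = (hh j k u)⁻¹ * cc j k u u⁻¹ := by rw [h7]; group
  have h11 : (hh j k u : St J R) * (cc j k u u⁻¹)⁻¹ = (cc j k u u⁻¹)⁻¹ * hh j k u := by
    rw [mul_inv_eq_iff_eq_mul, mul_assoc, ← h9, inv_mul_cancel_left]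
  rw [mul_assoc, h11, h10]
  group

/-- the group generated by the `hh i j u`, `i ≠ j ∈ I`, and the symbols -/
noncomputable def Hs (I : Set J) : Subgroup (St J R) :=
  Subgroup.closure {s | ∃ i ∈ I, ∃ j ∈ I, i ≠ j ∧ ∃ u : Rˣ, s = hh i j u} ⊔ Sym J R

/-- elements commuting with `t` modulo symbols -/
private def CS (t : St J R) : Subgroup (St J R) where
  carrier := {s | ⁅s, t⁆ ∈ Sym J R}
  one_mem' := by
    show ⁅(1 : St J R), t⁆ ∈ Sym J R
    rw [commutatorElement_one_left]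
    exact Subgroup.one_mem _
  mul_mem' := by
    intro a b ha hb
    have ha' : ⁅a, t⁆ ∈ Sym J R := ha
    have hb' : ⁅b, t⁆ ∈ Sym J R := hb
    show ⁅a * b, t⁆ ∈ Sym J R
    have h1 : ⁅a * b, t⁆ = a * ⁅b, t⁆ * a⁻¹ * ⁅a, t⁆ := by
      simp only [commutatorElement_def]
      group
    rw [h1, ← Sym_central hb' a, mul_inv_cancel_right]
    exact Subgroup.mul_mem _ hb' ha'
  inv_mem' := by
    intro a ha
    have ha' : ⁅a, t⁆ ∈ Sym J R := ha
    show ⁅a⁻¹, t⁆ ∈ Sym J R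
    have h1 : ⁅a⁻¹, t⁆ = a⁻¹ * (⁅a, t⁆)⁻¹ * a := by
      simp only [commutatorElement_def]
      group
    have h2 := Subgroup.inv_mem _ ha'
    rw [h1, ← Sym_central h2 a⁻¹, inv_mul_cancel_right]
    exact h2

private theorem mem_CS {s t : St J R} : s ∈ CS t ↔ ⁅s, t⁆ ∈ Sym J R := Iff.rfl

private theorem CS_symm {s t : St J R} (h : s ∈ CS t) : t ∈ CS s := by
  rw [mem_CS] at h ⊢
  rw [← commutatorElement_inv]
  exact Subgroup.inv_mem _ h

private theorem Sym_le_CS (t : St J R) : Sym J R ≤ CS t := by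
  intro c hc
  rw [mem_CS, commutatorElement_def, Sym_central hc t, mul_inv_cancel_right, mul_inv_cancel]
  exact Subgroup.one_mem _

private theorem Hs_le_of {I : Set J} {K : Subgroup (St J R)}
    (h : ∀ i ∈ I, ∀ j ∈ I, i ≠ j → ∀ u : Rˣ, (hh i j u : St J R) ∈ K) (hS : Sym J R ≤ K) :
    (Hs I : Subgroup (St J R)) ≤ K := by
  unfold Hs
  refine sup_le ((Subgroup.closure_le _).2 ?_) hS
  rintro _ ⟨i, hi, j, hj, hij, u, rfl⟩
  exact h i hi j hj hij u

private theorem hh_mem_Hs {I : Set J} {i j : J} (hi : i ∈ I) (hj : j ∈ I) (hij : i ≠ j) (u : Rˣ) :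
    (hh i j u : St J R) ∈ (Hs I : Subgroup (St J R)) := by
  unfold Hs
  exact Subgroup.mem_sup_left (Subgroup.subset_closure ⟨i, hi, j, hj, hij, u, rfl⟩)

private theorem Sym_le_Hs (I : Set J) : Sym J R ≤ (Hs I : Subgroup (St J R)) := le_sup_right

private theorem Hs_mono' {I I' : Set J} (h : I ⊆ I') : (Hs I : Subgroup (St J R)) ≤ Hs I' :=
  Hs_le_of (fun i hi j hj hij u => hh_mem_Hs (h hi) (h hj) hij u) (Sym_le_Hs I')

theorem Hs_comm_mem {I : Set J} {s t : St J R} (hs : s ∈ (Hs I : Subgroup (St J R)))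
    (ht : t ∈ (Hs I : Subgroup (St J R))) : ⁅s, t⁆ ∈ Sym J R := by
  have h1 : ∀ i ∈ I, ∀ j ∈ I, i ≠ j → ∀ u : Rˣ, (Hs I : Subgroup (St J R)) ≤ CS (hh i j u) :=
    fun i _ j _ hij u => Hs_le_of (fun k _ l _ hkl v => hh_comm_mem k l i j hkl hij v u)
      (Sym_le_CS _)
  have h2 : (Hs I : Subgroup (St J R)) ≤ CS s :=
    Hs_le_of (fun i hi j hj hij u => CS_symm (h1 i hi j hj hij u hs)) (Sym_le_CS s)
  exact CS_symm (h2 ht)

private def DS (I : Set J) : Subgroup (St J R) where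
  carrier := {s | ∃ d : J → Rˣ, Dg s d ∧ ∀ k, k ∉ I → d k = 1}
  one_mem' := ⟨_, Dg_one, fun _ _ => rfl⟩
  mul_mem' := by
    rintro a b ⟨d, hd, hd'⟩ ⟨e, he, he'⟩
    exact ⟨_, Dg_mul hd he, fun k hk => by
      show d k * e k = 1
      rw [hd' k hk, he' k hk, one_mul]⟩
  inv_mem' := by
    rintro a ⟨d, hd, hd'⟩
    exact ⟨_, Dg_inv hd, fun k hk => by
      show (d k)⁻¹ = 1
      rw [hd' k hk, inv_one]⟩

/-- elements of `Hs` act diagonally -/
theorem Hs_diag {I : Set J} {s : St J R} (hs : s ∈ (Hs I : Subgroup (St J R))) :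
    ∃ d : J → Rˣ, (∀ v : J →₀ R, ∀ k, (phi s v) k = (d k : R) * v k) ∧ ∀ k, k ∉ I → d k = 1 := by
  have h1 : (Hs I : Subgroup (St J R)) ≤ DS I := by
    refine Hs_le_of (fun i hi j hj hij u => ⟨_, Dg_hh i j hij u, fun k hk => ?_⟩)
      (fun c hc => ⟨_, Dg_K2 (Sym_le_K2 hc), fun _ _ => rfl⟩)
    unfold dh
    rw [if_neg (show ¬ k = i from fun h => hk (h ▸ hi)),
      if_neg (show ¬ k = j from fun h => hk (h ▸ hj))]
  exact h1 hs

private theorem hh_mul (i j : J) (u v : Rˣ) : (hh i j u : St J R) * hh i j v =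
    cc i j u v * hh i j (u * v) := by
  unfold cc
  rw [inv_mul_cancel_right]

private def BS {I : Set J} {n i₀ : J} (hn : n ∉ I) (hi : i₀ ∈ I) : Subgroup (St J R) where
  carrier := {s | ∃ t ∈ (Hs I : Subgroup (St J R)), ∃ u : Rˣ, s = t * hh i₀ n u}
  one_mem' := ⟨1, Subgroup.one_mem _, 1, by rw [hh_one, mul_one]⟩
  mul_mem' := by
    rintro _ _ ⟨t, ht, u, rfl⟩ ⟨t', ht', u', rfl⟩
    have hne : i₀ ≠ n := fun h => hn (h ▸ hi)
    have hmem : (hh i₀ n u : St J R) ∈ (Hs (insert n I) : Subgroup (St J R)) :=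
      hh_mem_Hs (Set.mem_insert_of_mem _ hi) (Set.mem_insert _ _) hne u
    have h1 := Hs_comm_mem hmem (Hs_mono' (Set.subset_insert n I) ht')
    refine ⟨t * (⁅(hh i₀ n u : St J R), t'⁆ * t' * cc i₀ n u u'), ?_, u * u', ?_⟩
    · exact Subgroup.mul_mem _ ht (Subgroup.mul_mem _ (Subgroup.mul_mem _ (Sym_le_Hs I h1) ht')
        (Sym_le_Hs I (cc_mem_Sym hne _ _)))
    · have h2 : hh i₀ n u * t' = ⁅(hh i₀ n u : St J R), t'⁆ * t' * hh i₀ n u := by
        rw [commutatorElement_def]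
        group
      calc t * hh i₀ n u * (t' * hh i₀ n u') = t * (hh i₀ n u * t') * hh i₀ n u' := by group
        _ = t * (⁅(hh i₀ n u : St J R), t'⁆ * t' * hh i₀ n u) * hh i₀ n u' := by rw [h2]
        _ = t * (⁅(hh i₀ n u : St J R), t'⁆ * t') * (hh i₀ n u * hh i₀ n u') := by
          simp only [mul_assoc]
        _ = t * (⁅(hh i₀ n u : St J R), t'⁆ * t' * cc i₀ n u u') * hh i₀ n (u * u') := by
          rw [hh_mul]
          simp only [mul_assoc]
  inv_mem' := by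
    rintro _ ⟨t, ht, u, rfl⟩
    have hne : i₀ ≠ n := fun h => hn (h ▸ hi)
    have hmem : (hh i₀ n u : St J R) ∈ (Hs (insert n I) : Subgroup (St J R)) :=
      hh_mem_Hs (Set.mem_insert_of_mem _ hi) (Set.mem_insert _ _) hne u
    have h1 := Hs_comm_mem (Subgroup.inv_mem _ hmem)
      (Subgroup.inv_mem _ (Hs_mono' (Set.subset_insert n I) ht))
    have hc := cc_mem_Sym (J := J) (R := R) hne u u⁻¹
    refine ⟨⁅((hh i₀ n u)⁻¹ : St J R), t⁻¹⁆ * t⁻¹ * (cc i₀ n u u⁻¹)⁻¹, ?_, u⁻¹, ?_⟩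
    · exact Subgroup.mul_mem _ (Subgroup.mul_mem _ (Sym_le_Hs I h1) (Subgroup.inv_mem _ ht))
        (Sym_le_Hs I (Subgroup.inv_mem _ hc))
    · have h2 : (hh i₀ n u : St J R) * hh i₀ n u⁻¹ = cc i₀ n u u⁻¹ := by
        rw [hh_mul, mul_inv_cancel, hh_one, mul_one]
      have h3 : ((hh i₀ n u)⁻¹ : St J R) = (cc i₀ n u u⁻¹)⁻¹ * hh i₀ n u⁻¹ := by
        rw [Sym_central (Subgroup.inv_mem _ hc), ← h2]
        group
      have h4 : ((hh i₀ n u)⁻¹ : St J R) * t⁻¹ = ⁅((hh i₀ n u)⁻¹ : St J R), t⁻¹⁆ * t⁻¹ *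
          (hh i₀ n u)⁻¹ := by
        rw [commutatorElement_def]
        group
      rw [mul_inv_rev, h4, mul_assoc _ ((cc i₀ n u u⁻¹)⁻¹), ← h3]

/-- splitting off the coordinate `n` -/
theorem Hs_split {I : Set J} {n i₀ : J} (hn : n ∉ I) (hi : i₀ ∈ I) {s : St J R}
    (hs : s ∈ (Hs (insert n I) : Subgroup (St J R))) :
    ∃ t ∈ (Hs I : Subgroup (St J R)), ∃ u : Rˣ, s = t * hh i₀ n u := by
  have hbase : ∀ i ∈ I, ∀ v : Rˣ, (hh i n v : St J R) ∈ (BS hn hi : Subgroup (St J R)) := by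
    intro i hi' v
    have h0 : ∀ w : Rˣ, (hh i₀ n w : St J R) ∈ (BS hn hi : Subgroup (St J R)) := fun w =>
      ⟨1, Subgroup.one_mem _, w, (one_mul _).symm⟩
    by_cases hii : i = i₀
    · rw [hii]
      exact h0 v
    · obtain ⟨c, hc, h⟩ := hh_trans (R := R) i i₀ n hii (fun h => hn (h ▸ hi'))
        (fun h => hn (h ▸ hi)) v
      rw [h]
      refine Subgroup.mul_mem _ (Subgroup.mul_mem _
        ⟨hh i i₀ v, hh_mem_Hs hi' hi hii v, 1, by rw [hh_one, mul_one]⟩ (h0 v)) ?_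
      exact ⟨c, Sym_le_Hs I hc, 1, by rw [hh_one, mul_one]⟩
  have hle : (Hs (insert n I) : Subgroup (St J R)) ≤ BS hn hi := by
    refine Hs_le_of (fun i hi' j hj' hij u => ?_)
      (fun c hc => ⟨c, Sym_le_Hs I hc, 1, by rw [hh_one, mul_one]⟩)
    rcases Set.mem_insert_iff.1 hi' with rfl | hi2
    · rcases Set.mem_insert_iff.1 hj' with rfl | hj2
      · exact absurd rfl hij
      · have h1 := hh_mul_hh_swap (R := R) i j hij u
        rw [eq_inv_of_mul_eq_one_left h1]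
        exact Subgroup.inv_mem _ (hbase j hj2 u)
    · rcases Set.mem_insert_iff.1 hj' with rfl | hj2
      · exact hbase i hi2 u
      · exact ⟨hh i j u, hh_mem_Hs hi2 hj2 hij u, 1, by rw [hh_one, mul_one]⟩
  exact hle hs

/-- an element of `Hs (insert n I)` fixing `e_n` is in `Hs I` -/
theorem Hs_of_fix {I : Set J} {n i₀ : J} (hn : n ∉ I) (hi : i₀ ∈ I) {s : St J R}
    (hs : s ∈ (Hs (insert n I) : Subgroup (St J R)))
    (hf : phi s (Finsupp.single n 1) = Finsupp.single n 1) :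
    s ∈ (Hs I : Subgroup (St J R)) := by
  have hne : i₀ ≠ n := fun h => hn (h ▸ hi)
  obtain ⟨t, ht, u, rfl⟩ := Hs_split hn hi hs
  obtain ⟨d, hd, hd'⟩ := Hs_diag ht
  have h1 := congrArg (fun v : J →₀ R => v n) hf
  have h2 := Dg_hh (R := R) i₀ n hne u (Finsupp.single n 1) n
  simp only [map_mul, LinearEquiv.mul_apply] at h1
  rw [hd, h2, hd' n hn, Finsupp.single_eq_same, Units.val_one, one_mul, mul_one] at h1
  have h3 : dh i₀ n u n = u⁻¹ := by
    unfold dh
    rw [if_neg (Ne.symm hne), if_pos rfl]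
  rw [h3] at h1
  have h4 : u⁻¹ = 1 := Units.ext h1
  have h5 : u = 1 := inv_eq_one.1 h4
  rw [h5, hh_one, mul_one]
  exact ht

theorem Hs_le {I : Set J} : (Hs I : Subgroup (St J R)) ≤ S I ⊔ Sym J R := by
  refine Hs_le_of (fun i hi j hj hij u => Subgroup.mem_sup_left ?_) le_sup_right
  have h1 : ∀ v : Rˣ, (ww i j v : St J R) ∈ (S I : Subgroup (St J R)) := fun v =>
    Subgroup.mul_mem _ (Subgroup.mul_mem _ (x_mem_S hi hj _) (x_mem_S hj hi _)) (x_mem_S hi hj _)
  exact Subgroup.mul_mem _ (h1 _) (h1 _)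

end MSK
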