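import Pool.Agent.MSK.Cen

/-! MSK / Tr: canonical lifts `T v w` of the transvections `u ↦ u + (dot w u) v`, `dot w v = 0`.

DEFINITION. `T v w = ⁅X r v, Y r w⁆` with an index `r` outside the supports of `v`, `w` (`fresh`).
PROOFS. `T_eq` (any fresh `r` gives the same): let `r, r'` be fresh, `r ≠ r'`. Put `z = x r r' 1`. `⁅X r v, z⁆ = X r' v`
(from `conj_X` for the index `r'`: `X r v ∈ S {r'}ᶜ`, so `X r v * x r r' 1 * (X r v)⁻¹ = X r' (phi (X r v) (single r 1)) =
X r' (single r 1 + v)`, `phi_X`), `⁅z, Y r' w⁆ = Y r w` (similarly `z * Y r' w * z⁻¹`; or use rows: `z ∈`... compute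
`(Y r' w) z⁻¹ (Y r' w)⁻¹` with `Y r' w`... ; simplest: `⁅x r r' 1, x r' k b⁆ = x r k b` and additivity), `X r v` commutes with
`Y r' w` (all `x_kr(a)`, `x_r'l(b)`: `r ≠ r'`, `⁅x_r'l(b), x_kr(a)⁆ = 1` for `l ≠ k`, and the terms `l = k` give
`x_r'r(∑ w_k v_k) = x_r'r(dot w v) = 1`: precisely `Y r' w * X r v * (Y r' w)⁻¹ = X r (phi (Y r' w) v) = X r (v + single r' (dot w v))`
by `conj_X`, `phi_Y`). Then the identity (`comm_trick`): if `A` commutes with `B`, `p = ⁅A, z⁆`, `q = ⁅z, B⁆`, and `q` commutes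
with `p` and with `B`, then `⁅A, q⁆ = ⁅p, B⁆` [`A q A⁻¹ = (p z) B (p z)⁻¹ B⁻¹ = p q B p⁻¹ B⁻¹`]. With `A = X r v`, `B = Y r' w`:
`⁅X r v, Y r w⁆ = ⁅X r' v, Y r' w⁆` (`q = Y r w` commutes with `p = X r' v`, again because `dot w v = 0`, and with `Y r' w`).
`conj_T`: choose `r` fresh for `v, w, phi s v, psi s w` and not involved in `s`; `conj_X`, `conj_Y`.
`phi_T`: `phi` of the commutator: `phi_X`, `phi_Y` (four steps), or: by `phi_X`, `phi_Y` compute
`phi (X r v) (phi (Y r w) (phi (X r v)⁻¹ (phi (Y r w)⁻¹ u)))`, `dot w v = 0`, `v r = w r = 0`.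
`T_add_left`: `X r (v+v') = X r v X r v'` and `X r v` commutes with `T v' w` (its image: `conj_T` for `s = X r v`, `phi (X r v) v' = v'`,
`psi (X r v) w = w - single r (dot v w) = w`). So `⁅A A', B⁆ = A ⁅A', B⁆ A⁻¹ ⁅A, B⁆`. `T_add_right` similarly.
`T_smul`: `⁅X r (a•v), Y r w⁆ = ⁅X r v, Y r (a•w)⁆`: `comm_trick` with `z = x r r' a`. `T_comm`: `conj_T`. `T_single`:
`⁅x i r a, x r j 1⁆ = x i j a`. `map_T`, `emb_T`: `T_eq` and `map_X` etc. -/

set_option autoImplicit false
set_option linter.unusedVariables false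

namespace MSK

open scoped commutatorElement

variable {J : Type*} {R : Type*} [CommRing R] [DecidableEq J] [Infinite J]

/-- an index outside the supports -/
noncomputable def fresh (v w : J →₀ R) : J :=
  (Infinite.exists_notMem_finset (v.support ∪ w.support)).choose

/-- canonical lift of the transvection `1 + v ⊗ w` -/
noncomputable def T (v w : J →₀ R) : St J R := ⁅X (fresh v w) v, Y (fresh v w) w⁆

theorem comm_trick {G : Type*} [Group G] {A B z p q : G} (hAB : Commute A B) (hp : p = ⁅A, z⁆)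
    (hq : q = ⁅z, B⁆) (hpq : Commute p q) (hqB : Commute q B) : ⁅A, q⁆ = ⁅p, B⁆ := by
  have h1 : A * q * A⁻¹ = p * q * B * p⁻¹ * B⁻¹ := by
    have h2 : B * A = A * B := hAB.eq.symm
    have h3 : A⁻¹ * B * A = B := by rw [mul_assoc, h2, inv_mul_cancel_left]
    have h4 : A⁻¹ * B⁻¹ = B⁻¹ * A⁻¹ := by rw [← mul_inv_rev, ← mul_inv_rev, h2]
    rw [hp, hq, commutatorElement_def, commutatorElement_def]
    calc A * (z * B * z⁻¹ * B⁻¹) * A⁻¹ = A * z * B * z⁻¹ * (B⁻¹ * A⁻¹) := by group
      _ = A * z * (A⁻¹ * B * A) * z⁻¹ * (A⁻¹ * B⁻¹) := by rw [h3, h4]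
      _ = A * z * A⁻¹ * z⁻¹ * (z * B * z⁻¹ * B⁻¹) * B * (A * z * A⁻¹ * z⁻¹)⁻¹ * B⁻¹ := by group
  have h5 : p * q = q * p := hpq.eq
  have h6 : q * (p * B * p⁻¹ * B⁻¹) = p * B * p⁻¹ * B⁻¹ * q :=
    (((hpq.symm.mul_right hqB).mul_right hpq.symm.inv_right).mul_right hqB.inv_right).eq
  rw [commutatorElement_def, commutatorElement_def, h1, h5]
  calc q * p * B * p⁻¹ * B⁻¹ * q⁻¹ = q * (p * B * p⁻¹ * B⁻¹) * q⁻¹ := by group
    _ = p * B * p⁻¹ * B⁻¹ := by rw [h6, mul_inv_cancel_right]

omit [Infinite J] in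
theorem mem_compl_of_apply {n : J} (v : J →₀ R) (hv : v n = 0) :
    ∀ k ∈ v.support, k ∈ ({n}ᶜ : Set J) := by
  intro k hk h
  rw [Set.mem_singleton_iff] at h
  rw [Finsupp.mem_support_iff, h] at hk
  exact hk hv

/-- a column and a row of different indices commute if `dot w v = 0` -/
theorem X_comm_Y {n m : J} (hnm : n ≠ m) (v w : J →₀ R) (hvn : v n = 0) (hvm : v m = 0)
    (hwn : w n = 0) (hwm : w m = 0) (hd : dot w v = 0) : Commute (X n v) (Y m w) := by
  have hs : Y m w ∈ (S {n}ᶜ : Subgroup (St J R)) :=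
    Y_mem_S (I := {n}ᶜ) (fun h => hnm (Set.mem_singleton_iff.1 h).symm) w (mem_compl_of_apply w hwn)
  have h := conj_X hs v
  rw [phi_Y m w v hwm, hd, Finsupp.single_zero, add_zero, mul_inv_eq_iff_eq_mul] at h
  exact h.symm

/-- rows of different indices commute -/
theorem Y_comm_Y {n m : J} (hnm : n ≠ m) (w w' : J →₀ R) (hwm : w m = 0) (hwn' : w' n = 0)
    (hwm' : w' m = 0) : Commute (Y n w) (Y m w') := by
  have hs : Y m w' ∈ (S {n}ᶜ : Subgroup (St J R)) :=
    Y_mem_S (I := {n}ᶜ) (fun h => hnm (Set.mem_singleton_iff.1 h).symm) w'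
      (mem_compl_of_apply w' hwn')
  have h := conj_Y hs w
  rw [psi_Y m w' w hwm', hwm, zero_smul, sub_zero, mul_inv_eq_iff_eq_mul] at h
  exact h.symm

theorem comm_X_x {r r' : J} (hr : r ≠ r') (v : J →₀ R) (hv : v r = 0) (hv' : v r' = 0) (a : R) :
    ⁅X r v, x r r' a⁆ = X r' (a • v) := by
  have hs : X r v ∈ (S {r'}ᶜ : Subgroup (St J R)) :=
    X_mem_S (I := {r'}ᶜ) (fun h => hr (Set.mem_singleton_iff.1 h)) v (mem_compl_of_apply v hv')
  have h := conj_X hs (Finsupp.single r a)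
  rw [phi_X r v _ hv, Finsupp.single_eq_same, add_comm, X_add, X_single] at h
  rw [commutatorElement_def, h, mul_inv_cancel_right]

theorem comm_x_Y {r r' : J} (hr : r ≠ r') (w : J →₀ R) (hw : w r = 0) (hw' : w r' = 0) (a : R) :
    ⁅x r r' a, Y r' w⁆ = Y r (a • w) := by
  have hs : Y r' w ∈ (S {r}ᶜ : Subgroup (St J R)) :=
    Y_mem_S (I := {r}ᶜ) (fun h => hr (Set.mem_singleton_iff.1 h).symm) w (mem_compl_of_apply w hw)
  have h := conj_Y hs (Finsupp.single r' a)
  rw [psi_Y r' w _ hw', Finsupp.single_eq_same, sub_eq_neg_add, Y_add, Y_neg, Y_single] at h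
  have h2 : ⁅x r r' a, Y r' w⁆ = x r r' a * (Y r' w * x r r' a * (Y r' w)⁻¹)⁻¹ := by
    rw [commutatorElement_def]
    group
  rw [h2, h, mul_inv_rev, inv_inv, mul_inv_cancel_left]

theorem key_comm {r r' : J} (hr : r ≠ r') (v w : J →₀ R) (hv : v r = 0) (hv' : v r' = 0)
    (hw : w r = 0) (hw' : w r' = 0) (hd : dot w v = 0) (a : R) :
    ⁅X r v, Y r (a • w)⁆ = ⁅X r' (a • v), Y r' w⁆ := by
  have h0 : ∀ (u : J →₀ R) (k : J), u k = 0 → (a • u) k = 0 := fun u k h => by
    rw [Finsupp.smul_apply, h, smul_zero]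
  refine comm_trick (z := x r r' a) (X_comm_Y hr v w hv hv' hw hw' hd)
    (comm_X_x hr v hv hv' a).symm (comm_x_Y hr w hw hw' a).symm ?_ ?_
  · refine X_comm_Y hr.symm (a • v) (a • w) (h0 v r' hv') (h0 v r hv) (h0 w r' hw') (h0 w r hw) ?_
    rw [dot_smul_left, dot_smul_right, hd, mul_zero, mul_zero]
  · exact Y_comm_Y hr (a • w) w (h0 w r' hw') hw hw'

theorem fresh_spec (v w : J →₀ R) : v (fresh v w) = 0 ∧ w (fresh v w) = 0 := by
  have h := (Infinite.exists_notMem_finset (v.support ∪ w.support)).choose_spec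
  rw [Finset.mem_union, not_or, Finsupp.notMem_support_iff, Finsupp.notMem_support_iff] at h
  exact h

theorem T_eq (v w : J →₀ R) (hd : dot w v = 0) (r : J) (hv : v r = 0) (hw : w r = 0) :
    T v w = ⁅X r v, Y r w⁆ := by
  obtain ⟨h1, h2⟩ := fresh_spec v w
  unfold T
  by_cases h : fresh v w = r
  · rw [h]
  · have h3 := key_comm h v w h1 hv h2 hw hd (1 : R)
    rwa [one_smul, one_smul] at h3

theorem phi_T (v w u : J →₀ R) (hd : dot w v = 0) : phi (T v w) u = u + dot w u • v := by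
  obtain ⟨h1, h2⟩ := fresh_spec v w
  unfold T
  set r := fresh v w
  have h1' : (-v) r = 0 := by rw [Finsupp.neg_apply, h1, neg_zero]
  have h2' : (-w) r = 0 := by rw [Finsupp.neg_apply, h2, neg_zero]
  have hdn : ∀ y : J →₀ R, dot (-w) y = - dot w y := fun y => by
    rw [← neg_one_smul R w, dot_smul_left, neg_one_mul]
  rw [commutatorElement_def, ← X_neg, ← Y_neg, map_mul, map_mul, map_mul, LinearEquiv.mul_apply,
    LinearEquiv.mul_apply, LinearEquiv.mul_apply, phi_Y r (-w) u h2', hdn]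
  set c := dot w u with hc
  rw [phi_X r (-v) _ h1']
  have e1 : (u + Finsupp.single r (-c)) r = u r - c := by
    rw [Finsupp.add_apply, Finsupp.single_eq_same, sub_eq_add_neg]
  rw [e1, phi_Y r w _ h2]
  have e2 : dot w (u + Finsupp.single r (-c) + (u r - c) • -v) = c := by
    rw [dot_add_right, dot_add_right, dot_single_right, h2, zero_mul, smul_neg,
      ← neg_smul, dot_smul_right, hd, mul_zero, add_zero, add_zero, ← hc]
  rw [e2]
  have e3 : u + Finsupp.single r (-c) + (u r - c) • -v + Finsupp.single r c =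
      u + (c - u r) • v := by
    rw [Finsupp.single_neg]
    module
  rw [e3, phi_X r v _ h1]
  have e4 : (u + (c - u r) • v) r = u r := by
    rw [Finsupp.add_apply, Finsupp.smul_apply, h1, smul_zero, add_zero]
  rw [e4]
  module

theorem psi_T (v w u : J →₀ R) (hd : dot w v = 0) : psi (T v w) u = u - dot v u • w := by
  obtain ⟨h1, h2⟩ := fresh_spec v w
  unfold T
  set r := fresh v w
  have h1' : (-v) r = 0 := by rw [Finsupp.neg_apply, h1, neg_zero]
  have h2' : (-w) r = 0 := by rw [Finsupp.neg_apply, h2, neg_zero]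
  have hdn : ∀ y : J →₀ R, dot (-v) y = - dot v y := fun y => by
    rw [← neg_one_smul R v, dot_smul_left, neg_one_mul]
  have hd' : dot v w = 0 := by rw [dot_comm, hd]
  rw [commutatorElement_def, ← X_neg, ← Y_neg, map_mul, map_mul, map_mul, LinearEquiv.mul_apply,
    LinearEquiv.mul_apply, LinearEquiv.mul_apply, psi_Y r (-w) u h2', psi_X r (-v) _ h1', hdn]
  set c := dot v u with hc
  have e1 : dot v (u - u r • -w) = c := by
    rw [smul_neg, sub_neg_eq_add, dot_add_right, dot_smul_right, hd', mul_zero, add_zero]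
  rw [e1, psi_Y r w _ h2]
  have e2 : (u - u r • -w - Finsupp.single r (-c)) r = u r + c := by
    rw [Finsupp.sub_apply, Finsupp.sub_apply, Finsupp.smul_apply, h2', smul_zero, sub_zero,
      Finsupp.single_eq_same, sub_neg_eq_add]
  rw [e2]
  have e3 : u - u r • -w - Finsupp.single r (-c) - (u r + c) • w =
      u + Finsupp.single r c - c • w := by
    rw [Finsupp.single_neg]
    module
  rw [e3, psi_X r v _ h1]
  have e4 : dot v (u + Finsupp.single r c - c • w) = c := by
    rw [sub_eq_add_neg, ← neg_smul, dot_add_right, dot_add_right, dot_single_right, h1, zero_mul,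
      dot_smul_right, hd', mul_zero, add_zero, add_zero, ← hc]
  rw [e4]
  abel

theorem exists_fresh (F : Finset J) : ∃ r, r ∉ F := Infinite.exists_notMem_finset F

theorem conj_comm {G : Type*} [Group G] (s a b : G) :
    s * ⁅a, b⁆ * s⁻¹ = ⁅s * a * s⁻¹, s * b * s⁻¹⁆ := by
  rw [commutatorElement_def, commutatorElement_def]
  group

theorem conj_T (s : St J R) (v w : J →₀ R) (hd : dot w v = 0) :
    s * T v w * s⁻¹ = T (phi s v) (psi s w) := by
  obtain ⟨I, hI⟩ := exists_finset_mem_S s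
  obtain ⟨r, hr⟩ := exists_fresh
    (I ∪ (v.support ∪ (w.support ∪ ((phi s v).support ∪ (psi s w).support))))
  simp only [Finset.mem_union, not_or, Finsupp.notMem_support_iff] at hr
  obtain ⟨hrI, h1, h2, h3, h4⟩ := hr
  have hS := mem_S_compl hI hrI
  rw [T_eq v w hd r h1 h2, conj_comm, conj_X hS, conj_Y hS,
    T_eq (phi s v) (psi s w) (by rw [dot_psi_phi, hd]) r h3 h4]

theorem T_comm_aux (v w v' w' : J →₀ R) (hd : dot w v = 0) (hd' : dot w' v' = 0)
    (h1 : dot w v' = 0) (h2 : dot w' v = 0) : Commute (T v w) (T v' w') := by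
  have h := conj_T (T v w) v' w' hd'
  rw [phi_T v w v' hd, psi_T v w w' hd, h1, dot_comm v w', h2, zero_smul, zero_smul, add_zero,
    sub_zero, mul_inv_eq_iff_eq_mul] at h
  exact h

theorem T_add_left (v v' w : J →₀ R) (hd : dot w v = 0) (hd' : dot w v' = 0) :
    T (v + v') w = T v w * T v' w := by
  obtain ⟨r, hr⟩ := exists_fresh (v.support ∪ (v'.support ∪ w.support))
  simp only [Finset.mem_union, not_or, Finsupp.notMem_support_iff] at hr
  obtain ⟨h1, h2, h3⟩ := hr
  have hdd : dot w (v + v') = 0 := by rw [dot_add_right, hd, hd', add_zero]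
  have e1 : T (v + v') w = X r v * T v' w * (X r v)⁻¹ * T v w := by
    rw [T_eq (v + v') w hdd r (by rw [Finsupp.add_apply, h1, h2, add_zero]) h3,
      T_eq v w hd r h1 h3, T_eq v' w hd' r h2 h3, X_add, commutatorElement_def,
      commutatorElement_def, commutatorElement_def]
    group
  have e2 : X r v * T v' w * (X r v)⁻¹ = T v' w := by
    rw [conj_T _ _ _ hd', phi_X r v v' h1, psi_X r v w h1, h2, dot_comm v w, hd, zero_smul,
      Finsupp.single_zero, add_zero, sub_zero]
  rw [e1, e2]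
  exact (T_comm_aux v w v' w hd hd' hd' hd).eq.symm

theorem T_add_right (v w w' : J →₀ R) (hd : dot w v = 0) (hd' : dot w' v = 0) :
    T v (w + w') = T v w * T v w' := by
  obtain ⟨r, hr⟩ := exists_fresh (v.support ∪ (w.support ∪ w'.support))
  simp only [Finset.mem_union, not_or, Finsupp.notMem_support_iff] at hr
  obtain ⟨h1, h2, h3⟩ := hr
  have hdd : dot (w + w') v = 0 := by rw [dot_add_left, hd, hd', add_zero]
  have e1 : T v (w + w') = T v w * (Y r w * T v w' * (Y r w)⁻¹) := by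
    rw [T_eq v (w + w') hdd r h1 (by rw [Finsupp.add_apply, h2, h3, add_zero]),
      T_eq v w hd r h1 h2, T_eq v w' hd' r h1 h3, Y_add, commutatorElement_def,
      commutatorElement_def, commutatorElement_def]
    group
  have e2 : Y r w * T v w' * (Y r w)⁻¹ = T v w' := by
    rw [conj_T _ _ _ hd', phi_Y r w v h2, psi_Y r w w' h2, h3, hd, zero_smul,
      Finsupp.single_zero, add_zero, sub_zero]
  rw [e1, e2]

theorem T_smul (a : R) (v w : J →₀ R) (hd : dot w v = 0) : T (a • v) w = T v (a • w) := by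
  obtain ⟨r, hr⟩ := exists_fresh (v.support ∪ w.support)
  obtain ⟨r', hr'⟩ := exists_fresh (insert r (v.support ∪ w.support))
  simp only [Finset.mem_insert, Finset.mem_union, not_or, Finsupp.notMem_support_iff] at hr hr'
  obtain ⟨h1, h2⟩ := hr
  obtain ⟨h0, h3, h4⟩ := hr'
  have hz : ∀ (u : J →₀ R) (k : J), u k = 0 → (a • u) k = 0 := fun u k h => by
    rw [Finsupp.smul_apply, h, smul_zero]
  rw [T_eq (a • v) w (by rw [dot_smul_right, hd, mul_zero]) r' (hz v r' h3) h4,
    T_eq v (a • w) (by rw [dot_smul_left, hd, mul_zero]) r h1 (hz w r h2)]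
  exact (key_comm (Ne.symm h0) v w h1 h3 h2 h4 hd a).symm

theorem T_zero_left (w : J →₀ R) : T (0 : J →₀ R) w = 1 := by
  unfold T
  rw [X_zero, commutatorElement_one_left]

theorem T_zero_right (v : J →₀ R) : T v (0 : J →₀ R) = 1 := by
  unfold T
  rw [Y_zero, commutatorElement_one_right]

theorem T_neg_left (v w : J →₀ R) (hd : dot w v = 0) : T (-v) w = (T v w)⁻¹ := by
  have hd' : dot w (-v) = 0 := by rw [← neg_one_smul R v, dot_smul_right, hd, mul_zero]
  rw [eq_inv_iff_mul_eq_one, ← T_add_left _ _ _ hd' hd, neg_add_cancel, T_zero_left]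

theorem T_comm (v w v' w' : J →₀ R) (hd : dot w v = 0) (hd' : dot w' v' = 0)
    (h1 : dot w v' = 0) (h2 : dot w' v = 0) : Commute (T v w) (T v' w') :=
  T_comm_aux v w v' w' hd hd' h1 h2

/-- `⁅T v w, T v' w'⁆ = T v ((dot w v') w')` if `dot w' v = 0` -/
theorem T_comm3 (v w v' w' : J →₀ R) (hd : dot w v = 0) (hd' : dot w' v' = 0)
    (h2 : dot w' v = 0) : ⁅T v w, T v' w'⁆ = T (dot w v' • v) w' := by
  have h := conj_T (T v w) v' w' hd'
  rw [phi_T v w v' hd, psi_T v w w' hd, dot_comm v w', h2, zero_smul, sub_zero, add_comm,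
    T_add_left _ _ _ (by rw [dot_smul_right, h2, mul_zero]) hd'] at h
  rw [commutatorElement_def, h, mul_inv_cancel_right]

theorem T_single (i j : J) (hij : i ≠ j) (a b : R) :
    T (Finsupp.single i a) (Finsupp.single j b) = x i j (a * b) := by
  obtain ⟨r, hr⟩ := exists_fresh ({i, j} : Finset J)
  simp only [Finset.mem_insert, Finset.mem_singleton, not_or] at hr
  obtain ⟨h1, h2⟩ := hr
  rw [T_eq _ _ (by rw [dot_single_left, Finsupp.single_eq_of_ne hij.symm, mul_zero]) r
    (Finsupp.single_eq_of_ne h1) (Finsupp.single_eq_of_ne h2), X_single, Y_single,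
    x_comm3 i r j a b (Ne.symm h1) h2 hij]

theorem map_T {R' : Type*} [CommRing R'] (f : R →+* R') (v w : J →₀ R) (hd : dot w v = 0) :
    map f (T v w) = T (v.mapRange f (map_zero f)) (w.mapRange f (map_zero f)) := by
  obtain ⟨h1, h2⟩ := fresh_spec v w
  have hd' : dot (w.mapRange f (map_zero f)) (v.mapRange f (map_zero f)) = 0 := by
    unfold dot
    rw [Finsupp.sum_mapRange_index (fun _ => zero_mul _)]
    have h3 : (w.sum fun a b => f b * (v.mapRange f (map_zero f)) a) = f (dot w v) := by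
      unfold dot
      rw [map_finsuppSum]
      simp [Finsupp.mapRange_apply]
    rw [h3, hd, map_zero]
  rw [T_eq _ _ hd' (fresh v w) (by rw [Finsupp.mapRange_apply, h1, map_zero])
    (by rw [Finsupp.mapRange_apply, h2, map_zero])]
  unfold T
  rw [map_commutatorElement, map_X, map_Y]

theorem emb_T {J' : Type*} [DecidableEq J'] [Infinite J'] (e : J → J')
    (he : Function.Injective e) (v w : J →₀ R) (hd : dot w v = 0) :
    emb e he (T v w) = T (v.mapDomain e) (w.mapDomain e) := by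
  obtain ⟨h1, h2⟩ := fresh_spec v w
  have hd' : dot (w.mapDomain e) (v.mapDomain e) = 0 := by
    unfold dot
    rw [Finsupp.sum_mapDomain_index_inj he]
    simp only [Finsupp.mapDomain_apply he]
    exact hd
  rw [T_eq _ _ hd' (e (fresh v w)) (by rw [Finsupp.mapDomain_apply he, h1])
    (by rw [Finsupp.mapDomain_apply he, h2])]
  unfold T
  rw [map_commutatorElement, emb_X, emb_Y]

end MSK
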